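import Pool.Agent.SIT.LinQ2

/-!
# The groups between `ASL(V)` and `AΓL(V)`, `dim V ≥ 2`: the final form
-/

namespace Pool.Agent.SIT.Gen

open Finset

variable {F : Type*} [Field F] [Fintype F] [CharP F 2] {V : Type*} [AddCommGroup V] [Module F V]
  [Fintype V] [DecidableEq V] {G : Subgroup (Equiv.Perm V)}

/-- **All codes for the groups between `ASL(V)` and `AΓL(V)`**, `dim V ≥ 2`. -/
theorem lin_all (hG : LinG F G) (hdim : 2 ≤ Module.finrank F V) {k : ℕ} (hk : 3 ≤ k)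
    (hk' : 2 * k ≤ Fintype.card V) (C : Set (Finset V)) :
    (IsSITCode G k C ∧ C.Nonempty) ↔ ∃ γ : Finset V, γ.card = k ∧ C = Orb G γ ∧
      ((∃ W : Submodule F V, Translate (W : Set V) γ) ∨ Exc F G γ ∨ ∃ β, Quad F G γ β) := by
  have h2 : ∀ x : V, x + x = 0 := add_self_of_char F V
  have hd := exists_ker_of_finrank (F := F) hdim
  have htr : ∀ {g : V ≃+ V} {t : V} {σ : F ≃+* F}, PG G g t σ → ∀ t', PG G g t' σ :=
    fun h t' => hG.pg_tr h t'
  apply iff_of _ hk hk'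
  · intro γ hC hγ
    exact nec_gen hG.semiG hC hk hk' hγ
  · intro γ hcard h
    rcases h with ⟨W, v, hγ⟩ | (⟨hF, ⟨g, t, σ, hg, hσ⟩, W, hW, v, hγ⟩ |
      ⟨hF, hall, W, hW, hW', v, hγ⟩) | ⟨β, hq⟩
    · apply coset_sit h2 htr W.toAddSubgroup hγ
      intro x hx y hy
      obtain ⟨g, hg, h3, h4⟩ := LinS.lin_S1 (hG.grp h2) hd W hx hy
      exact ⟨g, RingEquiv.refl F, hg, h3, h4⟩
    · apply coset_sit h2 htr W hγ
      intro x hx y hy
      exact LinS.lin_S2 (hG.grp h2) hd hF W hW ⟨g, σ, ⟨t, hg⟩, hσ⟩ hx hy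
    · apply coset_sit h2 htr W hγ
      intro x hx y hy
      exact LinS.lin_S3 (hG.grp h2) hd hF W hW hW' hall hx hy
    · have hR : ∀ r, (∀ y, β r y = 0) → ∀ x, ind γ (x + r) = ind γ x :=
        fun r hr => ind_period_iff.2 ((hq.period r).2 hr)
      rcases hq.small with hF | ⟨hF, g, t, σ, hg, hσ⟩
      · exact hG.quad_two hF (by omega) hq.polar hR
      · intro u hu u' hu' w hw w' hw'
        have e1 : ind γ u = ind γ w := by rw [ind_eq_one.2 hu, ind_eq_one.2 hw]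
        have e2 : ind γ u' = ind γ w' := by
          rw [ind_eq_zero_iff.2 hu', ind_eq_zero_iff.2 hw']
        have e3 : ind γ u ≠ ind γ u' := by
          rw [ind_eq_one.2 hu, ind_eq_zero_iff.2 hu']
          decide
        obtain ⟨g', t', σ', hg', h1, h3, h4⟩ := S4.lin_S4 (F := F) hF hq.polar hq.comp hR
          (P := PG G) (fun h c x => h.1 c x) (fun h h' => PG_mul h h') (fun r => hG.pg_one r)
          (fun φ v h t => hG.pg_tv φ v h t) (by
            obtain ⟨h5, a, ha, h6, h7⟩ := hg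
            refine ⟨g, t, σ, ⟨h5, a, ha, h6⟩, hσ, fun x => ?_⟩
            rw [← h6]
            exact (ind_act_iff a γ γ).2 (act_eq_iff.2 h7) x) e1 e2 e3
        exact ⟨toP g' t', PG_toP hg', (ind_act_iff _ _ _).1 h1, h3, h4⟩

/-- The groups between `ASL(V)` and `AΓL(V)` are 2-transitive, `dim V ≥ 2`. -/
theorem lin_two (hG : LinG F G) (hdim : 2 ≤ Module.finrank F V) : IsTwoTransitive G := by
  have h2 : ∀ x : V, x + x = 0 := add_self_of_char F V
  have hd := exists_ker_of_finrank (F := F) hdim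
  have hne : ∀ {x y : V}, x ≠ y → y + x ∉ (⊥ : Submodule F V) := by
    intro x y h h0
    apply h
    have h1 : y + x = 0 := h0
    calc x = y + x + y := by
          rw [add_comm y x, add_assoc, h2, add_zero]
      _ = y := by rw [h1, zero_add]
  intro x y x' y' h h'
  obtain ⟨g, ⟨t, hg⟩, -, h1⟩ := LinS.lin_S1 (hG.grp h2) hd ⊥ (hne h) (hne h')
  refine ⟨toP g (g x + x'), PG_toP (hG.pg_tr hg _), ?_, ?_⟩
  · rw [toP_apply, ← add_assoc, h2, zero_add]
  · rw [toP_apply, ← add_assoc, ← map_add, h1, add_assoc, h2, add_zero]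

/-- **The groups between `ASL(V)` and `AΓL(V)`**, `dim V ≥ 2`, `|F|` even. -/
theorem lin_class (hG : LinG F G) (hdim : 2 ≤ Module.finrank F V) :
    IsTwoTransitive G ∧ ∀ (k : ℕ) (C : Set (Finset V)), 3 ≤ k → 2 * k ≤ Fintype.card V →
      ((IsSITCode G k C ∧ C.Nonempty) ↔ ∃ γ : Finset V, γ.card = k ∧ C = Orb G γ ∧
        ((∃ W : Submodule F V, Translate (W : Set V) γ) ∨ Exc F G γ ∨ ∃ β, Quad F G γ β)) :=
  ⟨lin_two hG hdim, fun _ C hk hk' => lin_all hG hdim hk hk' C⟩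

end Pool.Agent.SIT.Gen
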