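import Pool.Agent.SIT.SporMain
import Pool.Agent.SIT.LinAll

/-!
# `2^4 : A_7`: the codes in the common form
-/

namespace Pool.Agent.SIT.Gen

open Finset

section

variable {n : ℕ}

/-- Groups of affine maps are semilinear over the field of order two. -/
lemma semiG_permOf (G : Subgroup (AGL n)) : SemiG (ZMod 2) (permOf G) := by
  rintro h ⟨g, -, hg⟩
  refine ⟨g.linear.toAddEquiv, g 0, RingEquiv.refl _, ?_, ?_⟩
  · intro c x
    exact map_smul g.linear c x
  · intro x
    rw [hg]
    exact agl_linear g x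

/-- `AGL(n, 2)` -/
lemma linG_top : LinG (ZMod 2) (permOf (⊤ : Subgroup (AGL n))) where
  semi := by
    intro h hh
    obtain ⟨g, t, σ, h1, h2⟩ := semiG_permOf _ h hh
    exact ⟨σ, g, t, h1, h2⟩
  trans := fun t => ⟨AffineEquiv.constVAdd (ZMod 2) (Vec n) t, Subgroup.mem_top _,
    fun x => add_comm x t⟩
  tv := by
    intro φ v h g hg
    refine ⟨(LinearEquiv.transvection h).toAffineEquiv, Subgroup.mem_top _, fun x => ?_⟩
    rw [hg]
    rfl

/-- flats and quadrics are strongly incidence-transitive sets -/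
lemma sitSet_of_good (hn : 2 ≤ n) {G : Subgroup (Equiv.Perm (Vec n))} {γ : Finset (Vec n)}
    (hk : 3 ≤ γ.card) (hk' : 2 * γ.card ≤ Fintype.card (Vec n))
    (h : (∃ W : Submodule (ZMod 2) (Vec n), Translate (W : Set (Vec n)) γ) ∨
      ∃ β, Quad (ZMod 2) G γ β) : SITSet γ := by
  have hdim : 2 ≤ Module.finrank (ZMod 2) (Vec n) := by
    rw [Module.finrank_fintype_fun_eq_card, Fintype.card_fin]
    exact hn
  have hC := (lin_all (F := ZMod 2) (linG_top (n := n)) hdim hk hk'
    (Orb (permOf (⊤ : Subgroup (AGL n))) γ)).2 ⟨γ, rfl, rfl, by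
      rcases h with h | ⟨β, h⟩
      · exact Or.inl h
      · exact Or.inr (Or.inr ⟨β, h.polar, h.comp, h.period, h.ne, Or.inl (ZMod.card 2)⟩)⟩
  intro u hu u' hu' w hw w' hw'
  obtain ⟨g, ⟨a, -, ha⟩, h1, h2, h3⟩ := hC.1.stab ⟨1, Subgroup.one_mem _, (act_one γ).symm⟩
    u hu u' hu' w hw w' hw'
  refine ⟨g, ?_, act_eq_iff.1 h1, h2, h3⟩
  intro x y
  rw [ha, ha, ha, ha, agl_linear a (x + y), agl_linear a x, agl_linear a y, map_add]
  have := add_self' (a 0)
  calc a.linear x + a.linear y + a 0 = a.linear x + a.linear y + a 0 + 0 := by rw [add_zero]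
    _ = a.linear x + a.linear y + a 0 + (a 0 + a 0) := by rw [this]
    _ = _ := by abel

end

/-- **`2^4 : A_7`** in the common form: flats, and quadrics. -/
theorem a7_class : IsTwoTransitive (permOf A7.G7) ∧
    ∀ (k : ℕ) (C : Set (Finset (Vec 4))), 3 ≤ k → 2 * k ≤ Fintype.card (Vec 4) →
    ((IsSITCode (permOf A7.G7) k C ∧ C.Nonempty) ↔
      ∃ γ : Finset (Vec 4), γ.card = k ∧ C = Orb (permOf A7.G7) γ ∧
        ((∃ W : Submodule (ZMod 2) (Vec 4), Translate (W : Set (Vec 4)) γ) ∨
          Exc (ZMod 2) (permOf A7.G7) γ ∨ ∃ β, Quad (ZMod 2) (permOf A7.G7) γ β)) := by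
  refine ⟨twoTransitive_permOf A7.spor_A7.1, fun k C hk hk' => ?_⟩
  have h16 : Fintype.card (Vec 4) = 16 := by rw [card_vec]; norm_num
  constructor
  · rintro ⟨hC, γ, hγ⟩
    have hcard := hC.card_eq γ hγ
    obtain ⟨u, hu⟩ : γ.Nonempty := by rw [← Finset.card_pos]; omega
    obtain ⟨u', hu'⟩ : ∃ u', u' ∉ γ := by
      by_contra hcon
      push Not at hcon
      rw [Finset.eq_univ_of_forall hcon, Finset.card_univ] at hcard
      omega
    exact ⟨γ, hcard, hC.eq_orb hγ hu hu', nec_gen (F := ZMod 2) (semiG_permOf _) hC hk hk' hγ⟩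
  · rintro ⟨γ, hcard, rfl, hgood⟩
    have hgood' : (∃ W : Submodule (ZMod 2) (Vec 4), Translate (W : Set (Vec 4)) γ) ∨
        ∃ β, Quad (ZMod 2) (permOf A7.G7) γ β := by
      rcases hgood with h | (⟨h, -⟩ | ⟨h, -⟩) | h
      · exact Or.inl h
      · rw [ZMod.card] at h
        norm_num at h
      · rw [ZMod.card] at h
        norm_num at h
      · exact Or.inr h
    have hS := sitSet_of_good (n := 4) (by norm_num) (by omega) (by omega) hgood'
    have hne : γ.Nonempty := by rw [← Finset.card_pos]; omega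
    -- some code of the list contains `γ`
    obtain ⟨D, hD, hγD⟩ : ∃ D : Set (Finset (Vec 4)), SIT.IsSITCode A7.G7 k D ∧ γ ∈ D := by
      rcases sit_set_classification hS hne (by rw [← card_vec]; omega) with ⟨A, hA⟩ |
        ⟨m, hm, hm2, hQ⟩
      · have hne' : (A : Set (Vec 4)).Nonempty := by
          rw [← hA]
          exact hne
        have hc : γ.card = 2 ^ Module.finrank (ZMod 2) A.direction := card_flat hA hne
        have hmem : γ ∈ FlatCode 4 (Module.finrank (ZMod 2) A.direction) := ⟨A, hA, rfl⟩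
        have hd : Module.finrank (ZMod 2) A.direction = 2 ∨
            Module.finrank (ZMod 2) A.direction = 3 := by
          set d := Module.finrank (ZMod 2) A.direction
          have h1 : 2 ^ d ≤ 2 ^ 3 := by omega
          have h2 : 2 ^ 1 < 2 ^ d := by omega
          have h3 : d ≤ 3 := (Nat.pow_le_pow_iff_right (by norm_num)).1 h1
          have h4 : 1 < d := (Nat.pow_lt_pow_iff_right (by norm_num)).1 h2
          omega
        rcases hd with hd | hd
        · rw [hd] at hc hmem
          have hk4 : k = 4 := by rw [← hcard, hc]; norm_num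
          rw [hk4]
          exact ⟨_, A7.sit_planes, hmem⟩
        · rw [hd] at hc hmem
          have hk4 : k = 8 := by rw [← hcard, hc]; norm_num
          rw [hk4]
          exact ⟨_, A7.sit_hyperplanes, hmem⟩
      · have hm' : m = 2 := by omega
        subst hm'
        have hk6 : k = 6 := by rw [← hcard]; exact A7.card_QC hQ
        rw [hk6]
        by_cases hp : ∃ i, A7.PolarIs γ (A7.cf i)
        · exact ⟨_, A7.sit_C112, hQ, hp⟩
        · push Not at hp
          exact ⟨_, A7.sit_C336, hQ, hp⟩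
    have hD' := isSIT_permOf.2 hD
    obtain ⟨u, hu⟩ := hne
    obtain ⟨u', hu'⟩ : ∃ u', u' ∉ γ := by
      by_contra hcon
      push Not at hcon
      rw [Finset.eq_univ_of_forall hcon, Finset.card_univ] at hcard
      omega
    rw [← hD'.eq_orb hγD hu hu']
    exact ⟨hD', γ, hγD⟩

end Pool.Agent.SIT.Gen
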