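import Pool.Agent.SIT.Existence

/-!
# Hyperplane codes of 2-transitive affine groups

If `G ≤ AGL(n,2)` is 2-transitive on `F_2^n` then every nonempty `G`-invariant set of affine
hyperplanes is the set of all affine hyperplanes (2-design count).
-/

namespace Pool.Agent.SIT

open Finset

/-- The hyperplane `φ = c`. -/
noncomputable def hyp {n : ℕ} (p : Module.Dual (ZMod 2) (Vec n) × ZMod 2) : Finset (Vec n) :=
  univ.filter (fun x => p.1 x = p.2)

lemma hyp_repr {n : ℕ} (hn : 2 ≤ n) {γ : Finset (Vec n)} (hγ : γ ∈ FlatCode n (n - 1)) :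
    ∃ p : Module.Dual (ZMod 2) (Vec n) × ZMod 2, p.1 ≠ 0 ∧ hyp p = γ := by
  obtain ⟨A, hA, hd⟩ := hγ
  have hne : γ.Nonempty := by
    rw [Finset.nonempty_iff_ne_empty]
    intro h0
    have h1 : A = ⊥ := by
      apply SetLike.coe_injective
      rw [← hA, h0]
      simp
    rw [h1, AffineSubspace.direction_bot, finrank_bot] at hd
    omega
  obtain ⟨u, hu⟩ := hne
  have hlt : A.direction ≠ ⊤ := by
    intro h
    rw [h, finrank_top, Module.finrank_fin_fun] at hd
    omega
  obtain ⟨y, hy⟩ : ∃ y, y ∉ A.direction := by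
    by_contra hcon
    push Not at hcon
    exact hlt (eq_top_iff.2 fun x _ => hcon x)
  obtain ⟨φ, hφ1, hφ2⟩ := exists_dual_of_notMem A.direction y hy
  have hφ0 : φ ≠ 0 := by
    rintro rfl
    simp at hφ1
  have hker : A.direction = LinearMap.ker φ := by
    apply Submodule.eq_of_le_of_finrank_eq
    · intro t ht
      exact hφ2 t ht
    · have h1 := LinearMap.finrank_range_add_finrank_ker φ
      have h2 : LinearMap.range φ = ⊤ := by
        rw [eq_top_iff]
        intro c _
        refine ⟨c • y, ?_⟩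
        rw [map_smul, hφ1, smul_eq_mul, mul_one]
      rw [h2, finrank_top, Module.finrank_self, Module.finrank_fin_fun] at h1
      omega
  refine ⟨(φ, φ u), hφ0, ?_⟩
  ext x
  rw [hyp, mem_filter, direction_mem_iff hA hu, hker, LinearMap.mem_ker, map_add]
  simp only [mem_univ, true_and]
  generalize φ x = a
  generalize φ u = b
  revert a b
  decide

lemma card_pairs (n : ℕ) : (univ.filter (fun p : Module.Dual (ZMod 2) (Vec n) × ZMod 2 =>
    p.1 ≠ 0)).card = 2 * (2 ^ n - 1) := by
  classical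
  have h1 : (univ.filter (fun p : Module.Dual (ZMod 2) (Vec n) × ZMod 2 => p.1 ≠ 0)) =
      (univ.erase (0 : Module.Dual (ZMod 2) (Vec n))) ×ˢ (univ : Finset (ZMod 2)) := by
    ext p
    simp
  rw [h1, card_product, card_erase_of_mem (mem_univ _), card_univ, card_dual, card_vec, card_univ,
    ZMod.card]
  ring

/-- The number of members of `F` through `x` and `y`. -/
noncomputable def lam {n : ℕ} (F : Finset (Finset (Vec n))) (x y : Vec n) : ℕ :=
  (F.filter (fun γ => x ∈ γ ∧ y ∈ γ)).card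

lemma lam_le {n : ℕ} {G : Subgroup (AGL n)} {F : Finset (Finset (Vec n))}
    (hinv : ∀ g ∈ G, ∀ γ ∈ F, act g γ ∈ F) {g : AGL n} (hg : g ∈ G) (x y : Vec n) :
    lam F x y ≤ lam F (g x) (g y) := by
  classical
  rw [lam, lam]
  apply Finset.card_le_card_of_injOn (fun γ => act g γ)
  · intro γ hγ
    simp only [coe_filter, Set.mem_ofPred_eq] at hγ ⊢
    refine ⟨hinv g hg γ hγ.1, ?_, ?_⟩
    · rw [mem_act]
      exact hγ.2.1
    · rw [mem_act]
      exact hγ.2.2
  · intro γ _ δ _ h
    have h1 := congrArg (act g.symm) h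
    simpa only [act_symm_act] using h1

lemma lam_eq {n : ℕ} {G : Subgroup (AGL n)} {F : Finset (Finset (Vec n))}
    (hinv : ∀ g ∈ G, ∀ γ ∈ F, act g γ ∈ F) {g : AGL n} (hg : g ∈ G) (x y : Vec n) :
    lam F (g x) (g y) = lam F x y := by
  apply le_antisymm _ (lam_le hinv hg x y)
  have h := lam_le hinv (G.inv_mem hg) (g x) (g y)
  have h1 : ∀ z, g⁻¹ (g z) = z := fun z => g.symm_apply_apply z
  rwa [h1, h1] at h

/-- A nonempty invariant set of affine hyperplanes is the set of all of them. -/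
theorem hyperplane_code {n k : ℕ} (hn : 3 ≤ n) {G : Subgroup (AGL n)} (hG : IsTwoTransitive G)
    {C : Set (Finset (Vec n))} (hC : IsSITCode G k C) (hne : C.Nonempty) (hk : k = 2 ^ (n - 1))
    (hsub : C ⊆ FlatCode n (n - 1)) : C = FlatCode n (n - 1) := by
  classical
  obtain ⟨F, hF⟩ : ∃ F : Finset (Finset (Vec n)), ∀ γ, γ ∈ F ↔ γ ∈ C :=
    ⟨univ.filter (fun γ => γ ∈ C), fun γ => by simp⟩
  have hinv : ∀ g ∈ G, ∀ γ ∈ F, act g γ ∈ F := by
    intro g hg γ hγ
    rw [hF] at hγ ⊢
    exact hC.invariant g hg γ hγ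
  have hcard : ∀ γ ∈ F, γ.card = k := fun γ hγ => hC.card_eq γ ((hF γ).1 hγ)
  obtain ⟨e, he⟩ : ∃ e : Vec n, e ≠ 0 := by
    refine ⟨fun _ => 1, ?_⟩
    intro h
    have := congrFun h ⟨0, by omega⟩
    simp at this
  -- constancy
  have hlam : ∀ y, y ≠ 0 → lam F 0 y = lam F 0 e := by
    intro y hy
    obtain ⟨g, hg, h1, h2⟩ := hG 0 e 0 y (Ne.symm he) (Ne.symm hy)
    have := lam_eq hinv hg 0 e
    rwa [h1, h2] at this
  have hr : ∀ x, lam F x x = lam F 0 0 := by
    intro x
    obtain ⟨g, hg, h1, -⟩ := hG 0 e x (x + e) (Ne.symm he) (by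
      intro h
      apply he
      have h3 := self_add_add x e
      rw [← h, add_self'] at h3
      exact h3.symm)
    have := lam_eq hinv hg 0 0
    rwa [h1] at this
  -- count of flags
  have hA : F.card * k = 2 ^ n * lam F 0 0 := by
    have h1 : ∑ γ ∈ F, γ.card = ∑ x : Vec n, lam F x x := by
      have h2 := Finset.sum_card_bipartiteAbove_eq_sum_card_bipartiteBelow
        (s := F) (t := (univ : Finset (Vec n))) (fun γ x => x ∈ γ)
      simp only [bipartiteAbove, bipartiteBelow] at h2
      rw [show ∑ γ ∈ F, γ.card = ∑ γ ∈ F, (univ.filter (fun x => x ∈ γ)).card from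
        Finset.sum_congr rfl (fun γ _ => by congr 1; ext x; simp), h2]
      apply Finset.sum_congr rfl
      intro x _
      rw [lam]
      congr 1
      apply filter_congr
      intro γ _
      simp
    rw [Finset.sum_congr rfl hcard, sum_const, Finset.sum_congr rfl (fun x _ => hr x), sum_const,
      card_univ, card_vec] at h1
    simpa using h1
  -- count of pairs through `0`
  have hB : lam F 0 0 * (k - 1) = (2 ^ n - 1) * lam F 0 e := by
    have h2 := Finset.sum_card_bipartiteAbove_eq_sum_card_bipartiteBelow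
      (s := F.filter (fun γ => (0 : Vec n) ∈ γ)) (t := (univ : Finset (Vec n)).erase 0)
      (fun γ x => x ∈ γ)
    simp only [bipartiteAbove, bipartiteBelow] at h2
    have h3 : ∀ γ ∈ F.filter (fun γ => (0 : Vec n) ∈ γ),
        (((univ : Finset (Vec n)).erase 0).filter (fun x => x ∈ γ)).card = k - 1 := by
      intro γ hγ
      rw [mem_filter] at hγ
      rw [← hcard γ hγ.1, ← card_erase_of_mem hγ.2]
      congr 1
      ext x
      simp [and_comm]
    have h4 : ∀ y ∈ (univ : Finset (Vec n)).erase 0,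
        ((F.filter (fun γ => (0 : Vec n) ∈ γ)).filter (fun γ => y ∈ γ)).card = lam F 0 e := by
      intro y hy
      rw [← hlam y (ne_of_mem_erase hy), lam, filter_filter]
    rw [Finset.sum_congr rfl h3, Finset.sum_congr rfl h4, sum_const, sum_const,
      card_erase_of_mem (mem_univ _), card_univ, card_vec, smul_eq_mul, smul_eq_mul] at h2
    have h5 : (F.filter (fun γ => (0 : Vec n) ∈ γ)).card = lam F 0 0 := by
      rw [lam]
      congr 1
      apply filter_congr
      intro γ _
      simp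
    rwa [h5] at h2
  obtain ⟨s, rfl⟩ : ∃ s, n = s + 1 := ⟨n - 1, by omega⟩
  rw [Nat.add_sub_cancel] at hk hsub ⊢
  subst hk
  have hpos : 0 < 2 ^ s := by positivity
  have hF2 : F.card = 2 * lam F 0 0 := by
    have h1 : 2 ^ s * F.card = 2 ^ s * (2 * lam F 0 0) := by
      rw [mul_comm, hA, pow_succ]
      ring
    exact Nat.eq_of_mul_eq_mul_left hpos h1
  have hcop : Nat.Coprime (2 ^ (s + 1) - 1) (2 ^ s - 1) := by
    have h1 : 2 ^ (s + 1) - 1 = 2 * (2 ^ s - 1) + 1 := by
      rw [pow_succ]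
      omega
    rw [h1]
    have := Nat.coprime_mul_right_add_left 1 (2 ^ s - 1) 2
    exact this.2 (Nat.coprime_one_left _)
  have hdvd : 2 ^ (s + 1) - 1 ∣ lam F 0 0 := by
    apply hcop.dvd_of_dvd_mul_right
    rw [hB]
    exact dvd_mul_right _ _
  have hFpos : 0 < F.card := by
    obtain ⟨γ, hγ⟩ := hne
    exact Finset.card_pos.2 ⟨γ, (hF γ).2 hγ⟩
  have hge : 2 ^ (s + 1) - 1 ≤ lam F 0 0 := Nat.le_of_dvd (by omega) hdvd
  -- all hyperplanes
  have hsubH : FlatCode (s + 1) s ⊆ ((univ.filter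
      (fun p : Module.Dual (ZMod 2) (Vec (s + 1)) × ZMod 2 => p.1 ≠ 0)).image hyp :
        Set (Finset (Vec (s + 1)))) := by
    intro γ hγ
    obtain ⟨p, hp, rfl⟩ := hyp_repr (n := s + 1) (by omega) hγ
    rw [Finset.coe_image]
    exact ⟨p, by simpa using hp, rfl⟩
  have hFH : F = (univ.filter
      (fun p : Module.Dual (ZMod 2) (Vec (s + 1)) × ZMod 2 => p.1 ≠ 0)).image hyp := by
    apply Finset.eq_of_subset_of_card_le
    · intro γ hγ
      have := hsubH (hsub ((hF γ).1 hγ))
      exact_mod_cast this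
    · refine Finset.card_image_le.trans ?_
      rw [card_pairs, hF2]
      omega
  apply Set.Subset.antisymm hsub
  intro γ hγ
  rw [← hF, hFH]
  exact_mod_cast hsubH hγ

end Pool.Agent.SIT
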