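import Pool.Agent.SIT.LinQ2
import Pool.Agent.SIT.SpHyp

/-!
# Strongly incidence-transitive codes of the 2-transitive groups of affine maps of `F_2^3`
-/

namespace Pool.Agent.SIT.Gen.Aff3

open Finset

/-- the scalar product on `F_2^3` -/
def dp (φ x : Vec 3) : ZMod 2 := φ 0 * x 0 + φ 1 * x 1 + φ 2 * x 2

lemma fact1 : ∀ φ v : Vec 3, φ ≠ 0 → v ≠ 0 → dp φ v = 0 →
    ∃ ψ p : Vec 3, dp ψ p = 1 ∧ dp ψ v = 0 ∧ dp φ p = 0 := by
  decide +kernel

lemma fact2 : ∀ φ ψ v w : Vec 3, φ ≠ 0 ∧ ψ ≠ 0 ∧ φ ≠ ψ ∧ v ≠ 0 ∧ w ≠ 0 ∧ dp φ v = 0 ∧ dp φ w = 0 ∧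
    dp ψ v = 0 ∧ dp ψ w = 0 → v = w := by
  decide +kernel

lemma fact3 : ∀ ψ v w x : Vec 3, ψ ≠ 0 ∧ v ≠ 0 ∧ w ≠ 0 ∧ v ≠ w ∧ dp ψ v = 0 ∧ dp ψ w = 0 ∧
    dp ψ x = 0 → x = 0 ∨ x = v ∨ x = w ∨ x = v + w := by
  decide +kernel

lemma fact4 : Fintype.card {q : Vec 3 × Vec 3 // dp q.1 q.2 = 1} = 28 := by
  decide +kernel

lemma fact5 : ∀ φ : Vec 3, φ ≠ 0 → ∃ p : Vec 3, dp φ p = 1 := by
  decide +kernel

lemma dp_comm (φ x : Vec 3) : dp φ x = dp x φ := by
  unfold dp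
  ring

/-- the scalar product as a linear form -/
def dpL (φ : Vec 3) : Module.Dual (ZMod 2) (Vec 3) where
  toFun := dp φ
  map_add' := fun x y => by
    unfold dp
    rw [Pi.add_apply, Pi.add_apply, Pi.add_apply]
    ring
  map_smul' := fun c x => by
    unfold dp
    rw [Pi.smul_apply, Pi.smul_apply, Pi.smul_apply, RingHom.id_apply, smul_eq_mul, smul_eq_mul,
      smul_eq_mul, smul_eq_mul]
    ring

lemma dp_add (φ x y : Vec 3) : dp φ (x + y) = dp φ x + dp φ y := (dpL φ).map_add x y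

lemma dp_smul (φ : Vec 3) (c : ZMod 2) (x : Vec 3) : dp φ (c • x) = c * dp φ x :=
  (dpL φ).map_smul c x

lemma add_dp (φ ψ x : Vec 3) : dp (φ + ψ) x = dp φ x + dp ψ x := by
  rw [dp_comm, dp_add, dp_comm x φ, dp_comm x ψ]

lemma dp_zero (φ : Vec 3) : dp φ 0 = 0 := (dpL φ).map_zero

/-- every linear form is a scalar product -/
lemma exists_dp (f : Module.Dual (ZMod 2) (Vec 3)) : ∃ φ : Vec 3, ∀ x, f x = dp φ x := by
  refine ⟨fun i => f (fun j => if i = j then 1 else 0), fun x => ?_⟩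
  rw [LinearMap.pi_apply_eq_sum_univ f x, Fin.sum_univ_three]
  unfold dp
  simp only [smul_eq_mul]
  ring

lemma dp_ext {φ ψ : Vec 3} (h : ∀ x, dp φ x = dp ψ x) : φ = ψ := by
  by_contra hne
  have h1 : φ + ψ ≠ 0 := by
    intro h2
    apply hne
    have h3 : φ + ψ + ψ = ψ := by rw [h2, zero_add]
    rwa [add_assoc, SIT.add_self', add_zero] at h3
  obtain ⟨p, hp⟩ := fact5 _ h1
  rw [add_dp, h, SIT.add_self'] at hp
  exact absurd hp (by decide)

/-- The codewords are the planes. -/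
theorem codes3 {G : Subgroup (AGL 3)} (hG : SIT.IsTwoTransitive G) {k : ℕ}
    {C : Set (Finset (Vec 3))} (hk3 : 3 ≤ k) (hk : 2 * k ≤ 8) (hC : SIT.IsSITCode G k C)
    (hne : C.Nonempty) : k = 4 ∧ C = FlatCode 3 2 := by
  have hall : ∀ γ ∈ C, k = 4 ∧ γ ∈ FlatCode 3 2 := by
    intro γ hγ
    have hcard := hC.card_eq γ hγ
    have hne : γ.Nonempty := by rw [← Finset.card_pos]; omega
    have hs : SITSet γ := by
      intro u hu u' hu' w hw w' hw'
      obtain ⟨g, _, h1, h2, h3⟩ := hC.transitive γ hγ u hu u' hu' γ hγ w hw w' hw'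
      exact ⟨g.toEquiv, isAff_agl g, (SIT.act_eq_iff g γ γ).1 h1, h2, h3⟩
    rcases sit_set_classification hs hne (by omega) with ⟨A, hA⟩ | ⟨m, h, hm, -⟩
    · have hcA := card_flat hA hne
      rw [hcard] at hcA
      have hd : Module.finrank (ZMod 2) A.direction = 2 := by
        have h1 : Module.finrank (ZMod 2) A.direction ≤ 3 := by
          have h2 := Submodule.finrank_le A.direction
          rwa [Module.finrank_fin_fun] at h2
        generalize Module.finrank (ZMod 2) A.direction = d at hcA h1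
        interval_cases d <;> omega
      rw [hd] at hcA
      exact ⟨hcA, A, hA, hd⟩
    · omega
  obtain ⟨γ, hγ⟩ := hne
  have hk4 := (hall γ hγ).1
  refine ⟨hk4, ?_⟩
  exact hyperplane_code (n := 3) le_rfl hG hC ⟨γ, hγ⟩ hk4 (fun δ hδ => (hall δ hδ).2)

/-- the plane `ψ x = 0` -/
lemma plane_mem {ψ : Vec 3} (h : ψ ≠ 0) :
    (univ.filter (fun x : Vec 3 => dp ψ x = 0)) ∈ FlatCode 3 2 := by
  refine ⟨(LinearMap.ker (dpL ψ)).toAffineSubspace, ?_, ?_⟩
  · ext x
    simp [dpL]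
  · rw [Submodule.toAffineSubspace_direction]
    have h1 := LinearMap.finrank_range_add_finrank_ker (dpL ψ)
    obtain ⟨p, hp⟩ := fact5 ψ h
    have h2 : LinearMap.range (dpL ψ) = ⊤ := by
      rw [eq_top_iff]
      intro c _
      refine ⟨c • p, ?_⟩
      rw [map_smul]
      change c • dp ψ p = c
      rw [hp, smul_eq_mul, mul_one]
    rw [h2, finrank_top, Module.finrank_self, Module.finrank_fin_fun] at h1
    exact Nat.add_left_cancel (n := 1) h1

instance : Finite (Vec 3 ≃ₗ[ZMod 2] Vec 3) :=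
  Finite.of_injective (fun L => (L : Vec 3 → Vec 3)) DFunLike.coe_injective

instance : Finite (AGL 3) :=
  Finite.of_injective (fun L => (L : Vec 3 → Vec 3)) DFunLike.coe_injective

lemma zmod2_ext {a b : ZMod 2} (h : a = 0 ↔ b = 0) : a = b := by
  revert a b
  decide

/-- transitivity on antiflags -/
lemma anti {G : Subgroup (AGL 3)} (hC : SIT.IsSITCode G 4 (FlatCode 3 2)) {ψ p ψ' p' : Vec 3}
    (h : dp ψ p = 1) (h' : dp ψ' p' = 1) :
    ∃ g ∈ G, g 0 = 0 ∧ (∀ x, dp ψ' (g x) = dp ψ x) ∧ g p = p' := by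
  have h0 : ∀ {ψ p : Vec 3}, dp ψ p = 1 → ψ ≠ 0 := by
    rintro ψ p h rfl
    rw [dp_comm, dp_zero] at h
    exact absurd h (by decide)
  have hp : ∀ {ψ p : Vec 3}, dp ψ p = 1 → p ∉ univ.filter (fun x : Vec 3 => dp ψ x = 0) := by
    intro ψ p h
    simp [h]
  obtain ⟨g, hg, h1, h2, h3⟩ := hC.transitive _ (plane_mem (h0 h)) 0 (by simp [dp_zero]) p (hp h)
    _ (plane_mem (h0 h')) 0 (by simp [dp_zero]) p' (hp h')
  refine ⟨g, hg, h2, fun x => ?_, h3⟩
  rw [SIT.act_eq_iff] at h1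
  have h4 := h1 x
  simp only [mem_filter, mem_univ, true_and] at h4
  exact zmod2_ext h4

lemma lin_apply (g : AGL 3) (x : Vec 3) : g x = g.linear x + g 0 := by
  have := g.map_vadd 0 x
  simpa using this

/-- the linear parts -/
def lin (G : Subgroup (AGL 3)) : Subgroup (Vec 3 ≃ₗ[ZMod 2] Vec 3) :=
  G.map AffineEquiv.linearHom

lemma mem_lin {G : Subgroup (AGL 3)} {L : Vec 3 ≃ₗ[ZMod 2] Vec 3} :
    L ∈ lin G ↔ ∃ g ∈ G, g.linear = L := Iff.rfl

lemma anti' {G : Subgroup (AGL 3)} (hC : SIT.IsSITCode G 4 (FlatCode 3 2)) {ψ p ψ' p' : Vec 3}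
    (h : dp ψ p = 1) (h' : dp ψ' p' = 1) :
    ∃ L ∈ lin G, (∀ x, dp ψ' (L x) = dp ψ x) ∧ L p = p' := by
  obtain ⟨g, hg, h0, h1, h2⟩ := anti hC h h'
  have h3 : ∀ x, g.linear x = g x := by
    intro x
    rw [lin_apply g x, h0, add_zero]
  exact ⟨g.linear, ⟨g, hg, rfl⟩, fun x => by rw [h3, h1], by rw [h3, h2]⟩

lemma card_gl : Nat.card (Vec 3 ≃ₗ[ZMod 2] Vec 3) = 168 := by
  have h1 : Nat.card (GL (Fin 3) (ZMod 2)) = Nat.card (Vec 3 ≃ₗ[ZMod 2] Vec 3) :=
    Nat.card_congr (Matrix.GeneralLinearGroup.toLin.trans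
      (LinearMap.GeneralLinearGroup.generalLinearEquiv (ZMod 2) (Vec 3))).toEquiv
  rw [← h1, Matrix.card_GL_field, Fin.prod_univ_three, ZMod.card]
  norm_num

/-- many linear parts -/
lemma card_lin {G : Subgroup (AGL 3)} (hC : SIT.IsSITCode G 4 (FlatCode 3 2)) :
    28 ≤ Nat.card (lin G) := by
  classical
  have hb : dp ![1, 0, 0] ![1, 0, 0] = 1 := by decide
  have h1 : ∀ q : {q : Vec 3 × Vec 3 // dp q.1 q.2 = 1}, ∃ L : lin G,
      (∀ x, dp q.1.1 (L.1 x) = dp ![1, 0, 0] x) ∧ L.1 ![1, 0, 0] = q.1.2 := by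
    intro q
    obtain ⟨L, hL, h2, h3⟩ := anti' hC hb q.2
    exact ⟨⟨L, hL⟩, h2, h3⟩
  choose f hf using h1
  have hinj : Function.Injective f := by
    intro q q' h
    apply Subtype.ext
    apply Prod.ext
    · apply dp_ext
      intro x
      have h2 := (hf q).1 ((f q).1.symm x)
      have h3 := (hf q').1 ((f q').1.symm x)
      rw [LinearEquiv.apply_symm_apply] at h2 h3
      rw [h2, h3, h]
    · rw [← (hf q).2, ← (hf q').2, h]
  have h2 := Nat.card_le_card_of_injective f hinj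
  rwa [Nat.card_eq_fintype_card (α := {q : Vec 3 × Vec 3 // dp q.1 q.2 = 1}), fact4] at h2

/-- `G` contains the translations. -/
lemma trans_mem {G : Subgroup (AGL 3)} (hG : SIT.IsTwoTransitive G)
    (hC : SIT.IsSITCode G 4 (FlatCode 3 2)) (v : Vec 3) : ∃ g ∈ G, ∀ x, g x = x + v := by
  classical
  by_cases hv : v = 0
  · exact ⟨1, G.one_mem, fun x => by rw [hv, add_zero]; rfl⟩
  -- some nontrivial translation
  obtain ⟨t, ht, w, hw, htw⟩ : ∃ t ∈ G, ∃ w : Vec 3, w ≠ 0 ∧ ∀ x, t x = x + w := by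
    by_contra hcon
    push Not at hcon
    -- the linear part is injective on `G`
    have hinj : ∀ g ∈ G, ∀ h ∈ G, g.linear = h.linear → g = h := by
      intro g hg h hh hgh
      have h1 : ∀ y, g y + h y = g 0 + h 0 := by
        intro y
        rw [lin_apply g y, lin_apply h y, hgh]
        have h2 := SIT.add_self' (h.linear y)
        calc h.linear y + g 0 + (h.linear y + h 0) = (h.linear y + h.linear y) + (g 0 + h 0) := by
              abel
          _ = _ := by rw [h2, zero_add]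
      have h3 : g 0 + h 0 = 0 := by
        by_contra h4
        obtain ⟨x, hx⟩ := hcon (g * h⁻¹) (G.mul_mem hg (G.inv_mem hh)) (g 0 + h 0) h4
        apply hx
        change g (h.symm x) = x + (g 0 + h 0)
        have h5 := h1 (h.symm x)
        rw [h.apply_symm_apply] at h5
        rw [← h5]
        have h6 := SIT.add_self' x
        calc g (h.symm x) = g (h.symm x) + (x + x) := by rw [h6, add_zero]
          _ = _ := by abel
      ext1 y
      have h4 := h1 y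
      rw [h3] at h4
      calc g y = g y + h y + h y := by rw [add_assoc, SIT.add_self', add_zero]
        _ = h y := by rw [h4, zero_add]
    have hle : Nat.card G ≤ 168 := by
      rw [← card_gl]
      exact Nat.card_le_card_of_injective (fun g : G => g.1.linear)
        (fun g h hgh => Subtype.ext (hinj g.1 g.2 h.1 h.2 hgh))
    -- but `G` has many members
    have hb : dp ![1, 0, 0] ![1, 0, 0] = 1 := by decide
    have h1 : ∀ q : Vec 3 × {q : Vec 3 × Vec 3 // dp q.1 q.2 = 1}, ∃ g h : G,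
        h.1 0 = q.1 ∧ g.1 0 = 0 ∧
        (∀ x, dp q.2.1.1 (g.1 x) = dp ![1, 0, 0] x) ∧ g.1 ![1, 0, 0] = q.2.1.2 := by
      intro q
      obtain ⟨g, hg, h2, h3, h4⟩ := anti hC hb q.2.2
      have h5 : ∃ h ∈ G, h 0 = q.1 := by
        have h6 : (![1, 0, 0] : Vec 3) ≠ 0 := by decide
        obtain ⟨y, hy⟩ : ∃ y : Vec 3, y ≠ q.1 := by
          by_cases h7 : q.1 = 0
          · exact ⟨![1, 0, 0], by rw [h7]; exact h6⟩
          · exact ⟨0, fun h => h7 h.symm⟩
        obtain ⟨h, hh, h7, -⟩ := hG 0 ![1, 0, 0] q.1 y h6.symm hy.symm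
        exact ⟨h, hh, h7⟩
      obtain ⟨h, hh, h7⟩ := h5
      exact ⟨⟨g, hg⟩, ⟨h, hh⟩, h7, h2, h3, h4⟩
    choose f h hf using h1
    -- choose the second member as a function of the point only
    have hinj2 : Function.Injective
        (fun q : Vec 3 × {q : Vec 3 × Vec 3 // dp q.1 q.2 = 1} =>
          h (q.1, ⟨(![1, 0, 0], ![1, 0, 0]), hb⟩) * f q) := by
      intro q q' hqq
      have hval : ∀ x, (h (q.1, ⟨(![1, 0, 0], ![1, 0, 0]), hb⟩)).1 ((f q).1 x) =
          (h (q'.1, ⟨(![1, 0, 0], ![1, 0, 0]), hb⟩)).1 ((f q').1 x) := by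
        intro x
        exact congrArg (fun g : G => g.1 x) hqq
      have h2 : q.1 = q'.1 := by
        have h3 := hval 0
        rwa [(hf q).2.1, (hf q').2.1, (hf _).1, (hf _).1] at h3
      have h3 : f q = f q' := by
        have h4 := hqq
        simp only [h2] at h4
        exact mul_left_cancel h4
      apply Prod.ext h2
      apply Subtype.ext
      apply Prod.ext
      · apply dp_ext
        intro x
        have h4 := (hf q).2.2.1 ((f q).1.symm x)
        have h5 := (hf q').2.2.1 ((f q').1.symm x)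
        rw [AffineEquiv.apply_symm_apply] at h4 h5
        rw [h4, h5, h3]
      · rw [← (hf q).2.2.2, ← (hf q').2.2.2, h3]
    have h4 := Nat.card_le_card_of_injective _ hinj2
    rw [Nat.card_prod, Nat.card_eq_fintype_card (α := {q : Vec 3 × Vec 3 // dp q.1 q.2 = 1}),
      fact4, Nat.card_eq_fintype_card (α := Vec 3)] at h4
    have h5 : Fintype.card (Vec 3) = 8 := by
      rw [Fintype.card_fun, ZMod.card, Fintype.card_fin]
      norm_num
    rw [h5] at h4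
    omega
  obtain ⟨f, hf, h1, h2⟩ := hG 0 w 0 v hw.symm (Ne.symm hv)
  refine ⟨f * t * f⁻¹, G.mul_mem (G.mul_mem hf ht) (G.inv_mem hf), fun x => ?_⟩
  change f (t (f.symm x)) = x + v
  have h3 : f (f.symm x + w) = f (f.symm x) + f w := by
    rw [lin_apply f (f.symm x + w), lin_apply f (f.symm x), lin_apply f w, h1, add_zero, add_zero,
      add_zero, map_add]
  rw [htw, h3, h2, f.apply_symm_apply]

/-- `G` contains its linear parts. -/
lemma lin_sub {G : Subgroup (AGL 3)} (hT : ∀ v : Vec 3, ∃ g ∈ G, ∀ x, g x = x + v)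
    {L : Vec 3 ≃ₗ[ZMod 2] Vec 3} (hL : L ∈ lin G) : ∃ g ∈ G, ∀ x, g x = L x := by
  obtain ⟨g, hg, rfl⟩ := mem_lin.1 hL
  obtain ⟨t, ht, htv⟩ := hT (g 0)
  refine ⟨t * g, G.mul_mem ht hg, fun x => ?_⟩
  change t (g x) = g.linear x
  rw [htv, lin_apply g x, add_assoc, SIT.add_self', add_zero]

/-- the transvection `x ↦ x + φ(x) v` is a linear part -/
def Tv (G : Subgroup (AGL 3)) (φ v : Vec 3) : Prop :=
  ∃ L ∈ lin G, ∀ x, L x = x + dp φ x • v

lemma Tv.conj {G : Subgroup (AGL 3)} {φ v φ' : Vec 3} (h : Tv G φ v)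
    {L : Vec 3 ≃ₗ[ZMod 2] Vec 3} (hL : L ∈ lin G) (hφ : ∀ x, dp φ' (L x) = dp φ x) :
    Tv G φ' (L v) := by
  obtain ⟨M, hM, h1⟩ := h
  refine ⟨L * M * L⁻¹, (lin G).mul_mem ((lin G).mul_mem hL hM) ((lin G).inv_mem hL), fun x => ?_⟩
  change L (M (L.symm x)) = x + dp φ' x • L v
  rw [h1, map_add, map_smul, L.apply_symm_apply, ← hφ, L.apply_symm_apply]

lemma Tv.add_right {G : Subgroup (AGL 3)} {φ v w : Vec 3} (h : Tv G φ v) (h' : Tv G φ w)
    (hw : dp φ w = 0) : Tv G φ (v + w) := by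
  obtain ⟨L, hL, h1⟩ := h
  obtain ⟨M, hM, h2⟩ := h'
  refine ⟨L * M, (lin G).mul_mem hL hM, fun x => ?_⟩
  change L (M x) = _
  rw [h1, h2, dp_add, dp_smul, hw, mul_zero, add_zero, smul_add]
  abel

lemma Tv.add_left {G : Subgroup (AGL 3)} {φ ψ v : Vec 3} (h : Tv G φ v) (h' : Tv G ψ v)
    (hv : dp φ v = 0) : Tv G (φ + ψ) v := by
  obtain ⟨L, hL, h1⟩ := h
  obtain ⟨M, hM, h2⟩ := h'
  refine ⟨L * M, (lin G).mul_mem hL hM, fun x => ?_⟩
  change L (M x) = _
  rw [h1, h2, dp_add, dp_smul, hv, mul_zero, add_zero, add_dp, add_smul]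
  abel

lemma Tv.zero_right (G : Subgroup (AGL 3)) (φ : Vec 3) : Tv G φ 0 :=
  ⟨1, (lin G).one_mem, fun x => by rw [smul_zero, add_zero]; rfl⟩

lemma Tv.zero_left (G : Subgroup (AGL 3)) (v : Vec 3) : Tv G 0 v :=
  ⟨1, (lin G).one_mem, fun x => by rw [dp_comm, dp_zero, zero_smul, add_zero]; rfl⟩

/-- an involution of `F_2^3` is a transvection -/
lemma invol {s : Vec 3 ≃ₗ[ZMod 2] Vec 3} (h1 : ∀ x, s (s x) = x) (h2 : ∃ x, s x ≠ x) :
    ∃ φ v : Vec 3, φ ≠ 0 ∧ v ≠ 0 ∧ dp φ v = 0 ∧ ∀ x, s x = x + dp φ x • v := by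
  set N : Vec 3 →ₗ[ZMod 2] Vec 3 := s.toLinearMap + LinearMap.id with hN
  have hNx : ∀ x, N x = s x + x := fun x => rfl
  have hNN : ∀ x, N (N x) = 0 := by
    intro x
    rw [hNx, hNx, map_add, h1]
    have h3 := SIT.add_self' (s x + x)
    calc x + s x + (s x + x) = s x + x + (s x + x) := by abel
      _ = 0 := h3
  have hle : LinearMap.range N ≤ LinearMap.ker N := by
    rintro _ ⟨x, rfl⟩
    exact hNN x
  have h3 := LinearMap.finrank_range_add_finrank_ker N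
  rw [Module.finrank_fin_fun] at h3
  have h4 := Submodule.finrank_mono hle
  obtain ⟨x0, hx0⟩ := h2
  have hne : N x0 ≠ 0 := by
    intro h5
    apply hx0
    rw [hNx] at h5
    calc s x0 = s x0 + (x0 + x0) := by rw [SIT.add_self', add_zero]
      _ = s x0 + x0 + x0 := by abel
      _ = x0 := by rw [h5, zero_add]
  have h5 : Module.finrank (ZMod 2) (LinearMap.range N) ≤ 1 := by omega
  obtain ⟨v, hv⟩ := finrank_le_one_iff.1 h5
  have hv' : ∀ x, ∃ c : ZMod 2, c • (v : Vec 3) = N x := by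
    intro x
    obtain ⟨c, hc⟩ := hv ⟨N x, x, rfl⟩
    exact ⟨c, congrArg Subtype.val hc⟩
  have hv0 : (v : Vec 3) ≠ 0 := by
    intro h6
    obtain ⟨c, hc⟩ := hv' x0
    rw [h6, smul_zero] at hc
    exact hne hc.symm
  obtain ⟨l, hl, -⟩ := exists_dual_of_notMem (⊥ : Submodule (ZMod 2) (Vec 3)) (v : Vec 3)
    (by simpa using hv0)
  obtain ⟨φ, hφ⟩ := exists_dp (l.comp N)
  have hform : ∀ x, N x = dp φ x • (v : Vec 3) := by
    intro x
    obtain ⟨c, hc⟩ := hv' x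
    rw [← hφ, LinearMap.comp_apply, ← hc, map_smul, hl, smul_eq_mul, mul_one]
  refine ⟨φ, v, ?_, hv0, ?_, ?_⟩
  · rintro rfl
    apply hne
    rw [hform, dp_comm, dp_zero, zero_smul]
  · obtain ⟨y, hy⟩ := v.2
    rw [← hφ, LinearMap.comp_apply, ← hy, hNN, map_zero]
  · intro x
    rw [← hform, hNx]
    calc s x = s x + (x + x) := by rw [SIT.add_self', add_zero]
      _ = x + (s x + x) := by abel

/-- some transvection is a linear part -/
lemma exists_tv {G : Subgroup (AGL 3)} (hC : SIT.IsSITCode G 4 (FlatCode 3 2)) :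
    ∃ φ v : Vec 3, φ ≠ 0 ∧ v ≠ 0 ∧ dp φ v = 0 ∧ Tv G φ v := by
  have h1 := card_lin hC
  have h2 : Nat.card (lin G) ∣ 168 := by
    rw [← card_gl]
    exact Subgroup.card_subgroup_dvd_card _
  have h3 : 2 ∣ Nat.card (lin G) := by
    obtain ⟨m, hm⟩ := h2
    have h4 : m ≤ 6 := by
      by_contra h5
      have h6 : 28 * 7 ≤ Nat.card (lin G) * m := Nat.mul_le_mul h1 (by omega)
      omega
    interval_cases m <;> omega
  obtain ⟨s, hs⟩ := exists_prime_orderOf_dvd_card' 2 h3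
  have h4 : s * s = 1 := by
    have h5 := pow_orderOf_eq_one s
    rw [hs] at h5
    rw [← sq]
    exact h5
  have h5 : ∀ x, s.1 (s.1 x) = x := by
    intro x
    have h6 : (s * s).1 x = x := by rw [h4]; rfl
    exact h6
  have h6 : ∃ x, s.1 x ≠ x := by
    by_contra hcon
    push Not at hcon
    have h7 : s = 1 := by
      apply Subtype.ext
      ext1 x
      exact hcon x
    rw [h7, orderOf_one] at hs
    omega
  obtain ⟨φ, v, h7, h8, h9, h10⟩ := invol h5 h6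
  exact ⟨φ, v, h7, h8, h9, s.1, s.2, h10⟩

/-- all transvections are linear parts -/
theorem all_tv {G : Subgroup (AGL 3)} (hC : SIT.IsSITCode G 4 (FlatCode 3 2)) (χ u : Vec 3)
    (hχu : dp χ u = 0) : Tv G χ u := by
  obtain ⟨φ₀, v₀, hφ₀, hv₀, h₀, hT₀⟩ := exists_tv hC
  have hinj : ∀ (L : Vec 3 ≃ₗ[ZMod 2] Vec 3) {x : Vec 3}, x ≠ 0 → L x ≠ 0 := by
    intro L x hx h
    exact hx ((LinearEquiv.map_eq_zero_iff L).1 h)
  have hne0 : ∀ {ψ p : Vec 3}, dp ψ p = 1 → ψ ≠ 0 := by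
    rintro ψ p h rfl
    rw [dp_comm, dp_zero] at h
    exact absurd h (by decide)
  -- two transvections with the same axis
  have hA : ∀ ψ v w : Vec 3, ψ ≠ 0 → v ≠ 0 → w ≠ 0 → v ≠ w → dp ψ v = 0 → dp ψ w = 0 →
      Tv G ψ v → Tv G ψ w → Tv G χ u := by
    intro ψ v w hψ hv hw hvw h1 h2 hTv hTw
    by_cases hχ : χ = 0
    · rw [hχ]
      exact Tv.zero_left G u
    obtain ⟨p, hp⟩ := fact5 ψ hψ
    obtain ⟨q, hq⟩ := fact5 χ hχ
    obtain ⟨L, hL, h3, -⟩ := anti' hC hp hq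
    have h4 : dp ψ (L.symm u) = 0 := by rw [← h3, L.apply_symm_apply, hχu]
    have h5 : Tv G ψ (L.symm u) := by
      rcases fact3 ψ v w (L.symm u) ⟨hψ, hv, hw, hvw, h1, h2, h4⟩ with h | h | h | h <;> rw [h]
      · exact Tv.zero_right G ψ
      · exact hTv
      · exact hTw
      · exact hTv.add_right hTw h2
    have h6 := h5.conj hL h3
    rwa [L.apply_symm_apply] at h6
  -- two transvections with the same centre
  have hB : ∀ φ ψ c : Vec 3, c ≠ 0 → φ ≠ 0 → ψ ≠ 0 → φ ≠ ψ → dp φ c = 0 → dp ψ c = 0 →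
      Tv G φ c → Tv G ψ c → Tv G χ u := by
    intro φ ψ c hc hφ hψ hne h1 h2 hTv hTw
    by_cases hu : u = 0
    · rw [hu]
      exact Tv.zero_right G χ
    obtain ⟨p, hp⟩ := fact5 c hc
    obtain ⟨q, hq⟩ := fact5 u hu
    rw [dp_comm] at hp hq
    obtain ⟨L, hL, -, h3⟩ := anti' hC hp hq
    obtain ⟨θ, hθ⟩ := exists_dp ((dpL χ).comp L.toLinearMap)
    have hθ' : ∀ x, dp χ (L x) = dp θ x := hθ
    have h4 : dp θ c = 0 := by rw [← hθ', h3, hχu]
    have h5 : Tv G θ c := by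
      have h6 : dp c φ = 0 := by rw [dp_comm, h1]
      have h7 : dp c ψ = 0 := by rw [dp_comm, h2]
      have h8 : dp c θ = 0 := by rw [dp_comm, h4]
      rcases fact3 c φ ψ θ ⟨hc, hφ, hψ, hne, h6, h7, h8⟩ with h | h | h | h <;> rw [h]
      · exact Tv.zero_left G c
      · exact hTv
      · exact hTw
      · exact hTv.add_left hTw h1
    have h6 := h5.conj hL hθ'
    rwa [h3] at h6
  -- an axis
  obtain ⟨p₀, hp₀⟩ := fact5 φ₀ hφ₀
  have hψp : dp ![1, 0, 0] ![1, 0, 0] = 1 := by decide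
  set ψ : Vec 3 := ![1, 0, 0] with hψ
  obtain ⟨L, hL, h1, -⟩ := anti' hC hp₀ hψp
  have hTc := hT₀.conj hL h1
  have hc0 : L v₀ ≠ 0 := hinj L hv₀
  have hψc : dp ψ (L v₀) = 0 := by rw [h1, h₀]
  set c := L v₀ with hcdef
  -- a transvection that fixes the antiflag `(ψ, ψ)`
  obtain ⟨ψ₁, p₁, h2, h3, h4⟩ := fact1 φ₀ v₀ hφ₀ hv₀ h₀
  obtain ⟨M, hM, h5, h6⟩ := anti' hC h2 hψp
  obtain ⟨φ, hφ⟩ := exists_dp ((dpL φ₀).comp M.symm.toLinearMap)
  have hφ' : ∀ x, dp φ (M x) = dp φ₀ x := by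
    intro x
    have h7 : dp φ₀ (M.symm (M x)) = dp φ (M x) := hφ (M x)
    rw [← h7, M.symm_apply_apply]
  have hTv := hT₀.conj hM hφ'
  have hv0 : M v₀ ≠ 0 := hinj M hv₀
  have hφv : dp φ (M v₀) = 0 := by rw [hφ', h₀]
  have hψv : dp ψ (M v₀) = 0 := by rw [h5, h3]
  have hφp : dp φ ψ = 0 := by rw [← h6, hφ', h4]
  set v := M v₀ with hvdef
  have hφ0 : φ ≠ 0 := by
    have h7 := hφ' p₀
    rw [hp₀] at h7
    exact hne0 h7
  have hne : φ ≠ ψ := by
    intro h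
    rw [h, hψp] at hφp
    exact absurd hφp (by decide)
  obtain ⟨K, hK, hKx⟩ := hTv
  rcases zmod2_cases (dp φ c) with h7 | h7
  · -- same centre
    have h8 : c = v := fact2 φ ψ c v ⟨hφ0, hne0 hψp, hne, hc0, hv0, h7, hφv, hψc, hψv⟩
    refine hB φ ψ c hc0 hφ0 (hne0 hψp) hne h7 hψc ?_ hTc
    rw [h8]
    exact ⟨K, hK, hKx⟩
  · -- same axis
    have h8 : K c = c + v := by rw [hKx, h7, one_smul]
    have h9 : Tv G ψ (c + v) := by
      rw [← h8]
      apply hTc.conj hK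
      intro x
      rw [hKx, dp_add, dp_smul, hψv, mul_zero, add_zero]
    refine hA ψ c (c + v) (hne0 hψp) hc0 ?_ ?_ hψc ?_ hTc h9
    · rw [← h8]
      exact hinj K hc0
    · intro h10
      apply hv0
      have h11 : c + 0 = c + v := by rw [add_zero]; exact h10
      exact (add_left_cancel h11).symm
    · rw [dp_add, hψc, hψv, add_zero]

/-- `G = AGL(3, 2)`. -/
theorem eq_top {G : Subgroup (AGL 3)} (hG : SIT.IsTwoTransitive G)
    (hC : SIT.IsSITCode G 4 (FlatCode 3 2)) : G = ⊤ := by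
  have hT := trans_mem hG hC
  have hlin : LinG (ZMod 2) (permOf G) := by
    refine ⟨?_, ?_, ?_⟩
    · rintro h ⟨g, -, hg⟩
      refine ⟨RingEquiv.refl _, g.linear.toAddEquiv, g 0, fun c x => g.linear.map_smul c x,
        fun x => ?_⟩
      rw [hg]
      exact lin_apply g x
    · intro t
      obtain ⟨g, hg, h1⟩ := hT t
      exact ⟨g, hg, fun x => (h1 x).symm⟩
    · intro φ v hφv a ha
      obtain ⟨θ, hθ⟩ := exists_dp φ
      obtain ⟨L, hL, h1⟩ := all_tv hC θ v (by rw [← hθ, hφv])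
      obtain ⟨g, hg, h2⟩ := lin_sub hT hL
      exact ⟨g, hg, fun x => by rw [ha, h2, h1, hθ]⟩
  rw [eq_top_iff]
  intro f _
  obtain ⟨g, hg, h1⟩ := hlin.all_aff SIT.add_self' (ZMod.card 2) f.linear.toAddEquiv (f 0)
  have h2 : g = f := by
    ext1 x
    rw [← h1, toP_apply, lin_apply f x]
    rfl
  rwa [← h2]

end Pool.Agent.SIT.Gen.Aff3

namespace Pool.Agent.SIT.Gen

open Finset

/-- **`n = 3`.**  Every 2-transitive group of affine maps of `F_2^3`, with or without the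
translations. -/
theorem class_3 (G : Subgroup (AGL 3)) (hG : IsTwoTransitive (permOf G)) (k : ℕ)
    (C : Set (Finset (Vec 3))) (hk : 3 ≤ k) (hk' : 2 * k ≤ Fintype.card (Vec 3)) :
    (IsSITCode (permOf G) k C ∧ C.Nonempty) ↔ G = ⊤ ∧ k = 4 ∧ C = FlatCode 3 2 := by
  have hG' : SIT.IsTwoTransitive G := by
    intro x y x' y' hxy hxy'
    obtain ⟨h, ⟨g, hg, hgh⟩, h1, h2⟩ := hG x y x' y' hxy hxy'
    exact ⟨g, hg, by rw [← hgh, h1], by rw [← hgh, h2]⟩
  have h8 : Fintype.card (Vec 3) = 8 := by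
    rw [Fintype.card_fun, ZMod.card, Fintype.card_fin]
    norm_num
  rw [h8] at hk'
  rw [isSIT_permOf]
  constructor
  · rintro ⟨hC, hne⟩
    obtain ⟨rfl, rfl⟩ := Aff3.codes3 hG' hk hk' hC hne
    exact ⟨Aff3.eq_top hG' hC, rfl, rfl⟩
  · rintro ⟨rfl, rfl, rfl⟩
    exact ⟨flatCode_SIT (n := 3) (d := 2) (by norm_num),
      (flatCode_nontrivial (n := 3) (d := 2) (by norm_num) (by norm_num)).nonempty⟩

end Pool.Agent.SIT.Gen
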