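import Pool.Agent.SIT.Gam3

/-!
# The 2-transitive subgroups of `AΓL(1, q)`: the uniform list
-/

namespace Pool.Agent.SIT.Gen

open Finset

namespace Gam2

variable {F : Type*} [Field F] [Fintype F] [CharP F 2] {V : Type*} [AddCommGroup V] [Module F V]
  [Fintype V] [DecidableEq V]

/-- the map `μ σ(x) + t` is in `G` -/
def Pm (e : V ≃ₗ[F] F) (G : Subgroup (Equiv.Perm V)) (μ : F) (σ : F ≃+* F) (t : F) : Prop :=
  ∃ g ∈ G, ∀ x, e (g x) = μ * σ (e x) + t

variable {e : V ≃ₗ[F] F} {G : Subgroup (Equiv.Perm V)}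

omit [Fintype F] [CharP F 2] [Fintype V] [DecidableEq V] in
lemma Pm.mul {μ ν t s : F} {σ τ : F ≃+* F} (h : Pm e G μ σ t) (h' : Pm e G ν τ s) :
    Pm e G (μ * σ ν) (τ.trans σ) (μ * σ s + t) := by
  obtain ⟨g, hg, h1⟩ := h
  obtain ⟨g', hg', h2⟩ := h'
  refine ⟨g * g', G.mul_mem hg hg', fun x => ?_⟩
  change e (g (g' x)) = _
  rw [h1, h2, map_add, map_mul, RingEquiv.trans_apply]
  ring

omit [Fintype F] [CharP F 2] [Fintype V] [DecidableEq V] in
lemma Pm.one : Pm e G 1 (RingEquiv.refl F) 0 := ⟨1, G.one_mem, fun x => by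
  rw [one_mul, add_zero]
  rfl⟩

omit [Fintype F] [CharP F 2] [Fintype V] [DecidableEq V] in
lemma Pm.inv_smul {μ : F} (h : Pm e G μ (RingEquiv.refl F) 0) (hμ : μ ≠ 0) :
    Pm e G μ⁻¹ (RingEquiv.refl F) 0 := by
  obtain ⟨g, hg, h1⟩ := h
  refine ⟨g⁻¹, G.inv_mem hg, fun x => ?_⟩
  have h2 := h1 (g.symm x)
  rw [g.apply_symm_apply, add_zero] at h2
  change e (g.symm x) = _
  rw [add_zero]
  change e x = μ * e (g.symm x) at h2
  change _ = μ⁻¹ * e x
  rw [h2, ← mul_assoc, inv_mul_cancel₀ hμ, one_mul]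

/-- the multiplications in `G` -/
def Lam (e : V ≃ₗ[F] F) (G : Subgroup (Equiv.Perm V)) : Subgroup Fˣ where
  carrier := {u | Pm e G (u : F) (RingEquiv.refl F) 0}
  one_mem' := Pm.one
  mul_mem' := by
    intro u v hu hv
    obtain ⟨g, hg, h1⟩ := Pm.mul hu hv
    refine ⟨g, hg, fun x => ?_⟩
    rw [h1, map_zero, mul_zero, zero_add, Units.val_mul]
    rfl
  inv_mem' := by
    intro u hu
    have h1 := Pm.inv_smul hu u.ne_zero
    rw [← Units.val_inv_eq_inv_val] at h1
    exact h1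

omit [Fintype F] [CharP F 2] [DecidableEq V] in
/-- an element of `G` that fixes `0` and has odd prime order `p` is a multiplication -/
lemma exists_unit (hA : ∀ σ : F ≃+* F, σ ^ 4 = 1) (hG : G ≤ GamS e) {p : ℕ} (hp : p.Prime)
    (hodd : Nat.Coprime p 4)
    (hdvd : p ∣ Nat.card (G ⊓ MulAction.stabilizer (Equiv.Perm V) (0 : V) :
      Subgroup (Equiv.Perm V))) : p ∣ Nat.card (Lam e G) := by
  have hfact : Fact p.Prime := ⟨hp⟩
  obtain ⟨h, hh⟩ := exists_prime_orderOf_dvd_card' p hdvd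
  have hhG : h.1 ∈ G := h.2.1
  have h0 : h.1 0 = 0 := h.2.2
  obtain ⟨μ, σ, t, hμ, h1⟩ := hG hhG
  have ht : t = 0 := by
    have h2 := h1 0
    rw [h0, map_zero, map_zero, mul_zero, zero_add] at h2
    exact h2.symm
  have h1' : ∀ x, e (h.1 x) = μ * σ (e x) := fun x => by rw [h1, ht, add_zero]
  -- iterates
  have h2 : ∀ n : ℕ, ∃ c : F, ∀ x, e ((h.1 ^ n) x) = c * (σ ^ n) (e x) := by
    intro n
    induction n with
    | zero => exact ⟨1, fun x => by rw [pow_zero, pow_zero, one_mul]; rfl⟩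
    | succ n ih =>
      obtain ⟨c, hc⟩ := ih
      refine ⟨μ * σ c, fun x => ?_⟩
      rw [pow_succ', pow_succ']
      change e (h.1 ((h.1 ^ n) x)) = μ * σ c * σ ((σ ^ n) (e x))
      rw [h1', hc, map_mul, mul_assoc]
  have hp1 : h ^ p = 1 := by
    have h3 := pow_orderOf_eq_one h
    rwa [hh] at h3
  have hp2 : h.1 ^ p = 1 := congrArg Subtype.val hp1
  have hσp : σ ^ p = 1 := by
    obtain ⟨c, hc⟩ := h2 p
    rw [hp2] at hc
    have hc1 : c = 1 := by
      have h3 := hc (e.symm 1)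
      change e (e.symm 1) = _ at h3
      rw [e.apply_symm_apply, map_one, mul_one] at h3
      exact h3.symm
    ext y
    have h3 := hc (e.symm y)
    change e (e.symm y) = _ at h3
    rw [e.apply_symm_apply, hc1, one_mul] at h3
    exact h3.symm
  have hσ : σ = 1 := by
    have h3 := orderOf_dvd_of_pow_eq_one hσp
    have h4 := orderOf_dvd_of_pow_eq_one (hA σ)
    have h5 : orderOf σ ∣ 1 := by
      rw [← hodd]
      exact Nat.dvd_gcd h3 h4
    exact orderOf_eq_one_iff.1 (Nat.dvd_one.1 h5)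
  have h1'' : ∀ x, e (h.1 x) = μ * e x := fun x => by rw [h1', hσ]; rfl
  have hμp : ∀ n : ℕ, ∀ x, e ((h.1 ^ n) x) = μ ^ n * e x := by
    intro n
    induction n with
    | zero => exact fun x => by rw [pow_zero, pow_zero, one_mul]; rfl
    | succ n ih =>
      intro x
      rw [pow_succ', pow_succ']
      change e (h.1 ((h.1 ^ n) x)) = _
      rw [h1'', ih, mul_assoc]
  have hu : Units.mk0 μ hμ ∈ Lam e G := ⟨h.1, hhG, fun x => by rw [h1'', add_zero]; rfl⟩
  have hord : orderOf (⟨Units.mk0 μ hμ, hu⟩ : Lam e G) = p := by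
    apply orderOf_eq_prime
    · apply Subtype.ext
      apply Units.ext
      change μ ^ p = 1
      have h3 := hμp p (e.symm 1)
      rw [hp2] at h3
      change e (e.symm 1) = _ at h3
      rw [e.apply_symm_apply, mul_one] at h3
      exact h3.symm
    · intro h3
      have h4 : μ = 1 := congrArg (fun u : Lam e G => ((u : Fˣ) : F)) h3
      have h5 : h = 1 := by
        apply Subtype.ext
        ext x
        apply e.injective
        rw [h1'', h4, one_mul]
        rfl
      rw [h5, orderOf_one] at hh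
      exact hp.one_lt.ne hh
  rw [← hord]
  exact orderOf_dvd_natCard _

omit [CharP F 2] in
/-- all multiplications are in `G` -/
lemma all_smul (hF : Fintype.card F = 16) (hA : ∀ σ : F ≃+* F, σ ^ 4 = 1) (hG : G ≤ GamS e)
    (h2 : IsTwoTransitive G) {μ : F} (hμ : μ ≠ 0) : Pm e G μ (RingEquiv.refl F) 0 := by
  classical
  have hV : Fintype.card V = 16 := by rw [Fintype.card_congr e.toEquiv, hF]
  have hv1 : e.symm 1 ≠ 0 := by simp
  have h15 : 15 ∣ Nat.card (G ⊓ MulAction.stabilizer (Equiv.Perm V) (0 : V) :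
      Subgroup (Equiv.Perm V)) := by
    have h3 : (MulAction.orbit (G ⊓ MulAction.stabilizer (Equiv.Perm V) (0 : V) :
        Subgroup (Equiv.Perm V)) (e.symm 1)) = {x : V | x ≠ 0} := by
      ext x
      constructor
      · rintro ⟨g, rfl⟩ h4
        have h5 : g.1 0 = 0 := g.2.2
        have h6 : g.1 (e.symm 1) = g.1 0 := by
          rw [h5]
          exact h4
        exact hv1 (g.1.injective h6)
      · intro hx
        obtain ⟨g, hg, h4, h5⟩ := h2 0 (e.symm 1) 0 x hv1.symm (Ne.symm hx)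
        exact ⟨⟨g, hg, h4⟩, h5⟩
    have h4 := MulAction.index_stabilizer (G ⊓ MulAction.stabilizer (Equiv.Perm V) (0 : V) :
        Subgroup (Equiv.Perm V)) (e.symm 1)
    rw [h3] at h4
    have h5 : {x : V | x ≠ 0}.ncard = 15 := by
      have h6 : ({x : V | x ≠ 0} : Set V) = ((univ.erase (0 : V) : Finset V) : Set V) := by
        ext x
        simp
      rw [h6, Set.ncard_coe_finset, Finset.card_erase_of_mem (Finset.mem_univ _), card_univ, hV]
    rw [h5] at h4
    rw [← h4]
    exact Subgroup.index_dvd_card _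
  have h3 : 3 ∣ Nat.card (Lam e G) :=
    exists_unit hA hG Nat.prime_three (by norm_num) ((by norm_num : 3 ∣ 15).trans h15)
  have h5 : 5 ∣ Nat.card (Lam e G) :=
    exists_unit hA hG Nat.prime_five (by norm_num) ((by norm_num : 5 ∣ 15).trans h15)
  have hU : Nat.card Fˣ = 15 := by
    rw [Nat.card_eq_fintype_card, Fintype.card_units, hF]
  have htop : Lam e G = ⊤ := by
    apply Subgroup.eq_top_of_card_eq
    have h6 : Nat.card (Lam e G) ∣ 15 := by
      rw [← hU]
      exact Subgroup.card_subgroup_dvd_card _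
    rw [hU]
    have h7 : 15 ∣ Nat.card (Lam e G) :=
      Nat.Coprime.mul_dvd_of_dvd_of_dvd (by norm_num : Nat.Coprime 3 5) h3 h5
    exact Nat.dvd_antisymm h6 h7
  have h6 : Units.mk0 μ hμ ∈ Lam e G := by
    rw [htop]
    exact Subgroup.mem_top _
  exact h6

omit [CharP F 2] in
/-- all translations are in `G` -/
lemma all_trans (hF : Fintype.card F = 16) (hA : ∀ σ : F ≃+* F, σ ^ 4 = 1) (hG : G ≤ GamS e)
    (h2 : IsTwoTransitive G) (v : F) : Pm e G 1 (RingEquiv.refl F) v := by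
  classical
  have hv1 : e.symm 1 ≠ 0 := by simp
  obtain ⟨g, hg, h3, -⟩ := h2 0 (e.symm 1) (e.symm 1) 0 hv1.symm hv1
  obtain ⟨μ, σ, t, hμ, h4⟩ := hG hg
  have ht : t = 1 := by
    have h5 := h4 0
    rw [h3, e.apply_symm_apply, map_zero, map_zero, mul_zero, zero_add] at h5
    exact h5.symm
  obtain ⟨l, hl0, hl1⟩ : ∃ l : F, l ≠ 0 ∧ l ≠ 1 := by
    by_contra hcon
    push Not at hcon
    have h5 : Fintype.card F ≤ 2 := by
      have h6 : (univ : Finset F) ⊆ {0, 1} := by
        intro x _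
        by_cases hx : x = 0
        · simp [hx]
        · simp [hcon x hx]
      have h7 := Finset.card_le_card h6
      rw [card_univ] at h7
      exact h7.trans (Finset.card_le_two)
    omega
  have hσl : σ.symm l ≠ 0 := by simpa using hl0
  obtain ⟨m, hm, h5⟩ := all_smul hF hA hG h2 hl0
  obtain ⟨n, hn, h6⟩ := all_smul hF hA hG h2 (inv_ne_zero hσl)
  -- a nontrivial translation
  obtain ⟨w, hw, hw'⟩ : ∃ w : F, w ≠ 0 ∧ Pm e G 1 (RingEquiv.refl F) w := by
    refine ⟨(σ.symm l)⁻¹ * σ.symm ((l - 1) * μ⁻¹), ?_, n * (g⁻¹ * (m * g)), G.mul_mem hn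
      (G.mul_mem (G.inv_mem hg) (G.mul_mem hm hg)), fun x => ?_⟩
    · apply mul_ne_zero (inv_ne_zero hσl)
      have h7 : (l - 1) * μ⁻¹ ≠ 0 := mul_ne_zero (sub_ne_zero.2 hl1) (inv_ne_zero hμ)
      intro h8
      exact h7 ((map_eq_zero_iff σ.symm σ.symm.injective).1 h8)
    · change e (n (g.symm (m (g x)))) = _
      rw [h6]
      have h7 : e (g.symm (m (g x))) = σ.symm l * e x + σ.symm ((l - 1) * μ⁻¹) := by
        have h8 := h4 (g.symm (m (g x)))
        rw [g.apply_symm_apply, h5, h4, ht] at h8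
        change l * (μ * σ (e x) + 1) + 0 = _ at h8
        apply σ.injective
        rw [map_add, map_mul, σ.apply_symm_apply, σ.apply_symm_apply]
        have h9 : μ⁻¹ * μ = 1 := inv_mul_cancel₀ hμ
        linear_combination (-(μ⁻¹)) * h8 + (l * σ (e x) - σ (e (g.symm (m (g x))))) * h9
      change (σ.symm l)⁻¹ * e (g.symm (m (g x))) + 0 = 1 * e x + _
      rw [h7]
      have h9 : (σ.symm l)⁻¹ * σ.symm l = 1 := inv_mul_cancel₀ hσl
      linear_combination (e x) * h9
  by_cases hv : v = 0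
  · rw [hv]
    exact Pm.one
  obtain ⟨a, ha, h7⟩ := all_smul hF hA hG h2 (mul_ne_zero hv (inv_ne_zero hw))
  obtain ⟨b, hb, h8⟩ := all_smul hF hA hG h2 (inv_ne_zero (mul_ne_zero hv (inv_ne_zero hw)))
  obtain ⟨c, hc, h9⟩ := hw'
  refine ⟨a * (c * b), G.mul_mem ha (G.mul_mem hc hb), fun x => ?_⟩
  change e (a (c (b x))) = 1 * e x + v
  rw [h7, h9, h8]
  change v * w⁻¹ * (1 * ((v * w⁻¹)⁻¹ * e x + 0) + w) + 0 = 1 * e x + v
  have h10 : v * w⁻¹ * (v * w⁻¹)⁻¹ = 1 := mul_inv_cancel₀ (mul_ne_zero hv (inv_ne_zero hw))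
  have h11 : w⁻¹ * w = 1 := inv_mul_cancel₀ hw
  linear_combination (e x) * h10 + v * h11

/-- A 2-transitive group of semilinear affine maps of a line over the field with 16 elements in
which all automorphisms occur is the whole group. -/
theorem eq_gamS (hF : Fintype.card F = 16) (hG : G ≤ GamS e) (h2 : IsTwoTransitive G)
    (hall : OntoAut F G) : G = GamS e := by
  have hA : ∀ σ : F ≃+* F, σ ^ 4 = 1 := by
    intro σ
    have h1 : Nat.card (F ≃+* F) = 4 := Lin.card_aut (by rw [hF]; norm_num)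
    rw [← h1]
    exact pow_card_eq_one'
  apply le_antisymm hG
  rintro h ⟨μ, σ, t, hμ, h1⟩
  obtain ⟨g, s, hgsemi, a, ha, h3⟩ := hall σ
  -- the member of `G` with automorphism `σ`
  have hν : e (g (e.symm 1)) ≠ 0 := by
    intro h0
    rw [e.map_eq_zero_iff, g.map_eq_zero_iff, e.symm.map_eq_zero_iff] at h0
    exact one_ne_zero h0
  have h4 : ∀ x, e (a x) = e (g (e.symm 1)) * σ (e x) + e s := by
    intro x
    have h5 : x = e x • e.symm 1 := by
      rw [← map_smul, smul_eq_mul, mul_one, e.symm_apply_apply]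
    rw [h3, map_add]
    congr 1
    conv_lhs => rw [h5]
    rw [hgsemi, map_smul, smul_eq_mul, mul_comm]
  obtain ⟨m, hm, h5⟩ := all_smul hF hA hG h2 (mul_ne_zero hμ (inv_ne_zero hν))
  obtain ⟨b, hb, h6⟩ := all_trans hF hA hG h2 (t - μ * (e (g (e.symm 1)))⁻¹ * e s)
  have h7 : h = b * (m * a) := by
    ext x
    apply e.injective
    change e (h x) = e (b (m (a x)))
    rw [h6, h5, h1]
    change _ = 1 * (μ * (e (g (e.symm 1)))⁻¹ * e (a x) + 0) + _
    rw [h4]
    have h8 : (e (g (e.symm 1)))⁻¹ * e (g (e.symm 1)) = 1 := inv_mul_cancel₀ hν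
    linear_combination (-(μ * σ (e x))) * h8
  rw [h7]
  exact G.mul_mem hb (G.mul_mem hm ha)

end Gam2

open Gam2 in
/-- **Class (i), uniform list.** -/
theorem gam_class {F : Type*} [Field F] [Fintype F] [CharP F 2] {V : Type*} [AddCommGroup V]
    [Module F V] [Fintype V] [DecidableEq V] (hdim : Module.finrank F V = 1)
    {G : Subgroup (Equiv.Perm V)} (hG : SemiG F G) (h2 : IsTwoTransitive G) (k : ℕ)
    (C : Set (Finset V)) (hk : 3 ≤ k) (hk' : 2 * k ≤ Fintype.card V) :
    (IsSITCode G k C ∧ C.Nonempty) ↔ ∃ γ : Finset V, γ.card = k ∧ C = Orb G γ ∧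
      ((∃ W : Submodule F V, Translate (W : Set V) γ) ∨ Exc F G γ ∨ ∃ β, Quad F G γ β) := by
  classical
  have e : V ≃ₗ[F] F := LinearEquiv.ofFinrankEq V F (by rw [hdim, Module.finrank_self])
  have hcard : Fintype.card V = Fintype.card F := Fintype.card_congr e.toEquiv
  apply iff_of _ hk hk'
  · exact fun γ hC hγ => nec_gen hG hC hk hk' hγ
  · rintro γ hγk (⟨W, v, hW⟩ | (⟨h4, -⟩ | ⟨h16, hall, h3⟩) | ⟨β, hβ⟩)
    · exfalso
      have h3 : γ.card = Nat.card W := by
        have h5 : γ.card = Nat.card γ := by rw [Nat.card_eq_fintype_card, Fintype.card_coe]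
        rw [h5]
        have h6 : ∀ x : V, x + v + v = x := fun x => by
          rw [add_assoc, add_self_of_char F V, add_zero]
        exact Nat.card_congr
          ⟨fun x => ⟨x.1 + v, (hW x.1).1 x.2⟩, fun x => ⟨x.1 + v, (hW _).2 (by
            rw [h6]
            exact x.2)⟩, fun x => Subtype.ext (h6 _), fun x => Subtype.ext (h6 _)⟩
      have h5 : Module.finrank F W ≤ 1 := hdim ▸ Submodule.finrank_le W
      rcases Nat.le_one_iff_eq_zero_or_eq_one.1 h5 with h6 | h6
      · have h7 : W = ⊥ := Submodule.finrank_eq_zero.1 h6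
        rw [h7] at h3
        have h8 : Nat.card (⊥ : Submodule F V) = 1 := Nat.card_unique
        omega
      · have h7 : W = ⊤ := Submodule.eq_top_of_finrank_eq (by rw [h6, hdim])
        rw [h7] at h3
        have h8 : Nat.card (⊤ : Submodule F V) = Fintype.card V := by
          rw [← Nat.card_eq_fintype_card]
          exact Nat.card_congr (Equiv.Set.univ V)
        omega
    · omega
    · have hGe : G = GamS e := eq_gamS h16 (fun h hh => mem_GamS.2 (hG h hh)) h2 hall
      have hγ : γ ∈ Lines e := (mem_Lines_iff h16 e γ).2 h3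
      rw [hGe]
      exact (lines_SIT h16 e).stab hγ
    · rcases hβ.small with h3 | ⟨h3, -⟩ <;> omega

end Pool.Agent.SIT.Gen
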