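import Pool.Agent.SIT.HexTwo

/-!
# The groups between `T.G_2(q)'` and `AΓG_2(q)`, `q` even: the final form
-/

namespace Pool.Agent.SIT.Gen

open Finset

/-- **The groups `G` with `T.G_2(q)' ≤ G ≤ AΓG_2(q)`, `q` even.** -/
theorem hex_class {F : Type*} [Field F] [Fintype F] [DecidableEq F] [CharP F 2]
    {G : Subgroup (Equiv.Perm (Hex.V6 F))} (hG : HexG' F G) :
    IsTwoTransitive G ∧ ∀ (k : ℕ) (C : Set (Finset (Hex.V6 F))), 3 ≤ k →
    2 * k ≤ Fintype.card (Hex.V6 F) →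
    ((IsSITCode G k C ∧ C.Nonempty) ↔ ∃ γ : Finset (Hex.V6 F), γ.card = k ∧ C = Orb G γ ∧
      ((∃ W : Submodule F (Hex.V6 F),
          ((Module.finrank F W = 5 ∧ ∀ a : Hex.V6 F ≃ₗ[F] Hex.V6 F, HexIso a → a.toEquiv ∈ G) ∨
            LinePerp (W : Set (Hex.V6 F))) ∧ Translate (W : Set (Hex.V6 F)) γ) ∨
        Exc F G γ ∨
        ∃ β, Quad F G γ β ∧ (LinePerp {r : Hex.V6 F | ∀ y, β r y = 0} ∨
          ∀ a b, Hex.Bf a b = 0 → β a b = 0))) := by
  by_cases hF : Fintype.card F = 2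
  · exact hex_class_two hF hG
  · exact hex_class_ge4 hF hG

end Pool.Agent.SIT.Gen
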