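import Mathlib

/-!
# Transitivity of groups containing all transvections (sufficiency for flats)

`P g σ`: the additive permutation `g` is in the group and is semilinear for `σ`.
-/

namespace Pool.Agent.SIT.LinS

variable {F V : Type*} [Field F] [AddCommGroup V] [Module F V]

/-- The transvection `x ↦ x + φ x • v`. -/
def tE (φ : Module.Dual F V) (v : V) (h : φ v = 0) : V ≃+ V :=
  (LinearEquiv.transvection h).toAddEquiv

lemma tE_apply (φ : Module.Dual F V) (v : V) (h : φ v = 0) (x : V) :
    tE φ v h x = x + φ x • v := rfl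

/-- A group of semilinear permutations containing all transvections. -/
structure Grp (P : (V ≃+ V) → (F ≃+* F) → Prop) : Prop where
  semi : ∀ g σ, P g σ → ∀ (c : F) x, g (c • x) = σ c • g x
  one : P (AddEquiv.refl V) (RingEquiv.refl F)
  mul : ∀ g σ h τ, P g σ → P h τ → P (g.trans h) (σ.trans τ)
  inv : ∀ g σ, P g σ → P g.symm σ.symm
  tv : ∀ (φ : Module.Dual F V) (v : V) (h : φ v = 0), P (tE φ v h) (RingEquiv.refl F)

/-- A functional separating a vector from a submodule. -/
lemma exists_fun {W : Submodule F V} {x : V} (hx : x ∉ W) :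
    ∃ φ : Module.Dual F V, φ x = 1 ∧ ∀ w ∈ W, φ w = 0 := by
  obtain ⟨f, hf, hW⟩ := Submodule.exists_le_ker_of_notMem hx
  refine ⟨(f x)⁻¹ • f, ?_, ?_⟩
  · rw [LinearMap.smul_apply, smul_eq_mul, inv_mul_cancel₀ hf]
  · intro w hw
    rw [LinearMap.smul_apply, show f w = 0 from hW hw, smul_zero]

lemma solve_aux {w x z : V} {d : F}
    (hsum : w + d • (z - x) = x) : d • z = (1 + d) • x - w := by
  have h4 : d • (z - x) = x - w := by
    rw [eq_sub_iff_add_eq, add_comm]
    exact hsum
  calc d • z = d • (z - x) + d • x := by rw [smul_sub]; abel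
    _ = _ := by rw [h4, add_smul, one_smul]; abel

/-- `x` and `y` are congruent modulo `W`. -/
lemma move_coset {W : Submodule F V} {x y : V} (hx : x ∉ W) (hxy : y - x ∈ W) :
    ∃ (φ : Module.Dual F V) (v : V) (h : φ v = 0), v ∈ W ∧ tE φ v h x = y := by
  have hx' : x ∉ Submodule.span F {y - x} := by
    intro h
    exact hx ((Submodule.span_singleton_le_iff_mem _ _).2 hxy h)
  obtain ⟨φ, h1, h2⟩ := exists_fun hx'
  refine ⟨φ, y - x, h2 _ (Submodule.mem_span_singleton_self _), hxy, ?_⟩
  rw [tE_apply, h1, one_smul]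
  abel

/-- `x` and `y` are independent modulo `W`. -/
lemma move_indep {W : Submodule F V} {x y : V} (hx : x ∉ W ⊔ Submodule.span F {y - x}) :
    ∃ (φ : Module.Dual F V) (v : V) (h : φ v = 0), (∀ w ∈ W, φ w = 0) ∧ tE φ v h x = y := by
  obtain ⟨φ, h1, h2⟩ := exists_fun hx
  refine ⟨φ, y - x, h2 _ (Submodule.mem_sup_right (Submodule.mem_span_singleton_self _)),
    fun w hw => h2 w (Submodule.mem_sup_left hw), ?_⟩
  rw [tE_apply, h1, one_smul]
  abel

lemma tE_mem_iff_of_mem {W : Submodule F V} {φ : Module.Dual F V} {v : V} (h : φ v = 0)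
    (hv : v ∈ W) (z : V) : tE φ v h z ∈ W ↔ z ∈ W := by
  rw [tE_apply]
  exact Submodule.add_mem_iff_left _ (W.smul_mem _ hv)

lemma tE_mem_iff_of_fun {W : Submodule F V} {φ : Module.Dual F V} {v : V} (h : φ v = 0)
    (hφ : ∀ w ∈ W, φ w = 0) (z : V) : tE φ v h z ∈ W ↔ z ∈ W := by
  constructor
  · intro hz
    have h1 : φ (tE φ v h z) = 0 := hφ _ hz
    rw [tE_apply, map_add, map_smul, h, smul_zero, add_zero] at h1
    rw [tE_apply, h1, zero_smul, add_zero] at hz
    exact hz
  · intro hz
    rw [tE_apply, hφ z hz, zero_smul, add_zero]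
    exact hz

section

variable {P : (V ≃+ V) → (F ≃+* F) → Prop}

lemma comp_refl (hP : Grp P) {g h : V ≃+ V} (hg : P g (RingEquiv.refl F))
    (hh : P h (RingEquiv.refl F)) : P (g.trans h) (RingEquiv.refl F) := by
  have := hP.mul _ _ _ _ hg hh
  have e : (RingEquiv.refl F).trans (RingEquiv.refl F) = RingEquiv.refl F := by
    ext x; rfl
  rwa [e] at this

/-- The transvections are transitive on nonzero functionals (dimension at least 2). -/
lemma move_fun (hP : Grp P) (hdim : ∀ φ : Module.Dual F V, ∃ v, v ≠ 0 ∧ φ v = 0)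
    {φ ψ : Module.Dual F V} (hφ : φ ≠ 0) (hψ : ψ ≠ 0) :
    ∃ g, P g (RingEquiv.refl F) ∧ ∀ x, φ (g x) = ψ x := by
  -- independent functionals
  have key : ∀ {φ ψ : Module.Dual F V}, (∃ v, φ v = 1 ∧ ψ v = 1) →
      ∃ g, P g (RingEquiv.refl F) ∧ ∀ x, φ (g x) = ψ x := by
    rintro φ ψ ⟨v, h1, h2⟩
    have h0 : (ψ - φ) v = 0 := by rw [LinearMap.sub_apply, h1, h2, sub_self]
    refine ⟨tE (ψ - φ) v h0, hP.tv _ _ _, fun x => ?_⟩
    rw [tE_apply, map_add, map_smul, h1, smul_eq_mul, mul_one, LinearMap.sub_apply]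
    ring
  -- for independent functionals there is such a `v`
  have ind : ∀ {φ ψ : Module.Dual F V}, φ ≠ 0 → (∀ c : F, ψ ≠ c • φ) → ∃ v, φ v = 1 ∧ ψ v = 1 := by
    intro φ ψ hφ hind
    -- some `w` in the kernel of `φ` with `ψ w ≠ 0`
    obtain ⟨w, hw1, hw2⟩ : ∃ w, φ w = 0 ∧ ψ w ≠ 0 := by
      by_contra hcon
      push Not at hcon
      obtain ⟨a, ha⟩ : ∃ a, φ a ≠ 0 := by
        by_contra h
        push Not at h
        exact hφ (LinearMap.ext h)
      apply hind (ψ a / φ a)
      ext x
      have h1 := hcon (x - (φ x / φ a) • a) (by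
        rw [map_sub, map_smul, smul_eq_mul, div_mul_cancel₀ _ ha, sub_self])
      rw [map_sub, map_smul, smul_eq_mul, sub_eq_zero] at h1
      rw [h1, LinearMap.smul_apply, smul_eq_mul]
      ring
    obtain ⟨a, ha⟩ : ∃ a, φ a ≠ 0 := by
      by_contra h
      push Not at h
      exact hφ (LinearMap.ext h)
    refine ⟨(φ a)⁻¹ • a + ((1 - ψ ((φ a)⁻¹ • a)) / ψ w) • w, ?_, ?_⟩
    · rw [map_add, map_smul, map_smul, hw1, smul_zero, add_zero, smul_eq_mul, inv_mul_cancel₀ ha]
    · rw [map_add, map_smul ψ _ w, smul_eq_mul, div_mul_cancel₀ _ hw2]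
      ring
  by_cases hind : ∀ c : F, ψ ≠ c • φ
  · exact key (ind hφ hind)
  · push Not at hind
    obtain ⟨c, rfl⟩ := hind
    -- a functional independent of `φ`
    obtain ⟨v, hv0, hv⟩ := hdim φ
    obtain ⟨χ, hχ, -⟩ := exists_fun (W := (⊥ : Submodule F V)) (x := v) (by simpa using hv0)
    have hχ0 : χ ≠ 0 := by
      rintro rfl
      simp at hχ
    have i1 : ∀ d : F, χ ≠ d • φ := by
      rintro d rfl
      rw [LinearMap.smul_apply, hv, smul_zero] at hχ
      exact zero_ne_one hχ
    have i2 : ∀ d : F, χ ≠ d • (c • φ) := by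
      intro d h
      rw [smul_smul] at h
      exact i1 _ h
    obtain ⟨g, hg, hg'⟩ := key (ind hφ i1)
    obtain ⟨v2, k1, k2⟩ := ind hψ i2
    obtain ⟨h, hh, hh'⟩ := key (φ := χ) (ψ := c • φ) ⟨v2, k2, k1⟩
    refine ⟨h.trans g, comp_refl hP hh hg, fun x => ?_⟩
    change φ (g (h x)) = _
    rw [hg', hh']

/-- **S1.** The stabiliser of an `F`-subspace is transitive on its complement. -/
theorem lin_S1 (hP : Grp P) (hdim : ∀ φ : Module.Dual F V, ∃ v, v ≠ 0 ∧ φ v = 0)
    (W : Submodule F V) {x y : V} (hx : x ∉ W) (hy : y ∉ W) :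
    ∃ g, P g (RingEquiv.refl F) ∧ (∀ z, g z ∈ W ↔ z ∈ W) ∧ g x = y := by
  have hB : ∀ {x y : V}, x ∉ W ⊔ Submodule.span F {y - x} →
      ∃ g, P g (RingEquiv.refl F) ∧ (∀ z, g z ∈ W ↔ z ∈ W) ∧ g x = y := by
    intro x y h
    obtain ⟨φ, v, h0, h1, h2⟩ := move_indep h
    exact ⟨tE φ v h0, hP.tv _ _ _, tE_mem_iff_of_fun h0 h1, h2⟩
  have hA : ∀ {x y : V}, x ∉ W → y - x ∈ W →
      ∃ g, P g (RingEquiv.refl F) ∧ (∀ z, g z ∈ W ↔ z ∈ W) ∧ g x = y := by
    intro x y hx h
    obtain ⟨φ, v, h0, h1, h2⟩ := move_coset hx h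
    exact ⟨tE φ v h0, hP.tv _ _ _, tE_mem_iff_of_mem h0 h1, h2⟩
  have hcomp : ∀ {x y z : V}, (∃ g, P g (RingEquiv.refl F) ∧ (∀ z, g z ∈ W ↔ z ∈ W) ∧ g x = y) →
      (∃ g, P g (RingEquiv.refl F) ∧ (∀ z, g z ∈ W ↔ z ∈ W) ∧ g y = z) →
      ∃ g, P g (RingEquiv.refl F) ∧ (∀ z, g z ∈ W ↔ z ∈ W) ∧ g x = z := by
    rintro x y z ⟨g, g1, g2, g3⟩ ⟨h, h1, h2, h3⟩
    refine ⟨g.trans h, comp_refl hP g1 h1, fun w => (h2 _).trans (g2 w), ?_⟩
    change h (g x) = z
    rw [g3, h3]
  -- `y` is congruent to a multiple of `x`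
  have hC : ∀ {x y : V} {c : F}, x ∉ W → y ∉ W → y - c • x ∈ W →
      ∃ g, P g (RingEquiv.refl F) ∧ (∀ z, g z ∈ W ↔ z ∈ W) ∧ g x = y := by
    intro x y c hx hy hc
    by_cases htop : ∃ z, z ∉ W ⊔ Submodule.span F {x}
    · -- two steps through an independent vector
      obtain ⟨z, hz⟩ := htop
      have hc0 : c ≠ 0 := by
        rintro rfl
        rw [zero_smul, sub_zero] at hc
        exact hy hc
      have h1 : x ∉ W ⊔ Submodule.span F {z - x} := by
        intro h
        obtain ⟨w, hw, s, hs, hsum⟩ := Submodule.mem_sup.1 h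
        obtain ⟨d, rfl⟩ := Submodule.mem_span_singleton.1 hs
        have hd : d ≠ 0 := by
          rintro rfl
          rw [zero_smul, add_zero] at hsum
          exact hx (hsum ▸ hw)
        apply hz
        have e : z = -(d⁻¹ • w) + (d⁻¹ * (1 + d)) • x := by
          have h3 : d • z = (1 + d) • x - w := solve_aux hsum
          calc z = d⁻¹ • (d • z) := by rw [smul_smul, inv_mul_cancel₀ hd, one_smul]
            _ = _ := by rw [h3, smul_sub, smul_smul]; abel
        rw [e]
        exact Submodule.add_mem_sup (W.neg_mem (W.smul_mem _ hw))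
          (Submodule.smul_mem _ _ (Submodule.mem_span_singleton_self _))
      have h2 : z ∉ W ⊔ Submodule.span F {y - z} := by
        intro h
        obtain ⟨w, hw, s, hs, hsum⟩ := Submodule.mem_sup.1 h
        obtain ⟨d, rfl⟩ := Submodule.mem_span_singleton.1 hs
        -- `z = w + d (y - z)`
        by_cases hd : 1 + d = 0
        · have h3 : y = -(d⁻¹ • w) + 0 := by
            have hd0 : d ≠ 0 := by
              rintro rfl
              simp at hd
            have h4 : d • y = (1 + d) • z - w := solve_aux hsum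
            rw [hd, zero_smul, zero_sub] at h4
            calc y = d⁻¹ • (d • y) := by rw [smul_smul, inv_mul_cancel₀ hd0, one_smul]
              _ = _ := by rw [h4, smul_neg, add_zero]
          apply hy
          rw [h3, add_zero]
          exact W.neg_mem (W.smul_mem _ hw)
        · apply hz
          have h3 : (1 + d) • z = w + d • y := by
            rw [add_smul, one_smul]
            calc z + d • z = (w + d • (y - z)) + d • z := by rw [hsum]
              _ = _ := by rw [smul_sub]; abel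
          have e : z = (1 + d)⁻¹ • (w + d • y) := by
            rw [← h3, smul_smul, inv_mul_cancel₀ hd, one_smul]
          rw [e]
          apply Submodule.smul_mem
          have h5 : w + d • y = (w + d • (y - c • x)) + (d * c) • x := by
            rw [smul_sub, smul_smul]; abel
          rw [h5]
          exact Submodule.add_mem_sup (W.add_mem hw (W.smul_mem _ hc))
            (Submodule.smul_mem _ _ (Submodule.mem_span_singleton_self _))
      exact hcomp (hB h1) (hB h2)
    · -- `W` is a hyperplane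
      push Not at htop
      obtain ⟨φ, hφ1, hφ2⟩ := exists_fun hx
      have hker : ∀ z, φ z = 0 → z ∈ W := by
        intro z hz
        obtain ⟨w, hw, s, hs, hsum⟩ := Submodule.mem_sup.1 (htop z)
        obtain ⟨d, rfl⟩ := Submodule.mem_span_singleton.1 hs
        rw [← hsum, map_add, map_smul, hφ1, hφ2 w hw, zero_add, smul_eq_mul, mul_one] at hz
        rw [← hsum, hz, zero_smul, add_zero]
        exact hw
      have hφy : φ y = c := by
        have := hφ2 _ hc
        rw [map_sub, map_smul, hφ1, smul_eq_mul, mul_one, sub_eq_zero] at this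
        exact this
      have hc0 : c ≠ 0 := by
        rintro rfl
        exact hy (hker y hφy)
      obtain ⟨g, hg, hg'⟩ := move_fun hP hdim (φ := φ) (ψ := c • φ)
        (by rintro rfl; simp at hφ1) (by
          intro h
          have := congrArg (fun f : Module.Dual F V => f x) h
          simp only [LinearMap.smul_apply, hφ1, smul_eq_mul, mul_one, LinearMap.zero_apply] at this
          exact hc0 this)
      have hW : ∀ z, g z ∈ W ↔ z ∈ W := by
        intro z
        constructor
        · intro h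
          have h1 := hφ2 _ h
          rw [hg', LinearMap.smul_apply, smul_eq_mul] at h1
          exact hker z ((mul_eq_zero.1 h1).resolve_left hc0)
        · intro h
          apply hker
          rw [hg', LinearMap.smul_apply, hφ2 z h, smul_zero]
      refine hcomp ⟨g, hg, hW, rfl⟩ (hA ?_ ?_)
      · rw [hW]; exact hx
      · apply hker
        rw [map_sub, hφy, hg', LinearMap.smul_apply, hφ1, smul_eq_mul, mul_one, sub_self]
  by_cases h : ∃ c : F, y - c • x ∈ W
  · obtain ⟨c, hc⟩ := h
    exact hC hx hy hc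
  · push Not at h
    apply hB
    intro hmem
    obtain ⟨w, hw, s, hs, hsum⟩ := Submodule.mem_sup.1 hmem
    obtain ⟨d, rfl⟩ := Submodule.mem_span_singleton.1 hs
    have hd : d ≠ 0 := by
      rintro rfl
      rw [zero_smul, add_zero] at hsum
      exact hx (hsum ▸ hw)
    apply h (d⁻¹ * (1 + d))
    have h3 : d • y = (1 + d) • x - w := solve_aux hsum
    have h4 : y - (d⁻¹ * (1 + d)) • x = -(d⁻¹ • w) := by
      calc y - (d⁻¹ * (1 + d)) • x = d⁻¹ • (d • y) - (d⁻¹ * (1 + d)) • x := by
            rw [smul_smul, inv_mul_cancel₀ hd, one_smul]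
        _ = _ := by rw [h3, smul_sub, smul_smul]; abel
    rw [h4]
    exact W.neg_mem (W.smul_mem _ hw)

end

end Pool.Agent.SIT.LinS
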