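import Pool.Agent.SIT.LinS4
import Pool.Agent.SIT.LinS

/-!
# Trace quadrics over `F_4`: groups of semilinear affine maps

`P g t σ`: the map `x ↦ g x + t` belongs to the group, `g` is `σ`-semilinear.
-/

namespace Pool.Agent.SIT.S4

variable {F : Type*} [Field F] [CharP F 2] {V : Type*} [AddCommGroup V] [Module F V]

omit [CharP F 2] in
/-- the field with four elements -/
theorem exists_w [Fintype F] (hcard : Fintype.card F = 4) :
    ∃ w : F, w ^ 2 + w + 1 = 0 ∧ ∀ x : F, x = 0 ∨ x = 1 ∨ x = w ∨ x = w + 1 := by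
  classical
  have hpow : ∀ x : F, x ^ 4 = x := by
    intro x
    rw [← hcard]
    exact FiniteField.pow_card x
  obtain ⟨w, hw⟩ : ∃ w : F, w ∉ ({0, 1} : Finset F) := by
    by_contra hcon
    push Not at hcon
    have h1 : (Finset.univ : Finset F) ⊆ {0, 1} := fun x _ => hcon x
    have h2 := Finset.card_le_card h1
    rw [Finset.card_univ, hcard] at h2
    have h3 : ({0, 1} : Finset F).card ≤ 2 := Finset.card_le_two
    omega
  simp only [Finset.mem_insert, Finset.mem_singleton, not_or] at hw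
  have key : ∀ x : F, x ≠ 0 → x ≠ 1 → x ^ 2 + x + 1 = 0 := by
    intro x h0 h1
    have h2 : x * (x - 1) * (x ^ 2 + x + 1) = 0 := by
      have := hpow x
      linear_combination this
    rcases mul_eq_zero.mp h2 with h3 | h3
    · rcases mul_eq_zero.mp h3 with h4 | h4
      · exact absurd h4 h0
      · exact absurd (sub_eq_zero.mp h4) h1
    · exact h3
  refine ⟨w, key w hw.1 hw.2, fun x => ?_⟩
  by_cases h0 : x = 0
  · exact Or.inl h0
  by_cases h1 : x = 1
  · exact Or.inr (Or.inl h1)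
  right
  right
  have e1 := key x h0 h1
  have e2 := key w hw.1 hw.2
  have hchar : (2 : F) = 0 := by
    have h3 : ((Fintype.card F : ℕ) : F) = 0 := Nat.cast_card_eq_zero F
    rw [hcard] at h3
    have h4 : (2 : F) * 2 = 0 := by
      norm_num at h3 ⊢
      exact h3
    exact mul_self_eq_zero.mp h4
  have h3 : (x - w) * (x - (w + 1)) = 0 := by
    linear_combination e1 - e2 - x * (w + 1) * hchar + (w ^ 2 + w) * hchar
  rcases mul_eq_zero.mp h3 with h4 | h4
  · exact Or.inl (sub_eq_zero.mp h4)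
  · exact Or.inr (sub_eq_zero.mp h4)

/-- the nontrivial automorphism -/
theorem aut_eq_sq {w : F} (hw : w ^ 2 + w + 1 = 0)
    (hF : ∀ x : F, x = 0 ∨ x = 1 ∨ x = w ∨ x = w + 1) {σ : F ≃+* F} (hσ : σ ≠ RingEquiv.refl F)
    (c : F) : σ c = c ^ 2 := by
  have h1 : σ w = w + 1 := by
    have hne : σ w ≠ w := by
      intro h
      apply hσ
      ext x
      rcases hF x with h2 | h2 | h2 | h2
      · rw [h2]; simp
      · rw [h2]; simp
      · rw [h2, h]; rfl
      · rw [h2, map_add, h, map_one]; rfl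
    rcases hF (σ w) with h2 | h2 | h2 | h2
    · exact absurd ((map_eq_zero σ).mp h2) (w_ne_zero hw)
    · exfalso
      have h3 : w = 1 := by
        apply σ.injective
        rw [h2, map_one]
      rw [h3] at hw
      have := add_self_F (1 : F)
      have h4 : (1 : F) = 0 := by linear_combination hw - this
      exact one_ne_zero h4
    · exact absurd h2 hne
    · exact h2
  rcases hF c with h2 | h2 | h2 | h2
  · rw [h2]; simp
  · rw [h2]; simp
  · rw [h2, h1, w_sq hw]
  · rw [h2, map_add, h1, map_one]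
    have : (w + 1) ^ 2 = w ^ 2 + (w + w) + 1 := by ring
    rw [this, add_self_F, w_sq hw]
    ring

variable {w : F} {f : V → ZMod 2} {β : V → V → ZMod 2}

/-- The stabiliser of the quadric `f = 1` in a group of semilinear affine maps. -/
theorem s4_grp (hb : ∀ x a b, f (x + a + b) + f (x + a) + f (x + b) + f x = β a b)
    (hcomp : ∀ (c : F) a b, β (c • a) b = β a (c • b)) (hw : w ^ 2 + w + 1 = 0)
    (hF : ∀ x : F, x = 0 ∨ x = 1 ∨ x = w ∨ x = w + 1)
    (hR : ∀ a, (∀ b, β a b = 0) → ∀ x, f (x + a) = f x)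
    {P : (V ≃+ V) → V → (F ≃+* F) → Prop}
    (hsemi : ∀ {g t σ}, P g t σ → ∀ (c : F) x, g (c • x) = σ c • g x)
    (hmul : ∀ {g t σ g' t' σ'}, P g t σ → P g' t' σ' → P (g'.trans g) (g t' + t) (σ'.trans σ))
    (htr : ∀ r, (∀ b, β r b = 0) → P (AddEquiv.refl V) r (RingEquiv.refl F))
    (hrefl : ∀ (p z : V) (c : F), c * Qt w f p z = 1 → ∃ g t, P g t (RingEquiv.refl F) ∧
      g p + t = p ∧ ∀ x, ∀ b, β (g x + t + (x + (c * bt w β (x + p) z) • z)) b = 0)
    (hrad : ∀ p y y' : V, (¬ ∀ b, β (p + y) b = 0) → (∀ b, β (y + y') b = 0) →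
      ∃ g t, P g t (RingEquiv.refl F) ∧ (∀ x b, β (g x + t + x) b = 0) ∧ g p + t = p ∧
        g y + t = y')
    (h0 : ∃ g t σ, P g t σ ∧ σ ≠ RingEquiv.refl F ∧ ∀ x, f (g x + t) = f x)
    {x y x' y' : V} (hx : f x = f x') (hy : f y = f y') (hne : f x ≠ f y) :
    ∃ g t σ, P g t σ ∧ (∀ z, f (g z + t) = f z) ∧ g x + t = x' ∧ g y + t = y' := by
  obtain ⟨g₀, t₀, σ₀, hg₀, hσ₀, hf₀⟩ := h0
  have hVV : ∀ v : V, v + v = 0 := add_self_V (F := F)
  have hgen : ∀ {u v : V}, (∀ b, β (u + v) b = 0) → f u = f v := by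
    intro u v h
    have h1 := hR _ h v
    have e1 : v + (u + v) = u + (v + v) := by abel
    rw [e1, hVV, add_zero] at h1
    exact h1
  have key := s4 (w := w) hb hcomp hw hF hR
    (P := fun h => ∃ g t, P g t (RingEquiv.refl F) ∧ (∀ z, h z = g z + t) ∧ ∀ z, f (h z) = f z)
    (P2 := fun h => ∃ g t σ, P g t σ ∧ (∀ z, h z = g z + t) ∧ ∀ z, f (h z) = f z)
    (g0 := fun z => g₀ z + t₀) ?_ ?_ ?_ ?_ ?_ ?_ hf₀ ?_ ?_ ?_ hx hy hne
  · obtain ⟨h, ⟨g, t, σ, hP, h1, h2⟩, h3, h4⟩ := key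
    refine ⟨g, t, σ, hP, fun z => ?_, ?_, ?_⟩
    · rw [← h1, h2]
    · rw [← h1, h3]
    · rw [← h1, h4]
  · rintro h1 h2 ⟨g, t, hP, h3, h4⟩ ⟨g', t', hP', h3', h4'⟩
    refine ⟨g'.trans g, g t' + t, ?_, fun z => ?_, fun z => ?_⟩
    · exact hmul hP hP'
    · simp only [Function.comp, h3, h3', AddEquiv.trans_apply, map_add]
      abel
    · simp only [Function.comp, h4, h4']
  · rintro h ⟨g, t, hP, h1, h2⟩ x
    exact h2 x
  · rintro h ⟨g, t, hP, h1, h2⟩ c x y
    rw [h1, h1, h1, map_add, hsemi hP, map_add]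
    have e : g x + t + (g y + t) = g x + g y + (t + t) := by abel
    rw [e, hVV, add_zero]
    change g x + c • (g x + g y) + t = g x + t + c • (g x + g y)
    abel
  · intro r hr
    exact ⟨AddEquiv.refl V, r, htr r hr, fun z => rfl, fun z => hR r hr z⟩
  · intro p z c hc
    obtain ⟨g, t, hP, h1, h2⟩ := hrefl p z c hc
    refine ⟨fun z => g z + t, ⟨g, t, hP, fun z => rfl, fun x => ?_⟩, h1, h2⟩
    rw [hgen (h2 x), refl_f hb hcomp hw hF hc]
  · intro p y y' h1 h2
    obtain ⟨g, t, hP, h3, h4, h5⟩ := hrad p y y' h1 h2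
    exact ⟨fun z => g z + t, ⟨g, t, hP, fun z => rfl, fun x => hgen (h3 x)⟩, h4, h5⟩
  · intro c x y
    change g₀ (x + c • (x + y)) + t₀ = g₀ x + t₀ + c ^ 2 • (g₀ x + t₀ + (g₀ y + t₀))
    rw [map_add, hsemi hg₀, map_add, aut_eq_sq hw hF hσ₀]
    have e : g₀ x + t₀ + (g₀ y + t₀) = g₀ x + g₀ y + (t₀ + t₀) := by abel
    rw [e, hVV, add_zero]
    abel
  · rintro h ⟨g, t, hP, h1, h2⟩
    exact ⟨g, t, _, hP, h1, h2⟩
  · rintro h ⟨g, t, hP, h1, h2⟩
    refine ⟨g₀.trans g, g t₀ + t, _, hmul hP hg₀, fun z => ?_, fun z => ?_⟩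
    · simp only [Function.comp, h1, AddEquiv.trans_apply, map_add]
      abel
    · simp only [Function.comp, h2]
      exact hf₀ z

/-- Groups containing all translations and all transvections. -/
theorem lin_S4 [Fintype F] (hcard : Fintype.card F = 4)
    (hb : ∀ x a b, f (x + a + b) + f (x + a) + f (x + b) + f x = β a b)
    (hcomp : ∀ (c : F) a b, β (c • a) b = β a (c • b))
    (hR : ∀ a, (∀ b, β a b = 0) → ∀ x, f (x + a) = f x)
    {P : (V ≃+ V) → V → (F ≃+* F) → Prop}
    (hsemi : ∀ {g t σ}, P g t σ → ∀ (c : F) x, g (c • x) = σ c • g x)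
    (hmul : ∀ {g t σ g' t' σ'}, P g t σ → P g' t' σ' → P (g'.trans g) (g t' + t) (σ'.trans σ))
    (hone : ∀ r, P (AddEquiv.refl V) r (RingEquiv.refl F))
    (htv : ∀ (φ : Module.Dual F V) (v : V) (h : φ v = 0) (t : V),
      P (LinS.tE φ v h) t (RingEquiv.refl F))
    (h0 : ∃ g t σ, P g t σ ∧ σ ≠ RingEquiv.refl F ∧ ∀ x, f (g x + t) = f x)
    {x y x' y' : V} (hx : f x = f x') (hy : f y = f y') (hne : f x ≠ f y) :
    ∃ g t σ, P g t σ ∧ (∀ z, f (g z + t) = f z) ∧ g x + t = x' ∧ g y + t = y' := by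
  obtain ⟨w, hw, hF⟩ := exists_w hcard
  have hVV : ∀ v : V, v + v = 0 := add_self_V (F := F)
  let φ : V → Module.Dual F V := fun z =>
    { toFun := fun x => bt w β x z
      map_add' := fun a b => bt_add_left hb a b z
      map_smul' := fun c a => bt_smul_left hb hw hF c a z }
  have hφ : ∀ z x, φ z x = bt w β x z := fun z x => rfl
  have hrad0 : ∀ b, β (0 : V) b = 0 := beta_zero_left hb
  refine s4_grp hb hcomp hw hF hR hsemi hmul (fun r _ => hone r) ?_ ?_ h0 hx hy hne
  · intro p z c _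
    have hz : φ z (c • z) = 0 := by
      rw [map_smul, hφ, bt_self hb hcomp hw hF, smul_zero]
    have e1 : ∀ x, LinS.tE (φ z) (c • z) hz x + (c * bt w β p z) • z =
        x + (c * bt w β (x + p) z) • z := by
      intro x
      rw [LinS.tE_apply, hφ, bt_add_left hb, mul_add, add_smul, smul_smul, mul_comm (bt w β x z) c,
        add_assoc]
    refine ⟨LinS.tE (φ z) (c • z) hz, (c * bt w β p z) • z, htv _ _ _ _, ?_, ?_⟩
    · rw [e1, hVV]
      have : bt w β 0 z = 0 := by
        have := bt_smul_left hb hw hF (0 : F) 0 z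
        rwa [zero_smul, zero_mul] at this
      rw [this, mul_zero, zero_smul, add_zero]
    · intro x b
      rw [e1, hVV, hrad0]
  · intro p y y' h1 h2
    obtain ⟨z, hz⟩ := exists_bt hb hcomp hw hF h1 1
    have hr : φ z (y + y') = 0 := by
      rw [hφ, bt_of_rad hcomp h2]
    have e1 : ∀ x, LinS.tE (φ z) (y + y') hr x + (bt w β p z) • (y + y') =
        x + (bt w β (x + p) z) • (y + y') := by
      intro x
      rw [LinS.tE_apply, hφ, bt_add_left hb, add_smul, add_assoc]
    refine ⟨LinS.tE (φ z) (y + y') hr, (bt w β p z) • (y + y'), htv _ _ _ _, ?_, ?_, ?_⟩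
    · intro x b
      have e2 : x + (bt w β (x + p) z) • (y + y') + x =
          (bt w β (x + p) z) • (y + y') + (x + x) := by abel
      rw [e1, e2, hVV, add_zero, hcomp, h2]
    · rw [e1, hVV]
      have : bt w β 0 z = 0 := by
        have := bt_smul_left hb hw hF (0 : F) 0 z
        rwa [zero_smul, zero_mul] at this
      rw [this, zero_smul, add_zero]
    · rw [e1]
      have e3 : bt w β (y + p) z = 1 := by
        rw [add_comm y p, bt_comm hb hcomp]
        exact hz
      rw [e3, one_smul]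
      have e2 : y + (y + y') = y' + (y + y) := by abel
      rw [e2, hVV, add_zero]

end Pool.Agent.SIT.S4
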