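import Pool.Agent.SIT.SpQNec
import Pool.Agent.SIT.LinS4G

/-!
# Period zero: the polar form vanishes where the symplectic form vanishes
-/

namespace Pool.Agent.SIT

open Finset SpQ

variable {F : Type*} [Field F] [CharP F 2] [Fintype F] {V : Type*} [AddCommGroup V] [Module F V]
  [Fintype V] [DecidableEq V]
  {f : V → ZMod 2} {P : (V ≃+ V) → V → (F ≃+* F) → Prop} {B : V →ₗ[F] V →ₗ[F] F}

/-- Four elements: the `F`-valued polar form is a multiple of `B`. -/
theorem SG.mult4 (h : SG f P) (hB : SympF B)
    (sim : ∀ g t σ, P g t σ → ∃ c : F, c ≠ 0 ∧ ∀ x y, B (g x) (g y) = c * σ (B x y))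
    {β : V → V → ZMod 2}
    (hβ : ∀ x a b, f (x + a + b) + f (x + a) + f (x + b) + f x = β a b)
    (hcomp : ∀ (c : F) a b, β (c • a) b = β a (c • b))
    (hnd : ∀ a, (∀ b, β a b = 0) → a = 0)
    (hlt : (univ.filter (fun x => f x = 1)).card < (univ.filter (fun x => f x = 0)).card)
    {p : V} (hp : f p = 1) (hcard : Fintype.card F = 4) {w : F} (hw : w ^ 2 + w + 1 = 0) :
    ∃ c : F, c ≠ 0 ∧ ∀ x y, S4.bt w β x y = c * B x y := by
  classical
  have hF : ∀ x : F, x = 0 ∨ x = 1 ∨ x = w ∨ x = w + 1 := by
    obtain ⟨w', hw', hF'⟩ := S4.exists_w (F := F) hcard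
    have h1 : (w - w') * (w - (w' + 1)) = 0 := by
      have h2 : (2 : F) = 0 := CharTwo.two_eq_zero
      linear_combination hw - hw' + (w' ^ 2 + w' - w * w' - w) * h2
    have h2 := CharTwo.add_self_eq_zero (1 : F)
    rcases mul_eq_zero.1 h1 with h3 | h3
    · have h4 : w = w' := sub_eq_zero.1 h3
      rw [h4]
      exact hF'
    · have h4 : w = w' + 1 := sub_eq_zero.1 h3
      intro x
      rcases hF' x with h5 | h5 | h5 | h5
      · exact Or.inl h5
      · exact Or.inr (Or.inl h5)
      · right
        right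
        right
        rw [h4, h5, add_assoc, h2, add_zero]
      · right
        right
        left
        rw [h4, h5]
  let b : V →ₗ[F] V →ₗ[F] F := LinearMap.mk₂ F (S4.bt w β) (S4.bt_add_left hβ)
    (fun c x y => by rw [S4.bt_smul_left hβ hw hF, smul_eq_mul]) (S4.bt_add_right hβ)
    (fun c x y => by rw [S4.bt_smul_right hβ hcomp hw hF, smul_eq_mul])
  have hbe : ∀ x y, b x y = S4.bt w β x y := fun x y => rfl
  have htr : ∀ x y, S4.bt w β x y + S4.bt w β x y ^ 2 = S4.io F (β x y) := by
    intro x y
    have e1 := S4.io_sq (F := F) (β x y)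
    have e2 := S4.io_sq (F := F) (β (w • x) y)
    have h2 : (2 : F) = 0 := CharTwo.two_eq_zero
    rw [S4.bt]
    generalize S4.io F (β x y) = i at *
    generalize S4.io F (β (w • x) y) = j at *
    linear_combination (w + 1) ^ 2 * e1 + e2 + (i * w + j + i * j + w * i * j) * h2 + i * hw
  refine h.mult hB sim hβ hnd hlt hp b (S4.bt_self hβ hcomp hw hF)
    (fun c => if c + c ^ 2 = 0 then 0 else 1) ?_ (by simp) ?_ (Or.inr hcard)
  · intro x y
    rw [hbe, htr]
    rcases zmod2_cases (β x y) with h3 | h3
    · rw [h3, map_zero, if_pos rfl]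
    · rw [h3, map_one, if_neg one_ne_zero]
  · intro g t σ hg x y
    rw [hbe, hbe]
    by_cases hσ : σ = RingEquiv.refl F
    · subst hσ
      have h3 : w • g x = g (w • x) := by rw [h.semi hg]; rfl
      rw [S4.bt, S4.bt, h3, h.polar hβ hg, h.polar hβ hg]
      rfl
    · have hsq := S4.aut_eq_sq hw hF hσ
      have h3 : w • g x = g (w • x) + g x := by
        have h4 : σ (w + 1) = w := by
          rw [hsq]
          have h2 : (2 : F) = 0 := CharTwo.two_eq_zero
          linear_combination hw + w * h2 - w * h2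
        have h5 := h.semi hg (w + 1) x
        rw [h4] at h5
        rw [← h5, add_smul, one_smul, map_add]
      rw [hsq, S4.bt, S4.bt, h3, polar_hadd' hβ, h.polar hβ hg, h.polar hβ hg, map_add]
      have e1 := S4.io_sq (F := F) (β x y)
      have e2 := S4.io_sq (F := F) (β (w • x) y)
      have h2 : (2 : F) = 0 := CharTwo.two_eq_zero
      generalize S4.io F (β x y) = i at *
      generalize S4.io F (β (w • x) y) = j at *
      linear_combination (-(w + 1) ^ 2) * e1 - e2 - (i * j * (w + 1)) * h2 - i * hw + i * h2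

/-- Two or four elements: the polar form vanishes where `B` vanishes. -/
theorem SG.polar_zero (h : SG f P) (hB : SympF B)
    (sim : ∀ g t σ, P g t σ → ∃ c : F, c ≠ 0 ∧ ∀ x y, B (g x) (g y) = c * σ (B x y))
    {β : V → V → ZMod 2}
    (hβ : ∀ x a b, f (x + a + b) + f (x + a) + f (x + b) + f x = β a b)
    (hcomp : ∀ (c : F) a b, β (c • a) b = β a (c • b))
    (hnd : ∀ a, (∀ b, β a b = 0) → a = 0)
    (hlt : (univ.filter (fun x => f x = 1)).card < (univ.filter (fun x => f x = 0)).card)
    {p : V} (hp : f p = 1) (hF : Fintype.card F = 2 ∨ Fintype.card F = 4) :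
    ∀ x y, B x y = 0 → β x y = 0 := by
  classical
  rcases hF with hF | hF
  · -- two elements
    have hc : ∀ c : F, c = 0 ∨ c = 1 := by
      intro c
      by_cases h0 : c = 0
      · exact Or.inl h0
      · right
        have := FiniteField.pow_card_sub_one_eq_one c h0
        rw [hF] at this
        simpa using this
    have h2 : ∀ x : V, x + x = 0 := add_self_of_char F V
    have h0l : ∀ y, β 0 y = 0 := by
      intro y
      have := polar_hadd' hβ 0 0 y
      rw [add_zero] at this
      exact left_eq_add.1 this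
    let b : V →ₗ[F] V →ₗ[F] F := LinearMap.mk₂ F (fun x y => S4.io F (β x y))
      (fun x x' y => by rw [polar_hadd' hβ, map_add])
      (fun c x y => by
        rcases hc c with rfl | rfl
        · rw [zero_smul, zero_smul, h0l, map_zero]
        · rw [one_smul, one_smul])
      (fun x y y' => by rw [polar_hadd hβ, map_add])
      (fun c x y => by
        rcases hc c with rfl | rfl
        · rw [zero_smul, zero_smul, polar_hsym hβ, h0l, map_zero]
        · rw [one_smul, one_smul])
    have hbe : ∀ x y, b x y = S4.io F (β x y) := fun x y => rfl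
    obtain ⟨c, -, hcB⟩ := h.mult hB sim hβ hnd hlt hp b
      (fun x => by rw [hbe, polar_halt h2 hβ, map_zero])
      (fun c => if c = 0 then 0 else 1) (by
        intro x y
        rw [hbe]
        rcases zmod2_cases (β x y) with h3 | h3
        · rw [h3, map_zero, if_pos rfl]
        · rw [h3, map_one, if_neg one_ne_zero]) (by simp) (by
        intro g t σ hg x y
        rw [hbe, hbe, h.polar hβ hg]
        rcases hc (S4.io F (β x y)) with h3 | h3
        · rw [h3, map_zero]
        · rw [h3, map_one]) (Or.inl hF)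
    intro x y hxy
    have h3 := hcB x y
    rw [hxy, mul_zero, hbe] at h3
    exact S4.io_eq_zero h3
  · obtain ⟨w, hw, -⟩ := S4.exists_w (F := F) hF
    obtain ⟨c, -, hcB⟩ := h.mult4 hB sim hβ hcomp hnd hlt hp hF hw
    intro x y hxy
    apply S4.bt_eq_zero hβ hw
    rw [hcB, hxy, mul_zero]

end Pool.Agent.SIT
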