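import Pool.Agent.SIT.GBase
import Pool.Agent.SIT.SpQNec2

/-!
# The codewords of the final classification: common predicates
-/

namespace Pool.Agent.SIT.Gen

open Finset

section

variable {V : Type*} [AddCommGroup V]

/-- `γ` is a translate of the set `W`. -/
def Translate (W : Set V) (γ : Finset V) : Prop := ∃ v, ∀ x, x ∈ γ ↔ x + v ∈ W

variable (F : Type*) [Field F] [Module F V]

/-- Some member of `G` is semilinear with a nontrivial automorphism of `F`. -/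
def NonLin (G : Subgroup (Equiv.Perm V)) : Prop :=
  ∃ (g : V ≃+ V) (t : V) (σ : F ≃+* F), PG G g t σ ∧ σ ≠ RingEquiv.refl F

/-- Every automorphism of `F` belongs to some member of `G`. -/
def OntoAut (G : Subgroup (Equiv.Perm V)) : Prop :=
  ∀ σ : F ≃+* F, ∃ (g : V ≃+ V) (t : V), PG G g t σ

/-- The hyperplanes over `F_2`, if `|F| = 4`, and over `F_4`, if `|F| = 16`. -/
def Exc [Fintype F] (G : Subgroup (Equiv.Perm V)) (γ : Finset V) : Prop :=
  (Fintype.card F = 4 ∧ NonLin F G ∧ ∃ W : AddSubgroup V, W.index = 2 ∧ Translate (W : Set V) γ) ∨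
  (Fintype.card F = 16 ∧ OntoAut F G ∧ ∃ W : AddSubgroup V, W.index = 4 ∧
    (∀ c : F, c ^ 4 = c → ∀ w ∈ W, c • w ∈ W) ∧ Translate (W : Set V) γ)

variable [DecidableEq V]

/-- `γ` is a quadric over `F_2` whose polar form `β` is compatible with `F`, `|F| ≤ 4`; if `|F| = 4`
some member of `G` that fixes `γ` is not `F`-linear. -/
structure Quad [Fintype F] (G : Subgroup (Equiv.Perm V)) (γ : Finset V) (β : V → V → ZMod 2) :
    Prop where
  polar : ∀ x a b, ind γ (x + a + b) + ind γ (x + a) + ind γ (x + b) + ind γ x = β a b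
  comp : ∀ (c : F) a b, β (c • a) b = β a (c • b)
  period : ∀ r, (∀ x, x + r ∈ γ ↔ x ∈ γ) ↔ ∀ y, β r y = 0
  ne : ∃ a b, β a b ≠ 0
  small : Fintype.card F = 2 ∨ (Fintype.card F = 4 ∧
    ∃ (g : V ≃+ V) (t : V) (σ : F ≃+* F), PGs G γ g t σ ∧ σ ≠ RingEquiv.refl F)

end

section

variable {F : Type*} [Field F] [Fintype F] [CharP F 2] {V : Type*} [AddCommGroup V] [Module F V]
  [Fintype V] [DecidableEq V] {G : Subgroup (Equiv.Perm V)} {γ : Finset V}

omit [Fintype F] [CharP F 2] [Fintype V] [DecidableEq V] in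
lemma NonLin.of_PGs {g : V ≃+ V} {t : V} {σ : F ≃+* F} (h : PGs G γ g t σ)
    (hσ : σ ≠ RingEquiv.refl F) : NonLin F G := by
  obtain ⟨h1, a, ha, h2, -⟩ := h
  exact ⟨g, t, σ, ⟨h1, a, ha, h2⟩, hσ⟩

omit [Field F] [Fintype F] [CharP F 2] [Module F V] [Fintype V] in
lemma ind_period_iff {r : V} :
    (∀ x, ind γ (x + r) = ind γ x) ↔ ∀ x, x + r ∈ γ ↔ x ∈ γ := by
  apply forall_congr'
  intro x
  rw [ind, ind]
  by_cases h1 : x + r ∈ γ <;> by_cases h2 : x ∈ γ <;> simp [h1, h2]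

/-- What is necessary for a member of a `G`-SIT code, `G` semilinear: an `F`-subspace, one of the
exceptional hyperplanes, or a compatible quadric. -/
theorem nec_gen (hG : SemiG F G) {k : ℕ} {C : Set (Finset V)} (hC : IsSITCode G k C)
    (hk : 3 ≤ k) (hk' : 2 * k ≤ Fintype.card V) (hγ : γ ∈ C) :
    (∃ W : Submodule F V, Translate (W : Set V) γ) ∨ Exc F G γ ∨
      (∃ β, Quad F G γ β) := by
  have h2 : ∀ x : V, x + x = 0 := add_self_of_char F V
  have hcard := hC.card_eq γ hγ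
  have hS := sg_of_sit h2 hG hC hγ
  rcases nec_semi hS (by omega) (by omega) with ⟨W, v, h1⟩ | ⟨h1, W, v, h3, h4, g, t, σ, h5, h6⟩ |
    ⟨h1, W, v, h3, h4, h5, h6⟩ | ⟨β, h1, h3, h4, h5, h6, h7, h8⟩
  · exact Or.inl ⟨W, v, h1⟩
  · exact Or.inr (Or.inl (Or.inl ⟨h1, NonLin.of_PGs h5 h6, W, h3, v, h4⟩))
  · refine Or.inr (Or.inl (Or.inr ⟨h1, fun σ => ?_, W, h3, h4, v, h5⟩))
    obtain ⟨g, t, h7, a, ha, h8, -⟩ := h6 σ
    exact ⟨g, t, h7, a, ha, h8⟩
  · right
    right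
    exact ⟨β, h1, h3, fun r => by rw [← ind_period_iff]; exact h5 r, h6, h8⟩

/-- The members determine the code. -/
theorem iff_of (Good : Finset V → Prop) {k : ℕ} (hk : 3 ≤ k) (hk' : 2 * k ≤ Fintype.card V)
    {C : Set (Finset V)}
    (hnec : ∀ γ, IsSITCode G k C → γ ∈ C → Good γ)
    (hsuf : ∀ γ : Finset V, γ.card = k → Good γ → ∀ u ∈ γ, ∀ u' ∉ γ, ∀ w ∈ γ, ∀ w' ∉ γ,
      ∃ g ∈ G, act g γ = γ ∧ g u = w ∧ g u' = w') :
    (IsSITCode G k C ∧ C.Nonempty) ↔ ∃ γ : Finset V, γ.card = k ∧ C = Orb G γ ∧ Good γ := by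
  constructor
  · rintro ⟨hC, γ, hγ⟩
    have hcard := hC.card_eq γ hγ
    obtain ⟨u, hu⟩ : γ.Nonempty := by rw [← Finset.card_pos]; omega
    obtain ⟨u', hu'⟩ : ∃ u', u' ∉ γ := by
      by_contra hcon
      push Not at hcon
      have h1 : γ = univ := Finset.eq_univ_of_forall hcon
      rw [h1, Finset.card_univ] at hcard
      omega
    exact ⟨γ, hcard, hC.eq_orb hγ hu hu', hnec γ hC hγ⟩
  · rintro ⟨γ, hcard, rfl, hg⟩
    refine ⟨?_, γ, 1, G.one_mem, (act_one γ).symm⟩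
    rw [← hcard]
    exact orbit_sit (hsuf γ hcard hg)

end

end Pool.Agent.SIT.Gen
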