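import Pool.Agent.SIT.Count

/-!
# Transitivity of the stabilisers of flats and quadrics
-/

namespace Pool.Agent.SIT

open Finset

section

variable {V : Type*} [AddCommGroup V] [Module (ZMod 2) V]

/-- The transvection `x ↦ x + φ x • d`, where `φ d = 0`. -/
def tvLin (φ : Module.Dual (ZMod 2) V) (d : V) (h : φ d = 0) : V ≃ₗ[ZMod 2] V :=
  LinearEquiv.ofInvolutive (LinearMap.id + φ.smulRight d) (by
    intro x
    change (x + φ x • d) + φ (x + φ x • d) • d = x
    rw [map_add, map_smul, h, smul_zero, add_zero, add_add_self])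

/-- The affine involution `x ↦ x + (φ x + c) d`, where `φ d = 0`. -/
def tv (φ : Module.Dual (ZMod 2) V) (c : ZMod 2) (d : V) (h : φ d = 0) : V ≃ᵃ[ZMod 2] V :=
  (tvLin φ d h).toAffineEquiv.trans (AffineEquiv.constVAdd (ZMod 2) V (c • d))

lemma tv_apply (φ : Module.Dual (ZMod 2) V) (c : ZMod 2) (d : V) (h : φ d = 0) (x : V) :
    tv φ c d h x = x + (φ x + c) • d := by
  change c • d + (x + φ x • d) = x + (φ x + c) • d
  rw [add_smul]
  abel

lemma tv_apply_of_zero (φ : Module.Dual (ZMod 2) V) (c : ZMod 2) (d : V) (h : φ d = 0) {x : V}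
    (hx : φ x + c = 0) : tv φ c d h x = x := by
  rw [tv_apply, hx, zero_smul, add_zero]

lemma tv_apply_of_one (φ : Module.Dual (ZMod 2) V) (c : ZMod 2) (d : V) (h : φ d = 0) {x : V}
    (hx : φ x + c = 1) : tv φ c d h x = x + d := by
  rw [tv_apply, hx, one_smul]

/-- The basic step: if `f x = f (x + a)`, an affine map preserving `f` moves `x` to `x + a`
and fixes every `u` with `f (u + a) ≠ f u`. -/
lemma basic_step {f : V → ZMod 2} (hQ : QF f) (a : V) :
    ∃ g : V ≃ᵃ[ZMod 2] V, (∀ x, f (g x) = f x) ∧ (∀ x, f (x + a) = f x → g x = x + a) ∧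
      (∀ x, f (x + a) ≠ f x → g x = x) := by
  obtain ⟨φ, c, hφ⟩ := hQ a
  have h0 : φ a = 0 := polar_self hφ
  have key1 : ∀ x, f (x + a) = f x → φ x + (c + 1) = 1 := by
    intro x hx
    have := hφ x
    rw [hx, z2_add_self] at this
    rw [← add_assoc, ← this, zero_add]
  have key2 : ∀ x, f (x + a) ≠ f x → φ x + (c + 1) = 0 := by
    intro x hx
    have := hφ x
    have h1 : f (x + a) + f x = 1 := by
      revert hx
      generalize f (x + a) = p
      generalize f x = q
      revert p q
      decide
    rw [← add_assoc, ← this, h1]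
    rfl
  refine ⟨tv φ (c + 1) a h0, ?_, ?_, ?_⟩
  · intro x
    by_cases hx : f (x + a) = f x
    · rw [tv_apply_of_one _ _ _ _ (key1 x hx), hx]
    · rw [tv_apply_of_zero _ _ _ _ (key2 x hx)]
  · intro x hx
    exact tv_apply_of_one _ _ _ _ (key1 x hx)
  · intro x hx
    exact tv_apply_of_zero _ _ _ _ (key2 x hx)

lemma exists_sep {φ ψ : Module.Dual (ZMod 2) V} (hφ : φ ≠ 0) (hψ : ψ ≠ 0) (hne : φ ≠ ψ) :
    ∃ v, φ v = 0 ∧ ψ v = 1 := by
  by_contra hcon
  push Not at hcon
  have hker : ∀ v, φ v = 0 → ψ v = 0 := by
    intro v hv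
    rcases zmod2_cases (ψ v) with h | h
    · exact h
    · exact absurd h (hcon v hv)
  obtain ⟨t, ht⟩ : ∃ t, φ t = 1 := by
    by_contra hcon2
    push Not at hcon2
    apply hφ
    ext x
    rcases zmod2_cases (φ x) with h | h
    · exact h
    · exact absurd h (hcon2 x)
  have h1 : ∀ x, ψ x = φ x * ψ t := by
    intro x
    have h2 := hker (x + φ x • t) (by
      rw [map_add, map_smul, ht, smul_eq_mul, mul_one, z2_add_self])
    rw [map_add, map_smul, smul_eq_mul, z2_eq_add_iff, zero_add] at h2
    exact h2
  rcases zmod2_cases (ψ t) with h | h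
  · apply hψ
    ext x
    rw [h1, h, mul_zero]
    rfl
  · apply hne
    ext x
    rw [h1 x, h, mul_one]

variable [Fintype V] [DecidableEq V]

/-- Transitivity of the stabiliser of `f` on `{f = 1} × {f = 0}`. -/
theorem quad_transitive {f : V → ZMod 2} (hQ : QF f) (hT : ∀ a, Rad f a → ∀ x, f (x + a) = f x)
    (hcard : (univ.filter (fun x => f x = 1)).card < (univ.filter (fun x => f x = 0)).card)
    {u w u' w' : V} (hu : f u = 1) (hw : f w = 1) (hu' : f u' = 0) (hw' : f w' = 0) :
    ∃ g : V ≃ᵃ[ZMod 2] V, (∀ x, f (g x) = f x) ∧ g u = w ∧ g u' = w' := by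
  -- fixing `w`
  have hfix : ∀ y z, f y = 0 → f z = 0 →
      ∃ g : V ≃ᵃ[ZMod 2] V, (∀ x, f (g x) = f x) ∧ g w = w ∧ g y = z := by
    -- easy case
    have heasy : ∀ y z, f y = 0 → f z = 0 → f (w + (y + z)) = 0 →
        ∃ g : V ≃ᵃ[ZMod 2] V, (∀ x, f (g x) = f x) ∧ g w = w ∧ g y = z := by
      intro y z hy hz hwyz
      obtain ⟨g, h1, h2, h3⟩ := basic_step hQ (y + z)
      refine ⟨g, h1, ?_, ?_⟩
      · apply h3
        rw [hwyz, hw]
        decide
      · rw [h2 y (by rw [self_add_add, hz, hy]), self_add_add]
    intro y z hy hz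
    by_cases hwyz : f (w + (y + z)) = 0
    · exact heasy y z hy hz hwyz
    have hwyz1 : f (w + (y + z)) = 1 := by
      rcases zmod2_cases (f (w + (y + z))) with h | h
      · exact absurd h hwyz
      · exact h
    by_cases hrad : Rad f (y + z)
    · -- `y + z` in the radical
      have hnot : w + y ∉ Submodule.span (ZMod 2) {y + z} := by
        intro h
        rw [Submodule.mem_span_singleton] at h
        obtain ⟨c, hc⟩ := h
        rcases zmod2_cases c with rfl | rfl
        · rw [zero_smul] at hc
          have h1 : w = y := by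
            have := add_add_self w y
            rw [← hc, zero_add] at this
            exact this.symm
          rw [h1, hy] at hw
          exact absurd hw (by decide)
        · rw [one_smul] at hc
          rw [hc, self_add_add, hy] at hwyz1
          exact absurd hwyz1 (by decide)
      obtain ⟨φ, h1, h2⟩ := exists_dual_of_notMem _ _ hnot
      have h3 : φ (y + z) = 0 := h2 _ (Submodule.mem_span_singleton_self _)
      refine ⟨tv φ (φ w) (y + z) h3, ?_, ?_, ?_⟩
      · intro x
        rcases zmod2_cases (φ x + φ w) with h | h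
        · rw [tv_apply_of_zero _ _ _ _ h]
        · rw [tv_apply_of_one _ _ _ _ h]
          exact hT _ hrad x
      · rw [tv_apply_of_zero _ _ _ _ (z2_add_self _)]
      · have h4 : φ y + φ w = 1 := by
          rw [map_add] at h1
          rw [add_comm]; exact h1
        rw [tv_apply_of_one _ _ _ _ h4, self_add_add]
    · -- intermediate point
      suffices hz' : ∃ t, f t = 0 ∧ f (w + (y + t)) = 0 ∧ f (w + (t + z)) = 0 by
        obtain ⟨t, ht0, ht1, ht2⟩ := hz'
        obtain ⟨g₁, h1, h2, h3⟩ := heasy y t hy ht0 ht1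
        obtain ⟨g₂, h4, h5, h6⟩ := heasy t z ht0 hz ht2
        refine ⟨g₁.trans g₂, ?_, ?_, ?_⟩
        · intro x
          rw [AffineEquiv.trans_apply, h4, h1]
        · rw [AffineEquiv.trans_apply, h2, h5]
        · rw [AffineEquiv.trans_apply, h3, h6]
      by_contra hcon
      push Not at hcon
      obtain ⟨φ₁, k₁, hφ₁⟩ := hQ (w + y)
      obtain ⟨φ₂, k₂, hφ₂⟩ := hQ (w + z)
      have hφ₁0 : φ₁ ≠ 0 := by
        rintro rfl
        have h1 : Rad f (w + y) := ⟨k₁, fun x => by rw [hφ₁ x, LinearMap.zero_apply, zero_add]⟩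
        have h2 := hT _ h1 w
        rw [self_add_add, hy, hw] at h2
        exact absurd h2 (by decide)
      have hφ₂0 : φ₂ ≠ 0 := by
        rintro rfl
        have h1 : Rad f (w + z) := ⟨k₂, fun x => by rw [hφ₂ x, LinearMap.zero_apply, zero_add]⟩
        have h2 := hT _ h1 w
        rw [self_add_add, hz, hw] at h2
        exact absurd h2 (by decide)
      have hne : φ₁ ≠ φ₂ := by
        rintro rfl
        apply hrad
        refine ⟨φ₁ (w + z) + k₁ + k₂, ?_⟩
        intro x
        have h1 := hφ₁ (x + (w + z))
        have h2 := hφ₂ x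
        have h3 : x + (w + z) + (w + y) = x + (y + z) := by
          have := add_self' w
          calc x + (w + z) + (w + y) = x + (y + z) + (w + w) := by abel
            _ = _ := by rw [this, add_zero]
        rw [h3, map_add] at h1
        generalize f (x + (y + z)) = p at *
        generalize f (x + (w + z)) = q at *
        generalize f x = r at *
        generalize φ₁ x = s at *
        generalize φ₁ (w + z) = t at *
        clear hφ₁ hφ₂ hcon hrad hφ₁0 hφ₂0
        revert p q r s t k₁ k₂
        decide
      obtain ⟨v, hv1, hv2⟩ := exists_sep hφ₁0 hφ₂0 hne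
      have hself : φ₁ (w + y) = 0 := polar_self hφ₁
      -- all points with both derivatives zero have `f = 1`
      have hF : ∀ x, φ₁ x + k₁ = 0 → φ₂ x + k₂ = 0 → f x = 1 := by
        intro x h1 h2
        rcases zmod2_cases (f x) with h | h
        · exfalso
          have h3 := hφ₁ x
          have h4 := hφ₂ x
          rw [h1, h, add_zero] at h3
          rw [h2, h, add_zero] at h4
          apply hcon x h
          · rw [← h3]
            congr 1
            abel
          · rw [← h4]
            congr 1
            abel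
        · exact h
      -- an injection from `{f = 0}` to `{f = 1}`
      have hle : (univ.filter (fun x => f x = 0)).card ≤ (univ.filter (fun x => f x = 1)).card := by
        apply Finset.card_le_card_of_injOn
          (fun x => if φ₁ x + k₁ = 1 then x + (w + y) else x + v)
        · intro x hx
          rw [Finset.mem_coe, Finset.mem_filter] at hx ⊢
          refine ⟨mem_univ _, ?_⟩
          simp only
          split_ifs with h
          · have h1 := hφ₁ x
            rw [h, hx.2, add_zero] at h1
            exact h1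
          · have h1 : φ₁ x + k₁ = 0 := by
              rcases zmod2_cases (φ₁ x + k₁) with h' | h'
              · exact h'
              · exact absurd h' h
            have h2 : φ₂ x + k₂ = 1 := by
              rcases zmod2_cases (φ₂ x + k₂) with h' | h'
              · have := hF x h1 h'
                rw [hx.2] at this
                exact absurd this (by decide)
              · exact h'
            apply hF
            · rw [map_add, hv1, add_zero, h1]
            · rw [map_add, hv2, add_right_comm, h2]
              rfl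
        · intro x hx x' hx' h
          simp only at h
          split_ifs at h with h1 h2 h2
          · exact add_right_cancel h
          · exfalso
            have h3 : φ₁ (x + (w + y)) = φ₁ (x' + v) := by rw [h]
            rw [map_add φ₁ x, map_add φ₁ x', hself, hv1, add_zero, add_zero] at h3
            rw [h3] at h1
            exact h2 h1
          · exfalso
            have h3 : φ₁ (x + v) = φ₁ (x' + (w + y)) := by rw [h]
            rw [map_add φ₁ x, map_add φ₁ x', hself, hv1, add_zero, add_zero] at h3
            rw [← h3] at h2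
            exact h1 h2
          · exact add_right_cancel h
      omega
  obtain ⟨g₁, h1, h2, -⟩ := basic_step hQ (u + w)
  have h3 : g₁ u = w := by
    rw [h2 u (by rw [self_add_add, hu, hw]), self_add_add]
  obtain ⟨g₂, h4, h5, h6⟩ := hfix (g₁ u') w' (by rw [h1, hu']) hw'
  refine ⟨g₁.trans g₂, ?_, ?_, ?_⟩
  · intro x
    rw [AffineEquiv.trans_apply, h4, h1]
  · rw [AffineEquiv.trans_apply, h3, h5]
  · rw [AffineEquiv.trans_apply, h6]

omit [Fintype V] [DecidableEq V] in
/-- Transitivity of the stabiliser of a flat `v₀ + U`. -/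
theorem flat_transitive (U : Submodule (ZMod 2) V) (v₀ : V) {u w u' w' : V}
    (hu : u + v₀ ∈ U) (hw : w + v₀ ∈ U) (hu' : u' + v₀ ∉ U) (hw' : w' + v₀ ∉ U) :
    ∃ g : V ≃ᵃ[ZMod 2] V, (∀ x, g x + v₀ ∈ U ↔ x + v₀ ∈ U) ∧ g u = w ∧ g u' = w' := by
  -- translate `u` to `w`
  let g₁ : V ≃ᵃ[ZMod 2] V := AffineEquiv.constVAdd (ZMod 2) V (u + w)
  have huw : u + w ∈ U := by
    have h := U.add_mem hu hw
    have h2 : u + v₀ + (w + v₀) = u + w := by
      calc u + v₀ + (w + v₀) = u + w + (v₀ + v₀) := by abel
        _ = _ := by rw [add_self', add_zero]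
    rwa [h2] at h
  have hg₁ : ∀ x, g₁ x = (u + w) + x := fun x => rfl
  have hg₁U : ∀ x, g₁ x + v₀ ∈ U ↔ x + v₀ ∈ U := by
    intro x
    rw [hg₁, add_assoc]
    exact U.add_mem_iff_right huw
  have hg₁u : g₁ u = w := by
    rw [hg₁]
    calc u + w + u = w + (u + u) := by abel
      _ = w := by rw [add_self', add_zero]
  set y := g₁ u' with hy
  have hyU : y + v₀ ∉ U := by
    rw [hy, hg₁U]
    exact hu'
  -- `w + y ∉ U + ⟨y + w'⟩`
  have hwy : w + y ∉ U := by
    intro h
    apply hyU
    have h2 := U.add_mem hw h
    have h3 : w + v₀ + (w + y) = y + v₀ := by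
      calc w + v₀ + (w + y) = y + v₀ + (w + w) := by abel
        _ = _ := by rw [add_self', add_zero]
    rwa [h3] at h2
  have hww' : w + w' ∉ U := by
    intro h
    apply hw'
    have h2 := U.add_mem hw h
    have h3 : w + v₀ + (w + w') = w' + v₀ := by
      calc w + v₀ + (w + w') = w' + v₀ + (w + w) := by abel
        _ = _ := by rw [add_self', add_zero]
    rwa [h3] at h2
  have hnot : w + y ∉ U ⊔ Submodule.span (ZMod 2) {y + w'} := by
    intro h
    rw [Submodule.mem_sup] at h
    obtain ⟨t, ht, s, hs, hts⟩ := h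
    rw [Submodule.mem_span_singleton] at hs
    obtain ⟨c, rfl⟩ := hs
    rcases zmod2_cases c with rfl | rfl
    · rw [zero_smul, add_zero] at hts
      rw [← hts] at hwy
      exact hwy ht
    · rw [one_smul] at hts
      apply hww'
      have h3 : w + w' = t := by
        have h4 : w + y + (y + w') = t := by
          rw [← hts]
          exact add_add_self _ _
        rw [← h4]
        calc w + w' = w + w' + (y + y) := by rw [add_self', add_zero]
          _ = _ := by abel
      rw [h3]
      exact ht
  obtain ⟨φ, h1, h2⟩ := exists_dual_of_notMem _ _ hnot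
  have h3 : φ (y + w') = 0 :=
    h2 _ (Submodule.mem_sup_right (Submodule.mem_span_singleton_self _))
  have hφU : ∀ t ∈ U, φ t = 0 := fun t ht => h2 t (Submodule.mem_sup_left ht)
  let g₂ := tv φ (φ w) (y + w') h3
  have hg₂w : g₂ w = w := tv_apply_of_zero _ _ _ _ (z2_add_self _)
  have hg₂y : g₂ y = w' := by
    have h4 : φ y + φ w = 1 := by
      rw [map_add] at h1
      rw [add_comm]; exact h1
    change tv _ _ _ _ _ = _
    rw [tv_apply_of_one _ _ _ _ h4, self_add_add]
  have hfixU : ∀ x, x + v₀ ∈ U → g₂ x = x := by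
    intro x hx
    apply tv_apply_of_zero
    have h4 : x + w ∈ U := by
      have h5 := U.add_mem hx hw
      have h6 : x + v₀ + (w + v₀) = x + w := by
        calc x + v₀ + (w + v₀) = x + w + (v₀ + v₀) := by abel
          _ = _ := by rw [add_self', add_zero]
      rwa [h6] at h5
    rw [← map_add]
    exact hφU _ h4
  have hinvol : ∀ x, g₂ (g₂ x) = x := by
    intro x
    change tv _ _ _ _ (tv _ _ _ _ x) = x
    rcases zmod2_cases (φ x + φ w) with h | h
    · rw [tv_apply_of_zero _ _ _ _ h, tv_apply_of_zero _ _ _ _ h]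
    · rw [tv_apply_of_one _ _ _ _ h, tv_apply_of_one, add_add_self]
      rw [map_add, h3, add_zero, h]
  refine ⟨g₁.trans g₂, ?_, ?_, ?_⟩
  · intro x
    rw [AffineEquiv.trans_apply, ← hg₁U x]
    constructor
    · intro h
      have h4 := hfixU _ h
      rw [hinvol] at h4
      rw [h4]
      exact h
    · intro h
      rw [hfixU _ h]
      exact h
  · rw [AffineEquiv.trans_apply, hg₁u, hg₂w]
  · rw [AffineEquiv.trans_apply, ← hy, hg₂y]

end

end Pool.Agent.SIT
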