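import Pool.Agent.SIT.LinMain
import Pool.Agent.SIT.AllDefs
import Pool.Agent.SIT.Converse

/-!
# `|F| = 2`: transvections generate the affine group; quadrics
-/

namespace Pool.Agent.SIT.Gen

open Finset

section

variable {V : Type*} [AddCommGroup V]

/-- The Gauss sum of a quadratic function that is constant modulo the radical of its polar form is
not zero. -/
lemma gauss_ne [Fintype V] (h2 : ∀ x : V, x + x = 0) {f : V → ZMod 2} {β : V → V → ZMod 2}
    (hb : ∀ x a b, f (x + a + b) + f (x + a) + f (x + b) + f x = β a b)
    (hR : ∀ r, (∀ y, β r y = 0) → ∀ x, f (x + r) = f x) : ∑ x : V, sgn (f x) ≠ 0 := by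
  intro h0
  have h1 : (∑ x : V, sgn (f x)) * (∑ x : V, sgn (f x)) =
      ∑ a : V, ∑ x : V, sgn (f x + f (x + a)) := by
    rw [Finset.sum_mul_sum, Finset.sum_comm]
    have : ∀ x : V, ∑ y : V, sgn (f y) * sgn (f x) = ∑ a : V, sgn (f (x + a) + f x) := by
      intro x
      rw [← Equiv.sum_comp (Equiv.addLeft x) (fun y => sgn (f y) * sgn (f x))]
      apply Finset.sum_congr rfl
      intro a _
      rw [sgn_add]
      rfl
    rw [Finset.sum_congr rfl (fun x _ => this x), Finset.sum_comm]
    apply Finset.sum_congr rfl
    intro a _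
    apply Finset.sum_congr rfl
    intro x _
    rw [add_comm]
  have h3 : ∀ a : V, 0 ≤ ∑ x : V, sgn (f x + f (x + a)) := by
    intro a
    by_cases ha : ∀ y, β a y = 0
    · have : ∀ x : V, sgn (f x + f (x + a)) = 1 := by
        intro x
        rw [hR a ha x, CharTwo.add_self_eq_zero, sgn_zero]
      rw [Finset.sum_congr rfl (fun x _ => this x)]
      simp
    · have h4 : ∀ x : V, f x + f (x + a) = β x a + (f a + f 0) := by
        intro x
        have h5 := hb 0 x a
        rw [zero_add, zero_add] at h5
        rw [← h5]
        linear_combination (-(f a) - f 0) * (by rfl : (2 : ZMod 2) = 0)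
      have h6 : ∑ x : V, sgn (f x + f (x + a)) = (∑ x : V, sgn (β x a)) * sgn (f a + f 0) := by
        rw [Finset.sum_mul]
        apply Finset.sum_congr rfl
        intro x _
        rw [h4, sgn_add]
      rcases LinD.sum_sgn_add (fun x => β x a) (fun x y => polar_hadd' hb x y a) with h7 | h7
      · exfalso
        apply ha
        intro y
        rw [polar_hsym hb]
        exact h7 y
      · rw [h6, h7, zero_mul]
  have h4 : 0 < ∑ x : V, sgn (f x + f (x + 0)) := by
    have : ∀ x : V, sgn (f x + f (x + 0)) = 1 := by
      intro x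
      rw [add_zero, CharTwo.add_self_eq_zero, sgn_zero]
    rw [Finset.sum_congr rfl (fun x _ => this x), Finset.sum_const, Finset.card_univ]
    simp only [nsmul_eq_mul, mul_one]
    exact_mod_cast Fintype.card_pos_iff.2 ⟨0⟩
  have h5 : 0 < ∑ a : V, ∑ x : V, sgn (f x + f (x + a)) :=
    Finset.sum_pos' (fun a _ => h3 a) ⟨0, Finset.mem_univ _, h4⟩
  rw [← h1, h0] at h5
  simp at h5

omit [AddCommGroup V] in
/-- the sum of signs -/
lemma sum_sgn_eq [Fintype V] (f : V → ZMod 2) : ∑ x : V, sgn (f x) =
    ((univ.filter (fun x => f x = 0)).card : ℤ) - (univ.filter (fun x => f x = 1)).card := by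
  rw [← Finset.sum_filter_add_sum_filter_not univ (fun x => f x = 0)]
  have h1 : ∑ x ∈ univ.filter (fun x => f x = 0), sgn (f x) =
      ((univ.filter (fun x => f x = 0)).card : ℤ) := by
    rw [Finset.sum_congr rfl (g := fun _ => (1 : ℤ)), Finset.sum_const]
    · simp
    · intro x hx
      rw [(Finset.mem_filter.1 hx).2, sgn_zero]
  have e : univ.filter (fun x => ¬ f x = 0) = univ.filter (fun x => f x = 1) := by
    ext x
    simp only [Finset.mem_filter, Finset.mem_univ, true_and]
    constructor
    · intro h
      exact (zmod2_cases _).resolve_left h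
    · intro h h'
      rw [h'] at h
      exact absurd h (by decide)
  have h3 : ∑ x ∈ univ.filter (fun x => ¬ f x = 0), sgn (f x) =
      -((univ.filter (fun x => f x = 1)).card : ℤ) := by
    rw [e, Finset.sum_congr rfl (g := fun _ => (-1 : ℤ)), Finset.sum_const]
    · simp
    · intro x hx
      rw [(Finset.mem_filter.1 hx).2, sgn_one]
  rw [h1, h3]
  ring

/-- a quadric of at most half the size of `V` is smaller than its complement -/
lemma quad_lt [Fintype V] [DecidableEq V] (h2 : ∀ x : V, x + x = 0) {γ : Finset V}
    {β : V → V → ZMod 2}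
    (hb : ∀ x a b, ind γ (x + a + b) + ind γ (x + a) + ind γ (x + b) + ind γ x = β a b)
    (hR : ∀ r, (∀ y, β r y = 0) → ∀ x, ind γ (x + r) = ind γ x)
    (hcard : 2 * γ.card ≤ Fintype.card V) :
    (univ.filter (fun x => ind γ x = 1)).card < (univ.filter (fun x => ind γ x = 0)).card := by
  have h1 := gauss_ne h2 hb hR
  rw [sum_sgn_eq] at h1
  have e1 : univ.filter (fun x => ind γ x = 1) = γ := by
    ext x
    simp [ind_eq_one]
  have e2 : univ.filter (fun x => ind γ x = 0) = γᶜ := by
    ext x
    simp [ind_eq_zero_iff]
  rw [e1, e2, Finset.card_compl] at h1 ⊢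
  have h3 := Finset.card_le_univ γ
  omega

end

section

variable {F : Type*} [Field F] [Fintype F] {V : Type*} [AddCommGroup V] [Module F V]
  {G : Subgroup (Equiv.Perm V)}

lemma zero_or_one (hF : Fintype.card F = 2) (c : F) : c = 0 ∨ c = 1 := by
  classical
  by_contra hcon
  push Not at hcon
  have h1 : ({0, 1, c} : Finset F).card ≤ Fintype.card F := Finset.card_le_univ _
  have h3 : ({0, 1, c} : Finset F).card = 3 := by
    rw [Finset.card_insert_of_notMem, Finset.card_insert_of_notMem, Finset.card_singleton]
    · simp only [Finset.mem_singleton]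
      exact fun h => hcon.2 h.symm
    · simp only [Finset.mem_insert, Finset.mem_singleton, not_or]
      exact ⟨zero_ne_one, fun h => hcon.1 h.symm⟩
  omega

/-- every additive map is linear if `|F| = 2` -/
lemma map_smul_two (hF : Fintype.card F = 2) (g : V ≃+ V) (c : F) (x : V) :
    g (c • x) = c • g x := by
  rcases zero_or_one hF c with rfl | rfl
  · rw [zero_smul, zero_smul, map_zero]
  · rw [one_smul, one_smul]

variable [Fintype V] [DecidableEq V]

/-- `|F| = 2`: transvections generate. -/
lemma LinG.all_lin (h2 : ∀ x : V, x + x = 0) (hG : LinG F G) (hF : Fintype.card F = 2) :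
    ∀ (n : ℕ) (g : V ≃+ V), (univ.filter (fun z => g z ≠ z)).card = n → g.toEquiv ∈ G := by
  intro n
  induction n using Nat.strong_induction_on with
  | _ n ih =>
    intro g hg
    by_cases hfix : ∀ x, g x = x
    · have : g.toEquiv = 1 := by
        ext x
        exact hfix x
      rw [this]
      exact G.one_mem
    · push Not at hfix
      obtain ⟨x, hx⟩ := hfix
      let U : Submodule F V :=
        { carrier := {z | g z = z}
          add_mem' := by
            intro a b ha hb
            change g (a + b) = a + b
            rw [map_add, show g a = a from ha, show g b = b from hb]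
          zero_mem' := map_zero g
          smul_mem' := by
            intro c a ha
            change g (c • a) = c • a
            rw [map_smul_two hF, show g a = a from ha] }
      have hy : g x ∉ U ⊔ Submodule.span F {x + g x} := by
        intro h
        rw [Submodule.mem_sup] at h
        obtain ⟨u, hu, v, hv, huv⟩ := h
        rw [Submodule.mem_span_singleton] at hv
        obtain ⟨c, rfl⟩ := hv
        have hu' : g u = u := hu
        rcases zero_or_one hF c with rfl | rfl
        · rw [zero_smul, add_zero] at huv
          rw [huv] at hu'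
          exact hx (g.injective hu')
        · rw [one_smul] at huv
          have h3 : u = x := by
            have h4 : u + (x + g x) + (x + g x) = g x + (x + g x) := by rw [huv]
            rw [add_assoc, h2, add_zero] at h4
            rw [h4]
            calc g x + (x + g x) = x + (g x + g x) := by abel
              _ = x := by rw [h2, add_zero]
          rw [h3] at hu'
          exact hx hu'
      obtain ⟨φ, h3, h4⟩ := LinS.exists_fun hy
      have h5 : φ (x + g x) = 0 := h4 _ (Submodule.mem_sup_right (Submodule.mem_span_singleton_self _))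
      have h6 : ∀ u, g u = u → φ u = 0 := fun u hu => h4 u (Submodule.mem_sup_left hu)
      let t := LinS.tE φ (x + g x) h5
      have ht : ∀ z, t z = z + φ z • (x + g x) := fun z => LinS.tE_apply φ _ h5 z
      have h7 : t (g x) = x := by
        rw [ht, h3, one_smul]
        calc g x + (x + g x) = x + (g x + g x) := by abel
          _ = x := by rw [h2, add_zero]
      have h8 : ∀ z, g z = z → t (g z) = z := by
        intro z hz
        rw [hz, ht, h6 z hz, zero_smul, add_zero]
      have h9 : (univ.filter (fun z => (g.trans t) z ≠ z)).card < n := by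
        rw [← hg]
        apply Finset.card_lt_card
        rw [Finset.ssubset_iff_of_subset]
        · refine ⟨x, by simp [hx], ?_⟩
          simp only [Finset.mem_filter, Finset.mem_univ, true_and, not_not]
          exact h7
        · intro z hz
          simp only [Finset.mem_filter, Finset.mem_univ, true_and] at hz ⊢
          intro h10
          exact hz (h8 z h10)
      have h10 := ih _ h9 (g.trans t) rfl
      have h11 : t.toEquiv ∈ G := hG.tv φ _ h5 _ ht
      have h12 : g.toEquiv = t.toEquiv⁻¹ * (g.trans t).toEquiv := by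
        rw [eq_inv_mul_iff_mul_eq]
        rfl
      rw [h12]
      exact G.mul_mem (G.inv_mem h11) h10

/-- `|F| = 2`: `G` contains all affine maps. -/
lemma LinG.all_aff (h2 : ∀ x : V, x + x = 0) (hG : LinG F G) (hF : Fintype.card F = 2)
    (g : V ≃+ V) (t : V) : toP g t ∈ G := by
  have h1 := hG.all_lin h2 hF _ g rfl
  have h3 : toP g t = Equiv.addRight t * g.toEquiv := rfl
  rw [h3]
  exact G.mul_mem (hG.trans t) h1

/-- `|F| = 2`: the quadrics. -/
theorem LinG.quad_two [CharP F 2] (hG : LinG F G) (hF : Fintype.card F = 2) {γ : Finset V}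
    (hcard : 2 * γ.card ≤ Fintype.card V) {β : V → V → ZMod 2}
    (hb : ∀ x a b, ind γ (x + a + b) + ind γ (x + a) + ind γ (x + b) + ind γ x = β a b)
    (hR : ∀ r, (∀ y, β r y = 0) → ∀ x, ind γ (x + r) = ind γ x) :
    ∀ u ∈ γ, ∀ u' ∉ γ, ∀ w ∈ γ, ∀ w' ∉ γ, ∃ g ∈ G, act g γ = γ ∧ g u = w ∧ g u' = w' := by
  have h2 : ∀ x : V, x + x = 0 := add_self_of_char F V
  let _ : Module (ZMod 2) V := AddCommGroup.zmodModule (n := 2) (fun x => by
    rw [two_nsmul]
    exact h2 x)
  have hQ : QF (ind γ) := by
    intro a
    let φ : V →+ ZMod 2 :=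
      { toFun := fun x => β x a
        map_zero' := by
          have := polar_hadd' hb 0 0 a
          rw [add_zero] at this
          simpa using this
        map_add' := fun x y => polar_hadd' hb x y a }
    refine ⟨φ.toZModLinearMap 2, ind γ a + ind γ 0, fun x => ?_⟩
    change _ = β x a + _
    have h5 := hb 0 x a
    rw [zero_add, zero_add] at h5
    rw [← h5]
    linear_combination (-(ind γ a) - ind γ 0) * (by rfl : (2 : ZMod 2) = 0)
  have hT : ∀ a, Rad (ind γ) a → ∀ x, ind γ (x + a) = ind γ x := by
    rintro a ⟨c, hc⟩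
    apply hR
    intro y
    rw [← hb 0 a y]
    have h3 := hc y
    have h4 := hc 0
    have e : (0 : V) + a + y = y + a := by abel
    rw [e, zero_add y]
    linear_combination h3 - h4 + (ind γ (0 + a)) * (by rfl : (2 : ZMod 2) = 0) +
      (ind γ 0) * (by rfl : (2 : ZMod 2) = 0)
  intro u hu u' hu' w hw w' hw'
  obtain ⟨g, h3, h4, h5⟩ := quad_transitive hQ hT (quad_lt h2 hb hR hcard) (ind_eq_one.2 hu)
    (ind_eq_one.2 hw) (ind_eq_zero_iff.2 hu') (ind_eq_zero_iff.2 hw')
  have h6 : toP g.linear.toAddEquiv (g 0) ∈ G := hG.all_aff h2 hF _ _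
  have h7 : ∀ x, toP g.linear.toAddEquiv (g 0) x = g x := by
    intro x
    have := g.toAffineMap.map_vadd (0 : V) x
    change g.linear x + g 0 = g x
    have h8 : g (x +ᵥ (0 : V)) = g.linear x +ᵥ g 0 := g.map_vadd 0 x
    rw [vadd_eq_add, vadd_eq_add, add_zero] at h8
    exact h8.symm
  refine ⟨_, h6, ?_, ?_, ?_⟩
  · rw [← ind_act_iff]
    intro x
    rw [h7, h3]
  · rw [h7, h4]
  · rw [h7, h5]

end

end Pool.Agent.SIT.Gen
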