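import Pool.Agent.SIT.SpQ2

/-!
# Symplectic groups over fields of order `2^a`: pairs of points in and outside a codeword

`P g t σ`: the map `x ↦ g x + t` belongs to the group, `g` is `σ`-semilinear.
-/

namespace Pool.Agent.SIT.SpQ

section

variable {F : Type*} [Field F] [CharP F 2] {V : Type*} [AddCommGroup V] [Module F V]
  {B : V →ₗ[F] V →ₗ[F] F}

/-- A group of semilinear affine maps whose linear parts are similitudes, containing the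
translations and the symplectic transvections. -/
structure SpAff (hB : SympF B) (P : (V ≃+ V) → V → (F ≃+* F) → Prop) : Prop where
  semi : ∀ {g t σ}, P g t σ → ∀ (c : F) x, g (c • x) = σ c • g x
  mul : ∀ {g t σ g' t' σ'}, P g t σ → P g' t' σ' → P (g'.trans g) (g t' + t) (σ'.trans σ)
  sim : ∀ {g t σ}, P g t σ → ∃ c : F, c ≠ 0 ∧ ∀ x y, B (g x) (g y) = c * σ (B x y)
  trans : ∀ t, P (AddEquiv.refl V) t (RingEquiv.refl F)
  tv : ∀ (c : F) (z : V), P (tq hB c z).toAddEquiv 0 (RingEquiv.refl F)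

variable {hB : SympF B} {P : (V ≃+ V) → V → (F ≃+* F) → Prop}

lemma SpAff.tr (h : SpAff hB P) {g : V ≃+ V} {t : V} {σ : F ≃+* F} (hg : P g t σ) (t' : V) :
    P g t' σ := by
  have h1 := h.mul (h.trans (t + t')) hg
  have e1 : g.trans (AddEquiv.refl V) = g := by ext x; rfl
  have e2 : σ.trans (RingEquiv.refl F) = σ := by ext x; rfl
  have e3 : (AddEquiv.refl V) t + (t + t') = t' := vaab F t t'
  rwa [e1, e2, e3] at h1

lemma SpAff.grpS (h : SpAff hB P) : GrpS hB (fun g σ => ∃ t, P g t σ) where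
  semi := fun g σ ⟨_, ht⟩ => h.semi ht
  mul := fun g σ k τ ⟨_, ht⟩ ⟨_, ht'⟩ => ⟨_, h.mul ht' ht⟩
  sim := fun g σ ⟨_, ht⟩ => h.sim ht
  one := ⟨0, h.trans 0⟩
  tv := fun c z => ⟨0, h.tv c z⟩

lemma SpAff.sp (h : SpAff hB P) {g : V ≃ₗ[F] V} (hg : g ∈ SpT hB) (t : V) :
    P g.toAddEquiv t (RingEquiv.refl F) := by
  obtain ⟨t', ht'⟩ := h.grpS.mem hg
  exact h.tr ht' t

/-- Cosets of subgroups: transitivity outside the subgroup gives transitivity on the pairs. -/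
theorem SpAff.coset (h : SpAff hB P) (W : AddSubgroup V) {γ : Set V} {v₀ : V}
    (hγ : ∀ x, x ∈ γ ↔ x + v₀ ∈ W)
    (hW : ∀ x, x ∉ W → ∀ y, y ∉ W → ∃ g, ∃ σ : F ≃+* F, (∃ t, P g t σ) ∧
      (∀ z, g z ∈ W ↔ z ∈ W) ∧ g x = y)
    {u u' w w' : V} (hu : u ∈ γ) (hu' : u' ∉ γ) (hw : w ∈ γ) (hw' : w' ∉ γ) :
    ∃ g t σ, P g t σ ∧ (∀ x, g x + t ∈ γ ↔ x ∈ γ) ∧ g u + t = w ∧ g u' + t = w' := by
  have hmem : ∀ {u : V}, u ∈ γ → ∀ x, x ∈ γ ↔ x + u ∈ W := by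
    intro u hu x
    rw [hγ] at hu ⊢
    have e : x + u = (x + v₀) + (u + v₀) := by
      calc x + u = x + u + (v₀ + v₀) := by rw [vaa F v₀, add_zero]
        _ = _ := by abel
    rw [e]
    exact (AddSubgroup.add_mem_cancel_right W hu).symm
  obtain ⟨g, σ, ⟨t, hg⟩, h1, h2⟩ := hW (u' + u) (fun h0 => hu' ((hmem hu u').2 h0)) (w' + w)
    (fun h0 => hw' ((hmem hw w').2 h0))
  have ha : ∀ x, g x + (g u + w) = g (x + u) + w := by
    intro x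
    rw [map_add, add_assoc]
  refine ⟨g, g u + w, σ, h.tr hg _, fun x => ?_, ?_, ?_⟩
  · rw [hmem hw, hmem hu x, ha, vabb F]
    exact h1 _
  · rw [ha, vaa F, map_zero, zero_add]
  · rw [ha, h2, vabb F]

/-- affine `F`-subspaces with coisotropic direction -/
theorem SpAff.flat [FiniteDimensional F V] (h : SpAff hB P) {W : Submodule F V}
    (hW : CoisoF B W) {γ : Set V} {v₀ : V} (hγ : ∀ x, x ∈ γ ↔ x + v₀ ∈ W)
    {u u' w w' : V} (hu : u ∈ γ) (hu' : u' ∉ γ) (hw : w ∈ γ) (hw' : w' ∉ γ) :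
    ∃ g t σ, P g t σ ∧ (∀ x, g x + t ∈ γ ↔ x ∈ γ) ∧ g u + t = w ∧ g u' + t = w' := by
  refine h.coset W.toAddSubgroup hγ (fun x hx y hy => ?_) hu hu' hw hw'
  obtain ⟨g, hg, h1, h2⟩ := sp_S1 h.grpS hW hx hy
  exact ⟨g, _, hg, h1, h2⟩

variable [Fintype F] [Finite V]

/-- `|F| = 4`: affine hyperplanes over `F_2` -/
theorem SpAff.hyp4 (h : SpAff hB P) (hF : Fintype.card F = 4)
    (hnl : ∃ g t σ, P g t σ ∧ σ ≠ RingEquiv.refl F) (W : AddSubgroup V) (hidx : W.index = 2)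
    {γ : Set V} {v₀ : V} (hγ : ∀ x, x ∈ γ ↔ x + v₀ ∈ W)
    {u u' w w' : V} (hu : u ∈ γ) (hu' : u' ∉ γ) (hw : w ∈ γ) (hw' : w' ∉ γ) :
    ∃ g t σ, P g t σ ∧ (∀ x, g x + t ∈ γ ↔ x ∈ γ) ∧ g u + t = w ∧ g u' + t = w' := by
  refine h.coset W hγ (fun x hx y hy => ?_) hu hu' hw hw'
  obtain ⟨g, t, σ, hg, hσ⟩ := hnl
  exact sp_S2 h.grpS hF W hidx ⟨g, σ, ⟨t, hg⟩, hσ⟩ hx hy

/-- `|F| = 16`: affine hyperplanes over `F_4` -/
theorem SpAff.hyp16 (h : SpAff hB P) (hF : Fintype.card F = 16)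
    (hall : ∀ σ : F ≃+* F, ∃ g t, P g t σ) (W : AddSubgroup V) (hidx : W.index = 4)
    (hW : ∀ c : F, c ^ 4 = c → ∀ w ∈ W, c • w ∈ W)
    {γ : Set V} {v₀ : V} (hγ : ∀ x, x ∈ γ ↔ x + v₀ ∈ W)
    {u u' w w' : V} (hu : u ∈ γ) (hu' : u' ∉ γ) (hw : w ∈ γ) (hw' : w' ∉ γ) :
    ∃ g t σ, P g t σ ∧ (∀ x, g x + t ∈ γ ↔ x ∈ γ) ∧ g u + t = w ∧ g u' + t = w' := by
  refine h.coset W hγ (fun x hx y hy => ?_) hu hu' hw hw'
  exact sp_S3 h.grpS hF W hidx hW hall hx hy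

variable {f : V → ZMod 2} {β : V → V → ZMod 2}

/-- `|F| = 4`: quadrics with coisotropic period -/
theorem SpAff.quad4a (h : SpAff hB P) (hF : Fintype.card F = 4)
    (hb : ∀ x a b, f (x + a + b) + f (x + a) + f (x + b) + f x = β a b)
    (hcomp : ∀ (c : F) a b, β (c • a) b = β a (c • b))
    (hR : ∀ a, (∀ b, β a b = 0) → ∀ x, f (x + a) = f x)
    (hco : ∀ a, (∀ r, (∀ b, β r b = 0) → B a r = 0) → ∀ b, β a b = 0)
    (h0 : ∃ g t σ, P g t σ ∧ σ ≠ RingEquiv.refl F ∧ ∀ x, f (g x + t) = f x)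
    {x y x' y' : V} (hx : f x = f x') (hy : f y = f y') (hne : f x ≠ f y) :
    ∃ g t σ, P g t σ ∧ (∀ z, f (g z + t) = f z) ∧ g x + t = x' ∧ g y + t = y' :=
  sp_S4a hB hF hb hcomp hR hco h.semi h.mul (fun _ hg t => h.sp hg t) h0 hx hy hne

/-- `|F| = 4`: quadrics whose polar form is the trace of a multiple of `B` -/
theorem SpAff.quad4b (h : SpAff hB P) (hF : Fintype.card F = 4)
    (hb : ∀ x a b, f (x + a + b) + f (x + a) + f (x + b) + f x = β a b)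
    (hcomp : ∀ (c : F) a b, β (c • a) b = β a (c • b))
    (hnd : ∀ a, (∀ b, β a b = 0) → a = 0)
    (hBβ : ∀ a b, B a b = 0 → β a b = 0)
    (h0 : ∃ g t σ, P g t σ ∧ σ ≠ RingEquiv.refl F ∧ ∀ x, f (g x + t) = f x)
    {x y x' y' : V} (hx : f x = f x') (hy : f y = f y') (hne : f x ≠ f y) :
    ∃ g t σ, P g t σ ∧ (∀ z, f (g z + t) = f z) ∧ g x + t = x' ∧ g y + t = y' :=
  sp_S4b hB hF hb hcomp hnd hBβ h.semi h.mul (fun _ hg t => h.sp hg t) h0 hx hy hne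

end

end Pool.Agent.SIT.SpQ
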