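import Pool.Agent.SIT.SpDefs

/-!
# Quadrics with coisotropic period, or with polar form `B`: transitivity in the affine
symplectic group
-/

namespace Pool.Agent.SIT.Suf42

open Finset

section

variable {V : Type*} [AddCommGroup V] [Module (ZMod 2) V]

/-- `g` is affine symplectic and preserves `f`. -/
structure Good (B : V →ₗ[ZMod 2] V →ₗ[ZMod 2] ZMod 2) (f : V → ZMod 2)
    (g : V ≃ᵃ[ZMod 2] V) : Prop where
  symp : ∀ x y, B (g.linear x) (g.linear y) = B x y
  inv : ∀ x, f (g x) = f x

variable {B : V →ₗ[ZMod 2] V →ₗ[ZMod 2] ZMod 2} {f : V → ZMod 2}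

lemma Good.refl : Good B f (AffineEquiv.refl (ZMod 2) V) := ⟨fun _ _ => rfl, fun _ => rfl⟩

lemma Good.trans {g h : V ≃ᵃ[ZMod 2] V} (hg : Good B f g) (hh : Good B f h) :
    Good B f (g.trans h) :=
  ⟨fun x y => by
    change B (h.linear (g.linear x)) (h.linear (g.linear y)) = _
    rw [hh.symp, hg.symp], fun x => by rw [AffineEquiv.trans_apply, hh.inv, hg.inv]⟩

lemma alt_symm (hB : ∀ x, B x x = 0) (x y : V) : B x y = B y x := by
  have h := hB (x + y)
  rw [map_add, map_add, LinearMap.add_apply, LinearMap.add_apply, hB, hB, zero_add, add_zero] at h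
  rw [z2_eq_add_iff, zero_add] at h
  exact h.symm

/-- The linear involution `x ↦ x + B(u,x) a + B(a,x) u`, `B(u,a) = 0`. -/
def eLin (hB : ∀ x, B x x = 0) (u a : V) (h : B u a = 0) : V ≃ₗ[ZMod 2] V :=
  LinearEquiv.ofInvolutive (LinearMap.id + (B u).smulRight a + (B a).smulRight u) (by
    intro x
    have h' : B a u = 0 := by rw [alt_symm hB]; exact h
    change (x + B u x • a + B a x • u) + B u (x + B u x • a + B a x • u) • a +
      B a (x + B u x • a + B a x • u) • u = x
    simp only [map_add, map_smul, hB, h, h', smul_eq_mul, mul_zero, add_zero]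
    have h1 := add_self' (B u x • a)
    have h2 := add_self' (B a x • u)
    calc x + B u x • a + B a x • u + B u x • a + B a x • u
        = x + (B u x • a + B u x • a) + (B a x • u + B a x • u) := by abel
      _ = x := by rw [h1, h2, add_zero, add_zero])

lemma eLin_apply (hB : ∀ x, B x x = 0) (u a : V) (h : B u a = 0) (x : V) :
    eLin hB u a h x = x + B u x • a + B a x • u := rfl

lemma eLin_symp (hB : ∀ x, B x x = 0) (u a : V) (h : B u a = 0) (x y : V) :
    B (eLin hB u a h x) (eLin hB u a h y) = B x y := by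
  have h' : B a u = 0 := by rw [alt_symm hB]; exact h
  rw [eLin_apply, eLin_apply]
  simp only [map_add, map_smul, LinearMap.add_apply, LinearMap.smul_apply, hB, h, h',
    smul_eq_mul, mul_zero, add_zero]
  rw [alt_symm hB x a, alt_symm hB x u]
  generalize B u x = p
  generalize B a x = q
  generalize B u y = r
  generalize B a y = s
  generalize B x y = t
  revert p q r s t
  decide

/-- The affine map `x ↦ x + (B(u,x) + c) a + B(a,x) u`. -/
def eAff (hB : ∀ x, B x x = 0) (u a : V) (h : B u a = 0) (c : ZMod 2) : V ≃ᵃ[ZMod 2] V :=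
  (eLin hB u a h).toAffineEquiv.trans (AffineEquiv.constVAdd (ZMod 2) V (c • a))

lemma eAff_apply (hB : ∀ x, B x x = 0) (u a : V) (h : B u a = 0) (c : ZMod 2) (x : V) :
    eAff hB u a h c x = x + (B u x + c) • a + B a x • u := by
  change c • a + (x + B u x • a + B a x • u) = _
  rw [add_smul]
  abel

lemma eAff_linear (hB : ∀ x, B x x = 0) (u a : V) (h : B u a = 0) (c : ZMod 2) (x : V) :
    (eAff hB u a h c).linear x = eLin hB u a h x := rfl

/-- The transvection `x ↦ x + B(a,x) a`. -/
def tLin (hB : ∀ x, B x x = 0) (a : V) : V ≃ₗ[ZMod 2] V := tvLin (B a) a (hB a)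

lemma tLin_apply (hB : ∀ x, B x x = 0) (a x : V) : tLin hB a x = x + B a x • a := rfl

lemma tLin_symp (hB : ∀ x, B x x = 0) (a x y : V) :
    B (tLin hB a x) (tLin hB a y) = B x y := by
  rw [tLin_apply, tLin_apply]
  simp only [map_add, map_smul, LinearMap.add_apply, LinearMap.smul_apply, hB,
    smul_eq_mul, mul_zero, add_zero]
  rw [alt_symm hB x a]
  generalize B a x = p
  generalize B a y = q
  generalize B x y = t
  revert p q t
  decide

lemma tv_symp (hB : ∀ x, B x x = 0) (a : V) (c : ZMod 2) (x y : V) :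
    B ((tv (B a) c a (hB a)).linear x) ((tv (B a) c a (hB a)).linear y) = B x y :=
  tLin_symp hB a x y

/-- The polar functional of a radical vector vanishes. -/
lemma rad_polar {r a : V} {φ : Module.Dual (ZMod 2) V} {c : ZMod 2}
    (ha : ∀ x, f (x + a) + f x = φ x + c) (hr : Rad f r) : φ r = 0 := by
  obtain ⟨d, hd⟩ := hr
  have h2 : ∀ x, f (x + r) + f x = (0 : Module.Dual (ZMod 2) V) x + d := by
    intro x
    rw [hd x, LinearMap.zero_apply, zero_add]
  rw [polar_symm ha h2, LinearMap.zero_apply]

lemma rad_zero : Rad f 0 := ⟨0, fun x => by rw [add_zero, z2_add_self]⟩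

lemma rad_add {a b : V} (ha : Rad f a) (hb : Rad f b) : Rad f (a + b) := by
  obtain ⟨c, hc⟩ := ha
  obtain ⟨d, hd⟩ := hb
  refine ⟨c + d, fun x => ?_⟩
  have h1 := hc (x + b)
  have h2 := hd x
  have h3 : x + b + a = x + (a + b) := by abel
  rw [h3] at h1
  generalize f (x + (a + b)) = p at *
  generalize f (x + b) = q at *
  generalize f x = r at *
  clear hc hd h3
  revert p q r c d
  decide

/-- A representative `u` of the polar functional of `a`. -/
lemma exists_rep [Finite V] (hnd : ∀ x, (∀ y, B x y = 0) → x = 0)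
    (φ : Module.Dual (ZMod 2) V) : ∃ u, B u = φ := by
  have hinj : Function.Injective B := by
    rw [← LinearMap.ker_eq_bot, LinearMap.ker_eq_bot']
    intro x hx
    exact hnd x (fun y => by rw [hx, LinearMap.zero_apply])
  have hfd : FiniteDimensional (ZMod 2) V := Module.Finite.of_finite
  have hsurj : Function.Surjective B :=
    (LinearMap.injective_iff_surjective_of_finrank_eq_finrank
      (Subspace.dual_finrank_eq (K := ZMod 2) (V := V)).symm).1 hinj
  exact hsurj φ

/-- The hypothesis: the period is coisotropic, or the polar form is `B`. -/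
def SpCase (B : V →ₗ[ZMod 2] V →ₗ[ZMod 2] ZMod 2) (f : V → ZMod 2) : Prop :=
  (∀ b, (∀ r, Rad f r → B b r = 0) → Rad f b) ∨ (∀ a x, f (x + a) + f x + f a + f 0 = B a x)

/-- The basic step modulo the radical. -/
lemma sp_step [Finite V] (hB : ∀ x, B x x = 0) (hnd : ∀ x, (∀ y, B x y = 0) → x = 0)
    (hQ : QF f) (hT : ∀ a, Rad f a → ∀ x, f (x + a) = f x) (hc : SpCase B f) (a : V) :
    ∃ g : V ≃ᵃ[ZMod 2] V, Good B f g ∧ (∀ x, f (x + a) = f x → Rad f (g x + (x + a))) ∧
      (∀ x, f (x + a) ≠ f x → Rad f (g x + x)) := by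
  obtain ⟨φ, c, hφ⟩ := hQ a
  have h0 : φ a = 0 := polar_self hφ
  have key1 : ∀ x, f (x + a) = f x → φ x + (c + 1) = 1 := by
    intro x hx
    have := hφ x
    rw [hx, z2_add_self] at this
    rw [← add_assoc, ← this, zero_add]
  have key2 : ∀ x, f (x + a) ≠ f x → φ x + (c + 1) = 0 := by
    intro x hx
    have := hφ x
    have h1 : f (x + a) + f x = 1 := by
      revert hx
      generalize f (x + a) = p
      generalize f x = q
      revert p q
      decide
    rw [← add_assoc, ← this, h1]
    rfl
  rcases hc with hc | hc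
  · obtain ⟨u, rfl⟩ := exists_rep hnd φ
    have hu : Rad f u := hc u (fun r hr => rad_polar hφ hr)
    have hsm : ∀ t : ZMod 2, Rad f (t • u) := by
      intro t
      rcases zmod2_cases t with rfl | rfl
      · rw [zero_smul]; exact rad_zero
      · rw [one_smul]; exact hu
    refine ⟨eAff hB u a h0 (c + 1), ⟨eLin_symp hB u a h0, ?_⟩, ?_, ?_⟩
    · intro x
      rw [eAff_apply, hT _ (hsm _)]
      by_cases hx : f (x + a) = f x
      · rw [key1 x hx, one_smul, hx]
      · rw [key2 x hx, zero_smul, add_zero]
    · intro x hx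
      rw [eAff_apply, key1 x hx, one_smul]
      have : x + a + B a x • u + (x + a) = B a x • u := by
        calc x + a + B a x • u + (x + a) = (x + a) + (x + a) + B a x • u := by abel
          _ = _ := by rw [add_self', zero_add]
      rw [this]
      exact hsm _
    · intro x hx
      rw [eAff_apply, key2 x hx, zero_smul, add_zero]
      have : x + B a x • u + x = B a x • u := by
        calc x + B a x • u + x = x + x + B a x • u := by abel
          _ = _ := by rw [add_self', zero_add]
      rw [this]
      exact hsm _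
  · have hφB : φ = B a := by
      ext x
      have h1 := hφ x
      have h2 := hc a x
      have h3 := hφ 0
      rw [zero_add, map_zero, zero_add] at h3
      rw [← h2]
      generalize f (x + a) = p at *
      generalize f x = q at *
      generalize f a = r at *
      generalize f 0 = s at *
      generalize φ x = t at *
      clear hφ h2 hc key1 key2
      revert p q r s t c
      decide
    subst hφB
    refine ⟨tv (B a) (c + 1) a h0, ⟨tv_symp hB a (c + 1), ?_⟩, ?_, ?_⟩
    · intro x
      by_cases hx : f (x + a) = f x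
      · rw [tv_apply_of_one _ _ _ _ (key1 x hx), hx]
      · rw [tv_apply_of_zero _ _ _ _ (key2 x hx)]
    · intro x hx
      rw [tv_apply_of_one _ _ _ _ (key1 x hx), add_self']
      exact rad_zero
    · intro x hx
      rw [tv_apply_of_zero _ _ _ _ (key2 x hx), add_self']
      exact rad_zero

/-- The linear part of a good map preserves the radical. -/
lemma Good.rad {g : V ≃ᵃ[ZMod 2] V} (hg : Good B f g) {r : V} (hr : Rad f r) (x : V) :
    Rad f (g (x + r) + g x) := by
  obtain ⟨c, hc⟩ := hr
  have hlin : ∀ y d, g (y + d) = g y + g.linear d := by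
    intro y d
    have := g.map_vadd y d
    rw [vadd_eq_add, vadd_eq_add] at this
    rw [add_comm y d, this, add_comm]
  refine ⟨c, fun y => ?_⟩
  obtain ⟨z, rfl⟩ := g.surjective y
  have h1 : g z + (g (x + r) + g x) = g (z + r) := by
    rw [hlin x r, hlin z r]
    calc g z + (g x + g.linear r + g x) = g z + g.linear r + (g x + g x) := by abel
      _ = _ := by rw [add_self', add_zero]
  rw [h1, hg.inv, hg.inv, hc z]

lemma Good.rad_of {g : V ≃ᵃ[ZMod 2] V} (hg : Good B f g) {x y z : V} (h : Rad f (x + y))
    (h' : Rad f (g y + z)) : Rad f (g x + z) := by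
  have h1 := hg.rad h y
  have h2 : y + (x + y) = x := by
    calc y + (x + y) = x + (y + y) := by abel
      _ = _ := by rw [add_self', add_zero]
  rw [h2] at h1
  have h3 := rad_add h1 h'
  have h4 : g x + g y + (g y + z) = g x + z := by
    calc g x + g y + (g y + z) = g x + z + (g y + g y) := by abel
      _ = _ := by rw [add_self', add_zero]
  rwa [h4] at h3

lemma exists_both {W : Type*} [AddCommGroup W] [Module (ZMod 2) W]
    {φ ψ : Module.Dual (ZMod 2) W} (hφ : φ ≠ 0) (hψ : ψ ≠ 0) : ∃ v, φ v = 1 ∧ ψ v = 1 := by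
  by_cases hne : φ = ψ
  · subst hne
    obtain ⟨v, hv⟩ : ∃ v, φ v ≠ 0 := by
      by_contra h
      push Not at h
      exact hφ (LinearMap.ext h)
    rcases zmod2_cases (φ v) with h | h
    · exact absurd h hv
    · exact ⟨v, h, h⟩
  · obtain ⟨a, ha1, ha2⟩ := exists_sep hφ hψ hne
    obtain ⟨b, hb1, hb2⟩ := exists_sep hψ hφ (fun h => hne h.symm)
    exact ⟨a + b, by rw [map_add, ha1, hb2, zero_add], by rw [map_add, ha2, hb1, add_zero]⟩

/-- The radical, as a submodule. -/
def radSub (f : V → ZMod 2) : Submodule (ZMod 2) V where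
  carrier := {r | Rad f r}
  zero_mem' := rad_zero
  add_mem' := fun ha hb => rad_add ha hb
  smul_mem' := by
    intro c x hx
    rcases zmod2_cases c with rfl | rfl
    · rw [zero_smul]; exact rad_zero
    · rw [one_smul]; exact hx

lemma mem_radSub {x : V} : x ∈ radSub f ↔ Rad f x := Iff.rfl

/-- A transvection with centre in the radical, fixing `w`. -/
lemma good_tv (hB : ∀ x, B x x = 0) (hT : ∀ a, Rad f a → ∀ x, f (x + a) = f x) {a : V}
    (ha : Rad f a) (c : ZMod 2) : Good B f (tv (B a) c a (hB a)) := by
  refine ⟨tv_symp hB a c, fun x => ?_⟩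
  rcases zmod2_cases (B a x + c) with h | h
  · rw [tv_apply_of_zero _ _ _ _ h]
  · rw [tv_apply_of_one _ _ _ _ h]
    exact hT _ ha x

/-- Moving `y` inside its coset of the radical, `w` fixed. -/
lemma fix_coset (hB : ∀ x, B x x = 0) (hT : ∀ a, Rad f a → ∀ x, f (x + a) = f x)
    (hc : ∀ b, (∀ r, Rad f r → B b r = 0) → Rad f b) {w y z : V} (hw : f w = 1) (hy : f y = 0)
    (hyz : Rad f (y + z)) : ∃ g : V ≃ᵃ[ZMod 2] V, Good B f g ∧ g w = w ∧ g y = z := by
  -- one transvection
  have one : ∀ y z : V, Rad f (y + z) → B (y + w) (z + w) = 1 →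
      ∃ g : V ≃ᵃ[ZMod 2] V, Good B f g ∧ g w = w ∧ g y = z := by
    intro y z hyz h1
    refine ⟨tv (B (y + z)) (B (y + z) w) (y + z) (hB _), good_tv hB hT hyz _, ?_, ?_⟩
    · exact tv_apply_of_zero _ _ _ _ (z2_add_self _)
    · rw [tv_apply_of_one, self_add_add]
      rw [← map_add]
      have h2 : y + z = (y + w) + (z + w) := by
        calc y + z = y + z + (w + w) := by rw [add_self', add_zero]
          _ = _ := by abel
      have h3 : B ((y + w) + (z + w)) = B (y + w) + B (z + w) := map_add _ _ _
      rw [h2, h3, LinearMap.add_apply, hB, zero_add, alt_symm hB]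
      exact h1
  rcases zmod2_cases (B (y + w) (z + w)) with h0 | h1
  swap
  · exact one y z hyz h1
  have hz : f z = 0 := by
    have := hT _ hyz y
    rw [self_add_add] at this
    rw [this, hy]
  have hne : ∀ t, f t = 0 → (B (t + w)).comp (radSub f).subtype ≠ 0 := by
    intro t ht h
    have h2 : Rad f (t + w) := by
      refine hc _ fun r hr => ?_
      have := LinearMap.congr_fun h ⟨r, hr⟩
      exact this
    have h3 := hT _ h2 t
    rw [self_add_add, hw, ht] at h3
    exact absurd h3 (by decide)
  obtain ⟨⟨s, hs⟩, hs1, hs2⟩ := exists_both (hne y hy) (hne z hz)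
  have hs1' : B (y + w) s = 1 := hs1
  have hs2' : B (z + w) s = 1 := hs2
  rw [mem_radSub] at hs
  obtain ⟨g₁, hg₁, hw₁, hy₁⟩ := one y (y + s) (by rwa [self_add_add]) (by
    have e : y + s + w = (y + w) + s := by abel
    rw [e, map_add, hB, zero_add]
    exact hs1')
  obtain ⟨g₂, hg₂, hw₂, hy₂⟩ := one (y + s) z (by
    have e : y + s + z = (y + z) + s := by abel
    rw [e]
    exact rad_add hyz hs) (by
    have e : y + s + w = (y + w) + s := by abel
    have e2 : B ((y + w) + s) = B (y + w) + B s := map_add _ _ _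
    rw [e, e2, LinearMap.add_apply, h0, zero_add, alt_symm hB]
    exact hs2')
  exact ⟨g₁.trans g₂, hg₁.trans hg₂, by rw [AffineEquiv.trans_apply, hw₁, hw₂],
    by rw [AffineEquiv.trans_apply, hy₁, hy₂]⟩

variable [Fintype V] [DecidableEq V]

/-- Transitivity on `{f = 1} × {f = 0}` modulo the radical. -/
theorem sp_trans_mod (hB : ∀ x, B x x = 0) (hnd : ∀ x, (∀ y, B x y = 0) → x = 0)
    (hQ : QF f) (hT : ∀ a, Rad f a → ∀ x, f (x + a) = f x) (hc : SpCase B f)
    (hcard : (univ.filter (fun x => f x = 1)).card < (univ.filter (fun x => f x = 0)).card)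
    {u w u' w' : V} (hu : f u = 1) (hw : f w = 1) (hu' : f u' = 0) (hw' : f w' = 0) :
    ∃ g : V ≃ᵃ[ZMod 2] V, Good B f g ∧ Rad f (g u + w) ∧ Rad f (g u' + w') := by
  have hself : ∀ x : V, Rad f (x + x) := fun x => by rw [add_self']; exact rad_zero
  -- fixing `w`
  have hfix : ∀ y z, f y = 0 → f z = 0 →
      ∃ g : V ≃ᵃ[ZMod 2] V, Good B f g ∧ Rad f (g w + w) ∧ Rad f (g y + z) := by
    -- easy case
    have heasy : ∀ y z, f y = 0 → f z = 0 → f (w + (y + z)) = 0 →
        ∃ g : V ≃ᵃ[ZMod 2] V, Good B f g ∧ Rad f (g w + w) ∧ Rad f (g y + z) := by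
      intro y z hy hz hwyz
      obtain ⟨g, h1, h2, h3⟩ := sp_step hB hnd hQ hT hc (y + z)
      refine ⟨g, h1, ?_, ?_⟩
      · apply h3
        rw [hwyz, hw]
        decide
      · have := h2 y (by rw [self_add_add, hz, hy])
        rwa [self_add_add] at this
    intro y z hy hz
    by_cases hwyz : f (w + (y + z)) = 0
    · exact heasy y z hy hz hwyz
    have hwyz1 : f (w + (y + z)) = 1 := by
      rcases zmod2_cases (f (w + (y + z))) with h | h
      · exact absurd h hwyz
      · exact h
    by_cases hrad : Rad f (y + z)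
    · exact ⟨AffineEquiv.refl (ZMod 2) V, Good.refl, hself w, hrad⟩
    · -- intermediate point
      suffices hz' : ∃ t, f t = 0 ∧ f (w + (y + t)) = 0 ∧ f (w + (t + z)) = 0 by
        obtain ⟨t, ht0, ht1, ht2⟩ := hz'
        obtain ⟨g₁, h1, h2, h3⟩ := heasy y t hy ht0 ht1
        obtain ⟨g₂, h4, h5, h6⟩ := heasy t z ht0 hz ht2
        exact ⟨g₁.trans g₂, h1.trans h4, h4.rad_of h2 h5, h4.rad_of h3 h6⟩
      by_contra hcon
      push Not at hcon
      obtain ⟨φ₁, k₁, hφ₁⟩ := hQ (w + y)
      obtain ⟨φ₂, k₂, hφ₂⟩ := hQ (w + z)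
      have hφ₁0 : φ₁ ≠ 0 := by
        rintro rfl
        have h1 : Rad f (w + y) := ⟨k₁, fun x => by rw [hφ₁ x, LinearMap.zero_apply, zero_add]⟩
        have h2 := hT _ h1 w
        rw [self_add_add, hy, hw] at h2
        exact absurd h2 (by decide)
      have hφ₂0 : φ₂ ≠ 0 := by
        rintro rfl
        have h1 : Rad f (w + z) := ⟨k₂, fun x => by rw [hφ₂ x, LinearMap.zero_apply, zero_add]⟩
        have h2 := hT _ h1 w
        rw [self_add_add, hz, hw] at h2
        exact absurd h2 (by decide)
      have hne : φ₁ ≠ φ₂ := by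
        rintro rfl
        apply hrad
        refine ⟨φ₁ (w + z) + k₁ + k₂, ?_⟩
        intro x
        have h1 := hφ₁ (x + (w + z))
        have h2 := hφ₂ x
        have h3 : x + (w + z) + (w + y) = x + (y + z) := by
          have := add_self' w
          calc x + (w + z) + (w + y) = x + (y + z) + (w + w) := by abel
            _ = _ := by rw [this, add_zero]
        rw [h3, map_add] at h1
        generalize f (x + (y + z)) = p at *
        generalize f (x + (w + z)) = q at *
        generalize f x = r at *
        generalize φ₁ x = s at *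
        generalize φ₁ (w + z) = t at *
        clear hφ₁ hφ₂ hcon hrad hφ₁0 hφ₂0
        revert p q r s t k₁ k₂
        decide
      obtain ⟨v, hv1, hv2⟩ := exists_sep hφ₁0 hφ₂0 hne
      have hself : φ₁ (w + y) = 0 := polar_self hφ₁
      -- all points with both derivatives zero have `f = 1`
      have hF : ∀ x, φ₁ x + k₁ = 0 → φ₂ x + k₂ = 0 → f x = 1 := by
        intro x h1 h2
        rcases zmod2_cases (f x) with h | h
        · exfalso
          have h3 := hφ₁ x
          have h4 := hφ₂ x
          rw [h1, h, add_zero] at h3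
          rw [h2, h, add_zero] at h4
          apply hcon x h
          · rw [← h3]
            congr 1
            abel
          · rw [← h4]
            congr 1
            abel
        · exact h
      -- an injection from `{f = 0}` to `{f = 1}`
      have hle : (univ.filter (fun x => f x = 0)).card ≤ (univ.filter (fun x => f x = 1)).card := by
        apply Finset.card_le_card_of_injOn
          (fun x => if φ₁ x + k₁ = 1 then x + (w + y) else x + v)
        · intro x hx
          rw [Finset.mem_coe, Finset.mem_filter] at hx ⊢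
          refine ⟨mem_univ _, ?_⟩
          simp only
          split_ifs with h
          · have h1 := hφ₁ x
            rw [h, hx.2, add_zero] at h1
            exact h1
          · have h1 : φ₁ x + k₁ = 0 := by
              rcases zmod2_cases (φ₁ x + k₁) with h' | h'
              · exact h'
              · exact absurd h' h
            have h2 : φ₂ x + k₂ = 1 := by
              rcases zmod2_cases (φ₂ x + k₂) with h' | h'
              · have := hF x h1 h'
                rw [hx.2] at this
                exact absurd this (by decide)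
              · exact h'
            apply hF
            · rw [map_add, hv1, add_zero, h1]
            · rw [map_add, hv2, add_right_comm, h2]
              rfl
        · intro x hx x' hx' h
          simp only at h
          split_ifs at h with h1 h2 h2
          · exact add_right_cancel h
          · exfalso
            have h3 : φ₁ (x + (w + y)) = φ₁ (x' + v) := by rw [h]
            rw [map_add φ₁ x, map_add φ₁ x', hself, hv1, add_zero, add_zero] at h3
            rw [h3] at h1
            exact h2 h1
          · exfalso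
            have h3 : φ₁ (x + v) = φ₁ (x' + (w + y)) := by rw [h]
            rw [map_add φ₁ x, map_add φ₁ x', hself, hv1, add_zero, add_zero] at h3
            rw [← h3] at h2
            exact h1 h2
          · exact add_right_cancel h
      omega
  obtain ⟨g₁, h1, h2, -⟩ := sp_step hB hnd hQ hT hc (u + w)
  have h3 : Rad f (g₁ u + w) := by
    have := h2 u (by rw [self_add_add, hu, hw])
    rwa [self_add_add] at this
  obtain ⟨g₂, h4, h5, h6⟩ := hfix (g₁ u') w' (by rw [h1.inv, hu']) hw'
  exact ⟨g₁.trans g₂, h1.trans h4, h4.rad_of h3 h5, h6⟩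

/-- **Sufficiency for quadrics.** If the period of `f` is coisotropic, or the polar form of `f` is
`B`, the affine symplectic maps preserving `f` are transitive on `{f = 1} × {f = 0}`. -/
theorem sp_quad_transitive (hB : ∀ x, B x x = 0) (hnd : ∀ x, (∀ y, B x y = 0) → x = 0)
    (hQ : QF f) (hT : ∀ a, Rad f a → ∀ x, f (x + a) = f x) (hc : SpCase B f)
    (hcard : (univ.filter (fun x => f x = 1)).card < (univ.filter (fun x => f x = 0)).card)
    {u w u' w' : V} (hu : f u = 1) (hw : f w = 1) (hu' : f u' = 0) (hw' : f w' = 0) :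
    ∃ g : V ≃ᵃ[ZMod 2] V, Good B f g ∧ g u = w ∧ g u' = w' := by
  obtain ⟨g, hg, h1, h2⟩ := sp_trans_mod hB hnd hQ hT hc hcard hu hw hu' hw'
  rcases hc with hc | hc
  · -- translation by `g u + w`
    let τ : V ≃ᵃ[ZMod 2] V := AffineEquiv.constVAdd (ZMod 2) V (g u + w)
    have hτ : ∀ x, τ x = (g u + w) + x := fun x => rfl
    have hτg : Good B f τ := ⟨fun _ _ => rfl, fun x => by rw [hτ, add_comm, hT _ h1]⟩
    have hu1 : τ (g u) = w := by
      rw [hτ]
      calc g u + w + g u = w + (g u + g u) := by abel
        _ = _ := by rw [add_self', add_zero]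
    have h3 : Rad f (τ (g u') + w') := by
      rw [hτ]
      have := rad_add h1 h2
      have e : g u + w + g u' + w' = g u + w + (g u' + w') := by abel
      rwa [e]
    obtain ⟨h, hh, hh1, hh2⟩ := fix_coset hB hT hc hw
      (y := τ (g u')) (z := w') (by rw [hτg.inv, hg.inv, hu']) h3
    exact ⟨(g.trans τ).trans h, (hg.trans hτg).trans hh,
      by rw [AffineEquiv.trans_apply, AffineEquiv.trans_apply, hu1, hh1],
      by rw [AffineEquiv.trans_apply, AffineEquiv.trans_apply, hh2]⟩
  · have hz : ∀ r, Rad f r → r = 0 := by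
      rintro r ⟨c, hr⟩
      apply hnd
      intro y
      have h3 := hc r y
      have h4 := hr y
      have h5 := hr 0
      rw [zero_add] at h5
      rw [← h3]
      generalize f (y + r) = p at *
      generalize f y = q at *
      generalize f r = s at *
      generalize f 0 = t at *
      clear h3 hr hc
      revert p q s t c
      decide
    have e : ∀ x y : V, x + y = 0 → x = y := fun x y h => by
      have := add_add_self x y
      rw [h, zero_add] at this
      exact this.symm
    exact ⟨g, hg, e _ _ (hz _ h1), e _ _ (hz _ h2)⟩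

end

end Pool.Agent.SIT.Suf42

namespace Pool.Agent.SIT

open Finset

variable {V : Type*} [AddCommGroup V] [Module (ZMod 2) V] [Fintype V] [DecidableEq V]
  {B : LinearMap.BilinForm (ZMod 2) V}

/-- L7 of doc S/MP_4a5c4b_ASP_42: the polar form of `f` is `B`. -/
theorem sp_suf_design (hB : Symp B) {f : V → ZMod 2} (hQ : QF f)
    (hpol : ∀ a b x, f (x + a + b) + f (x + a) + f (x + b) + f x = B a b)
    (hcard : (univ.filter (fun x => f x = 1)).card < (univ.filter (fun x => f x = 0)).card)
    {u w u' w' : V} (hu : f u = 1) (hw : f w = 1) (hu' : f u' = 0) (hw' : f w' = 0) :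
    ∃ g : V ≃ᵃ[ZMod 2] V, PB B g ∧ (∀ x, f (g x) = f x) ∧ g u = w ∧ g u' = w' := by
  have hpol' : ∀ a x, f (x + a) + f x + f a + f 0 = B a x := by
    intro a x
    have h := hpol a x 0
    rw [zero_add, zero_add] at h
    rw [← h, add_comm a x]
    ring
  have hT : ∀ a, Rad f a → ∀ x, f (x + a) = f x := by
    rintro r ⟨c, hr⟩ x
    have h0 : r = 0 := by
      apply hB.nd
      intro y
      have h3 := hpol' r y
      have h4 := hr y
      have h5 := hr 0
      rw [zero_add] at h5
      rw [← h3]
      generalize f (y + r) = p at *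
      generalize f y = q at *
      generalize f r = s at *
      generalize f 0 = t at *
      clear h3 hr hpol' hpol
      revert p q s t c
      decide
    rw [h0, add_zero]
  obtain ⟨g, hg, h1, h2⟩ := Suf42.sp_quad_transitive hB.alt hB.nd hQ hT (Or.inr hpol') hcard
    hu hw hu' hw'
  exact ⟨g, hg.symp, hg.inv, h1, h2⟩

/-- L8 of doc S/MP_4a5c4b_ASP_42: the period of `f` is coisotropic. -/
theorem sp_suf_coiso (hB : Symp B) {f : V → ZMod 2} (hQ : QF f)
    (hT : ∀ a, Rad f a → ∀ x, f (x + a) = f x)
    (hco : ∀ a, (∀ b, (∀ x, f (x + b) = f x) → B a b = 0) → ∀ x, f (x + a) = f x)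
    (hcard : (univ.filter (fun x => f x = 1)).card < (univ.filter (fun x => f x = 0)).card)
    {u w u' w' : V} (hu : f u = 1) (hw : f w = 1) (hu' : f u' = 0) (hw' : f w' = 0) :
    ∃ g : V ≃ᵃ[ZMod 2] V, PB B g ∧ (∀ x, f (g x) = f x) ∧ g u = w ∧ g u' = w' := by
  have hc : ∀ b, (∀ r, Rad f r → B b r = 0) → Rad f b := by
    intro b hb
    have h1 := hco b (fun r hr => hb r ⟨0, fun x => by rw [hr x, z2_add_self]⟩)
    exact ⟨0, fun x => by rw [h1 x, z2_add_self]⟩
  obtain ⟨g, hg, h1, h2⟩ := Suf42.sp_quad_transitive hB.alt hB.nd hQ hT (Or.inl hc) hcard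
    hu hw hu' hw'
  exact ⟨g, hg.symp, hg.inv, h1, h2⟩

end Pool.Agent.SIT
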