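import Pool.Agent.SIT.AllDefs
import Pool.Agent.SIT.LinQ2
import Pool.Agent.SIT.SpQPairs
import Pool.Agent.SIT.SpSuf

/-!
# The groups between `ASp(2m,q)` and `AΓSp(2m,q)`, `q` even: the final form
-/

namespace Pool.Agent.SIT.SpQ

open Finset

/-- The symplectic transvections generate the isometry group. -/
theorem isom_mem {F : Type*} [Field F] [CharP F 2] {V : Type*} [AddCommGroup V] [Module F V]
    [Fintype V] [DecidableEq V] {B : V →ₗ[F] V →ₗ[F] F} (hB : SympF B) :
    ∀ (n : ℕ) (g : V ≃ₗ[F] V), (∀ x y, B (g x) (g y) = B x y) →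
      (univ.filter (fun z => g z ≠ z)).card = n → g ∈ SpT hB := by
  intro n
  induction n using Nat.strong_induction_on with
  | _ n ih =>
    intro g hg hn
    -- if `t ∈ SpT` fixes all fixed points of `g` and `t (g x) = x`, `g x ≠ x`, we are done
    have red : ∀ (t : V ≃ₗ[F] V) (x : V), t ∈ SpT hB → (∀ z, g z = z → t z = z) → g x ≠ x →
        t (g x) = x → g ∈ SpT hB := by
      intro t x ht hfix hx htx
      have h1 : t * g ∈ SpT hB := by
        apply ih (univ.filter (fun z => (t * g) z ≠ z)).card ?_ (t * g) ?_ rfl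
        · rw [← hn]
          apply Finset.card_lt_card
          rw [Finset.ssubset_iff_of_subset]
          · refine ⟨x, by simp [hx], ?_⟩
            simp only [Finset.mem_filter, Finset.mem_univ, true_and, not_not]
            exact htx
          · intro z hz
            simp only [Finset.mem_filter, Finset.mem_univ, true_and] at hz ⊢
            intro h10
            apply hz
            change t (g z) = z
            rw [h10, hfix z h10]
        · intro a b
          change B (t (g a)) (t (g b)) = B a b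
          rw [SpT_pres hB ht, hg]
      have h2 : g = t⁻¹ * (t * g) := by rw [inv_mul_cancel_left]
      rw [h2]
      exact (SpT hB).mul_mem ((SpT hB).inv_mem ht) h1
    -- the reflection which moves `a` to `b`
    have refl : ∀ a b : V, B a b ≠ 0 → ∃ t ∈ SpT hB, t a = b ∧
        ∀ z, B z (a + b) = 0 → t z = z := by
      intro a b hab
      refine ⟨tq hB (B a b)⁻¹ (a + b), tq_mem hB _ _, ?_, ?_⟩
      · rw [tq_apply, map_add, hB.alt, zero_add, inv_mul_cancel₀ hab, one_smul, vaab F]
      · intro z hz
        rw [tq_apply, hz, mul_zero, zero_smul, add_zero]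
    by_cases hfix : ∀ x, g x = x
    · have : g = 1 := by
        ext x
        exact hfix x
      rw [this]
      exact (SpT hB).one_mem
    push Not at hfix
    by_cases hA : ∃ x, B (g x) x ≠ 0
    · obtain ⟨x, hx⟩ := hA
      obtain ⟨t, ht, h1, h2⟩ := refl (g x) x hx
      refine red t x ht (fun z hz => h2 z ?_) ?_ h1
      · have h3 := hg z x
        rw [hz] at h3
        rw [map_add, h3, CharTwo.add_self_eq_zero]
      · intro h
        rw [h, hB.alt] at hx
        exact hx rfl
    · push Not at hA
      obtain ⟨x, hx⟩ := hfix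
      let U : Submodule F V :=
        { carrier := {z | g z = z}
          add_mem' := by
            intro a b ha hb
            change g (a + b) = a + b
            rw [map_add, show g a = a from ha, show g b = b from hb]
          zero_mem' := map_zero g
          smul_mem' := by
            intro c a ha
            change g (c • a) = c • a
            rw [map_smul, show g a = a from ha] }
      have hxU : x ∉ U := hx
      have hgxU : g x ∉ U := fun h => hx (g.injective h)
      have hfd : FiniteDimensional F V := Module.Finite.of_finite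
      have hrep : ∀ a, a ∉ U → ∃ v, (∀ z, g z = z → B z v = 0) ∧ B a v = 1 := by
        intro a ha
        obtain ⟨φ, h1, h2⟩ := exists_fun ha
        obtain ⟨u, hu⟩ := exists_repr hB φ
        exact ⟨u, fun z hz => by rw [hu]; exact h2 z hz, by rw [hu, h1]⟩
      obtain ⟨v₁, h1, h2⟩ := hrep x hxU
      obtain ⟨v₂, h3, h4⟩ := hrep (g x) hgxU
      obtain ⟨v, hv, hv1, hv2⟩ : ∃ v, (∀ z, g z = z → B z v = 0) ∧ B x v ≠ 0 ∧
          B (g x) v ≠ 0 := by
        by_cases h5 : B (g x) v₁ = 0
        · by_cases h6 : B x v₂ = 0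
          · refine ⟨v₁ + v₂, fun z hz => by rw [map_add, h1 z hz, h3 z hz, add_zero], ?_, ?_⟩
            · rw [map_add, h2, h6, add_zero]
              exact one_ne_zero
            · rw [map_add, h4, h5, zero_add]
              exact one_ne_zero
          · exact ⟨v₂, h3, h6, by rw [h4]; exact one_ne_zero⟩
        · exact ⟨v₁, h1, by rw [h2]; exact one_ne_zero, h5⟩
      have h5 : B (g x) (x + v) ≠ 0 := by
        rw [map_add, hA x, zero_add]
        exact hv2
      have h6 : B (x + v) x ≠ 0 := by
        rw [hB.symm, map_add, hB.alt, zero_add]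
        exact hv1
      obtain ⟨t₁, ht₁, h7, h8⟩ := refl (g x) (x + v) h5
      obtain ⟨t₂, ht₂, h9, h10⟩ := refl (x + v) x h6
      refine red (t₂ * t₁) x ((SpT hB).mul_mem ht₂ ht₁) (fun z hz => ?_) hx ?_
      · change t₂ (t₁ z) = z
        have h11 := hg z x
        rw [hz] at h11
        rw [h8, h10]
        · have e : x + v + x = v := by
            calc x + v + x = x + (x + v) := by abel
              _ = v := vaab F x v
          rw [e]
          exact hv z hz
        · rw [map_add, map_add, hv z hz, add_zero, h11, CharTwo.add_self_eq_zero]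
      · change t₂ (t₁ (g x)) = x
        rw [h7, h9]

end Pool.Agent.SIT.SpQ

namespace Pool.Agent.SIT.Gen

open Finset SpQ

section

variable {F : Type*} [Field F] {V : Type*} [AddCommGroup V] [Module F V]

/-- `ASp(V) ≤ G ≤ AΓSp(V)` for a nondegenerate alternating form `B`: every member of `G` is
`x ↦ g x + t` with `g` a semilinear similitude of `B`; `G` contains all translations and all
symplectic transvections. -/
structure SpG (F : Type*) [Field F] {V : Type*} [AddCommGroup V] [Module F V]
    (B : V →ₗ[F] V →ₗ[F] F) (G : Subgroup (Equiv.Perm V)) : Prop where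
  alt : ∀ x, B x x = 0
  nd : ∀ x, (∀ y, B x y = 0) → x = 0
  semi : ∀ h ∈ G, ∃ (g : V ≃+ V) (t : V) (σ : F ≃+* F) (c : F),
    (∀ (a : F) (x : V), g (a • x) = σ a • g x) ∧ c ≠ 0 ∧
    (∀ x y, B (g x) (g y) = c * σ (B x y)) ∧ ∀ x, h x = g x + t
  trans : ∀ t : V, Equiv.addRight t ∈ G
  tv : ∀ (c : F) (z : V), ∀ g : Equiv.Perm V, (∀ x, g x = x + (c * B x z) • z) → g ∈ G

variable {B : V →ₗ[F] V →ₗ[F] F} {G : Subgroup (Equiv.Perm V)}

lemma SpG.semiG (hG : SpG F B G) : SemiG F G := by
  intro h hh
  obtain ⟨g, t, σ, c, h1, -, -, h4⟩ := hG.semi h hh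
  exact ⟨g, t, σ, h1, h4⟩

lemma SpG.sympF (hG : SpG F B G) : SympF B := ⟨hG.alt, hG.nd⟩

lemma SpG.sim (hG : SpG F B G) {g : V ≃+ V} {t : V} {σ : F ≃+* F} (h : PG G g t σ) :
    ∃ c : F, c ≠ 0 ∧ ∀ x y, B (g x) (g y) = c * σ (B x y) := by
  obtain ⟨h1, a, ha, h2⟩ := h
  obtain ⟨g', t', σ', c, h1', hc, h3, h4⟩ := hG.semi a ha
  have ht : t = t' := by
    have e1 := h2 0
    have e2 := h4 0
    rw [map_zero g, zero_add] at e1
    rw [map_zero g', zero_add] at e2
    rw [← e1, e2]
  have hg : ∀ x, g x = g' x := by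
    intro x
    have e1 := h2 x
    rw [h4, ← ht] at e1
    exact (add_right_cancel e1).symm
  by_cases hV : ∃ x : V, x ≠ 0
  · obtain ⟨x, hx⟩ := hV
    have hσ : ∀ a, σ a = σ' a := by
      intro a
      have e1 := h1 a x
      rw [hg, hg, h1'] at e1
      have e2 : (σ a - σ' a) • g' x = 0 := by rw [sub_smul, e1, sub_self]
      rcases smul_eq_zero.1 e2 with e3 | e3
      · exact sub_eq_zero.1 e3
      · exact absurd (g'.injective (by rw [e3, map_zero])) hx
    refine ⟨c, hc, fun x y => ?_⟩
    rw [hg, hg, h3, hσ]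
  · push Not at hV
    refine ⟨1, one_ne_zero, fun x y => ?_⟩
    rw [hV x, map_zero, map_zero, LinearMap.zero_apply, LinearMap.zero_apply, map_zero, mul_zero]

variable [CharP F 2]

lemma SpG.aff (hG : SpG F B G) : SpAff hG.sympF (PG (F := F) G) where
  semi := fun h c x => h.1 c x
  mul := PG_mul
  sim := fun h => hG.sim h
  trans := fun t => ⟨fun _ _ => rfl, Equiv.addRight t, hG.trans t, fun _ => rfl⟩
  tv := by
    intro c z
    refine ⟨fun a x => (tq hG.sympF c z).map_smul a x, toP (tq hG.sympF c z).toAddEquiv 0, ?_,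
      fun x => toP_apply _ _ _⟩
    apply hG.tv c z
    intro x
    rw [toP_apply, add_zero]
    exact tq_apply hG.sympF c z x

variable [Fintype V]

/-- `G` contains all isometries of `B`. -/
lemma SpG.isom (hG : SpG F B G) (g : V ≃ₗ[F] V) (hg : ∀ x y, B (g x) (g y) = B x y) (t : V) :
    PG G g.toAddEquiv t (RingEquiv.refl F) := by
  classical
  exact hG.aff.sp (isom_mem hG.sympF _ g hg rfl) t

lemma SpG.twoTransitive (hG : SpG F B G) : IsTwoTransitive G := by
  intro x y x' y' hxy hxy'
  have h1 : x + y ≠ 0 := fun h => hxy (by have := vabb F x y; rw [h, zero_add] at this; exact this.symm)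
  have h2 : x' + y' ≠ 0 :=
    fun h => hxy' (by have := vabb F x' y'; rw [h, zero_add] at this; exact this.symm)
  have hfd : FiniteDimensional F V := Module.Finite.of_finite
  obtain ⟨g, hg, h3⟩ := sp_vec hG.sympF h1 h2
  have h4 := PG_toP (hG.aff.sp hg (g x + x'))
  refine ⟨_, h4, ?_, ?_⟩
  · rw [toP_apply]
    exact vaab F (g x) x'
  · rw [toP_apply]
    change g y + (g x + x') = y'
    have e : g x + g y = x' + y' := by rw [← map_add, h3]
    calc g y + (g x + x') = (g x + g y) + x' := by abel
      _ = x' + (x' + y') := by rw [e]; abel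
      _ = y' := vaab F x' y'

end

section

variable {F : Type*} [Field F] [Fintype F] [CharP F 2] {V : Type*} [AddCommGroup V] [Module F V]
  [DecidableEq V] {B : V →ₗ[F] V →ₗ[F] F} {G : Subgroup (Equiv.Perm V)} {γ : Finset V}
  {β : V → V → ZMod 2}

omit [Fintype F] in
/-- If `β` vanishes where `B` vanishes, it is nondegenerate or zero. -/
lemma rad_zero_of_mult {f : V → ZMod 2}
    (hb : ∀ x a b, f (x + a + b) + f (x + a) + f (x + b) + f x = β a b)
    (hcomp : ∀ (c : F) a b, β (c • a) b = β a (c • b)) (hne : ∃ a b, β a b ≠ 0)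
    (hB : SympF B) (h : ∀ a b, B a b = 0 → β a b = 0) {a : V} (ha : ∀ b, β a b = 0) : a = 0 := by
  by_contra ha0
  have hsym := S4.beta_comm hb
  obtain ⟨z, hz⟩ : ∃ z, B z a ≠ 0 := by
    by_contra hcon
    push Not at hcon
    exact ha0 (hB.nd a fun y => by rw [hB.symm]; exact hcon y)
  have h1 : ∀ x, B x a ≠ 0 → ∀ y, β x y = 0 := by
    intro x hx y
    have h2 := h x (y + (B x y * (B x a)⁻¹) • a) (by
      rw [map_add, map_smul, smul_eq_mul, mul_assoc, inv_mul_cancel₀ hx, mul_one,
        CharTwo.add_self_eq_zero])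
    rw [S4.beta_add_right hb, ← hcomp, hsym _ a, ha, add_zero] at h2
    exact h2
  obtain ⟨x, y, hxy⟩ := hne
  apply hxy
  by_cases hx : B x a = 0
  · have h3 : B (x + z) a ≠ 0 := by
      rw [map_add, LinearMap.add_apply, hx, zero_add]
      exact hz
    have h4 := h1 (x + z) h3 y
    rw [S4.beta_add_left hb, h1 z hz y, add_zero] at h4
    exact h4
  · exact h1 x hx y

variable [Fintype V]

/-- `|F| = 2`: the quadrics. -/
theorem SpG.quad_two (hG : SpG F B G) (hF : Fintype.card F = 2)
    (hcard : 2 * γ.card ≤ Fintype.card V) (hq : Quad F G γ β)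
    (hβ : (∀ a, (∀ r, (∀ y, β r y = 0) → B a r = 0) → ∀ y, β a y = 0) ∨
      ∀ a b, B a b = 0 → β a b = 0) :
    ∀ u ∈ γ, ∀ u' ∉ γ, ∀ w ∈ γ, ∀ w' ∉ γ, ∃ g ∈ G, act g γ = γ ∧ g u = w ∧ g u' = w' := by
  have h2 : ∀ x : V, x + x = 0 := add_self_of_char F V
  have hb := hq.polar
  have hR : ∀ r, (∀ y, β r y = 0) → ∀ x, ind γ (x + r) = ind γ x :=
    fun r hr => ind_period_iff.2 ((hq.period r).2 hr)
  -- the prime field
  have hbij : Function.Bijective (S4.io F) := by
    constructor
    · rw [injective_iff_map_eq_zero]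
      intro a ha
      exact S4.io_eq_zero ha
    · intro c
      rcases zero_or_one hF c with rfl | rfl
      · exact ⟨0, map_zero _⟩
      · exact ⟨1, map_one _⟩
  let e : ZMod 2 ≃+* F := RingEquiv.ofBijective (S4.io F) hbij
  have he : ∀ c : F, S4.io F (e.symm c) = c := fun c => e.apply_symm_apply c
  let _ : Module (ZMod 2) V := Module.compHom V (S4.io F)
  have hsm : ∀ (c : ZMod 2) (x : V), c • x = (S4.io F c) • x := fun _ _ => rfl
  let B' : LinearMap.BilinForm (ZMod 2) V := LinearMap.mk₂ (ZMod 2)
    (fun x y => e.symm (B x y))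
    (fun x y z => by rw [map_add, LinearMap.add_apply, map_add])
    (fun c x y => by
      rw [hsm, map_smul, LinearMap.smul_apply, smul_eq_mul, map_mul, smul_eq_mul]
      congr 1
      exact e.symm_apply_apply c)
    (fun x y z => by rw [map_add, map_add])
    (fun c x y => by
      rw [hsm, map_smul, smul_eq_mul, map_mul, smul_eq_mul]
      congr 1
      exact e.symm_apply_apply c)
  have hB' : ∀ x y, B' x y = e.symm (B x y) := fun _ _ => rfl
  have hB0 : ∀ x y, B' x y = 0 ↔ B x y = 0 := by
    intro x y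
    rw [hB', map_eq_zero_iff _ e.symm.injective]
  have hS : Symp B' := ⟨fun x => (hB0 x x).2 (hG.alt x),
    fun x hx => hG.nd x fun y => (hB0 x y).1 (hx y)⟩
  have hQ : QF (ind γ) := by
    intro a
    let φ : V →+ ZMod 2 :=
      { toFun := fun x => β x a
        map_zero' := S4.beta_zero_left hb a
        map_add' := fun x y => S4.beta_add_left hb x y a }
    refine ⟨φ.toZModLinearMap 2, ind γ a + ind γ 0, fun x => ?_⟩
    change _ = β x a + _
    have h5 := hb 0 x a
    rw [zero_add, zero_add] at h5
    rw [← h5]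
    linear_combination (-(ind γ a) - ind γ 0) * (by rfl : (2 : ZMod 2) = 0)
  have hrad : ∀ a, Rad (ind γ) a → ∀ y, β a y = 0 := by
    rintro a ⟨c, hc⟩ y
    rw [← hb 0 a y]
    have h3 := hc y
    have h4 := hc 0
    have e : (0 : V) + a + y = y + a := by abel
    rw [e, zero_add y]
    linear_combination h3 - h4 + (ind γ (0 + a)) * (by rfl : (2 : ZMod 2) = 0) +
      (ind γ 0) * (by rfl : (2 : ZMod 2) = 0)
  have hT : ∀ a, Rad (ind γ) a → ∀ x, ind γ (x + a) = ind γ x :=
    fun a ha => hR a (hrad a ha)
  intro u hu u' hu' w hw w' hw'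
  have key : ∃ g : V ≃ᵃ[ZMod 2] V, PB B' g ∧ (∀ x, ind γ (g x) = ind γ x) ∧ g u = w ∧
      g u' = w' := by
    have hlt := quad_lt h2 hb hR hcard
    rcases hβ with hco | hmult
    · refine sp_suf_coiso hS hQ hT ?_ hlt (ind_eq_one.2 hu) (ind_eq_one.2 hw)
        (ind_eq_zero_iff.2 hu') (ind_eq_zero_iff.2 hw')
      intro a ha
      apply hR
      apply hco
      intro r hr
      exact (hB0 a r).1 (ha r (hR r hr))
    · refine sp_suf_design hS hQ ?_ hlt (ind_eq_one.2 hu) (ind_eq_one.2 hw)
        (ind_eq_zero_iff.2 hu') (ind_eq_zero_iff.2 hw')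
      intro a b x
      rw [hb]
      rcases S4.zmod2_cases (B' a b) with h3 | h3
      · rw [h3]
        exact hmult a b ((hB0 a b).1 h3)
      · rw [h3]
        rcases S4.zmod2_cases (β a b) with h4 | h4
        · exfalso
          have h5 : a = 0 := by
            apply rad_zero_of_mult hb hq.comp hq.ne hG.sympF hmult
            intro y
            rcases S4.zmod2_cases (B' a y) with h6 | h6
            · exact hmult a y ((hB0 a y).1 h6)
            · have h7 : β a (y + b) = 0 := by
                apply hmult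
                rw [← hB0, map_add, h6, h3]
                rfl
              rw [S4.beta_add_right hb, h4, add_zero] at h7
              exact h7
          rw [h5, map_zero, LinearMap.zero_apply] at h3
          exact zero_ne_one h3
        · exact h4
  obtain ⟨g, h3, h4, h5, h6⟩ := key
  let L : V ≃ₗ[F] V := { g.linear with
    map_smul' := fun c x => map_smul_two hF g.linear.toAddEquiv c x }
  have hL : ∀ x, L x = g.linear x := fun _ => rfl
  have h7 : PG G L.toAddEquiv (g 0) (RingEquiv.refl F) := by
    apply hG.isom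
    intro x y
    rw [hL, hL]
    have h8 := h3 x y
    rw [hB', hB'] at h8
    exact e.symm.injective h8
  have h8 : ∀ x, toP L.toAddEquiv (g 0) x = g x := by
    intro x
    rw [toP_apply]
    exact (agl_linear g x).symm
  refine ⟨_, PG_toP h7, ?_, ?_, ?_⟩
  · rw [← ind_act_iff]
    intro x
    rw [h8, h4]
  · rw [h8, h5]
  · rw [h8, h6]

omit [Fintype F] [Fintype V] in
/-- the periods of a coset -/
lemma periods_coset {γ : Finset V} (W : Submodule F V) {v : V} (hγ : ∀ x, x ∈ γ ↔ x + v ∈ W)
    (r : V) : r ∈ W ↔ ∀ x, ind γ (x + r) = ind γ x := by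
  constructor
  · intro hr x
    have h1 : x + r ∈ γ ↔ x ∈ γ := by
      rw [hγ, hγ]
      have e : x + r + v = x + v + r := by abel
      rw [e]
      exact Submodule.add_mem_iff_left W hr
    rw [ind, ind]
    simp only [h1]
  · intro h
    have h1 : v ∈ γ := by
      rw [hγ, vaa F v]
      exact W.zero_mem
    have h2 := h v
    rw [ind_eq_one.2 h1, ind_eq_one, hγ] at h2
    have e : v + r + v = r := by
      calc v + r + v = r + (v + v) := by abel
        _ = r := by rw [vaa F, add_zero]
    rwa [e] at h2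

omit [Fintype F] [CharP F 2] [Fintype V] in
lemma ex_of_pg {u u' w w' : V}
    (h : ∃ g t, ∃ σ : F ≃+* F, PG G g t σ ∧ (∀ x, g x + t ∈ γ ↔ x ∈ γ) ∧ g u + t = w ∧
      g u' + t = w') :
    ∃ g ∈ G, act g γ = γ ∧ g u = w ∧ g u' = w' := by
  obtain ⟨g, t, σ, h1, h2, h3, h4⟩ := h
  exact ⟨toP g t, PG_toP h1, act_eq_iff.2 h2, h3, h4⟩

/-- **All codes for the groups between `ASp(V)` and `AΓSp(V)`**. -/
theorem sp_all (hG : SpG F B G) : IsTwoTransitive G ∧ ∀ (k : ℕ) (C : Set (Finset V)), 3 ≤ k →
    2 * k ≤ Fintype.card V →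
    ((IsSITCode G k C ∧ C.Nonempty) ↔ ∃ γ : Finset V, γ.card = k ∧ C = Orb G γ ∧
      ((∃ W : Submodule F V, (∀ a, (∀ w ∈ W, B a w = 0) → a ∈ W) ∧ Translate (W : Set V) γ) ∨
        Exc F G γ ∨
        ∃ β, Quad F G γ β ∧ ((∀ a, (∀ r, (∀ y, β r y = 0) → B a r = 0) → ∀ y, β a y = 0) ∨
          ∀ a b, B a b = 0 → β a b = 0))) := by
  refine ⟨hG.twoTransitive, fun k C hk hk' => ?_⟩
  have h2 : ∀ x : V, x + x = 0 := add_self_of_char F V
  have hB := hG.sympF
  have hA : SpAff hB (PG (F := F) G) := hG.aff
  apply iff_of _ hk hk'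
  · intro γ hC hγ
    have hcard := hC.card_eq γ hγ
    have hSG : SG (ind γ) (PGs (F := F) G γ) := sg_of_sit h2 hG.semiG hC hγ
    have hsim : ∀ g t σ, PGs (F := F) G γ g t σ →
        ∃ c : F, c ≠ 0 ∧ ∀ x y, B (g x) (g y) = c * σ (B x y) :=
      fun g t σ ⟨h1, a, ha, h3, _⟩ => hG.sim ⟨h1, a, ha, h3⟩
    rcases nec_gen hG.semiG hC hk hk' hγ with ⟨W, v, hW⟩ | h | ⟨β, hq⟩
    · left
      refine ⟨W, ?_, v, hW⟩
      rcases hSG.coiso hB hsim W (periods_coset W hW) with h3 | h3
      · exfalso
        have h4 : γ ⊆ {v} := by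
          intro x hx
          have hx' : x + v ∈ W := (hW x).1 hx
          rw [h3, Submodule.mem_bot] at hx'
          rw [mem_singleton]
          have := vabb F x v
          rw [hx', zero_add] at this
          exact this.symm
        have h5 := Finset.card_le_card h4
        rw [Finset.card_singleton] at h5
        omega
      · exact h3
    · exact Or.inr (Or.inl h)
    · right
      right
      refine ⟨β, hq, ?_⟩
      have hpol := hq.polar
      have hR : ∀ r, (∀ y, β r y = 0) → ∀ x, ind γ (x + r) = ind γ x :=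
        fun r hr => ind_period_iff.2 ((hq.period r).2 hr)
      let R : Submodule F V :=
        { carrier := {r | ∀ y, β r y = 0}
          add_mem' := by
            intro a b ha hb y
            rw [S4.beta_add_left hpol, ha, hb, add_zero]
          zero_mem' := fun y => S4.beta_zero_left hpol y
          smul_mem' := by
            intro c a ha y
            rw [hq.comp, ha] }
      rcases hSG.coiso hB hsim R (fun r => ⟨fun hr => hR r hr,
          fun hr => (hq.period r).1 (ind_period_iff.1 hr)⟩) with h3 | h3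
      · right
        have hnd : ∀ a, (∀ b, β a b = 0) → a = 0 := by
          intro a ha
          have h4 : a ∈ R := ha
          rw [h3, Submodule.mem_bot] at h4
          exact h4
        obtain ⟨p, hp⟩ : γ.Nonempty := by
          rw [← Finset.card_pos]
          omega
        apply hSG.polar_zero hB hsim hpol hq.comp hnd
          (quad_lt h2 hpol hR (by omega)) (ind_eq_one.2 hp)
        rcases hq.small with h4 | ⟨h4, -⟩
        · exact Or.inl h4
        · exact Or.inr h4
      · left
        intro a ha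
        exact h3 a (fun w hw => ha w hw)
  · intro γ hcard h
    rcases h with ⟨W, hW, v, hγ⟩ | (⟨hF, hnl, W, hW, v, hγ⟩ | ⟨hF, hall, W, hW, hW', v, hγ⟩) |
      ⟨β, hq, hβ⟩
    · intro u hu u' hu' w hw w' hw'
      apply ex_of_pg (F := F)
      exact hA.flat (γ := (γ : Set V)) hW hγ hu hu' hw hw'
    · intro u hu u' hu' w hw w' hw'
      apply ex_of_pg (F := F)
      exact hA.hyp4 (γ := (γ : Set V)) hF hnl W hW hγ hu hu' hw hw'
    · intro u hu u' hu' w hw w' hw'
      apply ex_of_pg (F := F)
      exact hA.hyp16 (γ := (γ : Set V)) hF hall W hW hW' hγ hu hu' hw hw'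
    · have hR : ∀ r, (∀ y, β r y = 0) → ∀ x, ind γ (x + r) = ind γ x :=
        fun r hr => ind_period_iff.2 ((hq.period r).2 hr)
      rcases hq.small with hF | ⟨hF, g, t, σ, hg, hσ⟩
      · exact hG.quad_two hF (by omega) hq hβ
      · intro u hu u' hu' w hw w' hw'
        have e1 : ind γ u = ind γ w := by rw [ind_eq_one.2 hu, ind_eq_one.2 hw]
        have e2 : ind γ u' = ind γ w' := by rw [ind_eq_zero_iff.2 hu', ind_eq_zero_iff.2 hw']
        have e3 : ind γ u ≠ ind γ u' := by
          rw [ind_eq_one.2 hu, ind_eq_zero_iff.2 hu']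
          decide
        have h0 : ∃ g t σ, PG (F := F) G g t σ ∧ σ ≠ RingEquiv.refl F ∧
            ∀ x, ind γ (g x + t) = ind γ x := by
          obtain ⟨h1, a, ha, h2, h3⟩ := hg
          refine ⟨g, t, σ, ⟨h1, a, ha, h2⟩, hσ, fun x => ?_⟩
          rw [← h2, ind, ind]
          simp only [h3]
        have key : ∃ g t, ∃ σ : F ≃+* F, PG G g t σ ∧ (∀ z, ind γ (g z + t) = ind γ z) ∧
            g u + t = w ∧ g u' + t = w' := by
          rcases hβ with hco | hmult
          · exact hA.quad4a hF hq.polar hq.comp hR hco h0 e1 e2 e3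
          · exact hA.quad4b hF hq.polar hq.comp
              (fun a ha => rad_zero_of_mult hq.polar hq.comp hq.ne hB hmult ha) hmult h0 e1 e2 e3
        obtain ⟨g, t, σ, h1, h2, h3, h4⟩ := key
        apply ex_of_pg (F := F)
        refine ⟨g, t, σ, h1, fun x => ?_, h3, h4⟩
        rw [← ind_eq_one, h2, ind_eq_one]

end

end Pool.Agent.SIT.Gen
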