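import Pool.Agent.SIT.FinDefs
import Pool.Agent.SIT.SpQAll

/-!
# `T.Sp(V,B)' ≤ G`, `|F| > 2`: `G` contains all symplectic transvections
-/

namespace Pool.Agent.SIT.Gen

open Finset SpQ

variable {F : Type*} [Field F] [Fintype F] [CharP F 2] {V : Type*} [AddCommGroup V] [Module F V]
  [Fintype V] {B : V →ₗ[F] V →ₗ[F] F} {G : Subgroup (Equiv.Perm V)}

/-- A field with more than two elements. -/
lemma exists_ne_zero_one (hF : Fintype.card F ≠ 2) : ∃ μ : F, μ ≠ 0 ∧ μ ≠ 1 := by
  classical
  by_contra hcon
  push Not at hcon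
  have h1 : (univ : Finset F) ⊆ {0, 1} := by
    intro x _
    by_cases h : x = 0
    · rw [h]
      exact Finset.mem_insert_self _ _
    · rw [hcon x h]
      exact Finset.mem_insert_of_mem (Finset.mem_singleton_self _)
  have h2 := Finset.card_le_card h1
  rw [Finset.card_univ] at h2
  have h3 : ({0, 1} : Finset F).card ≤ 2 := Finset.card_le_two
  have h4 : 1 < Fintype.card F := Fintype.one_lt_card
  omega

/-- For `|F| > 2` the commutators of isometries give all symplectic transvections. -/
theorem SpG'.spG (hG : SpG' F B G) (hF : Fintype.card F ≠ 2) : SpG F B G where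
  alt := hG.alt
  nd := hG.nd
  semi := hG.semi
  trans := hG.trans
  tv := by
    intro c z g hg
    have hB : SympF B := ⟨hG.alt, hG.nd⟩
    have hfd : FiniteDimensional F V := Module.Finite.of_finite
    by_cases hz : z = 0
    · have : g = 1 := by
        ext x
        rw [hg, hz, smul_zero, add_zero]
        rfl
      rw [this]
      exact G.one_mem
    obtain ⟨μ, hμ0, hμ1⟩ := exists_ne_zero_one (F := F) hF
    have hμz : μ • z ≠ 0 := smul_ne_zero hμ0 hz
    obtain ⟨a, ha, haz⟩ := sp_vec hB hz hμz
    have hk : μ ^ 2 + 1 ≠ 0 := by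
      intro h
      have h1 : (μ + 1) ^ 2 = 0 := by
        have h2 := CharTwo.add_self_eq_zero μ
        linear_combination h + h2
      exact hμ1 (fne (pow_eq_zero_iff (two_ne_zero) |>.1 h1))
    set d := c * (μ ^ 2 + 1)⁻¹ with hd
    have hdc : d * (μ ^ 2 + 1) = c := by
      rw [hd, mul_assoc, inv_mul_cancel₀ hk, mul_one]
    apply hG.comm a (tq hB d z) (SpT_pres hB ha) (tq_pres hB d z) g
    intro x
    have hsymm : (tq hB d z).symm x = tq hB d z x := by
      rw [LinearEquiv.symm_apply_eq, tq_apply hB d z (tq hB d z x), tq_apply, map_add, map_smul,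
        LinearMap.add_apply, LinearMap.smul_apply, hG.alt, smul_zero, add_zero, vabb F]
    have h1 : ∀ y, a (tq hB d z (a.symm y)) = y + (d * μ ^ 2 * B y z) • z := by
      intro y
      have h2 := SpT_pres hB ha (a.symm y) z
      rw [a.apply_symm_apply, haz, map_smul, smul_eq_mul] at h2
      rw [tq_apply, map_add, map_smul, a.apply_symm_apply, haz, smul_smul, ← h2]
      congr 2
      ring
    rw [hsymm, h1, tq_apply, map_add, map_smul, LinearMap.add_apply, LinearMap.smul_apply,
      hG.alt, smul_zero, add_zero, hg, add_assoc, ← add_smul]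
    congr 2
    rw [← hdc]
    ring

end Pool.Agent.SIT.Gen
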