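import Pool.Agent.SIT.SpPrime2
import Pool.Agent.SIT.SpPrime4

/-!
# The groups between `T.Sp(V,B)'` and `AΓSp(V,B)`
-/

namespace Pool.Agent.SIT.Gen

open Finset

/-- **All codes for the groups between `T.Sp(V,B)'` and `AΓSp(V,B)`**. -/
theorem sp_class {F : Type*} [Field F] [Fintype F] [CharP F 2] {V : Type*} [AddCommGroup V]
    [Module F V] [Fintype V] [DecidableEq V] {B : V →ₗ[F] V →ₗ[F] F}
    {G : Subgroup (Equiv.Perm V)} (hG : SpG' F B G) :
    IsTwoTransitive G ∧ ∀ (k : ℕ) (C : Set (Finset V)), 3 ≤ k → 2 * k ≤ Fintype.card V →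
    ((IsSITCode G k C ∧ C.Nonempty) ↔ ∃ γ : Finset V, γ.card = k ∧ C = Orb G γ ∧
      ((∃ W : Submodule F V, (∀ a, (∀ w ∈ W, B a w = 0) → a ∈ W) ∧ Translate (W : Set V) γ) ∨
        Exc F G γ ∨
        ∃ β, Quad F G γ β ∧ ((∀ a, (∀ r, (∀ y, β r y = 0) → B a r = 0) → ∀ y, β a y = 0) ∨
          ∀ a b, B a b = 0 → β a b = 0))) := by
  by_cases hF : Fintype.card F = 2
  · exact sp_class_two hF hG
  · exact sp_all (hG.spG hF)

end Pool.Agent.SIT.Gen
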