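import Pool.Agent.SIT.LinNec

/-!
# The classification of strongly incidence-transitive sets in any finite elementary abelian 2-group
-/

namespace Pool.Agent.SIT

open Finset

/-- the data of a quadric as a function: polar form, periods, size -/
structure QData {V : Type*} [AddCommGroup V] [Fintype V] (γ : Finset V) (f : V → ZMod 2)
    (β : V → V → ZMod 2) (m : ℕ) : Prop where
  polar : ∀ x a b, f (x + a + b) + f (x + a) + f (x + b) + f x = β a b
  period : ∀ r, (∀ x, f (x + r) = f x) ↔ ∀ y, β r y = 0
  two_le : 2 ≤ m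
  card : Nat.card V = 2 ^ (2 * m) * Nat.card (perS f)
  lt : 2 * γ.card < Fintype.card V

lemma qdata_vec {n m : ℕ} (h : 2 * m ≤ n) (hm : 2 ≤ m) {γ : Finset (Vec n)}
    (hγ : γ ∈ QuadricCode h) :
    QData γ (ind γ) (fun a b => ind γ (a + b) + ind γ a + ind γ b + ind γ 0) m := by
  classical
  obtain ⟨hq, hT, hlt⟩ := Idx.quadric_data h (by omega) hγ
  set f := ind γ with hf
  have hpol : ∀ x a b, f (x + a + b) + f (x + a) + f (x + b) + f x =
      f (a + b) + f a + f b + f 0 := by
    intro x a b
    obtain ⟨φ, c, hφ⟩ := hq b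
    have h1 := hφ (x + a)
    have h2 := hφ x
    have h3 := hφ a
    have h4 := hφ 0
    rw [map_add] at h1
    rw [map_zero, zero_add, zero_add] at h4
    have h5 : f (x + a + b) + f (x + a) + f (x + b) + f x =
        (f (x + a + b) + f (x + a)) + (f (x + b) + f x) := by ring
    have h6 : f (a + b) + f a + f b + f 0 = (f (a + b) + f a) + (f b + f 0) := by ring
    rw [h5, h6, h1, h2, h3, h4]
    linear_combination (φ x) * (by rfl : (2 : ZMod 2) = 0)
  have hper : ∀ r, (∀ x, f (x + r) = f x) ↔ ∀ y, f (r + y) + f r + f y + f 0 = 0 := by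
    intro r
    constructor
    · intro h1 y
      have h2 := h1 0
      rw [zero_add] at h2
      rw [add_comm r y, h1, h2]
      linear_combination (f y + f 0) * (by rfl : (2 : ZMod 2) = 0)
    · intro h1
      apply hT
      refine ⟨f r + f 0, fun x => ?_⟩
      have h2 := h1 x
      rw [add_comm r x] at h2
      linear_combination h2 - (f r + f 0) * (by rfl : (2 : ZMod 2) = 0)
  have hcardγ : γ.card = 2 ^ (n - m - 1) * (2 ^ m - 1) := by
    obtain ⟨g, rfl⟩ := hγ
    rw [card_act, card_quadric h (by omega)]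
  have h2n : 2 * (2 ^ (n - m - 1) * 2 ^ m) = 2 ^ n := by
    rw [← pow_add, ← pow_succ']
    congr 1
    omega
  have h2nm : 2 * 2 ^ (n - m - 1) = 2 ^ (n - m) := by
    rw [← pow_succ']
    congr 1
    omega
  have hm1 : 1 ≤ 2 ^ m := Nat.one_le_two_pow
  have hsz : 2 * γ.card + 2 ^ (n - m) = 2 ^ n := by
    rw [hcardγ, Nat.mul_sub, mul_one, Nat.mul_sub, h2n, h2nm]
    have : 2 ^ (n - m) ≤ 2 ^ n := Nat.pow_le_pow_right (by norm_num) (by omega)
    omega
  have hpos : 0 < 2 ^ (n - m) := by positivity
  -- the Gauss sum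
  set β := fun a b => f (a + b) + f a + f b + f 0 with hβ
  have hβ' : ∀ x a b, f (x + a + b) + f (x + a) + f (x + b) + f x = β a b := hpol
  obtain ⟨K, hK, hS⟩ := LinD.gauss_sq (fun x => f x + f 0) β (by
      intro x y
      change f (x + y) + f 0 = f x + f 0 + (f y + f 0) + (f (x + y) + f x + f y + f 0)
      linear_combination (-f x - f y - f 0) * (by rfl : (2 : ZMod 2) = 0))
    (polar_hadd' hβ') (polar_hadd hβ')
  have hKp : K = perS f := by
    ext z
    rw [hK, mem_perS, hper]
    constructor
    · intro h1 y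
      have := h1 y
      rw [polar_hsym hβ'] at this
      exact this
    · intro h1 y
      rw [polar_hsym hβ']
      exact h1 y
  have hsum : ∑ x : Vec n, sgn (f x + f 0) = sgn (f 0) * (2 ^ (n - m) : ℤ) := by
    have h1 : ∀ x : Vec n, sgn (f x + f 0) = sgn (f 0) * (1 - 2 * (if x ∈ γ then 1 else 0)) := by
      intro x
      rw [sgn_add, mul_comm]
      congr 1
      rw [hf, ind]
      split_ifs <;> simp [sgn]
    rw [Finset.sum_congr rfl (fun x _ => h1 x), ← Finset.mul_sum, Finset.sum_sub_distrib,
      ← Finset.mul_sum, Finset.sum_boole, Finset.sum_const, Finset.card_univ, card_vec]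
    congr 1
    have h3 : (univ.filter (fun x => x ∈ γ)) = γ := by
      ext x
      simp
    rw [h3]
    have h4 : (2 : ℤ) * γ.card + 2 ^ (n - m) = 2 ^ n := by exact_mod_cast hsz
    simp only [nsmul_eq_mul, mul_one]
    push_cast
    linear_combination (-1) * h4
  rw [hsum] at hS
  have h5 : sgn (f 0) * (2 ^ (n - m) : ℤ) * (sgn (f 0) * (2 ^ (n - m) : ℤ)) =
      2 ^ (n - m) * 2 ^ (n - m) := by
    linear_combination (2 ^ (n - m) * 2 ^ (n - m) : ℤ) * sgn_mul_self (f 0)
  rw [h5] at hS
  have hVn : Nat.card (Vec n) = 2 ^ n := by rw [Nat.card_eq_fintype_card, card_vec]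
  refine ⟨hpol, hper, hm, ?_, ?_⟩
  · rcases hS with h6 | h6
    · exfalso
      have : (0 : ℤ) < 2 ^ (n - m) * 2 ^ (n - m) := by positivity
      omega
    · rw [hVn, hKp] at h6
      have h7 : 2 ^ (n - m) * 2 ^ (n - m) = 2 ^ n * Nat.card (perS f) := by exact_mod_cast h6
      have h8 : 2 ^ (n - m) * 2 ^ (n - m) = 2 ^ n * 2 ^ (n - 2 * m) := by
        rw [← pow_add, ← pow_add]
        congr 1
        omega
      rw [h8] at h7
      have h9 : 2 ^ (n - 2 * m) = Nat.card (perS f) := Nat.eq_of_mul_eq_mul_left (by positivity) h7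
      rw [← h9, hVn, ← pow_add]
      congr 1
      omega
  · rw [card_vec]
    omega

/-- The classification for any finite `V` with `x + x = 0`. -/
theorem class_gen {V : Type*} [AddCommGroup V] [Fintype V] [DecidableEq V]
    (h2 : ∀ x : V, x + x = 0) {γ : Finset V} (hγ : SITSet γ) (hne : γ.Nonempty)
    (hcard : 2 * γ.card ≤ Fintype.card V) :
    (∀ p ∈ γ, ∀ q ∈ γ, ∀ r ∈ γ, p + q + r ∈ γ) ∨
      ∃ (β : V → V → ZMod 2) (m : ℕ), QData γ (ind γ) β m := by
  classical
  let _ : Module (ZMod 2) V := AddCommGroup.zmodModule (n := 2) (fun x => by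
    rw [two_nsmul]
    exact h2 x)
  let e : V ≃ₗ[ZMod 2] (Fin (Module.finrank (ZMod 2) V) → ZMod 2) :=
    (Module.finBasis (ZMod 2) V).equivFun
  set n := Module.finrank (ZMod 2) V with hn
  let γ' : Finset (Vec n) := γ.image e
  have hmem : ∀ x, e x ∈ γ' ↔ x ∈ γ := by
    intro x
    rw [Finset.mem_image]
    constructor
    · rintro ⟨y, hy, hxy⟩
      rwa [← e.injective hxy]
    · intro hx
      exact ⟨x, hx, rfl⟩
  have hmem' : ∀ y, y ∈ γ' ↔ e.symm y ∈ γ := by
    intro y
    rw [← hmem, e.apply_symm_apply]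
  have hcard' : γ'.card = γ.card := Finset.card_image_of_injective _ e.injective
  have hVcard : Fintype.card V = 2 ^ n := by
    rw [Fintype.card_congr e.toEquiv, card_vec]
  have hS : SITSet γ' := by
    intro u hu u' hu' w hw w' hw'
    rw [hmem'] at hu hu' hw hw'
    obtain ⟨h, h1, h3, h4, h5⟩ := hγ _ hu _ hu' _ hw _ hw'
    refine ⟨(e.symm.toEquiv.trans h).trans e.toEquiv, ?_, ?_, ?_, ?_⟩
    · intro x y
      change e (h (e.symm (x + y))) = e (h (e.symm x)) + e (h (e.symm y)) + e (h (e.symm 0))
      rw [map_add e.symm, h1, map_add e, map_add e, map_zero e.symm]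
    · intro x
      change e (h (e.symm x)) ∈ γ' ↔ x ∈ γ'
      rw [hmem, h3, hmem']
    · change e (h (e.symm u)) = w
      rw [h4, e.apply_symm_apply]
    · change e (h (e.symm u')) = w'
      rw [h5, e.apply_symm_apply]
  have hne' : γ'.Nonempty := by
    rw [← Finset.card_pos, hcard', Finset.card_pos]
    exact hne
  rcases sit_set_classification hS hne' (by rw [hcard', ← hVcard]; exact hcard) with
    ⟨A, hA⟩ | ⟨m, h, hm, hQ⟩
  · left
    intro p hp q hq r hr
    rw [← hmem] at hp hq hr ⊢
    rw [direction_mem_iff hA hr] at hp hq ⊢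
    have h3 := A.direction.add_mem hp hq
    rw [map_add, map_add]
    have h4 : e p + e q + e r + e r = e p + e r + (e q + e r) := by abel
    rw [h4]
    exact h3
  · right
    have hd := qdata_vec h hm hQ
    have hind : ∀ x, ind γ' (e x) = ind γ x := by
      intro x
      rw [ind, ind]
      simp only [hmem]
    have hper : ∀ r, (∀ x, ind γ (x + r) = ind γ x) ↔ ∀ x, ind γ' (x + e r) = ind γ' x := by
      intro r
      constructor
      · intro h1 x
        obtain ⟨x, rfl⟩ := e.surjective x
        rw [← map_add, hind, hind, h1]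
      · intro h1 x
        rw [← hind, ← hind, map_add, h1]
    refine ⟨fun a b => ind γ' (e a + e b) + ind γ' (e a) + ind γ' (e b) + ind γ' 0, m,
      ?_, ?_, hm, ?_, ?_⟩
    · intro x a b
      have := hd.polar (e x) (e a) (e b)
      simp only [← map_add, hind] at this
      simp only [← map_add, hind]
      exact this
    · intro r
      rw [hper, hd.period]
      constructor
      · intro h1 y
        exact h1 (e y)
      · intro h1 y
        obtain ⟨y, rfl⟩ := e.surjective y
        exact h1 y
    · have h5 : Nat.card (perS (ind γ)) = Nat.card (perS (ind γ')) := by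
        apply Nat.card_congr
        refine ⟨fun x => ⟨e x.1, (hper x.1).1 x.2⟩, fun y => ⟨e.symm y.1, (hper _).2 (by
          rw [e.apply_symm_apply]
          exact y.2)⟩, fun x => Subtype.ext (e.symm_apply_apply _),
          fun y => Subtype.ext (e.apply_symm_apply _)⟩
      rw [h5, ← hd.card]
      exact Nat.card_congr e.toEquiv
    · have := hd.lt
      rw [hcard', card_vec, ← hVcard] at this
      exact this

end Pool.Agent.SIT
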