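import Mathlib

/-!
# Definitions: strongly incidence-transitive codes in Johnson graphs over `F_2^n`
-/

namespace Pool.Agent.SIT

/-- The vector space `F_2^n`. -/
abbrev Vec (n : ℕ) : Type := Fin n → ZMod 2

/-- The affine group `AGL(n, 2)` acting on `F_2^n`. -/
abbrev AGL (n : ℕ) : Type := Vec n ≃ᵃ[ZMod 2] Vec n

/-- The image of a finite subset of `F_2^n` under an affine permutation. -/
def act {n : ℕ} (g : AGL n) (γ : Finset (Vec n)) : Finset (Vec n) := γ.image g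

/-- `G` acts 2-transitively on `F_2^n`. -/
def IsTwoTransitive {n : ℕ} (G : Subgroup (AGL n)) : Prop :=
  ∀ x y x' y' : Vec n, x ≠ y → x' ≠ y' → ∃ g ∈ G, g x = x' ∧ g y = y'

/-- `C` is a `G`-strongly incidence-transitive code in the Johnson graph `J(F_2^n, k)`:
its members are `k`-subsets, `G` stabilises `C`, and `G` is transitive on the triples
`(u, u', γ)` with `γ ∈ C`, `u ∈ γ`, `u' ∉ γ`. -/
structure IsSITCode {n : ℕ} (G : Subgroup (AGL n)) (k : ℕ) (C : Set (Finset (Vec n))) : Prop where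
  card_eq : ∀ γ ∈ C, γ.card = k
  invariant : ∀ g ∈ G, ∀ γ ∈ C, act g γ ∈ C
  transitive : ∀ γ ∈ C, ∀ u ∈ γ, ∀ u' ∉ γ, ∀ δ ∈ C, ∀ w ∈ δ, ∀ w' ∉ δ,
    ∃ g ∈ G, act g γ = δ ∧ g u = w ∧ g u' = w'

/-- All `d`-dimensional affine subspaces of `F_2^n`. -/
def FlatCode (n d : ℕ) : Set (Finset (Vec n)) :=
  {γ | ∃ A : AffineSubspace (ZMod 2) (Vec n),
    (γ : Set (Vec n)) = (A : Set (Vec n)) ∧ Module.finrank (ZMod 2) A.direction = d}

/-- The quadratic form `x₀ x₁ + x₂ x₃ + ⋯ + x_{2m-2} x_{2m-1}` on `F_2^n`, `2m ≤ n`. -/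
def quadForm {n m : ℕ} (h : 2 * m ≤ n) (x : Vec n) : ZMod 2 :=
  ∑ i : Fin m, x ⟨2 * i.1, by omega⟩ * x ⟨2 * i.1 + 1, by omega⟩

/-- The quadric `x₀ x₁ + x₂ x₃ + ⋯ + x_{2m-2} x_{2m-1} = 1` in `F_2^n`. -/
def quadric {n m : ℕ} (h : 2 * m ≤ n) : Finset (Vec n) :=
  Finset.univ.filter (fun x => quadForm h x = 1)

/-- All images of the quadric `x₀ x₁ + ⋯ + x_{2m-2} x_{2m-1} = 1` under `AGL(n, 2)`. -/
def QuadricCode {n m : ℕ} (h : 2 * m ≤ n) : Set (Finset (Vec n)) :=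
  {γ | ∃ g : AGL n, γ = act g (quadric h)}

end Pool.Agent.SIT
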