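import Pool.Agent.SIT.NormalForm
import Pool.Agent.SIT.Defs

/-!
# Coordinates for the normal form
-/

namespace Pool.Agent.SIT

open Finset

lemma extend_linearIndependent {W : Type*} [AddCommGroup W] [Module (ZMod 2) W]
    [Module.Finite (ZMod 2) W] (n : ℕ) (hn : Module.finrank (ZMod 2) W = n) :
    ∀ (k p : ℕ) (hpk : p + k = n) (l : Fin p → W), LinearIndependent (ZMod 2) l →
      ∃ l' : Fin n → W, LinearIndependent (ZMod 2) l' ∧
        ∀ i : Fin p, l' (Fin.castLE (by omega) i) = l i := by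
  intro k
  induction k with
  | zero =>
    intro p hp l hl
    have hpn : p = n := by omega
    subst hpn
    exact ⟨l, hl, fun i => rfl⟩
  | succ k ih =>
    intro p hp l hl
    obtain ⟨x, hx⟩ := exists_linearIndependent_snoc_of_lt_finrank hl (by omega)
    obtain ⟨l', h1, h2⟩ := ih (p + 1) (by omega) _ hx
    refine ⟨l', h1, ?_⟩
    intro i
    have := h2 i.castSucc
    rw [Fin.snoc_castSucc] at this
    rw [← this]
    rfl

lemma exists_coords {V : Type*} [AddCommGroup V] [Module (ZMod 2) V]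
    [Module.Finite (ZMod 2) V] (n : ℕ) (hn : Module.finrank (ZMod 2) V = n) (p : ℕ)
    (l : Fin p → Module.Dual (ZMod 2) V) (hl : LinearIndependent (ZMod 2) l) :
    ∃ (h : p ≤ n) (L : V ≃ₗ[ZMod 2] (Fin n → ZMod 2)), ∀ (x : V) (i : Fin p),
      L x (Fin.castLE h i) = l i x := by
  have hnd : Module.finrank (ZMod 2) (Module.Dual (ZMod 2) V) = n := by
    rw [Subspace.dual_finrank_eq, hn]
  have hpn : p ≤ n := by
    have := hl.fintype_card_le_finrank
    rw [hnd, Fintype.card_fin] at this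
    exact this
  obtain ⟨l', h1, h2⟩ := extend_linearIndependent n hnd (n - p) p (by omega) l hl
  have hspan : Submodule.span (ZMod 2) (Set.range l') = ⊤ := by
    apply h1.span_eq_top_of_card_eq_finrank'
    rw [hnd, Fintype.card_fin]
  let L : V →ₗ[ZMod 2] (Fin n → ZMod 2) := LinearMap.pi l'
  have hinj : Function.Injective L := by
    rw [injective_iff_map_eq_zero]
    intro x hx
    rw [← Module.forall_dual_apply_eq_zero_iff (ZMod 2) x]
    intro φ
    have hφ : φ ∈ Submodule.span (ZMod 2) (Set.range l') := by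
      rw [hspan]
      exact Submodule.mem_top
    induction hφ using Submodule.span_induction with
    | mem φ hφ =>
      obtain ⟨i, rfl⟩ := hφ
      exact congrFun hx i
    | zero => rfl
    | add φ ψ _ _ h1 h2 => rw [LinearMap.add_apply, h1, h2, add_zero]
    | smul c φ _ h1 => rw [LinearMap.smul_apply, h1, smul_zero]
  have hfr : Module.finrank (ZMod 2) V = Module.finrank (ZMod 2) (Fin n → ZMod 2) := by
    rw [hn]
    simp
  refine ⟨hpn, LinearEquiv.ofInjectiveOfFinrankEq L hinj hfr, ?_⟩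
  intro x i
  rw [← h2 i]
  rfl

theorem exists_quadForm {V : Type*} [AddCommGroup V] [Module (ZMod 2) V]
    [Module.Finite (ZMod 2) V] (n : ℕ) (hn : Module.finrank (ZMod 2) V = n) {f : V → ZMod 2}
    (hf : NF f) : ∃ (m : ℕ) (h : 2 * m ≤ n) (e : V ≃ᵃ[ZMod 2] (Fin n → ZMod 2)) (c : ZMod 2),
      ∀ x, f x = quadForm h (e x) + c := by
  obtain ⟨ι, hι, l, l', α, α', c, hind, -, hform⟩ := hf
  let m := Fintype.card ι
  let eq : ι ≃ Fin m := Fintype.equivFin ι
  let lam : Fin m × Fin 2 → Module.Dual (ZMod 2) V := fun p =>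
    if p.2 = 0 then l (eq.symm p.1) else l' (eq.symm p.1)
  have hlam : LinearIndependent (ZMod 2) lam := by
    rw [Fintype.linearIndependent_iff]
    intro g hg
    have h1 := hind (fun i => g (eq i, 0)) (fun i => g (eq i, 1)) (by
      intro x
      have h2 := LinearMap.congr_fun hg x
      rw [LinearMap.sum_apply, Fintype.sum_prod_type] at h2
      simp only [Fin.sum_univ_two, LinearMap.smul_apply, smul_eq_mul, LinearMap.zero_apply] at h2
      rw [← Equiv.sum_comp eq] at h2
      simpa [lam] using h2)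
    rintro ⟨i, k⟩
    have h2 := h1 (eq.symm i)
    rw [Equiv.apply_symm_apply] at h2
    fin_cases k
    · exact h2.1
    · exact h2.2
  have hlam' : LinearIndependent (ZMod 2) (lam ∘ (finProdFinEquiv : Fin m × Fin 2 ≃ _).symm) :=
    hlam.comp _ (Equiv.injective _)
  obtain ⟨h, L, hL⟩ := exists_coords n hn (m * 2) _ hlam'
  have hL0 : ∀ (x : V) (i : Fin m), L x ⟨2 * i.1, by omega⟩ = l (eq.symm i) x := by
    intro x i
    have h1 := hL x (finProdFinEquiv (i, (0 : Fin 2)))
    have h2 : Fin.castLE h (finProdFinEquiv (i, (0 : Fin 2))) = ⟨2 * i.1, by omega⟩ := by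
      apply Fin.ext
      simp
    rw [h2] at h1
    rw [h1]
    simp [lam]
  have hL1 : ∀ (x : V) (i : Fin m), L x ⟨2 * i.1 + 1, by omega⟩ = l' (eq.symm i) x := by
    intro x i
    have h1 := hL x (finProdFinEquiv (i, (1 : Fin 2)))
    have h2 : Fin.castLE h (finProdFinEquiv (i, (1 : Fin 2))) = ⟨2 * i.1 + 1, by omega⟩ := by
      apply Fin.ext
      simp
      omega
    rw [h2] at h1
    rw [h1]
    simp [lam]
  let v : Fin n → ZMod 2 := fun j =>
    if hj : j.1 / 2 < m then
      (if j.1 % 2 = 0 then α (eq.symm ⟨j.1 / 2, hj⟩) else α' (eq.symm ⟨j.1 / 2, hj⟩))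
    else 0
  have hv0 : ∀ i : Fin m, v ⟨2 * i.1, by omega⟩ = α (eq.symm i) := by
    intro i
    have h1 : 2 * i.1 / 2 = i.1 := by omega
    have h2 : 2 * i.1 % 2 = 0 := by omega
    simp only [v, h1, h2, i.2, dif_pos, if_true]
  have hv1 : ∀ i : Fin m, v ⟨2 * i.1 + 1, by omega⟩ = α' (eq.symm i) := by
    intro i
    have h1 : (2 * i.1 + 1) / 2 = i.1 := by omega
    have h2 : (2 * i.1 + 1) % 2 = 1 := by omega
    simp only [v, h1, h2, i.2, dif_pos]
    simp
  refine ⟨m, by omega, L.toAffineEquiv.trans (AffineEquiv.constVAdd (ZMod 2) _ v), c, ?_⟩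
  intro x
  rw [hform, quadForm, ← Equiv.sum_comp eq.symm]
  congr 1
  apply Finset.sum_congr rfl
  intro i _
  simp only [AffineEquiv.trans_apply, LinearEquiv.coe_toAffineEquiv, AffineEquiv.constVAdd_apply,
    vadd_eq_add, Pi.add_apply]
  rw [hL0, hL1, hv0, hv1]
  ring

end Pool.Agent.SIT
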