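import Pool.Agent.SIT.Coords

/-!
# The number of points of the standard quadric
-/

namespace Pool.Agent.SIT

open Finset

lemma quadForm_succ {n m : ℕ} (h : 2 * (m + 1) ≤ n) (x : Fin n → ZMod 2) :
    quadForm h x = quadForm (m := m) (by omega) x +
      x ⟨2 * m, by omega⟩ * x ⟨2 * m + 1, by omega⟩ := by
  rw [quadForm, Fin.sum_univ_castSucc]
  rfl

lemma quadForm_add_single {n m : ℕ} (h : 2 * m ≤ n) (x : Fin n → ZMod 2) (j : Fin n)
    (hj : 2 * m ≤ j.1) : quadForm h (x + Pi.single j 1) = quadForm h x := by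
  rw [quadForm, quadForm]
  apply Finset.sum_congr rfl
  intro i _
  have h1 : (⟨2 * i.1, by omega⟩ : Fin n) ≠ j := by
    intro h'
    have := congrArg Fin.val h'
    simp only at this
    omega
  have h2 : (⟨2 * i.1 + 1, by omega⟩ : Fin n) ≠ j := by
    intro h'
    have := congrArg Fin.val h'
    simp only at this
    omega
  simp [h1, h2]

lemma two_mul_sum_succ {n m : ℕ} (h : 2 * (m + 1) ≤ n) :
    2 * ∑ x : Fin n → ZMod 2, sgn (quadForm h x) =
      ∑ x : Fin n → ZMod 2, sgn (quadForm (m := m) (by omega) x) := by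
  set i : Fin n := ⟨2 * m, by omega⟩ with hi
  set j : Fin n := ⟨2 * m + 1, by omega⟩ with hj
  have hij : j ≠ i := by
    intro h'
    have := congrArg Fin.val h'
    simp [hi, hj] at this
  set G : (Fin n → ZMod 2) → ℤ := fun x => sgn (quadForm (m := m) (by omega) x) with hG
  have hGi : ∀ x, G (x + Pi.single i 1) = G x := by
    intro x
    simp only [hG]
    rw [quadForm_add_single]
    simp [hi]
  have hGj : ∀ x, G (x + Pi.single j 1) = G x := by
    intro x
    simp only [hG]
    rw [quadForm_add_single]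
    simp [hj]
  have h1 : ∑ x : Fin n → ZMod 2, sgn (quadForm h x) = ∑ x, G x * sgn (x i * x j) := by
    apply Finset.sum_congr rfl
    intro x _
    rw [quadForm_succ, sgn_add]
  have h2 : ∑ x, G x * sgn (x i * x j) = ∑ x, G x * (sgn (x i * x j) * sgn (x j)) := by
    rw [← Equiv.sum_comp (Equiv.addRight (Pi.single i 1 : Fin n → ZMod 2))
      (fun x => G x * sgn (x i * x j))]
    apply Finset.sum_congr rfl
    intro x _
    simp only [Equiv.coe_addRight]
    rw [hGi]
    simp only [Pi.add_apply, Pi.single_eq_same, Pi.single_eq_of_ne hij, add_zero]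
    rw [add_mul, one_mul, sgn_add]
  have h3 : ∑ x, G x * sgn (x j) = 0 := by
    have h4 : ∑ x, G x * sgn (x j) = - ∑ x, G x * sgn (x j) := by
      conv_lhs => rw [← Equiv.sum_comp (Equiv.addRight (Pi.single j 1 : Fin n → ZMod 2))
        (fun x => G x * sgn (x j))]
      rw [← Finset.sum_neg_distrib]
      apply Finset.sum_congr rfl
      intro x _
      simp only [Equiv.coe_addRight]
      rw [hGj]
      simp only [Pi.add_apply, Pi.single_eq_same]
      rw [sgn_add, sgn_one]
      ring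
    omega
  have h5 : ∀ a b : ZMod 2, sgn (a * b) + sgn (a * b) * sgn b = 1 + sgn b := by decide
  calc 2 * ∑ x : Fin n → ZMod 2, sgn (quadForm h x)
      = ∑ x, G x * sgn (x i * x j) + ∑ x, G x * (sgn (x i * x j) * sgn (x j)) := by
        rw [h1, ← h2]; ring
    _ = ∑ x, (G x + G x * sgn (x j)) := by
        rw [← Finset.sum_add_distrib]
        apply Finset.sum_congr rfl
        intro x _
        rw [← mul_add, h5]
        ring
    _ = ∑ x, G x := by
        rw [Finset.sum_add_distrib, h3, add_zero]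

lemma pow_mul_sum {n : ℕ} : ∀ {m : ℕ} (h : 2 * m ≤ n),
    2 ^ m * ∑ x : Fin n → ZMod 2, sgn (quadForm h x) = 2 ^ n := by
  intro m
  induction m with
  | zero =>
    intro h
    simp [quadForm, sgn_zero]
  | succ m ih =>
    intro h
    rw [pow_succ, mul_assoc, two_mul_sum_succ h]
    exact ih _

lemma sum_sgn_quadForm {n m : ℕ} (h : 2 * m ≤ n) :
    ∑ x : Fin n → ZMod 2, sgn (quadForm h x) = 2 ^ (n - m) := by
  have h1 := pow_mul_sum h
  have h2 : (2 : ℤ) ^ n = 2 ^ m * 2 ^ (n - m) := by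
    rw [← pow_add]
    congr 1
    omega
  rw [h2] at h1
  exact mul_left_cancel₀ (by positivity) h1

lemma mem_quadric {n m : ℕ} (h : 2 * m ≤ n) {x : Fin n → ZMod 2} :
    x ∈ quadric h ↔ quadForm h x = 1 := by
  simp [quadric]

lemma card_quadric {n m : ℕ} (h : 2 * m ≤ n) (hm : 1 ≤ m) :
    (quadric h).card = 2 ^ (n - m - 1) * (2 ^ m - 1) := by
  have h1 := sum_sgn_quadForm h
  have h2 : ∀ x : Fin n → ZMod 2, sgn (quadForm h x) =
      1 - 2 * (if quadForm h x = 1 then 1 else 0) := by
    intro x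
    generalize quadForm h x = c
    revert c
    decide
  rw [Finset.sum_congr rfl (fun x _ => h2 x), Finset.sum_sub_distrib, ← Finset.mul_sum] at h1
  have h3 : ∑ x : Fin n → ZMod 2, (if quadForm h x = 1 then (1 : ℤ) else 0) =
      ((quadric h).card : ℤ) := by
    rw [quadric, Finset.card_filter]
    push_cast
    rfl
  rw [h3] at h1
  simp only [Finset.sum_const, Finset.card_univ, nsmul_eq_mul, mul_one, Fintype.card_pi,
    ZMod.card, Finset.prod_const, Fintype.card_fin] at h1
  have h4 : (2 : ℤ) ^ n = 2 * (2 ^ (n - m - 1) * 2 ^ m) := by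
    rw [← pow_add, ← pow_succ']
    congr 1
    omega
  have h5 : (2 : ℤ) ^ (n - m) = 2 * 2 ^ (n - m - 1) := by
    rw [← pow_succ']
    congr 1
    omega
  push_cast at h1
  rw [h4, h5] at h1
  have h6 : ((quadric h).card : ℤ) = 2 ^ (n - m - 1) * (2 ^ m - 1) := by
    linarith
  have h7 : (1 : ℕ) ≤ 2 ^ m := Nat.one_le_two_pow
  zify [h7]
  exact h6

lemma card_quadric_lt {n m : ℕ} (h : 2 * m ≤ n) (hm : 1 ≤ m) :
    2 * (quadric h).card < 2 ^ n := by
  rw [card_quadric h hm]
  have h4 : (2 : ℕ) ^ n = 2 * (2 ^ (n - m - 1) * 2 ^ m) := by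
    rw [← pow_add, ← pow_succ']
    congr 1
    omega
  rw [h4]
  have h7 : (1 : ℕ) ≤ 2 ^ m := Nat.one_le_two_pow
  have h8 : 2 ^ m - 1 < 2 ^ m := by omega
  have h9 : 0 < 2 ^ (n - m - 1) := by positivity
  have h10 := Nat.mul_lt_mul_of_pos_left h8 h9
  omega

end Pool.Agent.SIT
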