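import Pool.Agent.SIT.Main

/-!
# The flats and the quadrics are strongly incidence-transitive codes
-/

namespace Pool.Agent.SIT

open Finset

lemma twoTransitive_top (n : ℕ) : IsTwoTransitive (⊤ : Subgroup (AGL n)) := by
  intro x y x' y' hxy hxy'
  -- translate `x` to `x'`
  let g₁ : AGL n := AffineEquiv.constVAdd (ZMod 2) (Vec n) (x' + x)
  have hg₁ : ∀ z, g₁ z = (x' + x) + z := fun z => rfl
  have h1 : g₁ x = x' := by
    rw [hg₁, add_add_self]
  have h2 : g₁ y + x' ∉ (⊥ : Submodule (ZMod 2) (Vec n)) := by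
    rw [Submodule.mem_bot, hg₁]
    intro h
    apply hxy
    have h3 : x' + x + y + x' = x + y := by
      have := add_self' x'
      calc x' + x + y + x' = x + y + (x' + x') := by abel
        _ = _ := by rw [this, add_zero]
    rw [h3] at h
    have := add_add_self x y
    rw [h, zero_add] at this
    exact this.symm
  have h4 : y' + x' ∉ (⊥ : Submodule (ZMod 2) (Vec n)) := by
    rw [Submodule.mem_bot]
    intro h
    apply hxy'
    have := add_add_self y' x'
    rw [h, zero_add] at this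
    exact this
  have h5 : x' + x' ∈ (⊥ : Submodule (ZMod 2) (Vec n)) := by
    rw [Submodule.mem_bot, add_self']
  obtain ⟨g, -, h6, h7⟩ := flat_transitive (⊥ : Submodule (ZMod 2) (Vec n)) x' h5 h5 h2 h4
  refine ⟨g * g₁, Subgroup.mem_top _, ?_, ?_⟩
  · change g (g₁ x) = x'
    rw [h1, h6]
  · change g (g₁ y) = y'
    exact h7

/-- If a family is invariant under `AGL(n, 2)`, the members being transitively permuted through
a fixed member `S`, whose stabiliser is transitive on `S × Sᶜ`, it is an SIT code. -/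
lemma isSIT_of_base {n : ℕ} (C : Set (Finset (Vec n))) (S₀ : Finset (Vec n)) (k : ℕ)
    (hC : ∀ γ, γ ∈ C ↔ ∃ g : AGL n, γ = act g S₀) (hk : S₀.card = k)
    (hS : ∀ u ∈ S₀, ∀ u' ∉ S₀, ∀ w ∈ S₀, ∀ w' ∉ S₀,
      ∃ g : AGL n, (∀ x, g x ∈ S₀ ↔ x ∈ S₀) ∧ g u = w ∧ g u' = w') :
    IsSITCode ⊤ k C := by
  refine ⟨?_, ?_, ?_⟩
  · intro γ hγ
    obtain ⟨g, rfl⟩ := (hC γ).1 hγ
    rw [card_act, hk]
  · intro g _ γ hγ
    obtain ⟨h, rfl⟩ := (hC γ).1 hγ
    rw [hC]
    exact ⟨g * h, by rw [act_mul]⟩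
  · intro γ hγ u hu u' hu' δ hδ w hw w' hw'
    obtain ⟨a, rfl⟩ := (hC γ).1 hγ
    obtain ⟨b, rfl⟩ := (hC δ).1 hδ
    rw [mem_act'] at hu hu' hw hw'
    obtain ⟨g, h1, h2, h3⟩ := hS _ hu _ hu' _ hw _ hw'
    refine ⟨b * g * a.symm, Subgroup.mem_top _, ?_, ?_, ?_⟩
    · rw [act_mul, act_symm_act, act_mul]
      congr 1
      rw [act_eq_iff]
      exact h1
    · change b (g (a.symm u)) = w
      rw [h2, b.apply_symm_apply]
    · change b (g (a.symm u')) = w'
      rw [h3, b.apply_symm_apply]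

/-- Translations move a proper nonempty subset. -/
lemma nontrivial_of_translate {n : ℕ} {C : Set (Finset (Vec n))}
    (hC : ∀ g : AGL n, ∀ γ ∈ C, act g γ ∈ C) {γ : Finset (Vec n)} (hγ : γ ∈ C)
    {u u' : Vec n} (hu : u ∈ γ) (hu' : u' ∉ γ) : C.Nontrivial := by
  refine ⟨γ, hγ, act (AffineEquiv.constVAdd (ZMod 2) (Vec n) (u + u')) γ, hC _ γ hγ, ?_⟩
  intro h
  apply hu'
  rw [h]
  have h1 := (mem_act (AffineEquiv.constVAdd (ZMod 2) (Vec n) (u + u')) γ u).2 hu
  have h2 : (AffineEquiv.constVAdd (ZMod 2) (Vec n) (u + u')) u = u' := by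
    change (u + u') + u = u'
    have := add_self' u
    calc u + u' + u = u' + (u + u) := by abel
      _ = u' := by rw [this, add_zero]
  rw [h2] at h1
  exact h1

lemma exists_notMem_of_card {n k : ℕ} {γ : Finset (Vec n)} (h : γ.card = k) (hk : k < 2 ^ n) :
    ∃ u', u' ∉ γ := by
  by_contra hcon
  push Not at hcon
  rw [Finset.eq_univ_of_forall hcon, Finset.card_univ, card_vec] at h
  omega

/-! ### Quadrics -/

lemma quadForm_polar {n m : ℕ} (h : 2 * m ≤ n) (x a : Vec n) :
    quadForm h (x + a) + quadForm h x =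
      (∑ i : Fin m, (a ⟨2 * i.1 + 1, by omega⟩ * x ⟨2 * i.1, by omega⟩ +
        a ⟨2 * i.1, by omega⟩ * x ⟨2 * i.1 + 1, by omega⟩)) + quadForm h a := by
  simp only [quadForm, Pi.add_apply]
  rw [← Finset.sum_add_distrib, ← Finset.sum_add_distrib]
  apply Finset.sum_congr rfl
  intro i _
  have h2 : (2 : ZMod 2) = 0 := rfl
  linear_combination (x ⟨2 * i.1, by omega⟩ * x ⟨2 * i.1 + 1, by omega⟩) * h2

lemma quadForm_QF {n m : ℕ} (h : 2 * m ≤ n) : QF (quadForm h) := by
  intro a
  refine ⟨∑ i : Fin m, (a ⟨2 * i.1 + 1, by omega⟩ • LinearMap.proj ⟨2 * i.1, by omega⟩ +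
    a ⟨2 * i.1, by omega⟩ • LinearMap.proj ⟨2 * i.1 + 1, by omega⟩), quadForm h a, ?_⟩
  intro x
  rw [quadForm_polar]
  congr 1
  rw [LinearMap.sum_apply]
  rfl

lemma quadForm_rad {n m : ℕ} (h : 2 * m ≤ n) (a : Vec n) (ha : Rad (quadForm h) a) :
    ∀ x, quadForm h (x + a) = quadForm h x := by
  obtain ⟨c, hc⟩ := ha
  have hlin : ∀ x : Vec n, ∑ i : Fin m, (a ⟨2 * i.1 + 1, by omega⟩ * x ⟨2 * i.1, by omega⟩ +
      a ⟨2 * i.1, by omega⟩ * x ⟨2 * i.1 + 1, by omega⟩) = 0 := by
    intro x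
    have h1 := hc x
    have h2 := hc 0
    rw [quadForm_polar] at h1 h2
    simp only [Pi.zero_apply, mul_zero, add_zero, Finset.sum_const_zero, zero_add] at h2
    rw [← h2] at h1
    have h3 := z2_add_self (quadForm h a)
    linear_combination h1
  have h0 : ∀ i : Fin m, a ⟨2 * i.1 + 1, by omega⟩ = 0 := by
    intro i
    have h1 := hlin (Pi.single ⟨2 * i.1, by omega⟩ 1)
    rw [Finset.sum_eq_single i] at h1
    · simpa using h1
    · intro j _ hj
      have h2 : (⟨2 * j.1, by omega⟩ : Fin n) ≠ ⟨2 * i.1, by omega⟩ := by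
        intro h'
        apply hj
        apply Fin.ext
        have := congrArg Fin.val h'
        simp only at this
        omega
      have h3 : (⟨2 * j.1 + 1, by omega⟩ : Fin n) ≠ ⟨2 * i.1, by omega⟩ := by
        intro h'
        have := congrArg Fin.val h'
        simp only at this
        omega
      simp [h2, h3]
    · intro hi
      exact absurd (mem_univ i) hi
  have h1 : ∀ i : Fin m, a ⟨2 * i.1, by omega⟩ = 0 := by
    intro i
    have h1 := hlin (Pi.single ⟨2 * i.1 + 1, by omega⟩ 1)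
    rw [Finset.sum_eq_single i] at h1
    · simpa using h1
    · intro j _ hj
      have h2 : (⟨2 * j.1, by omega⟩ : Fin n) ≠ ⟨2 * i.1 + 1, by omega⟩ := by
        intro h'
        have := congrArg Fin.val h'
        simp only at this
        omega
      have h3 : (⟨2 * j.1 + 1, by omega⟩ : Fin n) ≠ ⟨2 * i.1 + 1, by omega⟩ := by
        intro h'
        apply hj
        apply Fin.ext
        have := congrArg Fin.val h'
        simp only at this
        omega
      simp [h2, h3]
    · intro hi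
      exact absurd (mem_univ i) hi
  intro x
  simp only [quadForm, Pi.add_apply]
  apply Finset.sum_congr rfl
  intro i _
  rw [h0, h1, add_zero, add_zero]

lemma quadric_card_lt_compl {n m : ℕ} (h : 2 * m ≤ n) (hm : 1 ≤ m) :
    (univ.filter (fun x : Vec n => quadForm h x = 1)).card <
      (univ.filter (fun x : Vec n => quadForm h x = 0)).card := by
  have h3 := card_quadric_lt h hm
  have h5 := Finset.card_filter_add_card_filter_not (s := (univ : Finset (Vec n)))
    (fun x => quadForm h x = 0)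
  have h6 : univ.filter (fun x : Vec n => ¬ quadForm h x = 0) = quadric h := by
    ext x
    simp only [quadric, mem_filter, mem_univ, true_and]
    generalize quadForm h x = p
    revert p
    decide
  rw [h6, Finset.card_univ, card_vec] at h5
  change (quadric h).card < _
  omega

theorem quadricCode_SIT {n m : ℕ} (h : 2 * m ≤ n) (hm : 1 ≤ m) :
    IsSITCode ⊤ (2 ^ (n - m - 1) * (2 ^ m - 1)) (QuadricCode h) := by
  apply isSIT_of_base (QuadricCode h) (quadric h) _ (fun γ => Iff.rfl) (card_quadric h hm)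
  intro u hu u' hu' w hw w' hw'
  rw [mem_quadric] at hu hu' hw hw'
  have h0 : ∀ x : Vec n, quadForm h x ≠ 1 → quadForm h x = 0 := by
    intro x hx
    rcases zmod2_cases (quadForm h x) with h' | h'
    · exact h'
    · exact absurd h' hx
  obtain ⟨g, h1, h2, h3⟩ := quad_transitive (quadForm_QF h) (quadForm_rad h)
    (quadric_card_lt_compl h hm) hu hw (h0 _ hu') (h0 _ hw')
  refine ⟨g, ?_, h2, h3⟩
  intro x
  rw [mem_quadric, mem_quadric, h1]

theorem quadricCode_nontrivial {n m : ℕ} (h : 2 * m ≤ n) (hm : 1 ≤ m) :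
    (QuadricCode h).Nontrivial := by
  have hS := quadricCode_SIT h hm
  have hmem : quadric h ∈ QuadricCode h := ⟨1, by
    ext x
    rw [mem_act']
    rfl⟩
  have hlt := card_quadric_lt h hm
  obtain ⟨u, hu⟩ : (quadric h).Nonempty := by
    rw [← Finset.card_pos, card_quadric h hm]
    have h1 : 2 ≤ 2 ^ m := by
      calc 2 = 2 ^ 1 := by norm_num
        _ ≤ 2 ^ m := Nat.pow_le_pow_right (by norm_num) hm
    have h2 : 0 < 2 ^ m - 1 := by omega
    positivity
  obtain ⟨u', hu'⟩ := exists_notMem_of_card (γ := quadric h) rfl (by omega)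
  exact nontrivial_of_translate (fun g γ hγ => hS.invariant g (Subgroup.mem_top _) γ hγ)
    hmem hu hu'

/-! ### Flats -/

lemma exists_submodule (n d : ℕ) (hd : d ≤ n) :
    ∃ U : Submodule (ZMod 2) (Vec n), Module.finrank (ZMod 2) U = d := by
  let L : Vec n →ₗ[ZMod 2] (Fin (n - d) → ZMod 2) :=
    LinearMap.funLeft (ZMod 2) (ZMod 2) (Fin.castLE (by omega))
  have hL : Function.Surjective L :=
    LinearMap.funLeft_surjective_of_injective _ _ _ (Fin.castLE_injective _)
  refine ⟨LinearMap.ker L, ?_⟩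
  have h1 := LinearMap.finrank_range_add_finrank_ker L
  rw [LinearMap.range_eq_top.2 hL, finrank_top] at h1
  simp only [Module.finrank_fintype_fun_eq_card, Fintype.card_fin] at h1
  omega

/-- Subspaces of the same dimension are equivalent under `GL(n, 2)`. -/
lemma exists_linearEquiv {n : ℕ} (U U' : Submodule (ZMod 2) (Vec n))
    (h : Module.finrank (ZMod 2) U = Module.finrank (ZMod 2) U') :
    ∃ L : Vec n ≃ₗ[ZMod 2] Vec n, ∀ x, L x ∈ U' ↔ x ∈ U := by
  obtain ⟨W, hW⟩ := U.exists_isCompl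
  obtain ⟨W', hW'⟩ := U'.exists_isCompl
  have h1 := Submodule.finrank_add_eq_of_isCompl hW
  have h2 := Submodule.finrank_add_eq_of_isCompl hW'
  let e₁ : U ≃ₗ[ZMod 2] U' := LinearEquiv.ofFinrankEq _ _ h
  let e₂ : W ≃ₗ[ZMod 2] W' := LinearEquiv.ofFinrankEq _ _ (by omega)
  refine ⟨(Submodule.prodEquivOfIsCompl U W hW).symm.trans
    ((LinearEquiv.prodCongr e₁ e₂).trans (Submodule.prodEquivOfIsCompl U' W' hW')), ?_⟩
  intro x
  obtain ⟨⟨u, w⟩, rfl⟩ := (Submodule.prodEquivOfIsCompl U W hW).surjective x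
  rw [LinearEquiv.trans_apply, LinearEquiv.symm_apply_apply]
  change (e₁ u : Vec n) + (e₂ w : Vec n) ∈ U' ↔ (u : Vec n) + (w : Vec n) ∈ U
  have h3 : ((e₁ u : Vec n) + (e₂ w : Vec n) ∈ U') ↔ (e₂ w : Vec n) ∈ U' :=
    U'.add_mem_iff_right (e₁ u).2
  have h4 : ((u : Vec n) + (w : Vec n) ∈ U) ↔ (w : Vec n) ∈ U := U.add_mem_iff_right u.2
  rw [h3, h4]
  have h5 : (e₂ w : Vec n) ∈ U' ↔ w = 0 := by
    constructor
    · intro h6
      have h7 : (e₂ w : Vec n) ∈ U' ⊓ W' := ⟨h6, (e₂ w).2⟩
      rw [hW'.inf_eq_bot, Submodule.mem_bot] at h7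
      have h8 : e₂ w = 0 := Subtype.ext h7
      exact (LinearEquiv.map_eq_zero_iff e₂).1 h8
    · rintro rfl
      rw [map_zero]
      exact U'.zero_mem
  have h6 : (w : Vec n) ∈ U ↔ w = 0 := by
    constructor
    · intro h6
      have h7 : (w : Vec n) ∈ U ⊓ W := ⟨h6, w.2⟩
      rw [hW.inf_eq_bot, Submodule.mem_bot] at h7
      exact Subtype.ext h7
    · rintro rfl
      exact U.zero_mem
  rw [h5, h6]

theorem flatCode_SIT {n d : ℕ} (hd : 1 ≤ d) : IsSITCode ⊤ (2 ^ d) (FlatCode n d) := by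
  have hne : ∀ γ ∈ FlatCode n d, γ.Nonempty := by
    rintro γ ⟨A, hA, hAd⟩
    rw [← Finset.coe_nonempty, hA]
    rcases A.eq_bot_or_nonempty with h | h
    · rw [h, AffineSubspace.direction_bot, finrank_bot] at hAd
      omega
    · exact h
  refine ⟨?_, ?_, ?_⟩
  · intro γ hγ
    have h1 := hne γ hγ
    obtain ⟨A, hA, hAd⟩ := hγ
    rw [card_flat hA h1, hAd]
  · rintro g _ γ ⟨A, hA, hAd⟩
    refine ⟨A.map g.toAffineMap, ?_, ?_⟩
    · rw [AffineSubspace.coe_map, ← hA, act, Finset.coe_image]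
      rfl
    · rw [AffineSubspace.map_direction]
      rw [← hAd]
      exact LinearEquiv.finrank_map_eq g.linear A.direction
  · rintro γ ⟨A, hA, hAd⟩ u hu u' hu' δ ⟨B, hB, hBd⟩ w hw w' hw'
    obtain ⟨L, hL⟩ := exists_linearEquiv A.direction B.direction (by rw [hAd, hBd])
    let g₁ : AGL n := (L.toAffineEquiv).trans (AffineEquiv.constVAdd (ZMod 2) (Vec n) (L u + w))
    have hg₁ : ∀ x, g₁ x = (L u + w) + L x := fun x => rfl
    have h1 : ∀ x, g₁ x ∈ δ ↔ x ∈ γ := by
      intro x
      rw [direction_mem_iff hB hw, direction_mem_iff hA hu, hg₁]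
      have h2 : L u + w + L x + w = L (x + u) := by
        rw [map_add]
        have := add_self' w
        calc L u + w + L x + w = L x + L u + (w + w) := by abel
          _ = _ := by rw [this, add_zero]
      rw [h2, hL]
    have h2 : g₁ u = w := by
      rw [hg₁]
      have := add_self' (L u)
      calc L u + w + L u = w + (L u + L u) := by abel
        _ = w := by rw [this, add_zero]
    have hgu' : g₁ u' ∉ δ := fun h => hu' ((h1 u').1 h)
    rw [direction_mem_iff hB hw] at hgu'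
    have hw'' := hw'
    rw [direction_mem_iff hB hw] at hw''
    have hww : w + w ∈ B.direction := by
      rw [add_self']
      exact B.direction.zero_mem
    obtain ⟨g₂, h3, h4, h5⟩ := flat_transitive B.direction w hww hww hgu' hw''
    refine ⟨g₂ * g₁, Subgroup.mem_top _, ?_, ?_, ?_⟩
    · rw [act_eq_iff]
      intro x
      change g₂ (g₁ x) ∈ δ ↔ x ∈ γ
      rw [direction_mem_iff hB hw, h3, ← direction_mem_iff hB hw, h1]
    · change g₂ (g₁ u) = w
      rw [h2, h4]
    · exact h5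

theorem flatCode_nontrivial {n d : ℕ} (hd : 1 ≤ d) (hdn : d < n) :
    (FlatCode n d).Nontrivial := by
  classical
  have hS := flatCode_SIT (n := n) hd
  obtain ⟨U, hU⟩ := exists_submodule n d hdn.le
  let γ : Finset (Vec n) := univ.filter (fun x => x ∈ U)
  have hγ : γ ∈ FlatCode n d := by
    refine ⟨U.toAffineSubspace, ?_, ?_⟩
    · ext x
      simp [γ]
    · rw [Submodule.toAffineSubspace_direction, hU]
  have hu : (0 : Vec n) ∈ γ := by simp [γ]
  obtain ⟨u', hu'⟩ := exists_notMem_of_card (hS.card_eq γ hγ)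
    (Nat.pow_lt_pow_right (by norm_num) hdn)
  exact nontrivial_of_translate (fun g γ hγ => hS.invariant g (Subgroup.mem_top _) γ hγ)
    hγ hu hu'

end Pool.Agent.SIT
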