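import Pool.Agent.SIT.HexF

/-!
# Collinearity in the `G_2(q)` hexagon, `q` even

`Bf` is the alternating form and `Col x y` is the collinearity of the generalised hexagon in the
six-dimensional module, written without square roots. Both are preserved by the elementary maps.
-/

namespace Pool.Agent.SIT.Hex

section char2

variable {F : Type*} [Field F] [CharP F 2]

theorem n2 : (2 : F) = 0 := CharTwo.two_eq_zero
theorem n3 : (3 : F) = 1 := by linear_combination (n2 (F := F))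
theorem n4 : (4 : F) = 0 := by linear_combination 2 * (n2 (F := F))
theorem n5 : (5 : F) = 1 := by linear_combination 2 * (n2 (F := F))
theorem n6 : (6 : F) = 0 := by linear_combination 3 * (n2 (F := F))
theorem n7 : (7 : F) = 1 := by linear_combination 3 * (n2 (F := F))
theorem n8 : (8 : F) = 0 := by linear_combination 4 * (n2 (F := F))
theorem n10 : (10 : F) = 0 := by linear_combination 5 * (n2 (F := F))
theorem n12 : (12 : F) = 0 := by linear_combination 6 * (n2 (F := F))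
theorem n9 : (9 : F) = 1 := by linear_combination 4 * (n2 (F := F))
theorem n14 : (14 : F) = 0 := by linear_combination 7 * (n2 (F := F))
theorem n16 : (16 : F) = 0 := by linear_combination 8 * (n2 (F := F))
theorem n18 : (18 : F) = 0 := by linear_combination 9 * (n2 (F := F))
theorem n20 : (20 : F) = 0 := by linear_combination 10 * (n2 (F := F))
theorem n24 : (24 : F) = 0 := by linear_combination 12 * (n2 (F := F))

end char2

variable {F : Type*} [Field F]

/-- The alternating form. -/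
def Bf (x y : V6 F) : F := dot x.1 y.2 + dot x.2 y.1

/-- Collinearity in the hexagon (for the zero vector the condition holds trivially). -/
def Col (x y : V6 F) : Prop :=
  Bf x y = 0 ∧ (∀ i, Qf x * y.1 i ^ 2 + Qf y * x.1 i ^ 2 = crs x.2 y.2 i ^ 2) ∧
    (∀ i, Qf x * y.2 i ^ 2 + Qf y * x.2 i ^ 2 = crs x.1 y.1 i ^ 2) ∧
    Qf x * Qf y = dot x.1 y.2 ^ 2

lemma crs_zero' (u v : Fin 3 → F) : crs u v 0 = u 1 * v 2 + u 2 * v 1 := rfl

lemma crs_one' (u v : Fin 3 → F) : crs u v 1 = u 2 * v 0 + u 0 * v 2 := rfl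

lemma crs_two' (u v : Fin 3 → F) : crs u v 2 = u 0 * v 1 + u 1 * v 0 := rfl

lemma forall_fin3 {p : Fin 3 → Prop} (h0 : p 0) (h1 : p 1) (h2 : p 2) : ∀ i, p i := by
  intro i
  fin_cases i
  · exact h0
  · exact h1
  · exact h2

lemma Bf_add_left (x x' y : V6 F) : Bf (x + x') y = Bf x y + Bf x' y := by
  simp only [Bf, dot, Prod.fst_add, Prod.snd_add, Pi.add_apply]; ring

lemma Bf_add_right (x y y' : V6 F) : Bf x (y + y') = Bf x y + Bf x y' := by
  simp only [Bf, dot, Prod.fst_add, Prod.snd_add, Pi.add_apply]; ring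

lemma Bf_smul_left (c : F) (x y : V6 F) : Bf (c • x) y = c * Bf x y := by
  simp only [Bf, dot, Prod.smul_fst, Prod.smul_snd, Pi.smul_apply, smul_eq_mul]; ring

lemma Bf_smul_right (c : F) (x y : V6 F) : Bf x (c • y) = c * Bf x y := by
  simp only [Bf, dot, Prod.smul_fst, Prod.smul_snd, Pi.smul_apply, smul_eq_mul]; ring

lemma Bf_comm (x y : V6 F) : Bf x y = Bf y x := by
  simp only [Bf, dot]; ring

lemma Bf_self [CharP F 2] (x : V6 F) : Bf x x = 0 := by
  simp only [Bf, dot]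
  linear_combination (norm := (ring_nf; (try simp only [n2, n3, n4, n5, n6, n7, n8, n9, n10, n12, n14, n16, n18, n20, n24,
    mul_zero, mul_one, zero_mul, one_mul, zero_add, add_zero, neg_zero, sub_zero]); (try ring)))

lemma Col.symm {x y : V6 F} (h : Col x y) : Col y x := by
  obtain ⟨h0, h1, h2, h3⟩ := h
  refine ⟨by rw [Bf_comm]; exact h0, ?_, ?_, ?_⟩
  · intro i
    rw [add_comm, h1]
    fin_cases i <;> simp only [crs] <;> simp <;> ring
  · intro i
    rw [add_comm, h2]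
    fin_cases i <;> simp only [crs] <;> simp <;> ring
  · rw [mul_comm, h3]
    simp only [Bf, dot] at h0 ⊢
    linear_combination (x.1 0 * y.2 0 + x.1 1 * y.2 1 + x.1 2 * y.2 2 -
      (x.2 0 * y.1 0 + x.2 1 * y.1 1 + x.2 2 * y.1 2)) * h0

/-- exchange of the two halves -/
def sw (x : V6 F) : V6 F := (x.2, x.1)

lemma Qf_sw (x : V6 F) : Qf (sw x) = Qf x := by
  simp only [Qf, sw, dot]; ring

lemma Bf_sw (x y : V6 F) : Bf (sw x) (sw y) = Bf x y := by
  simp only [Bf, sw, dot]; ring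

lemma Col.sw {x y : V6 F} (h : Col x y) : Col (sw x) (sw y) := by
  obtain ⟨h0, h1, h2, h3⟩ := h
  refine ⟨by rw [Bf_sw]; exact h0, ?_, ?_, ?_⟩
  · intro i
    rw [Qf_sw, Qf_sw]
    exact h2 i
  · intro i
    rw [Qf_sw, Qf_sw]
    exact h1 i
  · rw [Qf_sw, Qf_sw, h3]
    simp only [Bf, dot, Hex.sw] at h0 ⊢
    linear_combination (x.1 0 * y.2 0 + x.1 1 * y.2 1 + x.1 2 * y.2 2 -
      (x.2 0 * y.1 0 + x.2 1 * y.1 1 + x.2 2 * y.1 2)) * h0

lemma tU_eq (u : Fin 3 → F) (x : V6 F) : tU u x = sw (sU u (sw x)) := rfl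

variable [CharP F 2]

set_option maxRecDepth 100000

lemma Bf_sU (u : Fin 3 → F) (x y : V6 F) : Bf (sU u x) (sU u y) = Bf x y := by
  simp only [Bf, sU, dot, crs_zero', crs_one', crs_two', Pi.add_apply, Pi.smul_apply, smul_eq_mul]
  linear_combination (norm := (ring_nf; (try simp only [n2, n3, n4, n5, n6, n7, n8, n9, n10, n12, n14, n16, n18, n20, n24,
    mul_zero, mul_one, zero_mul, one_mul, zero_add, add_zero, neg_zero, sub_zero]); (try ring)))

lemma Bf_tU (u : Fin 3 → F) (x y : V6 F) : Bf (tU u x) (tU u y) = Bf x y := by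
  rw [tU_eq, tU_eq, Bf_sw, Bf_sU, Bf_sw]

lemma Bf_eU {a b : Fin 3 → F} (h : dot a b = 0) (x y : V6 F) :
    Bf (eU a b x) (eU a b y) = Bf x y := by
  simp only [Bf, eU, dot, Pi.add_apply, Pi.smul_apply, smul_eq_mul] at h ⊢
  linear_combination (norm := (ring_nf; (try simp only [n2, n3, n4, n5, n6, n7, n8, n9, n10, n12, n14, n16, n18, n20, n24,
    mul_zero, mul_one, zero_mul, one_mul, zero_add, add_zero, neg_zero, sub_zero]); (try ring)))
    ((b 0 * x.1 0 + b 1 * x.1 1 + b 2 * x.1 2) * (a 0 * y.2 0 + a 1 * y.2 1 + a 2 * y.2 2) +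
      (a 0 * x.2 0 + a 1 * x.2 1 + a 2 * x.2 2) * (b 0 * y.1 0 + b 1 * y.1 1 + b 2 * y.1 2)) * h

lemma Col_sU (u : Fin 3 → F) {x y : V6 F} (h : Col x y) : Col (sU u x) (sU u y) := by
  obtain ⟨h0, h1, h2, h3⟩ := h
  have h10 := h1 0
  have h11 := h1 1
  have h12 := h1 2
  have h20 := h2 0
  have h21 := h2 1
  have h22 := h2 2
  rw [crs_zero'] at h10 h20
  rw [crs_one'] at h11 h21
  rw [crs_two'] at h12 h22
  refine ⟨by rw [Bf_sU]; exact h0, ?_, ?_, ?_⟩
  · rw [Qf_sU, Qf_sU]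
    apply forall_fin3
    · rw [crs_zero']
      simp only [Bf, sU, dot, Qf, crs_zero', crs_one', crs_two', Pi.add_apply, Pi.smul_apply,
        smul_eq_mul] at h0 h10 h11 h12 h20 h21 h22 h3 ⊢
      linear_combination (norm := (ring_nf; (try simp only [n2, n3, n4, n5, n6, n7, n8, n9, n10, n12, n14, n16, n18, n20, n24,
    mul_zero, mul_one, zero_mul, one_mul, zero_add, add_zero, neg_zero, sub_zero]); (try ring))) h10 + u 0 ^ 2 * (u 0 ^ 2 * h20 + u 1 ^ 2 * h21 +
        u 2 ^ 2 * h22) + u 0 ^ 2 * (x.1 0 * y.2 0 + x.1 1 * y.2 1 + x.1 2 * y.2 2 +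
        (x.2 0 * y.1 0 + x.2 1 * y.1 1 + x.2 2 * y.1 2)) * h0
    · rw [crs_one']
      simp only [Bf, sU, dot, Qf, crs_zero', crs_one', crs_two', Pi.add_apply, Pi.smul_apply,
        smul_eq_mul] at h0 h10 h11 h12 h20 h21 h22 h3 ⊢
      linear_combination (norm := (ring_nf; (try simp only [n2, n3, n4, n5, n6, n7, n8, n9, n10, n12, n14, n16, n18, n20, n24,
    mul_zero, mul_one, zero_mul, one_mul, zero_add, add_zero, neg_zero, sub_zero]); (try ring))) h11 + u 1 ^ 2 * (u 0 ^ 2 * h20 + u 1 ^ 2 * h21 +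
        u 2 ^ 2 * h22) + u 1 ^ 2 * (x.1 0 * y.2 0 + x.1 1 * y.2 1 + x.1 2 * y.2 2 +
        (x.2 0 * y.1 0 + x.2 1 * y.1 1 + x.2 2 * y.1 2)) * h0
    · rw [crs_two']
      simp only [Bf, sU, dot, Qf, crs_zero', crs_one', crs_two', Pi.add_apply, Pi.smul_apply,
        smul_eq_mul] at h0 h10 h11 h12 h20 h21 h22 h3 ⊢
      linear_combination (norm := (ring_nf; (try simp only [n2, n3, n4, n5, n6, n7, n8, n9, n10, n12, n14, n16, n18, n20, n24,
    mul_zero, mul_one, zero_mul, one_mul, zero_add, add_zero, neg_zero, sub_zero]); (try ring))) h12 + u 2 ^ 2 * (u 0 ^ 2 * h20 + u 1 ^ 2 * h21 +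
        u 2 ^ 2 * h22) + u 2 ^ 2 * (x.1 0 * y.2 0 + x.1 1 * y.2 1 + x.1 2 * y.2 2 +
        (x.2 0 * y.1 0 + x.2 1 * y.1 1 + x.2 2 * y.1 2)) * h0
  · rw [Qf_sU, Qf_sU]
    apply forall_fin3
    · rw [crs_zero']
      simp only [Bf, sU, dot, Qf, crs_zero', crs_one', crs_two', Pi.add_apply, Pi.smul_apply,
        smul_eq_mul] at h0 h10 h11 h12 h20 h21 h22 h3 ⊢
      linear_combination (norm := (ring_nf; (try simp only [n2, n3, n4, n5, n6, n7, n8, n9, n10, n12, n14, n16, n18, n20, n24,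
    mul_zero, mul_one, zero_mul, one_mul, zero_add, add_zero, neg_zero, sub_zero]); (try ring))) h20 + u 1 ^ 2 * h12 + u 2 ^ 2 * h11
    · rw [crs_one']
      simp only [Bf, sU, dot, Qf, crs_zero', crs_one', crs_two', Pi.add_apply, Pi.smul_apply,
        smul_eq_mul] at h0 h10 h11 h12 h20 h21 h22 h3 ⊢
      linear_combination (norm := (ring_nf; (try simp only [n2, n3, n4, n5, n6, n7, n8, n9, n10, n12, n14, n16, n18, n20, n24,
    mul_zero, mul_one, zero_mul, one_mul, zero_add, add_zero, neg_zero, sub_zero]); (try ring))) h21 + u 2 ^ 2 * h10 + u 0 ^ 2 * h12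
    · rw [crs_two']
      simp only [Bf, sU, dot, Qf, crs_zero', crs_one', crs_two', Pi.add_apply, Pi.smul_apply,
        smul_eq_mul] at h0 h10 h11 h12 h20 h21 h22 h3 ⊢
      linear_combination (norm := (ring_nf; (try simp only [n2, n3, n4, n5, n6, n7, n8, n9, n10, n12, n14, n16, n18, n20, n24,
    mul_zero, mul_one, zero_mul, one_mul, zero_add, add_zero, neg_zero, sub_zero]); (try ring))) h22 + u 0 ^ 2 * h11 + u 1 ^ 2 * h10
  · rw [Qf_sU, Qf_sU]
    simp only [Bf, sU, dot, Qf, crs_zero', crs_one', crs_two', Pi.add_apply, Pi.smul_apply,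
      smul_eq_mul] at h0 h10 h11 h12 h20 h21 h22 h3 ⊢
    linear_combination (norm := (ring_nf; (try simp only [n2, n3, n4, n5, n6, n7, n8, n9, n10, n12, n14, n16, n18, n20, n24,
    mul_zero, mul_one, zero_mul, one_mul, zero_add, add_zero, neg_zero, sub_zero]); (try ring))) h3 + u 0 ^ 2 * h20 + u 1 ^ 2 * h21 + u 2 ^ 2 * h22

lemma Col_tU (u : Fin 3 → F) {x y : V6 F} (h : Col x y) : Col (tU u x) (tU u y) := by
  rw [tU_eq, tU_eq]
  exact (Col_sU u h.sw).sw

lemma eU_eq (a b : Fin 3 → F) (x : V6 F) : eU a b x = sw (eU b a (sw x)) := rfl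

lemma eU_part {a b : Fin 3 → F} (hab : dot a b = 0) {x y : V6 F} (h : Col x y) (i : Fin 3) :
    Qf x * (eU a b y).1 i ^ 2 + Qf y * (eU a b x).1 i ^ 2 =
      crs (eU a b x).2 (eU a b y).2 i ^ 2 := by
  obtain ⟨h0, h1, h2, h3⟩ := h
  have h10 := h1 0
  have h11 := h1 1
  have h12 := h1 2
  rw [crs_zero'] at h10
  rw [crs_one'] at h11
  rw [crs_two'] at h12
  clear h0 h1 h2 h3
  revert i
  apply forall_fin3
  · rw [crs_zero']
    simp only [eU, dot, Qf, Pi.add_apply, Pi.smul_apply, smul_eq_mul] at hab h10 h11 h12 ⊢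
    linear_combination (norm := (ring_nf; (try simp only [n2, n3, n4, n5, n6, n7, n8, n9, n10, n12, n14, n16, n18, n20, n24,
    mul_zero, mul_one, zero_mul, one_mul, zero_add, add_zero, neg_zero, sub_zero]); (try ring))) h10 + a 0 ^ 2 * (b 0 ^ 2 * h10 + b 1 ^ 2 * h11 +
      b 2 ^ 2 * h12) + (a 0 * b 0 + a 1 * b 1 + a 2 * b 2) *
      (x.2 1 * y.2 2 + x.2 2 * y.2 1) ^ 2 * hab
  · rw [crs_one']
    simp only [eU, dot, Qf, Pi.add_apply, Pi.smul_apply, smul_eq_mul] at hab h10 h11 h12 ⊢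
    linear_combination (norm := (ring_nf; (try simp only [n2, n3, n4, n5, n6, n7, n8, n9, n10, n12, n14, n16, n18, n20, n24,
    mul_zero, mul_one, zero_mul, one_mul, zero_add, add_zero, neg_zero, sub_zero]); (try ring))) h11 + a 1 ^ 2 * (b 0 ^ 2 * h10 + b 1 ^ 2 * h11 +
      b 2 ^ 2 * h12) + (a 0 * b 0 + a 1 * b 1 + a 2 * b 2) *
      (x.2 2 * y.2 0 + x.2 0 * y.2 2) ^ 2 * hab
  · rw [crs_two']
    simp only [eU, dot, Qf, Pi.add_apply, Pi.smul_apply, smul_eq_mul] at hab h10 h11 h12 ⊢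
    linear_combination (norm := (ring_nf; (try simp only [n2, n3, n4, n5, n6, n7, n8, n9, n10, n12, n14, n16, n18, n20, n24,
    mul_zero, mul_one, zero_mul, one_mul, zero_add, add_zero, neg_zero, sub_zero]); (try ring))) h12 + a 2 ^ 2 * (b 0 ^ 2 * h10 + b 1 ^ 2 * h11 +
      b 2 ^ 2 * h12) + (a 0 * b 0 + a 1 * b 1 + a 2 * b 2) *
      (x.2 0 * y.2 1 + x.2 1 * y.2 0) ^ 2 * hab

lemma Col_eU {a b : Fin 3 → F} (hab : dot a b = 0) {x y : V6 F} (h : Col x y) :
    Col (eU a b x) (eU a b y) := by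
  refine ⟨by rw [Bf_eU hab]; exact h.1, ?_, ?_, ?_⟩
  · intro i
    rw [Qf_eU _ _ hab, Qf_eU _ _ hab]
    exact eU_part hab h i
  · intro i
    rw [Qf_eU _ _ hab, Qf_eU _ _ hab]
    have h1 := eU_part (a := b) (b := a) (by rw [dot_comm]; exact hab) h.sw i
    rw [Qf_sw, Qf_sw] at h1
    exact h1
  · rw [Qf_eU _ _ hab, Qf_eU _ _ hab, h.2.2.2]
    simp only [eU, dot, Pi.add_apply, Pi.smul_apply, smul_eq_mul] at hab ⊢
    linear_combination (norm := (ring_nf; (try simp only [n2, n3, n4, n5, n6, n7, n8, n9, n10, n12, n14, n16, n18, n20, n24,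
    mul_zero, mul_one, zero_mul, one_mul, zero_add, add_zero, neg_zero, sub_zero]); (try ring))) (a 0 * b 0 + a 1 * b 1 + a 2 * b 2) *
      ((b 0 * x.1 0 + b 1 * x.1 1 + b 2 * x.1 2) *
        (a 0 * y.2 0 + a 1 * y.2 1 + a 2 * y.2 2)) ^ 2 * hab

end Pool.Agent.SIT.Hex
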