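import Pool.Agent.SIT.SporA7c

/-!
# The strongly incidence-transitive codes of `2^4 : A₇`: quadrics and the complete list
-/

namespace Pool.Agent.SIT.A7

open Finset

/-- The number of zeros of `Qz q c`. -/
def cnt (q c : ℕ) : ℕ := ((range 16).filter (fun n => Qb q c n = false)).card

lemma card_zero (q c : ℕ) : (univ.filter (fun x : Vec 4 => Qz q c x = 0)).card = cnt q c := by
  classical
  have h : univ.filter (fun x : Vec 4 => Qz q c x = 0) =
      ((range 16).filter (fun n => Qb q c n = false)).image vc := by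
    ext x
    obtain ⟨n, hn, rfl⟩ := vc_surj x
    simp only [mem_filter, mem_univ, true_and, mem_image, mem_range]
    rw [Qz_vc]
    constructor
    · intro h
      exact ⟨n, ⟨hn, bz_inj (b := false) h⟩, rfl⟩
    · rintro ⟨k, ⟨hk, h⟩, e⟩
      rw [vc_inj hk hn e] at h
      rw [h]
      rfl
  rw [h, card_image_of_injOn, cnt]
  intro a ha b hb hab
  simp only [coe_filter, mem_range, Set.mem_ofPred_eq] at ha hb
  exact vc_inj ha.1 hb.1 hab

lemma tableE0 : ∀ q < 16, cnt q 12 = 6 → ∃ m ∈ tE0, ∀ n < 16, Qb q 12 (ap m n) = Qb 6 12 n := by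
  intro q hq
  interval_cases q <;> decide

lemma tableE1 : ∀ q < 16, cnt q 33 = 6 → ∃ m ∈ tE1, ∀ n < 16, Qb q 33 (ap m n) = Qb 12 33 n := by
  intro q hq
  interval_cases q <;> decide

lemma tableV0 : ∀ n < 16, Qb 6 12 n = true →
    ∃ m ∈ tV0, (∀ k < 16, Qb 6 12 (ap m k) = Qb 6 12 k) ∧ ap m 2 = n := by
  intro n hn
  interval_cases n <;> decide

lemma tableV1 : ∀ n < 16, Qb 12 33 n = true →
    ∃ m ∈ tV1, (∀ k < 16, Qb 12 33 (ap m k) = Qb 12 33 k) ∧ ap m 3 = n := by
  intro n hn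
  interval_cases n <;> decide

/-- The six-point quadric `Qz q c = 0`. -/
def S (q c : ℕ) : Finset (Vec 4) := univ.filter (fun x => Qz q c x = 0)

/-- Transitivity for quadrics whose polar form is equivalent to `frm B`. -/
lemma quad_claim {B q0 v0 : ℕ} {tE tV : List Cols} (okE : ∀ m ∈ tE, ok m = true)
    (okV : ∀ m ∈ tV, ok m = true)
    (hE : ∀ q < 16, cnt q B = 6 → ∃ m ∈ tE, ∀ n < 16, Qb q B (ap m n) = Qb q0 B n)
    (hV : ∀ n < 16, Qb q0 B n = true →
      ∃ m ∈ tV, (∀ k < 16, Qb q0 B (ap m k) = Qb q0 B k) ∧ ap m v0 = n)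
    {γ : Finset (Vec 4)} (hcard : γ.card = 6) {c : ℕ} (hQ : QP (ind γ) c) {m1 : Cols}
    (hm1 : ok m1 = true) (hp : pull c m1 = B) {u u' : Vec 4} (hu : u ∈ γ) (hu' : u' ∉ γ) :
    ∃ g ∈ G7, act g (S q0 B) = γ ∧ g 0 = u ∧ g (vc v0) = u' := by
  classical
  obtain ⟨h1, hP1, e1⟩ := exists_of_ok hm1
  -- the function on the level of the base form
  have hQ2 : QP (fun x => ind γ (u + h1 x)) B := by
    have := QP_comp (QP_shift hQ u) h1.toLinearMap (c' := B) (by
      intro x y
      change frm c (h1 x) (h1 y) = _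
      rw [e1, e1, frm_lm, hp])
    exact this
  have h0 : (fun x => ind γ (u + h1 x)) 0 = 1 := by
    simp only [map_zero, add_zero]
    exact ind_eq_one.2 hu
  obtain ⟨q, hq, hf⟩ := QP_form hQ2 h0
  -- its number of zeros
  have hcnt : cnt q B = 6 := by
    rw [← card_zero, ← hcard]
    apply Finset.card_bij (fun x _ => u + h1 x)
    · intro x hx
      simp only [mem_filter, mem_univ, true_and] at hx
      rw [← ind_eq_one (γ := γ)]
      have h3 : ind γ (u + h1 x) = 1 + Qz q B x := hf x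
      rw [h3, hx, add_zero]
    · intro x _ y _ hxy
      exact h1.injective (add_left_cancel hxy)
    · intro y hy
      refine ⟨h1.symm (u + y), ?_, ?_⟩
      · simp only [mem_filter, mem_univ, true_and]
        have := hf (h1.symm (u + y))
        simp only [h1.apply_symm_apply, self_add_add] at this
        rw [ind_eq_one.2 hy] at this
        have z : ∀ a : ZMod 2, 1 = 1 + a → a = 0 := by decide
        exact z _ this
      · rw [h1.apply_symm_apply, self_add_add]
  obtain ⟨m2, hm2, k2⟩ := hE q hq hcnt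
  obtain ⟨h2, hP2, e2⟩ := exists_of_ok (okE m2 hm2)
  have hf2 : ∀ x, ind γ (u + h1 (h2 x)) = 1 + Qz q0 B x := by
    intro x
    obtain ⟨n, hn, rfl⟩ := vc_surj x
    have h3 : ind γ (u + h1 (h2 (vc n))) = 1 + Qz q B (h2 (vc n)) := hf (h2 (vc n))
    rw [h3, e2, lm_vc, Qz_vc, k2 n hn, ← Qz_vc]
  -- the outer point
  obtain ⟨n3, hn3, hv3⟩ := vc_surj (h2.symm (h1.symm (u + u')))
  have hout : Qb q0 B n3 = true := by
    have := hf2 (vc n3)
    rw [hv3, h2.apply_symm_apply, h1.apply_symm_apply, self_add_add, ← hv3, Qz_vc] at this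
    by_contra hcon
    rw [Bool.not_eq_true] at hcon
    rw [hcon] at this
    exact hu' (ind_eq_one.1 (by rw [this]; rfl))
  obtain ⟨m3, hm3, k3, k4⟩ := hV n3 hn3 hout
  obtain ⟨h3, hP3, e3⟩ := exists_of_ok (okV m3 hm3)
  have hf3 : ∀ x, ind γ (u + h1 (h2 (h3 x))) = 1 + Qz q0 B x := by
    intro x
    obtain ⟨n, hn, rfl⟩ := vc_surj x
    rw [hf2, e3, lm_vc, Qz_vc, k3 n hn, ← Qz_vc]
  have hG : ∀ x, aff ((h3.trans h2).trans h1) u x = u + h1 (h2 (h3 x)) := fun x => rfl
  refine ⟨aff ((h3.trans h2).trans h1) u, aff_mem (PM_trans (PM_trans hP3 hP2) hP1) u, ?_, ?_, ?_⟩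
  · rw [act_eq_iff]
    intro x
    rw [hG, ← ind_eq_one (γ := γ), hf3, S, mem_filter]
    simp only [mem_univ, true_and]
    generalize Qz q0 B x = a
    revert a
    decide
  · rw [hG, map_zero, map_zero, map_zero, add_zero]
  · rw [hG, e3, lm_vc, k4, hv3, h2.apply_symm_apply, h1.apply_symm_apply, self_add_add]

/-! ### Polar forms of quadrics -/

/-- All quadrics with six points in `F_2^4`. -/
abbrev QC : Set (Finset (Vec 4)) := QuadricCode (n := 4) (m := 2) (le_refl 4)

lemma card_QC {γ : Finset (Vec 4)} (hγ : γ ∈ QC) : γ.card = 6 :=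
  (quadricCode_SIT (n := 4) (m := 2) (le_refl 4) (by norm_num)).card_eq γ hγ

lemma act_QC {g : AGL 4} {γ : Finset (Vec 4)} (hγ : γ ∈ QC) : act g γ ∈ QC :=
  (quadricCode_SIT (n := 4) (m := 2) (le_refl 4) (by norm_num)).invariant g
    (Subgroup.mem_top _) γ hγ

lemma quadForm_eq (x : Vec 4) : quadForm (n := 4) (m := 2) (le_refl 4) x = Qz 0 33 x := by
  have t0 : Nat.testBit 33 0 = true := rfl
  have t1 : Nat.testBit 33 1 = false := rfl
  have t2 : Nat.testBit 33 2 = false := rfl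
  have t3 : Nat.testBit 33 3 = false := rfl
  have t4 : Nat.testBit 33 4 = false := rfl
  have t5 : Nat.testBit 33 5 = true := rfl
  rw [quadForm, Fin.sum_univ_two]
  simp only [Qz, t0, t1, t2, t3, t4, t5, Nat.zero_testBit, bz]
  simp

lemma QP_Qz (q c : ℕ) : QP (Qz q c) c := by
  intro x y
  simp only [Qz, frm, Pi.add_apply, Pi.zero_apply]
  linear_combination
    (bz (q.testBit 0) * (x 0 + y 0) + bz (q.testBit 1) * (x 1 + y 1) +
      bz (q.testBit 2) * (x 2 + y 2) + bz (q.testBit 3) * (x 3 + y 3) +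
      bz (c.testBit 0) * (x 0 * x 1 + y 0 * y 1) + bz (c.testBit 1) * (x 0 * x 2 + y 0 * y 2) +
      bz (c.testBit 2) * (x 0 * x 3 + y 0 * y 3) + bz (c.testBit 3) * (x 1 * x 2 + y 1 * y 2) +
      bz (c.testBit 4) * (x 1 * x 3 + y 1 * y 3) + bz (c.testBit 5) * (x 2 * x 3 + y 2 * y 3)) *
      two_eq

lemma nondeg33 : ∀ n < 16, tb 33 n 1 = false → tb 33 n 2 = false →
    tb 33 n 4 = false → tb 33 n 8 = false → n = 0 := by
  intro n hn
  interval_cases n <;> decide

lemma table64 : ∀ c < 64, isM c = true ∨ (∃ m ∈ tF1, pull c m = 33) ∨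
    ∃ n < 16, n ≠ 0 ∧ tb c n 1 = false ∧ tb c n 2 = false ∧ tb c n 4 = false ∧
      tb c n 8 = false := by
  intro c hc
  interval_cases c <;> decide

lemma tableF0 (i : Fin 7) : ∃ m ∈ tF0, pull (cf i) m = 12 := by
  revert i; decide

/-- Every quadric has a polar form. -/
lemma exists_polar {γ : Finset (Vec 4)} (hγ : γ ∈ QC) :
    ∃ c, QP (ind γ) c ∧ ((∃ i, cf i = c) ∨ ∃ m ∈ tF1, pull c m = 33) := by
  classical
  obtain ⟨g, rfl⟩ := hγ
  have hg : ∀ x, g.symm x = g.symm 0 + g.symm.linear x := by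
    intro x
    have := g.symm.map_vadd 0 x
    rw [vadd_eq_add, vadd_eq_add, add_zero] at this
    rw [this, add_comm]
  have hind : ∀ x, ind (act g (quadric (n := 4) (m := 2) (le_refl 4))) x =
      Qz 0 33 (g.symm 0 + g.symm.linear x) := by
    intro x
    apply eq_of_iff_one
    rw [ind_eq_one, mem_act', mem_quadric, quadForm_eq, ← hg]
  set A : Vec 4 ≃ₗ[ZMod 2] Vec 4 := g.symm.linear with hA
  -- the code of the polar form
  obtain ⟨b0, h0⟩ := exists_bz (frm 33 (A (vc 1)) (A (vc 2)))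
  obtain ⟨b1, h1⟩ := exists_bz (frm 33 (A (vc 1)) (A (vc 4)))
  obtain ⟨b2, h2⟩ := exists_bz (frm 33 (A (vc 1)) (A (vc 8)))
  obtain ⟨b3, h3⟩ := exists_bz (frm 33 (A (vc 2)) (A (vc 4)))
  obtain ⟨b4, h4⟩ := exists_bz (frm 33 (A (vc 2)) (A (vc 8)))
  obtain ⟨b5, h5⟩ := exists_bz (frm 33 (A (vc 4)) (A (vc 8)))
  obtain ⟨hc, k0, k1, k2, k3, k4, k5⟩ := bits6 b0 b1 b2 b3 b4 b5
  revert hc k0 k1 k2 k3 k4 k5
  generalize (bif b0 then 1 else 0) + (bif b1 then 2 else 0) + (bif b2 then 4 else 0) +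
      (bif b3 then 8 else 0) + (bif b4 then 16 else 0) + (bif b5 then 32 else 0) = c
  intro hc k0 k1 k2 k3 k4 k5
  have hfrm : ∀ x y, frm 33 (A x) (A y) = frm c x y := by
    intro x y
    have := frm_lin 33 c (A (vc 1)) (A (vc 2)) (A (vc 4)) (A (vc 8)) (by rw [h0, k0])
      (by rw [h1, k1]) (by rw [h2, k2]) (by rw [h3, k3]) (by rw [h4, k4]) (by rw [h5, k5]) x y
    rw [← this]
    conv_lhs => rw [vc_eq x, vc_eq y]
    simp only [map_add, map_smul]
  have hQ : QP (ind (act g (quadric (n := 4) (m := 2) (le_refl 4)))) c := by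
    have := QP_comp (QP_shift (QP_Qz 0 33) (g.symm 0)) A.toLinearMap (c' := c) hfrm
    intro x y
    rw [hind, hind, hind, hind]
    exact this x y
  refine ⟨c, hQ, ?_⟩
  rcases table64 c hc with h | h | ⟨n, hn, hn0, t1, t2, t3, t4⟩
  · left
    exact isM_cf h
  · right
    exact h
  · exfalso
    have hz : ∀ y, frm c (vc n) y = 0 := by
      intro y
      rw [vc_eq y]
      simp only [frm_add_right, frm_smul_right, frm_vc, t1, t2, t3, t4]
      simp [bz]
    have hz' : ∀ y, frm 33 (A (vc n)) y = 0 := by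
      intro y
      have := hfrm (vc n) (A.symm y)
      rw [A.apply_symm_apply] at this
      rw [this, hz]
    obtain ⟨k, hk, hk'⟩ := vc_surj (A (vc n))
    have k : ∀ b, tb 33 k b = false := by
      intro b
      have h1 := hz' (vc b)
      rw [← hk', frm_vc] at h1
      exact bz_inj (b := false) h1
    have h6 := nondeg33 _ hk (k _) (k _) (k _) (k _)
    rw [h6, vc_zero] at hk'
    have h7 : vc n = 0 := A.injective (by rw [← hk', map_zero])
    exact hn0 (vc_inj hn (by norm_num) (by rw [h7, vc_zero]))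

/-- `γ` is a quadric in `F_2^4` with polar form `frm c`: the second differences of its indicator
function are the values of `frm c`. -/
def PolarIs (γ : Finset (Vec 4)) (c : ℕ) : Prop :=
  ∀ a b x : Vec 4, ind γ (x + a + b) + ind γ (x + a) + ind γ (x + b) + ind γ x = frm c a b

lemma polarIs_iff {γ : Finset (Vec 4)} {c : ℕ} : PolarIs γ c ↔ QP (ind γ) c := by
  constructor
  · intro h x y
    have := h x y 0
    simpa using this
  · intro h a b x
    have := QP_shift h x a b
    change ind γ (x + (a + b)) + ind γ (x + a) + ind γ (x + b) + ind γ (x + 0) = _ at this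
    rwa [← add_assoc, add_zero] at this

lemma QP_unique {f : Vec 4 → ZMod 2} {c c' : ℕ} (h : QP f c) (h' : QP f c') (hc : c < 64)
    (hc' : c' < 64) : c = c' :=
  frm_code hc hc' (fun x y => (h x y).symm.trans (h' x y))

/-- The `112` six-point quadrics whose polar form is one of the seven forms. -/
def C112 : Set (Finset (Vec 4)) := {γ | γ ∈ QC ∧ ∃ i, PolarIs γ (cf i)}

/-- The `336` six-point quadrics whose polar form is none of the seven forms. -/
def C336 : Set (Finset (Vec 4)) := {γ | γ ∈ QC ∧ ∀ i, ¬ PolarIs γ (cf i)}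

lemma polar_act {g : AGL 4} (hg : g ∈ G7) {γ : Finset (Vec 4)} {i : Fin 7}
    (h : PolarIs γ (cf i)) : ∃ j, PolarIs (act g γ) (cf j) := by
  obtain ⟨j, hj⟩ := (mem_G7.1 (G7.inv_mem hg)) i
  refine ⟨j, ?_⟩
  rw [polarIs_iff] at h ⊢
  have hgs : ∀ x, g.symm x = g.symm 0 + g.symm.linear x := by
    intro x
    have := g.symm.map_vadd 0 x
    rw [vadd_eq_add, vadd_eq_add, add_zero] at this
    rw [this, add_comm]
  have hind : ∀ x, ind (act g γ) x = ind γ (g.symm 0 + g.symm.linear x) := by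
    intro x
    apply eq_of_iff_one
    rw [ind_eq_one, ind_eq_one, mem_act', ← hgs]
  have := QP_comp (QP_shift h (g.symm 0)) g.symm.linear.toLinearMap (c' := cf j) hj
  intro x y
  rw [hind, hind, hind, hind]
  exact this x y

theorem sit_C112 : IsSITCode G7 6 C112 := by
  apply sit_of_base (S 6 12) (vc 2) (fun γ hγ => card_QC hγ.1)
  · rintro g hg γ ⟨h1, i, h2⟩
    exact ⟨act_QC h1, polar_act hg h2⟩
  · rintro γ ⟨h1, i, h2⟩ u hu u' hu'
    obtain ⟨m, hm, hp⟩ := tableF0 i
    exact quad_claim okE0 okV0 tableE0 tableV0 (card_QC h1) (polarIs_iff.1 h2) (okF0 m hm) hp hu hu'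

theorem sit_C336 : IsSITCode G7 6 C336 := by
  apply sit_of_base (S 12 33) (vc 3) (fun γ hγ => card_QC hγ.1)
  · rintro g hg γ ⟨h1, h2⟩
    refine ⟨act_QC h1, fun i hi => ?_⟩
    obtain ⟨j, hj⟩ := polar_act (G7.inv_mem hg) hi
    have : act g⁻¹ (act g γ) = γ := act_symm_act g γ
    rw [this] at hj
    exact h2 j hj
  · rintro γ ⟨h1, h2⟩ u hu u' hu'
    obtain ⟨c, hc, ⟨i, rfl⟩ | ⟨m, hm, hp⟩⟩ := exists_polar h1
    · exact absurd (polarIs_iff.2 hc) (h2 i)
    · exact quad_claim okE1 okV1 tableE1 tableV1 (card_QC h1) hc (okF1 m hm) hp hu hu'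

/-- Two codes of the same group with a common codeword are equal. -/
lemma sit_le_of_mem {n k : ℕ} {G : Subgroup (AGL n)} {C D : Set (Finset (Vec n))}
    (hC : IsSITCode G k C) (hD : ∀ g ∈ G, ∀ γ ∈ D, act g γ ∈ D) {γ : Finset (Vec n)}
    (h1 : γ ∈ C) (h2 : γ ∈ D) (hk1 : 1 ≤ k) (hk2 : k < 2 ^ n) : C ⊆ D := by
  intro δ hδ
  have c1 := hC.card_eq γ h1
  have c2 := hC.card_eq δ hδ
  obtain ⟨u, hu⟩ : γ.Nonempty := by rw [← Finset.card_pos]; omega
  obtain ⟨w, hw⟩ : δ.Nonempty := by rw [← Finset.card_pos]; omega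
  obtain ⟨u', hu'⟩ := exists_notMem_of_card c1 hk2
  obtain ⟨w', hw'⟩ := exists_notMem_of_card c2 hk2
  obtain ⟨g, hg, h3, -, -⟩ := hC.transitive γ h1 u hu u' hu' δ hδ w hw w' hw'
  rw [← h3]
  exact hD g hg γ h2

/-- **`2^4 : A₇`.**  The group `G7` is 2-transitive on `F_2^4`, and its strongly
incidence-transitive codes with at least two codewords and `3 ≤ k ≤ 8` are exactly: all planes,
all hyperplanes, the `112` six-point quadrics with polar form one of the seven forms, and the `336`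
others. -/
theorem spor_A7 : IsTwoTransitive G7 ∧ ∀ (k : ℕ) (C : Set (Finset (Vec 4))), 3 ≤ k →
    k ≤ 2 ^ (4 - 1) → C.Nontrivial →
    (IsSITCode G7 k C ↔ (k = 4 ∧ C = FlatCode 4 2) ∨ (k = 8 ∧ C = FlatCode 4 3) ∨
      (k = 6 ∧ C = C112) ∨ (k = 6 ∧ C = C336)) := by
  refine ⟨twoTransitive_G7, ?_⟩
  intro k C hk3 hk8 hnt
  constructor
  · intro hC
    obtain ⟨γ, hγ⟩ := hnt.nonempty
    have hcard := hC.card_eq γ hγ
    have hne : γ.Nonempty := by rw [← Finset.card_pos]; omega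
    have hk2 : k < 2 ^ 4 := by norm_num at hk8 ⊢; omega
    have hfin : ∀ (k' : ℕ) (D : Set (Finset (Vec 4))), IsSITCode G7 k' D → γ ∈ D →
        k = k' ∧ C = D := by
      intro k' D hD hγD
      have hkk : k = k' := by rw [← hcard, hD.card_eq γ hγD]
      subst hkk
      exact ⟨rfl, Set.Subset.antisymm (sit_le_of_mem hC hD.invariant hγ hγD (by omega) hk2)
        (sit_le_of_mem hD hC.invariant hγD hγ (by omega) hk2)⟩
    have hsit : SITSet γ := by
      intro u hu u' hu' w hw w' hw'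
      obtain ⟨g, _, h1, h2, h3⟩ := hC.transitive γ hγ u hu u' hu' γ hγ w hw w' hw'
      exact ⟨g.toEquiv, isAff_agl g, (act_eq_iff g γ γ).1 h1, h2, h3⟩
    rcases sit_set_classification hsit hne (by omega) with ⟨A, hA⟩ | ⟨m, h, hm, hQ⟩
    · have hcA := card_flat hA hne
      rw [hcard] at hcA
      have hd : Module.finrank (ZMod 2) A.direction = 2 ∨
          Module.finrank (ZMod 2) A.direction = 3 := by
        have h3 : Module.finrank (ZMod 2) A.direction < 4 := by
          rw [hcA] at hk2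
          exact (Nat.pow_lt_pow_iff_right (by norm_num)).1 hk2
        interval_cases hh : Module.finrank (ZMod 2) A.direction
        · norm_num at hcA; omega
        · norm_num at hcA; omega
        · exact Or.inl rfl
        · exact Or.inr rfl
      rcases hd with hd | hd
      · exact Or.inl (hfin 4 _ sit_planes ⟨A, hA, hd⟩)
      · exact Or.inr (Or.inl (hfin 8 _ sit_hyperplanes ⟨A, hA, hd⟩))
    · have hm2 : m = 2 := by omega
      subst hm2
      by_cases hp : ∃ i, PolarIs γ (cf i)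
      · exact Or.inr (Or.inr (Or.inl (hfin 6 _ sit_C112 ⟨hQ, hp⟩)))
      · exact Or.inr (Or.inr (Or.inr (hfin 6 _ sit_C336 ⟨hQ, by simpa using hp⟩)))
  · rintro (⟨rfl, rfl⟩ | ⟨rfl, rfl⟩ | ⟨rfl, rfl⟩ | ⟨rfl, rfl⟩)
    · exact sit_planes
    · exact sit_hyperplanes
    · exact sit_C112
    · exact sit_C336

end Pool.Agent.SIT.A7
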