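import Pool.Agent.SIT.AllDefs
import Pool.Agent.SIT.HexCol
import Pool.Agent.SIT.SporA7

/-!
# The classes of Hering's theorem in characteristic two: definitions

`T` is the group of all translations.
-/

namespace Pool.Agent.SIT.Gen

open Finset

/-- `T.Sp(V, B)' ≤ G ≤ AΓSp(V, B)` for a nondegenerate alternating form `B`: every member of `G` is
`x ↦ g x + t` with `g` a semilinear similitude of `B`; `G` contains all translations and all
commutators of isometries of `B`. -/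
structure SpG' (F : Type*) [Field F] {V : Type*} [AddCommGroup V] [Module F V]
    (B : V →ₗ[F] V →ₗ[F] F) (G : Subgroup (Equiv.Perm V)) : Prop where
  alt : ∀ x, B x x = 0
  nd : ∀ x, (∀ y, B x y = 0) → x = 0
  semi : ∀ h ∈ G, ∃ (g : V ≃+ V) (t : V) (σ : F ≃+* F) (c : F),
    (∀ (a : F) (x : V), g (a • x) = σ a • g x) ∧ c ≠ 0 ∧
    (∀ x y, B (g x) (g y) = c * σ (B x y)) ∧ ∀ x, h x = g x + t
  trans : ∀ t : V, Equiv.addRight t ∈ G
  comm : ∀ a b : V ≃ₗ[F] V, (∀ x y, B (a x) (a y) = B x y) → (∀ x y, B (b x) (b y) = B x y) →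
    ∀ g : Equiv.Perm V, (∀ x, g x = a (b (a.symm (b.symm x)))) → g ∈ G

/-- The members of `G_2(q)`: the linear isometries of `Bf` that preserve the collinearity of the
split Cayley hexagon. -/
def HexIso {F : Type*} [Field F] (a : Hex.V6 F ≃ₗ[F] Hex.V6 F) : Prop :=
  (∀ x y, Hex.Bf (a x) (a y) = Hex.Bf x y) ∧ ∀ x y, Hex.Col (a x) (a y) ↔ Hex.Col x y

/-- `T.G_2(q)' ≤ G ≤ AΓG_2(q)`: every member of `G` is `x ↦ g x + t` with `g` a semilinear
similitude of `Bf` that preserves collinearity; `G` contains all translations and all commutators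
of members of `G_2(q)`. -/
structure HexG' (F : Type*) [Field F] (G : Subgroup (Equiv.Perm (Hex.V6 F))) : Prop where
  semi : ∀ h ∈ G, ∃ (g : Hex.V6 F ≃+ Hex.V6 F) (t : Hex.V6 F) (σ : F ≃+* F) (c : F),
    (∀ (a : F) (x : Hex.V6 F), g (a • x) = σ a • g x) ∧ c ≠ 0 ∧
    (∀ x y, Hex.Bf (g x) (g y) = c * σ (Hex.Bf x y)) ∧
    (∀ x y, Hex.Col (g x) (g y) ↔ Hex.Col x y) ∧ ∀ x, h x = g x + t
  trans : ∀ t : Hex.V6 F, Equiv.addRight t ∈ G
  comm : ∀ a b : Hex.V6 F ≃ₗ[F] Hex.V6 F, HexIso a → HexIso b →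
    ∀ g : Equiv.Perm (Hex.V6 F), (∀ x, g x = a (b (a.symm (b.symm x)))) → g ∈ G

/-- `W` is the orthogonal of a line of the hexagon. -/
def LinePerp {F : Type*} [Field F] (W : Set (Hex.V6 F)) : Prop :=
  ∃ u v : Hex.V6 F, LinearIndependent F ![u, v] ∧ Hex.Col u v ∧
    ∀ x, x ∈ W ↔ Hex.Bf u x = 0 ∧ Hex.Bf v x = 0

end Pool.Agent.SIT.Gen
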