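import Pool.Agent.SIT.Fourier

/-!
# Strongly incidence-transitive sets: the sizes of the derivatives
-/

namespace Pool.Agent.SIT

open Finset

section

variable {V : Type*} [AddCommGroup V] [Module (ZMod 2) V]

/-- Affine permutations of a vector space over `F_2`. -/
def IsAff (g : Equiv.Perm V) : Prop := ∀ x y, g (x + y) = g x + g y + g 0

/-- The group of affine permutations stabilising `γ` is transitive on `γ × γᶜ`. -/
def SITSet (γ : Finset V) : Prop :=
  ∀ u ∈ γ, ∀ u' ∉ γ, ∀ w ∈ γ, ∀ w' ∉ γ,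
    ∃ h : Equiv.Perm V, IsAff h ∧ (∀ x, h x ∈ γ ↔ x ∈ γ) ∧ h u = w ∧ h u' = w'

/-- The periods of `γ`. -/
def period (γ : Finset V) : Submodule (ZMod 2) V where
  carrier := {t | ∀ x, x + t ∈ γ ↔ x ∈ γ}
  add_mem' := by
    intro a b ha hb x
    rw [← add_assoc, hb, ha]
  zero_mem' := by
    intro x
    rw [add_zero]
  smul_mem' := by
    intro c t ht
    rcases zmod2_cases c with rfl | rfl
    · intro x
      rw [zero_smul, add_zero]
    · intro x
      rw [one_smul]
      exact ht x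

lemma mem_period {γ : Finset V} {t : V} : t ∈ period γ ↔ ∀ x, x + t ∈ γ ↔ x ∈ γ := Iff.rfl

omit [Module (ZMod 2) V] in
lemma IsAff.map_add_left {h : Equiv.Perm V} (hh : IsAff h) {u a w b : V}
    (h1 : h u = w) (h2 : h (u + a) = w + b) (x : V) : h (x + a) = h x + b := by
  have h3 := hh u a
  rw [h1, h2, add_assoc, add_left_cancel_iff] at h3
  rw [hh x a, add_assoc, ← h3]

variable [DecidableEq V]

lemma S_eq_empty {γ : Finset V} {a : V} (ha : a ∈ period γ) : S γ a = ∅ := by
  rw [Finset.eq_empty_iff_forall_notMem]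
  intro x hx
  rw [mem_S] at hx
  exact hx.2 ((ha x).2 hx.1)

lemma S_nonempty {γ : Finset V} {a : V} (ha : a ∉ period γ) : (S γ a).Nonempty := by
  rw [mem_period] at ha
  push Not at ha
  obtain ⟨x, hx⟩ := ha
  rcases hx with ⟨h1, h2⟩ | ⟨h1, h2⟩
  · exact ⟨x + a, by rw [mem_S, add_add_self]; exact ⟨h1, h2⟩⟩
  · exact ⟨x, mem_S.2 ⟨h2, h1⟩⟩

lemma card_S_le {γ : Finset V} (hγ : SITSet γ) {a b : V} (ha : a ∉ period γ)
    (hb : b ∉ period γ) : (S γ a).card ≤ (S γ b).card := by
  obtain ⟨u, hu⟩ := S_nonempty ha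
  obtain ⟨w, hw⟩ := S_nonempty hb
  rw [mem_S] at hu hw
  obtain ⟨h, hh, hst, h1, h2⟩ := hγ u hu.1 (u + a) hu.2 w hw.1 (w + b) hw.2
  apply Finset.card_le_card_of_injOn h
  · intro x hx
    rw [Finset.mem_coe, mem_S] at hx ⊢
    refine ⟨(hst x).2 hx.1, ?_⟩
    rw [← hh.map_add_left h1 h2 x, hst]
    exact hx.2
  · exact h.injective.injOn

lemma card_S_eq {γ : Finset V} (hγ : SITSet γ) {a b : V} (ha : a ∉ period γ)
    (hb : b ∉ period γ) : (S γ a).card = (S γ b).card :=
  le_antisymm (card_S_le hγ ha hb) (card_S_le hγ hb ha)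

variable [Fintype V]

open Classical in
/-- The finite set of periods. -/
noncomputable def periodF (γ : Finset V) : Finset V := univ.filter (fun t => t ∈ period γ)

omit [DecidableEq V] in
lemma mem_periodF {γ : Finset V} {t : V} : t ∈ periodF γ ↔ t ∈ period γ := by
  simp [periodF]

lemma card_S_ite {γ : Finset V} (hγ : SITSet γ) {a₀ : V} (ha₀ : a₀ ∉ period γ) (a : V) :
    ((S γ a).card : ℤ) = (S γ a₀).card * (if a ∈ periodF γ then 0 else 1) := by
  split_ifs with h
  · rw [mem_periodF] at h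
    rw [S_eq_empty h]
    simp
  · rw [mem_periodF] at h
    rw [card_S_eq hγ h ha₀]
    ring

lemma sum_not_period (γ : Finset V) (g : V → ℤ) :
    ∑ a : V, g a * (if a ∈ periodF γ then 0 else 1) = ∑ a : V, g a - ∑ a ∈ periodF γ, g a := by
  have h1 : ∑ a ∈ periodF γ, g a = ∑ a : V, if a ∈ periodF γ then g a else 0 := by
    rw [← Finset.sum_filter]
    congr 1
    ext a
    simp
  rw [h1, ← Finset.sum_sub_distrib]
  apply Finset.sum_congr rfl
  intro a _
  split_ifs <;> simp

lemma chi_sq_eq {γ : Finset V} (hγ : SITSet γ) {a₀ : V} (ha₀ : a₀ ∉ period γ)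
    (φ : Module.Dual (ZMod 2) V) :
    chi γ φ ^ 2 = γ.card * ∑ a : V, sgn (φ a)
      - (S γ a₀).card * (∑ a : V, sgn (φ a) - ∑ a ∈ periodF γ, sgn (φ a)) := by
  rw [chi_sq, ← sum_not_period, Finset.mul_sum, Finset.mul_sum, ← Finset.sum_sub_distrib]
  apply Finset.sum_congr rfl
  intro a _
  rw [card_S_ite hγ ha₀ a]
  ring

lemma chi_sq_vanish {γ : Finset V} (hγ : SITSet γ) {a₀ : V} (ha₀ : a₀ ∉ period γ)
    (φ : Module.Dual (ZMod 2) V) (hφ : φ ≠ 0) (hφT : ∀ t ∈ period γ, φ t = 0) :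
    chi γ φ ^ 2 = (S γ a₀).card * (periodF γ).card := by
  rw [chi_sq_eq hγ ha₀, sum_sgn_eq_zero φ hφ]
  have : ∑ a ∈ periodF γ, sgn (φ a) = (periodF γ).card := by
    rw [Finset.sum_congr rfl (g := fun _ => (1 : ℤ))]
    · simp
    · intro a ha
      rw [hφT a (mem_periodF.1 ha), sgn_zero]
  rw [this]
  ring

omit [DecidableEq V] [Fintype V] in
lemma chi_eq_zero {γ : Finset V} (φ : Module.Dual (ZMod 2) V) {t : V} (ht : t ∈ period γ)
    (hφt : φ t = 1) : chi γ φ = 0 := by
  have h1 : chi γ φ = ∑ x ∈ γ, sgn (φ (x + t)) := by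
    rw [chi]
    apply Finset.sum_nbij' (fun x => x + t) (fun x => x + t)
    · intro x hx; exact (ht x).2 hx
    · intro x hx; exact (ht x).2 hx
    · intro x _; exact add_add_self x t
    · intro x _; exact add_add_self x t
    · intro x _; rw [add_add_self]
  have h2 : ∑ x ∈ γ, sgn (φ (x + t)) = - chi γ φ := by
    rw [chi, ← Finset.sum_neg_distrib]
    apply Finset.sum_congr rfl
    intro x _
    rw [map_add, sgn_add, hφt, sgn_one]
    ring
  omega

lemma card_identity {γ : Finset V} (hγ : SITSet γ) {a₀ : V} (ha₀ : a₀ ∉ period γ) :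
    (γ.card : ℤ) * (Fintype.card V - γ.card) =
      (S γ a₀).card * (Fintype.card V - (periodF γ).card) := by
  have h := chi_sq_eq hγ ha₀ 0
  rw [chi_zero] at h
  simp only [LinearMap.zero_apply, sgn_zero, Finset.sum_const, Finset.card_univ, nsmul_eq_mul,
    mul_one] at h
  linarith

end

/-- The number-theoretic core. -/
lemma arith_core {p q r e : ℕ} (hp : 1 ≤ p) (hq : 1 ≤ q) (h1 : p * q + 1 = 2 ^ r)
    (h2 : p + q = 2 ^ e) : p = 1 ∨ q = 1 ∨ r + 2 = 2 * e := by
  by_contra hcon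
  push Not at hcon
  obtain ⟨hp1, hq1, hr⟩ := hcon
  have he : 2 ≤ e := by
    by_contra h
    have : e = 0 ∨ e = 1 := by omega
    rcases this with rfl | rfl
    · omega
    · norm_num at h2
      omega
  -- `2 ^ e ∣ 2 ^ r`
  have hle : 2 ^ e ≤ 2 ^ r := by
    rw [← h1, ← h2]
    obtain ⟨p', rfl⟩ := Nat.exists_eq_add_of_le hp
    obtain ⟨q', rfl⟩ := Nat.exists_eq_add_of_le hq
    nlinarith [Nat.zero_le (p' * q')]
  have her : e ≤ r := (Nat.pow_le_pow_iff_right (by norm_num)).1 hle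
  have hdvd : 2 ^ e ∣ 2 ^ r := pow_dvd_pow 2 her
  -- `p ^ 2 ≡ 1`
  have hdvd2 : 2 ^ e ∣ (p - 1) * (p + 1) := by
    have h3 : (p - 1) * (p + 1) + 2 ^ r = p * 2 ^ e := by
      obtain ⟨p', rfl⟩ := Nat.exists_eq_add_of_le hp
      rw [← h1, ← h2]
      simp only [Nat.add_sub_cancel_left]
      ring
    exact (Nat.dvd_add_iff_left hdvd).2 (h3 ▸ Dvd.intro_left p rfl)
  have hodd : ¬ 2 ∣ p := by
    intro h
    have h3 : 2 ∣ p * q + 1 := by
      rw [h1]
      exact dvd_pow_self 2 (by omega)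
    have h4 : 2 ∣ p * q := Dvd.dvd.mul_right h q
    omega
  obtain ⟨p', hp'⟩ : ∃ p', p = 2 * p' + 1 := ⟨p / 2, by omega⟩
  obtain ⟨e', rfl⟩ : ∃ e', e = e' + 2 := ⟨e - 2, by omega⟩
  have h5 : 2 ^ e' ∣ p' * (p' + 1) := by
    have h6 : (p - 1) * (p + 1) = 4 * (p' * (p' + 1)) := by
      rw [hp']
      simp only [Nat.add_sub_cancel]
      ring
    rw [h6, pow_add, mul_comm (2 ^ e')] at hdvd2
    norm_num at hdvd2
    exact Nat.dvd_of_mul_dvd_mul_left (by norm_num) hdvd2
  have h7 : 2 ^ e' ∣ p' ∨ 2 ^ e' ∣ p' + 1 := by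
    rcases Nat.even_or_odd p' with hev | hodd'
    · left
      have hc : Nat.Coprime (2 ^ e') (p' + 1) := by
        apply Nat.Coprime.pow_left
        rw [Nat.coprime_two_left]
        exact hev.add_one
      exact hc.dvd_of_dvd_mul_right h5
    · right
      have hc : Nat.Coprime (2 ^ e') p' := by
        apply Nat.Coprime.pow_left
        rw [Nat.coprime_two_left]
        exact hodd'
      exact hc.dvd_of_dvd_mul_left h5
  have hpow : 2 ^ (e' + 2) = 4 * 2 ^ e' := by ring
  have hpos : 0 < 2 ^ e' := by positivity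
  have hbound : p' < 2 * 2 ^ e' := by omega
  have hfin : ∀ x y : ℕ, x * y + 1 = 2 ^ r → x = 2 * 2 ^ e' + 1 → y = 2 * 2 ^ e' - 1 → False := by
    intro x y hxy hx hy
    obtain ⟨t, ht⟩ : ∃ t, 2 ^ e' = t + 1 := ⟨2 ^ e' - 1, by omega⟩
    have h8 : x * y + 1 = 2 ^ (2 * e' + 2) := by
      have h9 : 2 ^ (2 * e' + 2) = 4 * (2 ^ e' * 2 ^ e') := by ring
      rw [h9, hx, hy, ht]
      have : 2 * (t + 1) - 1 = 2 * t + 1 := by omega
      rw [this]
      ring
    rw [h8] at hxy
    have := Nat.pow_right_injective (le_refl 2) hxy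
    omega
  rcases h7 with ⟨m, hm⟩ | ⟨m, hm⟩
  · have hm2 : m < 2 := by
      by_contra h
      have : 2 ^ e' * 2 ≤ 2 ^ e' * m := Nat.mul_le_mul_left _ (by omega)
      omega
    interval_cases m
    · omega
    · exact hfin p q h1 (by omega) (by omega)
  · have hm2 : m ≤ 2 := by
      by_contra h
      have : 2 ^ e' * 3 ≤ 2 ^ e' * m := Nat.mul_le_mul_left _ (by omega)
      omega
    interval_cases m
    · omega
    · exact hfin q p (by rw [mul_comm]; exact h1) (by omega) (by omega)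
    · omega

section

variable {V : Type*} [AddCommGroup V] [Module (ZMod 2) V] [Fintype V] [DecidableEq V]

omit [DecidableEq V] in
lemma card_periodF_dvd (γ : Finset V) : (periodF γ).card ∣ Fintype.card V := by
  have h := AddSubgroup.card_addSubgroup_dvd_card (period γ).toAddSubgroup
  rw [Nat.card_eq_fintype_card (α := V)] at h
  have h2 : Nat.card (period γ).toAddSubgroup = (periodF γ).card :=
    Nat.subtype_card (periodF γ) (fun x => mem_periodF)
  rw [h2] at h
  exact h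

/-- Either all proper derivatives of `γ` have exactly `|V| / 4` points of `γ`, or `γ` or its
complement has the size of the set of periods. -/
lemma card_S_trichotomy {γ : Finset V} (hγ : SITSet γ) {a₀ : V} (ha₀ : a₀ ∉ period γ) :
    4 * (S γ a₀).card = Fintype.card V ∨ γ.card = (periodF γ).card ∨
      γ.card + (periodF γ).card = Fintype.card V := by
  obtain ⟨n, hn⟩ : ∃ n, Fintype.card V = 2 ^ n := by
    have := Module.card_eq_pow_finrank (K := ZMod 2) (V := V)
    rw [ZMod.card] at this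
    exact ⟨_, this⟩
  obtain ⟨d, hdn, hd⟩ : ∃ d ≤ n, (periodF γ).card = 2 ^ d := by
    have := card_periodF_dvd γ
    rw [hn] at this
    exact (Nat.dvd_prime_pow Nat.prime_two).1 this
  obtain ⟨φ₀, hφ₀a, hφ₀T⟩ := exists_dual_of_notMem (period γ) a₀ ha₀
  have hφ₀ : φ₀ ≠ 0 := by
    rintro rfl
    simp at hφ₀a
  set N := (S γ a₀).card with hN
  have hNpos : 0 < N := Finset.card_pos.2 (S_nonempty ha₀)
  set c := (chi γ φ₀).natAbs with hc
  have hc2 : c ^ 2 = N * 2 ^ d := by
    have h := chi_sq_vanish hγ ha₀ φ₀ hφ₀ hφ₀T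
    rw [hd] at h
    have h2 : ((c : ℤ)) ^ 2 = chi γ φ₀ ^ 2 := by
      rw [hc, Int.natCast_natAbs, sq_abs]
    rw [h] at h2
    exact_mod_cast h2
  have hcpos : 0 < c := by
    rcases Nat.eq_zero_or_pos c with h | h
    · rw [h] at hc2
      have : 0 < N * 2 ^ d := by positivity
      omega
    · exact h
  have hdvd : ∀ φ : Module.Dual (ZMod 2) V, φ ≠ 0 → (c : ℤ) ∣ chi γ φ := by
    intro φ hφ
    by_cases hv : ∀ t ∈ period γ, φ t = 0
    · have h := chi_sq_vanish hγ ha₀ φ hφ hv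
      have h0 := chi_sq_vanish hγ ha₀ φ₀ hφ₀ hφ₀T
      rw [← h0] at h
      have h3 : (chi γ φ).natAbs = c := by
        rw [hc]
        exact (Int.natAbs_eq_iff_sq_eq).2 h
      rw [← h3]
      exact Int.natAbs_dvd.2 (dvd_refl _)
    · push Not at hv
      obtain ⟨t, ht, hφt⟩ := hv
      have : φ t = 1 := by
        rcases zmod2_cases (φ t) with h | h
        · exact absurd h hφt
        · exact h
      rw [chi_eq_zero φ ht this]
      exact dvd_zero _
  have hinv : ∀ x : V, (c : ℤ) ∣ (if x ∈ γ then (Fintype.card V : ℤ) else 0) - γ.card := by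
    intro x
    rw [← inversion γ x, ← Finset.add_sum_erase _ _ (Finset.mem_univ 0), chi_zero]
    simp only [LinearMap.zero_apply, sgn_zero, mul_one, add_sub_cancel_left]
    apply Finset.dvd_sum
    intro φ hφ
    exact Dvd.dvd.mul_right (hdvd φ (Finset.ne_of_mem_erase hφ)) _
  obtain ⟨x₀, hx₀⟩ := S_nonempty ha₀
  rw [mem_S] at hx₀
  have hle : γ.card ≤ 2 ^ n := by
    rw [← hn]
    exact Finset.card_le_univ γ
  obtain ⟨p, hp⟩ : c ∣ γ.card := by
    have := hinv (x₀ + a₀)
    rw [if_neg hx₀.2, zero_sub, dvd_neg] at this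
    exact_mod_cast this
  obtain ⟨q, hq⟩ : c ∣ 2 ^ n - γ.card := by
    have := hinv x₀
    rw [if_pos hx₀.1, hn] at this
    have h2 : ((2 ^ n : ℕ) : ℤ) - γ.card = ((2 ^ n - γ.card : ℕ) : ℤ) := by
      rw [Nat.cast_sub hle]
    rw [h2] at this
    exact_mod_cast this
  have hppos : 1 ≤ p := by
    rcases Nat.eq_zero_or_pos p with h | h
    · rw [h, mul_zero, Finset.card_eq_zero] at hp
      rw [hp] at hx₀
      simp at hx₀
    · exact h
  have hlt : γ.card < 2 ^ n := by
    rw [← hn]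
    apply Finset.card_lt_univ_of_notMem hx₀.2
  have hqpos : 1 ≤ q := by
    rcases Nat.eq_zero_or_pos q with h | h
    · rw [h, mul_zero] at hq
      omega
    · exact h
  obtain ⟨s, hsn, hs⟩ : ∃ s ≤ n, c = 2 ^ s := by
    apply (Nat.dvd_prime_pow Nat.prime_two).1
    have : 2 ^ n = c * (p + q) := by
      rw [mul_add, ← hp, ← hq]
      omega
    rw [this]
    exact Dvd.intro _ rfl
  have hpq1 : p * q + 1 = 2 ^ (n - d) := by
    have h1 := card_identity hγ ha₀
    rw [hn, hd, ← hN] at h1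
    have h2 : (γ.card : ℤ) = c * p := by exact_mod_cast hp
    have h3 : ((2 ^ n : ℕ) : ℤ) - γ.card = c * q := by
      have : ((2 ^ n - γ.card : ℕ) : ℤ) = c * q := by exact_mod_cast hq
      rw [← this, Nat.cast_sub hle]
    rw [h3, h2] at h1
    have h4 : (c : ℤ) ^ 2 = N * 2 ^ d := by exact_mod_cast hc2
    have h5 : (N : ℤ) * (2 ^ d * (p * q + 1)) = N * 2 ^ n := by
      push_cast at h1
      linear_combination h1 + (-(p : ℤ) * q) * h4
    have h6 : (2 ^ d * (p * q + 1) : ℤ) = 2 ^ n :=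
      mul_left_cancel₀ (by exact_mod_cast hNpos.ne') h5
    have h7 : 2 ^ d * (p * q + 1) = 2 ^ n := by exact_mod_cast h6
    have h8 : 2 ^ n = 2 ^ d * 2 ^ (n - d) := by
      rw [← pow_add]
      congr 1
      omega
    rw [h8] at h7
    exact Nat.eq_of_mul_eq_mul_left (by positivity) h7
  have hpq2 : p + q = 2 ^ (n - s) := by
    have h1 : c * (p + q) = 2 ^ n := by
      rw [mul_add, ← hp, ← hq]
      omega
    have h8 : 2 ^ n = 2 ^ s * 2 ^ (n - s) := by
      rw [← pow_add]
      congr 1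
      omega
    rw [h8, hs] at h1
    exact Nat.eq_of_mul_eq_mul_left (by positivity) h1
  rcases arith_core hppos hqpos hpq1 hpq2 with h | h | h
  · right; left
    have h1 : 2 ^ (n - d) = 2 ^ (n - s) := by
      rw [← hpq1, ← hpq2, h]
      omega
    have h2 := Nat.pow_right_injective (le_refl 2) h1
    have h3 : s = d := by omega
    rw [hp, h, hs, h3, hd, mul_one]
  · right; right
    have h1 : 2 ^ (n - d) = 2 ^ (n - s) := by
      rw [← hpq1, ← hpq2, h]
      omega
    have h2 := Nat.pow_right_injective (le_refl 2) h1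
    have h3 : s = d := by omega
    rw [h, mul_one, hs, h3] at hq
    rw [hd, hn]
    omega
  · left
    rw [hn]
    have h1 : (4 * N) * 2 ^ d = 2 ^ n * 2 ^ d := by
      have h2 : 4 * N * 2 ^ d = 4 * c ^ 2 := by rw [hc2]; ring
      rw [h2, hs, ← pow_mul, ← pow_add]
      have h3 : (4 : ℕ) = 2 ^ 2 := by norm_num
      rw [h3, ← pow_add]
      congr 1
      omega
    exact Nat.eq_of_mul_eq_mul_right (by positivity) h1

end

end Pool.Agent.SIT
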