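import Mathlib

/-!
# Character sums over finite vector spaces over `F_2`
-/

namespace Pool.Agent.SIT

open Finset

/-- The sign character of `F_2`. -/
def sgn (a : ZMod 2) : ℤ := if a = 0 then 1 else -1

lemma sgn_zero : sgn 0 = 1 := by simp [sgn]

lemma sgn_one : sgn 1 = -1 := by simp [sgn]

lemma sgn_add (a b : ZMod 2) : sgn (a + b) = sgn a * sgn b := by
  revert a b; decide

lemma zmod2_cases (a : ZMod 2) : a = 0 ∨ a = 1 := by
  revert a; decide

lemma sgn_eq_one_or (a : ZMod 2) : sgn a = 1 ∨ sgn a = -1 := by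
  revert a; decide

lemma sgn_mul_self (a : ZMod 2) : sgn a * sgn a = 1 := by
  revert a; decide

section

variable {V : Type*} [AddCommGroup V] [Module (ZMod 2) V]

lemma add_self' (x : V) : x + x = 0 := ZModModule.add_self x

lemma add_add_self (x y : V) : x + y + y = x := by
  rw [add_assoc, add_self', add_zero]

lemma self_add_add (x y : V) : x + (x + y) = y := by
  rw [← add_assoc, add_self', zero_add]

lemma eq_add_iff (x y z : V) : x = y + z ↔ x + z = y := by
  constructor
  · rintro rfl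
    exact add_add_self _ _
  · rintro rfl
    exact (add_add_self _ _).symm

lemma exists_dual (y : V) (hy : y ≠ 0) : ∃ φ : Module.Dual (ZMod 2) V, φ y = 1 := by
  by_contra hcon
  push Not at hcon
  apply hy
  apply (Module.forall_dual_apply_eq_zero_iff (ZMod 2) y).1
  intro φ
  rcases zmod2_cases (φ y) with h | h
  · exact h
  · exact absurd h (hcon φ)

lemma exists_dual_of_notMem (T : Submodule (ZMod 2) V) (y : V) (hy : y ∉ T) :
    ∃ φ : Module.Dual (ZMod 2) V, φ y = 1 ∧ ∀ t ∈ T, φ t = 0 := by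
  obtain ⟨φ, h1, h2⟩ := Submodule.exists_le_ker_of_notMem hy
  refine ⟨φ, ?_, ?_⟩
  · rcases zmod2_cases (φ y) with h | h
    · exact absurd h h1
    · exact h
  · intro t ht
    exact h2 ht

variable [Fintype V]

lemma sum_sgn_eq_zero (φ : Module.Dual (ZMod 2) V) (hφ : φ ≠ 0) : ∑ x : V, sgn (φ x) = 0 := by
  obtain ⟨v, hv⟩ : ∃ v, φ v = 1 := by
    by_contra hcon
    push Not at hcon
    apply hφ
    ext x
    rcases zmod2_cases (φ x) with h | h
    · exact h
    · exact absurd h (hcon x)
  have h1 : ∑ x : V, sgn (φ x) = ∑ x : V, sgn (φ (x + v)) :=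
    (Equiv.sum_comp (Equiv.addRight v) (fun x => sgn (φ x))).symm
  have h2 : ∑ x : V, sgn (φ (x + v)) = - ∑ x : V, sgn (φ x) := by
    rw [← Finset.sum_neg_distrib]
    apply Finset.sum_congr rfl
    intro x _
    rw [map_add, sgn_add, hv, sgn_one]
    ring
  rw [h2] at h1
  omega

instance : Finite (Module.Dual (ZMod 2) V) :=
  Finite.of_injective (fun φ : Module.Dual (ZMod 2) V => (φ : V → ZMod 2)) DFunLike.coe_injective

noncomputable instance : Fintype (Module.Dual (ZMod 2) V) := Fintype.ofFinite _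

lemma card_dual : Fintype.card (Module.Dual (ZMod 2) V) = Fintype.card V := by
  have h1 := Module.card_eq_pow_finrank (K := ZMod 2) (V := Module.Dual (ZMod 2) V)
  have h2 := Module.card_eq_pow_finrank (K := ZMod 2) (V := V)
  rw [h1, h2, Subspace.dual_finrank_eq]

lemma dual_sum_sgn_eq_zero (y : V) (hy : y ≠ 0) :
    ∑ φ : Module.Dual (ZMod 2) V, sgn (φ y) = 0 := by
  obtain ⟨ψ, hψ⟩ := exists_dual y hy
  have h1 : ∑ φ : Module.Dual (ZMod 2) V, sgn (φ y) =
      ∑ φ : Module.Dual (ZMod 2) V, sgn ((φ + ψ) y) :=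
    (Equiv.sum_comp (Equiv.addRight ψ) (fun φ : Module.Dual (ZMod 2) V => sgn (φ y))).symm
  have h2 : ∑ φ : Module.Dual (ZMod 2) V, sgn ((φ + ψ) y) =
      - ∑ φ : Module.Dual (ZMod 2) V, sgn (φ y) := by
    rw [← Finset.sum_neg_distrib]
    apply Finset.sum_congr rfl
    intro φ _
    rw [LinearMap.add_apply, sgn_add, hψ, sgn_one]
    ring
  rw [h2] at h1
  omega

variable [DecidableEq V]

/-- The character sum of a finite set. -/
def chi (γ : Finset V) (φ : Module.Dual (ZMod 2) V) : ℤ := ∑ x ∈ γ, sgn (φ x)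

omit [Fintype V] [DecidableEq V] in
lemma chi_zero (γ : Finset V) : chi γ 0 = γ.card := by
  simp [chi, sgn_zero]

/-- Fourier inversion. -/
lemma inversion (γ : Finset V) (x : V) :
    ∑ φ : Module.Dual (ZMod 2) V, chi γ φ * sgn (φ x) =
      if x ∈ γ then (Fintype.card V : ℤ) else 0 := by
  have h1 : ∑ φ : Module.Dual (ZMod 2) V, chi γ φ * sgn (φ x) =
      ∑ y ∈ γ, ∑ φ : Module.Dual (ZMod 2) V, sgn (φ (y + x)) := by
    rw [Finset.sum_comm]
    apply Finset.sum_congr rfl
    intro φ _
    rw [chi, Finset.sum_mul]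
    apply Finset.sum_congr rfl
    intro y _
    rw [map_add, sgn_add]
  rw [h1]
  have h2 : ∀ y ∈ γ, ∑ φ : Module.Dual (ZMod 2) V, sgn (φ (y + x)) =
      if y = x then (Fintype.card V : ℤ) else 0 := by
    intro y _
    split_ifs with h
    · subst h
      simp [add_self', sgn_zero, card_dual]
    · apply dual_sum_sgn_eq_zero
      intro h'
      apply h
      have := add_add_self y x
      rw [h', zero_add] at this
      exact this.symm
  rw [Finset.sum_congr rfl h2, Finset.sum_ite_eq' γ x]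

/-- The set of `x ∈ γ` with `x + a ∉ γ`. -/
def S (γ : Finset V) (a : V) : Finset V := γ.filter (fun x => x + a ∉ γ)

omit [Module (ZMod 2) V] [Fintype V] in
lemma mem_S {γ : Finset V} {a x : V} : x ∈ S γ a ↔ x ∈ γ ∧ x + a ∉ γ := by
  simp [S]

/-- Square of the character sum in terms of the autocorrelation. -/
lemma chi_sq (γ : Finset V) (φ : Module.Dual (ZMod 2) V) :
    chi γ φ ^ 2 = ∑ a : V, sgn (φ a) * ((γ.card : ℤ) - (S γ a).card) := by
  have h0 : ∀ a : V, ((γ.card : ℤ) - (S γ a).card) = ∑ x ∈ γ, if x + a ∈ γ then 1 else 0 := by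
    intro a
    have h1 := Finset.card_filter_add_card_filter_not (s := γ) (fun x => x + a ∈ γ)
    have h2 : ∑ x ∈ γ, (if x + a ∈ γ then (1 : ℤ) else 0) =
        ((γ.filter (fun x => x + a ∈ γ)).card : ℤ) := by
      rw [Finset.card_filter]
      push_cast
      rfl
    rw [h2, S]
    omega
  have h3 : ∑ a : V, sgn (φ a) * ((γ.card : ℤ) - (S γ a).card) =
      ∑ x ∈ γ, ∑ a : V, if x + a ∈ γ then sgn (φ a) else 0 := by
    rw [Finset.sum_comm]
    apply Finset.sum_congr rfl
    intro a _
    rw [h0, Finset.mul_sum]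
    apply Finset.sum_congr rfl
    intro x _
    split_ifs <;> simp
  rw [h3, sq, chi, Finset.sum_mul_sum]
  apply Finset.sum_congr rfl
  intro x _
  have h4 : ∑ a : V, (if x + a ∈ γ then sgn (φ a) else 0) =
      ∑ y : V, (if y ∈ γ then sgn (φ (x + y)) else 0) := by
    rw [← Equiv.sum_comp (Equiv.addLeft x) (fun y => if y ∈ γ then sgn (φ (x + y)) else 0)]
    apply Finset.sum_congr rfl
    intro a _
    simp only [Equiv.coe_addLeft, self_add_add]
  rw [h4, ← Finset.sum_filter]
  simp only [Finset.filter_mem_eq_inter, Finset.univ_inter]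
  apply Finset.sum_congr rfl
  intro y _
  rw [map_add, sgn_add]

end

end Pool.Agent.SIT
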