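import Pool.Agent.SIT.NecSemi

/-!
# Strongly incidence-transitive codes for permutation groups on any set; the passage from a code
to semilinear affine maps
-/

namespace Pool.Agent.SIT.Gen

open Finset

section Defs

variable {V : Type*} [DecidableEq V]

/-- The image of a finite subset under a permutation. -/
def act (g : Equiv.Perm V) (γ : Finset V) : Finset V := γ.image g

/-- `G` acts 2-transitively on `V`. -/
def IsTwoTransitive (G : Subgroup (Equiv.Perm V)) : Prop :=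
  ∀ x y x' y' : V, x ≠ y → x' ≠ y' → ∃ g ∈ G, g x = x' ∧ g y = y'

/-- `C` is a `G`-strongly incidence-transitive code in the Johnson graph `J(V, k)`:
its members are `k`-subsets, `G` stabilises `C`, and `G` is transitive on the triples
`(u, u', γ)` with `γ ∈ C`, `u ∈ γ`, `u' ∉ γ`. -/
structure IsSITCode (G : Subgroup (Equiv.Perm V)) (k : ℕ) (C : Set (Finset V)) : Prop where
  card_eq : ∀ γ ∈ C, γ.card = k
  invariant : ∀ g ∈ G, ∀ γ ∈ C, act g γ ∈ C
  transitive : ∀ γ ∈ C, ∀ u ∈ γ, ∀ u' ∉ γ, ∀ δ ∈ C, ∀ w ∈ δ, ∀ w' ∉ δ,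
    ∃ g ∈ G, act g γ = δ ∧ g u = w ∧ g u' = w'

/-- The images of `γ` under `G`. -/
def Orb (G : Subgroup (Equiv.Perm V)) (γ : Finset V) : Set (Finset V) :=
  {δ | ∃ g ∈ G, δ = act g γ}

lemma mem_act (g : Equiv.Perm V) (γ : Finset V) (x : V) : g x ∈ act g γ ↔ x ∈ γ := by
  unfold act
  rw [Finset.mem_image]
  constructor
  · rintro ⟨y, hy, hxy⟩
    rwa [← g.injective hxy]
  · intro hx
    exact ⟨x, hx, rfl⟩

lemma mem_act' (g : Equiv.Perm V) (γ : Finset V) (x : V) : x ∈ act g γ ↔ g.symm x ∈ γ := by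
  have h := mem_act g γ (g.symm x)
  rwa [g.apply_symm_apply] at h

lemma act_mul (g h : Equiv.Perm V) (γ : Finset V) : act (g * h) γ = act g (act h γ) := by
  unfold act
  rw [Finset.image_image]
  rfl

lemma act_one (γ : Finset V) : act (1 : Equiv.Perm V) γ = γ := by
  ext x
  rw [mem_act']
  rfl

lemma act_inv_act (g : Equiv.Perm V) (γ : Finset V) : act g⁻¹ (act g γ) = γ := by
  rw [← act_mul, inv_mul_cancel, act_one]

lemma act_act_inv (g : Equiv.Perm V) (γ : Finset V) : act g (act g⁻¹ γ) = γ := by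
  rw [← act_mul, mul_inv_cancel, act_one]

lemma card_act (g : Equiv.Perm V) (γ : Finset V) : (act g γ).card = γ.card :=
  Finset.card_image_of_injective _ g.injective

lemma act_eq_iff {g : Equiv.Perm V} {γ δ : Finset V} :
    act g γ = δ ↔ ∀ x, g x ∈ δ ↔ x ∈ γ := by
  constructor
  · rintro rfl x
    exact mem_act g γ x
  · intro h
    ext y
    rw [mem_act', ← h, g.apply_symm_apply]

lemma ind_act_iff (g : Equiv.Perm V) (γ δ : Finset V) :
    (∀ x, ind δ (g x) = ind γ x) ↔ act g γ = δ := by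
  rw [act_eq_iff]
  constructor
  · intro h x
    rw [← ind_eq_one, h x, ind_eq_one]
  · intro h x
    rw [ind, ind]
    by_cases hx : x ∈ γ
    · rw [if_pos hx, if_pos ((h x).2 hx)]
    · rw [if_neg hx, if_neg (fun h' => hx ((h x).1 h'))]

lemma isSIT_of {k : ℕ} {G : Subgroup (Equiv.Perm V)} {C : Set (Finset V)}
    (hcard : ∀ γ ∈ C, γ.card = k) (hinv : ∀ g ∈ G, ∀ γ ∈ C, act g γ ∈ C)
    (horb : ∀ γ ∈ C, ∀ δ ∈ C, ∃ g ∈ G, act g γ = δ)
    (hst : ∀ γ ∈ C, ∀ u ∈ γ, ∀ u' ∉ γ, ∀ w ∈ γ, ∀ w' ∉ γ,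
      ∃ g ∈ G, act g γ = γ ∧ g u = w ∧ g u' = w') :
    IsSITCode G k C := by
  refine ⟨hcard, hinv, ?_⟩
  intro γ hγ u hu u' hu' δ hδ w hw w' hw'
  obtain ⟨g₁, hg₁, rfl⟩ := horb γ hγ δ hδ
  obtain ⟨g₂, hg₂, h1, h2, h3⟩ := hst _ hδ (g₁ u) ((mem_act _ _ _).2 hu) (g₁ u')
    (fun h => hu' ((mem_act _ _ _).1 h)) w hw w' hw'
  exact ⟨g₂ * g₁, G.mul_mem hg₂ hg₁, by rw [act_mul, h1], h2, h3⟩

/-- If the stabiliser of `γ` in `G` is transitive on `γ × γᶜ`, the `G`-orbit of `γ` is a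
`G`-strongly incidence-transitive code. -/
theorem orbit_sit {G : Subgroup (Equiv.Perm V)} {γ : Finset V}
    (h : ∀ u ∈ γ, ∀ u' ∉ γ, ∀ w ∈ γ, ∀ w' ∉ γ, ∃ g ∈ G, act g γ = γ ∧ g u = w ∧ g u' = w') :
    IsSITCode G γ.card (Orb G γ) := by
  apply isSIT_of
  · rintro δ ⟨g, -, rfl⟩
    exact card_act g γ
  · rintro g hg δ ⟨g', hg', rfl⟩
    exact ⟨g * g', G.mul_mem hg hg', (act_mul g g' γ).symm⟩
  · rintro δ ⟨g, hg, rfl⟩ δ' ⟨g', hg', rfl⟩
    exact ⟨g' * g⁻¹, G.mul_mem hg' (G.inv_mem hg), by rw [act_mul, act_inv_act]⟩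
  · rintro δ ⟨g, hg, rfl⟩ u hu u' hu' w hw w' hw'
    rw [mem_act'] at hu hu' hw hw'
    obtain ⟨a, ha, h1, h2, h3⟩ := h _ hu _ hu' _ hw _ hw'
    refine ⟨g * a * g⁻¹, G.mul_mem (G.mul_mem hg ha) (G.inv_mem hg), ?_, ?_, ?_⟩
    · rw [act_mul, act_mul, act_inv_act, h1]
    · change g (a (g.symm u)) = w
      rw [h2, g.apply_symm_apply]
    · change g (a (g.symm u')) = w'
      rw [h3, g.apply_symm_apply]

/-- A code is the orbit of any of its members (proper and nonempty). -/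
theorem IsSITCode.eq_orb {G : Subgroup (Equiv.Perm V)} {k : ℕ} {C : Set (Finset V)}
    (hC : IsSITCode G k C) {γ : Finset V} (hγ : γ ∈ C) {u u' : V} (hu : u ∈ γ) (hu' : u' ∉ γ) :
    C = Orb G γ := by
  have hco : ∀ δ ∈ C, (∃ w, w ∈ δ) ∧ ∃ w', w' ∉ δ := by
    intro δ hδ
    have h1 := hC.card_eq δ hδ
    have h2 := hC.card_eq γ hγ
    constructor
    · apply Finset.card_pos.1
      rw [h1, ← h2]
      exact Finset.card_pos.2 ⟨u, hu⟩
    · by_contra hcon
      push Not at hcon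
      have h3 : γ ⊆ δ := fun x _ => hcon x
      have h4 : γ = δ := Finset.eq_of_subset_of_card_le h3 (by rw [h1, h2])
      exact hu' (h4 ▸ hcon u')
  ext δ
  constructor
  · intro hδ
    obtain ⟨⟨w, hw⟩, w', hw'⟩ := hco δ hδ
    obtain ⟨g, hg, h1, -⟩ := hC.transitive γ hγ u hu u' hu' δ hδ w hw w' hw'
    exact ⟨g, hg, h1.symm⟩
  · rintro ⟨g, hg, rfl⟩
    exact hC.invariant g hg γ hγ

/-- A member of a code and its stabiliser. -/
lemma IsSITCode.stab {G : Subgroup (Equiv.Perm V)} {k : ℕ} {C : Set (Finset V)}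
    (hC : IsSITCode G k C) {γ : Finset V} (hγ : γ ∈ C) :
    ∀ u ∈ γ, ∀ u' ∉ γ, ∀ w ∈ γ, ∀ w' ∉ γ, ∃ g ∈ G, act g γ = γ ∧ g u = w ∧ g u' = w' :=
  fun u hu u' hu' w hw w' hw' => hC.transitive γ hγ u hu u' hu' γ hγ w hw w' hw'

variable [Fintype V]

lemma act_compl (g : Equiv.Perm V) (γ : Finset V) : act g γᶜ = (act g γ)ᶜ := by
  ext x
  rw [mem_act', Finset.mem_compl, Finset.mem_compl, mem_act']

/-- Complementary codes. -/
theorem IsSITCode.compl {G : Subgroup (Equiv.Perm V)} {k : ℕ} {C : Set (Finset V)}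
    (hC : IsSITCode G k C) : IsSITCode G (Fintype.card V - k) {γ | γᶜ ∈ C} := by
  refine ⟨?_, ?_, ?_⟩
  · intro γ hγ
    have h1 := hC.card_eq _ hγ
    rw [Finset.card_compl] at h1
    have h2 := Finset.card_le_univ γ
    omega
  · intro g hg γ hγ
    change (act g γ)ᶜ ∈ C
    rw [← act_compl]
    exact hC.invariant g hg _ hγ
  · intro γ hγ u hu u' hu' δ hδ w hw w' hw'
    obtain ⟨g, hg, h1, h2, h3⟩ := hC.transitive _ hγ u' (Finset.mem_compl.2 hu') u
      (fun h => Finset.mem_compl.1 h hu) _ hδ w' (Finset.mem_compl.2 hw') w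
      (fun h => Finset.mem_compl.1 h hw)
    refine ⟨g, hg, ?_, h3, h2⟩
    rw [act_compl] at h1
    exact compl_injective h1

end Defs

section Transfer

variable {V W : Type*} [DecidableEq V] [DecidableEq W]

/-- Transport of a permutation group along a bijection. -/
def conj (e : V ≃ W) (G : Subgroup (Equiv.Perm V)) : Subgroup (Equiv.Perm W) :=
  G.map e.permCongrHom.toMonoidHom

omit [DecidableEq V] [DecidableEq W] in
lemma mem_conj {e : V ≃ W} {G : Subgroup (Equiv.Perm V)} {h : Equiv.Perm W} :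
    h ∈ conj e G ↔ ∃ g ∈ G, ∀ x, h (e x) = e (g x) := by
  constructor
  · rintro ⟨g, hg, rfl⟩
    refine ⟨g, hg, fun x => ?_⟩
    change e (g (e.symm (e x))) = e (g x)
    rw [e.symm_apply_apply]
  · rintro ⟨g, hg, hgh⟩
    refine ⟨g, hg, ?_⟩
    ext y
    change e (g (e.symm y)) = h y
    rw [← hgh, e.apply_symm_apply]

/-- Transport of a family of finite subsets. -/
def img (e : V ≃ W) (C : Set (Finset V)) : Set (Finset W) := {δ | δ.image e.symm ∈ C}

lemma image_symm_image (e : V ≃ W) (γ : Finset V) : (γ.image e).image e.symm = γ := by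
  ext x
  simp

theorem IsSITCode.transfer {G : Subgroup (Equiv.Perm V)} {k : ℕ} {C : Set (Finset V)}
    (hC : IsSITCode G k C) (e : V ≃ W) : IsSITCode (conj e G) k (img e C) := by
  have hm : ∀ (δ : Finset W) (x : V), x ∈ δ.image e.symm ↔ e x ∈ δ := by
    intro δ x
    rw [Finset.mem_image]
    constructor
    · rintro ⟨y, hy, rfl⟩
      rwa [e.apply_symm_apply]
    · intro h
      exact ⟨e x, h, e.symm_apply_apply x⟩
  have hact : ∀ {g : Equiv.Perm V} {h : Equiv.Perm W}, (∀ x, h (e x) = e (g x)) →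
      ∀ δ : Finset W, (act h δ).image e.symm = act g (δ.image e.symm) := by
    intro g h hgh δ
    ext x
    rw [hm, mem_act', mem_act', hm]
    have h1 : h.symm (e x) = e (g.symm x) := by
      rw [Equiv.symm_apply_eq, hgh, g.apply_symm_apply]
    rw [h1]
  refine ⟨?_, ?_, ?_⟩
  · intro δ hδ
    rw [← hC.card_eq _ hδ, Finset.card_image_of_injective _ e.symm.injective]
  · intro h hh δ hδ
    obtain ⟨g, hg, hgh⟩ := mem_conj.1 hh
    change (act h δ).image e.symm ∈ C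
    rw [hact hgh]
    exact hC.invariant g hg _ hδ
  · intro γ hγ u hu u' hu' δ hδ w hw w' hw'
    have hs : ∀ (δ : Finset W) (y : W), e.symm y ∈ δ.image e.symm ↔ y ∈ δ := by
      intro δ y
      rw [hm, e.apply_symm_apply]
    obtain ⟨g, hg, h1, h2, h3⟩ := hC.transitive _ hγ (e.symm u) ((hs _ _).2 hu) (e.symm u')
      (fun h => hu' ((hs _ _).1 h)) _ hδ (e.symm w) ((hs _ _).2 hw) (e.symm w')
      (fun h => hw' ((hs _ _).1 h))
    refine ⟨(e.symm.trans g).trans e, mem_conj.2 ⟨g, hg, fun x => ?_⟩, ?_, ?_, ?_⟩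
    · change e (g (e.symm (e x))) = e (g x)
      rw [e.symm_apply_apply]
    · rw [act_eq_iff] at h1 ⊢
      intro x
      change e (g (e.symm x)) ∈ δ ↔ x ∈ γ
      rw [← hm, h1, hs]
    · change e (g (e.symm u)) = w
      rw [h2, e.apply_symm_apply]
    · change e (g (e.symm u')) = w'
      rw [h3, e.apply_symm_apply]

/-- the affine group as a group of permutations of `F_2^n` -/
def permOf {n : ℕ} (G : Subgroup (AGL n)) : Subgroup (Equiv.Perm (Vec n)) where
  carrier := {h | ∃ g ∈ G, ∀ x, h x = g x}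
  mul_mem' := by
    rintro a b ⟨g, hg, h1⟩ ⟨g', hg', h2⟩
    exact ⟨g * g', G.mul_mem hg hg', fun x => by
      change a (b x) = g (g' x)
      rw [h2, h1]⟩
  one_mem' := ⟨1, G.one_mem, fun x => rfl⟩
  inv_mem' := by
    rintro a ⟨g, hg, h1⟩
    refine ⟨g⁻¹, G.inv_mem hg, fun x => ?_⟩
    change a.symm x = g.symm x
    rw [Equiv.symm_apply_eq, h1, g.apply_symm_apply]

/-- The two notions of a code agree. -/
theorem isSIT_permOf {n k : ℕ} {G : Subgroup (AGL n)} {C : Set (Finset (Vec n))} :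
    IsSITCode (permOf G) k C ↔ SIT.IsSITCode G k C := by
  have hact : ∀ {a : Equiv.Perm (Vec n)} {g : AGL n}, (∀ x, a x = g x) → ∀ γ,
      act a γ = SIT.act g γ := by
    intro a g h γ
    unfold act SIT.act
    exact Finset.image_congr (fun x _ => h x)
  constructor
  · intro h
    refine ⟨h.card_eq, ?_, ?_⟩
    · intro g hg γ hγ
      have := h.invariant g.toEquiv ⟨g, hg, fun _ => rfl⟩ γ hγ
      rwa [hact (g := g) (fun x => rfl)] at this
    · intro γ hγ u hu u' hu' δ hδ w hw w' hw'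
      obtain ⟨a, ⟨g, hg, hag⟩, h1, h2, h3⟩ := h.transitive γ hγ u hu u' hu' δ hδ w hw w' hw'
      exact ⟨g, hg, by rw [← hact hag, h1], by rw [← hag, h2], by rw [← hag, h3]⟩
  · intro h
    refine ⟨h.card_eq, ?_, ?_⟩
    · rintro a ⟨g, hg, hag⟩ γ hγ
      rw [hact hag]
      exact h.invariant g hg γ hγ
    · intro γ hγ u hu u' hu' δ hδ w hw w' hw'
      obtain ⟨g, hg, h1, h2, h3⟩ := h.transitive γ hγ u hu u' hu' δ hδ w hw w' hw'
      refine ⟨g.toEquiv, ⟨g, hg, fun _ => rfl⟩, ?_, h2, h3⟩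
      rw [hact (g := g) (fun x => rfl), h1]

end Transfer

section Semi

variable {F : Type*} [Field F] {V : Type*} [AddCommGroup V] [Module F V]

/-- Every member of `G` is an affine map, semilinear over `F`. -/
def SemiG (F : Type*) [Field F] {V : Type*} [AddCommGroup V] [Module F V]
    (G : Subgroup (Equiv.Perm V)) : Prop :=
  ∀ h ∈ G, ∃ (g : V ≃+ V) (t : V) (σ : F ≃+* F), (∀ (c : F) (x : V), g (c • x) = σ c • g x) ∧
    ∀ x, h x = g x + t

/-- `x ↦ g x + t` is a member of `G`, semilinear for `σ`. -/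
def PG (G : Subgroup (Equiv.Perm V)) (g : V ≃+ V) (t : V) (σ : F ≃+* F) : Prop :=
  (∀ (c : F) (x : V), g (c • x) = σ c • g x) ∧ ∃ h ∈ G, ∀ x, h x = g x + t

/-- `x ↦ g x + t` is a member of `G`, semilinear for `σ`, that preserves `γ`. -/
def PGs (G : Subgroup (Equiv.Perm V)) (γ : Finset V) (g : V ≃+ V) (t : V) (σ : F ≃+* F) : Prop :=
  (∀ (c : F) (x : V), g (c • x) = σ c • g x) ∧
    ∃ h ∈ G, (∀ x, h x = g x + t) ∧ ∀ x, h x ∈ γ ↔ x ∈ γ

/-- The affine map `x ↦ g x + t`. -/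
def toP (g : V ≃+ V) (t : V) : Equiv.Perm V := g.toEquiv.trans (Equiv.addRight t)

lemma toP_apply (g : V ≃+ V) (t x : V) : toP g t x = g x + t := rfl

lemma PG_toP {G : Subgroup (Equiv.Perm V)} {g : V ≃+ V} {t : V} {σ : F ≃+* F}
    (h : PG G g t σ) : toP g t ∈ G := by
  obtain ⟨-, a, ha, h1⟩ := h
  have : a = toP g t := by
    ext x
    rw [h1, toP_apply]
  rwa [← this]

lemma PG_mul {G : Subgroup (Equiv.Perm V)} {g t} {σ : F ≃+* F} {g' t'} {σ' : F ≃+* F}
    (h : PG G g t σ) (h' : PG G g' t' σ') : PG G (g'.trans g) (g t' + t) (σ'.trans σ) := by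
  obtain ⟨h1, a, ha, h2⟩ := h
  obtain ⟨h1', a', ha', h2'⟩ := h'
  refine ⟨?_, a * a', G.mul_mem ha ha', ?_⟩
  · intro c x
    change g (g' (c • x)) = σ (σ' c) • g (g' x)
    rw [h1', h1]
  · intro x
    change a (a' x) = g (g' x) + (g t' + t)
    rw [h2', h2, map_add, add_assoc]

lemma PG_inv (h2 : ∀ x : V, x + x = 0) {G : Subgroup (Equiv.Perm V)} {g t} {σ : F ≃+* F}
    (h : PG G g t σ) : PG G g.symm (g.symm t) σ.symm := by
  obtain ⟨h1, a, ha, h3⟩ := h
  refine ⟨?_, a⁻¹, G.inv_mem ha, ?_⟩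
  · intro c x
    rw [AddEquiv.symm_apply_eq, h1, σ.apply_symm_apply, g.apply_symm_apply]
  · intro x
    change a.symm x = _
    rw [Equiv.symm_apply_eq, h3, map_add, g.apply_symm_apply, g.apply_symm_apply, add_assoc, h2,
      add_zero]

lemma PGs_mul {G : Subgroup (Equiv.Perm V)} {γ : Finset V} {g t} {σ : F ≃+* F} {g' t'}
    {σ' : F ≃+* F} (h : PGs G γ g t σ) (h' : PGs G γ g' t' σ') :
    PGs G γ (g'.trans g) (g t' + t) (σ'.trans σ) := by
  obtain ⟨h1, a, ha, h2, h3⟩ := h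
  obtain ⟨h1', a', ha', h2', h3'⟩ := h'
  refine ⟨?_, a * a', G.mul_mem ha ha', ?_, ?_⟩
  · intro c x
    change g (g' (c • x)) = σ (σ' c) • g (g' x)
    rw [h1', h1]
  · intro x
    change a (a' x) = g (g' x) + (g t' + t)
    rw [h2', h2, map_add, add_assoc]
  · intro x
    change a (a' x) ∈ γ ↔ x ∈ γ
    rw [h3, h3']

lemma PGs_inv (h2 : ∀ x : V, x + x = 0) {G : Subgroup (Equiv.Perm V)} {γ : Finset V} {g t}
    {σ : F ≃+* F} (h : PGs G γ g t σ) : PGs G γ g.symm (g.symm t) σ.symm := by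
  obtain ⟨h1, a, ha, h3, h4⟩ := h
  refine ⟨?_, a⁻¹, G.inv_mem ha, ?_, ?_⟩
  · intro c x
    rw [AddEquiv.symm_apply_eq, h1, σ.apply_symm_apply, g.apply_symm_apply]
  · intro x
    change a.symm x = _
    rw [Equiv.symm_apply_eq, h3, map_add, g.apply_symm_apply, g.apply_symm_apply, add_assoc, h2,
      add_zero]
  · intro x
    change a.symm x ∈ γ ↔ x ∈ γ
    rw [← h4, a.apply_symm_apply]

/-- From a code to `SG`. -/
theorem sg_of_sit [DecidableEq V] (h2 : ∀ x : V, x + x = 0) {G : Subgroup (Equiv.Perm V)}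
    (hG : SemiG F G) {k : ℕ} {C : Set (Finset V)} (hC : IsSITCode G k C) {γ : Finset V}
    (hγ : γ ∈ C) : SG (F := F) (ind γ) (PGs G γ) where
  semi := fun h c x => h.1 c x
  pres := by
    rintro g t σ ⟨-, a, -, h1, h2⟩ x
    rw [← h1, ind, ind]
    simp only [h2]
  one := ⟨fun _ _ => rfl, 1, G.one_mem, fun x => (add_zero x).symm, fun x => Iff.rfl⟩
  mul := PGs_mul
  inv := PGs_inv h2
  trans := by
    intro x y x' y' h1 h3 h4
    have key : ∀ x y x' y' : V, x ∈ γ → y ∉ γ → x' ∈ γ → y' ∉ γ →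
        ∃ g t, ∃ σ : F ≃+* F, PGs G γ g t σ ∧ g x + t = x' ∧ g y + t = y' := by
      intro x y x' y' hx hy hx' hy'
      obtain ⟨a, ha, h5, h6, h7⟩ := hC.stab hγ x hx y hy x' hx' y' hy'
      obtain ⟨g, t, σ, h8, h9⟩ := hG a ha
      exact ⟨g, t, σ, ⟨h8, a, ha, h9, act_eq_iff.1 h5⟩, by rw [← h9, h6], by rw [← h9, h7]⟩
    by_cases hx : x ∈ γ
    · have hx' : x' ∈ γ := by
        rw [← ind_eq_one, ← h1, ind_eq_one]
        exact hx
      have hy : y ∉ γ := by
        intro hy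
        apply h4
        rw [ind_eq_one.2 hx, ind_eq_one.2 hy]
      have hy' : y' ∉ γ := by
        rw [← ind_eq_zero_iff, ← h3, ind_eq_zero_iff]
        exact hy
      exact key x y x' y' hx hy hx' hy'
    · have hx' : x' ∉ γ := by
        rw [← ind_eq_zero_iff, ← h1, ind_eq_zero_iff]
        exact hx
      have hy : y ∈ γ := by
        by_contra hy
        apply h4
        rw [ind_eq_zero_iff.2 hx, ind_eq_zero_iff.2 hy]
      have hy' : y' ∈ γ := by
        rw [← ind_eq_one, ← h3, ind_eq_one]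
        exact hy
      obtain ⟨g, t, σ, h5, h6, h7⟩ := key y x y' x' hy hx hy' hx'
      exact ⟨g, t, σ, h5, h7, h6⟩

end Semi

end Pool.Agent.SIT.Gen
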