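import Pool.Agent.SIT.LinB

/-!
# Dimension one: additive subgroups of `F` with semilinear stabiliser transitive on the complement
-/

namespace Pool.Agent.SIT.Lin

open Finset

/-- arithmetic -/
lemma arith_C {a s κ i : ℕ} (hs : 1 ≤ s) (hsa : s < a) (h1 : (2 ^ a - 2 ^ s) ∣ κ * i)
    (hκ : Odd κ) (hκ' : κ ≤ 2 ^ s - 1) (hi : i ∣ a) (hi0 : 0 < i) :
    (a = 2 ∧ s = 1 ∧ i = 2) ∨ (a = 4 ∧ s = 2 ∧ i = 4 ∧ κ = 3) := by
  obtain ⟨t, rfl⟩ : ∃ t, a = s + t := ⟨a - s, by omega⟩
  have ht : 1 ≤ t := by omega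
  have hfac : 2 ^ (s + t) - 2 ^ s = 2 ^ s * (2 ^ t - 1) := by
    rw [pow_add, Nat.mul_sub, mul_one]
  rw [hfac] at h1
  have hκ0 : 0 < κ := hκ.pos
  have h2 : 2 ^ s ∣ i := by
    have h3 : 2 ^ s ∣ κ * i := (Dvd.intro _ rfl).trans h1
    exact (Nat.Coprime.dvd_of_dvd_mul_left (Nat.Coprime.pow_left s
      (Nat.coprime_two_left.2 hκ)) h3)
  have h3 : 2 ^ s ≤ i := Nat.le_of_dvd hi0 h2
  have h4 : i ≤ s + t := Nat.le_of_dvd (by omega) hi
  have h5 : 2 ^ s * (2 ^ t - 1) ≤ κ * i := Nat.le_of_dvd (by positivity) h1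
  have h6 : κ * i ≤ (2 ^ s - 1) * (s + t) := Nat.mul_le_mul hκ' h4
  have hs2 : s < 2 ^ s := Nat.lt_two_pow_self
  have ht2 : t < 2 ^ t := Nat.lt_two_pow_self
  have h7 : 2 ^ t ≤ s + t := by
    by_contra hcon
    push Not at hcon
    have h8 : s + t ≤ 2 ^ t - 1 := by omega
    have h9 : 2 ^ s * (s + t) ≤ 2 ^ s * (2 ^ t - 1) := Nat.mul_le_mul_left _ h8
    have h10 : (2 ^ s - 1) * (s + t) + (s + t) = 2 ^ s * (s + t) := by
      have : 0 < 2 ^ s := by positivity
      obtain ⟨c, hc⟩ : ∃ c, 2 ^ s = c + 1 := ⟨2 ^ s - 1, by omega⟩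
      rw [hc, Nat.add_sub_cancel]
      ring
    omega
  have h8 : 2 ^ s ≤ s + t := by omega
  -- `s, t ≤ 2`
  have hgrow : ∀ x : ℕ, 3 ≤ x → 2 * x + 2 ≤ 2 ^ x := by
    intro x hx
    induction x, hx using Nat.le_induction with
    | base => norm_num
    | succ n hn ih => rw [pow_succ]; omega
  rcases Nat.lt_or_ge s 3 with hs3 | hs3
  · rcases Nat.lt_or_ge t 3 with ht3 | ht3
    · have : s = 1 ∨ s = 2 := by omega
      have : t = 1 ∨ t = 2 := by omega
      rcases ‹s = 1 ∨ s = 2› with rfl | rfl <;> rcases ‹t = 1 ∨ t = 2› with rfl | rfl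
      · left
        norm_num at *
        omega
      · exfalso
        norm_num at *
      · exfalso
        norm_num at *
      · right
        have hi4 : i = 4 := by
          have h11 : i ≤ 4 := h4
          have h12 : 4 ≤ i := h3
          omega
        subst hi4
        refine ⟨rfl, rfl, rfl, ?_⟩
        have h11 : κ ≤ 3 := hκ'
        have h12 : 2 ^ 2 * (2 ^ 2 - 1) ∣ κ * 4 := h1
        interval_cases κ
        · exact absurd h12 (by norm_num)
        · exact absurd h12 (by norm_num)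
        · rfl
    · have := hgrow t ht3
      omega
  · have h9 := hgrow s hs3
    have h10 : s + 2 ≤ t := by omega
    have := hgrow t (by omega)
    omega

variable {F : Type*} [Field F] [Fintype F] [CharP F 2]

/-- The number of automorphisms of `F` is `log_2 |F|`. -/
lemma card_aut {a : ℕ} (ha : Fintype.card F = 2 ^ a) : Nat.card (F ≃+* F) = a := by
  let _ : Algebra (ZMod 2) F := ZMod.algebra F 2
  have h1 : Nat.card (F ≃ₐ[ZMod 2] F) = Module.finrank (ZMod 2) F :=
    IsGalois.card_aut_eq_finrank (ZMod 2) F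
  have h2 : Fintype.card F = 2 ^ Module.finrank (ZMod 2) F := by
    have := Module.card_eq_pow_finrank (K := ZMod 2) (V := F)
    rwa [ZMod.card] at this
  have h3 : Module.finrank (ZMod 2) F = a := by
    rw [h2] at ha
    exact Nat.pow_right_injective (le_refl 2) ha
  rw [← h3, ← h1]
  apply Nat.card_congr
  refine ⟨fun σ => AlgEquiv.ofRingEquiv (f := σ) (fun r => ?_), fun σ => σ.toRingEquiv,
    fun σ => ?_, fun σ => ?_⟩
  · have h4 : ((σ : F →+* F).comp (algebraMap (ZMod 2) F)) = algebraMap (ZMod 2) F :=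
      Subsingleton.elim _ _
    exact RingHom.congr_fun h4 r
  · rfl
  · rfl

/-- semilinear maps of `F` -/
def IsSemi (k : Equiv.Perm F) (σ : F ≃+* F) : Prop := ∀ x, k x = k 1 * σ x

omit [Fintype F] [CharP F 2] in
lemma isSemi_one_ne {k : Equiv.Perm F} {σ : F ≃+* F} (h : IsSemi k σ) : k 1 ≠ 0 := by
  intro h1
  have h2 := h 0
  rw [map_zero σ, mul_zero] at h2
  exact one_ne_zero (k.injective (h1.trans h2.symm))

omit [Fintype F] [CharP F 2] in
lemma isSemi_unique {k : Equiv.Perm F} {σ τ : F ≃+* F} (h1 : IsSemi k σ) (h2 : IsSemi k τ) :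
    σ = τ := by
  ext x
  exact mul_left_cancel₀ (isSemi_one_ne h1) ((h1 x).symm.trans (h2 x))

/-- The action on the complement of `U`. -/
@[reducible] def actCompl (U : AddSubgroup F) (K : Subgroup (Equiv.Perm F))
    (hK : ∀ k ∈ K, ∀ x, k x ∈ U ↔ x ∈ U) : MulAction K {x : F // x ∉ U} where
  smul k x := ⟨k.1 x.1, fun h => x.2 ((hK k.1 k.2 x.1).1 h)⟩
  one_smul _ := rfl
  mul_smul _ _ _ := rfl

/-- The dimension one case. -/
theorem dim_one {a s : ℕ} (ha : Fintype.card F = 2 ^ a) (U : AddSubgroup F)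
    (hUc : Nat.card U = 2 ^ s) (hs : 1 ≤ s) (hsa : s < a) (K : Subgroup (Equiv.Perm F))
    (hK : ∀ k ∈ K, ∀ x, k x ∈ U ↔ x ∈ U) (hK' : ∀ k ∈ K, ∃ σ : F ≃+* F, IsSemi k σ)
    (htr : ∀ x, x ∉ U → ∀ y, y ∉ U → ∃ k ∈ K, k x = y) :
    (a = 2 ∧ s = 1 ∧ ∃ k ∈ K, ∃ σ, IsSemi k σ ∧ σ ≠ RingEquiv.refl F) ∨
    (a = 4 ∧ s = 2 ∧ (∀ c : F, c ^ 4 = c → ∀ u ∈ U, c * u ∈ U) ∧
      ∀ σ : F ≃+* F, ∃ k ∈ K, IsSemi k σ) := by
  classical
  -- the homomorphism to the automorphism group
  let ρ : K →* (F ≃+* F) := MonoidHom.mk' (fun k => Classical.choose (hK' k.1 k.2)) (by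
    intro k l
    have h1 := Classical.choose_spec (hK' k.1 k.2)
    have h2 := Classical.choose_spec (hK' l.1 l.2)
    apply isSemi_unique (Classical.choose_spec (hK' (k * l).1 (k * l).2))
    intro x
    change k.1 (l.1 x) = k.1 (l.1 1) * (Classical.choose (hK' k.1 k.2))
      ((Classical.choose (hK' l.1 l.2)) x)
    rw [h1 (l.1 x), h2 x, h1 (l.1 1), map_mul, mul_assoc])
  have hρ : ∀ k : K, IsSemi k.1 (ρ k) := fun k => Classical.choose_spec (hK' k.1 k.2)
  have hKfin : Finite K := inferInstance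
  -- orders
  have hcardK : Nat.card ρ.ker * Nat.card ρ.range = Nat.card K := by
    rw [← Subgroup.index_ker, Subgroup.card_mul_index]
  have hrange : Nat.card ρ.range ∣ a := by
    rw [← card_aut ha]
    exact Subgroup.card_subgroup_dvd_card _
  -- the kernel embeds into the group of units
  let ι : ρ.ker →* Fˣ := MonoidHom.mk' (fun k => Units.mk0 (k.1.1 1) (isSemi_one_ne (hρ k.1))) (by
    intro k l
    apply Units.ext
    change k.1.1 (l.1.1 1) = k.1.1 1 * l.1.1 1
    have h1 := hρ k.1 (l.1.1 1)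
    have h2 : ρ k.1 = 1 := k.2
    rw [h2] at h1
    exact h1)
  have hker : ∀ (k : ρ.ker) (x : F), k.1.1 x = k.1.1 1 * x := by
    intro k x
    have h1 := hρ k.1 x
    have h2 : ρ k.1 = 1 := k.2
    rw [h2] at h1
    exact h1
  have hι : Function.Injective ι := by
    intro k l hkl
    have h1 : k.1.1 1 = l.1.1 1 := congrArg Units.val hkl
    apply Subtype.ext
    apply Subtype.ext
    apply Equiv.ext
    intro x
    rw [hker k, hker l, h1]
  have hodd : Odd (Nat.card ρ.ker) := by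
    have h1 : Nat.card ρ.ker ∣ Nat.card Fˣ := Subgroup.card_dvd_of_injective ι hι
    have h2 : Nat.card Fˣ = 2 ^ a - 1 := by
      rw [Nat.card_eq_fintype_card, Fintype.card_units, ha]
    rw [h2] at h1
    apply Odd.of_dvd_nat _ h1
    have h3 : Even (2 ^ a) := (Nat.even_pow.2 ⟨even_two, by omega⟩)
    have h4 : 1 ≤ 2 ^ a := Nat.one_le_two_pow
    exact Nat.Even.sub_odd h4 h3 odd_one
  -- a nonzero element of `U`
  obtain ⟨u₀, hu₀, hu₀'⟩ : ∃ u ∈ U, u ≠ 0 := by
    by_contra hcon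
    push Not at hcon
    have h1 : U = ⊥ := by
      rw [AddSubgroup.eq_bot_iff_forall]
      exact hcon
    rw [h1, AddSubgroup.card_bot] at hUc
    have : 2 ^ 1 ≤ 2 ^ s := Nat.pow_le_pow_right (by norm_num) hs
    omega
  have hkerU : ∀ k : ρ.ker, k.1.1 1 * u₀ ∈ U := by
    intro k
    rw [← hker]
    exact (hK k.1.1 k.1.2 u₀).2 hu₀
  have hle : Nat.card ρ.ker ≤ 2 ^ s - 1 := by
    have h1 : Nat.card ρ.ker ≤ Nat.card {u : U // u ≠ 0} := by
      apply Nat.card_le_card_of_injective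
        (fun k : ρ.ker => (⟨⟨k.1.1 1 * u₀, hkerU k⟩, by
          intro h
          have h2 : k.1.1 1 * u₀ = 0 := congrArg Subtype.val h
          rcases mul_eq_zero.1 h2 with h3 | h3
          · exact isSemi_one_ne (hρ k.1) h3
          · exact hu₀' h3⟩ : {u : U // u ≠ 0}))
      intro k l hkl
      apply hι
      apply Units.ext
      have h2 : k.1.1 1 * u₀ = l.1.1 1 * u₀ := congrArg (fun z => z.1.1) hkl
      exact mul_right_cancel₀ hu₀' h2
    have h2 : Nat.card {u : U // u ≠ 0} = 2 ^ s - 1 := by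
      have : Fintype U := Fintype.ofFinite U
      rw [Nat.card_eq_fintype_card, Fintype.card_subtype_compl, Fintype.card_subtype_eq,
        ← Nat.card_eq_fintype_card, hUc]
    rw [h2] at h1
    exact h1
  -- orbit-stabiliser
  have horb : (2 ^ a - 2 ^ s) ∣ Nat.card ρ.ker * Nat.card ρ.range := by
    rw [hcardK]
    let _ := actCompl U K hK
    have htrans : MulAction.IsPretransitive K {x : F // x ∉ U} := by
      constructor
      intro x y
      obtain ⟨k, hk, h1⟩ := htr x.1 x.2 y.1 y.2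
      exact ⟨⟨k, hk⟩, Subtype.ext h1⟩
    obtain ⟨x₀, hx₀⟩ : ∃ x : F, x ∉ U := by
      by_contra hcon
      push Not at hcon
      have h1 : U = ⊤ := by
        rw [AddSubgroup.eq_top_iff']
        exact hcon
      rw [h1, AddSubgroup.card_top, Nat.card_eq_fintype_card, ha] at hUc
      have := Nat.pow_right_injective (le_refl 2) hUc
      omega
    have h1 := MulAction.index_stabilizer_of_transitive (G := K) (⟨x₀, hx₀⟩ : {x : F // x ∉ U})
    have h2 : Nat.card {x : F // x ∉ U} = 2 ^ a - 2 ^ s := by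
      rw [Nat.card_eq_fintype_card, Fintype.card_subtype_compl, ha, ← hUc,
        Nat.card_eq_fintype_card]
    rw [← h2, ← h1]
    exact Subgroup.index_dvd_card _
  have hpos : 0 < Nat.card ρ.range := Nat.card_pos
  rcases arith_C hs hsa horb hodd hle hrange hpos with ⟨rfl, rfl, hi⟩ | ⟨rfl, rfl, hi, hκ⟩
  · left
    refine ⟨rfl, rfl, ?_⟩
    by_contra hcon
    push Not at hcon
    have h1 : ρ.range = ⊥ := by
      rw [Subgroup.eq_bot_iff_forall]
      rintro _ ⟨k, rfl⟩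
      exact hcon k.1 k.2 (ρ k) (hρ k)
    rw [h1, Subgroup.card_bot] at hi
    omega
  · right
    refine ⟨rfl, rfl, ?_, ?_⟩
    · intro c hc u hu
      by_cases hc0 : c = 0
      · rw [hc0, zero_mul]
        exact U.zero_mem
      have hc3 : (Units.mk0 c hc0) ^ 3 = 1 := by
        apply Units.ext
        rw [Units.val_pow_eq_pow_val, Units.val_mk0, Units.val_one]
        apply mul_right_cancel₀ hc0
        rw [one_mul, ← pow_succ]
        exact hc
      -- the kernel is the group of the cube roots of unity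
      have h1 : (univ.filter (fun x : Fˣ => x ^ 3 = 1)).card ≤ 3 :=
        IsCyclic.card_pow_eq_one_le (by norm_num)
      have : Fintype ρ.ker := Fintype.ofFinite _
      have h2 : (univ : Finset ρ.ker).image ι = univ.filter (fun x : Fˣ => x ^ 3 = 1) := by
        apply Finset.eq_of_subset_of_card_le
        · intro x hx
          rw [mem_image] at hx
          obtain ⟨k, -, rfl⟩ := hx
          rw [mem_filter]
          refine ⟨mem_univ _, ?_⟩
          rw [← map_pow, ← hκ, pow_card_eq_one', map_one]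
        · rw [Finset.card_image_of_injective _ hι, Finset.card_univ, ← Nat.card_eq_fintype_card,
            hκ]
          exact h1
      have h3 : Units.mk0 c hc0 ∈ (univ : Finset ρ.ker).image ι := by
        rw [h2, mem_filter]
        exact ⟨mem_univ _, hc3⟩
      rw [mem_image] at h3
      obtain ⟨k, -, hk⟩ := h3
      have h4 : k.1.1 1 = c := congrArg Units.val hk
      rw [← h4, ← hker]
      exact (hK k.1.1 k.1.2 u).2 hu
    · intro σ
      have h1 : ρ.range = ⊤ := by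
        apply Subgroup.eq_top_of_card_eq
        rw [hi, card_aut ha]
      have h2 : σ ∈ ρ.range := by rw [h1]; exact Subgroup.mem_top _
      obtain ⟨k, rfl⟩ := h2
      exact ⟨k.1, k.2, hρ k⟩

/-! ### The general statement -/

variable {V : Type*} [AddCommGroup V] [Module F V]

/-- `P` is a group of semilinear permutations `(g, σ)` preserving `W`, transitive on the
complement of `W`. -/
structure SemiFam (W : AddSubgroup V) (P : (V ≃+ V) → (F ≃+* F) → Prop) : Prop where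
  semi : ∀ g σ, P g σ → ∀ (c : F) (x : V), g (c • x) = σ c • g x
  pres : ∀ g σ, P g σ → ∀ x, g x ∈ W ↔ x ∈ W
  one : P (AddEquiv.refl V) (RingEquiv.refl F)
  mul : ∀ g σ h τ, P g σ → P h τ → P (g.trans h) (σ.trans τ)
  inv : ∀ g σ, P g σ → P g.symm σ.symm
  tr : ∀ x, x ∉ W → ∀ y, y ∉ W → ∃ g σ, P g σ ∧ g x = y

omit [Fintype F] [CharP F 2] in
lemma SemiFam.core_mem {W : AddSubgroup V} {P : (V ≃+ V) → (F ≃+* F) → Prop} (h : SemiFam W P)
    {g : V ≃+ V} {σ : F ≃+* F} (hg : P g σ) {w : V} (hw : w ∈ core F W) : g w ∈ core F W := by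
  intro c
  have h1 := h.semi g σ hg (σ.symm c) w
  rw [σ.apply_symm_apply] at h1
  rw [← h1, h.pres g σ hg]
  exact hw _

omit [Fintype F] [CharP F 2] in
lemma SemiFam.core_iff {W : AddSubgroup V} {P : (V ≃+ V) → (F ≃+* F) → Prop} (h : SemiFam W P)
    {g : V ≃+ V} {σ : F ≃+* F} (hg : P g σ) {w : V} : g w ∈ core F W ↔ w ∈ core F W := by
  refine ⟨fun h1 => ?_, h.core_mem hg⟩
  have h2 := h.core_mem (h.inv g σ hg) h1
  rwa [g.symm_apply_apply] at h2

/-- A proper subgroup whose semilinear stabiliser is transitive outside it is an `F`-subspace, or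
an `F_2`-hyperplane and `|F| = 4`, or an `F_4`-hyperplane and `|F| = 16`. -/
theorem lin_flat [Finite V] {W : AddSubgroup V} {P : (V ≃+ V) → (F ≃+* F) → Prop}
    (h : SemiFam W P) :
    (∀ (c : F) (w : V), w ∈ W → c • w ∈ W) ∨
    (Fintype.card F = 4 ∧ W.index = 2 ∧ ∃ g σ, P g σ ∧ σ ≠ RingEquiv.refl F) ∨
    (Fintype.card F = 16 ∧ W.index = 4 ∧ (∀ c : F, c ^ 4 = c → ∀ w ∈ W, c • w ∈ W) ∧
      ∀ σ : F ≃+* F, ∃ g, P g σ) := by
  by_cases hW : ∀ (c : F) (w : V), w ∈ W → c • w ∈ W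
  · exact Or.inl hW
  right
  have hcount : ∀ x, x ∉ W → ∀ y, y ∉ W → Nat.card (scal F W x) = Nat.card (scal F W y) := by
    intro x hx y hy
    obtain ⟨g, σ, hg, hxy⟩ := h.tr x hx y hy
    have key : ∀ c : F, σ c ∈ scal F W y ↔ c ∈ scal F W x := by
      intro c
      rw [mem_scal, mem_scal, ← hxy, ← h.semi g σ hg, h.pres g σ hg]
    apply Nat.card_congr
    refine ⟨fun c => ⟨σ c.1, (key c.1).2 c.2⟩, fun c => ⟨σ.symm c.1, (key _).1 (by
      rw [σ.apply_symm_apply]; exact c.2)⟩, fun c => ?_, fun c => ?_⟩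
    · exact Subtype.ext (σ.symm_apply_apply c.1)
    · exact Subtype.ext (σ.apply_symm_apply c.1)
  rcases lin_B W hcount with h1 | ⟨φ, hφ, hker⟩
  · exact absurd h1 hW
  push Not at hW
  obtain ⟨c₀, w₀, hw₀, hcw⟩ := hW
  -- a vector with `φ v₀ = 1`
  obtain ⟨v₀, hv₀⟩ : ∃ v, φ v = 1 := by
    obtain ⟨v, hv⟩ : ∃ v, φ v ≠ 0 := by
      by_contra hcon
      push Not at hcon
      exact hφ (LinearMap.ext hcon)
    exact ⟨(φ v)⁻¹ • v, by rw [map_smul, smul_eq_mul, inv_mul_cancel₀ hv]⟩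
  -- the image of `W`
  obtain ⟨U, hU⟩ : ∃ U : AddSubgroup F, U = W.map φ.toAddMonoidHom := ⟨_, rfl⟩
  have hmemU : ∀ x, φ x ∈ U ↔ x ∈ W := by
    intro x
    rw [hU, AddSubgroup.mem_map]
    constructor
    · rintro ⟨w, hw, hwx⟩
      have hwx' : φ w = φ x := hwx
      have h1 : φ (x - w) = 0 := by rw [map_sub, hwx', sub_self]
      have h2 := core_le ((hker _).1 h1)
      have h3 := W.add_mem h2 hw
      rwa [sub_add_cancel] at h3
    · intro hx
      exact ⟨x, hx, rfl⟩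
  have hφv : ∀ c : F, φ (c • v₀) = c := by
    intro c
    rw [map_smul, hv₀, smul_eq_mul, mul_one]
  have hsurj : Function.Surjective φ := fun c => ⟨c • v₀, hφv c⟩
  have hWU : W = U.comap φ.toAddMonoidHom := by
    ext x
    rw [AddSubgroup.mem_comap]
    exact (hmemU x).symm
  have hindex : W.index = U.index := by
    conv_lhs => rw [hWU]
    exact AddSubgroup.index_comap_of_surjective U hsurj
  obtain ⟨a, ha⟩ : ∃ a, Fintype.card F = 2 ^ a := by
    obtain ⟨a, -, ha⟩ := FiniteField.card F 2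
    exact ⟨a, ha⟩
  obtain ⟨s, hs⟩ := card_addSubgroup_pow F U
  have hUle : 2 ^ s * U.index = 2 ^ a := by
    have h1 := AddSubgroup.card_mul_index U
    rwa [hs, Nat.card_eq_fintype_card, ha] at h1
  have hs1 : 1 ≤ s := by
    by_contra hcon
    have h0 : s = 0 := by omega
    rw [h0, pow_zero] at hs
    have h1 : U = ⊥ := AddSubgroup.eq_bot_of_card_eq _ hs
    have h2 : φ w₀ ∈ U := (hmemU w₀).2 hw₀
    rw [h1, AddSubgroup.mem_bot] at h2
    exact hcw ((hker _).1 h2 c₀)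
  have hsa : s < a := by
    have h1 : 2 ^ s ∣ 2 ^ a := ⟨U.index, hUle.symm⟩
    have h2 : s ≤ a := (Nat.pow_dvd_pow_iff_le_right (le_refl 2)).1 h1
    rcases Nat.lt_or_ge s a with h3 | h3
    · exact h3
    · exfalso
      have h4 : s = a := by omega
      have h5 : U.index = 1 := by
        rw [h4] at hUle
        have : 0 < 2 ^ a := by positivity
        exact Nat.eq_of_mul_eq_mul_left this (by rw [hUle, mul_one])
      have h6 : U = ⊤ := AddSubgroup.index_eq_one.1 h5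
      apply hcw
      rw [← hmemU, h6]
      exact AddSubgroup.mem_top _
  -- the induced maps
  have hind : ∀ g σ, P g σ → φ (g v₀) ≠ 0 ∧ ∀ x, φ (g x) = φ (g v₀) * σ (φ x) := by
    intro g σ hg
    constructor
    · intro h1
      have h2 := (h.core_iff hg).1 ((hker _).1 h1)
      have h3 := (hker _).2 h2
      rw [hv₀] at h3
      exact one_ne_zero h3
    · intro x
      have h1 : φ (x - φ x • v₀) = 0 := by rw [map_sub, hφv, sub_self]
      have h2 := (hker _).2 (h.core_mem hg ((hker _).1 h1))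
      rw [map_sub g, h.semi g σ hg, map_sub, map_smul, smul_eq_mul, sub_eq_zero] at h2
      rw [h2, mul_comm]
  let K : Subgroup (Equiv.Perm F) :=
    { carrier := {k | ∃ g σ, P g σ ∧ ∀ x, φ (g x) = k (φ x)}
      one_mem' := ⟨_, _, h.one, fun x => rfl⟩
      mul_mem' := by
        rintro k l ⟨g, σ, hg, hk⟩ ⟨g', τ, hg', hl⟩
        refine ⟨_, _, h.mul _ _ _ _ hg' hg, fun x => ?_⟩
        change φ (g (g' x)) = k (l (φ x))
        rw [hk, hl]
      inv_mem' := by
        rintro k ⟨g, σ, hg, hk⟩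
        refine ⟨_, _, h.inv _ _ hg, fun x => ?_⟩
        have h1 := hk (g.symm x)
        rw [g.apply_symm_apply] at h1
        change φ (g.symm x) = k.symm (φ x)
        rw [h1, k.symm_apply_apply] }
  have hKdef : ∀ k, k ∈ K ↔ ∃ g σ, P g σ ∧ ∀ x, φ (g x) = k (φ x) := fun k => Iff.rfl
  have hKU : ∀ k ∈ K, ∀ x, k x ∈ U ↔ x ∈ U := by
    intro k hk x
    obtain ⟨g, σ, hg, hk'⟩ := (hKdef k).1 hk
    obtain ⟨y, rfl⟩ := hsurj x
    rw [← hk', hmemU, hmemU, h.pres g σ hg]
  have hKsemi : ∀ k g σ, P g σ → (∀ x, φ (g x) = k (φ x)) → IsSemi (k : Equiv.Perm F) σ := by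
    intro k g σ hg hk c
    have h1 := hk (c • v₀)
    have h2 := hk v₀
    rw [(hind g σ hg).2, hφv] at h1
    rw [hv₀] at h2
    rw [← h1, h2]
  have hKtr : ∀ x, x ∉ U → ∀ y, y ∉ U → ∃ k ∈ K, k x = y := by
    intro x hx y hy
    obtain ⟨x, rfl⟩ := hsurj x
    obtain ⟨y, rfl⟩ := hsurj y
    rw [hmemU] at hx hy
    obtain ⟨g, σ, hg, hxy⟩ := h.tr x hx y hy
    obtain ⟨hμ, hμ'⟩ := hind g σ hg
    refine ⟨⟨fun c => φ (g v₀) * σ c, fun c => σ.symm ((φ (g v₀))⁻¹ * c), fun c => ?_,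
      fun c => ?_⟩, ?_, ?_⟩
    · change σ.symm ((φ (g v₀))⁻¹ * (φ (g v₀) * σ c)) = c
      rw [← mul_assoc, inv_mul_cancel₀ hμ, one_mul, σ.symm_apply_apply]
    · change φ (g v₀) * σ (σ.symm ((φ (g v₀))⁻¹ * c)) = c
      rw [σ.apply_symm_apply, ← mul_assoc, mul_inv_cancel₀ hμ, one_mul]
    · exact ⟨g, σ, hg, hμ'⟩
    · change φ (g v₀) * σ (φ x) = φ y
      rw [← hμ', hxy]
  rcases dim_one ha U hs hs1 hsa K hKU (fun k hk => by
      obtain ⟨g, σ, hg, hk'⟩ := (hKdef k).1 hk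
      exact ⟨σ, hKsemi k g σ hg hk'⟩) hKtr with
    ⟨rfl, rfl, k, hk, σ, hσ, hσ'⟩ | ⟨rfl, rfl, h4, hall⟩
  · left
    refine ⟨by rw [ha]; norm_num, ?_, ?_⟩
    · rw [hindex]
      omega
    · obtain ⟨g, τ, hg, hk'⟩ := (hKdef k).1 hk
      have h1 := isSemi_unique hσ (hKsemi k g τ hg hk')
      rw [h1] at hσ'
      exact ⟨g, τ, hg, hσ'⟩
  · right
    refine ⟨by rw [ha]; norm_num, ?_, ?_, ?_⟩
    · rw [hindex]
      omega
    · intro c hc w hw
      rw [← hmemU, map_smul, smul_eq_mul]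
      exact h4 c hc _ ((hmemU w).2 hw)
    · intro σ
      obtain ⟨k, hk, hσ⟩ := hall σ
      obtain ⟨g, τ, hg, hk'⟩ := (hKdef k).1 hk
      have h1 := isSemi_unique hσ (hKsemi k g τ hg hk')
      rw [h1]
      exact ⟨g, hg⟩

end Pool.Agent.SIT.Lin
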