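import Pool.Agent.SIT.LinS2
import Pool.Agent.SIT.LinC
import Pool.Agent.SIT.Existence

/-!
# The groups `G ≤ AΓL(1, 2^n)`: sufficiency (`n = 4`)
-/

namespace Pool.Agent.SIT.Gam

open Finset

variable {F : Type*} [Field F] {n : ℕ}

/-- The group of the maps `x ↦ μ σ(x) + t`, transported to `F_2^n` by `e`. -/
def GamL1 (e : Vec n ≃+ F) : Subgroup (AGL n) where
  carrier := {g | ∃ (μ : F) (σ : F ≃+* F) (t : F), μ ≠ 0 ∧ ∀ x, e (g x) = μ * σ (e x) + t}
  one_mem' := ⟨1, RingEquiv.refl F, 0, one_ne_zero, fun x => by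
    rw [one_mul, add_zero]
    rfl⟩
  mul_mem' := by
    rintro g h ⟨μ, σ, t, hμ, hg⟩ ⟨ν, τ, s, hν, hh⟩
    refine ⟨μ * σ ν, τ.trans σ, μ * σ s + t, mul_ne_zero hμ (by simpa using hν), fun x => ?_⟩
    change e (g (h x)) = _
    rw [hg, hh, map_add, map_mul, RingEquiv.trans_apply]
    ring
  inv_mem' := by
    rintro g ⟨μ, σ, t, hμ, hg⟩
    refine ⟨(σ.symm μ)⁻¹, σ.symm, -((σ.symm μ)⁻¹ * σ.symm t), inv_ne_zero (by simpa using hμ),
      fun x => ?_⟩
    have h1 := hg (g.symm x)
    rw [g.apply_symm_apply] at h1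
    change e (g.symm x) = _
    have h2 : σ.symm μ ≠ 0 := by simpa using hμ
    rw [h1, map_add, map_mul, σ.symm_apply_apply]
    field_simp
    ring

/-- The lines of `AG(2, 4)`: the translates of the sets `a F_4`. -/
def Lines (e : Vec n ≃+ F) : Set (Finset (Vec n)) :=
  {γ | ∃ a t : F, a ≠ 0 ∧ ∀ x, x ∈ γ ↔ (a * (e x + t)) ^ 4 = a * (e x + t)}

variable [Fintype F] [CharP F 2]

lemma card_fourth (hF : Fintype.card F = 16) :
    Nat.card {c : F // c ^ 4 = c} = 4 := by
  classical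
  apply le_antisymm
  · have h1 : (univ.filter (fun x : Fˣ => x ^ 3 = 1)).card ≤ 3 :=
      IsCyclic.card_pow_eq_one_le (by norm_num)
    have h2 : (univ.filter (fun c : F => c ^ 4 = c)) ⊆
        insert 0 ((univ.filter (fun x : Fˣ => x ^ 3 = 1)).image (fun x : Fˣ => (x : F))) := by
      intro c hc
      rw [mem_filter] at hc
      rw [mem_insert, mem_image]
      by_cases h0 : c = 0
      · exact Or.inl h0
      right
      refine ⟨Units.mk0 c h0, ?_, rfl⟩
      rw [mem_filter]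
      refine ⟨mem_univ _, ?_⟩
      apply Units.ext
      rw [Units.val_pow_eq_pow_val, Units.val_mk0, Units.val_one]
      apply mul_right_cancel₀ h0
      rw [one_mul, ← pow_succ]
      exact hc.2
    rw [Nat.card_eq_fintype_card, Fintype.card_subtype]
    refine (Finset.card_le_card h2).trans ((Finset.card_insert_le _ _).trans ?_)
    have h3 := (Finset.card_image_le (s := univ.filter (fun x : Fˣ => x ^ 3 = 1))
      (f := fun x : Fˣ => (x : F))).trans h1
    omega
  · exact LinS.card_fix (F := F) (e := 2) (by rw [hF]; norm_num)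

omit [Fintype F] in
lemma pow_four_add (x y : F) : (x + y) ^ 4 = x ^ 4 + y ^ 4 := by
  have h2 : (2 : F) = 0 := CharP.cast_eq_zero F 2
  linear_combination (2 * x ^ 3 * y + 3 * x ^ 2 * y ^ 2 + 2 * x * y ^ 3) * h2

/-- the affine permutation `x ↦ L (x + u) + w` -/
def affOf (L : Vec n ≃+ Vec n) (u w : Vec n) : AGL n :=
  ((AffineEquiv.constVAdd (ZMod 2) (Vec n) u).trans
    (LinearEquiv.toAffineEquiv
      { toFun := L, invFun := L.symm, left_inv := L.left_inv, right_inv := L.right_inv,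
        map_add' := L.map_add
        map_smul' := fun c x => by
          rcases zmod2_cases c with rfl | rfl
          · simp
          · simp } : AGL n)).trans (AffineEquiv.constVAdd (ZMod 2) (Vec n) w)

lemma affOf_apply (L : Vec n ≃+ Vec n) (u w x : Vec n) : affOf L u w x = L (x + u) + w := by
  change w + L (u + x) = _
  rw [add_comm u x, add_comm]

/-- the lines are codewords of size 4 -/
lemma card_line (hF : Fintype.card F = 16) {e : Vec n ≃+ F} {γ : Finset (Vec n)}
    (hγ : γ ∈ Lines e) : γ.card = 4 := by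
  obtain ⟨a, t, ha, h⟩ := hγ
  rw [← card_fourth hF]
  have h1 : γ.card = Nat.card γ := by rw [Nat.card_eq_fintype_card, Fintype.card_coe]
  rw [h1]
  apply Nat.card_congr
  refine ⟨fun x => ⟨a * (e x.1 + t), (h x.1).1 x.2⟩, fun c => ⟨e.symm (a⁻¹ * c.1 - t), ?_⟩,
    fun x => ?_, fun c => ?_⟩
  · rw [h, e.apply_symm_apply, sub_add_cancel, ← mul_assoc, mul_inv_cancel₀ ha, one_mul]
    exact c.2
  · apply Subtype.ext
    change e.symm (a⁻¹ * (a * (e x.1 + t)) - t) = x.1
    rw [← mul_assoc, inv_mul_cancel₀ ha, one_mul, add_sub_cancel_right, e.symm_apply_apply]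
  · apply Subtype.ext
    change a * (e (e.symm (a⁻¹ * c.1 - t)) + t) = c.1
    rw [e.apply_symm_apply, sub_add_cancel, ← mul_assoc, mul_inv_cancel₀ ha, one_mul]

omit [Fintype F] [CharP F 2] in
lemma act_line {e : Vec n ≃+ F} {g : AGL n} (hg : g ∈ GamL1 e) {γ : Finset (Vec n)}
    (hγ : γ ∈ Lines e) : act g γ ∈ Lines e := by
  obtain ⟨a, t, ha, h⟩ := hγ
  obtain ⟨μ, σ, s, hμ, hg'⟩ := (GamL1 e).inv_mem hg
  refine ⟨σ.symm (a * μ), σ.symm (μ⁻¹ * (s + t)), ?_, fun x => ?_⟩
  · have := mul_ne_zero ha hμ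
    simpa using this
  · have h1 : a * (e (g.symm x) + t) =
        σ (σ.symm (a * μ) * (e x + σ.symm (μ⁻¹ * (s + t)))) := by
      have h2 : e (g.symm x) = μ * σ (e x) + s := hg' x
      rw [map_mul, map_add, σ.apply_symm_apply, σ.apply_symm_apply, h2]
      field_simp
      ring
    rw [mem_act', h, h1, ← map_pow]
    exact σ.injective.eq_iff

omit [Fintype F] in
/-- recentring a line at one of its points -/
lemma line_at {a t : F} {u : F} (hu : (a * (u + t)) ^ 4 = a * (u + t)) (y : F) :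
    (a * (y + t)) ^ 4 = a * (y + t) ↔ (a * (y + u)) ^ 4 = a * (y + u) := by
  have h2 : (2 : F) = 0 := CharP.cast_eq_zero F 2
  have h1 : a * (y + t) = a * (y + u) + a * (u + t) := by linear_combination (-(a * u)) * h2
  rw [h1, pow_four_add, hu]
  exact add_left_inj _

/-- In `AG(2, 4)`, the lines are a strongly incidence-transitive code for `AΓL(1, 16)`. -/
theorem lines_SIT (hF : Fintype.card F = 16) (e : Vec n ≃+ F) :
    IsSITCode (GamL1 e) 4 (Lines e) := by
  refine ⟨fun γ hγ => card_line hF hγ, fun g hg γ hγ => act_line hg hγ, ?_⟩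
  rintro γ ⟨a, t, ha, hγ⟩ u hu u' hu' δ ⟨b, s, hb, hδ⟩ w hw w' hw'
  have h2 : (2 : F) = 0 := CharP.cast_eq_zero F 2
  have hγ' : ∀ x, x ∈ γ ↔ (a * (e x + e u)) ^ 4 = a * (e x + e u) := by
    intro x
    rw [hγ, line_at ((hγ u).1 hu)]
  have hδ' : ∀ x, x ∈ δ ↔ (b * (e x + e w)) ^ 4 = b * (e x + e w) := by
    intro x
    rw [hδ, line_at ((hδ w).1 hw)]
  obtain ⟨μ, σ, hμ4, hμ, hμσ⟩ := LinS.exc16 hF (fun h => hu' ((hγ' u').2 h))
    (fun h => hw' ((hδ' w').2 h))
  -- the map `y ↦ b⁻¹ μ σ(a (y + u)) + w`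
  have hσa : σ a ≠ 0 := by simpa using ha
  obtain ⟨g, hg⟩ : ∃ g : AGL n, ∀ x, e (g x) = b⁻¹ * μ * σ (a * (e x + e u)) + e w := by
    let L : Vec n ≃+ Vec n :=
      { toFun := fun x => e.symm (b⁻¹ * μ * σ (a * e x))
        invFun := fun x => e.symm (a⁻¹ * σ.symm (μ⁻¹ * b * e x))
        left_inv := fun x => by
          change e.symm (a⁻¹ * σ.symm (μ⁻¹ * b * e (e.symm (b⁻¹ * μ * σ (a * e x))))) = x
          rw [e.apply_symm_apply]
          have h3 : μ⁻¹ * b * (b⁻¹ * μ * σ (a * e x)) = σ (a * e x) := by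
            field_simp
          rw [h3, σ.symm_apply_apply, ← mul_assoc, inv_mul_cancel₀ ha, one_mul,
            e.symm_apply_apply]
        right_inv := fun x => by
          change e.symm (b⁻¹ * μ * σ (a * e (e.symm (a⁻¹ * σ.symm (μ⁻¹ * b * e x))))) = x
          rw [e.apply_symm_apply, ← mul_assoc a, mul_inv_cancel₀ ha, one_mul, σ.apply_symm_apply]
          have h3 : b⁻¹ * μ * (μ⁻¹ * b * e x) = e x := by
            field_simp
          rw [h3, e.symm_apply_apply]
        map_add' := fun x y => by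
          rw [map_add, mul_add, map_add, mul_add, map_add] }
    refine ⟨affOf L u w, fun x => ?_⟩
    rw [affOf_apply, map_add]
    change e (e.symm (b⁻¹ * μ * σ (a * e (x + u)))) + e w = _
    rw [e.apply_symm_apply, map_add]
  refine ⟨g, ?_, ?_, ?_, ?_⟩
  · refine ⟨b⁻¹ * μ * σ a, σ, b⁻¹ * μ * σ (a * e u) + e w,
      mul_ne_zero (mul_ne_zero (inv_ne_zero hb) hμ) hσa, fun x => ?_⟩
    rw [hg, mul_add, map_add, map_mul, map_mul]
    ring
  · rw [act_eq_iff]
    intro x
    rw [hδ', hγ', hg]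
    have h3 : b * (b⁻¹ * μ * σ (a * (e x + e u)) + e w + e w) = μ * σ (a * (e x + e u)) := by
      have h4 : b * b⁻¹ = 1 := mul_inv_cancel₀ hb
      linear_combination (μ * σ (a * (e x + e u))) * h4 + b * e w * h2
    rw [h3, mul_pow, hμ4, ← map_pow]
    constructor
    · intro h
      exact σ.injective (mul_left_cancel₀ hμ h)
    · intro h
      rw [h]
  · apply e.injective
    have h3 : e u + e u = 0 := by linear_combination e u * h2
    rw [hg, h3, mul_zero, map_zero, mul_zero, zero_add]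
  · apply e.injective
    rw [hg]
    have h4 : b⁻¹ * b = 1 := inv_mul_cancel₀ hb
    have h3 : b⁻¹ * μ * σ (a * (e u' + e u)) = b⁻¹ * (b * (e w' + e w)) := by
      rw [hμσ]
      ring
    rw [h3]
    linear_combination (e w' + e w) * h4 + e w * h2

/-! ### All lines, the whole group -/

omit [Fintype F] in
/-- A nonempty set of lines invariant under a 2-transitive group consists of all lines. -/
theorem all_lines {e : Vec n ≃+ F} {G : Subgroup (AGL n)} (h2 : IsTwoTransitive G)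
    {C : Set (Finset (Vec n))} (hinv : ∀ g ∈ G, ∀ γ ∈ C, act g γ ∈ C) (hne : C.Nonempty)
    (hC : C ⊆ Lines e) : C = Lines e := by
  have h20 : (2 : F) = 0 := CharP.cast_eq_zero F 2
  apply Set.Subset.antisymm hC
  -- two points of a line, and a line is determined by them
  have hpts : ∀ (b s : F), b ≠ 0 → e.symm s ≠ e.symm (s + b⁻¹) := by
    intro b s hb h
    have h3 := e.symm.injective h
    have h4 : b⁻¹ = 0 := by linear_combination -h3
    exact inv_ne_zero hb h4
  rintro δ ⟨b, s, hb, hδ⟩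
  obtain ⟨γ, hγC⟩ := hne
  obtain ⟨a, t, ha, hγ⟩ := hC hγC
  obtain ⟨g, hg, hg0, hg1⟩ := h2 _ _ _ _ (hpts a t ha) (hpts b s hb)
  have hx0 : e.symm t ∈ γ := by
    rw [hγ, e.apply_symm_apply]
    have h3 : t + t = 0 := by linear_combination t * h20
    rw [h3, mul_zero]
    norm_num
  have hx1 : e.symm (t + a⁻¹) ∈ γ := by
    rw [hγ, e.apply_symm_apply]
    have h3 : a * (t + a⁻¹ + t) = 1 := by
      have h4 : a * a⁻¹ = 1 := mul_inv_cancel₀ ha
      linear_combination h4 + a * t * h20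
    rw [h3, one_pow]
  have hgγ := hinv g hg γ hγC
  obtain ⟨a', t', ha', h'⟩ := hC hgγ
  have hy0 : e.symm s ∈ act g γ := by
    rw [← hg0, mem_act]
    exact hx0
  have hy1 : e.symm (s + b⁻¹) ∈ act g γ := by
    rw [← hg1, mem_act]
    exact hx1
  have h5 := (h' _).1 hy0
  rw [e.apply_symm_apply] at h5
  have hline : ∀ x, x ∈ act g γ ↔ (a' * (e x + s)) ^ 4 = a' * (e x + s) := by
    intro x
    rw [h', line_at h5]
  have h6 := (hline _).1 hy1
  rw [e.apply_symm_apply] at h6
  have h7 : a' * (s + b⁻¹ + s) = a' * b⁻¹ := by linear_combination a' * s * h20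
  rw [h7] at h6
  have h8 : act g γ = δ := by
    ext x
    rw [hline, hδ]
    have h9 : a' * (e x + s) = (a' * b⁻¹) * (b * (e x + s)) := by
      have h10 : b⁻¹ * b = 1 := inv_mul_cancel₀ hb
      linear_combination (-(a' * (e x + s))) * h10
    rw [h9, mul_pow, h6]
    constructor
    · intro h
      exact mul_left_cancel₀ (mul_ne_zero ha' (inv_ne_zero hb)) h
    · intro h
      rw [h]
  rw [← h8]
  exact hgγ

/-- The twelve maps `x ↦ μ σ(x)`, `μ ∈ F_4^*`, act regularly on `F_16 \ F_4`. -/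
lemma regular (hF : Fintype.card F = 16) {s : F} (hs : s ^ 4 ≠ s) {μ : F} {σ : F ≃+* F}
    (hμ4 : μ ^ 4 = μ) (hμ : μ ≠ 0) (h : μ * σ s = s) : μ = 1 ∧ σ = RingEquiv.refl F := by
  classical
  let Φ : {m : F // m ^ 4 = m ∧ m ≠ 0} × (F ≃+* F) → {x : F // x ^ 4 ≠ x} := fun p =>
    ⟨p.1.1 * p.2 s, fun h1 => by
      rw [mul_pow, p.1.2.1, ← map_pow] at h1
      exact hs (p.2.injective (mul_left_cancel₀ p.1.2.2 h1))⟩
  have hsurj : Function.Surjective Φ := by
    intro x
    obtain ⟨m, τ, h1, h3, h4⟩ := LinS.exc16 hF hs x.2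
    exact ⟨⟨⟨m, h1, h3⟩, τ⟩, Subtype.ext h4.symm⟩
  have hc4 := card_fourth hF
  have hc1 : Nat.card {x : F // x ^ 4 ≠ x} = 12 := by
    rw [Nat.card_eq_fintype_card] at hc4 ⊢
    rw [Fintype.card_subtype_compl, hF, hc4]
  have hc2 : Nat.card {m : F // m ^ 4 = m ∧ m ≠ 0} = 3 := by
    rw [Nat.card_eq_fintype_card, Fintype.card_subtype] at hc4 ⊢
    have h1 : (univ.filter (fun m : F => m ^ 4 = m ∧ m ≠ 0)) =
        (univ.filter (fun m : F => m ^ 4 = m)).erase 0 := by
      ext m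
      simp only [mem_filter, mem_univ, true_and, mem_erase]
      exact and_comm
    rw [h1, Finset.card_erase_of_mem, hc4]
    rw [mem_filter]
    exact ⟨mem_univ _, by norm_num⟩
  have hc3 : Nat.card (F ≃+* F) = 4 := Lin.card_aut (by rw [hF]; norm_num)
  have hfin : Finite (F ≃+* F) := Nat.finite_of_card_ne_zero (by rw [hc3]; norm_num)
  have hcard : Nat.card ({m : F // m ^ 4 = m ∧ m ≠ 0} × (F ≃+* F)) ≤
      Nat.card {x : F // x ^ 4 ≠ x} := by
    rw [Nat.card_prod, hc1, hc2, hc3]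
  have hbij := Function.Surjective.bijective_of_nat_card_le hsurj hcard
  have h1 : Φ (⟨μ, hμ4, hμ⟩, σ) = Φ (⟨1, one_pow 4, one_ne_zero⟩, RingEquiv.refl F) := by
    apply Subtype.ext
    change μ * σ s = 1 * s
    rw [h, one_mul]
  have h3 := hbij.1 h1
  rw [Prod.mk.injEq] at h3
  exact ⟨congrArg Subtype.val h3.1, h3.2⟩

/-- A group with the lines of `AG(2, 4)` as a strongly incidence-transitive code is the whole
group `AΓL(1, 16)`. -/
theorem whole_group (hF : Fintype.card F = 16) {e : Vec n ≃+ F} {G : Subgroup (AGL n)}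
    (hG : G ≤ GamL1 e) {k : ℕ} (hC : IsSITCode G k (Lines e)) : G = GamL1 e := by
  classical
  apply le_antisymm hG
  intro g hg
  -- the base line and a point outside
  obtain ⟨s, hs⟩ : ∃ s : F, s ^ 4 ≠ s := by
    by_contra hcon
    push Not at hcon
    have h1 := card_fourth hF
    rw [Nat.card_eq_fintype_card, Fintype.card_subtype] at h1
    have h3 : (univ.filter (fun m : F => m ^ 4 = m)) = univ := by
      ext m
      simp [hcon m]
    rw [h3, card_univ, hF] at h1
    omega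
  obtain ⟨γ, hγ⟩ : ∃ γ : Finset (Vec n), ∀ x, x ∈ γ ↔ (e x) ^ 4 = e x :=
    ⟨univ.filter (fun x => (e x) ^ 4 = e x), fun x => by simp⟩
  have hγL : γ ∈ Lines e := ⟨1, 0, one_ne_zero, fun x => by rw [hγ, one_mul, add_zero]⟩
  have hu : (0 : Vec n) ∈ γ := by
    rw [hγ, map_zero]
    norm_num
  have hu' : e.symm s ∉ γ := by
    rw [hγ, e.apply_symm_apply]
    exact hs
  have hgu : g 0 ∈ act g γ := by
    rw [mem_act]
    exact hu
  have hgu' : g (e.symm s) ∉ act g γ := by
    rw [mem_act]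
    exact hu'
  obtain ⟨g', hg', h1, h3, h4⟩ := hC.transitive γ hγL 0 hu _ hu' (act g γ) (act_line hg hγL) _ hgu
    _ hgu'
  have hh : g⁻¹ * g' ∈ GamL1 e := (GamL1 e).mul_mem ((GamL1 e).inv_mem hg) (hG hg')
  obtain ⟨μ, σ, t, hμ, hh'⟩ := hh
  have e0 : (g⁻¹ * g') 0 = 0 := by
    change g.symm (g' 0) = 0
    rw [h3, g.symm_apply_apply]
  have e1 : (g⁻¹ * g') (e.symm s) = e.symm s := by
    change g.symm (g' (e.symm s)) = _
    rw [h4, g.symm_apply_apply]
  have e2 : act (g⁻¹ * g') γ = γ := by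
    rw [act_mul, h1]
    exact act_symm_act g γ
  have ht : t = 0 := by
    have h5 := hh' 0
    rw [e0, map_zero, map_zero, mul_zero, zero_add] at h5
    exact h5.symm
  have hμ4 : μ ^ 4 = μ := by
    have h5 : e.symm 1 ∈ γ := by
      rw [hγ, e.apply_symm_apply, one_pow]
    have h6 : (g⁻¹ * g') (e.symm 1) ∈ γ := by
      rw [← e2, mem_act]
      exact h5
    rw [hγ, hh', e.apply_symm_apply, map_one, mul_one, ht, add_zero] at h6
    exact h6
  have h7 := hh' (e.symm s)
  rw [e1, e.apply_symm_apply, ht, add_zero] at h7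
  obtain ⟨rfl, rfl⟩ := regular hF hs hμ4 hμ h7.symm
  have h8 : g⁻¹ * g' = 1 := by
    apply AffineEquiv.ext
    intro x
    apply e.injective
    rw [hh', one_mul, ht, add_zero]
    rfl
  have h9 : g = g' := by
    rw [inv_mul_eq_one] at h8
    exact h8
  rw [h9]
  exact hg'

end Pool.Agent.SIT.Gam
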