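import Pool.Agent.SIT.Gam1
import Pool.Agent.SIT.GBase

/-!
# Groups of semilinear affine maps of a line `V = F`
-/

namespace Pool.Agent.SIT.Gen.Gam2

open Finset

variable {F : Type*} [Field F] {V : Type*} [AddCommGroup V] [Module F V] [DecidableEq V]

/-- The group of all maps `x ↦ μ σ(x) + t`. -/
def GamS (e : V ≃ₗ[F] F) : Subgroup (Equiv.Perm V) where
  carrier := {g | ∃ (μ : F) (σ : F ≃+* F) (t : F), μ ≠ 0 ∧ ∀ x, e (g x) = μ * σ (e x) + t}
  one_mem' := ⟨1, RingEquiv.refl F, 0, one_ne_zero, fun x => by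
    rw [one_mul, add_zero]
    rfl⟩
  mul_mem' := by
    rintro g h ⟨μ, σ, t, hμ, hg⟩ ⟨ν, τ, s, hν, hh⟩
    refine ⟨μ * σ ν, τ.trans σ, μ * σ s + t, mul_ne_zero hμ (by simpa using hν), fun x => ?_⟩
    change e (g (h x)) = _
    rw [hg, hh, map_add, map_mul, RingEquiv.trans_apply]
    ring
  inv_mem' := by
    rintro g ⟨μ, σ, t, hμ, hg⟩
    refine ⟨(σ.symm μ)⁻¹, σ.symm, -((σ.symm μ)⁻¹ * σ.symm t), inv_ne_zero (by simpa using hμ),
      fun x => ?_⟩
    have h1 := hg (g.symm x)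
    rw [g.apply_symm_apply] at h1
    change e (g.symm x) = _
    have h2 : σ.symm μ ≠ 0 := by simpa using hμ
    rw [h1, map_add, map_mul, σ.symm_apply_apply]
    field_simp
    ring

omit [DecidableEq V] in
/-- these are the semilinear affine maps -/
lemma mem_GamS {e : V ≃ₗ[F] F} {h : Equiv.Perm V} : h ∈ GamS e ↔
    ∃ (g : V ≃+ V) (t : V) (σ : F ≃+* F), (∀ (c : F) (x : V), g (c • x) = σ c • g x) ∧
      ∀ x, h x = g x + t := by
  constructor
  · rintro ⟨μ, σ, t, hμ, hh⟩
    refine ⟨{ toFun := fun x => e.symm (μ * σ (e x))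
              invFun := fun x => e.symm (σ.symm (μ⁻¹ * e x))
              left_inv := fun x => ?_
              right_inv := fun x => ?_
              map_add' := fun x y => ?_ }, e.symm t, σ, fun c x => ?_, fun x => ?_⟩
    · change e.symm (σ.symm (μ⁻¹ * e (e.symm (μ * σ (e x))))) = x
      rw [e.apply_symm_apply, ← mul_assoc, inv_mul_cancel₀ hμ, one_mul, σ.symm_apply_apply,
        e.symm_apply_apply]
    · change e.symm (μ * σ (e (e.symm (σ.symm (μ⁻¹ * e x))))) = x
      rw [e.apply_symm_apply, σ.apply_symm_apply, ← mul_assoc, mul_inv_cancel₀ hμ, one_mul,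
        e.symm_apply_apply]
    · rw [map_add, map_add, mul_add, map_add]
    · change e.symm (μ * σ (e (c • x))) = σ c • e.symm (μ * σ (e x))
      rw [← map_smul, map_smul e, smul_eq_mul, smul_eq_mul, map_mul σ]
      congr 1
      ring
    · change h x = e.symm (μ * σ (e x)) + e.symm t
      rw [← map_add, ← hh, e.symm_apply_apply]
  · rintro ⟨g, t, σ, hg, hh⟩
    refine ⟨e (g (e.symm 1)), σ, e t, ?_, fun x => ?_⟩
    · intro h0
      rw [e.map_eq_zero_iff, g.map_eq_zero_iff, e.symm.map_eq_zero_iff] at h0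
      exact one_ne_zero h0
    · have h1 : x = e x • e.symm 1 := by
        rw [← map_smul, smul_eq_mul, mul_one, e.symm_apply_apply]
      rw [hh, map_add]
      congr 1
      conv_lhs => rw [h1]
      rw [hg, map_smul, smul_eq_mul, mul_comm]

/-- The lines of `AG(2, 4)`: the translates of the sets `a F_4`. -/
def Lines (e : V ≃ₗ[F] F) : Set (Finset V) :=
  {γ | ∃ a t : F, a ≠ 0 ∧ ∀ x, x ∈ γ ↔ (a * (e x + t)) ^ 4 = a * (e x + t)}

lemma act_line {e : V ≃ₗ[F] F} {g : Equiv.Perm V} (hg : g ∈ GamS e) {γ : Finset V}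
    (hγ : γ ∈ Lines e) : act g γ ∈ Lines e := by
  obtain ⟨a, t, ha, h⟩ := hγ
  obtain ⟨μ, σ, s, hμ, hg'⟩ := (GamS e).inv_mem hg
  refine ⟨σ.symm (a * μ), σ.symm (μ⁻¹ * (s + t)), ?_, fun x => ?_⟩
  · have := mul_ne_zero ha hμ
    simpa using this
  · have h1 : a * (e (g.symm x) + t) =
        σ (σ.symm (a * μ) * (e x + σ.symm (μ⁻¹ * (s + t)))) := by
      have h2 : e (g.symm x) = μ * σ (e x) + s := hg' x
      rw [map_mul, map_add, σ.apply_symm_apply, σ.apply_symm_apply, h2]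
      field_simp
      ring
    rw [mem_act', h, h1, ← map_pow]
    exact σ.injective.eq_iff

variable [Fintype F] [CharP F 2]

omit [DecidableEq V] in
/-- the lines are codewords of size 4 -/
lemma card_line (hF : Fintype.card F = 16) {e : V ≃ₗ[F] F} {γ : Finset V}
    (hγ : γ ∈ Lines e) : γ.card = 4 := by
  obtain ⟨a, t, ha, h⟩ := hγ
  rw [← Gam.card_fourth hF]
  have h1 : γ.card = Nat.card γ := by rw [Nat.card_eq_fintype_card, Fintype.card_coe]
  rw [h1]
  apply Nat.card_congr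
  refine ⟨fun x => ⟨a * (e x.1 + t), (h x.1).1 x.2⟩, fun c => ⟨e.symm (a⁻¹ * c.1 - t), ?_⟩,
    fun x => ?_, fun c => ?_⟩
  · rw [h, e.apply_symm_apply, sub_add_cancel, ← mul_assoc, mul_inv_cancel₀ ha, one_mul]
    exact c.2
  · apply Subtype.ext
    change e.symm (a⁻¹ * (a * (e x.1 + t)) - t) = x.1
    rw [← mul_assoc, inv_mul_cancel₀ ha, one_mul, add_sub_cancel_right, e.symm_apply_apply]
  · apply Subtype.ext
    change a * (e (e.symm (a⁻¹ * c.1 - t)) + t) = c.1
    rw [e.apply_symm_apply, sub_add_cancel, ← mul_assoc, mul_inv_cancel₀ ha, one_mul]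

/-- In `AG(2, 4)`, the lines are a strongly incidence-transitive code for `AΓL(1, 16)`. -/
theorem lines_SIT (hF : Fintype.card F = 16) (e : V ≃ₗ[F] F) :
    IsSITCode (GamS e) 4 (Lines e) := by
  refine ⟨fun γ hγ => card_line hF hγ, fun g hg γ hγ => act_line hg hγ, ?_⟩
  rintro γ ⟨a, t, ha, hγ⟩ u hu u' hu' δ ⟨b, s, hb, hδ⟩ w hw w' hw'
  have h2 : (2 : F) = 0 := CharP.cast_eq_zero F 2
  have hγ' : ∀ x, x ∈ γ ↔ (a * (e x + e u)) ^ 4 = a * (e x + e u) := by
    intro x
    rw [hγ, Gam.line_at ((hγ u).1 hu)]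
  have hδ' : ∀ x, x ∈ δ ↔ (b * (e x + e w)) ^ 4 = b * (e x + e w) := by
    intro x
    rw [hδ, Gam.line_at ((hδ w).1 hw)]
  obtain ⟨μ, σ, hμ4, hμ, hμσ⟩ := LinS.exc16 hF (fun h => hu' ((hγ' u').2 h))
    (fun h => hw' ((hδ' w').2 h))
  -- the map `y ↦ b⁻¹ μ σ(a (y + u)) + w`
  have hσa : σ a ≠ 0 := by simpa using ha
  obtain ⟨g, hg⟩ : ∃ g : Equiv.Perm V, ∀ x, e (g x) = b⁻¹ * μ * σ (a * (e x + e u)) + e w := by
    refine ⟨{ toFun := fun x => e.symm (b⁻¹ * μ * σ (a * (e x + e u)) + e w)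
              invFun := fun x => e.symm (a⁻¹ * σ.symm (μ⁻¹ * b * (e x - e w)) - e u)
              left_inv := fun x => ?_
              right_inv := fun x => ?_ }, fun x => ?_⟩
    · change e.symm (a⁻¹ * σ.symm (μ⁻¹ * b * (e (e.symm (b⁻¹ * μ * σ (a * (e x + e u)) + e w)) -
        e w)) - e u) = x
      rw [e.apply_symm_apply, add_sub_cancel_right]
      have h3 : μ⁻¹ * b * (b⁻¹ * μ * σ (a * (e x + e u))) = σ (a * (e x + e u)) := by
        field_simp
      rw [h3, σ.symm_apply_apply, ← mul_assoc, inv_mul_cancel₀ ha, one_mul, add_sub_cancel_right,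
        e.symm_apply_apply]
    · change e.symm (b⁻¹ * μ * σ (a * (e (e.symm (a⁻¹ * σ.symm (μ⁻¹ * b * (e x - e w)) - e u)) +
        e u)) + e w) = x
      rw [e.apply_symm_apply, sub_add_cancel, ← mul_assoc a, mul_inv_cancel₀ ha, one_mul,
        σ.apply_symm_apply]
      have h3 : b⁻¹ * μ * (μ⁻¹ * b * (e x - e w)) = e x - e w := by
        field_simp
      rw [h3, sub_add_cancel, e.symm_apply_apply]
    · change e (e.symm (b⁻¹ * μ * σ (a * (e x + e u)) + e w)) = _
      rw [e.apply_symm_apply]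
  refine ⟨g, ?_, ?_, ?_, ?_⟩
  · refine ⟨b⁻¹ * μ * σ a, σ, b⁻¹ * μ * σ (a * e u) + e w,
      mul_ne_zero (mul_ne_zero (inv_ne_zero hb) hμ) hσa, fun x => ?_⟩
    rw [hg, mul_add, map_add, map_mul, map_mul]
    ring
  · rw [act_eq_iff]
    intro x
    rw [hδ', hγ', hg]
    have h3 : b * (b⁻¹ * μ * σ (a * (e x + e u)) + e w + e w) = μ * σ (a * (e x + e u)) := by
      have h4 : b * b⁻¹ = 1 := mul_inv_cancel₀ hb
      linear_combination (μ * σ (a * (e x + e u))) * h4 + b * e w * h2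
    rw [h3, mul_pow, hμ4, ← map_pow]
    constructor
    · intro h
      exact σ.injective (mul_left_cancel₀ hμ h)
    · intro h
      rw [h]
  · apply e.injective
    have h3 : e u + e u = 0 := by linear_combination e u * h2
    rw [hg, h3, mul_zero, map_zero, mul_zero, zero_add]
  · apply e.injective
    rw [hg]
    have h4 : b⁻¹ * b = 1 := inv_mul_cancel₀ hb
    have h3 : b⁻¹ * μ * σ (a * (e u' + e u)) = b⁻¹ * (b * (e w' + e w)) := by
      rw [hμσ]
      ring
    rw [h3]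
    linear_combination (e w' + e w) * h4 + e w * h2

omit [Fintype F] in
/-- A nonempty set of lines invariant under a 2-transitive group consists of all lines. -/
theorem all_lines {e : V ≃ₗ[F] F} {G : Subgroup (Equiv.Perm V)} (h2 : IsTwoTransitive G)
    {C : Set (Finset V)} (hinv : ∀ g ∈ G, ∀ γ ∈ C, act g γ ∈ C) (hne : C.Nonempty)
    (hC : C ⊆ Lines e) : C = Lines e := by
  have h20 : (2 : F) = 0 := CharP.cast_eq_zero F 2
  apply Set.Subset.antisymm hC
  have hpts : ∀ (b s : F), b ≠ 0 → e.symm s ≠ e.symm (s + b⁻¹) := by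
    intro b s hb h
    have h3 := e.symm.injective h
    have h4 : b⁻¹ = 0 := by linear_combination -h3
    exact inv_ne_zero hb h4
  rintro δ ⟨b, s, hb, hδ⟩
  obtain ⟨γ, hγC⟩ := hne
  obtain ⟨a, t, ha, hγ⟩ := hC hγC
  obtain ⟨g, hg, hg0, hg1⟩ := h2 _ _ _ _ (hpts a t ha) (hpts b s hb)
  have hx0 : e.symm t ∈ γ := by
    rw [hγ, e.apply_symm_apply]
    have h3 : t + t = 0 := by linear_combination t * h20
    rw [h3, mul_zero]
    norm_num
  have hx1 : e.symm (t + a⁻¹) ∈ γ := by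
    rw [hγ, e.apply_symm_apply]
    have h3 : a * (t + a⁻¹ + t) = 1 := by
      have h4 : a * a⁻¹ = 1 := mul_inv_cancel₀ ha
      linear_combination h4 + a * t * h20
    rw [h3, one_pow]
  have hgγ := hinv g hg γ hγC
  obtain ⟨a', t', ha', h'⟩ := hC hgγ
  have hy0 : e.symm s ∈ act g γ := by
    rw [← hg0, mem_act]
    exact hx0
  have hy1 : e.symm (s + b⁻¹) ∈ act g γ := by
    rw [← hg1, mem_act]
    exact hx1
  have h5 := (h' _).1 hy0
  rw [e.apply_symm_apply] at h5
  have hline : ∀ x, x ∈ act g γ ↔ (a' * (e x + s)) ^ 4 = a' * (e x + s) := by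
    intro x
    rw [h', Gam.line_at h5]
  have h6 := (hline _).1 hy1
  rw [e.apply_symm_apply] at h6
  have h7 : a' * (s + b⁻¹ + s) = a' * b⁻¹ := by linear_combination a' * s * h20
  rw [h7] at h6
  have h8 : act g γ = δ := by
    ext x
    rw [hline, hδ]
    have h9 : a' * (e x + s) = (a' * b⁻¹) * (b * (e x + s)) := by
      have h10 : b⁻¹ * b = 1 := inv_mul_cancel₀ hb
      linear_combination (-(a' * (e x + s))) * h10
    rw [h9, mul_pow, h6]
    constructor
    · intro h
      exact mul_left_cancel₀ (mul_ne_zero ha' (inv_ne_zero hb)) h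
    · intro h
      rw [h]
  rw [← h8]
  exact hgγ

/-- A group with the lines of `AG(2, 4)` as a strongly incidence-transitive code is the whole
group `AΓL(1, 16)`. -/
theorem whole_group (hF : Fintype.card F = 16) [Fintype V] {e : V ≃ₗ[F] F}
    {G : Subgroup (Equiv.Perm V)} (hG : G ≤ GamS e) {k : ℕ} (hC : IsSITCode G k (Lines e)) :
    G = GamS e := by
  classical
  apply le_antisymm hG
  intro g hg
  -- the base line and a point outside
  obtain ⟨s, hs⟩ : ∃ s : F, s ^ 4 ≠ s := by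
    by_contra hcon
    push Not at hcon
    have h1 := Gam.card_fourth hF
    rw [Nat.card_eq_fintype_card, Fintype.card_subtype] at h1
    have h3 : (univ.filter (fun m : F => m ^ 4 = m)) = univ := by
      ext m
      simp [hcon m]
    rw [h3, card_univ, hF] at h1
    omega
  obtain ⟨γ, hγ⟩ : ∃ γ : Finset V, ∀ x, x ∈ γ ↔ (e x) ^ 4 = e x :=
    ⟨univ.filter (fun x => (e x) ^ 4 = e x), fun x => by simp⟩
  have hγL : γ ∈ Lines e := ⟨1, 0, one_ne_zero, fun x => by rw [hγ, one_mul, add_zero]⟩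
  have hu : (0 : V) ∈ γ := by
    rw [hγ, map_zero]
    norm_num
  have hu' : e.symm s ∉ γ := by
    rw [hγ, e.apply_symm_apply]
    exact hs
  have hgu : g 0 ∈ act g γ := by
    rw [mem_act]
    exact hu
  have hgu' : g (e.symm s) ∉ act g γ := by
    rw [mem_act]
    exact hu'
  obtain ⟨g', hg', h1, h3, h4⟩ := hC.transitive γ hγL 0 hu _ hu' (act g γ) (act_line hg hγL) _ hgu
    _ hgu'
  have hh : g⁻¹ * g' ∈ GamS e := (GamS e).mul_mem ((GamS e).inv_mem hg) (hG hg')
  obtain ⟨μ, σ, t, hμ, hh'⟩ := hh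
  have e0 : (g⁻¹ * g') 0 = 0 := by
    change g.symm (g' 0) = 0
    rw [h3, g.symm_apply_apply]
  have e1 : (g⁻¹ * g') (e.symm s) = e.symm s := by
    change g.symm (g' (e.symm s)) = _
    rw [h4, g.symm_apply_apply]
  have e2 : act (g⁻¹ * g') γ = γ := by
    rw [act_mul, h1]
    exact Gen.act_inv_act g γ
  have ht : t = 0 := by
    have h5 := hh' 0
    rw [e0, map_zero, map_zero, mul_zero, zero_add] at h5
    exact h5.symm
  have hμ4 : μ ^ 4 = μ := by
    have h5 : e.symm 1 ∈ γ := by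
      rw [hγ, e.apply_symm_apply, one_pow]
    have h6 : (g⁻¹ * g') (e.symm 1) ∈ γ := by
      rw [← e2, mem_act]
      exact h5
    rw [hγ, hh', e.apply_symm_apply, map_one, mul_one, ht, add_zero] at h6
    exact h6
  have h7 := hh' (e.symm s)
  rw [e1, e.apply_symm_apply, ht, add_zero] at h7
  obtain ⟨rfl, rfl⟩ := Gam.regular hF hs hμ4 hμ h7.symm
  have h8 : g⁻¹ * g' = 1 := by
    apply Equiv.ext
    intro x
    apply e.injective
    rw [hh', one_mul, ht, add_zero]
    rfl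
  have h9 : g = g' := by
    rw [inv_mul_eq_one] at h8
    exact h8
  rw [h9]
  exact hg'

end Pool.Agent.SIT.Gen.Gam2
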