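import Pool.Agent.SIT.Gam2
import Pool.Agent.SIT.AllDefs

/-!
# All strongly incidence-transitive codes for the 2-transitive subgroups of `AΓL(1, q)`, `q` even
-/

namespace Pool.Agent.SIT.Gen

open Finset

/-- `γ` is a line of the affine plane of order 4: a translate of a subgroup of index 4 that is
invariant under multiplication by the roots of `c ^ 4 = c` in `F`. -/
def FourthLine (F : Type*) [Field F] {V : Type*} [AddCommGroup V] [Module F V] (γ : Finset V) :
    Prop :=
  ∃ W : AddSubgroup V, W.index = 4 ∧ (∀ c : F, c ^ 4 = c → ∀ w ∈ W, c • w ∈ W) ∧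
    Translate (W : Set V) γ

namespace Gam2

variable {F : Type*} [Field F] [Fintype F] [CharP F 2] {V : Type*} [AddCommGroup V] [Module F V]
  [Fintype V] [DecidableEq V]

/-- the two descriptions of the lines agree -/
lemma mem_Lines_iff (hF : Fintype.card F = 16) (e : V ≃ₗ[F] F) (γ : Finset V) :
    γ ∈ Lines e ↔ FourthLine F γ := by
  classical
  have hV : Fintype.card V = 16 := by rw [Fintype.card_congr e.toEquiv, hF]
  constructor
  · rintro ⟨a, t, ha, hγ⟩
    have hadd : ∀ x y : F, (x + y) ^ 4 = x ^ 4 + y ^ 4 := Gam.pow_four_add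
    obtain ⟨W, hW⟩ : ∃ W : AddSubgroup V, ∀ x, x ∈ W ↔ (a * e x) ^ 4 = a * e x := by
      refine ⟨{ carrier := {x | (a * e x) ^ 4 = a * e x}
                add_mem' := ?_
                zero_mem' := ?_
                neg_mem' := ?_ }, fun x => Iff.rfl⟩
      · intro x y hx hy
        change (a * e (x + y)) ^ 4 = a * e (x + y)
        rw [map_add, mul_add, hadd, hx, hy]
      · change (a * e 0) ^ 4 = a * e 0
        rw [map_zero, mul_zero]
        norm_num
      · intro x hx
        change (a * e (-x)) ^ 4 = a * e (-x)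
        rw [map_neg, CharTwo.neg_eq]
        exact hx
    refine ⟨W, ?_, ?_, e.symm t, ?_⟩
    · have h1 : (univ.filter (fun x : V => x ∈ W)) ∈ Lines e :=
        ⟨a, 0, ha, fun x => by simp [hW]⟩
      have h3 := card_line hF h1
      have h4 : Nat.card W = 4 := by
        rw [Nat.card_eq_fintype_card, ← h3]
        exact Fintype.card_subtype _
      have h5 := W.card_mul_index
      rw [h4, Nat.card_eq_fintype_card, hV] at h5
      omega
    · intro c hc w hw
      rw [hW] at hw ⊢
      rw [map_smul, smul_eq_mul]
      have h1 : a * (c * e w) = c * (a * e w) := by ring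
      rw [h1, mul_pow, hc, hw]
    · intro x
      rw [hγ]
      change _ ↔ x + e.symm t ∈ W
      rw [hW, map_add, e.apply_symm_apply]
  · rintro ⟨W, hW, hst, v, hv⟩
    have h4 : Nat.card W = 4 := by
      have h5 := W.card_mul_index
      rw [hW, Nat.card_eq_fintype_card (α := V), hV] at h5
      omega
    obtain ⟨w, hw, hw0⟩ : ∃ w ∈ W, w ≠ 0 := by
      by_contra hcon
      push Not at hcon
      have h5 : W = ⊥ := by
        rw [eq_bot_iff]
        intro x hx
        exact hcon x hx
      rw [h5] at h4
      simp at h4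
    have hew : e w ≠ 0 := by simpa using hw0
    have hsurj : ∀ x, x ∈ W ↔ ((e w)⁻¹ * e x) ^ 4 = (e w)⁻¹ * e x := by
      have hinj : Function.Injective
          (fun c : {c : F // c ^ 4 = c} => (⟨c.1 • w, hst c.1 c.2 w hw⟩ : W)) := by
        intro c d hcd
        have h5 : c.1 • w = d.1 • w := congrArg Subtype.val hcd
        exact Subtype.ext (smul_left_injective F hw0 h5)
      have hbij : Function.Bijective
          (fun c : {c : F // c ^ 4 = c} => (⟨c.1 • w, hst c.1 c.2 w hw⟩ : W)) := by
        rw [Fintype.bijective_iff_injective_and_card]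
        refine ⟨hinj, ?_⟩
        rw [← Nat.card_eq_fintype_card, ← Nat.card_eq_fintype_card, h4]
        exact Gam.card_fourth hF
      intro x
      constructor
      · intro hx
        obtain ⟨c, hc⟩ := hbij.2 ⟨x, hx⟩
        have h5 : c.1 • w = x := congrArg Subtype.val hc
        rw [← h5, map_smul, smul_eq_mul]
        have h6 : (e w)⁻¹ * (c.1 * e w) = c.1 := by field_simp
        rw [h6, c.2]
      · intro hx
        have h5 := hst _ hx w hw
        have h6 : ((e w)⁻¹ * e x) • w = x := by
          apply e.injective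
          rw [map_smul, smul_eq_mul]
          field_simp
        rwa [h6] at h5
    refine ⟨(e w)⁻¹, e v, inv_ne_zero hew, fun x => ?_⟩
    rw [← map_add, ← hsurj]
    exact hv x

end Gam2

open Gam2 in
/-- **Class (i).**  `V` is a line over a finite field `F` of characteristic 2, and `G` is a
2-transitive group of semilinear affine maps of `V`. -/
theorem gam_main {F : Type*} [Field F] [Fintype F] [CharP F 2] {V : Type*} [AddCommGroup V]
    [Module F V] [Fintype V] [DecidableEq V] (hdim : Module.finrank F V = 1)
    {G : Subgroup (Equiv.Perm V)} (hG : SemiG F G) (h2 : IsTwoTransitive G) {k : ℕ} (hk : 3 ≤ k)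
    (hk' : 2 * k ≤ Fintype.card V) {C : Set (Finset V)} :
    (IsSITCode G k C ∧ C.Nonempty) ↔ Fintype.card F = 16 ∧ k = 4 ∧
      (∀ h : Equiv.Perm V, h ∈ G ↔ ∃ (g : V ≃+ V) (t : V) (σ : F ≃+* F),
        (∀ (c : F) (x : V), g (c • x) = σ c • g x) ∧ ∀ x, h x = g x + t) ∧
      C = {γ | FourthLine F γ} := by
  classical
  have e : V ≃ₗ[F] F := LinearEquiv.ofFinrankEq V F (by rw [hdim, Module.finrank_self])
  have hcard : Fintype.card V = Fintype.card F := Fintype.card_congr e.toEquiv
  have hCL : Fintype.card F = 16 → Lines e = {γ | FourthLine F γ} := fun hF => by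
    ext γ
    exact mem_Lines_iff hF e γ
  constructor
  · rintro ⟨hC, hne⟩
    have hall : ∀ γ ∈ C, Fintype.card F = 16 ∧ FourthLine F γ := by
      intro γ hγ
      have hγk := hC.card_eq γ hγ
      rcases nec_gen hG hC hk hk' hγ with ⟨W, v, hW⟩ | (⟨h4, -⟩ | ⟨h16, -, W, h3, h5, h6⟩) |
        ⟨β, hβ⟩
      · exfalso
        have h3 : γ.card = Nat.card W := by
          have h5 : γ.card = Nat.card γ := by rw [Nat.card_eq_fintype_card, Fintype.card_coe]
          rw [h5]
          have h6 : ∀ x : V, x + v + v = x := fun x => by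
            rw [add_assoc, add_self_of_char F V, add_zero]
          exact Nat.card_congr
            ⟨fun x => ⟨x.1 + v, (hW x.1).1 x.2⟩, fun x => ⟨x.1 + v, (hW _).2 (by
              rw [h6]
              exact x.2)⟩, fun x => Subtype.ext (h6 _), fun x => Subtype.ext (h6 _)⟩
        have h5 : Module.finrank F W ≤ 1 := hdim ▸ Submodule.finrank_le W
        rcases Nat.le_one_iff_eq_zero_or_eq_one.1 h5 with h6 | h6
        · have h7 : W = ⊥ := Submodule.finrank_eq_zero.1 h6
          rw [h7] at h3
          have h8 : Nat.card (⊥ : Submodule F V) = 1 := Nat.card_unique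
          omega
        · have h7 : W = ⊤ := Submodule.eq_top_of_finrank_eq (by rw [h6, hdim])
          rw [h7] at h3
          have h8 : Nat.card (⊤ : Submodule F V) = Fintype.card V := by
            rw [← Nat.card_eq_fintype_card]
            exact Nat.card_congr (Equiv.Set.univ V)
          omega
      · omega
      · exact ⟨h16, W, h3, h5, h6⟩
      · rcases hβ.small with h3 | ⟨h3, -⟩ <;> omega
    obtain ⟨γ, hγ⟩ := hne
    have hF := (hall γ hγ).1
    have hsub : C ⊆ Lines e := fun δ hδ => by
      rw [hCL hF]
      exact (hall δ hδ).2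
    have hCe : C = Lines e := all_lines h2 hC.invariant ⟨γ, hγ⟩ hsub
    have hk4 : k = 4 := by
      rw [← hC.card_eq γ hγ]
      exact card_line hF (hsub hγ)
    have hGe : G = GamS e := by
      apply whole_group hF (k := k) (fun h hh => mem_GamS.2 (hG h hh))
      rw [← hCe]
      exact hC
    refine ⟨hF, hk4, fun h => ?_, hCe.trans (hCL hF)⟩
    rw [hGe]
    exact mem_GamS
  · rintro ⟨hF, rfl, hGm, rfl⟩
    have hGe : G = GamS e := by
      ext h
      rw [hGm]
      exact mem_GamS.symm
    rw [← hCL hF, hGe]
    refine ⟨lines_SIT hF e, univ.filter (fun x => (e x) ^ 4 = e x), 1, 0, one_ne_zero, fun x => ?_⟩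
    simp

end Pool.Agent.SIT.Gen
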