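import Pool.Agent.SIT.HexData

/-!
# The split Cayley hexagon `H(2)` in `F_2^6` and the groups `G_2(2)`, `G_2(2)'`
-/

namespace Pool.Agent.SIT

open Finset

/-- Collinearity in the split Cayley hexagon `H(2)` (Tits' equations, in the coordinates
`x₀, …, x₅` of `F_2^6` with `q = x₀x₁ + x₂x₃ + x₄x₅`): `x`, `y` are orthogonal and
`x_i y_j + x_j y_i = q(x) y_k + x_k q(y)` for `(i, j, k) = (2,4,1), (1,3,4), (0,4,3), (3,5,0),
(0,2,5), (1,5,2)`. -/
def HexRel (x y : Vec (2 * 3)) : Prop :=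
  sf 3 x y = 0 ∧
  ∀ t ∈ [((2, 4, 1) : Fin (2 * 3) × Fin (2 * 3) × Fin (2 * 3)), (1, 3, 4), (0, 4, 3), (3, 5, 0),
    (0, 2, 5), (1, 5, 2)],
    x t.1 * y t.2.1 + x t.2.1 * y t.1 =
      quadForm (le_refl (2 * 3)) x * y t.2.2 + x t.2.2 * quadForm (le_refl (2 * 3)) y

/-- The affine group `2^6 : G_2(2)`: all `g` in `ASp(6, 2)` whose linear part `x ↦ g x + g 0`
preserves the collinearity of the hexagon. -/
def AG2 : Subgroup (AGL (2 * 3)) where
  carrier := {g | g ∈ ASp 3 ∧ ∀ x y, HexRel (g x + g 0) (g y + g 0) ↔ HexRel x y}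
  one_mem' := by
    refine ⟨Subgroup.one_mem _, ?_⟩
    intro x y
    change HexRel (x + 0) (y + 0) ↔ HexRel x y
    rw [add_zero, add_zero]
  mul_mem' := by
    rintro g h ⟨hg1, hg⟩ ⟨hh1, hh⟩
    refine ⟨Subgroup.mul_mem _ hg1 hh1, ?_⟩
    intro x y
    change HexRel (g (h x) + g (h 0)) (g (h y) + g (h 0)) ↔ HexRel x y
    have key : ∀ z, g (h z) + g (h 0) = g (h z + h 0) + g 0 := by
      intro z
      have h1 := agl_add_three g (h z) (h 0) 0
      rw [add_zero] at h1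
      rw [h1, add_add_self]
    rw [key, key, hg, hh]
  inv_mem' := by
    rintro g ⟨hg1, hg⟩
    refine ⟨Subgroup.inv_mem _ hg1, ?_⟩
    intro x y
    change HexRel (g.symm x + g.symm 0) (g.symm y + g.symm 0) ↔ HexRel x y
    have key : ∀ z, g (g.symm z + g.symm 0) + g 0 = z := by
      intro z
      have h1 := agl_add_three g (g.symm z) (g.symm 0) 0
      rw [add_zero, g.apply_symm_apply, g.apply_symm_apply, add_zero] at h1
      rw [h1, add_add_self]
    rw [← hg, key, key]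

/-- The affine group `2^6 : G_2(2)'`, generated by the translations and the maps
`x ↦ x + B(a,x) b + B(b,x) a`, `a`, `b` collinear in the hexagon. -/
def AG2' : Subgroup (AGL (2 * 3)) :=
  Subgroup.closure {g | (∃ t, ∀ x, g x = x + t) ∨
    ∃ a b, HexRel a b ∧ ∀ x, g x = x + sf 3 a x • b + sf 3 b x • a}

/-- The `252` flats `{z | B(a, z + t) = B(b, z + t) = 0}`, where `a`, `b` span a line of the
hexagon. -/
def HexCode : Set (Finset (Vec (2 * 3))) :=
  {γ | ∃ a b t : Vec (2 * 3), a ≠ 0 ∧ b ≠ 0 ∧ a ≠ b ∧ HexRel a b ∧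
    ∀ z, z ∈ γ ↔ sf 3 a (z + t) = 0 ∧ sf 3 b (z + t) = 0}

namespace G2

/-- the vector with a given code -/
def dec (x : ℕ) : Vec (2 * 3) := fun i => if x.testBit i.1 = true then 1 else 0

def b2 (b : Bool) : ZMod 2 := if b = true then 1 else 0

lemma b2_xor (a b : Bool) : b2 (a ^^ b) = b2 a + b2 b := by
  cases a <;> cases b <;> rfl

lemma b2_and (a b : Bool) : b2 (a && b) = b2 a * b2 b := by
  cases a <;> cases b <;> rfl

lemma b2_inj (a b : Bool) : b2 a = b2 b ↔ a = b := by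
  cases a <;> cases b <;> decide

lemma b2_false (a : Bool) : b2 a = 0 ↔ a = false := by
  cases a <;> decide

lemma b2_true (a : Bool) : b2 a = 1 ↔ a = true := by
  cases a <;> decide

lemma dec_apply (x : ℕ) (i : Fin (2 * 3)) : dec x i = b2 (x.testBit i.1) := rfl

lemma dec_xor (x y : ℕ) : dec (x ^^^ y) = dec x + dec y := by
  funext i
  rw [Pi.add_apply, dec_apply, dec_apply, dec_apply, Nat.testBit_xor, b2_xor]

lemma dec_zero : dec 0 = 0 := by
  funext i
  rw [dec_apply, Nat.zero_testBit]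
  rfl

lemma dec_ite (c : Bool) (v : ℕ) : dec (if c = true then v else 0) = b2 c • dec v := by
  cases c
  · change dec 0 = b2 false • dec v
    rw [dec_zero]
    exact (zero_smul _ _).symm
  · change dec v = b2 true • dec v
    exact (one_smul _ _).symm

lemma dec_inj_aux : ∀ x < 64, ∀ y < 64, (∀ i < 6, x.testBit i = y.testBit i) → x = y := by
  decide +kernel

lemma dec_inj {x y : ℕ} (hx : x < 64) (hy : y < 64) (h : dec x = dec y) : x = y := by
  apply dec_inj_aux x hx y hy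
  intro i hi
  have h1 := congrFun h ⟨i, hi⟩
  rw [dec_apply, dec_apply, b2_inj] at h1
  exact h1

lemma dec_surj (v : Vec (2 * 3)) : ∃ x < 64, dec x = v := by
  have h1 : Function.Injective (fun x : Fin 64 => dec x.1) := by
    intro x y h
    exact Fin.ext (dec_inj x.2 y.2 h)
  have h2 : Function.Bijective (fun x : Fin 64 => dec x.1) := by
    rw [Fintype.bijective_iff_injective_and_card]
    refine ⟨h1, ?_⟩
    rw [Fintype.card_fin, card_vec]
    rfl
  obtain ⟨x, hx⟩ := h2.2 v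
  exact ⟨x.1, x.2, hx⟩

lemma sf_dec (x y : ℕ) : sf 3 (dec x) (dec y) = b2 (bN x y) := by
  rw [sf, Fin.sum_univ_three]
  simp only [bN, b2_xor, b2_and, dec_apply]
  simp only [Fin.val_zero, Fin.val_one, Fin.val_two]
  ring

lemma quadForm_dec (x : ℕ) : quadForm (le_refl (2 * 3)) (dec x) = b2 (qN x) := by
  rw [quadForm, Fin.sum_univ_three]
  simp only [qN, b2_xor, b2_and, dec_apply]
  simp only [Fin.val_zero, Fin.val_one, Fin.val_two]

lemma hexRel_dec_aux (i j k : Fin (2 * 3)) (x y : ℕ) :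
    (dec x i * dec y j + dec x j * dec y i =
      quadForm (le_refl (2 * 3)) (dec x) * dec y k + dec x k * quadForm (le_refl (2 * 3)) (dec y)) ↔
      pN i.1 j.1 x y = rN k.1 x y := by
  rw [quadForm_dec, quadForm_dec]
  simp only [dec_apply, ← b2_and, ← b2_xor]
  rw [b2_inj]
  rfl

lemma hexRel_dec (x y : ℕ) : HexRel (dec x) (dec y) ↔ hN x y = true := by
  rw [HexRel, sf_dec, b2_false]
  simp only [List.forall_mem_cons, hexRel_dec_aux]
  rw [hN]
  simp only [Bool.and_eq_true, beq_iff_eq, Bool.not_eq_true']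
  constructor
  · rintro ⟨h0, h1, h2, h3, h4, h5, h6, -⟩
    exact ⟨⟨⟨⟨⟨⟨h0, h1⟩, h2⟩, h3⟩, h4⟩, h5⟩, h6⟩
  · rintro ⟨⟨⟨⟨⟨⟨h0, h1⟩, h2⟩, h3⟩, h4⟩, h5⟩, h6⟩
    exact ⟨h0, h1, h2, h3, h4, h5, h6, fun t ht => absurd ht List.not_mem_nil⟩

lemma all_range {p : ℕ → Bool} (h : ((List.range 64).all p) = true) {x : ℕ} (hx : x < 64) :
    p x = true := by
  rw [List.all_eq_true] at h
  exact h x (List.mem_range.2 hx)

lemma tab_hex {x y : ℕ} (hx : x < 64) (hy : y < 64) :
    hexTab.testBit (64 * x + y) = hN x y := by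
  have h1 := all_range chk_tab hx
  have h2 := all_range h1 hy
  rw [beq_iff_eq] at h2
  exact h2

lemma hexRel_tab {x y : ℕ} (hx : x < 64) (hy : y < 64) :
    HexRel (dec x) (dec y) ↔ hexTab.testBit (64 * x + y) = true := by
  rw [hexRel_dec, tab_hex hx hy]

lemma lt_xor {x y : ℕ} (hx : x < 64) (hy : y < 64) : x ^^^ y < 64 :=
  Nat.xor_lt_two_pow (n := 6) hx hy

lemma ite_lt {c : Bool} {v : ℕ} (hv : v < 64) : (if c = true then v else 0) < 64 := by
  split_ifs
  · exact hv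
  · norm_num

lemma eN_lt {u v x : ℕ} (hu : u < 64) (hv : v < 64) (hx : x < 64) : eN u v x < 64 :=
  lt_xor (lt_xor hx (ite_lt hv)) (ite_lt hu)

lemma dN_lt {u v x : ℕ} (hu : u < 64) (hv : v < 64) (hx : x < 64) : dN u v x < 64 :=
  lt_xor (lt_xor hx (ite_lt hv)) (ite_lt hu)

lemma dec_eN (u v x : ℕ) :
    dec (eN u v x) = dec x + sf 3 (dec u) (dec x) • dec v + sf 3 (dec v) (dec x) • dec u := by
  rw [eN, dec_xor, dec_xor, dec_ite, dec_ite, sf_dec, sf_dec]

lemma dec_dN (u v x : ℕ) :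
    dec (dN u v x) = dec x + (sf 3 (dec u) (dec x) + quadForm (le_refl (2 * 3)) (dec u)) • dec v +
      (sf 3 (dec v) (dec x) + quadForm (le_refl (2 * 3)) (dec v)) • dec u := by
  rw [dN, dec_xor, dec_xor, dec_ite, dec_ite, sf_dec, sf_dec, quadForm_dec, quadForm_dec,
    ← b2_xor, ← b2_xor]

end G2

end Pool.Agent.SIT
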