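import Pool.Agent.SIT.LinS

/-!
# Hyperplanes over a subfield of index 2: sufficiency for `q = 4` and `q = 16`
-/

namespace Pool.Agent.SIT.LinS

variable {F V : Type*} [Field F] [Fintype F] [CharP F 2] [AddCommGroup V] [Module F V]

/-- The fixed field of `x ↦ x^(2^e)`. -/
noncomputable def fix (F : Type*) [Field F] [CharP F 2] (e : ℕ) : Subfield F :=
  (iterateFrobenius F 2 e).eqLocusField (RingHom.id F)

omit [Fintype F] in
lemma mem_fix {e : ℕ} {c : F} : c ∈ fix F e ↔ c ^ (2 ^ e) = c := Iff.rfl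

lemma card_fix {e : ℕ} (hF : Fintype.card F = (2 ^ e) ^ 2) : 2 ^ e ≤ Nat.card (fix F e) := by
  classical
  let T : F →+ F :=
    { toFun := fun x => x ^ (2 ^ e) + x
      map_zero' := by simp
      map_add' := by
        intro x y
        rw [add_pow_char_pow]
        ring }
  have hker : ∀ x, T x = 0 → x ∈ fix F e := by
    intro x hx
    change x ^ (2 ^ e) + x = 0 at hx
    rw [mem_fix]
    have h := CharTwo.add_self_eq_zero x
    rw [← hx] at h
    exact (add_right_cancel h).symm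
  have hran : ∀ x, T x ∈ fix F e := by
    intro x
    rw [mem_fix]
    change (x ^ (2 ^ e) + x) ^ (2 ^ e) = x ^ (2 ^ e) + x
    rw [add_pow_char_pow, ← pow_mul, ← sq, ← hF, FiniteField.pow_card, add_comm]
  have h1 : Nat.card T.ker ≤ Nat.card (fix F e) :=
    Nat.card_le_card_of_injective (fun x : T.ker => (⟨x.1, hker x.1 x.2⟩ : fix F e)) (by
      intro x y h
      exact Subtype.ext (congrArg (fun z : fix F e => (z : F)) h))
  have h2 : Nat.card T.range ≤ Nat.card (fix F e) :=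
    Nat.card_le_card_of_injective (fun x : T.range => (⟨x.1, by
      obtain ⟨y, hy⟩ := x.2
      rw [← hy]
      exact hran y⟩ : fix F e)) (by
      intro x y h
      exact Subtype.ext (congrArg (fun z : fix F e => (z : F)) h))
  have h3 : Nat.card T.ker * T.ker.index = Nat.card F := T.ker.card_mul_index
  rw [AddSubgroup.index_ker, Nat.card_eq_fintype_card (α := F), hF] at h3
  have h4 : (2 ^ e) ^ 2 ≤ Nat.card (fix F e) ^ 2 := by
    rw [← h3, sq]
    exact Nat.mul_le_mul h1 h2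
  exact (Nat.pow_le_pow_iff_left (by norm_num)).1 h4

lemma fix_span {e : ℕ} (hF : Fintype.card F = (2 ^ e) ^ 2) {b : F} (hb : b ∉ fix F e) (x : F) :
    ∃ a ∈ fix F e, ∃ a' ∈ fix F e, x = a + a' * b := by
  classical
  let f : (fix F e) × (fix F e) → F := fun p => p.1.1 + p.2.1 * b
  have hinj : Function.Injective f := by
    rintro ⟨a, a'⟩ ⟨c, c'⟩ h
    change a.1 + a'.1 * b = c.1 + c'.1 * b at h
    have h1 : (a'.1 - c'.1) * b = c.1 - a.1 := by linear_combination h
    by_cases hd : a'.1 - c'.1 = 0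
    · rw [hd, zero_mul] at h1
      have e1 : a = c := Subtype.ext (sub_eq_zero.1 h1.symm).symm
      have e2 : a' = c' := Subtype.ext (sub_eq_zero.1 hd)
      rw [e1, e2]
    · exfalso
      apply hb
      have : b = (c.1 - a.1) / (a'.1 - c'.1) := by
        rw [eq_div_iff hd, mul_comm]
        exact h1
      rw [this]
      exact div_mem (sub_mem c.2 a.2) (sub_mem a'.2 c'.2)
  have hcard : Nat.card F ≤ Nat.card ((fix F e) × (fix F e)) := by
    rw [Nat.card_prod, Nat.card_eq_fintype_card, hF, sq]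
    exact Nat.mul_le_mul (card_fix hF) (card_fix hF)
  have hsurj : Function.Surjective f := by
    have h1 : Nat.card ((fix F e) × (fix F e)) ≤ Nat.card F :=
      Nat.card_le_card_of_injective f hinj
    exact ((Nat.bijective_iff_injective_and_card f).2 ⟨hinj, le_antisymm h1 hcard⟩).2
  obtain ⟨⟨a, a'⟩, h⟩ := hsurj x
  exact ⟨a.1, a.2, a'.1, a'.2, h.symm⟩

/-- A subspace of index `2^e` over the subfield with `2^e` elements is given by a functional. -/
lemma exists_hyp_fun [Finite V] {e : ℕ} (he : 1 ≤ e) (hF : Fintype.card F = (2 ^ e) ^ 2)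
    (W : AddSubgroup V) (hW : ∀ c : F, c ^ (2 ^ e) = c → ∀ w ∈ W, c • w ∈ W)
    (hidx : W.index = 2 ^ e) :
    ∃ φ : Module.Dual F V, φ ≠ 0 ∧ ∀ z, z ∈ W ↔ φ z ∈ fix F e := by
  classical
  have h2e : 2 ≤ 2 ^ e := by
    calc 2 = 2 ^ 1 := rfl
      _ ≤ 2 ^ e := Nat.pow_le_pow_right (by norm_num) he
  -- some element outside the fixed field
  obtain ⟨θ, hθ⟩ : ∃ θ : F, θ ∉ fix F e := by
    by_contra hcon
    push Not at hcon
    -- all elements are roots of `X^(2^e) - X`
    have h1 : (Polynomial.X ^ (2 ^ e) - Polynomial.X : Polynomial F) ≠ 0 :=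
      FiniteField.X_pow_card_sub_X_ne_zero F (by omega)
    have h2 := Polynomial.card_roots' (Polynomial.X ^ (2 ^ e) - Polynomial.X : Polynomial F)
    rw [FiniteField.X_pow_card_sub_X_natDegree_eq F (by omega)] at h2
    have h3 : Fintype.card F ≤
        (Polynomial.X ^ (2 ^ e) - Polynomial.X : Polynomial F).roots.toFinset.card := by
      rw [← Finset.card_univ]
      apply Finset.card_le_card
      intro x _
      rw [Multiset.mem_toFinset, Polynomial.mem_roots h1, Polynomial.IsRoot.def]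
      simp only [Polynomial.eval_sub, Polynomial.eval_pow, Polynomial.eval_X]
      rw [mem_fix.1 (hcon x), sub_self]
    have h4 := h3.trans (Multiset.toFinset_card_le _)
    rw [hF, sq] at h4
    have : 2 ^ e * 2 ≤ 2 ^ e * 2 ^ e := Nat.mul_le_mul_left _ h2e
    omega
  let W₀ : Submodule F V :=
    { carrier := {x | ∀ c : F, c • x ∈ W}
      zero_mem' := fun c => by rw [smul_zero]; exact W.zero_mem
      add_mem' := fun {x y} hx hy c => by rw [smul_add]; exact W.add_mem (hx c) (hy c)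
      smul_mem' := fun d x hx c => by rw [smul_smul]; exact hx _ }
  have hW₀ : ∀ x, x ∈ W₀ ↔ ∀ c : F, c • x ∈ W := fun x => Iff.rfl
  have hle : ∀ x ∈ W₀, x ∈ W := fun x hx => by
    have := hx 1
    rwa [one_smul] at this
  -- index
  let f : V →+ (V ⧸ W) × (V ⧸ W) :=
    { toFun := fun x => (QuotientAddGroup.mk x, QuotientAddGroup.mk (θ • x))
      map_zero' := by simp
      map_add' := by
        intro x y
        simp only [smul_add, QuotientAddGroup.mk_add, Prod.mk_add_mk] }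
  have hfker : f.ker = W₀.toAddSubgroup := by
    ext x
    rw [AddMonoidHom.mem_ker, Submodule.mem_toAddSubgroup, hW₀]
    change ((QuotientAddGroup.mk x : V ⧸ W), (QuotientAddGroup.mk (θ • x) : V ⧸ W)) = 0 ↔ _
    rw [Prod.mk_eq_zero, QuotientAddGroup.eq_zero_iff, QuotientAddGroup.eq_zero_iff]
    constructor
    · rintro ⟨h1, h2⟩ c
      obtain ⟨a, ha, a', ha', rfl⟩ := fix_span hF hθ c
      rw [add_smul, mul_smul]
      exact W.add_mem (hW a ha x h1) (hW a' ha' _ h2)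
    · intro h
      refine ⟨?_, h θ⟩
      have := h 1
      rwa [one_smul] at this
  have hcard : Nat.card (V ⧸ W₀) ≤ Fintype.card F := by
    have h1 : Nat.card (V ⧸ W₀) = W₀.toAddSubgroup.index := rfl
    rw [h1, ← hfker, AddSubgroup.index_ker, hF, sq]
    have h2 : Nat.card f.range ≤ Nat.card ((V ⧸ W) × (V ⧸ W)) :=
      Nat.card_le_card_of_injective (fun x : f.range => x.1) Subtype.coe_injective
    rw [Nat.card_prod] at h2
    have h3 : Nat.card (V ⧸ W) = 2 ^ e := hidx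
    rwa [h3] at h2
  obtain ⟨x₁, hx₁⟩ : ∃ x, x ∉ W := by
    by_contra hcon
    push Not at hcon
    have : W = ⊤ := eq_top_iff.2 fun x _ => hcon x
    rw [this, AddSubgroup.index_top] at hidx
    omega
  have hx₁' : x₁ ∉ W₀ := fun h => hx₁ (hle _ h)
  obtain ⟨φ, hφ1, hφ2⟩ := exists_fun hx₁'
  have hrank : Module.finrank F (V ⧸ W₀) ≤ 1 := by
    by_contra hcon
    push Not at hcon
    have h1 := Module.natCard_eq_pow_finrank (K := F) (V := V ⧸ W₀)
    rw [h1, Nat.card_eq_fintype_card] at hcard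
    have h2 := Fintype.one_lt_card (α := F)
    have h3 : Fintype.card F ^ 1 < Fintype.card F ^ (Module.finrank F (V ⧸ W₀)) :=
      Nat.pow_lt_pow_right h2 hcon
    rw [pow_one] at h3
    omega
  have hker : ∀ z, φ z = 0 → z ∈ W₀ := by
    intro z hz
    obtain ⟨v, hv⟩ := finrank_le_one_iff.1 hrank
    obtain ⟨c, hc⟩ := hv (Submodule.Quotient.mk x₁)
    obtain ⟨d, hd⟩ := hv (Submodule.Quotient.mk z)
    have hc0 : c ≠ 0 := by
      rintro rfl
      rw [zero_smul] at hc
      exact hx₁' ((Submodule.Quotient.mk_eq_zero _).1 hc.symm)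
    have h1 : (Submodule.Quotient.mk (z - (d * c⁻¹) • x₁) : V ⧸ W₀) = 0 := by
      rw [Submodule.Quotient.mk_sub, Submodule.Quotient.mk_smul, ← hc, ← hd, smul_smul,
        mul_assoc, inv_mul_cancel₀ hc0, mul_one, sub_self]
    rw [Submodule.Quotient.mk_eq_zero] at h1
    have h2 := hφ2 _ h1
    rw [map_sub, map_smul, hz, hφ1, smul_eq_mul, mul_one, zero_sub, neg_eq_zero] at h2
    rwa [h2, zero_smul, sub_zero] at h1
  -- an element of `W` outside `W₀`
  obtain ⟨w₁, hw₁, hφw⟩ : ∃ w ∈ W, φ w ≠ 0 := by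
    by_contra hcon
    push Not at hcon
    have h1 : W = W₀.toAddSubgroup := by
      ext z
      exact ⟨fun hz => hker z (hcon z hz), fun hz => hle z hz⟩
    have h2 : Nat.card (V ⧸ W₀) = 2 ^ e := by
      rw [← hidx, h1]
      rfl
    have h3 := Module.natCard_eq_pow_finrank (K := F) (V := V ⧸ W₀)
    rw [h2, Nat.card_eq_fintype_card, hF] at h3
    have h4 : Module.finrank F (V ⧸ W₀) = 0 ∨ Module.finrank F (V ⧸ W₀) = 1 := by omega
    rcases h4 with h4 | h4
    · rw [h4, pow_zero] at h3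
      omega
    · rw [h4, pow_one, sq] at h3
      have : 2 ^ e * 2 ≤ 2 ^ e * 2 ^ e := Nat.mul_le_mul_left _ h2e
      omega
  refine ⟨(φ w₁)⁻¹ • φ, ?_, ?_⟩
  · intro h
    have := congrArg (fun f : Module.Dual F V => f w₁) h
    simp only [LinearMap.smul_apply, smul_eq_mul, inv_mul_cancel₀ hφw, LinearMap.zero_apply] at this
    exact one_ne_zero this
  intro z
  rw [LinearMap.smul_apply, smul_eq_mul]
  constructor
  · intro hz
    by_contra hb
    apply hx₁
    obtain ⟨a, ha, a', ha', hx⟩ := fix_span hF hb ((φ w₁)⁻¹ * φ x₁)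
    have h1 : x₁ - a • w₁ - a' • z ∈ W₀ := by
      apply hker
      rw [map_sub, map_sub, map_smul, map_smul, smul_eq_mul, smul_eq_mul]
      have h2 : φ x₁ = φ w₁ * ((φ w₁)⁻¹ * φ x₁) := by
        rw [← mul_assoc, mul_inv_cancel₀ hφw, one_mul]
      rw [h2, hx, mul_add]
      have h3 : φ w₁ * (a' * ((φ w₁)⁻¹ * φ z)) = a' * φ z := by
        field_simp
      rw [h3]
      ring
    have h4 : x₁ = (x₁ - a • w₁ - a' • z) + (a • w₁ + a' • z) := by abel
    rw [h4]
    exact W.add_mem (hle _ h1) (W.add_mem (hW a ha _ hw₁) (hW a' ha' _ hz))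
  · intro hz
    have h1 : z - ((φ w₁)⁻¹ * φ z) • w₁ ∈ W₀ := by
      apply hker
      rw [map_sub, map_smul, smul_eq_mul]
      field_simp
      ring
    have h4 : z = (z - ((φ w₁)⁻¹ * φ z) • w₁) + ((φ w₁)⁻¹ * φ z) • w₁ := by abel
    rw [h4]
    exact W.add_mem (hle _ h1) (hW _ hz _ hw₁)

section

variable {P : (V ≃+ V) → (F ≃+* F) → Prop}

omit [Fintype F] [CharP F 2] in
/-- Maps of the group acting on a functional through `μ σ`. -/
lemma move_semi (hP : Grp P) (hdim : ∀ φ : Module.Dual F V, ∃ v, v ≠ 0 ∧ φ v = 0)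
    {φ : Module.Dual F V} (hφ : φ ≠ 0) {μ : F} (hμ : μ ≠ 0) {g : V ≃+ V} {σ : F ≃+* F}
    (hg : P g σ) : ∃ h, P h σ ∧ ∀ z, φ (h z) = μ * σ (φ z) := by
  let φ' : Module.Dual F V :=
    { toFun := fun z => σ.symm (φ (g z))
      map_add' := by
        intro x y
        rw [map_add, map_add, map_add]
      map_smul' := by
        intro c x
        rw [hP.semi g σ hg, map_smul, smul_eq_mul, map_mul, σ.symm_apply_apply]
        rfl }
  have hφ' : φ' ≠ 0 := by
    intro h
    apply hφ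
    ext z
    have h1 : φ' (g.symm z) = 0 := by rw [h]; rfl
    change σ.symm (φ (g (g.symm z))) = 0 at h1
    rw [g.apply_symm_apply] at h1
    rw [LinearMap.zero_apply]
    exact (map_eq_zero _).1 h1
  obtain ⟨h, hh, hh'⟩ := move_fun hP hdim (φ := φ') (ψ := σ.symm μ • φ) hφ' (by
    intro h0
    rcases smul_eq_zero.1 h0 with h1 | h1
    · exact hμ ((map_eq_zero _).1 h1)
    · exact hφ h1)
  refine ⟨h.trans g, ?_, fun z => ?_⟩
  · have := hP.mul _ _ _ _ hh hg
    have e : (RingEquiv.refl F).trans σ = σ := by ext x; rfl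
    rwa [e] at this
  · have h1 : σ.symm (φ (g (h z))) = σ.symm μ * φ z := by
      have := hh' z
      rw [LinearMap.smul_apply, smul_eq_mul] at this
      exact this
    have h2 := congrArg σ h1
    rw [σ.apply_symm_apply, map_mul, σ.apply_symm_apply] at h2
    exact h2

/-- The common form of S2 and S3. -/
theorem lin_hyp [Finite V] (hP : Grp P) (hdim : ∀ φ : Module.Dual F V, ∃ v, v ≠ 0 ∧ φ v = 0)
    {e : ℕ} (he : 1 ≤ e) (hF : Fintype.card F = (2 ^ e) ^ 2)
    (W : AddSubgroup V) (hW : ∀ c : F, c ^ (2 ^ e) = c → ∀ w ∈ W, c • w ∈ W)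
    (hidx : W.index = 2 ^ e)
    (hval : ∀ s t : F, s ^ (2 ^ e) ≠ s → t ^ (2 ^ e) ≠ t →
      ∃ (μ : F) (σ : F ≃+* F), μ ^ (2 ^ e) = μ ∧ μ ≠ 0 ∧ (∃ g, P g σ) ∧ t = μ * σ s)
    {x y : V} (hx : x ∉ W) (hy : y ∉ W) :
    ∃ g σ, P g σ ∧ (∀ z, g z ∈ W ↔ z ∈ W) ∧ g x = y := by
  obtain ⟨φ, hφ, hφW⟩ := exists_hyp_fun he hF W hW hidx
  rw [hφW] at hx hy
  obtain ⟨μ, σ, hμ, hμ0, ⟨g, hg⟩, ht⟩ := hval (φ x) (φ y) hx hy
  obtain ⟨h, hh, hφh⟩ := move_semi hP hdim hφ hμ0 hg
  -- `h x` and `y` have the same value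
  have hhx : h x ∉ LinearMap.ker φ := by
    rw [LinearMap.mem_ker, hφh, ← ht]
    intro h0
    apply hy
    rw [h0]
    exact zero_mem _
  have hd : y - h x ∈ LinearMap.ker φ := by
    rw [LinearMap.mem_ker, map_sub, hφh, ← ht, sub_self]
  obtain ⟨ψ, v, h0, hv, hxy⟩ := move_coset hhx hd
  refine ⟨h.trans (tE ψ v h0), σ, ?_, ?_, hxy⟩
  · have := hP.mul _ _ _ _ hh (hP.tv ψ v h0)
    have e : σ.trans (RingEquiv.refl F) = σ := by ext x; rfl
    rwa [e] at this
  · intro z
    rw [hφW, hφW]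
    have h1 : φ ((h.trans (tE ψ v h0)) z) = μ * σ (φ z) := by
      change φ (tE ψ v h0 (h z)) = _
      rw [tE_apply, map_add, map_smul, show φ v = 0 from hv, smul_zero, add_zero, hφh]
    rw [h1, mem_fix, mem_fix, mul_pow, hμ, ← map_pow]
    constructor
    · intro h2
      exact σ.injective (mul_left_cancel₀ hμ0 h2)
    · intro h2
      rw [h2]

omit [AddCommGroup V] [Module F V] in
lemma four_elements (hF : Fintype.card F = 4) {s : F} (hs : s ^ 2 ≠ s) (t : F) :
    t = 0 ∨ t = 1 ∨ t = s ∨ t = s + 1 := by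
  classical
  have hs0 : s ≠ 0 := by rintro rfl; simp at hs
  have hs1 : s ≠ 1 := by rintro rfl; simp at hs
  have hc : ({0, 1, s, s + 1} : Finset F).card = 4 := by
    rw [Finset.card_insert_of_notMem, Finset.card_insert_of_notMem,
      Finset.card_insert_of_notMem, Finset.card_singleton]
    · simp
    · simp only [Finset.mem_insert, Finset.mem_singleton, not_or]
      refine ⟨Ne.symm hs1, fun h => hs0 ?_⟩
      exact (add_eq_right.1 h.symm)
    · simp only [Finset.mem_insert, Finset.mem_singleton, not_or]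
      refine ⟨zero_ne_one, Ne.symm hs0, fun h => hs1 ?_⟩
      have := CharTwo.add_self_eq_zero (1 : F)
      rw [← this] at h
      exact (add_right_cancel h).symm
  have hu : ({0, 1, s, s + 1} : Finset F) = Finset.univ := by
    apply Finset.eq_univ_of_card
    rw [hc, hF]
  have := Finset.mem_univ t
  rw [← hu] at this
  simpa using this

lemma exc4 (hF : Fintype.card F = 4) {s t : F} (hs : s ^ 2 ≠ s) (ht : t ^ 2 ≠ t) :
    t = s ∨ ∀ σ : F ≃+* F, σ ≠ RingEquiv.refl F → t = σ s := by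
  have ht0 : t ≠ 0 := by rintro rfl; simp at ht
  have ht1 : t ≠ 1 := by rintro rfl; simp at ht
  rcases four_elements hF hs t with h | h | rfl | rfl
  · exact absurd h ht0
  · exact absurd h ht1
  · exact Or.inl rfl
  · right
    intro σ hσ
    have hσs : (σ s) ^ 2 ≠ σ s := by
      rw [← map_pow]
      exact fun h => hs (σ.injective h)
    rcases four_elements hF hs (σ s) with h | h | h | h
    · rw [h] at hσs; simp at hσs
    · rw [h] at hσs; simp at hσs
    · exfalso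
      apply hσ
      ext z
      rcases four_elements hF hs z with rfl | rfl | rfl | rfl
      · simp
      · simp
      · exact h
      · rw [map_add, map_one, h]; rfl
    · exact h.symm

/-- **S2.** -/
theorem lin_S2 [Finite V] (hP : Grp P) (hdim : ∀ φ : Module.Dual F V, ∃ v, v ≠ 0 ∧ φ v = 0)
    (hF : Fintype.card F = 4) (W : AddSubgroup V) (hidx : W.index = 2)
    (hnl : ∃ g σ, P g σ ∧ σ ≠ RingEquiv.refl F) {x y : V} (hx : x ∉ W) (hy : y ∉ W) :
    ∃ g σ, P g σ ∧ (∀ z, g z ∈ W ↔ z ∈ W) ∧ g x = y := by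
  apply lin_hyp hP hdim (e := 1) le_rfl (by rw [hF]; norm_num) W _ (by rw [hidx]; norm_num) _ hx hy
  · intro c hc w hw
    rw [pow_one, sq] at hc
    have hc' : c = 0 ∨ c = 1 := by
      have h1 : c * (c - 1) = 0 := by linear_combination hc
      rcases mul_eq_zero.1 h1 with h | h
      · exact Or.inl h
      · exact Or.inr (sub_eq_zero.1 h)
    rcases hc' with rfl | rfl
    · rw [zero_smul]; exact W.zero_mem
    · rw [one_smul]; exact hw
  · intro s t hs ht
    rw [pow_one] at hs ht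
    rcases exc4 hF hs ht with rfl | h
    · exact ⟨1, RingEquiv.refl F, one_pow _, one_ne_zero, ⟨_, hP.one⟩, by rw [one_mul]; rfl⟩
    · obtain ⟨g, σ, hg, hσ⟩ := hnl
      exact ⟨1, σ, one_pow _, one_ne_zero, ⟨g, hg⟩, by rw [one_mul, ← h σ hσ]⟩

omit [Fintype F] [CharP F 2] in
lemma fifth_root {z w : F} (hz5 : z ^ 5 = 1) (hz : z ≠ 1) (hw5 : w ^ 5 = 1) (hw : w ≠ 1) :
    w = z ∨ w = z ^ 2 ∨ w = z ^ 4 ∨ w = z ^ 8 := by
  have hz' : z ^ 4 + z ^ 3 + z ^ 2 + z + 1 = 0 := by
    have h : (z - 1) * (z ^ 4 + z ^ 3 + z ^ 2 + z + 1) = 0 := by linear_combination hz5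
    exact (mul_eq_zero.1 h).resolve_left (sub_ne_zero.2 hz)
  have hw' : w ^ 4 + w ^ 3 + w ^ 2 + w + 1 = 0 := by
    have h : (w - 1) * (w ^ 4 + w ^ 3 + w ^ 2 + w + 1) = 0 := by linear_combination hw5
    exact (mul_eq_zero.1 h).resolve_left (sub_ne_zero.2 hw)
  have h8 : z ^ 8 = z ^ 3 := by
    calc z ^ 8 = z ^ 5 * z ^ 3 := by ring
      _ = _ := by rw [hz5, one_mul]
  have hprod : (w - z) * (w - z ^ 2) * (w - z ^ 4) * (w - z ^ 3) = 0 := by
    linear_combination hw' + (-w ^ 3 + (z ^ 3 + z - 1) * w ^ 2 - (z ^ 5 - z + 1) * w +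
      (z - 1) * (z ^ 5 + 1)) * hz'
  rw [h8]
  rcases mul_eq_zero.1 hprod with h | h
  · rcases mul_eq_zero.1 h with h | h
    · rcases mul_eq_zero.1 h with h | h
      · exact Or.inl (sub_eq_zero.1 h)
      · exact Or.inr (Or.inl (sub_eq_zero.1 h))
    · exact Or.inr (Or.inr (Or.inl (sub_eq_zero.1 h)))
  · exact Or.inr (Or.inr (Or.inr (sub_eq_zero.1 h)))

lemma exc16 (hF : Fintype.card F = 16) {s t : F} (hs : s ^ 4 ≠ s) (ht : t ^ 4 ≠ t) :
    ∃ (μ : F) (σ : F ≃+* F), μ ^ 4 = μ ∧ μ ≠ 0 ∧ t = μ * σ s := by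
  have h0 : ∀ s : F, s ^ 4 ≠ s → s ≠ 0 ∧ s ^ 3 ≠ 1 ∧ (s ^ 3) ^ 5 = 1 := by
    intro s hs
    have hs0 : s ≠ 0 := by rintro rfl; simp at hs
    refine ⟨hs0, fun h => hs ?_, ?_⟩
    · calc s ^ 4 = s ^ 3 * s := by ring
        _ = s := by rw [h, one_mul]
    · have := FiniteField.pow_card_sub_one_eq_one s hs0
      rw [hF] at this
      rw [← pow_mul]
      exact this
  obtain ⟨hs0, hs1, hs5⟩ := h0 s hs
  obtain ⟨ht0, ht1, ht5⟩ := h0 t ht
  have hfin : ∀ (i : ℕ), t ^ 3 = (s ^ 3) ^ (2 ^ i) →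
      ∃ (μ : F) (σ : F ≃+* F), μ ^ 4 = μ ∧ μ ≠ 0 ∧ t = μ * σ s := by
    intro i hi
    let σ : F ≃+* F := iterateFrobeniusEquiv F 2 i
    have hσ : σ s = s ^ (2 ^ i) := iterateFrobeniusEquiv_apply _ _ _ _
    have hs0' : s ^ (2 ^ i) ≠ 0 := pow_ne_zero _ hs0
    have h3 : (t / s ^ (2 ^ i)) ^ 3 = 1 := by
      rw [div_pow, hi, ← pow_mul, ← pow_mul, mul_comm 3, div_self (pow_ne_zero _ hs0)]
    refine ⟨t / s ^ (2 ^ i), σ, ?_, div_ne_zero ht0 hs0', ?_⟩
    · calc (t / s ^ (2 ^ i)) ^ 4 = (t / s ^ (2 ^ i)) ^ 3 * (t / s ^ (2 ^ i)) := by ring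
        _ = _ := by rw [h3, one_mul]
    · rw [hσ, div_mul_cancel₀ _ hs0']
  rcases fifth_root hs5 hs1 ht5 ht1 with h | h | h | h
  · exact hfin 0 (by rw [h]; norm_num)
  · exact hfin 1 (by rw [h]; norm_num)
  · exact hfin 2 (by rw [h]; norm_num)
  · exact hfin 3 (by rw [h]; norm_num)

/-- **S3.** -/
theorem lin_S3 [Finite V] (hP : Grp P) (hdim : ∀ φ : Module.Dual F V, ∃ v, v ≠ 0 ∧ φ v = 0)
    (hF : Fintype.card F = 16) (W : AddSubgroup V) (hidx : W.index = 4)
    (hW : ∀ c : F, c ^ 4 = c → ∀ w ∈ W, c • w ∈ W)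
    (hall : ∀ σ : F ≃+* F, ∃ g, P g σ) {x y : V} (hx : x ∉ W) (hy : y ∉ W) :
    ∃ g σ, P g σ ∧ (∀ z, g z ∈ W ↔ z ∈ W) ∧ g x = y := by
  apply lin_hyp hP hdim (e := 2) (by norm_num) (by rw [hF]; norm_num) W _
    (by rw [hidx]; norm_num) _ hx hy
  · intro c hc
    exact hW c (by simpa using hc)
  · intro s t hs ht
    obtain ⟨μ, σ, h1, h2, h3⟩ := exc16 hF (s := s) (t := t) (by simpa using hs)
      (by simpa using ht)
    exact ⟨μ, σ, by simpa using h1, h2, hall σ, h3⟩

end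

end Pool.Agent.SIT.LinS
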