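import Pool.Agent.SIT.SpQ
import Pool.Agent.SIT.LinS2
import Pool.Agent.SIT.LinS4G

/-!
# Symplectic groups over fields of order `2^a`: the exceptional hyperplanes and the quadrics

`P g σ`: the `σ`-semilinear map `g` belongs to the group; `P g t σ`: the same for `x ↦ g x + t`.
-/

namespace Pool.Agent.SIT.SpQ

open Pool.Agent.SIT.LinS Pool.Agent.SIT.S4

section

variable {F : Type*} [Field F] [CharP F 2] {V : Type*} [AddCommGroup V] [Module F V]
  {B : V →ₗ[F] V →ₗ[F] F}

/-- A property closed under products that holds for the transvections holds in the group. -/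
theorem SpT_induct (hB : SympF B) {p : (V ≃ₗ[F] V) → Prop} (one : p 1)
    (mul : ∀ g h, p g → p h → p (g * h)) (tv : ∀ c z, p (tq hB c z)) {g : V ≃ₗ[F] V}
    (hg : g ∈ SpT hB) : p g := by
  have hsq : ∀ c z, tq hB c z * tq hB c z = 1 := by
    intro c z
    ext x
    change tq hB c z (tq hB c z x) = x
    rw [tq_apply, tq_apply, map_add, LinearMap.add_apply, map_smul, LinearMap.smul_apply, hB.alt,
      smul_zero, add_zero, vabb F]
  have h1 : g ∈ Submonoid.closure ((Set.range fun p : F × V => tq hB p.1 p.2) ∪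
      (Set.range fun p : F × V => tq hB p.1 p.2)⁻¹) := by
    rw [← Subgroup.closure_toSubmonoid]
    exact hg
  refine Submonoid.closure_induction (motive := fun g _ => p g) ?_ one
    (fun g h _ _ => mul g h) h1
  rintro g (⟨q, rfl⟩ | hq)
  · exact tv q.1 q.2
  · rw [Set.mem_inv] at hq
    obtain ⟨q, hq⟩ := hq
    have h2 : g = tq hB q.1 q.2 := by
      have h3 : g⁻¹ = tq hB q.1 q.2 := hq.symm
      have h4 : (tq hB q.1 q.2)⁻¹ = tq hB q.1 q.2 := inv_eq_of_mul_eq_one_left (hsq _ _)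
      rw [← inv_inv g, h3, h4]
    rw [h2]
    exact tv q.1 q.2

/-- A group of semilinear similitudes containing the symplectic transvections. -/
structure GrpS (hB : SympF B) (P : (V ≃+ V) → (F ≃+* F) → Prop) : Prop where
  semi : ∀ g σ, P g σ → ∀ (c : F) x, g (c • x) = σ c • g x
  mul : ∀ g σ h τ, P g σ → P h τ → P (g.trans h) (σ.trans τ)
  sim : ∀ g σ, P g σ → ∃ c : F, c ≠ 0 ∧ ∀ x y, B (g x) (g y) = c * σ (B x y)
  one : P (AddEquiv.refl V) (RingEquiv.refl F)
  tv : ∀ (c : F) (z : V), P (tq hB c z).toAddEquiv (RingEquiv.refl F)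

variable {P : (V ≃+ V) → (F ≃+* F) → Prop}

lemma GrpS.mem {hB : SympF B} (hP : GrpS hB P) {g : V ≃ₗ[F] V} (hg : g ∈ SpT hB) :
    P g.toAddEquiv (RingEquiv.refl F) := by
  refine SpT_induct hB (p := fun g => P g.toAddEquiv (RingEquiv.refl F)) ?_ ?_ hP.tv hg
  · have : (1 : V ≃ₗ[F] V).toAddEquiv = AddEquiv.refl V := by ext x; rfl
    rw [this]
    exact hP.one
  · intro g h h1 h2
    have h3 := hP.mul _ _ _ _ h2 h1
    have e1 : h.toAddEquiv.trans g.toAddEquiv = (g * h).toAddEquiv := by ext x; rfl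
    have e2 : (RingEquiv.refl F).trans (RingEquiv.refl F) = RingEquiv.refl F := by ext x; rfl
    rwa [e1, e2] at h3

/-- transitivity outside a coisotropic subspace -/
theorem sp_S1 [FiniteDimensional F V] {hB : SympF B} (hP : GrpS hB P) {W : Submodule F V}
    (hW : CoisoF B W) {x y : V} (hx : x ∉ W) (hy : y ∉ W) :
    ∃ g, P g (RingEquiv.refl F) ∧ (∀ z, g z ∈ W ↔ z ∈ W) ∧ g x = y := by
  obtain ⟨g, hg, h1, h2⟩ := sp_outside hB hW hx hy
  exact ⟨g.toAddEquiv, hP.mem hg, h1, h2⟩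

variable [Fintype F]

theorem sp_hyp [Finite V] {hB : SympF B} (hP : GrpS hB P)
    {e : ℕ} (he : 1 ≤ e) (hF : Fintype.card F = (2 ^ e) ^ 2)
    (W : AddSubgroup V) (hW : ∀ c : F, c ^ (2 ^ e) = c → ∀ w ∈ W, c • w ∈ W)
    (hidx : W.index = 2 ^ e)
    (hval : ∀ s t : F, s ^ (2 ^ e) ≠ s → t ^ (2 ^ e) ≠ t →
      ∃ (μ : F) (σ : F ≃+* F), μ ^ (2 ^ e) = μ ∧ μ ≠ 0 ∧ (∃ g, P g σ) ∧ t = μ * σ s)
    {x y : V} (hx : x ∉ W) (hy : y ∉ W) :
    ∃ g σ, P g σ ∧ (∀ z, g z ∈ W ↔ z ∈ W) ∧ g x = y := by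
  obtain ⟨φ, hφ, hφW⟩ := exists_hyp_fun he hF W hW hidx
  have : FiniteDimensional F V := inferInstance
  obtain ⟨u, hu⟩ := exists_repr hB φ
  have hu0 : u ≠ 0 := by
    rintro rfl
    apply hφ
    ext x
    rw [← hu, map_zero]
    rfl
  rw [hφW] at hx hy
  obtain ⟨μ, σ, hμ, hμ0, ⟨g, hg⟩, ht⟩ := hval (φ x) (φ y) hx hy
  obtain ⟨c, hc, hsim⟩ := hP.sim g σ hg
  obtain ⟨h, hh, hφh⟩ := sp_semi hB g σ hc hsim hu0 hμ0
  have hval' : B (h (g x)) u = B y u := by rw [hφh, hu, hu, ← ht]
  have hne : B (h (g x)) u ≠ 0 := by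
    rw [hval', hu]
    intro h0
    apply hy
    rw [h0]
    exact zero_mem _
  obtain ⟨k, hk, -, hk1, hk2⟩ := sp_level hB hval' hne
  refine ⟨(g.trans h.toAddEquiv).trans k.toAddEquiv, σ, ?_, ?_, hk2⟩
  · have := hP.mul _ _ _ _ (hP.mul _ _ _ _ hg (hP.mem hh)) (hP.mem hk)
    have e : (σ.trans (RingEquiv.refl F)).trans (RingEquiv.refl F) = σ := by ext x; rfl
    rwa [e] at this
  · intro z
    rw [hφW, hφW]
    have h1 : φ (((g.trans h.toAddEquiv).trans k.toAddEquiv) z) = μ * σ (φ z) := by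
      rw [← hu]
      change B (k (h (g z))) u = _
      rw [hk1, hφh, hu]
    rw [h1, mem_fix, mem_fix, mul_pow, hμ, ← map_pow]
    constructor
    · intro h2
      exact σ.injective (mul_left_cancel₀ hμ0 h2)
    · intro h2
      rw [h2]

/-- hyperplanes over `F_2` in spaces over `F_4` -/
theorem sp_S2 [Finite V] {hB : SympF B} (hP : GrpS hB P)
    (hF : Fintype.card F = 4) (W : AddSubgroup V) (hidx : W.index = 2)
    (hnl : ∃ g σ, P g σ ∧ σ ≠ RingEquiv.refl F) {x y : V} (hx : x ∉ W) (hy : y ∉ W) :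
    ∃ g σ, P g σ ∧ (∀ z, g z ∈ W ↔ z ∈ W) ∧ g x = y := by
  apply sp_hyp hP (e := 1) le_rfl (by rw [hF]; norm_num) W _ (by rw [hidx]; norm_num) _ hx hy
  · intro c hc w hw
    rw [pow_one, sq] at hc
    have hc' : c = 0 ∨ c = 1 := by
      have h1 : c * (c - 1) = 0 := by linear_combination hc
      rcases mul_eq_zero.1 h1 with h | h
      · exact Or.inl h
      · exact Or.inr (sub_eq_zero.1 h)
    rcases hc' with rfl | rfl
    · rw [zero_smul]; exact W.zero_mem
    · rw [one_smul]; exact hw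
  · intro s t hs ht
    rw [pow_one] at hs ht
    rcases exc4 hF hs ht with rfl | h
    · exact ⟨1, RingEquiv.refl F, one_pow _, one_ne_zero, ⟨_, hP.one⟩, by rw [one_mul]; rfl⟩
    · obtain ⟨g, σ, hg, hσ⟩ := hnl
      exact ⟨1, σ, one_pow _, one_ne_zero, ⟨g, hg⟩, by rw [one_mul, ← h σ hσ]⟩

/-- hyperplanes over `F_4` in spaces over `F_16` -/
theorem sp_S3 [Finite V] {hB : SympF B} (hP : GrpS hB P)
    (hF : Fintype.card F = 16) (W : AddSubgroup V) (hidx : W.index = 4)
    (hW : ∀ c : F, c ^ 4 = c → ∀ w ∈ W, c • w ∈ W)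
    (hall : ∀ σ : F ≃+* F, ∃ g, P g σ) {x y : V} (hx : x ∉ W) (hy : y ∉ W) :
    ∃ g σ, P g σ ∧ (∀ z, g z ∈ W ↔ z ∈ W) ∧ g x = y := by
  apply sp_hyp hP (e := 2) (by norm_num) (by rw [hF]; norm_num) W _
    (by rw [hidx]; norm_num) _ hx hy
  · intro c hc
    exact hW c (by simpa using hc)
  · intro s t hs ht
    obtain ⟨μ, σ, h1, h2, h3⟩ := exc16 hF (s := s) (t := t) (by simpa using hs)
      (by simpa using ht)
    exact ⟨μ, σ, by simpa using h1, h2, hall σ, h3⟩

end

section

variable {F : Type*} [Field F] [CharP F 2] [Fintype F] {V : Type*} [AddCommGroup V] [Module F V]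
  [FiniteDimensional F V] {B : V →ₗ[F] V →ₗ[F] F} {f : V → ZMod 2} {β : V → V → ZMod 2}

/-- the radical of a compatible form -/
def rad (hb : ∀ x a b, f (x + a + b) + f (x + a) + f (x + b) + f x = β a b)
    (hcomp : ∀ (c : F) a b, β (c • a) b = β a (c • b)) : Submodule F V where
  carrier := {r | ∀ b, β r b = 0}
  zero_mem' := fun b => beta_zero_left hb b
  add_mem' := by
    intro r s hr hs b
    rw [beta_add_left hb, hr, hs, add_zero]
  smul_mem' := by
    intro c r hr b
    rw [hcomp, hr]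

/-- Quadrics whose period is coisotropic. -/
theorem sp_S4a (hB : SympF B) (hcard : Fintype.card F = 4)
    (hb : ∀ x a b, f (x + a + b) + f (x + a) + f (x + b) + f x = β a b)
    (hcomp : ∀ (c : F) a b, β (c • a) b = β a (c • b))
    (hR : ∀ a, (∀ b, β a b = 0) → ∀ x, f (x + a) = f x)
    (hco : ∀ a, (∀ r, (∀ b, β r b = 0) → B a r = 0) → ∀ b, β a b = 0)
    {P : (V ≃+ V) → V → (F ≃+* F) → Prop}
    (hsemi : ∀ {g t σ}, P g t σ → ∀ (c : F) x, g (c • x) = σ c • g x)
    (hmul : ∀ {g t σ g' t' σ'}, P g t σ → P g' t' σ' → P (g'.trans g) (g t' + t) (σ'.trans σ))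
    (hSp : ∀ g ∈ SpT hB, ∀ t, P g.toAddEquiv t (RingEquiv.refl F))
    (h0 : ∃ g t σ, P g t σ ∧ σ ≠ RingEquiv.refl F ∧ ∀ x, f (g x + t) = f x)
    {x y x' y' : V} (hx : f x = f x') (hy : f y = f y') (hne : f x ≠ f y) :
    ∃ g t σ, P g t σ ∧ (∀ z, f (g z + t) = f z) ∧ g x + t = x' ∧ g y + t = y' := by
  obtain ⟨w, hw, hF⟩ := exists_w hcard
  have hW : CoisoF B (rad hb hcomp) := fun a ha => hco a ha
  have hsum : ∀ (g : V ≃ₗ[F] V) (p x : V) (φ : V →ₗ[F] F) (d : V),
      (∀ x, g x + (x + φ x • d) ∈ rad hb hcomp) →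
      g x + (p + g p) + (x + (φ (x + p)) • d) ∈ rad hb hcomp := by
    intro g p x φ d h
    have h1 := (rad hb hcomp).add_mem (h x) (h p)
    have e : g x + (x + φ x • d) + (g p + (p + φ p • d)) =
        g x + (p + g p) + (x + (φ (x + p)) • d) := by
      rw [map_add, add_smul]
      abel
    rwa [e] at h1
  refine s4_grp hb hcomp hw hF hR hsemi hmul (fun r _ => ?_) ?_ ?_ h0 hx hy hne
  · have := hSp 1 (SpT hB).one_mem r
    have e : (1 : V ≃ₗ[F] V).toAddEquiv = AddEquiv.refl V := by ext x; rfl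
    rwa [e] at this
  · intro p z c _
    let φ : V →ₗ[F] F :=
      { toFun := fun x => bt w β x z
        map_add' := fun a b => bt_add_left hb a b z
        map_smul' := fun c a => bt_smul_left hb hw hF c a z }
    have hφ : ∀ x, φ x = bt w β x z := fun x => rfl
    obtain ⟨g, hg, hg1, -⟩ := sp_lift hB hW φ (fun r hr => by
      rw [hφ]
      exact bt_of_rad hcomp hr z) (c • z) (by
      rw [map_smul, hφ, bt_self hb hcomp hw hF, smul_zero])
    refine ⟨g.toAddEquiv, p + g p, hSp g hg _, ?_, ?_⟩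
    · change g p + (p + g p) = p
      have : g p + (p + g p) = p + (g p + g p) := by abel
      rw [this, vaa F, add_zero]
    · intro x
      have := hsum g p x φ (c • z) hg1
      rw [hφ, smul_smul, mul_comm _ c] at this
      exact this
  · intro p y y' h1 h2
    have hv : p + y ∉ rad hb hcomp := h1
    have hvv : p + y + (p + y') ∈ rad hb hcomp := by
      have e : p + y + (p + y') = y + y' := by
        calc p + y + (p + y') = y + y' + (p + p) := by abel
          _ = _ := by rw [vaa F, add_zero]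
      rw [e]
      exact h2
    obtain ⟨g, hg, hg1, hg2⟩ := sp_coset hB hW hv hvv
    refine ⟨g.toAddEquiv, p + g p, hSp g hg _, ?_, ?_, ?_⟩
    · intro x
      have h3 := (rad hb hcomp).add_mem (hg1 x) (hg1 p)
      have e : g x + x + (g p + p) = g x + (p + g p) + x := by abel
      rw [e] at h3
      exact h3
    · change g p + (p + g p) = p
      have : g p + (p + g p) = p + (g p + g p) := by abel
      rw [this, vaa F, add_zero]
    · change g y + (p + g p) = y'
      rw [map_add] at hg2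
      calc g y + (p + g p) = p + (g p + g y) := by abel
        _ = p + (p + y') := by rw [hg2]
        _ = y' := vaab F p y'

/-- Quadrics whose polar form is a multiple of the given form. -/
theorem sp_S4b (hB : SympF B) (hcard : Fintype.card F = 4)
    (hb : ∀ x a b, f (x + a + b) + f (x + a) + f (x + b) + f x = β a b)
    (hcomp : ∀ (c : F) a b, β (c • a) b = β a (c • b))
    (hnd : ∀ a, (∀ b, β a b = 0) → a = 0)
    (hBβ : ∀ a b, B a b = 0 → β a b = 0)
    {P : (V ≃+ V) → V → (F ≃+* F) → Prop}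
    (hsemi : ∀ {g t σ}, P g t σ → ∀ (c : F) x, g (c • x) = σ c • g x)
    (hmul : ∀ {g t σ g' t' σ'}, P g t σ → P g' t' σ' → P (g'.trans g) (g t' + t) (σ'.trans σ))
    (hSp : ∀ g ∈ SpT hB, ∀ t, P g.toAddEquiv t (RingEquiv.refl F))
    (h0 : ∃ g t σ, P g t σ ∧ σ ≠ RingEquiv.refl F ∧ ∀ x, f (g x + t) = f x)
    {x y x' y' : V} (hx : f x = f x') (hy : f y = f y') (hne : f x ≠ f y) :
    ∃ g t σ, P g t σ ∧ (∀ z, f (g z + t) = f z) ∧ g x + t = x' ∧ g y + t = y' := by
  obtain ⟨w, hw, hF⟩ := exists_w hcard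
  have hrad0 : ∀ b, β (0 : V) b = 0 := beta_zero_left hb
  have hR : ∀ a, (∀ b, β a b = 0) → ∀ x, f (x + a) = f x := by
    intro a ha x
    rw [hnd a ha, add_zero]
  have h1V : P (AddEquiv.refl V) 0 (RingEquiv.refl F) := by
    have := hSp 1 (SpT hB).one_mem 0
    have e : (1 : V ≃ₗ[F] V).toAddEquiv = AddEquiv.refl V := by ext x; rfl
    rwa [e] at this
  -- the form `bt` is proportional to `B`
  have hprop : ∀ z, ∃ k : F, ∀ x, bt w β x z = k * B x z := by
    intro z
    by_cases hz : ∀ x, B x z = 0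
    · refine ⟨0, fun x => ?_⟩
      rw [zero_mul]
      unfold bt
      rw [hBβ x z (hz x), hBβ (w • x) z (hz _), map_zero, mul_zero, add_zero]
    · push Not at hz
      obtain ⟨t, ht⟩ := hz
      refine ⟨bt w β t z * (B t z)⁻¹, fun x => ?_⟩
      have h1 : B (x + (B x z * (B t z)⁻¹) • t) z = 0 := by
        rw [map_add, map_smul, LinearMap.add_apply, LinearMap.smul_apply, smul_eq_mul, mul_assoc,
          inv_mul_cancel₀ ht, mul_one, CharTwo.add_self_eq_zero]
      have h2 : bt w β (x + (B x z * (B t z)⁻¹) • t) z = 0 := by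
        unfold bt
        rw [hBβ _ z h1, hBβ (w • _) z (by
          rw [map_smul, LinearMap.smul_apply, h1, smul_zero]), map_zero, mul_zero, add_zero]
      rw [bt_add_left hb, bt_smul_left hb hw hF] at h2
      rw [fne h2]
      ring
  refine s4_grp hb hcomp hw hF hR hsemi hmul (fun r hr => ?_) ?_ ?_ h0 hx hy hne
  · rw [hnd r hr]
    exact h1V
  · intro p z c _
    obtain ⟨k, hk⟩ := hprop z
    refine ⟨(tq hB (c * k) z).toAddEquiv, (c * bt w β p z) • z, hSp _ (tq_mem hB _ _) _, ?_, ?_⟩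
    · change tq hB (c * k) z p + (c * bt w β p z) • z = p
      rw [tq_apply, hk, ← mul_assoc, vabb F]
    · intro x b
      have e : tq hB (c * k) z x + (c * bt w β p z) • z + (x + (c * bt w β (x + p) z) • z) = 0 := by
        rw [tq_apply, bt_add_left hb, hk x, hk p, mul_add, add_smul, ← mul_assoc, ← mul_assoc]
        set a := (c * k * B x z) • z
        set b := (c * k * B p z) • z
        calc x + a + b + (x + (a + b)) = (x + x) + (a + a) + (b + b) := by abel
          _ = 0 := by rw [vaa F x, vaa F a, vaa F b, add_zero, add_zero]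
      change β (tq hB (c * k) z x + (c * bt w β p z) • z + (x + (c * bt w β (x + p) z) • z)) b = 0
      rw [e, hrad0]
  · intro p y y' _ h2
    have h3 : y = y' := by
      have := hnd _ h2
      have h4 := vabb F y y'
      rw [this, zero_add] at h4
      exact h4.symm
    refine ⟨AddEquiv.refl V, 0, h1V, fun x b => ?_, ?_, ?_⟩
    · change β (x + 0 + x) b = 0
      rw [add_zero, vaa F, hrad0]
    · change p + 0 = p
      rw [add_zero]
    · change y + 0 = y'
      rw [add_zero, h3]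

end

end Pool.Agent.SIT.SpQ
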