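import Pool.Agent.SIT.HexCol
import Pool.Agent.SIT.AllDefs
import Pool.Agent.SIT.SpQ2

/-!
# The hexagon group `G_2(q)`, `q` even: transitivity properties

Level sets of a functional, vectors, hexagon lines, and the complement of the four-dimensional
space orthogonal to a hexagon line.
-/

namespace Pool.Agent.SIT.Hex

open Pool.Agent.SIT.S4

variable {F : Type*} [Field F] [CharP F 2]

/-- A group of semilinear affine maps that contains the translations and the elementary maps and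
preserves the form and collinearity up to scalars and automorphisms. -/
structure HexG (P : (V6 F ≃+ V6 F) → V6 F → (F ≃+* F) → Prop) : Prop extends HexGrp P where
  inv : ∀ {g t σ}, P g t σ → P g.symm (g.symm t) σ.symm
  sim : ∀ {g t σ}, P g t σ → ∃ c : F, c ≠ 0 ∧ ∀ x y, Bf (g x) (g y) = c * σ (Bf x y)
  col : ∀ {g t σ}, P g t σ → ∀ x y, Col (g x) (g y) ↔ Col x y

variable {P : (V6 F ≃+ V6 F) → V6 F → (F ≃+* F) → Prop}

lemma HexG.lin_symm (hP : HexG P) {g : V6 F ≃+ V6 F} (h : LinIn P g) : LinIn P g.symm := by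
  intro t
  have h1 := hP.inv (h (g t))
  rw [g.symm_apply_apply] at h1
  exact h1

lemma HexG.lin_refl (hP : HexG P) : LinIn P (AddEquiv.refl (V6 F)) := hP.tr

/-- the first basis vector -/
def e0 : V6 F := (![1, 0, 0], 0)

/-- the second vector of the standard hexagon line -/
def f1 : V6 F := (0, ![0, 1, 0])

omit [CharP F 2] in
lemma Bf_e0 (x : V6 F) : Bf x e0 = x.2 0 := by simp [Bf, dot, e0]

omit [CharP F 2] in
lemma e0_ne : (e0 : V6 F) ≠ 0 := by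
  intro h
  have := congrArg (fun z : V6 F => z.1 0) h
  simp [e0] at this

/-- the level sets of the first functional -/
lemma level0 (hsq : ∀ z : F, ∃ k, k ^ 2 = z) (hP : HexG P) {x y : V6 F} (h : x.2 0 = y.2 0)
    (hx : x.2 0 ≠ 0) : ∃ L, LinIn P L ∧ (∀ z, (L z).2 0 = z.2 0) ∧ L x = y := by
  set k : F := (y.1 1 + x.1 1) / x.2 0 with hk
  have hk' : k * x.2 0 = y.1 1 + x.1 1 := by rw [hk, div_mul_cancel₀ _ hx]
  obtain ⟨L, hL, h1, h2⟩ := hex_fibre hsq hP.toHexGrp (y := tE ![0, 0, k] x) (y' := y) (by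
      rw [tE_2]
      simp only [Matrix.cons_val_zero]
      exact fun h3 => hx h3.1) (by
      rw [tE_2]
      simp only [Matrix.cons_val_zero]
      exact h.symm) (by
      rw [tE_2]
      simp only [Matrix.cons_val_one, Matrix.cons_val_zero]
      linear_combination (-1 : F) * hk' - x.1 1 * two0 (F := F))
  refine ⟨(tE ![0, 0, k]).trans L, hP.lin_trans (hP.tL _) hL, fun z => ?_, h2⟩
  change (L (tE ![0, 0, k] z)).2 0 = z.2 0
  rw [(h1 _).1, tE_2]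
  simp only [Matrix.cons_val_zero]

lemma sE_1 (k : F) (x : V6 F) : sE ![0, k, 0] x =
    (![x.1 0, x.1 1 + k ^ 2 * x.2 1, x.1 2], ![x.2 0 + k * x.1 2, x.2 1, x.2 2 + k * x.1 0]) := by
  change sU ![0, k, 0] x = _
  apply ext6 <;> (simp only [sU, tU, eU, dot, crs, Pi.add_apply, Pi.smul_apply, smul_eq_mul,
    Matrix.cons_val_zero, Matrix.cons_val_one, Matrix.cons_val]) <;> ring

lemma exists_ne0 (hP : HexG P) {x : V6 F} (hx : x ≠ 0) : ∃ L, LinIn P L ∧ (L x).2 0 ≠ 0 := by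
  by_cases h0 : x.2 0 = 0
  swap
  · exact ⟨_, hP.lin_refl, h0⟩
  by_cases h1 : x.1 1 = 0
  swap
  · refine ⟨_, hP.sL ![0, 0, 1], ?_⟩
    rw [sE_2]
    simp only [Matrix.cons_val_zero, h0, one_mul, zero_add]
    exact h1
  by_cases h2 : x.1 2 = 0
  swap
  · refine ⟨_, hP.sL ![0, 1, 0], ?_⟩
    rw [sE_1]
    simp only [Matrix.cons_val_zero, h0, one_mul, zero_add]
    exact h2
  by_cases h4 : x.2 1 = 0
  swap
  · have hd : dot ![0, 1, 0] ![(1 : F), 0, 0] = 0 := by simp [dot]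
    refine ⟨_, hP.eL ![0, 1, 0] ![1, 0, 0] hd, ?_⟩
    have e : eE ![0, 1, 0] ![(1 : F), 0, 0] hd x =
        (![x.1 0, x.1 1 + x.1 0, x.1 2], ![x.2 0 + x.2 1, x.2 1, x.2 2]) := by
      change eU ![0, 1, 0] ![1, 0, 0] x = _
      apply ext6 <;> (simp only [sU, tU, eU, dot, crs, Pi.add_apply, Pi.smul_apply, smul_eq_mul,
    Matrix.cons_val_zero, Matrix.cons_val_one, Matrix.cons_val]) <;> ring
    rw [e]
    simp only [Matrix.cons_val_zero, h0, zero_add]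
    exact h4
  by_cases h3 : x.1 0 = 0
  swap
  · -- first make `x.1 1` nonzero
    have hd : dot ![0, 1, 0] ![(1 : F), 0, 0] = 0 := by simp [dot]
    refine ⟨(eE ![0, 1, 0] ![1, 0, 0] hd).trans (sE ![0, 0, 1]),
      hP.lin_trans (hP.eL _ _ _) (hP.sL _), ?_⟩
    have e : eE ![0, 1, 0] ![(1 : F), 0, 0] hd x =
        (![x.1 0, x.1 1 + x.1 0, x.1 2], ![x.2 0 + x.2 1, x.2 1, x.2 2]) := by
      change eU ![0, 1, 0] ![1, 0, 0] x = _
      apply ext6 <;> (simp only [sU, tU, eU, dot, crs, Pi.add_apply, Pi.smul_apply, smul_eq_mul,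
    Matrix.cons_val_zero, Matrix.cons_val_one, Matrix.cons_val]) <;> ring
    rw [AddEquiv.trans_apply, e, sE_2]
    simp only [Matrix.cons_val_zero, Matrix.cons_val_one, h0, h1, h4, one_mul, zero_add]
    exact h3
  by_cases h5 : x.2 2 = 0
  swap
  · have hd : dot ![0, 0, 1] ![(1 : F), 0, 0] = 0 := by simp [dot]
    refine ⟨_, hP.eL ![0, 0, 1] ![1, 0, 0] hd, ?_⟩
    have e : eE ![0, 0, 1] ![(1 : F), 0, 0] hd x =
        (![x.1 0, x.1 1, x.1 2 + x.1 0], ![x.2 0 + x.2 2, x.2 1, x.2 2]) := by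
      change eU ![0, 0, 1] ![1, 0, 0] x = _
      apply ext6 <;> (simp only [sU, tU, eU, dot, crs, Pi.add_apply, Pi.smul_apply, smul_eq_mul,
    Matrix.cons_val_zero, Matrix.cons_val_one, Matrix.cons_val]) <;> ring
    rw [e]
    simp only [Matrix.cons_val_zero, h0, zero_add]
    exact h5
  · exfalso
    apply hx
    exact ext6 h3 h1 h2 h0 h4 h5

/-- all nonzero vectors are equivalent to the first basis vector -/
lemma to_e0 (hsq : ∀ z : F, ∃ k, k ^ 2 = z) (hP : HexG P) {x : V6 F} (hx : x ≠ 0) :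
    ∃ L, LinIn P L ∧ L x = e0 := by
  obtain ⟨L, hL, h1⟩ := exists_ne0 hP hx
  set s := (L x).2 0 with hs
  obtain ⟨L', hL', -, h2⟩ := level0 hsq hP (x := L x) (y := (0, ![s, 0, 0])) (by simp [hs]) h1
  obtain ⟨k, hk⟩ := hsq s⁻¹
  obtain ⟨k', hk'⟩ := hsq s
  refine ⟨((L.trans L').trans (sE ![k, 0, 0])).trans (tE ![k', 0, 0]),
    hP.lin_trans (hP.lin_trans (hP.lin_trans hL hL') (hP.sL _)) (hP.tL _), ?_⟩
  have e : ∀ z : V6 F, tE ![k', 0, 0] z = (![z.1 0, z.1 1 + k' * z.2 2, z.1 2 + k' * z.2 1],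
      ![z.2 0 + k' ^ 2 * z.1 0, z.2 1, z.2 2]) := by
    intro z
    change tU ![k', 0, 0] z = _
    apply ext6 <;> (simp only [sU, tU, eU, dot, crs, Pi.add_apply, Pi.smul_apply, smul_eq_mul,
    Matrix.cons_val_zero, Matrix.cons_val_one, Matrix.cons_val]) <;> ring
  rw [AddEquiv.trans_apply, AddEquiv.trans_apply, AddEquiv.trans_apply, h2, sE_0, e, hk, hk']
  have h3 : s⁻¹ * s = 1 := inv_mul_cancel₀ h1
  apply ext6
  · simp [e0, h3]
  · simp [e0]
  · simp [e0]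
  · simp only [Matrix.cons_val_zero, e0, Pi.zero_apply]
    linear_combination s * h3 + s * two0 (F := F)
  · simp [e0]
  · simp [e0]

/-- transitivity on nonzero vectors -/
lemma vec (hsq : ∀ z : F, ∃ k, k ^ 2 = z) (hP : HexG P) {x y : V6 F} (hx : x ≠ 0) (hy : y ≠ 0) :
    ∃ L, LinIn P L ∧ L x = y := by
  obtain ⟨L, hL, h1⟩ := to_e0 hsq hP hx
  obtain ⟨L', hL', h2⟩ := to_e0 hsq hP hy
  refine ⟨L.trans L'.symm, hP.lin_trans hL (hP.lin_symm hL'), ?_⟩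
  rw [AddEquiv.trans_apply, h1, ← h2, L'.symm_apply_apply]

/-- linear members preserve the form up to a scalar -/
lemma lin_sim (hP : HexG P) {L : V6 F ≃+ V6 F} (hL : LinIn P L) :
    ∃ c : F, c ≠ 0 ∧ ∀ x y, Bf (L x) (L y) = c * Bf x y := by
  obtain ⟨c, hc, h⟩ := hP.sim (hL 0)
  exact ⟨c, hc, h⟩

/-- the level sets of all functionals -/
lemma level (hsq : ∀ z : F, ∃ k, k ^ 2 = z) (hP : HexG P) {x y u : V6 F} (h : Bf x u = Bf y u)
    (hx : Bf x u ≠ 0) : ∃ L, LinIn P L ∧ (∀ z, Bf (L z) u = Bf z u) ∧ L x = y := by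
  have hu : u ≠ 0 := by
    rintro rfl
    apply hx
    simp [Bf, dot]
  obtain ⟨M, hM, hMu⟩ := to_e0 hsq hP hu
  obtain ⟨c, hc, hcM⟩ := lin_sim hP hM
  have key : ∀ z, (M z).2 0 = c * Bf z u := by
    intro z
    rw [← Bf_e0, ← hMu, hcM]
  obtain ⟨L, hL, h1, h2⟩ := level0 hsq hP (x := M x) (y := M y) (by rw [key, key, h]) (by
    rw [key]
    exact mul_ne_zero hc hx)
  refine ⟨(M.trans L).trans M.symm, hP.lin_trans (hP.lin_trans hM hL) (hP.lin_symm hM),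
    fun z => ?_, ?_⟩
  · have h3 := key (M.symm (L (M z)))
    rw [M.apply_symm_apply, h1, key] at h3
    exact (mul_left_cancel₀ hc h3).symm
  · rw [AddEquiv.trans_apply, AddEquiv.trans_apply, h2, M.symm_apply_apply]

/-- the members without a scalar factor -/
def isoP (P : (V6 F ≃+ V6 F) → V6 F → (F ≃+* F) → Prop) (g : V6 F ≃+ V6 F) (t : V6 F)
    (σ : F ≃+* F) : Prop := P g t σ ∧ ∀ x y, Bf (g x) (g y) = σ (Bf x y)

lemma HexG.iso (hP : HexG P) : HexG (isoP P) where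
  semi := fun h => hP.semi h.1
  mul := by
    rintro g t σ g' t' σ' ⟨h1, h2⟩ ⟨h3, h4⟩
    exact ⟨hP.mul h1 h3, fun x y => by
      change Bf (g (g' x)) (g (g' y)) = σ (σ' (Bf x y))
      rw [h2, h4]⟩
  tr := fun t => ⟨hP.tr t, fun _ _ => rfl⟩
  s := fun u => ⟨hP.s u, Bf_sU u⟩
  t := fun u => ⟨hP.t u, Bf_tU u⟩
  e := fun a b h => ⟨hP.e a b h, Bf_eU h⟩
  inv := by
    rintro g t σ ⟨h1, h2⟩
    refine ⟨hP.inv h1, fun x y => ?_⟩
    apply σ.injective
    rw [← h2, g.apply_symm_apply, g.apply_symm_apply, σ.apply_symm_apply]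
  sim := fun h => ⟨1, one_ne_zero, fun x y => by rw [h.2, one_mul]⟩
  col := fun h => hP.col h.1

/-- adjusting a semilinear member -/
lemma semi_adj (hsq : ∀ z : F, ∃ k, k ^ 2 = z) (hP : HexG P) {g : V6 F ≃+ V6 F} {t : V6 F}
    {σ : F ≃+* F} (hg : P g t σ) {u : V6 F} (hu : u ≠ 0) {κ : F} (hκ : κ ≠ 0) :
    ∃ L, LinIn P L ∧ ∀ x, Bf (L (g x)) u = κ * σ (Bf x u) := by
  obtain ⟨c, hc, hcg⟩ := hP.sim hg
  have hgu : g u ≠ 0 := by
    intro h
    exact hu ((map_eq_zero_iff g g.injective).1 h)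
  obtain ⟨L, hL, h1⟩ := vec hsq hP.iso hgu (y := (κ⁻¹ * c) • u)
    (smul_ne_zero (mul_ne_zero (inv_ne_zero hκ) hc) hu)
  refine ⟨L, fun t => (hL t).1, fun x => ?_⟩
  have h2 := (hL 0).2 (g x) (g u)
  rw [h1, hcg, Bf_smul_right] at h2
  change κ⁻¹ * c * Bf (L (g x)) u = c * σ (Bf x u) at h2
  have h3 : c * Bf (L (g x)) u = c * (κ * σ (Bf x u)) := by
    have h4 := congrArg (fun z => κ * z) h2
    simp only [← mul_assoc, mul_inv_cancel₀ hκ, one_mul] at h4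
    rw [h4]
    ring
  exact mul_left_cancel₀ hc h3

/-! ### hexagon lines -/

lemma col_e0 {y : V6 F} (h : Col e0 y) : y.1 1 = 0 ∧ y.1 2 = 0 ∧ y.2 0 = 0 := by
  obtain ⟨h0, -, h2, -⟩ := h
  have hQ : Qf (e0 : V6 F) = 0 := by simp [Qf, dot, e0]
  have e1 := h2 1
  have e2 := h2 2
  rw [hQ, crs_one'] at e1
  rw [hQ, crs_two'] at e2
  refine ⟨?_, ?_, ?_⟩
  · simp [e0] at e2
    exact (pow_eq_zero_iff two_ne_zero).1 e2.symm
  · simp [e0] at e1
    exact (pow_eq_zero_iff two_ne_zero).1 e1.symm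
  · simpa [Bf, dot, e0] using h0

/-- the standard form of a hexagon line -/
lemma to_line (hsq : ∀ z : F, ∃ k, k ^ 2 = z) (hP : HexG P) {u v : V6 F} (hu : u ≠ 0)
    (hv : ∀ c : F, v ≠ c • u) (h : Col u v) :
    ∃ (L : V6 F ≃+ V6 F) (k m : F), LinIn P L ∧ L u = e0 ∧ m ≠ 0 ∧ L v = k • e0 + m • f1 := by
  obtain ⟨L, hL, h1⟩ := to_e0 hsq hP hu
  have hsemi : ∀ (c : F) x, L (c • x) = c • L x := fun c x => hP.semi (hL 0) c x
  have h2 : Col e0 (L v) := by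
    rw [← h1]
    exact (hP.col (hL 0) u v).2 h
  obtain ⟨h3, h4, h5⟩ := col_e0 h2
  have h6 : ¬ ((L v).2 1 = 0 ∧ (L v).2 2 = 0) := by
    rintro ⟨h6, h7⟩
    apply hv ((L v).1 0)
    apply L.injective
    rw [hsemi, h1]
    apply ext6
    · simp [e0]
    · simp [e0, h3]
    · simp [e0, h4]
    · simp [e0, h5]
    · simp [e0, h6]
    · simp [e0, h7]
  -- maps fixing `e0`
  have hd1 : ∀ l : F, dot ![0, l, 0] ![(0 : F), 0, 1] = 0 := fun l => by simp [dot]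
  have ed1 : ∀ (l : F) (x : V6 F), eE ![0, l, 0] ![(0 : F), 0, 1] (hd1 l) x =
      (![x.1 0, x.1 1 + l * x.1 2, x.1 2], ![x.2 0, x.2 1, x.2 2 + l * x.2 1]) := by
    intro l x
    change eU ![0, l, 0] ![0, 0, 1] x = _
    apply ext6 <;> (simp only [sU, tU, eU, dot, crs, Pi.add_apply, Pi.smul_apply, smul_eq_mul,
    Matrix.cons_val_zero, Matrix.cons_val_one, Matrix.cons_val]) <;> ring
  have hd2 : dot ![0, 0, 1] ![(0 : F), 1, 0] = 0 := by simp [dot]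
  have ed2 : ∀ (x : V6 F), eE ![0, 0, 1] ![(0 : F), 1, 0] hd2 x =
      (![x.1 0, x.1 1, x.1 2 + x.1 1], ![x.2 0, x.2 1 + x.2 2, x.2 2]) := by
    intro x
    change eU ![0, 0, 1] ![0, 1, 0] x = _
    apply ext6 <;> (simp only [sU, tU, eU, dot, crs, Pi.add_apply, Pi.smul_apply, smul_eq_mul,
    Matrix.cons_val_zero, Matrix.cons_val_one, Matrix.cons_val]) <;> ring
  -- make the coordinate `x.2 1` nonzero
  obtain ⟨M, hM, hM0, hM1, hM2⟩ : ∃ M, LinIn P M ∧ M e0 = e0 ∧ (M (L v)).2 1 ≠ 0 ∧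
      (M (L v)).1 1 = 0 ∧ (M (L v)).1 2 = 0 ∧ (M (L v)).2 0 = 0 := by
    by_cases h7 : (L v).2 1 = 0
    · refine ⟨_, hP.eL ![0, 0, 1] ![0, 1, 0] hd2, ?_, ?_, ?_, ?_, ?_⟩
      · rw [ed2]
        apply ext6 <;> simp [e0]
      · rw [ed2]
        simp only [Matrix.cons_val_one, Matrix.cons_val_zero, h7, zero_add]
        exact fun h8 => h6 ⟨h7, h8⟩
      · rw [ed2]
        simp [h3]
      · rw [ed2]
        simp [h3, h4]
      · rw [ed2]
        simp [h5]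
    · exact ⟨_, hP.lin_refl, rfl, h7, h3, h4, h5⟩
  obtain ⟨hM2, hM3, hM4⟩ := hM2
  set z := M (L v) with hz
  set l : F := z.2 2 / z.2 1 with hl
  have hl' : l * z.2 1 = z.2 2 := div_mul_cancel₀ _ hM1
  refine ⟨(L.trans M).trans (eE ![0, l, 0] ![0, 0, 1] (hd1 l)), z.1 0, z.2 1,
    hP.lin_trans (hP.lin_trans hL hM) (hP.eL _ _ _), ?_, hM1, ?_⟩
  · rw [AddEquiv.trans_apply, AddEquiv.trans_apply, h1, hM0, ed1]
    apply ext6 <;> simp [e0]
  · rw [AddEquiv.trans_apply, AddEquiv.trans_apply, ← hz, ed1, hl']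
    apply ext6
    · simp [e0, f1]
    · simp [e0, f1, hM2, hM3]
    · simp [e0, f1, hM3]
    · simp [e0, f1, hM4]
    · simp [e0, f1]
    · simp [e0, f1, CharTwo.add_self_eq_zero]

/-- The space orthogonal to a hexagon line is equivalent to the standard flat. -/
lemma to_flat (hsq : ∀ z : F, ∃ k, k ^ 2 = z) (hP : HexG P) {u v : V6 F} (hu : u ≠ 0)
    (hv : ∀ c : F, v ≠ c • u) (h : Col u v) :
    ∃ L, LinIn P L ∧ ∀ z, (Bf u z = 0 ∧ Bf v z = 0) ↔ ((L z).2 0 = 0 ∧ (L z).1 1 = 0) := by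
  obtain ⟨L, k, m, hL, h1, hm, h2⟩ := to_line hsq hP hu hv h
  obtain ⟨c, hc, h3⟩ := lin_sim hP hL
  refine ⟨L, hL, fun z => ?_⟩
  have h4 : c * Bf u z = (L z).2 0 := by
    rw [← h3, h1, Bf_comm, Bf_e0]
  have h5 : c * Bf v z = k * (L z).2 0 + m * (L z).1 1 := by
    rw [← h3, h2, Bf_add_left, Bf_smul_left, Bf_smul_left, Bf_comm, Bf_e0]
    congr 2
    simp [Bf, dot, f1]
  constructor
  · rintro ⟨h6, h7⟩
    rw [h6, mul_zero] at h4
    rw [h7, mul_zero, ← h4, mul_zero, zero_add] at h5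
    exact ⟨h4.symm, (mul_eq_zero.1 h5.symm).resolve_left hm⟩
  · rintro ⟨h6, h7⟩
    rw [h6] at h4
    rw [h6, h7, mul_zero, mul_zero, add_zero] at h5
    exact ⟨(mul_eq_zero.1 h4).resolve_left hc, (mul_eq_zero.1 h5).resolve_left hc⟩

/-! ### the complement of the standard flat -/

lemma exists_transv {a b c d : F} (h : a * d + b * c ≠ 0) :
    ∃ m : F, a + m * (a * (b + d) + b * (a + c)) * (a + c) = c ∧
      b + m * (a * (b + d) + b * (a + c)) * (b + d) = d := by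
  refine ⟨(a * d + b * c)⁻¹, ?_, ?_⟩
  · have e : a * (b + d) + b * (a + c) = (a * d + b * c) + a * b * 2 := by ring
    rw [e, two0, mul_zero, add_zero, inv_mul_cancel₀ h, one_mul]
    linear_combination a * two0 (F := F)
  · have e : a * (b + d) + b * (a + c) = (a * d + b * c) + a * b * 2 := by ring
    rw [e, two0, mul_zero, add_zero, inv_mul_cancel₀ h, one_mul]
    linear_combination b * two0 (F := F)

lemma exists_mid2 {a b c d : F} (h1 : ¬ (a = 0 ∧ b = 0)) (h2 : ¬ (c = 0 ∧ d = 0)) :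
    ∃ p q : F, a * q + b * p ≠ 0 ∧ p * d + q * c ≠ 0 := by
  by_cases ha : a = 0
  · have hb : b ≠ 0 := fun h => h1 ⟨ha, h⟩
    by_cases hd : d = 0
    · have hc : c ≠ 0 := fun h => h2 ⟨h, hd⟩
      exact ⟨1, 1, by rw [ha]; simpa using hb, by rw [hd]; simpa using hc⟩
    · by_cases hc : c = 0
      · exact ⟨1, 0, by rw [ha]; simpa using hb, by rw [hc]; simpa using hd⟩
      · exact ⟨1, 0, by rw [ha]; simpa using hb, by simpa using hd⟩
  · by_cases hc : c = 0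
    · have hd : d ≠ 0 := fun h => h2 ⟨hc, h⟩
      by_cases hb : b = 0
      · exact ⟨1, 1, by rw [hb]; simpa using ha, by rw [hc]; simpa using hd⟩
      · exact ⟨1, 0, by simpa using hb, by rw [hc]; simpa using hd⟩
    · exact ⟨0, 1, by simpa using ha, by simpa using hc⟩

/-- transitivity on the complement of the standard flat -/
lemma flat0 (hsq : ∀ z : F, ∃ k, k ^ 2 = z) (hP : HexG P) {x y : V6 F}
    (hx : ¬ (x.2 0 = 0 ∧ x.1 1 = 0)) (hy : ¬ (y.2 0 = 0 ∧ y.1 1 = 0)) :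
    ∃ L, LinIn P L ∧ (∀ z, ((L z).2 0 = 0 ∧ (L z).1 1 = 0) ↔ (z.2 0 = 0 ∧ z.1 1 = 0)) ∧
      L x = y := by
  have step : ∀ (x : V6 F) (c d : F), x.2 0 * d + x.1 1 * c ≠ 0 → ∃ L, LinIn P L ∧
      (∀ z, ((L z).2 0 = 0 ∧ (L z).1 1 = 0) ↔ (z.2 0 = 0 ∧ z.1 1 = 0)) ∧
      (L x).2 0 = c ∧ (L x).1 1 = d := by
    intro x c d h
    obtain ⟨m, h1, h2⟩ := exists_transv h
    obtain ⟨L, hL, h3⟩ := hex_lift hP.toHexGrp m (x.2 0 + c) (x.1 1 + d)
    refine ⟨L, hL, fun z => ?_, ?_, ?_⟩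
    · rw [(h3 z).1, (h3 z).2]
      set a := x.2 0 + c
      set b := x.1 1 + d
      constructor
      · rintro ⟨h4, h5⟩
        have h6 : z.2 0 * b + z.1 1 * a = 0 := by
          linear_combination b * h4 + a * h5 -
            (m * (z.2 0 * b + z.1 1 * a) * a * b) * two0 (F := F)
        rw [h6] at h4 h5
        simp only [mul_zero, zero_mul, add_zero] at h4 h5
        exact ⟨h4, h5⟩
      · rintro ⟨h4, h5⟩
        rw [h4, h5]
        simp
    · rw [(h3 x).1]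
      exact h1
    · rw [(h3 x).2]
      exact h2
  obtain ⟨p, q, h1, h2⟩ := exists_mid2 hx hy
  obtain ⟨L₁, hL₁, h3, h4, h5⟩ := step x p q h1
  obtain ⟨L₂, hL₂, h6, h7, h8⟩ := step (L₁ x) (y.2 0) (y.1 1) (by rw [h4, h5]; exact h2)
  obtain ⟨L₃, hL₃, h9, h10⟩ := hex_fibre hsq hP.toHexGrp (y := L₂ (L₁ x)) (y' := y)
    (by rw [h7, h8]; exact hy) h7.symm h8.symm
  refine ⟨(L₁.trans L₂).trans L₃, hP.lin_trans (hP.lin_trans hL₁ hL₂) hL₃, fun z => ?_, h10⟩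
  rw [AddEquiv.trans_apply, AddEquiv.trans_apply, (h9 _).1, (h9 _).2, h6, h3]

/-- transitivity on the complement of the space orthogonal to a hexagon line -/
lemma flat (hsq : ∀ z : F, ∃ k, k ^ 2 = z) (hP : HexG P) {u v x y : V6 F} (hu : u ≠ 0)
    (hv : ∀ c : F, v ≠ c • u) (h : Col u v)
    (hx : ¬ (Bf u x = 0 ∧ Bf v x = 0)) (hy : ¬ (Bf u y = 0 ∧ Bf v y = 0)) :
    ∃ L, LinIn P L ∧ (∀ z, (Bf u (L z) = 0 ∧ Bf v (L z) = 0) ↔ (Bf u z = 0 ∧ Bf v z = 0)) ∧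
      L x = y := by
  obtain ⟨M, hM, h1⟩ := to_flat hsq hP hu hv h
  obtain ⟨L, hL, h2, h3⟩ := flat0 hsq hP (x := M x) (y := M y) (by rwa [← h1]) (by rwa [← h1])
  refine ⟨(M.trans L).trans M.symm, hP.lin_trans (hP.lin_trans hM hL) (hP.lin_symm hM),
    fun z => ?_, ?_⟩
  · rw [h1, h1, AddEquiv.trans_apply, AddEquiv.trans_apply, M.apply_symm_apply, h2]
  · rw [AddEquiv.trans_apply, AddEquiv.trans_apply, h3, M.symm_apply_apply]

/-- transitivity on the complement of a hyperplane -/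
lemma hyp (hsq : ∀ z : F, ∃ k, k ^ 2 = z) (hP : HexG P) {u x y : V6 F}
    (hx : Bf x u ≠ 0) (hy : Bf y u ≠ 0) :
    ∃ L, LinIn P L ∧ (∀ z, Bf (L z) u = 0 ↔ Bf z u = 0) ∧ L x = y := by
  have hu : u ≠ 0 := by
    rintro rfl
    apply hx
    simp [Bf, dot]
  obtain ⟨L, hL, h1⟩ := semi_adj hsq hP (hP.tr 0) hu (κ := Bf y u * (Bf x u)⁻¹)
    (mul_ne_zero hy (inv_ne_zero hx))
  have h1' : ∀ z, Bf (L z) u = Bf y u * (Bf x u)⁻¹ * Bf z u := h1
  have h2 : Bf (L x) u = Bf y u := by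
    rw [h1', mul_assoc, inv_mul_cancel₀ hx, mul_one]
  obtain ⟨M, hM, h3, h4⟩ := level hsq hP h2 (by rw [h2]; exact hy)
  refine ⟨L.trans M, hP.lin_trans hL hM, fun z => ?_, h4⟩
  rw [AddEquiv.trans_apply, h3, h1']
  constructor
  · intro h5
    exact (mul_eq_zero.1 h5).resolve_left (mul_ne_zero hy (inv_ne_zero hx))
  · intro h5
    rw [h5, mul_zero]

end Pool.Agent.SIT.Hex
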