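import Pool.Agent.SIT.FinDefs
import Pool.Agent.SIT.HexQPos

/-!
# The elementary maps are commutators

If `|F| ≥ 4`, a group that contains all commutators of `G_2(q)` contains the elementary maps.
-/

namespace Pool.Agent.SIT.Gen

open Hex

variable {F : Type*} [Field F] [CharP F 2]

/-! ### Members of `G_2(q)` -/

/-- `sU u` as a linear equivalence -/
def sLin (u : Fin 3 → F) : V6 F ≃ₗ[F] V6 F :=
  { toFun := sU u, invFun := sU u, left_inv := sU_sU u, right_inv := sU_sU u
    map_add' := sU_add u, map_smul' := fun c x => sU_smul u c x }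

/-- `eU a b` as a linear equivalence -/
def eLin (a b : Fin 3 → F) (h : dot a b = 0) : V6 F ≃ₗ[F] V6 F :=
  { toFun := eU a b, invFun := eU a b, left_inv := eU_eU a b h, right_inv := eU_eU a b h
    map_add' := eU_add a b, map_smul' := fun c x => eU_smul a b c x }

/-- the exchange of the halves as a linear equivalence -/
def swLin : V6 F ≃ₗ[F] V6 F :=
  { toFun := sw, invFun := sw, left_inv := fun _ => rfl, right_inv := fun _ => rfl
    map_add' := fun _ _ => rfl, map_smul' := fun _ _ => rfl }

omit [CharP F 2] in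
lemma HexIso.trans {a b : V6 F ≃ₗ[F] V6 F} (ha : HexIso a) (hb : HexIso b) :
    HexIso (a.trans b) := by
  refine ⟨fun x y => ?_, fun x y => ?_⟩
  · rw [LinearEquiv.trans_apply, LinearEquiv.trans_apply, hb.1, ha.1]
  · rw [LinearEquiv.trans_apply, LinearEquiv.trans_apply, hb.2, ha.2]

lemma hexIso_s (u : Fin 3 → F) : HexIso (sLin u) := by
  refine ⟨fun x y => Bf_sU u x y, fun x y => ⟨fun h => ?_, fun h => Col_sU u h⟩⟩
  have := Col_sU u h
  change Col (sU u (sU u x)) (sU u (sU u y)) at this
  rwa [sU_sU, sU_sU] at this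

lemma hexIso_e (a b : Fin 3 → F) (hab : dot a b = 0) : HexIso (eLin a b hab) := by
  refine ⟨fun x y => Bf_eU hab x y, fun x y => ⟨fun h => ?_, fun h => Col_eU hab h⟩⟩
  have := Col_eU hab h
  change Col (eU a b (eU a b x)) (eU a b (eU a b y)) at this
  rwa [eU_eU a b hab, eU_eU a b hab] at this

omit [CharP F 2] in
lemma hexIso_sw : HexIso (swLin (F := F)) :=
  ⟨fun x y => Bf_sw x y, fun _ _ => ⟨fun h => h.sw, fun h => h.sw⟩⟩

/-! ### Identities -/

/-- the cross product twice -/
lemma crs_crs (a b c : Fin 3 → F) : crs a (crs b c) = dot a c • b + dot a b • c := by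
  funext i
  revert i
  apply forall_fin3 <;>
  simp only [crs, dot, Pi.add_apply, Pi.smul_apply, smul_eq_mul, Matrix.cons_val_zero,
    Matrix.cons_val_one, Matrix.cons_val]
  · linear_combination (a 0 * b 0 * c 0) * (n2 (F := F)) * (-1)
  · linear_combination (a 1 * b 1 * c 1) * (n2 (F := F)) * (-1)
  · linear_combination (a 2 * b 2 * c 2) * (n2 (F := F)) * (-1)

omit [CharP F 2] in
lemma dot_crs_comm (a b c : Fin 3 → F) : dot (crs a b) c = dot b (crs a c) := by
  simp only [crs, dot, Matrix.cons_val_zero, Matrix.cons_val_one, Matrix.cons_val]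
  ring

omit [CharP F 2] in
lemma exists_dot {a : Fin 3 → F} (ha : a ≠ 0) : ∃ z, dot a z = 1 := by
  by_contra hcon
  push Not at hcon
  apply ha
  funext i
  by_contra hi
  revert i
  have h0 := hcon ![(a 0)⁻¹, 0, 0]
  have h1 := hcon ![0, (a 1)⁻¹, 0]
  have h2 := hcon ![0, 0, (a 2)⁻¹]
  simp only [dot, Matrix.cons_val_zero, Matrix.cons_val_one, Matrix.cons_val, mul_zero,
    add_zero, zero_add] at h0 h1 h2
  apply forall_fin3
  · intro h; exact h0 (mul_inv_cancel₀ h)
  · intro h; exact h1 (mul_inv_cancel₀ h)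
  · intro h; exact h2 (mul_inv_cancel₀ h)

/-- commutator of two transvections -/
lemma comm_eU {a b c f : Fin 3 → F} (hab : dot a b = 0) (haf : dot a f = 0) (hcb : dot c b = 0)
    (hfc : dot f c = 1) (x : V6 F) : eU a f (eU c b (eU a f (eU c b x))) = eU a b x := by
  have hba : dot b a = 0 := by rw [dot_comm]; exact hab
  have hfa : dot f a = 0 := by rw [dot_comm]; exact haf
  have hbc : dot b c = 0 := by rw [dot_comm]; exact hcb
  have hcf : dot c f = 1 := by rw [dot_comm]; exact hfc
  have h2 : ∀ y : Fin 3 → F, y + y = 0 := fun y => by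
    funext i; exact CharTwo.add_self_eq_zero (y i)
  have h3 : ∀ t : F, t + t = 0 := fun t => CharTwo.add_self_eq_zero t
  apply Prod.ext
  · simp only [eU, dot_add, dot_smul, hba, hfa, hbc, hfc, mul_zero, mul_one, add_zero]
    generalize dot b x.1 = p
    generalize dot f x.1 = q
    have e : x.1 + p • c + (q + p) • a + p • c + (q + p + p) • a =
        x.1 + (p • c + p • c) + ((q + p) • a + (q + (p + p)) • a) := by
      rw [add_assoc q p p]; abel
    rw [e, h2, h3, add_zero, add_zero, ← add_smul]
    have e2 : q + p + q = p + (q + q) := by ring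
    rw [e2, h3, add_zero]
  · simp only [eU, dot_add, dot_smul, hab, haf, hcb, hcf, mul_zero, mul_one, add_zero]
    generalize dot c x.2 = p
    generalize dot a x.2 = q
    have e : x.2 + p • b + q • f + (p + q) • b + q • f =
        x.2 + (q • f + q • f) + (p • b + (p + q) • b) := by abel
    rw [e, h2, add_zero, ← add_smul]
    have e2 : p + (p + q) = q + (p + p) := by ring
    rw [e2, h3, add_zero]

omit [CharP F 2] in
lemma crs_comm (a b : Fin 3 → F) : crs a b = crs b a := by
  funext i
  revert i
  apply forall_fin3 <;>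
  simp only [crs, Matrix.cons_val_zero, Matrix.cons_val_one, Matrix.cons_val] <;> ring

/-- expansion of a vector in three vectors -/
lemma crs_id (a b u v : Fin 3 → F) (hab : dot a b = 0) (i : Fin 3) :
    dot a (crs u v) * b i = dot b v * crs u a i + dot b u * crs a v i := by
  simp only [dot] at hab
  revert i
  apply forall_fin3 <;>
  simp only [crs, dot, Matrix.cons_val_zero, Matrix.cons_val_one, Matrix.cons_val]
  · linear_combination (norm := (ring_nf; (try simp only [n2, n3, n4, mul_zero, mul_one, zero_mul, one_mul,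
      zero_add, add_zero, neg_zero, sub_zero]); (try ring))) (u 1 * v 2 + u 2 * v 1) * hab
  · linear_combination (norm := (ring_nf; (try simp only [n2, n3, n4, mul_zero, mul_one, zero_mul, one_mul,
      zero_add, add_zero, neg_zero, sub_zero]); (try ring))) (u 2 * v 0 + u 0 * v 2) * hab
  · linear_combination (norm := (ring_nf; (try simp only [n2, n3, n4, mul_zero, mul_one, zero_mul, one_mul,
      zero_add, add_zero, neg_zero, sub_zero]); (try ring))) (u 0 * v 1 + u 1 * v 0) * hab

/-- conjugation of `sU` by a transvection -/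
lemma conj_sU {a b : Fin 3 → F} (hab : dot a b = 0) (u : Fin 3 → F) (x : V6 F) :
    eU a b (sU u (eU a b x)) = sU (u + dot b u • a) x := by
  have hba : dot b a = 0 := by rw [dot_comm]; exact hab
  have h3 : ∀ t : F, t + t = 0 := fun t => CharTwo.add_self_eq_zero t
  have h4 : dot a (crs u a) = 0 := by rw [crs_comm, dot_crs]
  apply Prod.ext
  · simp only [eU, sU, dot_add, add_dot, dot_smul, smul_dot, hba, mul_zero, add_zero]
    rw [dot_comm u b]
    generalize dot b x.1 = p
    generalize dot b u = s
    generalize dot u x.2 = k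
    generalize dot a x.2 = q
    funext i
    simp only [Pi.add_apply, Pi.smul_apply, smul_eq_mul]
    linear_combination (p * a i) * (n2 (F := F))
  · simp only [eU, sU, dot_add, dot_smul, hab, crs_add, crs_smul, h4, mul_zero, add_zero]
    rw [crs_comm (u + dot b u • a), crs_add, crs_smul, crs_comm x.1 u, crs_comm x.1 a]
    funext i
    have h5 := crs_id a b u x.1 hab i
    simp only [Pi.add_apply, Pi.smul_apply, smul_eq_mul]
    linear_combination h5 + (dot a x.2 * b i + dot b x.1 * crs u a i) * (n2 (F := F))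

/-- two of the maps `sU` on the same line -/
lemma sU_sU_smul (u : Fin 3 → F) (l : F) (x : V6 F) :
    sU u (sU (l • u) x) = sU ((1 + l) • u) x := by
  have h1 : dot u (crs (l • u) x.1) = 0 := by
    rw [crs_comm, crs_smul, dot_smul, crs_comm, dot_crs, mul_zero]
  have h2 : crs u u = 0 := crs_self u
  apply Prod.ext
  · simp only [sU, dot_add, smul_dot, h1, add_zero]
    funext i
    simp only [Pi.add_apply, Pi.smul_apply, smul_eq_mul]
    linear_combination (-l * dot u x.2 * u i) * (n2 (F := F))
  · simp only [sU, crs_add, crs_smul, h2, smul_zero, add_zero]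
    rw [crs_comm (l • u), crs_smul, crs_comm ((1 + l) • u), crs_smul, crs_comm x.1 u]
    funext i
    simp only [Pi.add_apply, Pi.smul_apply, smul_eq_mul]
    ring

/-- prescribed values on two independent vectors -/
lemma exists_dot2 {u y : Fin 3 → F} (h : crs u y ≠ 0) (s t : F) :
    ∃ b, dot b u = s ∧ dot b y = t := by
  obtain ⟨c, hc⟩ := exists_dot h
  have hc' : dot c (crs u y) = 1 := by rw [dot_comm]; exact hc
  refine ⟨s • crs y c + t • crs c u, ?_, ?_⟩
  · rw [add_dot, smul_dot, smul_dot]
    have e1 : dot (crs y c) u = 1 := by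
      rw [← hc]
      simp only [crs, dot, Matrix.cons_val_zero, Matrix.cons_val_one, Matrix.cons_val]
      ring
    have e2 : dot (crs c u) u = 0 := by rw [dot_comm, crs_comm, dot_crs]
    rw [e1, e2]
    ring
  · rw [add_dot, smul_dot, smul_dot]
    have e1 : dot (crs y c) y = 0 := by rw [dot_comm, dot_crs]
    have e2 : dot (crs c u) y = 1 := by
      rw [crs_comm c u, dot_crs_comm]
      exact hc'
    rw [e1, e2]
    ring

/-- a product of two transvections maps `u` to `l u` -/
lemma exists_scale {u : Fin 3 → F} (hu : u ≠ 0) {l : F} (hl : l ≠ 0) :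
    ∃ a b a' b' : Fin 3 → F, dot a b = 0 ∧ dot a' b' = 0 ∧
      (u + dot b u • a) + dot b' (u + dot b u • a) • a' = l • u := by
  -- a vector `y` with `crs u y ≠ 0`
  obtain ⟨y, hy⟩ : ∃ y, crs u y ≠ 0 := by
    by_contra hcon
    push Not at hcon
    apply hu
    funext i
    have h0 := congrFun (hcon ![1, 0, 0])
    have h1 := congrFun (hcon ![0, 1, 0])
    revert i
    apply forall_fin3
    · have := h1 2
      rw [crs_two'] at this
      simpa using this
    · have := h0 2
      rw [crs_two'] at this
      simpa using this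
    · have := h0 1
      rw [crs_one'] at this
      simpa using this
  have h2 : ∀ y : Fin 3 → F, y + y = 0 := fun y => by
    funext i; exact CharTwo.add_self_eq_zero (y i)
  obtain ⟨b, hb1, hb2⟩ := exists_dot2 hy 1 1
  obtain ⟨b', hb1', hb2'⟩ := exists_dot2 hy l⁻¹ 1
  have e1 : u + dot b u • (u + y) = y := by
    rw [hb1, one_smul, ← add_assoc, h2, zero_add]
  refine ⟨u + y, b, y + l • u, b', ?_, ?_, ?_⟩
  · rw [dot_comm, dot_add, hb1, hb2]
    exact CharTwo.add_self_eq_zero 1
  · rw [dot_comm, dot_add, dot_smul, hb1', hb2', mul_inv_cancel₀ hl]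
    exact CharTwo.add_self_eq_zero 1
  · rw [e1, hb2', one_smul, ← add_assoc, h2, zero_add]

/-! ### The group contains the elementary maps -/

section

variable {G : Subgroup (Equiv.Perm (V6 F))}

/-- the function `f` is given by a member of `G` -/
def InG (G : Subgroup (Equiv.Perm (V6 F))) (f : V6 F → V6 F) : Prop := ∃ g ∈ G, ∀ x, g x = f x

lemma inG_comm (hG : HexG' F G) {a b : V6 F ≃ₗ[F] V6 F} (ha : HexIso a) (hb : HexIso b) :
    InG G (fun x => a (b (a.symm (b.symm x)))) := by
  refine ⟨(b.symm.trans (a.symm.trans (b.trans a))).toEquiv, hG.comm a b ha hb _ fun x => rfl,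
    fun x => rfl⟩

lemma inG_e (hG : HexG' F G) {a b : Fin 3 → F} (hab : dot a b = 0) : InG G (eU a b) := by
  have hid : InG G (fun x : V6 F => x) := ⟨1, G.one_mem, fun x => rfl⟩
  by_cases ha : a = 0
  · subst ha
    convert hid using 1
    funext x
    apply ext6 <;> simp [eU, dot]
  by_cases hb : b = 0
  · subst hb
    convert hid using 1
    funext x
    apply ext6 <;> simp [eU, dot]
  -- `c = crs b z`, `f = crs a y`
  obtain ⟨z, hz⟩ := exists_dot ha
  obtain ⟨y, hy⟩ := exists_dot hb
  have h1 : crs a (crs b z) = b := by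
    rw [crs_crs, hz, hab, one_smul, zero_smul, add_zero]
  have hcb : dot (crs b z) b = 0 := by rw [dot_comm, dot_crs]
  have haf : dot a (crs a y) = 0 := dot_crs a y
  have hfc : dot (crs a y) (crs b z) = 1 := by
    rw [dot_crs_comm, h1, dot_comm]
    exact hy
  have h2 := inG_comm hG (hexIso_e a (crs a y) haf) (hexIso_e (crs b z) b hcb)
  convert h2 using 1
  funext x
  exact (comm_eU hab haf hcb hfc x).symm

lemma inG_s_aux {a b a' b' u : Fin 3 → F} {l : F} (hab : dot a b = 0) (hab' : dot a' b' = 0)
    (h : (u + dot b u • a) + dot b' (u + dot b u • a) • a' = l • u) (x : V6 F) :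
    eU a' b' (eU a b (sU u (eU a b (eU a' b' x)))) = sU (l • u) x := by
  rw [conj_sU hab, conj_sU hab', h]

lemma inG_s (hG : HexG' F G) {l : F} (hl : l ≠ 0) (hl1 : l ≠ 1) (u : Fin 3 → F) :
    InG G (sU u) := by
  by_cases hu : u = 0
  · subst hu
    refine ⟨1, G.one_mem, fun x => ?_⟩
    apply ext6 <;> simp [sU, dot, crs_zero', crs_one', crs_two']
  have h1l : 1 + l ≠ 0 := by
    intro h
    apply hl1
    have := CharTwo.add_self_eq_zero (1 : F)
    linear_combination h - this
  -- replace `u` by `u / (1 + l)`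
  have hu' : (1 + l)⁻¹ • u ≠ 0 := smul_ne_zero (inv_ne_zero h1l) hu
  obtain ⟨a, b, a', b', hab, hab', h⟩ := exists_scale hu' hl
  have h2 := inG_comm hG (hexIso_s ((1 + l)⁻¹ • u))
    ((hexIso_e a b hab).trans (hexIso_e a' b' hab'))
  convert h2 using 1
  funext x
  change sU u x = sU _ (eU a' b' (eU a b (sU _ (eU a b (eU a' b' x)))))
  rw [inG_s_aux hab hab' h, sU_sU_smul, smul_smul, mul_inv_cancel₀ h1l, one_smul]

lemma inG_t (hG : HexG' F G) {l : F} (hl : l ≠ 0) (hl1 : l ≠ 1) (u : Fin 3 → F) :
    InG G (tU u) := by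
  by_cases hu : u = 0
  · subst hu
    refine ⟨1, G.one_mem, fun x => ?_⟩
    apply ext6 <;> simp [tU, dot, crs_zero', crs_one', crs_two']
  have h1l : 1 + l ≠ 0 := by
    intro h
    apply hl1
    have := CharTwo.add_self_eq_zero (1 : F)
    linear_combination h - this
  have hu' : (1 + l)⁻¹ • u ≠ 0 := smul_ne_zero (inv_ne_zero h1l) hu
  obtain ⟨a, b, a', b', hab, hab', h⟩ := exists_scale hu' hl
  have h2 := inG_comm hG
    ((hexIso_sw.trans (hexIso_s ((1 + l)⁻¹ • u))).trans hexIso_sw)
    ((hexIso_sw.trans ((hexIso_e a b hab).trans (hexIso_e a' b' hab'))).trans hexIso_sw)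
  convert h2 using 1
  funext x
  change tU u x = sw (sU _ (eU a' b' (eU a b (sU _ (eU a b (eU a' b' (sw x)))))))
  rw [inG_s_aux hab hab' h, sU_sU_smul, smul_smul, mul_inv_cancel₀ h1l, one_smul]
  rfl

/-- The groups of the theorem contain the elementary maps, if `|F| ≥ 4`. -/
theorem hexG_of_prime (hG : HexG' F G) (hF : ∃ l : F, l ≠ 0 ∧ l ≠ 1) :
    HexG (PG (F := F) G) := by
  obtain ⟨l, hl, hl1⟩ := hF
  have h2 : ∀ x : V6 F, x + x = 0 := add_self6
  -- the structure of a member
  have key : ∀ {g : V6 F ≃+ V6 F} {t : V6 F} {σ : F ≃+* F}, PG G g t σ →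
      (∃ c : F, c ≠ 0 ∧ ∀ x y, Bf (g x) (g y) = c * σ (Bf x y)) ∧
        ∀ x y, Col (g x) (g y) ↔ Col x y := by
    rintro g t σ ⟨h1, h, hh, h3⟩
    obtain ⟨g', t', σ', c, h4, hc, h5, h6, h7⟩ := hG.semi h hh
    have ht : t = t' := by
      have e1 := h3 0
      have e2 := h7 0
      rw [map_zero g, zero_add] at e1
      rw [map_zero g', zero_add] at e2
      rw [← e1, e2]
    have hg : ∀ x, g x = g' x := by
      intro x
      have e1 := h3 x
      rw [h7, ht] at e1
      exact (add_right_cancel e1).symm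
    have hσ : ∀ a, σ a = σ' a := by
      intro a
      have hx : g e0 ≠ 0 := by
        intro h0
        apply e0_ne (F := F)
        rw [← g.symm_apply_apply e0, h0, map_zero]
      apply smul_left_injective F hx
      change σ a • g e0 = σ' a • g e0
      rw [← h1, hg, h4, hg]
    exact ⟨⟨c, hc, fun x y => by rw [hg, hg, h5, hσ]⟩, fun x y => by rw [hg, hg, h6]⟩
  refine { semi := fun h c x => h.1 c x
           mul := fun h h' => PG_mul h h'
           tr := fun t => ⟨fun c x => rfl, Equiv.addRight t, hG.trans t, fun x => rfl⟩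
           s := fun u => ?_
           t := fun u => ?_
           e := fun a b h => ?_
           inv := fun h => PG_inv h2 h
           sim := fun h => (key h).1
           col := fun h => (key h).2 }
  · obtain ⟨h, hh, h1⟩ := inG_s hG hl hl1 u
    exact ⟨fun c x => sU_smul u c x, h, hh, fun x => by rw [h1, add_zero]; rfl⟩
  · obtain ⟨h, hh, h1⟩ := inG_t hG hl hl1 u
    exact ⟨fun c x => tU_smul u c x, h, hh, fun x => by rw [h1, add_zero]; rfl⟩
  · obtain ⟨g, hg, h1⟩ := inG_e hG h
    exact ⟨fun c x => eU_smul a b c x, g, hg, fun x => by rw [h1, add_zero]; rfl⟩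

end

end Pool.Agent.SIT.Gen
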