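import Pool.Agent.SIT.HexIsoGen
import Pool.Agent.SIT.HexPrime
import Pool.Agent.SIT.SpPrime4

/-!
# The groups between `T.G_2(q)'` and `AΓG_2(q)`, `q ≥ 4` even: the final form
-/

namespace Pool.Agent.SIT.Hex

open Finset SpQ

variable {F : Type*} [Field F]

lemma isLine_iff {u v : V6 F} : IsLine u v ↔ LinearIndependent F ![u, v] ∧ Col u v := by
  constructor
  · rintro ⟨h1, h2, h3⟩
    exact ⟨(LinearIndependent.pair_iff' h1).2 fun c h4 => h2 c h4.symm, h3⟩
  · rintro ⟨h1, h2⟩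
    have h3 : u ≠ 0 := by
      have := h1.ne_zero 0
      simpa using this
    exact ⟨h3, fun c h4 => (LinearIndependent.pair_iff' h3).1 h1 c h4.symm, h2⟩

lemma finrank_V6 : Module.finrank F (V6 F) = 6 := by
  rw [Module.finrank_prod, Module.finrank_fin_fun]

variable [CharP F 2]

lemma finrank_hyp {u : V6 F} (hu : u ≠ 0) : Module.finrank F (LinearMap.ker (Bl F u)) = 5 := by
  have h1 : Bl F u ≠ 0 := by
    intro h
    apply hu
    apply (sympBl (F := F)).nd
    intro y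
    rw [h, LinearMap.zero_apply]
  have h2 := Module.Dual.finrank_ker_add_one_of_ne_zero (f := Bl F u) h1
  rw [finrank_V6] at h2
  omega

lemma exists_hyp {W : Submodule F (V6 F)} (hW : Module.finrank F W = 5) :
    ∃ u : V6 F, u ≠ 0 ∧ ∀ z, z ∈ W ↔ Bf u z = 0 := by
  obtain ⟨z₀, hz₀⟩ : ∃ z, z ∉ W := by
    by_contra hcon
    push Not at hcon
    have h1 : W = ⊤ := Submodule.eq_top_iff'.2 hcon
    rw [h1, finrank_top, finrank_V6] at hW
    omega
  obtain ⟨a, ha, haz⟩ := exists_perp W hz₀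
  have ha0 : a ≠ 0 := by
    rintro rfl
    apply haz
    simp [Bf, dot]
  refine ⟨a, ha0, ?_⟩
  have h1 : W ≤ LinearMap.ker (Bl F a) := by
    intro w hw
    rw [LinearMap.mem_ker]
    exact ha w hw
  have h2 : W = LinearMap.ker (Bl F a) :=
    Submodule.eq_of_le_of_finrank_eq h1 (by rw [hW, finrank_hyp ha0])
  intro z
  constructor
  · intro hz
    exact ha z hz
  · intro hz
    rw [h2, LinearMap.mem_ker]
    exact hz

end Pool.Agent.SIT.Hex

namespace Pool.Agent.SIT.Gen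

open Finset Hex

theorem hex_class_ge4 {F : Type*} [Field F] [Fintype F] [DecidableEq F] [CharP F 2]
    {G : Subgroup (Equiv.Perm (Hex.V6 F))} (hF : Fintype.card F ≠ 2) (hG : HexG' F G) :
    IsTwoTransitive G ∧ ∀ (k : ℕ) (C : Set (Finset (Hex.V6 F))), 3 ≤ k →
    2 * k ≤ Fintype.card (Hex.V6 F) →
    ((IsSITCode G k C ∧ C.Nonempty) ↔ ∃ γ : Finset (Hex.V6 F), γ.card = k ∧ C = Orb G γ ∧
      ((∃ W : Submodule F (Hex.V6 F),
          ((Module.finrank F W = 5 ∧ ∀ a : Hex.V6 F ≃ₗ[F] Hex.V6 F, HexIso a → a.toEquiv ∈ G) ∨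
            LinePerp (W : Set (Hex.V6 F))) ∧ Translate (W : Set (Hex.V6 F)) γ) ∨
        Exc F G γ ∨
        ∃ β, Quad F G γ β ∧ (LinePerp {r : Hex.V6 F | ∀ y, β r y = 0} ∨
          ∀ a b, Hex.Bf a b = 0 → β a b = 0))) := by
  have hF' : ∃ l : F, l ≠ 0 ∧ l ≠ 1 := exists_ne_zero_one hF
  have hP : HexG (PG (F := F) G) := hexG_of_prime hG hF'
  have hsq : ∀ c : F, ∃ d, d ^ 2 = c := by
    intro c
    obtain ⟨d, hd⟩ := FiniteField.isSquare_of_char_two (ringChar.eq F 2) c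
    exact ⟨d, by rw [hd, sq]⟩
  have hS : SemiG F G := by
    intro h hh
    obtain ⟨g, t, σ, c, h1, -, -, -, h4⟩ := hG.semi h hh
    exact ⟨g, t, σ, h1, h4⟩
  have hall : ∀ a : Hex.V6 F ≃ₗ[F] Hex.V6 F, HexIso a → a.toEquiv ∈ G := by
    intro a ha
    have h1 := hP.iso_mem hsq (b := a.toAddEquiv) ⟨fun c x => a.map_smul c x, ha.1, ha.2⟩
    have h2 := PG_toP (h1 0).1
    have e : toP a.toAddEquiv 0 = a.toEquiv := by
      apply Equiv.ext
      intro x
      exact add_zero (a x)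
    rwa [e] at h2
  obtain ⟨h2t, hmain⟩ := hex_all_of hF hS hP
  refine ⟨h2t, fun k C hk hk' => ?_⟩
  rw [hmain k C hk hk']
  apply exists_congr
  intro γ
  apply and_congr_right
  intro _
  apply and_congr_right
  intro _
  have hlp : ∀ W : Set (V6 F), LinePerp W ↔ ∃ u v : V6 F, IsLine u v ∧
      ∀ x, x ∈ W ↔ Bf u x = 0 ∧ Bf v x = 0 := by
    intro W
    constructor
    · rintro ⟨u, v, h1, h2, h3⟩
      exact ⟨u, v, isLine_iff.2 ⟨h1, h2⟩, h3⟩
    · rintro ⟨u, v, h1, h3⟩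
      obtain ⟨h4, h5⟩ := isLine_iff.1 h1
      exact ⟨u, v, h4, h5, h3⟩
  constructor
  · rintro (⟨u, hu, v, hγ⟩ | ⟨u, w, hl, v, hγ⟩ | h | ⟨β, hq, h⟩)
    · left
      refine ⟨LinearMap.ker (Bl F u), Or.inl ⟨finrank_hyp hu, hall⟩, v, fun x => ?_⟩
      rw [hγ]
      exact Iff.rfl
    · left
      refine ⟨LinearMap.ker (Bl F u) ⊓ LinearMap.ker (Bl F w), Or.inr ?_, v, fun x => ?_⟩
      · rw [hlp]
        exact ⟨u, w, hl, fun x => Iff.rfl⟩
      · rw [hγ]
        exact Iff.rfl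
    · exact Or.inr (Or.inl h)
    · right
      right
      refine ⟨β, hq, ?_⟩
      rcases h with ⟨u, v, hl, h⟩ | h
      · left
        rw [hlp]
        exact ⟨u, v, hl, h⟩
      · exact Or.inr h
  · rintro (⟨W, hW, v, hγ⟩ | h | ⟨β, hq, h⟩)
    · rcases hW with ⟨hW, -⟩ | hW
      · left
        obtain ⟨u, hu, h1⟩ := exists_hyp hW
        exact ⟨u, hu, v, fun x => (hγ x).trans (h1 _)⟩
      · right
        left
        rw [hlp] at hW
        obtain ⟨u, w, hl, h1⟩ := hW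
        exact ⟨u, w, hl, v, fun x => (hγ x).trans (h1 _)⟩
    · exact Or.inr (Or.inr (Or.inl h))
    · right
      right
      right
      refine ⟨β, hq, ?_⟩
      rcases h with h | h
      · left
        rw [hlp] at h
        exact h
      · exact Or.inr h

end Pool.Agent.SIT.Gen
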