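import Pool.Agent.SIT.SpStd

/-!
# The split Cayley hexagon `H(2)`: tables and certificates

Vectors of `F_2^6` are coded by the natural numbers below `64` (bit `i` = coordinate `i`).
-/

namespace Pool.Agent.SIT.G2

/-- the symplectic form on codes -/
def bN (x y : ℕ) : Bool :=
  (x.testBit 0 && y.testBit 1) ^^ (x.testBit 1 && y.testBit 0) ^^
  (x.testBit 2 && y.testBit 3) ^^ (x.testBit 3 && y.testBit 2) ^^
  (x.testBit 4 && y.testBit 5) ^^ (x.testBit 5 && y.testBit 4)

/-- the quadratic form on codes -/
def qN (x : ℕ) : Bool :=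
  (x.testBit 0 && x.testBit 1) ^^ (x.testBit 2 && x.testBit 3) ^^ (x.testBit 4 && x.testBit 5)

def pN (i j x y : ℕ) : Bool := (x.testBit i && y.testBit j) ^^ (x.testBit j && y.testBit i)

def rN (i x y : ℕ) : Bool := (qN x && y.testBit i) ^^ (x.testBit i && qN y)

/-- the collinearity relation of the hexagon on codes -/
def hN (x y : ℕ) : Bool :=
  !(bN x y) && (pN 2 4 x y == rN 1 x y) && (pN 1 3 x y == rN 4 x y) &&
  (pN 0 4 x y == rN 3 x y) && (pN 3 5 x y == rN 0 x y) &&
  (pN 0 2 x y == rN 5 x y) && (pN 1 5 x y == rN 2 x y)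

/-- the map `x ↦ x + B(u,x) v + B(v,x) u` on codes -/
def eN (u v x : ℕ) : ℕ :=
  x ^^^ (if bN u x = true then v else 0) ^^^ (if bN v x = true then u else 0)

/-- the map `x ↦ x + (B(u,x) + Q(u)) v + (B(v,x) + Q(v)) u` on codes -/
def dN (u v x : ℕ) : ℕ :=
  x ^^^ (if (bN u x ^^ qN u) = true then v else 0) ^^^
    (if (bN v x ^^ qN v) = true then u else 0)

/-- exchange of the coordinates `2 i` and `2 i + 1` -/
def sN (x : ℕ) : ℕ := ((x &&& 21) <<< 1) ||| ((x &&& 42) >>> 1)

def hexTab : ℕ :=
  0x900900000000900942002400001800812040010840200801900009000090000908400480100220010420100802408001428100000000428101024080804002010280100408204001284100000000284104200240100880010014820028000041800840042002100100142800820000410102804040800201824100000000824100128400480000210108402020400801400420028008100104801002084020011004082002804001480084000012002100300300300000033000030000300003090000909000000900220044008800110000482100004821000000990000009924000018420000810088004400220011000030030000300300000033000000330104208080200401200280084004100100184200240000810820028010044001009090000900000900000000248124810404080802020101000000000909090910020840048020010500500000500005208001048020040150000500005000054020204001080801000000005005500508080404020201010000000005050505842100000000842102800820100440010840100204802001800820024004100120404020010808010000000084218421030300000000030300000000030303034200001824000081005500000000005500008421000084210000005500000055900000900900000900000000005500550000030300000303ffffffffffffffff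

def invTab : ℕ :=
  0x49049249042049040158102052a1801ac024008228c3423004d04002d00b02b0120600282869901248008105a0815a483404c2c101023404300006050a09f0c089202010629108620588aa4100140588134c04324c200104af000036009c05002602081098192062008805415041aa88c4c401323102040400000536fac90000102920800261689248a5810a008405183c0342140c004124300f06a0000c05906921901421001406a4804a528504024040830808804338380b08b07007048040449909424400092428115000821150aa840022c0483322c00044d20000bbd2001199246011002406504482aa05448200030088483033884878bb00008744000082609028219600120a005a0584188148104034c14320c204a000f005039006c0404049499402920425858020101a101a824242820c3c00300d0d020240b040b00208268908648940825028505522002204134c011008318c0027008d28007d00808089892046264055050050282228220131310140804c8c82727d8d000000002092688001162092005a050a84488118c0304114c300422400f005a003c006901212141496009006580802524a404a40083838080434083870808070b040b040882209068844096050225088052250220344110c3088110c87002d0078002d002222242422442442288882228288828884444484488844840000000000000000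

def hexLines : List (ℕ × ℕ) :=
  [(1, 8), (1, 32), (1, 40), (2, 4), (2, 16), (2, 20), (3, 24), (3, 36), (3, 60), (4, 32), (4,
  34), (5, 10), (5, 32), (5, 42), (6, 48), (6, 50), (7, 26), (7, 35), (7, 57), (8, 16), (8,
  17), (9, 48), (9, 49), (10, 16), (10, 21), (11, 19), (11, 37), (11, 54), (12, 18), (12, 33),
  (12, 51), (13, 23), (13, 33), (13, 54), (14, 18), (14, 37), (14, 55), (15, 48), (15, 53),
  (17, 34), (17, 42), (19, 38), (19, 45), (20, 40), (20, 42), (21, 34), (21, 40), (22, 44),
  (22, 46), (23, 38), (23, 43), (25, 35), (25, 43), (27, 44), (27, 47), (28, 39), (28, 41),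
  (29, 41), (29, 46), (30, 35), (30, 47), (31, 39), (31, 45)]

def cert1 : List (List (ℕ × ℕ)) :=
  [[], [], [(7, 26), (30, 35)], [(5, 10), (7, 26)], [(5, 10)], [(2, 4)], [(3, 24), (10, 21)],
  [(3, 24), (12, 18)], [(6, 48), (7, 57)], [(2, 16), (3, 24)], [(3, 36), (27, 47)], [(2, 4),
  (14, 18)], [(13, 23)], [(12, 18)], [(2, 4), (11, 19)], [(2, 20), (7, 26)], [(17, 34)], [(2,
  16)], [(3, 36), (21, 34)], [(3, 36), (6, 48)], [(10, 21)], [(2, 20)], [(3, 24), (5, 10)],
  [(3, 24), (14, 18)], [(25, 35)], [(3, 24)], [(2, 4), (31, 39)], [(2, 4), (12, 18)], [(7,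
  26)], [(14, 18)], [(2, 4), (3, 24)], [(2, 4), (7, 26)], [(12, 18), (19, 45)], [(2, 4), (3,
  36)], [(3, 24), (13, 54)], [(2, 16), (6, 50)], [(11, 37)], [(3, 36)], [(2, 16), (14, 55)],
  [(2, 16), (6, 48)], [(6, 50), (7, 26)], [(2, 20), (3, 60)], [(3, 24), (12, 51)], [(2, 4),
  (22, 46)], [(19, 45)], [(22, 44)], [(2, 4), (23, 43)], [(2, 16), (7, 57)], [(23, 38)], [(6,
  48)], [(2, 16), (7, 35)], [(2, 20), (19, 38)], [(15, 53)], [(6, 50)], [(2, 16), (3, 36)],
  [(2, 16), (19, 38)], [(7, 57)], [(22, 46)], [(2, 4), (3, 60)], [(2, 4), (7, 57)], [(11, 54)],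
  [(3, 60)], [(2, 4), (13, 54)], [(2, 4), (22, 44)]]

def cert2 : List (List (ℕ × ℕ)) :=
  [[], [], [], [], [], [], [], [], [], [(4, 32), (12, 33)], [], [], [], [], [], [], [], [], [],
  [], [], [], [], [], [], [], [], [], [], [], [], [], [(20, 40)], [(28, 41)], [], [], [], [],
  [], [], [(4, 32)], [(12, 33)], [], [], [], [], [], [], [], [], [], [], [], [], [], [], [],
  [], [], [], [], [], [], []]

def certL : List (List (ℕ × ℕ)) :=
  [[], [], [], [(17, 34), (25, 35)], [(1, 8), (2, 4), (23, 43), (28, 39)], [(2, 4), (23, 43),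
  (28, 39)], [(1, 8), (2, 4), (19, 45), (29, 46)], [(1, 8), (4, 32), (12, 33)], [], [], [(1,
  8)], [(17, 34), (25, 43)], [(6, 48), (14, 55)], [(1, 8), (6, 48), (14, 55)], [(4, 32), (12,
  33)], [(2, 4), (19, 45), (29, 46)], [], [], [(1, 8), (2, 16), (3, 24)], [(1, 32), (9, 49)],
  [(1, 8), (2, 20), (7, 35), (12, 51)], [(2, 20), (7, 35), (12, 51)], [(1, 8), (2, 20), (13,
  54), (14, 37)], [(1, 8), (20, 40), (28, 41)], [], [], [(2, 16), (3, 24)], [(1, 32), (9, 48)],
  [(22, 46), (30, 47)], [(1, 8), (22, 46), (30, 47)], [(20, 40), (28, 41)], [(2, 20), (13, 54),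
  (14, 37)], [], [], [(1, 32)], [(1, 32), (2, 16), (3, 24)], [(22, 46), (23, 38)], [(1, 8),
  (22, 46), (23, 38)], [(3, 36), (13, 23), (15, 53)], [(1, 8), (4, 32), (13, 33)], [], [], [(1,
  40)], [(1, 32), (2, 16), (11, 19)], [(3, 36), (6, 50), (12, 18)], [(1, 8), (3, 36), (6, 50),
  (12, 18)], [(4, 32), (13, 33)], [(1, 8), (3, 36), (13, 23), (15, 53)], [], [], [(9, 48)],
  [(1, 40), (17, 34), (25, 35)], [(3, 60), (4, 34), (22, 44)], [(1, 8), (3, 60), (4, 34), (22,
  44)], [(20, 40), (29, 41)], [(1, 8), (3, 60), (5, 42), (7, 26)], [], [], [(9, 49)], [(1, 32),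
  (17, 34), (25, 35)], [(6, 48), (7, 57)], [(1, 8), (6, 48), (7, 57)], [(3, 60), (5, 42), (7,
  26)], [(1, 8), (20, 40), (29, 41)]]

def certA : List (List (ℕ × ℕ)) :=
  [[], [], [], [(13, 54), (14, 55), (0, 0)], [], [], [(1, 8), (11, 37), (19, 38), (0, 0)], [(1,
  8), (13, 33)], [], [], [(1, 8)], [(1, 8), (13, 54), (14, 55), (0, 0)], [], [], [(12, 33)],
  [(19, 45), (29, 46), (0, 0)], [], [], [(1, 32), (7, 26), (30, 35), (0, 0)], [(1, 32), (9,
  49)], [], [], [(1, 40), (11, 37), (23, 38), (0, 0)], [(1, 8), (29, 41)], [], [], [(7, 26),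
  (30, 35), (0, 0)], [(1, 32), (9, 48)], [], [], [(28, 41)], [(13, 23), (14, 55), (0, 0)], [],
  [], [(1, 32)], [(1, 32), (29, 46), (30, 47), (0, 0)], [], [], [(11, 37), (19, 38), (0, 0)],
  [(1, 8), (12, 33)], [], [], [(1, 40)], [(1, 8), (29, 46), (30, 47), (0, 0)], [], [], [(13,
  33)], [(13, 54), (14, 37), (0, 0)], [], [], [(9, 48)], [(7, 57), (15, 53), (0, 0)], [], [],
  [(29, 41)], [(11, 37), (23, 38), (0, 0)], [], [], [(9, 49)], [(7, 26), (30, 47), (0, 0)], [],
  [], [(13, 23), (14, 37), (0, 0)], [(1, 8), (28, 41)]]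

def certD1 : List (List (ℕ × ℕ)) :=
  [[], [], [], [], [], [], [], [(2, 4)], [], [], [], [(1, 8)], [(5, 10)], [(14, 18)], [(13,
  23)], [], [], [], [], [(2, 16)], [], [], [], [(2, 20)], [], [], [], [(3, 24)], [(10, 21)],
  [(12, 18)], [(7, 26)], [], [], [], [], [(1, 32)], [], [], [], [(3, 36)], [], [], [], [(1,
  40)], [(5, 42)], [(11, 37)], [(12, 33)], [], [(12, 51)], [(6, 50)], [(9, 49)], [], [(21,
  34)], [(6, 48)], [(19, 38)], [], [(17, 42)], [(22, 44)], [(7, 57)], [], [], [], [], [(3,
  60)]]

def certD2 : List (List (ℕ × ℕ)) :=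
  [[], [(13, 54), (15, 53)], [(13, 54), (14, 55)], [], [(1, 8), (23, 43), (31, 39)], [(5, 10),
  (19, 38), (25, 35)], [(1, 8), (6, 48), (14, 18)], [], [(1, 8), (6, 48), (14, 37)], [(1, 32),
  (3, 24), (17, 42)], [(5, 10), (19, 38), (22, 44)], [], [], [], [], [(15, 53)], [(1, 8), (3,
  36), (27, 47)], [(6, 48), (13, 23), (17, 42)], [(1, 8), (2, 4), (14, 18)], [], [(1, 8), (7,
  35), (15, 48)], [(6, 50), (10, 21), (12, 33)], [(1, 8), (4, 34), (22, 46)], [], [(1, 8), (2,
  16), (3, 24)], [(1, 32), (2, 16), (25, 43)], [(1, 8), (5, 10), (13, 23)], [], [], [], [],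
  [(31, 45)], [(1, 32), (7, 26), (22, 44)], [(1, 8), (3, 36), (5, 42)], [(7, 26), (11, 37),
  (12, 51)], [], [(1, 32), (2, 4), (3, 36)], [(1, 8), (2, 4), (14, 37)], [(1, 32), (10, 21),
  (19, 38)], [], [(1, 40), (6, 50), (11, 37)], [(1, 8), (3, 60), (21, 34)], [(5, 42), (9, 49),
  (30, 35)], [], [], [], [], [(30, 47)], [], [], [], [(29, 46)], [], [], [], [(14, 55)], [],
  [], [], [(13, 54)], [(1, 40), (2, 20), (3, 60)], [(1, 8), (2, 20), (30, 35)], [(1, 40), (5,
  10), (19, 45)], []]


/-- table of `bN` -/
def tabOf (f : ℕ → ℕ → Bool) (t : ℕ) : Bool :=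
  (List.range 64).all fun x => (List.range 64).all fun y => t.testBit (64 * x + y) == f x y

/-- evaluation of a word of steps `eN` -/
def evE (w : List (ℕ × ℕ)) (x : ℕ) : ℕ := w.foldl (fun y p => eN p.1 p.2 y) x

/-- evaluation of a word of steps `dN` -/
def evD (w : List (ℕ × ℕ)) (x : ℕ) : ℕ := w.foldl (fun y p => dN p.1 p.2 y) x

/-- evaluation of a word of steps `eN`, `sN` (`sN` coded by `(0, 0)`) -/
def evS (w : List (ℕ × ℕ)) (x : ℕ) : ℕ :=
  w.foldl (fun y p => if p.1 = 0 then sN y else eN p.1 p.2 y) x

/-- all steps of the word are lines of the hexagon -/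
def okW (w : List (ℕ × ℕ)) : Bool :=
  w.all fun p => decide (p.1 < 64) && decide (p.2 < 64) && hexTab.testBit (64 * p.1 + p.2)

/-! ### checks by the kernel -/

theorem chk_tab : tabOf hN hexTab = true := by decide +kernel

theorem chk_1 : ((List.range 64).all fun u => u == 0 ||
    (okW (cert1.getD u []) && evE (cert1.getD u []) 1 == u)) = true := by decide +kernel

theorem chk_2 : ((List.range 64).all fun v => v == 0 || v == 1 || !(hexTab.testBit (64 * 1 + v)) ||
    (okW (cert2.getD v []) && evE (cert2.getD v []) 1 == 1 && evE (cert2.getD v []) 8 == v)) =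
    true := by decide +kernel

theorem chk_L : ((List.range 64).all fun x => (!(bN 1 x) && !(bN 8 x)) ||
    (okW (certL.getD x []) && evE (certL.getD x []) 2 == x &&
      (evE (certL.getD x []) 1 == 1 || evE (certL.getD x []) 1 == 8 ||
        evE (certL.getD x []) 1 == 9) &&
      (evE (certL.getD x []) 8 == 1 || evE (certL.getD x []) 8 == 8 ||
        evE (certL.getD x []) 8 == 9))) = true := by decide +kernel

theorem chk_A : ((List.range 64).all fun x => !(bN 1 x) ||
    (okW (certA.getD x []) && evS (certA.getD x []) 1 == 1 && evS (certA.getD x []) 2 == x)) =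
    true := by decide +kernel

theorem chk_D1 : ((List.range 64).all fun x => !(qN x) ||
    (okW (certD1.getD x []) && evD (certD1.getD x []) 3 == x)) = true := by decide +kernel

theorem chk_D2 : ((List.range 64).all fun x => qN x ||
    (okW (certD2.getD x []) && evD (certD2.getD x []) 3 == 3 && evD (certD2.getD x []) 0 == x)) =
    true := by decide +kernel

/-- every pair of collinear points lies on a line of the list -/
theorem chk_lines : ((List.range 64).all fun x => (List.range 64).all fun y =>
    x == 0 || y == 0 || x == y || !(hexTab.testBit (64 * x + y)) ||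
    hexLines.any fun p => (x == p.1 || x == p.2 || x == p.1 ^^^ p.2) &&
      (y == p.1 || y == p.2 || y == p.1 ^^^ p.2)) = true := by decide +kernel

theorem chk_hl : (hexLines.all fun p => decide (p.1 < 64) && decide (p.2 < 64) &&
    hexTab.testBit (64 * p.1 + p.2)) = true := by decide +kernel

/-- the steps preserve the lines -/
theorem chk_pres : (hexLines.all fun p => hexLines.all fun l =>
    hexTab.testBit (64 * eN p.1 p.2 l.1 + eN p.1 p.2 l.2) &&
    hexTab.testBit (64 * eN p.1 p.2 l.1 + eN p.1 p.2 (l.1 ^^^ l.2)) &&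
    hexTab.testBit (64 * eN p.1 p.2 l.2 + eN p.1 p.2 (l.1 ^^^ l.2))) = true := by decide +kernel

/-- the exchange of coordinates preserves the hexagon -/
theorem chk_sw : ((List.range 64).all fun x => (List.range 64).all fun y =>
    hexTab.testBit (64 * sN x + sN y) == hexTab.testBit (64 * x + y)) = true := by decide +kernel

/-- a vector perpendicular to all neighbours of `a` is a neighbour of `a` -/
theorem chk_F2 : ((List.range 64).all fun a => (List.range 64).all fun b =>
    hexTab.testBit (64 * a + b) ||
    (List.range 64).any fun x => hexTab.testBit (64 * a + x) && bN x b) = true := by decide +kernel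

/-- there are no triangles -/
theorem chk_F3 : ((List.range 64).all fun a => a == 0 || (List.range 64).all fun b =>
    b == 0 || b == a || !(hexTab.testBit (64 * a + b)) || (List.range 64).all fun c =>
    !(hexTab.testBit (64 * a + c)) || !(hexTab.testBit (64 * b + c)) ||
    c == 0 || c == a || c == b || c == a ^^^ b) = true := by decide +kernel

/-- every vector `≠ 0` has at most `6` neighbours besides `0` and itself -/
theorem chk_deg : ((List.range 64).all fun a => a == 0 ||
    ((List.range 64).filter fun x => hexTab.testBit (64 * a + x)).length == 8) = true := by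
  decide +kernel

/-- the invariant of the antiflags under `G_2(2)'` -/
theorem chk_inv : (hexLines.all fun p => (List.range 64).all fun u => (List.range 64).all fun x =>
    !(bN u x) || (invTab.testBit (64 * u + x) ==
      invTab.testBit (64 * eN p.1 p.2 u + eN p.1 p.2 x))) = true := by decide +kernel

end Pool.Agent.SIT.G2
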