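import Pool.Agent.SIT.HexHalf

/-!
# `|F| = 2`: every member of `G_2(2)` is in `G_2(2)'` or in the other coset

`DG` is generated by the translations and the maps `x ↦ x + B(a,x) b + B(b,x) a`, `a`, `b`
collinear.
-/

namespace Pool.Agent.SIT.Gen

open Hex

variable {F : Type*} [Field F]

/-- the group generated by the translations and the maps `x ↦ x + B(a,x) b + B(b,x) a` -/
def DG (F : Type*) [Field F] : Subgroup (Equiv.Perm (V6 F)) :=
  Subgroup.closure {g | (∃ t, ∀ x, g x = x + t) ∨
    ∃ a b : V6 F, Col a b ∧ ∀ x, g x = x + Bf a x • b + Bf b x • a}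

/-- `DG` is normalised by `G_2(q)`. -/
lemma DG_conj {b : V6 F ≃ₗ[F] V6 F} (hb : HexIso b) {h : Equiv.Perm (V6 F)} (hh : h ∈ DG F) :
    (b.symm.toEquiv.trans h).trans b.toEquiv ∈ DG F := by
  induction hh using Subgroup.closure_induction with
  | mem g hg =>
    apply Subgroup.subset_closure
    rcases hg with ⟨t, ht⟩ | ⟨a, a', h, hg⟩
    · left
      refine ⟨b t, fun x => ?_⟩
      change b (g (b.symm x)) = _
      rw [ht, map_add, b.apply_symm_apply]
    · right
      refine ⟨b a, b a', (hb.2 a a').2 h, fun x => ?_⟩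
      change b (g (b.symm x)) = _
      have e1 : Bf (b a) x = Bf a (b.symm x) := by rw [← hb.1 a, b.apply_symm_apply]
      have e2 : Bf (b a') x = Bf a' (b.symm x) := by rw [← hb.1 a', b.apply_symm_apply]
      rw [hg, map_add, map_add, map_smul, map_smul, b.apply_symm_apply, e1, e2]
  | one =>
    have e : (b.symm.toEquiv.trans (1 : Equiv.Perm (V6 F))).trans b.toEquiv = 1 := by
      apply Equiv.ext
      intro x
      exact b.apply_symm_apply x
    rw [e]
    exact (DG F).one_mem
  | mul g h _ _ ihg ihh =>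
    have e : (b.symm.toEquiv.trans (g * h)).trans b.toEquiv =
        ((b.symm.toEquiv.trans g).trans b.toEquiv) * ((b.symm.toEquiv.trans h).trans b.toEquiv) := by
      apply Equiv.ext
      intro x
      change b (g (h (b.symm x))) = b (g (b.symm (b (h (b.symm x)))))
      rw [b.symm_apply_apply]
    rw [e]
    exact (DG F).mul_mem ihg ihh
  | inv g _ ih =>
    have e : (b.symm.toEquiv.trans g⁻¹).trans b.toEquiv =
        ((b.symm.toEquiv.trans g).trans b.toEquiv)⁻¹ := by
      apply Equiv.ext
      intro x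
      rfl
    rw [e]
    exact (DG F).inv_mem ih

lemma inD_conj {b : V6 F ≃ₗ[F] V6 F} (hb : HexIso b) {f : V6 F → V6 F} (h : InG (DG F) f) :
    InG (DG F) (fun x => b (f (b.symm x))) := by
  obtain ⟨g, hg, h1⟩ := h
  refine ⟨_, DG_conj hb hg, fun x => ?_⟩
  change b (g (b.symm x)) = _
  rw [h1]

lemma inD_id : InG (DG F) (fun x : V6 F => x) := ⟨1, (DG F).one_mem, fun _ => rfl⟩

omit [Field F] in
lemma inG_symm {G : Subgroup (Equiv.Perm (V6 F))} {f f' : V6 F → V6 F} (h : InG G f)
    (h' : ∀ x, f (f' x) = x) : InG G f' := by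
  obtain ⟨g, hg, h1⟩ := h
  refine ⟨g⁻¹, G.inv_mem hg, fun x => ?_⟩
  change g.symm x = _
  rw [Equiv.symm_apply_eq, h1, h']

variable [CharP F 2]

lemma line_line {a b : V6 F} (h : Bf a b = 0) (x : V6 F) :
    (x + Bf a x • b + Bf b x • a) + Bf a (x + Bf a x • b + Bf b x • a) • b +
      Bf b (x + Bf a x • b + Bf b x • a) • a = x := by
  have h' : Bf b a = 0 := by rw [Bf_comm, h]
  have e1 : Bf a (x + Bf a x • b + Bf b x • a) = Bf a x := by
    rw [Bf_add_right, Bf_add_right, Bf_smul_right, Bf_smul_right, h, Bf_self, mul_zero, mul_zero,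
      add_zero, add_zero]
  have e2 : Bf b (x + Bf a x • b + Bf b x • a) = Bf b x := by
    rw [Bf_add_right, Bf_add_right, Bf_smul_right, Bf_smul_right, h', Bf_self, mul_zero, mul_zero,
      add_zero, add_zero]
  rw [e1, e2]
  have e3 : x + Bf a x • b + Bf b x • a + Bf a x • b + Bf b x • a =
      x + (Bf a x • b + Bf a x • b) + (Bf b x • a + Bf b x • a) := by abel
  rw [e3, add_self6, add_self6, add_zero, add_zero]

lemma inD_line {a b : V6 F} (h : Col a b) :
    InG (DG F) (fun x => x + Bf a x • b + Bf b x • a) := by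
  have h0 : Bf a b = 0 := h.1
  let g : Equiv.Perm (V6 F) :=
    { toFun := fun x => x + Bf a x • b + Bf b x • a
      invFun := fun x => x + Bf a x • b + Bf b x • a
      left_inv := line_line h0
      right_inv := line_line h0 }
  exact ⟨g, Subgroup.subset_closure (Or.inr ⟨a, b, h, fun _ => rfl⟩), fun _ => rfl⟩

omit [CharP F 2] in
lemma inD_tr (t : V6 F) : InG (DG F) (fun x => x + t) :=
  ⟨Equiv.addRight t, Subgroup.subset_closure (Or.inl ⟨t, fun _ => rfl⟩), fun _ => rfl⟩

omit [CharP F 2] in
lemma col_e {a b : Fin 3 → F} (h : dot a b = 0) : Col ((a, 0) : V6 F) (0, b) := by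
  refine ⟨?_, fun i => ?_, fun i => ?_, ?_⟩
  · simpa [Bf, dot] using h
  · have : crs (0 : Fin 3 → F) b i = 0 := by
      revert i
      apply forall_fin3 <;> simp [crs]
    simp [Qf, dot, this]
  · have : crs a (0 : Fin 3 → F) i = 0 := by
      revert i
      apply forall_fin3 <;> simp [crs]
    simp [Qf, dot, this]
  · change _ = dot a b ^ 2
    rw [h]
    simp [Qf, dot]

lemma inD_e {a b : Fin 3 → F} (h : dot a b = 0) : InG (DG F) (eU a b) := by
  have h1 := inD_line (col_e h)
  convert h1 using 1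
  funext x
  apply Prod.ext
  · simp [eU, Bf, dot]
  · simp [eU, Bf, dot]

/-- two maps of type `s` -/
lemma inD_ss (hF : ∀ c : F, c = 0 ∨ c = 1) {u u' : Fin 3 → F} (hu : u ≠ 0)
    (hu' : u' ≠ 0) : InG (DG F) (fun x => sU u (sU u' x)) := by
  have h2 : ∀ c : F, c + c = 0 := fun c => CharTwo.add_self_eq_zero c
  by_cases hc : crs u u' = 0
  · have h1 := eq_of_crs hF hu hu' hc
    subst h1
    refine ⟨1, (DG F).one_mem, fun x => ?_⟩
    exact (sU_sU u x).symm
  · obtain ⟨b, hb, hb'⟩ := exists_dot2 hc 1 1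
    have hab : dot (u + u') b = 0 := by
      rw [dot_comm, dot_add, hb, hb']
      exact h2 1
    have h1 := inG_mul (inD_conj (hexIso_s u) (inD_e hab)) (inD_e hab)
    convert h1 using 1
    funext x
    change sU u (sU u' x) = sU u (eU (u + u') b (sU u (eU (u + u') b x)))
    rw [conj_sU hab]
    congr 2
    rw [hb, one_smul, ← add_assoc]
    have : u + u = 0 := by
      funext i
      exact h2 _
    rw [this, zero_add]

/-- two maps of type `t` -/
lemma inD_tt (hF : ∀ c : F, c = 0 ∨ c = 1) {u u' : Fin 3 → F} (hu : u ≠ 0)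
    (hu' : u' ≠ 0) : InG (DG F) (fun x => tU u (tU u' x)) := by
  have h1 := inD_conj (hexIso_sw (F := F)) (inD_ss hF hu hu')
  exact h1

lemma col_A : Col ((![0, 0, 1], ![0, 1, 1]) : V6 F) (![1, 0, 0], ![0, 1, 0]) := by
  have h2 : (1 : F) + 1 = 0 := CharTwo.add_self_eq_zero 1
  refine ⟨?_, fun i => ?_, fun i => ?_, ?_⟩
  · simp [Bf, dot]
  · revert i
    apply forall_fin3 <;> simp [crs, Qf, dot]
  · revert i
    apply forall_fin3 <;> simp [crs, Qf, dot]
  · simp [Qf, dot]

/-- one product of a map of type `s` and a map of type `t` -/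
lemma inD_st1 : InG (DG F) (fun x => sU ![1, 0, 0] (tU ![0, 1, 0] x)) := by
  have e1 : dot ![1, 0, 0] ![(0 : F), 1, 1] = 0 := by simp [dot]
  have e2 : dot ![0, 0, 1] ![(0 : F), 1, 0] = 0 := by simp [dot]
  have h1 := inG_mul (inD_line (col_A (F := F))) (inG_mul (inD_e e1) (inD_e e2))
  convert h1 using 1
  funext x
  apply ext6 <;> (simp only [sU, tU, eU, dot, crs, Bf, Pi.add_apply, Pi.smul_apply, smul_eq_mul,
      Prod.fst_add, Prod.snd_add, Prod.smul_fst, Prod.smul_snd,
      Matrix.cons_val_zero, Matrix.cons_val_one, Matrix.cons_val]) <;> ring_nf <;> (try simp only [n2, n3, n4, mul_zero, mul_one, zero_mul, one_mul,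
      zero_add, add_zero]) <;> (try ring)


/-- **The index of `G_2(2)'` in `G_2(2)` is at most two.** -/
theorem iso_or (hF2 : ∀ c : F, c = 0 ∨ c = 1) {b : V6 F ≃ₗ[F] V6 F} (hb : HexIso b) :
    InG (DG F) b ∨ InG (DG F) (fun x => s0 (b x)) := by
  have hsq : ∀ c : F, ∃ d, d ^ 2 = c := by
    intro c
    rcases hF2 c with rfl | rfl
    · exact ⟨0, by simp⟩
    · exact ⟨1, by simp⟩
  have hu0 : (![1, 0, 0] : Fin 3 → F) ≠ 0 := by
    intro h
    have := congrFun h 0
    simp at this
  have hu1 : (![0, 1, 0] : Fin 3 → F) ≠ 0 := by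
    intro h
    have := congrFun h 1
    simp at this
  -- conjugation by `s0`
  have hcj : ∀ {f : V6 F → V6 F}, InG (DG F) f → InG (DG F) (fun x => s0 (f (s0 x))) := by
    intro f hf
    exact inD_conj hexIso_s0 hf
  let P : (V6 F ≃+ V6 F) → V6 F → (F ≃+* F) → Prop := fun g _ σ => σ = RingEquiv.refl F ∧
    IsoC g ∧ (InG (DG F) g ∨ InG (DG F) (fun x => s0 (g x)))
  have hP : HexG P := by
    refine { semi := ?_, mul := ?_, tr := ?_, s := ?_, t := ?_, e := ?_, inv := ?_, sim := ?_
             col := ?_ }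
    · rintro g t σ ⟨rfl, h1, -⟩ c x
      exact h1.lin c x
    · rintro g t σ g' t' σ' ⟨rfl, h1, h2⟩ ⟨rfl, h1', h2'⟩
      refine ⟨by ext x; rfl, h1'.trans h1, ?_⟩
      rcases h2 with h2 | h2
      · rcases h2' with h2' | h2'
        · left
          have h3 : InG (DG F) (fun x => g (g' x)) := inG_mul (f := g) (f' := g') h2 h2'
          exact h3
        · right
          -- `s0 g g' = (s0 g s0) (s0 g')`
          have h3 : InG (DG F) (fun x => s0 (g (s0 (s0 (g' x))))) :=
            inG_mul (f := fun x => s0 (g (s0 x))) (f' := fun x => s0 (g' x)) (hcj h2) h2'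
          convert h3 using 1
          funext x
          change s0 (g (g' x)) = s0 (g (s0 (s0 (g' x))))
          rw [s0_s0]
      · rcases h2' with h2' | h2'
        · right
          have h3 : InG (DG F) (fun x => s0 (g (g' x))) :=
            inG_mul (f := fun x => s0 (g x)) (f' := g') h2 h2'
          exact h3
        · left
          -- `g g' = (s0 (s0 g) s0) (s0 g')`
          have h3 : InG (DG F) (fun x => s0 (s0 (g (s0 (s0 (g' x)))))) :=
            inG_mul (f := fun x => s0 (s0 (g (s0 x)))) (f' := fun x => s0 (g' x))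
              (hcj h2) h2'
          convert h3 using 1
          funext x
          change g (g' x) = s0 (s0 (g (s0 (s0 (g' x)))))
          rw [s0_s0, s0_s0]
    · intro t
      exact ⟨rfl, ⟨fun _ _ => rfl, fun _ _ => rfl, fun _ _ => Iff.rfl⟩, Or.inl inD_id⟩
    · intro u
      refine ⟨rfl, ⟨sU_smul u, Bf_sU u, (hexIso_s u).2⟩, ?_⟩
      by_cases hu : u = 0
      · left
        subst hu
        convert inD_id (F := F) using 1
        funext x
        change sU 0 x = x
        apply ext6 <;> simp [sU, dot, crs_zero', crs_one', crs_two']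
      · right
        exact inD_ss hF2 hu0 hu
    · intro u
      have hI : HexIso ((swLin.trans (sLin u)).trans swLin) :=
        (hexIso_sw.trans (hexIso_s u)).trans hexIso_sw
      refine ⟨rfl, ⟨tU_smul u, Bf_tU u, hI.2⟩, ?_⟩
      by_cases hu : u = 0
      · left
        subst hu
        convert inD_id (F := F) using 1
        funext x
        change tU 0 x = x
        apply ext6 <;> simp [tU, dot, crs_zero', crs_one', crs_two']
      · right
        -- `s0 t = (s0 t1) (t1 t)`
        have h3 := inG_mul (inD_st1 (F := F)) (inD_tt hF2 hu1 hu)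
        convert h3 using 1
        funext x
        change sU ![1, 0, 0] (tU u x) = sU ![1, 0, 0] (tU ![0, 1, 0] (tU ![0, 1, 0] (tU u x)))
        rw [tU_tU]
    · intro a b h
      exact ⟨rfl, ⟨eU_smul a b, Bf_eU h, (hexIso_e a b h).2⟩, Or.inl (inD_e h)⟩
    · rintro g t σ ⟨rfl, h1, h2⟩
      have h1' : IsoC g.symm := by
        refine ⟨fun c x => ?_, fun x y => ?_, fun x y => ?_⟩
        · apply g.injective
          rw [h1.lin, g.apply_symm_apply, g.apply_symm_apply]
        · rw [← h1.iso, g.apply_symm_apply, g.apply_symm_apply]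
        · rw [← h1.col, g.apply_symm_apply, g.apply_symm_apply]
      refine ⟨by ext x; rfl, h1', ?_⟩
      rcases h2 with h2 | h2
      · left
        exact inG_symm h2 fun x => g.apply_symm_apply x
      · right
        -- `s0 g⁻¹ = s0 (g⁻¹ s0) s0`
        have h3 : InG (DG F) (fun x => g.symm (s0 x)) := by
          apply inG_symm h2
          intro x
          change s0 (g (g.symm (s0 x))) = x
          rw [g.apply_symm_apply, s0_s0]
        have h4 := hcj h3
        convert h4 using 1
        funext x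
        change s0 (g.symm x) = s0 (g.symm (s0 (s0 x)))
        rw [s0_s0]
    · rintro g t σ ⟨rfl, h1, -⟩
      exact ⟨1, one_ne_zero, fun x y => by rw [h1.iso, one_mul]; rfl⟩
    · rintro g t σ ⟨rfl, h1, -⟩
      exact h1.col
  have h1 := hP.iso_mem hsq (b := b.toAddEquiv) ⟨fun c x => b.map_smul c x, hb.1, hb.2⟩
  exact (h1 0).1.2.2

end Pool.Agent.SIT.Gen
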