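import Pool.Agent.SIT.HexG
import Pool.Agent.SIT.LinS4G

/-!
# Cylinders over hyperovals whose radical is a hexagon flat

`q = 4`, the radical of the quadric is the hexagon flat `w₀ = v₁ = 0` of dimension four. Elements
of the hexagon group inducing all transvections on the quotient, and elements that are trivial on
the quotient and move a point off the flat to any other point of its coset.
-/

namespace Pool.Agent.SIT.Hex

open Pool.Agent.SIT.S4

variable {F : Type*} [Field F] [CharP F 2]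

lemma sU_sU (u : Fin 3 → F) (x : V6 F) : sU u (sU u x) = x := by
  have h := SU_SU 0 u x
  have e : ∀ y : V6 F, SU 0 u y = sU u y := by
    intro y
    apply Prod.ext
    · simp only [SU, Prod.fst_add, zero_smul, add_zero]
    · simp only [SU, Prod.snd_add, add_zero]
  rwa [e, e] at h

lemma tU_tU (u : Fin 3 → F) (x : V6 F) : tU u (tU u x) = x := by
  have h := TU_TU 0 u x
  have e : ∀ y : V6 F, TU 0 u y = tU u y := by
    intro y
    apply Prod.ext
    · simp only [TU, Prod.fst_add, add_zero]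
    · simp only [TU, Prod.snd_add, zero_smul, add_zero]
  rwa [e, e] at h

lemma add_self6 (x : V6 F) : x + x = 0 := add_self_V (F := F) x

lemma eU_eU (a b : Fin 3 → F) (h : dot a b = 0) (x : V6 F) : eU a b (eU a b x) = x := by
  have h' : dot b a = 0 := by rw [dot_comm, h]
  have h2 : ∀ y : Fin 3 → F, y + y = 0 := fun y => by
    funext i; exact CharTwo.add_self_eq_zero (y i)
  apply Prod.ext
  · simp only [eU, dot_add, dot_smul, h', mul_zero, add_zero]
    rw [add_assoc, h2, add_zero]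
  · simp only [eU, dot_add, dot_smul, h, mul_zero, add_zero]
    rw [add_assoc, h2, add_zero]

/-- `sU u` as an additive permutation -/
def sE (u : Fin 3 → F) : V6 F ≃+ V6 F :=
  { toFun := sU u, invFun := sU u, left_inv := sU_sU u, right_inv := sU_sU u, map_add' := sU_add u }

/-- `tU u` as an additive permutation -/
def tE (u : Fin 3 → F) : V6 F ≃+ V6 F :=
  { toFun := tU u, invFun := tU u, left_inv := tU_tU u, right_inv := tU_tU u, map_add' := tU_add u }

/-- `eU a b` as an additive permutation -/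
def eE (a b : Fin 3 → F) (h : dot a b = 0) : V6 F ≃+ V6 F :=
  { toFun := eU a b, invFun := eU a b, left_inv := eU_eU a b h, right_inv := eU_eU a b h
    map_add' := eU_add a b }

/-- A class of semilinear affine maps `x ↦ g x + t` that contains the translations and the
elementary maps. -/
structure HexGrp (P : (V6 F ≃+ V6 F) → V6 F → (F ≃+* F) → Prop) : Prop where
  semi : ∀ {g t σ}, P g t σ → ∀ (c : F) x, g (c • x) = σ c • g x
  mul : ∀ {g t σ g' t' σ'}, P g t σ → P g' t' σ' → P (g'.trans g) (g t' + t) (σ'.trans σ)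
  tr : ∀ t, P (AddEquiv.refl (V6 F)) t (RingEquiv.refl F)
  s : ∀ u, P (sE u) 0 (RingEquiv.refl F)
  t : ∀ u, P (tE u) 0 (RingEquiv.refl F)
  e : ∀ a b (h : dot a b = 0), P (eE a b h) 0 (RingEquiv.refl F)

/-- all affine maps with linear part `g` are in the class -/
def LinIn (P : (V6 F ≃+ V6 F) → V6 F → (F ≃+* F) → Prop) (g : V6 F ≃+ V6 F) : Prop :=
  ∀ t, P g t (RingEquiv.refl F)

variable {P : (V6 F ≃+ V6 F) → V6 F → (F ≃+* F) → Prop}

lemma HexGrp.lin_of (hP : HexGrp P) {g : V6 F ≃+ V6 F} (h : P g 0 (RingEquiv.refl F)) :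
    LinIn P g := by
  intro t
  have := hP.mul (hP.tr t) h
  have e1 : g.trans (AddEquiv.refl (V6 F)) = g := by ext1 x; rfl
  have e2 : (AddEquiv.refl (V6 F)) 0 + t = t := by
    change (0 : V6 F) + t = t
    rw [zero_add]
  have e3 : (RingEquiv.refl F).trans (RingEquiv.refl F) = RingEquiv.refl F := by ext x; rfl
  rwa [e1, e2, e3] at this

lemma HexGrp.lin_trans (hP : HexGrp P) {g g' : V6 F ≃+ V6 F} (h' : LinIn P g') (h : LinIn P g) :
    LinIn P (g'.trans g) := by
  intro t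
  have := hP.mul (h t) (h' 0)
  have e3 : (RingEquiv.refl F).trans (RingEquiv.refl F) = RingEquiv.refl F := by ext x; rfl
  rwa [map_zero, zero_add, e3] at this

lemma HexGrp.sL (hP : HexGrp P) (u : Fin 3 → F) : LinIn P (sE u) := hP.lin_of (hP.s u)
lemma HexGrp.tL (hP : HexGrp P) (u : Fin 3 → F) : LinIn P (tE u) := hP.lin_of (hP.t u)
lemma HexGrp.eL (hP : HexGrp P) (a b : Fin 3 → F) (h : dot a b = 0) : LinIn P (eE a b h) :=
  hP.lin_of (hP.e a b h)

/-! ### coordinates -/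

lemma sE_0 (k : F) (x : V6 F) : sE ![k, 0, 0] x =
    (![x.1 0 + k ^ 2 * x.2 0, x.1 1, x.1 2], ![x.2 0, x.2 1 + k * x.1 2, x.2 2 + k * x.1 1]) := by
  change sU ![k, 0, 0] x = _
  apply ext6 <;> (simp only [sU, tU, eU, dot, crs, Pi.add_apply, Pi.smul_apply, smul_eq_mul,
      Matrix.cons_val_zero, Matrix.cons_val_one, Matrix.cons_val]) <;> ring

lemma sE_2 (k : F) (x : V6 F) : sE ![0, 0, k] x =
    (![x.1 0, x.1 1, x.1 2 + k ^ 2 * x.2 2], ![x.2 0 + k * x.1 1, x.2 1 + k * x.1 0, x.2 2]) := by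
  change sU ![0, 0, k] x = _
  apply ext6 <;> (simp only [sU, tU, eU, dot, crs, Pi.add_apply, Pi.smul_apply, smul_eq_mul,
      Matrix.cons_val_zero, Matrix.cons_val_one, Matrix.cons_val]) <;> ring

lemma tE_1 (m : F) (x : V6 F) : tE ![0, m, 0] x =
    (![x.1 0 + m * x.2 2, x.1 1, x.1 2 + m * x.2 0], ![x.2 0, x.2 1 + m ^ 2 * x.1 1, x.2 2]) := by
  change tU ![0, m, 0] x = _
  apply ext6 <;> (simp only [sU, tU, eU, dot, crs, Pi.add_apply, Pi.smul_apply, smul_eq_mul,
      Matrix.cons_val_zero, Matrix.cons_val_one, Matrix.cons_val]) <;> ring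

lemma tE_2 (k : F) (x : V6 F) : tE ![0, 0, k] x =
    (![x.1 0 + k * x.2 1, x.1 1 + k * x.2 0, x.1 2], ![x.2 0, x.2 1, x.2 2 + k ^ 2 * x.1 2]) := by
  change tU ![0, 0, k] x = _
  apply ext6 <;> (simp only [sU, tU, eU, dot, crs, Pi.add_apply, Pi.smul_apply, smul_eq_mul,
      Matrix.cons_val_zero, Matrix.cons_val_one, Matrix.cons_val]) <;> ring

omit [CharP F 2] in
lemma dot0 (c d : F) : dot ![1, 0, 0] ![0, c, d] = 0 := by simp [dot]

omit [CharP F 2] in
lemma dot1 (a b : F) : dot ![a, 0, b] ![0, 1, 0] = 0 := by simp [dot]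

lemma eE_0 (c d : F) (x : V6 F) : eE ![1, 0, 0] ![0, c, d] (dot0 c d) x =
    (![x.1 0 + c * x.1 1 + d * x.1 2, x.1 1, x.1 2],
      ![x.2 0, x.2 1 + c * x.2 0, x.2 2 + d * x.2 0]) := by
  change eU ![1, 0, 0] ![0, c, d] x = _
  apply ext6 <;> (simp only [sU, tU, eU, dot, crs, Pi.add_apply, Pi.smul_apply, smul_eq_mul,
      Matrix.cons_val_zero, Matrix.cons_val_one, Matrix.cons_val]) <;> ring

lemma eE_1 (a b : F) (x : V6 F) : eE ![a, 0, b] ![0, 1, 0] (dot1 a b) x =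
    (![x.1 0 + a * x.1 1, x.1 1, x.1 2 + b * x.1 1],
      ![x.2 0, x.2 1 + a * x.2 0 + b * x.2 2, x.2 2]) := by
  change eU ![a, 0, b] ![0, 1, 0] x = _
  apply ext6 <;> (simp only [sU, tU, eU, dot, crs, Pi.add_apply, Pi.smul_apply, smul_eq_mul,
      Matrix.cons_val_zero, Matrix.cons_val_one, Matrix.cons_val]) <;> ring

/-- moves inside the cosets of the hexagon flat `w₀ = v₁ = 0` -/
lemma hex_fibre (hsq : ∀ z : F, ∃ k, k ^ 2 = z) (hP : HexGrp P) {y y' : V6 F}
    (hy : ¬ (y.2 0 = 0 ∧ y.1 1 = 0)) (h0 : y'.2 0 = y.2 0) (h1 : y'.1 1 = y.1 1) :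
    ∃ L, LinIn P L ∧ (∀ x, (L x).2 0 = x.2 0 ∧ (L x).1 1 = x.1 1) ∧ L y = y' := by
  by_cases hw : y.2 0 = 0
  · have hv : y.1 1 ≠ 0 := fun h => hy ⟨hw, h⟩
    set k : F := (y'.2 2 + y.2 2) / y.1 1 with hk
    set b : F := (y'.1 2 + y.1 2) / y.1 1 with hb
    obtain ⟨m, hm⟩ := hsq ((y'.2 1 + y.2 1 + k * y.1 2 + b * y'.2 2) / y.1 1)
    set a : F := (y'.1 0 + y.1 0 + m * y'.2 2) / y.1 1 with ha
    have hk' : k * y.1 1 = y'.2 2 + y.2 2 := by rw [hk, div_mul_cancel₀ _ hv]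
    have hb' : b * y.1 1 = y'.1 2 + y.1 2 := by rw [hb, div_mul_cancel₀ _ hv]
    have ha' : a * y.1 1 = y'.1 0 + y.1 0 + m * y'.2 2 := by rw [ha, div_mul_cancel₀ _ hv]
    have hm' : m ^ 2 * y.1 1 = y'.2 1 + y.2 1 + k * y.1 2 + b * y'.2 2 := by
      rw [hm, div_mul_cancel₀ _ hv]
    refine ⟨((sE ![k, 0, 0]).trans (tE ![0, m, 0])).trans (eE ![a, 0, b] ![0, 1, 0] (dot1 a b)),
      hP.lin_trans (hP.lin_trans (hP.sL _) (hP.tL _)) (hP.eL _ _ _), ?_, ?_⟩
    · intro x
      simp [sE_0, tE_1, eE_1]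
    · simp only [AddEquiv.trans_apply, sE_0, tE_1, eE_1]
      apply ext6
      · simp only [Matrix.cons_val_zero, Matrix.cons_val_one, Matrix.cons_val, hw]
        linear_combination m * hk' + ha' + (y.1 0 + m * y.2 2 + m * y'.2 2) * two0 (F := F)
      · simp only [Matrix.cons_val_one, Matrix.cons_val_zero, Matrix.cons_val, h1]
      · simp only [Matrix.cons_val_zero, Matrix.cons_val_one, Matrix.cons_val, hw]
        linear_combination hb' + y.1 2 * two0 (F := F)
      · simp only [Matrix.cons_val_zero, Matrix.cons_val_one, Matrix.cons_val, h0]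
      · simp only [Matrix.cons_val_zero, Matrix.cons_val_one, Matrix.cons_val, hw]
        linear_combination hm' + b * hk' +
          (y.2 1 + k * y.1 2 + b * y'.2 2 + b * y.2 2) * two0 (F := F)
      · simp only [Matrix.cons_val_zero, Matrix.cons_val_one, Matrix.cons_val, hw]
        linear_combination hk' + y.2 2 * two0 (F := F)
  · set m : F := (y'.1 2 + y.1 2) / y.2 0 with hm
    obtain ⟨k, hk⟩ := hsq ((y'.1 0 + y.1 0 + m * y.2 2 +
      (y'.2 1 + y.2 1 + m ^ 2 * y.1 1) * y.1 1 / y.2 0 + (y'.2 2 + y.2 2) * y'.1 2 / y.2 0) /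
        y.2 0)
    set c : F := (y'.2 1 + y.2 1 + m ^ 2 * y.1 1 + k * y'.1 2) / y.2 0 with hc
    set d : F := (y'.2 2 + y.2 2 + k * y.1 1) / y.2 0 with hd
    have hm' : m * y.2 0 = y'.1 2 + y.1 2 := by rw [hm, div_mul_cancel₀ _ hw]
    have hc' : c * y.2 0 = y'.2 1 + y.2 1 + m ^ 2 * y.1 1 + k * y'.1 2 := by
      rw [hc, div_mul_cancel₀ _ hw]
    have hd' : d * y.2 0 = y'.2 2 + y.2 2 + k * y.1 1 := by rw [hd, div_mul_cancel₀ _ hw]
    have hk' : k ^ 2 * y.2 0 + c * y.1 1 + d * y'.1 2 = y'.1 0 + y.1 0 + m * y.2 2 := by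
      have hk1 : k ^ 2 * y.2 0 = y'.1 0 + y.1 0 + m * y.2 2 +
          (y'.2 1 + y.2 1 + m ^ 2 * y.1 1) * y.1 1 / y.2 0 +
            (y'.2 2 + y.2 2) * y'.1 2 / y.2 0 := by rw [hk, div_mul_cancel₀ _ hw]
      have hc1 : c * y.1 1 = (y'.2 1 + y.2 1 + m ^ 2 * y.1 1) * y.1 1 / y.2 0 +
          k * y'.1 2 * y.1 1 / y.2 0 := by rw [hc]; ring
      have hd1 : d * y'.1 2 = (y'.2 2 + y.2 2) * y'.1 2 / y.2 0 +
          k * y.1 1 * y'.1 2 / y.2 0 := by rw [hd]; ring
      rw [hk1, hc1, hd1]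
      linear_combination ((y'.2 1 + y.2 1 + m ^ 2 * y.1 1) * y.1 1 / y.2 0 +
        (y'.2 2 + y.2 2) * y'.1 2 / y.2 0 + k * y.1 1 * y'.1 2 / y.2 0) * two0 (F := F)
    refine ⟨((tE ![0, m, 0]).trans (sE ![k, 0, 0])).trans (eE ![1, 0, 0] ![0, c, d] (dot0 c d)),
      hP.lin_trans (hP.lin_trans (hP.tL _) (hP.sL _)) (hP.eL _ _ _), ?_, ?_⟩
    · intro x
      simp [sE_0, tE_1, eE_0]
    · simp only [AddEquiv.trans_apply, sE_0, tE_1, eE_0]
      apply ext6
      · simp only [Matrix.cons_val_zero, Matrix.cons_val_one, Matrix.cons_val]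
        linear_combination hk' + d * hm' + (y.1 0 + m * y.2 2 + d * y.1 2) * two0 (F := F)
      · simp only [Matrix.cons_val_one, Matrix.cons_val_zero, Matrix.cons_val, h1]
      · simp only [Matrix.cons_val_zero, Matrix.cons_val_one, Matrix.cons_val]
        linear_combination hm' + y.1 2 * two0 (F := F)
      · simp only [Matrix.cons_val_zero, Matrix.cons_val_one, Matrix.cons_val, h0]
      · simp only [Matrix.cons_val_zero, Matrix.cons_val_one, Matrix.cons_val]
        linear_combination hc' + k * hm' +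
          (y.2 1 + m ^ 2 * y.1 1 + k * y'.1 2 + k * y.1 2) * two0 (F := F)
      · simp only [Matrix.cons_val_zero, Matrix.cons_val_one, Matrix.cons_val]
        linear_combination hd' + (y.2 2 + k * y.1 1) * two0 (F := F)

/-- all transvections of the quotient by the hexagon flat `w₀ = v₁ = 0` are induced -/
lemma hex_lift (hP : HexGrp P) (m a b : F) : ∃ L, LinIn P L ∧ ∀ x,
    (L x).2 0 = x.2 0 + m * (x.2 0 * b + x.1 1 * a) * a ∧
      (L x).1 1 = x.1 1 + m * (x.2 0 * b + x.1 1 * a) * b := by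
  by_cases ha : a = 0
  · refine ⟨tE ![0, 0, m * b ^ 2], hP.tL _, fun x => ?_⟩
    rw [tE_2, ha]
    constructor
    · simp only [Matrix.cons_val_zero]
      ring
    · simp only [Matrix.cons_val_one, Matrix.cons_val_zero]
      ring
  · refine ⟨((tE ![0, 0, b / a]).trans (sE ![0, 0, m * a ^ 2])).trans (tE ![0, 0, b / a]),
      hP.lin_trans (hP.lin_trans (hP.tL _) (hP.sL _)) (hP.tL _), fun x => ?_⟩
    have h1 : b / a * a = b := div_mul_cancel₀ _ ha
    simp only [AddEquiv.trans_apply, sE_2, tE_2]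
    constructor
    · simp only [Matrix.cons_val_zero, Matrix.cons_val_one]
      linear_combination (m * a * x.2 0) * h1
    · simp only [Matrix.cons_val_one, Matrix.cons_val_zero]
      linear_combination (m * a * x.1 1 + m * (b / a * a + b) * x.2 0) * h1 +
        (b / a * x.2 0) * two0 (F := F)

/-- **Hyperoval cylinders over hexagon flats.** -/
theorem g2f {w : F} (hw : w ^ 2 + w + 1 = 0) (hF : ∀ x : F, x = 0 ∨ x = 1 ∨ x = w ∨ x = w + 1)
    {f : V6 F → ZMod 2} {β : V6 F → V6 F → ZMod 2}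
    (hb : ∀ x a b, f (x + a + b) + f (x + a) + f (x + b) + f x = β a b)
    (hcomp : ∀ (c : F) a b, β (c • a) b = β a (c • b))
    (hR : ∀ a, (∀ b, β a b = 0) → ∀ x, f (x + a) = f x)
    (hrad : ∀ r : V6 F, (∀ b, β r b = 0) ↔ (r.2 0 = 0 ∧ r.1 1 = 0)) (hP : HexGrp P)
    (h0 : ∃ g t σ, P g t σ ∧ σ ≠ RingEquiv.refl F ∧ ∀ x, f (g x + t) = f x)
    {x y x' y' : V6 F} (hx : f x = f x') (hy : f y = f y') (hne : f x ≠ f y) :
    ∃ g t σ, P g t σ ∧ (∀ z, f (g z + t) = f z) ∧ g x + t = x' ∧ g y + t = y' := by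
  have hsq : ∀ z : F, ∃ k, k ^ 2 = z := by
    intro z
    refine ⟨z ^ 2, ?_⟩
    rw [← pow_mul]
    exact pow_four hw hF z
  refine s4_grp hb hcomp hw hF hR hP.semi hP.mul (fun r _ => hP.tr r) ?_ ?_ h0 hx hy hne
  · intro p z c _
    set E0 : V6 F := (0, ![1, 0, 0]) with hE0
    set E1 : V6 F := (![0, 1, 0], 0) with hE1
    set κ := bt w β E0 E1 with hκ
    have hdec : ∀ (v u : V6 F), bt w β v u = v.2 0 * bt w β E0 u + v.1 1 * bt w β E1 u := by
      intro v u
      have h1 : ∀ b, β (v + (v.2 0 • E0 + v.1 1 • E1)) b = 0 := by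
        rw [hrad]
        constructor
        · simp [hE0, hE1, CharTwo.add_self_eq_zero]
        · simp [hE0, hE1, CharTwo.add_self_eq_zero]
      have h2 := bt_of_rad (w := w) hcomp h1 u
      rw [bt_add_left hb, bt_add_left hb, bt_smul_left hb hw hF, bt_smul_left hb hw hF] at h2
      exact add_eq_zero_iff_F.1 h2
    have hbt : ∀ v u : V6 F, bt w β v u = (v.2 0 * u.1 1 + v.1 1 * u.2 0) * κ := by
      intro v u
      rw [hdec v u, bt_comm hb hcomp E0 u, bt_comm hb hcomp E1 u, hdec u E0, hdec u E1,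
        bt_self hb hcomp hw hF, bt_self hb hcomp hw hF, bt_comm hb hcomp E1 E0, ← hκ]
      ring
    obtain ⟨L, hL, hLx⟩ := hex_lift hP (c * κ) (z.2 0) (z.1 1)
    refine ⟨L, L p + p, hL _, ?_, ?_⟩
    · rw [← add_assoc, add_self6, zero_add]
    · intro x
      have e1 : L x + (L p + p) + (x + (c * bt w β (x + p) z) • z) =
          L (x + p) + ((x + p) + (c * bt w β (x + p) z) • z) := by
        rw [map_add]; abel
      rw [e1, hrad, hbt]
      obtain ⟨h1, h2⟩ := hLx (x + p)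
      constructor
      · rw [Prod.snd_add, Pi.add_apply, h1]
        simp only [Prod.snd_add, Prod.smul_snd, Pi.add_apply, Pi.smul_apply, smul_eq_mul,
          Prod.fst_add]
        linear_combination ((x.2 0 + p.2 0) + c * κ * ((x.2 0 + p.2 0) * z.1 1 +
          (x.1 1 + p.1 1) * z.2 0) * z.2 0) * two0 (F := F)
      · rw [Prod.fst_add, Pi.add_apply, h2]
        simp only [Prod.snd_add, Prod.smul_fst, Pi.add_apply, Pi.smul_apply, smul_eq_mul,
          Prod.fst_add]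
        linear_combination ((x.1 1 + p.1 1) + c * κ * ((x.2 0 + p.2 0) * z.1 1 +
          (x.1 1 + p.1 1) * z.2 0) * z.1 1) * two0 (F := F)
  · intro p y y' h1 h2
    rw [hrad] at h1 h2
    have h3 : (y' + p).2 0 = (y + p).2 0 := by
      have h4 : y.2 0 + y'.2 0 = 0 := h2.1
      have h5 := add_eq_zero_iff_F.1 h4
      simp only [Prod.snd_add, Pi.add_apply, h5]
    have h4 : (y' + p).1 1 = (y + p).1 1 := by
      have h4 : y.1 1 + y'.1 1 = 0 := h2.2
      have h5 := add_eq_zero_iff_F.1 h4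
      simp only [Prod.fst_add, Pi.add_apply, h5]
    have h5 : ¬ ((y + p).2 0 = 0 ∧ (y + p).1 1 = 0) := by
      rw [add_comm y p]; exact h1
    obtain ⟨L, hL, hLx, hLy⟩ := hex_fibre hsq hP h5 h3 h4
    refine ⟨L, L p + p, hL _, ?_, ?_, ?_⟩
    · intro x
      have e1 : L x + (L p + p) + x = L (x + p) + (x + p) := by
        rw [map_add]; abel
      rw [e1, hrad]
      obtain ⟨h6, h7⟩ := hLx (x + p)
      constructor
      · rw [Prod.snd_add, Pi.add_apply, h6, CharTwo.add_self_eq_zero]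
      · rw [Prod.fst_add, Pi.add_apply, h7, CharTwo.add_self_eq_zero]
    · rw [← add_assoc, add_self6, zero_add]
    · have e1 : L y + (L p + p) = L (y + p) + p := by rw [map_add]; abel
      rw [e1, hLy, add_assoc, add_self6, add_zero]

/-- **The quadric `Tr(c Q) = 1`**, triple form. -/
theorem g2g_grp {w : F} (hw : w ^ 2 + w + 1 = 0)
    (hF : ∀ x : F, x = 0 ∨ x = 1 ∨ x = w ∨ x = w + 1) {c : F} (hc0 : c ≠ 0)
    {f : V6 F → ZMod 2} (hf : ∀ x, io F (f x) = (c * Qf x) ^ 2 + c * Qf x) (hP : HexGrp P)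
    (h0 : ∃ g t σ, P g t σ ∧ σ ≠ RingEquiv.refl F ∧ ∀ x, f (g x + t) = f x)
    {x y x' y' : V6 F} (hx : f x = f x') (hy : f y = f y') (hne : f x ≠ f y) :
    ∃ g t σ, P g t σ ∧ (∀ z, f (g z + t) = f z) ∧ g x + t = x' ∧ g y + t = y' := by
  obtain ⟨g₀, t₀, σ₀, hg₀, hσ₀, hf₀⟩ := h0
  have hG : HexClass (fun h : V6 F → V6 F => ∃ g t σ, P g t σ ∧ ∀ z, h z = g z + t) := by
    refine ⟨?_, ?_, ?_, ?_, ?_⟩
    · rintro h1 h2 ⟨g, t, σ, hg, hgz⟩ ⟨g', t', σ', hg', hgz'⟩
      refine ⟨g'.trans g, g t' + t, _, hP.mul hg hg', fun z => ?_⟩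
      simp only [Function.comp, hgz, hgz', AddEquiv.trans_apply, map_add]
      abel
    · intro t
      exact ⟨_, t, _, hP.tr t, fun z => rfl⟩
    · intro u
      exact ⟨_, 0, _, hP.s u, fun z => (add_zero _).symm⟩
    · intro u
      exact ⟨_, 0, _, hP.t u, fun z => (add_zero _).symm⟩
    · intro a b h
      exact ⟨_, 0, _, hP.e a b h, fun z => (add_zero _).symm⟩
  obtain ⟨h, ⟨g, t, σ, hg, hgz⟩, h2, h3, h4⟩ := g2g hw hF hc0 hG hf (g0 := fun z => g₀ z + t₀)
    ⟨g₀, t₀, σ₀, hg₀, fun z => rfl⟩ hf₀ (by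
      intro d a b
      rw [map_add, hP.semi hg₀, map_add, aut_eq_sq hw hF hσ₀]
      have e : g₀ a + t₀ + (g₀ b + t₀) = g₀ a + g₀ b + (t₀ + t₀) := by abel
      rw [e, add_self6, add_zero]
      abel) hx hy hne
  refine ⟨g, t, σ, hg, fun z => ?_, ?_, ?_⟩
  · rw [← hgz, h2]
  · rw [← hgz, h3]
  · rw [← hgz, h4]

end Pool.Agent.SIT.Hex
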