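import Pool.Agent.SIT.HexS

/-!
# The quadric `Tr(c Q) = 1` over `F_4` and the hexagon group

The stabiliser of the quadric in the group generated by translations, the elementary maps of
`G_2(4)` and one semilinear map that is not linear and preserves the quadric is transitive on the
pairs (point of the quadric, point off it).
-/

namespace Pool.Agent.SIT.Hex

open Pool.Agent.SIT.S4

variable {F : Type*} [Field F] [CharP F 2]

lemma crs_self (u : Fin 3 → F) : crs u u = 0 := by
  funext i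
  fin_cases i
  · simp only [crs, Fin.zero_eta, Matrix.cons_val_zero, Pi.zero_apply]
    linear_combination (u 1 * u 2) * two0 (F := F)
  · simp only [crs, Fin.mk_one, Matrix.cons_val_one, Pi.zero_apply, Matrix.cons_val_zero]
    linear_combination (u 2 * u 0) * two0 (F := F)
  · simp only [crs, Fin.reduceFinMk, Matrix.cons_val, Pi.zero_apply]
    linear_combination (u 0 * u 1) * two0 (F := F)

/-- `s_u` followed by the translation by `(c u, 0)` -/
def SU (c : F) (u : Fin 3 → F) (x : V6 F) : V6 F := sU u x + (c • u, 0)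

/-- `t_u` followed by the translation by `(0, c u)` -/
def TU (c : F) (u : Fin 3 → F) (x : V6 F) : V6 F := tU u x + (0, c • u)

lemma SU_SU (c : F) (u : Fin 3 → F) (x : V6 F) : SU c u (SU c u x) = x := by
  have h1 : dot u (x.2 + crs u x.1) = dot u x.2 := by rw [dot_add, dot_crs, add_zero]
  have h2 : ∀ y : Fin 3 → F, y + y = 0 := fun y => by
    funext i; exact CharTwo.add_self_eq_zero (y i)
  apply Prod.ext
  · simp only [SU, sU, Prod.fst_add, Prod.snd_add, add_zero, h1]
    have := h2 (dot u x.2 • u)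
    have h3 := h2 (c • u)
    calc x.1 + dot u x.2 • u + c • u + dot u x.2 • u + c • u
        = x.1 + (dot u x.2 • u + dot u x.2 • u) + (c • u + c • u) := by abel
      _ = x.1 := by rw [this, h3, add_zero, add_zero]
  · simp only [SU, sU, Prod.fst_add, Prod.snd_add, add_zero, crs_add, crs_smul, crs_self,
      smul_zero]
    rw [add_assoc, h2, add_zero]

lemma TU_TU (c : F) (u : Fin 3 → F) (x : V6 F) : TU c u (TU c u x) = x := by
  have h1 : dot u (x.1 + crs u x.2) = dot u x.1 := by rw [dot_add, dot_crs, add_zero]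
  have h2 : ∀ y : Fin 3 → F, y + y = 0 := fun y => by
    funext i; exact CharTwo.add_self_eq_zero (y i)
  apply Prod.ext
  · simp only [TU, tU, Prod.fst_add, Prod.snd_add, add_zero, crs_add, crs_smul, crs_self,
      smul_zero]
    rw [add_assoc, h2, add_zero]
  · simp only [TU, tU, Prod.fst_add, Prod.snd_add, add_zero, h1]
    have := h2 (dot u x.1 • u)
    have h3 := h2 (c • u)
    calc x.2 + dot u x.1 • u + c • u + dot u x.1 • u + c • u
        = x.2 + (dot u x.1 • u + dot u x.1 • u) + (c • u + c • u) := by abel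
      _ = x.2 := by rw [this, h3, add_zero, add_zero]

lemma aff_of (L : V6 F → V6 F) (hadd : ∀ x y, L (x + y) = L x + L y)
    (hsmul : ∀ (d : F) x, L (d • x) = d • L x) (t : V6 F) (d : F) (a b : V6 F) :
    L (a + d • (a + b)) + t = L a + t + d • (L a + t + (L b + t)) := by
  have h2 : t + t = 0 := by
    have : (2 : F) • t = 0 := by rw [two0, zero_smul]
    rwa [two_smul] at this
  rw [hadd, hsmul, hadd]
  have : L a + t + (L b + t) = L a + L b + (t + t) := by abel
  rw [this, h2, add_zero]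
  abel

lemma SU_aff (c : F) (u : Fin 3 → F) (d : F) (a b : V6 F) :
    SU c u (a + d • (a + b)) = SU c u a + d • (SU c u a + SU c u b) :=
  aff_of (sU u) (sU_add u) (sU_smul u) _ d a b

lemma TU_aff (c : F) (u : Fin 3 → F) (d : F) (a b : V6 F) :
    TU c u (a + d • (a + b)) = TU c u a + d • (TU c u a + TU c u b) :=
  aff_of (tU u) (tU_add u) (tU_smul u) _ d a b

lemma Qf_SU (c : F) (u : Fin 3 → F) (x : V6 F) :
    Qf (SU c u x) = Qf x + (dot u x.2) ^ 2 + c * dot u x.2 := by
  have h1 : dot u (x.2 + crs u x.1) = dot u x.2 := by rw [dot_add, dot_crs, add_zero]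
  have h2 : Qf (SU c u x) = Qf (sU u x) + c * dot u (x.2 + crs u x.1) := by
    simp only [Qf, SU, sU, Prod.fst_add, Prod.snd_add, add_zero, add_dot, smul_dot]
  rw [h2, Qf_sU, h1]

lemma Qf_TU (c : F) (u : Fin 3 → F) (x : V6 F) :
    Qf (TU c u x) = Qf x + (dot u x.1) ^ 2 + c * dot u x.1 := by
  have h1 : dot u (x.1 + crs u x.2) = dot u x.1 := by rw [dot_add, dot_crs, add_zero]
  have h2 : Qf (TU c u x) = Qf (tU u x) + c * dot (x.1 + crs u x.2) u := by
    simp only [Qf, TU, tU, Prod.fst_add, Prod.snd_add, add_zero, dot_add, dot_smul]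
  rw [h2, Qf_tU, dot_comm (x.1 + crs u x.2) u, h1]

/-- the trace of `c Q`, as an element of `F` -/
def Nf (c : F) (x : V6 F) : F := (c * Qf x) ^ 2 + c * Qf x

lemma Nf_SU (hF4 : ∀ z : F, z ^ 4 = z) {c : F} (hc : c ^ 3 = 1) (u : Fin 3 → F) (x : V6 F) :
    Nf c (SU c u x) = Nf c x := by
  simp only [Nf, Qf_SU]
  set q := Qf x
  set y := dot u x.2
  have h1 := hF4 y
  linear_combination (c ^ 2) * h1 + (c * y ^ 2) * hc +
    (c ^ 2 * q * y ^ 2 + c ^ 3 * q * y + c ^ 3 * y ^ 3 + c * y ^ 2 + c ^ 2 * y) * two0 (F := F)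

lemma Nf_TU (hF4 : ∀ z : F, z ^ 4 = z) {c : F} (hc : c ^ 3 = 1) (u : Fin 3 → F) (x : V6 F) :
    Nf c (TU c u x) = Nf c x := by
  simp only [Nf, Qf_TU]
  set q := Qf x
  set y := dot u x.1
  have h1 := hF4 y
  linear_combination (c ^ 2) * h1 + (c * y ^ 2) * hc +
    (c ^ 2 * q * y ^ 2 + c ^ 3 * q * y + c ^ 3 * y ^ 3 + c * y ^ 2 + c ^ 2 * y) * two0 (F := F)

/-- a point off the quadric is moved to the origin, and back -/
lemma exists_move0 (hF4 : ∀ z : F, z ^ 4 = z) {w : F} (hw : w ^ 2 + w + 1 = 0) {c : F}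
    (hc : c ^ 3 = 1) {G : (V6 F → V6 F) → Prop} (hG : HexClass G) (y : V6 F) (hy : Nf c y = 0) :
    ∃ g g', G g ∧ G g' ∧ (∀ x, Nf c (g x) = Nf c x) ∧ (∀ x, Nf c (g' x) = Nf c x) ∧
      g 0 = y ∧ g' y = 0 ∧ (∀ z, g (g' z) = z) ∧
      (∀ (d : F) a b, g' (a + d • (a + b)) = g' a + d • (g' a + g' b)) := by
  obtain ⟨k, hk⟩ : ∃ k : F, k ^ 2 * Qf y + c * k = 1 := by
    have h1 : (c * Qf y) * (c * Qf y + 1) = 0 := by
      simp only [Nf] at hy
      linear_combination hy
    rcases mul_eq_zero.1 h1 with h | h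
    · refine ⟨c ^ 2, ?_⟩
      linear_combination (c ^ 3) * h + hc
    · refine ⟨w * c ^ 2, ?_⟩
      have h2 : c * Qf y = 1 := by linear_combination h - two0 (F := F)
      linear_combination (w ^ 2 * c ^ 3) * h2 + (w ^ 2 + w) * hc + hw - two0 (F := F)
  have hS : G (SU c (c ^ 2 • y.1)) := hG.comp (fun x => x + (c • (c ^ 2 • y.1), 0)) _ (hG.tr _) (hG.s _)
  have hT : G (TU c (k • y.2)) := hG.comp (fun x => x + (0, c • (k • y.2))) _ (hG.tr _) (hG.t _)
  have e1 : SU c (c ^ 2 • y.1) 0 = (y.1, 0) := by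
    have : c * c ^ 2 = 1 := by linear_combination hc
    apply Prod.ext
    · simp only [SU, sU, Prod.fst_add, Prod.snd_zero, Prod.fst_zero, zero_add]
      have h0 : dot (c ^ 2 • y.1) (0 : Fin 3 → F) = 0 := by simp [dot]
      rw [h0, zero_smul, zero_add, smul_smul, this, one_smul]
    · simp only [SU, sU, Prod.snd_add, Prod.snd_zero, Prod.fst_zero, zero_add, add_zero]
      funext i
      fin_cases i <;> simp [crs]
  have e2 : TU c (k • y.2) (y.1, 0) = y := by
    apply Prod.ext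
    · simp only [TU, tU, Prod.fst_add, add_zero]
      have : crs (k • y.2) (0 : Fin 3 → F) = 0 := by
        funext i
        fin_cases i <;> simp [crs]
      rw [this, add_zero]
    · simp only [TU, tU, Prod.snd_add, zero_add]
      rw [smul_dot, smul_smul, smul_smul, ← add_smul]
      have : k * dot y.2 y.1 * k + c * k = 1 := by
        rw [dot_comm y.2 y.1]
        change k * Qf y * k + c * k = 1
        linear_combination hk
      rw [this, one_smul]
  refine ⟨TU c (k • y.2) ∘ SU c (c ^ 2 • y.1), SU c (c ^ 2 • y.1) ∘ TU c (k • y.2),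
    hG.comp _ _ hT hS, hG.comp _ _ hS hT, ?_, ?_, ?_, ?_, ?_, ?_⟩
  · intro x
    simp only [Function.comp, Nf_TU hF4 hc, Nf_SU hF4 hc]
  · intro x
    simp only [Function.comp, Nf_TU hF4 hc, Nf_SU hF4 hc]
  · simp only [Function.comp]
    rw [e1, e2]
  · simp only [Function.comp]
    have h1 : TU c (k • y.2) y = (y.1, 0) := by
      have h2 := TU_TU c (k • y.2) (y.1, 0)
      rwa [e2] at h2
    rw [h1, ← e1, SU_SU]
  · intro z
    simp only [Function.comp, SU_SU, TU_TU]
  · intro d a b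
    simp only [Function.comp, SU_aff, TU_aff]

/-! ### `SL_3` -/

/-- what the moves of this section provide -/
def Mv (G : (V6 F → V6 F) → Prop) (x x' : V6 F) : Prop :=
  ∃ g, G g ∧ (∀ z, Qf (g z) = Qf z) ∧ g 0 = 0 ∧ g x = x'

omit [CharP F 2] in
lemma Mv.trans {G : (V6 F → V6 F) → Prop} (hG : HexClass G) {x y z : V6 F} (h : Mv G x y)
    (h' : Mv G y z) : Mv G x z := by
  obtain ⟨g, h1, h2, h3, h4⟩ := h
  obtain ⟨g', h1', h2', h3', h4'⟩ := h'
  exact ⟨g' ∘ g, hG.comp _ _ h1' h1, fun t => by simp only [Function.comp, h2, h2'],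
    by simp only [Function.comp, h3, h3'], by simp only [Function.comp, h4, h4']⟩

omit [CharP F 2] in
lemma eU_zero (a b : Fin 3 → F) : eU a b 0 = 0 := by
  apply Prod.ext
  · simp [eU, dot]
  · simp [eU, dot]

lemma Mv.e {G : (V6 F → V6 F) → Prop} (hG : HexClass G) (a b : Fin 3 → F) (h : dot a b = 0)
    (x : V6 F) : Mv G x (eU a b x) :=
  ⟨eU a b, hG.e a b h, Qf_eU a b h, eU_zero a b, rfl⟩

lemma step_same {G : (V6 F → V6 F) → Prop} (hG : HexClass G) {v w w' : Fin 3 → F}
    (hk : dot v w ≠ 0) (hk' : dot v w' = dot v w) : Mv G (v, w) (v, w') := by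
  have hab : dot ((dot v w)⁻¹ • v) (w + w') = 0 := by
    rw [smul_dot, dot_add, hk', CharTwo.add_self_eq_zero, mul_zero]
  have h := Mv.e hG _ _ hab (v, w)
  have e : eU ((dot v w)⁻¹ • v) (w + w') (v, w) = (v, w') := by
    apply Prod.ext
    · simp only [eU]
      have : dot (w + w') v = 0 := by
        rw [dot_comm, dot_add, hk', CharTwo.add_self_eq_zero]
      rw [this, zero_smul, add_zero]
    · simp only [eU]
      rw [smul_dot, inv_mul_cancel₀ hk, one_smul]
      funext i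
      simp only [Pi.add_apply]
      linear_combination (w i) * two0 (F := F)
  rwa [e] at h

lemma exists_one {v v' : Fin 3 → F} (h : crs v v' ≠ 0) :
    ∃ b : Fin 3 → F, dot b v = 1 ∧ dot b v' = 1 := by
  have h3 : crs v v' 0 ≠ 0 ∨ crs v v' 1 ≠ 0 ∨ crs v v' 2 ≠ 0 := by
    by_contra hcon
    push Not at hcon
    apply h
    funext i
    fin_cases i
    · exact hcon.1
    · exact hcon.2.1
    · exact hcon.2.2
  simp only [crs, Matrix.cons_val_zero, Matrix.cons_val_one, Matrix.cons_val] at h3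
  rcases h3 with h3 | h3 | h3
  · refine ⟨(v 1 * v' 2 + v 2 * v' 1)⁻¹ • ![0, v 2 + v' 2, v 1 + v' 1], ?_, ?_⟩
    · rw [smul_dot]
      simp only [dot, Matrix.cons_val_zero, Matrix.cons_val_one, Matrix.cons_val]
      have e : 0 * v 0 + (v 2 + v' 2) * v 1 + (v 1 + v' 1) * v 2 = v 1 * v' 2 + v 2 * v' 1 := by
        linear_combination (v 1 * v 2) * two0 (F := F)
      rw [e, inv_mul_cancel₀ h3]
    · rw [smul_dot]
      simp only [dot, Matrix.cons_val_zero, Matrix.cons_val_one, Matrix.cons_val]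
      have e : 0 * v' 0 + (v 2 + v' 2) * v' 1 + (v 1 + v' 1) * v' 2 =
          v 1 * v' 2 + v 2 * v' 1 := by
        linear_combination (v' 1 * v' 2) * two0 (F := F)
      rw [e, inv_mul_cancel₀ h3]
  · refine ⟨(v 2 * v' 0 + v 0 * v' 2)⁻¹ • ![v 2 + v' 2, 0, v 0 + v' 0], ?_, ?_⟩
    · rw [smul_dot]
      simp only [dot, Matrix.cons_val_zero, Matrix.cons_val_one, Matrix.cons_val]
      have e : (v 2 + v' 2) * v 0 + 0 * v 1 + (v 0 + v' 0) * v 2 = v 2 * v' 0 + v 0 * v' 2 := by
        linear_combination (v 0 * v 2) * two0 (F := F)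
      rw [e, inv_mul_cancel₀ h3]
    · rw [smul_dot]
      simp only [dot, Matrix.cons_val_zero, Matrix.cons_val_one, Matrix.cons_val]
      have e : (v 2 + v' 2) * v' 0 + 0 * v' 1 + (v 0 + v' 0) * v' 2 =
          v 2 * v' 0 + v 0 * v' 2 := by
        linear_combination (v' 0 * v' 2) * two0 (F := F)
      rw [e, inv_mul_cancel₀ h3]
  · refine ⟨(v 0 * v' 1 + v 1 * v' 0)⁻¹ • ![v 1 + v' 1, v 0 + v' 0, 0], ?_, ?_⟩
    · rw [smul_dot]
      simp only [dot, Matrix.cons_val_zero, Matrix.cons_val_one, Matrix.cons_val]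
      have e : (v 1 + v' 1) * v 0 + (v 0 + v' 0) * v 1 + 0 * v 2 = v 0 * v' 1 + v 1 * v' 0 := by
        linear_combination (v 0 * v 1) * two0 (F := F)
      rw [e, inv_mul_cancel₀ h3]
    · rw [smul_dot]
      simp only [dot, Matrix.cons_val_zero, Matrix.cons_val_one, Matrix.cons_val]
      have e : (v 1 + v' 1) * v' 0 + (v 0 + v' 0) * v' 1 + 0 * v' 2 =
          v 0 * v' 1 + v 1 * v' 0 := by
        linear_combination (v' 0 * v' 1) * two0 (F := F)
      rw [e, inv_mul_cancel₀ h3]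

lemma step_v {G : (V6 F → V6 F) → Prop} (hG : HexClass G) {v v' : Fin 3 → F}
    (h : crs v v' ≠ 0) (w : Fin 3 → F) : ∃ w', Mv G (v, w) (v', w') ∧ dot v' w' = dot v w := by
  obtain ⟨b, hb, hb'⟩ := exists_one h
  have hab : dot (v + v') b = 0 := by
    rw [dot_comm, dot_add, hb, hb', CharTwo.add_self_eq_zero]
  have h1 := Mv.e hG _ _ hab (v, w)
  have e : eU (v + v') b (v, w) = (v', w + dot (v + v') w • b) := by
    apply Prod.ext
    · simp only [eU]
      rw [hb, one_smul]
      funext i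
      simp only [Pi.add_apply]
      linear_combination (v i) * two0 (F := F)
    · simp only [eU]
  have h2 := Qf_eU (v + v') b hab (v, w)
  rw [e] at h1 h2
  exact ⟨_, h1, h2⟩

omit [CharP F 2] in
lemma exists_third {v v' : Fin 3 → F} (hv : v ≠ 0) (hv' : v' ≠ 0) (h : crs v v' = 0) :
    ∃ t, crs v t ≠ 0 ∧ crs t v' ≠ 0 := by
  have c0 : v 1 * v' 2 + v 2 * v' 1 = 0 := by
    have := congrFun h 0
    simpa [crs] using this
  have c1 : v 2 * v' 0 + v 0 * v' 2 = 0 := by
    have := congrFun h 1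
    simpa [crs] using this
  have c2 : v 0 * v' 1 + v 1 * v' 0 = 0 := by
    have := congrFun h 2
    simpa [crs] using this
  have h3 : v 0 ≠ 0 ∨ v 1 ≠ 0 ∨ v 2 ≠ 0 := by
    by_contra hcon
    push Not at hcon
    apply hv
    funext i
    fin_cases i
    · exact hcon.1
    · exact hcon.2.1
    · exact hcon.2.2
  have hz : ∀ u : Fin 3 → F, u 0 = 0 → u 1 = 0 → u 2 = 0 → u = 0 := by
    intro u a b c
    funext i
    fin_cases i
    · exact a
    · exact b
    · exact c
  rcases h3 with h3 | h3 | h3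
  · refine ⟨![0, 1, 0], ?_, ?_⟩
    · intro h4
      have := congrFun h4 2
      simp [crs] at this
      exact h3 this
    · intro h4
      have h5 : v' 0 = 0 := by
        have := congrFun h4 2
        simpa [crs] using this
      rw [h5, mul_zero, zero_add] at c1
      rw [h5, mul_zero, add_zero] at c2
      exact hv' (hz _ h5 ((mul_eq_zero.1 c2).resolve_left h3) ((mul_eq_zero.1 c1).resolve_left h3))
  · refine ⟨![1, 0, 0], ?_, ?_⟩
    · intro h4
      have := congrFun h4 2
      simp [crs] at this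
      exact h3 this
    · intro h4
      have h5 : v' 1 = 0 := by
        have := congrFun h4 2
        simpa [crs] using this
      rw [h5, mul_zero, zero_add] at c2
      rw [h5, mul_zero, add_zero] at c0
      exact hv' (hz _ ((mul_eq_zero.1 c2).resolve_left h3) h5 ((mul_eq_zero.1 c0).resolve_left h3))
  · refine ⟨![1, 0, 0], ?_, ?_⟩
    · intro h4
      have := congrFun h4 1
      simp [crs] at this
      exact h3 this
    · intro h4
      have h5 : v' 2 = 0 := by
        have := congrFun h4 1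
        simpa [crs] using this
      rw [h5, mul_zero, add_zero] at c1
      rw [h5, mul_zero, zero_add] at c0
      exact hv' (hz _ ((mul_eq_zero.1 c1).resolve_left h3) ((mul_eq_zero.1 c0).resolve_left h3) h5)

/-- `SL_3` is transitive on the vectors with a given nonzero value of `Q` -/
lemma sl_move {G : (V6 F → V6 F) → Prop} (hG : HexClass G) {x x' : V6 F} (hx : Qf x ≠ 0)
    (h : Qf x' = Qf x) : Mv G x x' := by
  obtain ⟨v, w⟩ := x
  obtain ⟨v', w'⟩ := x'
  simp only [Qf] at hx h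
  have hv : v ≠ 0 := by
    rintro rfl
    apply hx
    simp [dot]
  have hv' : v' ≠ 0 := by
    rintro rfl
    apply hx
    rw [← h]
    simp [dot]
  have key : ∀ {a b : Fin 3 → F} {p q : Fin 3 → F}, dot a p ≠ 0 → dot b q = dot a p →
      crs a b ≠ 0 → Mv G (a, p) (b, q) := by
    intro a b p q hp hq hab
    obtain ⟨q', hq', hqd⟩ := step_v hG hab p
    exact hq'.trans hG (step_same hG (by rw [hqd]; exact hp) (by rw [hqd]; exact hq))
  by_cases hc : crs v v' = 0
  · obtain ⟨t, ht, ht'⟩ := exists_third hv hv' hc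
    obtain ⟨q, hq, hqd⟩ := step_v hG ht w
    exact hq.trans hG (key (by rw [hqd]; exact hx) (by rw [hqd]; exact h) ht')
  · exact key hx h hc

/-- values of the form and semilinear maps -/
lemma Qf_conj (hF4 : ∀ z : F, z ^ 4 = z) {w : F} (hw : w ^ 2 + w + 1 = 0) {c : F}
    {g0 : V6 F → V6 F} (h0f : ∀ x, Nf c (g0 x) = Nf c x)
    (h0l : ∀ (d : F) x, g0 (d • x) = d ^ 2 • g0 x) (x : V6 F) :
    c * Qf (g0 x) = (c * Qf x) ^ 2 := by
  have hQs : ∀ (d : F) (z : V6 F), Qf (d • z) = d ^ 2 * Qf z := by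
    intro d z
    simp only [Qf, Prod.smul_fst, Prod.smul_snd, dot_smul, smul_dot]
    ring
  have h1 := h0f x
  have h2 := h0f (w • x)
  rw [h0l] at h2
  simp only [Nf, hQs] at h1 h2
  set A := Qf x
  set A' := Qf (g0 x)
  have hw3 : w ^ 3 = 1 := by linear_combination (w + 1) * hw - (w ^ 2 + w + 1) * two0 (F := F)
  have hA := hF4 (c * A)
  have hA' := hF4 (c * A')
  have h3 : w ^ 2 * (c * A') ^ 2 + w * (c * A') = w * (c * A) ^ 2 + w ^ 2 * (c * A) := by
    have e1 : (c * ((w ^ 2) ^ 2 * A')) ^ 2 + c * ((w ^ 2) ^ 2 * A') =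
        w ^ 2 * (c * A') ^ 2 + w * (c * A') := by
      linear_combination ((w ^ 5 + w ^ 2) * (c * A') ^ 2 + w * (c * A')) * hw3
    have e2 : (c * (w ^ 2 * A)) ^ 2 + c * (w ^ 2 * A) = w * (c * A) ^ 2 + w ^ 2 * (c * A) := by
      linear_combination (w * (c * A) ^ 2) * hw3
    rw [e1, e2] at h2
    exact h2
  have h4 : (w + 1) * ((c * A') ^ 2 + c * A) = 0 := by
    have h5 : w * (w * ((c * A') ^ 2 + c * A) + ((c * A) ^ 2 + c * A')) = 0 := by
      linear_combination h3 + (w * (c * A) ^ 2 + w ^ 2 * (c * A)) * two0 (F := F)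
    have hw0 : w ≠ 0 := w_ne_zero hw
    have h6 := (mul_eq_zero.1 h5).resolve_left hw0
    linear_combination h6 + h1 + (c * A - c * A') * two0 (F := F)
  have hw1 : w + 1 ≠ 0 := by
    rw [← w_sq hw]
    exact pow_ne_zero 2 (w_ne_zero hw)
  have h5 := (mul_eq_zero.1 h4).resolve_left hw1
  have h6 : (c * A') ^ 2 = c * A := by linear_combination h5 - (c * A) * two0 (F := F)
  linear_combination (-1 : F) * hA' + ((c * A') ^ 2 + c * A) * h6

theorem g2g_core (hF4 : ∀ z : F, z ^ 4 = z) {w : F} (hw : w ^ 2 + w + 1 = 0) {c : F}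
    (hc : c ^ 3 = 1) {G : (V6 F → V6 F) → Prop} (hG : HexClass G) {g0 : V6 F → V6 F}
    (h0G : G g0) (h0f : ∀ x, Nf c (g0 x) = Nf c x)
    (h0l : ∀ (d : F) x y, g0 (x + d • (x + y)) = g0 x + d ^ 2 • (g0 x + g0 y))
    {x x' y y' : V6 F} (hx : Nf c x = 1) (hx' : Nf c x' = 1) (hy : Nf c y = 0)
    (hy' : Nf c y' = 0) : ∃ g, G g ∧ (∀ z, Nf c (g z) = Nf c z) ∧ g x = x' ∧ g y = y' := by
  -- move `y` and `y'` to the origin
  obtain ⟨_, g1, _, hg1, _, hN1, _, hy1, _, _⟩ := exists_move0 hF4 hw hc hG y hy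
  obtain ⟨g2, g2', hg2, hg2', hN2, hN2', hy2, hy2', hinv2, _⟩ := exists_move0 hF4 hw hc hG y' hy'
  -- a nonlinear map fixing the origin
  obtain ⟨_, g3, _, hg3, _, hN3, _, hy3, _, haff3⟩ := exists_move0 hF4 hw hc hG (g0 0) (by
    rw [h0f]; simp [Nf, Qf, dot])
  have hc0 : c ≠ 0 := by
    rintro rfl
    rw [zero_pow three_ne_zero] at hc
    exact zero_ne_one hc
  have hval : ∀ z, Nf c z = 1 → Qf z ≠ 0 := by
    intro z hz h
    rw [Nf, h] at hz
    simp at hz
  have hx1 : Nf c (g1 x) = 1 := by rw [hN1, hx]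
  have hx2 : Nf c (g2' x') = 1 := by rw [hN2', hx']
  have hMv : ∀ {G : (V6 F → V6 F) → Prop} {a b : V6 F}, Mv G a b →
      ∃ g, G g ∧ (∀ z, Nf c (g z) = Nf c z) ∧ g 0 = 0 ∧ g a = b := by
    intro G a b h
    obtain ⟨g, h1, h2, h3, h4⟩ := h
    exact ⟨g, h1, fun z => by simp only [Nf, h2], h3, h4⟩
  have hcases : c * Qf (g2' x') = c * Qf (g1 x) ∨ c * Qf (g2' x') = (c * Qf (g1 x)) ^ 2 := by
    simp only [Nf] at hx1 hx2
    have h1 : (c * Qf (g2' x') - c * Qf (g1 x)) * (c * Qf (g2' x') - (c * Qf (g1 x)) ^ 2) = 0 := by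
      linear_combination hx2 + (-c * Qf (g2' x') + c * Qf (g1 x) - 1) * hx1 +
        (c * Qf (g1 x) - c * Qf (g2' x')) * two0 (F := F)
    rcases mul_eq_zero.1 h1 with h | h
    · exact Or.inl (sub_eq_zero.1 h)
    · exact Or.inr (sub_eq_zero.1 h)
  rcases hcases with h | h
  · obtain ⟨g4, hg4, hN4, h40, h4⟩ := hMv (sl_move hG (hval _ hx1) (mul_left_cancel₀ hc0 h))
    refine ⟨g2 ∘ g4 ∘ g1, hG.comp _ _ hg2 (hG.comp _ _ hg4 hg1), ?_, ?_, ?_⟩
    · intro z
      simp only [Function.comp, hN2, hN4, hN1]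
    · simp only [Function.comp, h4, hinv2]
    · simp only [Function.comp, hy1, h40, hy2]
  · have hlin : ∀ (d : F) z, (g3 ∘ g0) (d • z) = d ^ 2 • (g3 ∘ g0) z := by
      intro d z
      have e := h0l d 0 z
      rw [zero_add, zero_add] at e
      simp only [Function.comp]
      rw [e, haff3, hy3, zero_add, zero_add]
    have hconj := Qf_conj hF4 hw (c := c) (g0 := g3 ∘ g0)
      (by intro z; simp only [Function.comp, hN3, h0f]) hlin (g1 x)
    rw [← h] at hconj
    have hx3 : Nf c ((g3 ∘ g0) (g1 x)) = 1 := by simp only [Function.comp, hN3, h0f, hx1]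
    obtain ⟨g4, hg4, hN4, h40, h4⟩ := hMv (sl_move hG (hval _ hx3)
      (mul_left_cancel₀ hc0 hconj.symm))
    refine ⟨g2 ∘ g4 ∘ (g3 ∘ g0) ∘ g1,
      hG.comp _ _ hg2 (hG.comp _ _ hg4 (hG.comp _ _ (hG.comp _ _ hg3 h0G) hg1)), ?_, ?_, ?_⟩
    · intro z
      simp only [Function.comp, hN2, hN4, hN3, h0f, hN1]
    · have h5 : g4 ((g3 ∘ g0) (g1 x)) = g2' x' := h4
      change g2 (g4 ((g3 ∘ g0) (g1 x))) = x'
      rw [h5, hinv2]
    · simp only [Function.comp, hy1, hy3, h40, hy2]

/-- **The quadric `Tr(c Q) = 1`.** If `G` contains the translations, the elementary maps and a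
semilinear map `g0` preserving `f = Tr(c Q)` which is not linear, then the maps of `G` preserving
`f` are transitive on the pairs of points with different values. -/
theorem g2g {w : F} (hw : w ^ 2 + w + 1 = 0)
    (hF : ∀ x : F, x = 0 ∨ x = 1 ∨ x = w ∨ x = w + 1) {c : F} (hc0 : c ≠ 0)
    {G : (V6 F → V6 F) → Prop} (hG : HexClass G) {f : V6 F → ZMod 2}
    (hf : ∀ x, io F (f x) = (c * Qf x) ^ 2 + c * Qf x) {g0 : V6 F → V6 F}
    (h0G : G g0) (h0f : ∀ x, f (g0 x) = f x)
    (h0l : ∀ (d : F) x y, g0 (x + d • (x + y)) = g0 x + d ^ 2 • (g0 x + g0 y))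
    {p y p' y' : V6 F} (hp : f p = f p') (hy : f y = f y') (hne : f p ≠ f y) :
    ∃ g, G g ∧ (∀ z, f (g z) = f z) ∧ g p = p' ∧ g y = y' := by
  have hF4 : ∀ z : F, z ^ 4 = z := fun z => pow_four hw hF z
  have hc : c ^ 3 = 1 := by
    have h1 := hF4 c
    have h2 : c * (c ^ 3 - 1) = 0 := by linear_combination h1
    exact sub_eq_zero.1 ((mul_eq_zero.1 h2).resolve_left hc0)
  have hfN : ∀ x y, f x = f y ↔ Nf c x = Nf c y := by
    intro x y
    constructor
    · intro h
      simp only [Nf]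
      rw [← hf, ← hf, h]
    · intro h
      simp only [Nf] at h
      rw [← hf, ← hf] at h
      have h2 : io F (f x + f y) = 0 := by rw [map_add, h, CharTwo.add_self_eq_zero]
      have h3 := io_eq_zero h2
      exact CharTwo.add_eq_zero.1 h3
  have h0N : ∀ x, Nf c (g0 x) = Nf c x := fun x => (hfN _ _).1 (h0f x)
  have hN0 : ∀ x, f x = 0 → Nf c x = 0 := by
    intro x h
    have := hf x
    rw [h, map_zero] at this
    exact this.symm
  have hN1 : ∀ x, f x = 1 → Nf c x = 1 := by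
    intro x h
    have := hf x
    rw [h, map_one] at this
    exact this.symm
  rcases zmod2_cases (f p) with h | h
  · have h' : f y = 1 := (zmod2_cases (f y)).resolve_left (fun h1 => hne (h.trans h1.symm))
    obtain ⟨g, h1, h2, h3, h4⟩ := g2g_core hF4 hw hc hG h0G h0N h0l (hN1 _ h')
      (hN1 _ (hy ▸ h')) (hN0 _ h) (hN0 _ (hp ▸ h))
    exact ⟨g, h1, fun z => (hfN _ _).2 (h2 z), h4, h3⟩
  · have h' : f y = 0 := (zmod2_cases (f y)).resolve_right (fun h1 => hne (h.trans h1.symm))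
    obtain ⟨g, h1, h2, h3, h4⟩ := g2g_core hF4 hw hc hG h0G h0N h0l (hN1 _ h)
      (hN1 _ (hp ▸ h)) (hN0 _ h') (hN0 _ (hy ▸ h'))
    exact ⟨g, h1, fun z => (hfN _ _).2 (h2 z), h3, h4⟩

end Pool.Agent.SIT.Hex
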