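import Pool.Agent.SIT.SpDefs

/-!
# Necessity: quadrics whose symplectic stabiliser is transitive on `γ × γᶜ`
-/

namespace Pool.Agent.SIT

open Finset

section

variable {V : Type*} [AddCommGroup V] [Module (ZMod 2) V]

lemma aff_add {V : Type*} [AddCommGroup V] [Module (ZMod 2) V] (g : V ≃ᵃ[ZMod 2] V) (x a : V) :
    g (x + a) = g x + g.linear a := by
  have := g.map_vadd x a
  rw [vadd_eq_add, vadd_eq_add, add_comm a x, add_comm (g.linear a)] at this
  exact this

/-- `g` preserves the bilinear form `B` (its linear part does) and the function `f`. -/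
def SpPres (B : LinearMap.BilinForm (ZMod 2) V) (f : V → ZMod 2) (g : V ≃ᵃ[ZMod 2] V) : Prop :=
  (∀ x y, B (g.linear x) (g.linear y) = B x y) ∧ ∀ x, f (g x) = f x

variable {B : LinearMap.BilinForm (ZMod 2) V} {f : V → ZMod 2}

lemma SpPres.symm {g : V ≃ᵃ[ZMod 2] V} (h : SpPres B f g) : SpPres B f g.symm := by
  have hl : ∀ x, g.linear (g.symm.linear x) = x := by
    intro x
    exact g.linear.apply_symm_apply x
  constructor
  · intro x y
    rw [← h.1, hl, hl]
  · intro x
    rw [← h.2, g.apply_symm_apply]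

lemma SpPres.rad {g : V ≃ᵃ[ZMod 2] V} (h : SpPres B f g) {a : V} (ha : Rad f a) :
    Rad f (g.linear a) := by
  obtain ⟨c, hc⟩ := ha
  refine ⟨c, ?_⟩
  intro y
  have h1 := hc (g.symm y)
  rw [← h.2, ← h.2 (g.symm y), aff_add, g.apply_symm_apply] at h1
  exact h1

/-- Linear parts are transitive outside the radical. -/
lemma exists_linear
    (hS : ∀ u w u' w' : V, f u = 1 → f w = 1 → f u' = 0 → f w' = 0 →
      ∃ g : V ≃ᵃ[ZMod 2] V, SpPres B f g ∧ g u = w ∧ g u' = w')
    {a b : V} (ha : ¬ Rad f a) (hb : ¬ Rad f b) :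
    ∃ g : V ≃ᵃ[ZMod 2] V, SpPres B f g ∧ g.linear a = b := by
  have key : ∀ a : V, ¬ Rad f a → ∃ p, f p = 1 ∧ f (p + a) = 0 := by
    intro a ha
    obtain ⟨x, hx⟩ : ∃ x, f (x + a) + f x = 1 := by
      by_contra hcon
      push Not at hcon
      apply ha
      refine ⟨0, ?_⟩
      intro x
      rcases zmod2_cases (f (x + a) + f x) with h | h
      · exact h
      · exact absurd h (hcon x)
    rcases zmod2_cases (f x) with h | h
    · refine ⟨x + a, ?_, ?_⟩
      · rw [h, add_zero] at hx
        exact hx
      · rw [add_add_self, h]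
    · refine ⟨x, h, ?_⟩
      rw [h] at hx
      rcases zmod2_cases (f (x + a)) with h' | h'
      · exact h'
      · rw [h'] at hx
        exact absurd hx (by decide)
  obtain ⟨p, hp, hp'⟩ := key a ha
  obtain ⟨q, hq, hq'⟩ := key b hb
  obtain ⟨g, hg, h1, h2⟩ := hS p q (p + a) (q + b) hp hq hp' hq'
  refine ⟨g, hg, ?_⟩
  rw [aff_add, h1] at h2
  exact add_left_cancel h2

/-- If the radical of `f` is not zero, it is coisotropic. -/
lemma coisotropic_of_rad
    (hBn : ∀ x, (∀ y, B x y = 0) → x = 0)
    (hS : ∀ u w u' w' : V, f u = 1 → f w = 1 → f u' = 0 → f w' = 0 →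
      ∃ g : V ≃ᵃ[ZMod 2] V, SpPres B f g ∧ g u = w ∧ g u' = w')
    (hBs : ∀ x y, B x y = B y x)
    {r : V} (hr : Rad f r) (hr0 : r ≠ 0) {a : V} (ha : ∀ t, Rad f t → B a t = 0) : Rad f a := by
  by_contra hcon
  -- a vector outside the radical and outside its perpendicular space
  obtain ⟨y, hy⟩ : ∃ y, B r y ≠ 0 := by
    by_contra h
    push Not at h
    exact hr0 (hBn r h)
  have key : ∀ b, ¬ Rad f b → B b r = 0 := by
    intro b hb
    obtain ⟨g, hg, h1⟩ := exists_linear hS hcon hb
    have h2 := hg.symm.rad hr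
    have h3 := ha _ h2
    have h4 := hg.1 a (g.symm.linear r)
    rw [h3, h1] at h4
    have h5 : g.linear (g.symm.linear r) = r := g.linear.apply_symm_apply r
    rw [h5] at h4
    exact h4
  have hyr : Rad f y := by
    by_contra h
    apply hy
    rw [hBs]
    exact key y h
  have hya : ¬ Rad f (y + a) := by
    intro h
    apply hcon
    obtain ⟨c, hc⟩ := hyr
    obtain ⟨d, hd⟩ := h
    refine ⟨d + c, ?_⟩
    intro x
    have h1 := hd (x + y)
    have h2 := hc x
    have h3 : x + y + (y + a) = x + a := by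
      rw [← add_assoc, add_add_self]
    rw [h3] at h1
    linear_combination h1 + h2 - f (x + y) * (by rfl : (2 : ZMod 2) = 0)
  have h1 := key _ hya
  rw [map_add, LinearMap.add_apply, ha r hr, add_zero, hBs] at h1
  exact hy h1

variable [Fintype V] [DecidableEq V]

/-- If the radical of `f` is zero, the polar form of `f` is `B`. -/
theorem polar_eq_of_rad_zero
    (hBn : ∀ x, (∀ y, B x y = 0) → x = 0) (hBs : ∀ x y, B x y = B y x)
    (hQ : QF f) (hR : ∀ a, Rad f a → a = 0)
    (hcard : (univ.filter (fun x => f x = 1)).card < (univ.filter (fun x => f x = 0)).card)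
    {p : V} (hp : f p = 1)
    (hS : ∀ u w u' w' : V, f u = 1 → f w = 1 → f u' = 0 → f w' = 0 →
      ∃ g : V ≃ᵃ[ZMod 2] V, SpPres B f g ∧ g u = w ∧ g u' = w') :
    ∀ a b x, f (x + a + b) + f (x + a) + f (x + b) + f x = B a b := by
  classical
  -- `B` as an isomorphism onto the dual space
  have hBinj : Function.Injective B := by
    rw [injective_iff_map_eq_zero]
    intro x hx
    apply hBn
    intro y
    rw [hx, LinearMap.zero_apply]
  have hfr : Module.finrank (ZMod 2) V = Module.finrank (ZMod 2) (Module.Dual (ZMod 2) V) :=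
    (Subspace.dual_finrank_eq).symm
  let E : V ≃ₗ[ZMod 2] Module.Dual (ZMod 2) V := LinearEquiv.ofInjectiveOfFinrankEq B hBinj hfr
  have hE : ∀ φ x, B (E.symm φ) x = φ x := by
    intro φ x
    have : E (E.symm φ) = φ := E.apply_symm_apply φ
    exact congrArg (fun ψ : Module.Dual (ZMod 2) V => ψ x) this
  choose φ c hφ using hQ
  -- the map `S` with `φ a = B (S a) ·`
  let S : V → V := fun a => E.symm (φ a)
  have hSB : ∀ a x, B (S a) x = φ a x := fun a x => hE (φ a) x
  have hβ : ∀ a b x, f (x + a + b) + f (x + a) + f (x + b) + f x = φ b a := by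
    intro a b x
    have h1 := hφ b (x + a)
    have h2 := hφ b x
    rw [map_add] at h1
    have h3 : f (x + a + b) + f (x + a) + (f (x + b) + f x) = φ b a := by
      rw [h1, h2]
      linear_combination (φ b x + c b) * (by rfl : (2 : ZMod 2) = 0)
    rw [← h3]
    ring
  have hsymm : ∀ a b, φ a b = φ b a := fun a b => polar_symm (hφ a) (hφ b)
  have hBext : ∀ x y, (∀ z, B x z = B y z) → x = y := by
    intro x y h
    apply hBinj
    ext z
    exact h z
  have hSadd : ∀ a b, S (a + b) = S a + S b := by
    intro a b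
    apply hBext
    intro z
    rw [map_add, LinearMap.add_apply, hSB, hSB, hSB, hsymm, map_add, hsymm z a, hsymm z b]
  have hSself : ∀ a b, B (S a) b = B a (S b) := by
    intro a b
    rw [hSB, hsymm, ← hSB, hBs]
  have hS0 : ∀ a, S a = 0 → a = 0 := by
    intro a ha
    apply hR
    refine ⟨c a, ?_⟩
    intro x
    rw [hφ, ← hSB, ha, map_zero, LinearMap.zero_apply, zero_add]
  have hSinj : Function.Injective S := by
    intro a b h
    have h1 : S (a + b) = 0 := by rw [hSadd, h, add_self']
    have h2 := hS0 _ h1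
    have h3 := add_add_self a b
    rw [h2, zero_add] at h3
    exact h3.symm
  have hSbij : Function.Bijective S := Finite.injective_iff_bijective.1 hSinj
  -- `S` commutes with the linear parts
  have hcomm : ∀ g : V ≃ᵃ[ZMod 2] V, SpPres B f g → ∀ x, S (g.linear x) = g.linear (S x) := by
    intro g hg x
    apply hBext
    intro z
    obtain ⟨y, rfl⟩ := g.linear.surjective z
    rw [hg.1, hSB, hSB]
    have h1 := hβ (g.linear y) (g.linear x) (g 0)
    have h2 := hβ y x 0
    rw [← h1, ← h2, ← hg.2 (0 + y + x), ← hg.2 (0 + y), ← hg.2 (0 + x), ← hg.2 0,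
      aff_add, aff_add, aff_add]
  -- `f (p + S a)` is constant on `{a | f (p + a) = 0}`
  have hconst : ∀ a b, f (p + a) = 0 → f (p + b) = 0 → f (p + S a) = f (p + S b) := by
    intro a b ha hb
    obtain ⟨g, hg, h1, h2⟩ := hS p p (p + a) (p + b) hp hp ha hb
    rw [aff_add, h1] at h2
    have h3 : g.linear a = b := add_left_cancel h2
    rw [← h3, hcomm g hg, ← hg.2 (p + S a), aff_add, h1]
  have hcount : ∀ d, (univ.filter (fun a => f (p + a) = d)).card =
      (univ.filter (fun x => f x = d)).card := by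
    intro d
    apply Finset.card_bij (fun a _ => p + a)
    · intro a ha
      rw [mem_filter] at ha ⊢
      exact ⟨mem_univ _, ha.2⟩
    · intro a _ b _ h
      exact add_left_cancel h
    · intro x hx
      rw [mem_filter] at hx
      exact ⟨p + x, by rw [mem_filter, self_add_add]; exact ⟨mem_univ _, hx.2⟩,
        self_add_add p x⟩
  have hcountS : ∀ d, (univ.filter (fun a => f (p + S a) = d)).card =
      (univ.filter (fun a => f (p + a) = d)).card := by
    intro d
    apply Finset.card_bij (fun a _ => S a)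
    · intro a ha
      rw [mem_filter] at ha ⊢
      exact ⟨mem_univ _, ha.2⟩
    · intro a _ b _ h
      exact hSinj h
    · intro x hx
      rw [mem_filter] at hx
      obtain ⟨a, rfl⟩ := hSbij.2 x
      exact ⟨a, by rw [mem_filter]; exact ⟨mem_univ _, hx.2⟩, rfl⟩
  have hzero : ∀ a, f (p + a) = 0 → f (p + S a) = 0 := by
    intro a ha
    rcases zmod2_cases (f (p + S a)) with h | h
    · exact h
    exfalso
    have hsub : univ.filter (fun b => f (p + b) = 0) ⊆ univ.filter (fun b => f (p + S b) = 1) := by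
      intro b hb
      rw [mem_filter] at hb ⊢
      exact ⟨mem_univ _, by rw [← hconst a b ha hb.2, h]⟩
    have h1 := Finset.card_le_card hsub
    rw [hcountS, hcount, hcount] at h1
    omega
  have hpres : ∀ a, f (p + S a) = f (p + a) := by
    have hsub : univ.filter (fun b => f (p + b) = 0) ⊆ univ.filter (fun b => f (p + S b) = 0) := by
      intro b hb
      rw [mem_filter] at hb ⊢
      exact ⟨mem_univ _, hzero b hb.2⟩
    have heq := Finset.eq_of_subset_of_card_le hsub (by rw [hcountS])
    intro a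
    have h1 : f (p + a) = 0 ↔ f (p + S a) = 0 := by
      have h2 : a ∈ univ.filter (fun b => f (p + b) = 0) ↔
          a ∈ univ.filter (fun b => f (p + S b) = 0) := by rw [heq]
      rw [mem_filter, mem_filter] at h2
      simpa using h2
    rcases zmod2_cases (f (p + a)) with h | h
    · rw [h]
      exact h1.1 h
    · rcases zmod2_cases (f (p + S a)) with h' | h'
      · rw [h1.2 h'] at h
        exact absurd h (by decide)
      · rw [h, h']
  -- polarise
  have hSS : ∀ a b, B (S (S a)) (S b) = B (S a) b := by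
    intro a b
    have h1 := hβ (S b) (S a) p
    have h2 := hβ b a p
    have h3 : p + S b + S a = p + S (b + a) := by rw [hSadd, add_assoc]
    rw [h3, hpres, hpres, hpres, ← add_assoc, h2] at h1
    rw [hSB, hSB]
    exact h1.symm
  have hS2 : ∀ a, S (S a) = a := by
    intro a
    apply hSinj
    apply hBext
    intro z
    rw [hSself, hSS]
  -- `S a = a`
  have hfix : ∀ a, S a = a := by
    by_contra hcon
    push Not at hcon
    obtain ⟨a, ha⟩ := hcon
    have ha1 : S a + a ≠ 0 := by
      intro h
      apply ha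
      have := add_add_self (S a) a
      rw [h, zero_add] at this
      exact this.symm
    have ha2 : S (S a + a) = S a + a := by
      rw [hSadd, hS2, add_comm]
    have ha0 : a ≠ 0 := by
      rintro rfl
      apply ha1
      rw [add_zero]
      have := hSadd 0 0
      rw [add_zero, add_self'] at this
      exact this
    obtain ⟨g, hg, h1⟩ := exists_linear hS (fun h => ha1 (hR _ h)) (fun h => ha0 (hR _ h))
    apply ha
    rw [← h1, hcomm g hg, ha2]
  intro a b x
  rw [hβ, hsymm, ← hSB, hfix]

/-- The affine symplectic stabiliser of a quadric is transitive on `γ × γᶜ` only if the period is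
coisotropic or the polar form is `B`. -/
theorem sp_nec (hB : Symp B) {f : V → ZMod 2} (hQ : QF f)
    (hT : ∀ a, Rad f a → ∀ x, f (x + a) = f x)
    (hcard : (univ.filter (fun x => f x = 1)).card < (univ.filter (fun x => f x = 0)).card)
    (hne : ∃ x, f x = 1)
    (htr : ∀ u w u' w', f u = 1 → f w = 1 → f u' = 0 → f w' = 0 →
      ∃ g : V ≃ᵃ[ZMod 2] V, PB B g ∧ (∀ x, f (g x) = f x) ∧ g u = w ∧ g u' = w') :
    (∀ a, (∀ b, (∀ x, f (x + b) = f x) → B a b = 0) → ∀ x, f (x + a) = f x) ∨
      (∀ a b x, f (x + a + b) + f (x + a) + f (x + b) + f x = B a b) := by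
  have hS : ∀ u w u' w' : V, f u = 1 → f w = 1 → f u' = 0 → f w' = 0 →
      ∃ g : V ≃ᵃ[ZMod 2] V, SpPres B f g ∧ g u = w ∧ g u' = w' := by
    intro u w u' w' h1 h2 h3 h4
    obtain ⟨g, h5, h6, h7, h8⟩ := htr u w u' w' h1 h2 h3 h4
    exact ⟨g, ⟨h5, h6⟩, h7, h8⟩
  by_cases hR : ∀ a, Rad f a → a = 0
  · right
    obtain ⟨p, hp⟩ := hne
    exact polar_eq_of_rad_zero hB.nd hB.symm hQ hR hcard hp hS
  · left
    push Not at hR
    obtain ⟨r, hr, hr0⟩ := hR
    intro a ha
    apply hT
    apply coisotropic_of_rad hB.nd hS hB.symm hr hr0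
    intro t ht
    exact ha t (hT t ht)

end

end Pool.Agent.SIT
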