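import Pool.Agent.SIT.Converse
import Pool.Agent.SIT.Coords

/-!
# Symplectic maps: transitivity on independent isotropic tuples, by transvections
-/

namespace Pool.Agent.SIT

open Finset

section witt

variable {V : Type*} [AddCommGroup V] [Module (ZMod 2) V]
  {B : V →ₗ[ZMod 2] V →ₗ[ZMod 2] ZMod 2}

lemma symp_symm (halt : ∀ x, B x x = 0) (x y : V) : B x y = B y x := by
  have h := halt (x + y)
  simp only [map_add, LinearMap.add_apply, halt, zero_add, add_zero] at h
  generalize B x y = p at *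
  generalize B y x = q at *
  revert p q
  decide

/-- The transvection `x ↦ x + B d x • d` is an isometry of `B`. -/
lemma symp_tvLin (halt : ∀ x, B x x = 0) (d x y : V) :
    B (tvLin (B d) d (halt d) x) (tvLin (B d) d (halt d) y) = B x y := by
  change B (x + B d x • d) (y + B d y • d) = B x y
  simp only [map_add, map_smul, LinearMap.add_apply, LinearMap.smul_apply, smul_eq_mul]
  rw [halt d, symp_symm halt x d]
  have h2 : (2 : ZMod 2) = 0 := rfl
  linear_combination (B d x * B d y) * h2

lemma tvLin_apply (φ : Module.Dual (ZMod 2) V) (d : V) (h : φ d = 0) (x : V) :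
    tvLin φ d h x = x + φ x • d := rfl

/-- A nonzero functional on the orthogonal space of a finite family. -/
lemma exists_orth {p : ℕ} (hnd : ∀ x, (∀ y, B x y = 0) → x = 0) (d : Fin p → V) {v : V}
    (hv : v ∉ Submodule.span (ZMod 2) (Set.range d)) : ∃ z, (∀ i, B (d i) z = 0) ∧ B v z = 1 := by
  by_contra hcon
  push Not at hcon
  apply hv
  have h1 : B v ∈ Submodule.span (ZMod 2) (Set.range fun i => B (d i)) := by
    apply mem_span_of_iInf_ker_le_ker
    intro z hz
    rw [Submodule.mem_iInf] at hz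
    rw [LinearMap.mem_ker]
    rcases zmod2_cases (B v z) with h | h
    · exact h
    · exact absurd h (hcon z fun i => LinearMap.mem_ker.1 (hz i))
  have h2 : Set.range (fun i => B (d i)) = B '' Set.range d := by
    rw [← Set.range_comp]
    rfl
  rw [h2, ← Submodule.map_span] at h1
  obtain ⟨w, hw, hw'⟩ := h1
  have h3 : w = v := by
    rw [← sub_eq_zero]
    apply hnd
    intro y
    rw [map_sub, hw', sub_self]
    rfl
  rw [← h3]
  exact hw

/-- One move: an isometry fixes the `d i` and moves `v` to `v'`. -/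
lemma exists_move {p : ℕ} (halt : ∀ x, B x x = 0) (hnd : ∀ x, (∀ y, B x y = 0) → x = 0)
    (d : Fin p → V) {v v' : V} (hv : v ∉ Submodule.span (ZMod 2) (Set.range d))
    (hv' : v' ∉ Submodule.span (ZMod 2) (Set.range d)) (hd : ∀ i, B (d i) v = 0)
    (hd' : ∀ i, B (d i) v' = 0) :
    ∃ g : V ≃ₗ[ZMod 2] V, (∀ x y, B (g x) (g y) = B x y) ∧ (∀ i, g (d i) = d i) ∧ g v = v' := by
  have step : ∀ a b : V, (∀ i, B (d i) a = 0) → (∀ i, B (d i) b = 0) → B a b = 1 →
      ∃ g : V ≃ₗ[ZMod 2] V, (∀ x y, B (g x) (g y) = B x y) ∧ (∀ i, g (d i) = d i) ∧ g a = b := by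
    intro a b ha hb hab
    refine ⟨tvLin (B (a + b)) (a + b) (halt _), symp_tvLin halt _, fun i => ?_, ?_⟩
    · rw [tvLin_apply, map_add, LinearMap.add_apply, symp_symm halt a, symp_symm halt b, ha, hb,
        add_zero, zero_smul, add_zero]
    · rw [tvLin_apply, map_add, LinearMap.add_apply, halt, symp_symm halt b a, hab, zero_add,
        one_smul, self_add_add]
  obtain ⟨z, hz, hz1, hz2⟩ : ∃ z, (∀ i, B (d i) z = 0) ∧ B v z = 1 ∧ B v' z = 1 := by
    obtain ⟨z₁, h1, h2⟩ := exists_orth hnd d hv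
    obtain ⟨z₂, h3, h4⟩ := exists_orth hnd d hv'
    rcases zmod2_cases (B v' z₁) with h5 | h5
    · rcases zmod2_cases (B v z₂) with h6 | h6
      · refine ⟨z₁ + z₂, fun i => by rw [map_add, h1, h3, add_zero], ?_, ?_⟩
        · rw [map_add, h2, h6, add_zero]
        · rw [map_add, h4, h5, zero_add]
      · exact ⟨z₂, h3, h6, h4⟩
    · exact ⟨z₁, h1, h2, h5⟩
  obtain ⟨g₁, h1, h2, h3⟩ := step v z hd hz hz1
  obtain ⟨g₂, h4, h5, h6⟩ := step z v' hz hd' (by rw [symp_symm halt]; exact hz2)
  exact ⟨g₁.trans g₂, fun x y => by rw [LinearEquiv.trans_apply, LinearEquiv.trans_apply, h4, h1],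
    fun i => by rw [LinearEquiv.trans_apply, h2, h5],
    by rw [LinearEquiv.trans_apply, h3, h6]⟩

/-- **Witt's theorem** for independent isotropic tuples. -/
theorem exists_isom (halt : ∀ x, B x x = 0) (hnd : ∀ x, (∀ y, B x y = 0) → x = 0) :
    ∀ (p : ℕ) (u u' : Fin p → V), LinearIndependent (ZMod 2) u → LinearIndependent (ZMod 2) u' →
      (∀ i j, B (u i) (u j) = 0) → (∀ i j, B (u' i) (u' j) = 0) →
      ∃ g : V ≃ₗ[ZMod 2] V, (∀ x y, B (g x) (g y) = B x y) ∧ ∀ i, g (u i) = u' i := by
  intro p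
  induction p with
  | zero =>
    intro u u' _ _ _ _
    exact ⟨LinearEquiv.refl _ _, fun x y => rfl, fun i => i.elim0⟩
  | succ p ih =>
    intro u u' hu hu' hB hB'
    rw [linearIndependent_fin_succ'] at hu hu'
    obtain ⟨g₁, h1, h2⟩ := ih (Fin.init u) (Fin.init u') hu.1 hu'.1 (fun i j => hB _ _)
      (fun i j => hB' _ _)
    have hnot : g₁ (u (Fin.last p)) ∉ Submodule.span (ZMod 2) (Set.range (Fin.init u')) := by
      intro h3
      apply hu.2
      have h4 : Set.range (Fin.init u') = g₁ '' Set.range (Fin.init u) := by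
        rw [← Set.range_comp]
        congr 1
        funext i
        exact (h2 i).symm
      rw [h4, ← LinearEquiv.coe_coe, ← Submodule.map_span] at h3
      obtain ⟨w, hw, hw'⟩ := h3
      have h5 : w = u (Fin.last p) := g₁.injective hw'
      rw [← h5]
      exact hw
    obtain ⟨g₂, h3, h4, h5⟩ := exists_move halt hnd (Fin.init u') hnot hu'.2
      (fun i => by rw [← h2 i, h1]; exact hB _ _) (fun i => hB' _ _)
    refine ⟨g₁.trans g₂, fun x y => by
      rw [LinearEquiv.trans_apply, LinearEquiv.trans_apply, h3, h1], fun i => ?_⟩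
    rw [LinearEquiv.trans_apply]
    refine Fin.lastCases ?_ (fun j => ?_) i
    · exact h5
    · have h6 := h2 j
      have h7 := h4 j
      simp only [Fin.init] at h6 h7
      rw [h6, h7]

end witt

end Pool.Agent.SIT
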