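import Pool.Agent.SIT.SpDefs
import Pool.Agent.SIT.SpWitt

/-!
# Coisotropic quadrics which are affinely equivalent are equivalent under `ASp`
-/

namespace Pool.Agent.SIT

open Finset

variable {V : Type*} [AddCommGroup V] [Module (ZMod 2) V] [FiniteDimensional (ZMod 2) V]
  {B : LinearMap.BilinForm (ZMod 2) V}

/-- the orthogonal of the orthogonal of `W` is `W` -/
lemma mem_of_orth (hB : Symp B) {W : Submodule (ZMod 2) V} {z : V}
    (h : ∀ a, (∀ w ∈ W, B a w = 0) → B a z = 0) : z ∈ W := by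
  by_contra hz
  obtain ⟨φ, h1, h2⟩ := Submodule.exists_dual_map_eq_bot_of_notMem hz inferInstance
  obtain ⟨a, ha⟩ := exists_repr hB φ
  apply h1
  rw [← ha]
  apply h
  intro w hw
  rw [ha]
  have h3 : φ w ∈ W.map φ := ⟨w, hw, rfl⟩
  rw [h2] at h3
  exact (Submodule.mem_bot _).1 h3

/-- Every linear map which moves the coisotropic subspace `W` to the coisotropic subspace `W'` is
symplectic modulo `W'`. -/
theorem lift_iso (hB : Symp B) {W W' : Submodule (ZMod 2) V} (hW : Coiso B W) (hW' : Coiso B W')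
    (h : V ≃ₗ[ZMod 2] V) (hh : ∀ x, h x ∈ W' ↔ x ∈ W) :
    ∃ g : V ≃ₗ[ZMod 2] V, PL B g ∧ ∀ x, g x + h x ∈ W' := by
  classical
  let U : Submodule (ZMod 2) V :=
    { carrier := {a | ∀ w ∈ W, B a w = 0}
      zero_mem' := fun w _ => by rw [map_zero]; rfl
      add_mem' := fun ha hb w hw => by rw [map_add, LinearMap.add_apply, ha w hw, hb w hw, add_zero]
      smul_mem' := fun c a ha w hw => by rw [map_smul, LinearMap.smul_apply, ha w hw, smul_zero] }
  have hU : ∀ a, a ∈ U ↔ ∀ w ∈ W, B a w = 0 := fun a => Iff.rfl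
  let b := Module.finBasis (ZMod 2) U
  set n := Module.finrank (ZMod 2) U
  let u : Fin n → V := fun i => (b i : V)
  have hu : LinearIndependent (ZMod 2) u :=
    b.linearIndependent.map' U.subtype (Submodule.ker_subtype U)
  have huW : ∀ i, u i ∈ U := fun i => (b i).2
  have hex : ∀ i, ∃ z, ∀ x, B z x = B (u i) (h.symm x) := fun i =>
    exists_repr hB ((B (u i)).comp (h.symm : V →ₗ[ZMod 2] V))
  choose u' hu' using hex
  have hu'W : ∀ i, ∀ w ∈ W', B (u' i) w = 0 := by
    intro i w hw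
    rw [hu']
    apply huW i
    rw [← hh, h.apply_symm_apply]
    exact hw
  have hsum : ∀ (c : Fin n → ZMod 2) (y : V),
      B (∑ i, c i • u' i) y = B (∑ i, c i • u i) (h.symm y) := by
    intro c y
    rw [map_sum, map_sum, LinearMap.sum_apply, LinearMap.sum_apply]
    refine sum_congr rfl fun i _ => ?_
    rw [map_smul, map_smul, LinearMap.smul_apply, LinearMap.smul_apply, hu']
  have hind' : LinearIndependent (ZMod 2) u' := by
    rw [Fintype.linearIndependent_iff] at hu ⊢
    intro c hc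
    apply hu
    apply hB.nd
    intro y
    have h1 := hsum c (h y)
    rw [hc, map_zero, h.symm_apply_apply] at h1
    rw [← h1]
    rfl
  obtain ⟨g, hg, hgu⟩ := exists_isom hB.alt hB.nd n u u' hu hind'
    (fun i j => huW i _ (hW _ (huW j))) (fun i j => hu'W i _ (hW' _ (hu'W j)))
  refine ⟨g, hg, fun x => ?_⟩
  set y := g x + h x with hy
  have h1 : ∀ i, B (u i) (h.symm y) = 0 := by
    intro i
    rw [← hu', hy, map_add, hu' i (h x), h.symm_apply_apply, ← hgu i, hg]
    exact CharTwo.add_self_eq_zero _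
  have h2 : h.symm y ∈ W := by
    apply mem_of_orth hB
    intro a ha
    have ha' : a ∈ U := ha
    have h3 : (⟨a, ha'⟩ : U) = ∑ i, b.repr ⟨a, ha'⟩ i • b i := (b.sum_repr _).symm
    have h4 : a = ∑ i, b.repr ⟨a, ha'⟩ i • u i := by
      have h5 := congrArg U.subtype h3
      rw [map_sum] at h5
      simp only [map_smul] at h5
      exact h5
    rw [h4, map_sum, LinearMap.sum_apply]
    refine sum_eq_zero fun i _ => ?_
    rw [map_smul, LinearMap.smul_apply, h1, smul_zero]
  rw [← hh, h.apply_symm_apply] at h2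
  exact h2

/-- Every automorphism of `V / W`, `W` coisotropic, is induced by a symplectic map. -/
theorem lift_coiso (hB : Symp B) {W : Submodule (ZMod 2) V} (hW : Coiso B W)
    (h : V ≃ₗ[ZMod 2] V) (hh : ∀ x, h x ∈ W ↔ x ∈ W) :
    ∃ g : V ≃ₗ[ZMod 2] V, PL B g ∧ ∀ x, g x + h x ∈ W :=
  lift_iso hB hW hW h hh

/-- The period of `f`. -/
def perSub (f : V → ZMod 2) : Submodule (ZMod 2) V where
  carrier := {b | ∀ x, f (x + b) = f x}
  zero_mem' := fun x => by rw [add_zero]
  add_mem' := fun ha hb x => by rw [← add_assoc, hb, ha]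
  smul_mem' := fun c a ha x => by
    rcases zmod2_cases c with rfl | rfl
    · rw [zero_smul, add_zero]
    · rw [one_smul]; exact ha x

omit [FiniteDimensional (ZMod 2) V] in
lemma mem_perSub {f : V → ZMod 2} {b : V} : b ∈ perSub f ↔ ∀ x, f (x + b) = f x := Iff.rfl

/-- L9 of doc S/MP_4a5c4b_ASP_42. -/
theorem sp_orb (hB : Symp B) {f f' : V → ZMod 2}
    (hco : ∀ a, (∀ b, (∀ x, f (x + b) = f x) → B a b = 0) → ∀ x, f (x + a) = f x)
    (hco' : ∀ a, (∀ b, (∀ x, f' (x + b) = f' x) → B a b = 0) → ∀ x, f' (x + a) = f' x)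
    (g₀ : V ≃ᵃ[ZMod 2] V) (hg₀ : ∀ x, f' (g₀ x) = f x) :
    ∃ g : V ≃ᵃ[ZMod 2] V, PB B g ∧ ∀ x, f' (g x) = f x := by
  have hh : ∀ x, g₀.linear x ∈ perSub f' ↔ x ∈ perSub f := by
    intro b
    rw [mem_perSub, mem_perSub]
    constructor
    · intro h1 x
      rw [← hg₀, ← hg₀, agl_linear g₀ (x + b), map_add, add_right_comm, h1, ← agl_linear]
    · intro h1 x
      obtain ⟨y, rfl⟩ := g₀.surjective x
      rw [hg₀, ← h1 y, ← hg₀, agl_linear g₀ (y + b), map_add, add_right_comm, ← agl_linear]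
  obtain ⟨g, hg, hg'⟩ := lift_iso hB (W := perSub f) (W' := perSub f') (fun a ha => hco a ha)
    (fun a ha => hco' a ha) g₀.linear hh
  refine ⟨g.toAffineEquiv.trans (AffineEquiv.constVAdd (ZMod 2) V (g₀ 0)), fun x y => hg x y,
    fun x => ?_⟩
  change f' (g₀ 0 + g x) = f x
  rw [← hg₀ x, agl_linear g₀ x]
  have h1 := mem_perSub.1 (hg' x) (g₀ 0 + g x)
  rw [← h1]
  congr 1
  rw [← add_assoc, add_assoc (g₀ 0), add_self', add_zero, add_comm]

end Pool.Agent.SIT
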