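import Pool.Agent.SIT.SpStd
import Pool.Agent.SIT.SpNec
import Pool.Agent.SIT.SpOrb
import Pool.Agent.SIT.SpSuf

/-!
# Strongly incidence-transitive codes of the affine symplectic group `ASp(2r, 2)`
-/

namespace Pool.Agent.SIT

open Finset

/-! ### general lemmas on codes -/

/-- A codeword of a `G`-SIT code is strongly incidence-transitive. -/
lemma sitSet_of_code {n k : ℕ} {G : Subgroup (AGL n)} {C : Set (Finset (Vec n))}
    (hC : IsSITCode G k C) {γ : Finset (Vec n)} (hγ : γ ∈ C) : SITSet γ := by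
  intro u hu u' hu' w hw w' hw'
  obtain ⟨g, _, h1, h2, h3⟩ := hC.transitive γ hγ u hu u' hu' γ hγ w hw w' hw'
  exact ⟨g.toEquiv, isAff_agl g, (act_eq_iff g γ γ).1 h1, h2, h3⟩

/-- All codewords of a `G`-SIT code are images of one of them. -/
lemma codeword_image {n k : ℕ} {G : Subgroup (AGL n)} {C : Set (Finset (Vec n))}
    (hC : IsSITCode G k C) {γ δ : Finset (Vec n)} (hγ : γ ∈ C) (hδ : δ ∈ C)
    (hk1 : 1 ≤ k) (hk2 : k < 2 ^ n) : ∃ g ∈ G, act g γ = δ := by
  have h1 := hC.card_eq γ hγ
  have h2 := hC.card_eq δ hδ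
  obtain ⟨u, hu⟩ : γ.Nonempty := by rw [← Finset.card_pos]; omega
  obtain ⟨w, hw⟩ : δ.Nonempty := by rw [← Finset.card_pos]; omega
  obtain ⟨u', hu'⟩ := exists_notMem_of_card h1 hk2
  obtain ⟨w', hw'⟩ := exists_notMem_of_card h2 hk2
  obtain ⟨g, hg, h3, _⟩ := hC.transitive γ hγ u hu u' hu' δ hδ w hw w' hw'
  exact ⟨g, hg, h3⟩

lemma isSIT_of {n k : ℕ} {G : Subgroup (AGL n)} {C : Set (Finset (Vec n))}
    (hcard : ∀ γ ∈ C, γ.card = k) (hinv : ∀ g ∈ G, ∀ γ ∈ C, act g γ ∈ C)
    (horb : ∀ γ ∈ C, ∀ δ ∈ C, ∃ g ∈ G, act g γ = δ)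
    (hst : ∀ γ ∈ C, ∀ u ∈ γ, ∀ u' ∉ γ, ∀ w ∈ γ, ∀ w' ∉ γ,
      ∃ g ∈ G, act g γ = γ ∧ g u = w ∧ g u' = w') :
    IsSITCode G k C := by
  refine ⟨hcard, hinv, ?_⟩
  intro γ hγ u hu u' hu' δ hδ w hw w' hw'
  obtain ⟨g₁, hg₁, rfl⟩ := horb γ hγ δ hδ
  obtain ⟨g₂, hg₂, h1, h2, h3⟩ := hst _ hδ (g₁ u) ((mem_act _ _ _).2 hu) (g₁ u')
    (fun h => hu' ((mem_act _ _ _).1 h)) w hw w' hw'
  exact ⟨g₂ * g₁, G.mul_mem hg₂ hg₁, by rw [act_mul, h1], h2, h3⟩

/-- Translations move a proper nonempty subset. -/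
lemma nontrivial_of_trans {n : ℕ} {C : Set (Finset (Vec n))}
    (hC : ∀ t : Vec n, ∀ γ ∈ C, act (AffineEquiv.constVAdd (ZMod 2) (Vec n) t) γ ∈ C)
    {γ : Finset (Vec n)} (hγ : γ ∈ C) {u u' : Vec n} (hu : u ∈ γ) (hu' : u' ∉ γ) :
    C.Nontrivial := by
  refine ⟨γ, hγ, act (AffineEquiv.constVAdd (ZMod 2) (Vec n) (u + u')) γ, hC _ γ hγ, ?_⟩
  intro h
  apply hu'
  rw [h]
  have h1 := (mem_act (AffineEquiv.constVAdd (ZMod 2) (Vec n) (u + u')) γ u).2 hu
  have h2 : (AffineEquiv.constVAdd (ZMod 2) (Vec n) (u + u')) u = u' := by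
    change (u + u') + u = u'
    have := add_self' u
    calc u + u' + u = u' + (u + u) := by abel
      _ = u' := by rw [this, add_zero]
  rw [h2] at h1
  exact h1

lemma ind_eq_zero {V : Type*} [DecidableEq V] {γ : Finset V} {x : V} :
    ind γ x = 0 ↔ x ∉ γ := by
  rw [ind]
  split_ifs with h
  · simp [h]
  · simp [h]

lemma ind_act_iff {n : ℕ} (g : AGL n) (γ δ : Finset (Vec n)) :
    (∀ x, ind δ (g x) = ind γ x) ↔ act g γ = δ := by
  rw [act_eq_iff]
  constructor
  · intro h x
    rw [← ind_eq_one, h x, ind_eq_one]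
  · intro h x
    by_cases hx : x ∈ γ
    · rw [ind_eq_one.2 hx, ind_eq_one.2 ((h x).2 hx)]
    · rw [ind_eq_zero.2 hx, ind_eq_zero.2 (fun h' => hx ((h x).1 h'))]

lemma ind_act {n : ℕ} (g : AGL n) (γ : Finset (Vec n)) (x : Vec n) :
    ind (act g γ) (g x) = ind γ x := (ind_act_iff g γ _).2 rfl x

lemma ind_act' {n : ℕ} (g : AGL n) (γ : Finset (Vec n)) (x : Vec n) :
    ind (act g γ) x = ind γ (g.symm x) := by
  rw [← ind_act g γ, g.apply_symm_apply]

lemma isPeriod_iff {n : ℕ} {γ : Finset (Vec n)} {b : Vec n} :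
    IsPeriod γ b ↔ ∀ x, ind γ (x + b) = ind γ x := by
  constructor
  · intro h x
    by_cases hx : x ∈ γ
    · rw [ind_eq_one.2 hx, ind_eq_one.2 ((h x).2 hx)]
    · rw [ind_eq_zero.2 hx, ind_eq_zero.2 (fun h' => hx ((h x).1 h'))]
  · intro h x
    rw [← ind_eq_one, h x, ind_eq_one]

lemma agl_add {n : ℕ} (g : AGL n) (x a : Vec n) : g (x + a) = g x + g.linear a := by
  rw [agl_linear g (x + a), agl_linear g x, map_add]
  abel

lemma isPeriod_act {n : ℕ} (g : AGL n) {γ : Finset (Vec n)} {b : Vec n} :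
    IsPeriod (act g γ) (g.linear b) ↔ IsPeriod γ b := by
  constructor
  · intro h x
    have h1 := h (g x)
    rw [mem_act, agl_linear g x, add_right_comm, ← map_add, ← agl_linear, mem_act] at h1
    exact h1
  · intro h y
    obtain ⟨x, rfl⟩ := g.surjective y
    rw [mem_act, agl_linear g x, add_right_comm, ← map_add, ← agl_linear, mem_act]
    exact h x

/-! ### quadric cylinders -/

section quadric

variable {n m : ℕ} {h : 2 * m ≤ n} {γ : Finset (Vec n)}

lemma code_form (hγ : γ ∈ QuadricCode h) : ∃ e : AGL n, ∀ x, ind γ (e x) = quadForm h x := by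
  obtain ⟨g, rfl⟩ := hγ
  refine ⟨g, fun x => ?_⟩
  rw [ind_act, ind]
  split_ifs with hx
  · exact ((mem_quadric h).1 hx).symm
  · rcases zmod2_cases (quadForm h x) with h1 | h1
    · exact h1.symm
    · exact absurd ((mem_quadric h).2 h1) hx

lemma code_mk {e : AGL n} (he : ∀ x, ind γ (e x) = quadForm h x) : γ ∈ QuadricCode h := by
  refine ⟨e, ?_⟩
  ext x
  rw [mem_act', mem_quadric, ← he, e.apply_symm_apply, ind_eq_one]

lemma code_act (hγ : γ ∈ QuadricCode h) (g : AGL n) : act g γ ∈ QuadricCode h := by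
  obtain ⟨a, rfl⟩ := hγ
  exact ⟨g * a, by rw [act_mul]⟩

lemma code_QF (hγ : γ ∈ QuadricCode h) : QF (ind γ) := by
  obtain ⟨e, he⟩ := code_form hγ
  intro a
  obtain ⟨φ, c, hφ⟩ := quadForm_QF h (e.symm.linear a)
  refine ⟨φ.comp (e.symm.linear : Vec n →ₗ[ZMod 2] Vec n), φ (e.symm 0) + c, fun x => ?_⟩
  have h1 := hφ (e.symm x)
  have h2 : e.symm x + e.symm.linear a = e.symm (x + a) := by
    rw [agl_linear e.symm x, agl_linear e.symm (x + a), map_add]
    abel
  rw [h2, ← he, ← he, e.apply_symm_apply, e.apply_symm_apply] at h1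
  rw [h1, agl_linear e.symm x, map_add, add_assoc]
  rfl

lemma code_rad (hγ : γ ∈ QuadricCode h) (a : Vec n) (ha : Rad (ind γ) a) :
    ∀ x, ind γ (x + a) = ind γ x := by
  obtain ⟨e, he⟩ := code_form hγ
  obtain ⟨c, hc⟩ := ha
  have h2 : ∀ y, e (y + e.linear.symm a) = e y + a := by
    intro y
    rw [agl_linear e (y + e.linear.symm a), map_add, e.linear.apply_symm_apply, agl_linear e y]
    abel
  have h1 := quadForm_rad h (e.linear.symm a) ⟨c, fun y => by
    rw [← he, ← he, h2]
    exact hc (e y)⟩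
  intro x
  obtain ⟨y, rfl⟩ := e.surjective x
  rw [← h2, he, he, h1]

lemma filter_ind_one : univ.filter (fun x => ind γ x = 1) = γ := by
  ext x
  rw [mem_filter, ind_eq_one]
  exact ⟨fun h => h.2, fun h => ⟨mem_univ _, h⟩⟩

lemma card_filter_ind_zero :
    (univ.filter (fun x => ind γ x = 1)).card + (univ.filter (fun x => ind γ x = 0)).card =
      2 ^ n := by
  have h5 := Finset.card_filter_add_card_filter_not (s := (univ : Finset (Vec n)))
    (fun x => ind γ x = 1)
  have h6 : univ.filter (fun x => ¬ ind γ x = 1) = univ.filter (fun x => ind γ x = 0) := by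
    ext x
    simp only [mem_filter, mem_univ, true_and]
    generalize ind γ x = p
    revert p
    decide
  rw [h6, Finset.card_univ, card_vec] at h5
  exact h5

lemma code_card (hm : 1 ≤ m) (hγ : γ ∈ QuadricCode h) :
    γ.card = 2 ^ (n - m - 1) * (2 ^ m - 1) := by
  obtain ⟨g, rfl⟩ := hγ
  rw [card_act, card_quadric h hm]

lemma code_card_lt (hm : 1 ≤ m) (hγ : γ ∈ QuadricCode h) :
    (univ.filter (fun x => ind γ x = 1)).card < (univ.filter (fun x => ind γ x = 0)).card := by
  have h1 := card_filter_ind_zero (γ := γ)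
  have h2 := card_quadric_lt h hm
  have h3 : γ.card = (quadric h).card := by rw [code_card hm hγ, card_quadric h hm]
  rw [← h3] at h2
  rw [filter_ind_one] at h1 ⊢
  omega

lemma code_nonempty (hm : 1 ≤ m) (hγ : γ ∈ QuadricCode h) : ∃ x, ind γ x = 1 := by
  obtain ⟨u, hu⟩ : γ.Nonempty := by
    rw [← Finset.card_pos, code_card hm hγ]
    have h1 : 2 ≤ 2 ^ m := by
      calc 2 = 2 ^ 1 := by norm_num
        _ ≤ 2 ^ m := Nat.pow_le_pow_right (by norm_num) hm
    have h2 : 0 < 2 ^ m - 1 := by omega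
    positivity
  exact ⟨u, ind_eq_one.2 hu⟩

/-- the periods of the standard quadric -/
lemma quadric_period {b : Vec n} :
    IsPeriod (quadric h) b ↔ ∀ j : Fin n, j.1 < 2 * m → b j = 0 := by
  constructor
  · intro hb
    have hb' : ∀ x, quadForm h (x + b) + quadForm h x = 0 := by
      intro x
      have h1 := hb x
      rw [mem_quadric, mem_quadric] at h1
      generalize quadForm h (x + b) = p at *
      generalize quadForm h x = q at *
      revert p q
      decide
    have hlin : ∀ x : Vec n, ∑ i : Fin m, (b ⟨2 * i.1 + 1, by omega⟩ * x ⟨2 * i.1, by omega⟩ +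
        b ⟨2 * i.1, by omega⟩ * x ⟨2 * i.1 + 1, by omega⟩) = 0 := by
      intro x
      have h1 := hb' x
      have h2 := hb' 0
      rw [quadForm_polar] at h1 h2
      simp only [Pi.zero_apply, mul_zero, add_zero, Finset.sum_const_zero, zero_add] at h2
      rw [h2, add_zero] at h1
      exact h1
    intro j hj
    rcases Nat.even_or_odd' j.1 with ⟨c, hc | hc⟩
    · have h1 := hlin (Pi.single ⟨2 * c + 1, by omega⟩ 1)
      rw [Finset.sum_eq_single ⟨c, by omega⟩] at h1
      · have h3 : j = ⟨2 * c, by omega⟩ := Fin.ext hc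
        rw [h3]
        have h4 : (⟨2 * c, by omega⟩ : Fin n) ≠ ⟨2 * c + 1, by omega⟩ := by
          intro h'
          have := congrArg Fin.val h'
          simp only at this
          omega
        rw [Pi.single_eq_same, Pi.single_eq_of_ne h4, mul_zero, mul_one, zero_add] at h1
        exact h1
      · intro i _ hi
        have h2 : (⟨2 * i.1, by omega⟩ : Fin n) ≠ ⟨2 * c + 1, by omega⟩ := by
          intro h'
          have := congrArg Fin.val h'
          simp only at this
          omega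
        have h3 : (⟨2 * i.1 + 1, by omega⟩ : Fin n) ≠ ⟨2 * c + 1, by omega⟩ := by
          intro h'
          apply hi
          apply Fin.ext
          have := congrArg Fin.val h'
          simp only at this
          change i.1 = c
          omega
        rw [Pi.single_eq_of_ne h2, Pi.single_eq_of_ne h3, mul_zero, mul_zero, add_zero]
      · intro hi
        exact absurd (mem_univ _) hi
    · have h1 := hlin (Pi.single ⟨2 * c, by omega⟩ 1)
      rw [Finset.sum_eq_single ⟨c, by omega⟩] at h1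
      · have h3 : j = ⟨2 * c + 1, by omega⟩ := Fin.ext hc
        rw [h3]
        have h4 : (⟨2 * c + 1, by omega⟩ : Fin n) ≠ ⟨2 * c, by omega⟩ := by
          intro h'
          have := congrArg Fin.val h'
          simp only at this
          omega
        rw [Pi.single_eq_same, Pi.single_eq_of_ne h4, mul_zero, mul_one, add_zero] at h1
        exact h1
      · intro i _ hi
        have h2 : (⟨2 * i.1 + 1, by omega⟩ : Fin n) ≠ ⟨2 * c, by omega⟩ := by
          intro h'
          have := congrArg Fin.val h'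
          simp only at this
          omega
        have h3 : (⟨2 * i.1, by omega⟩ : Fin n) ≠ ⟨2 * c, by omega⟩ := by
          intro h'
          apply hi
          apply Fin.ext
          have := congrArg Fin.val h'
          simp only at this
          change i.1 = c
          omega
        rw [Pi.single_eq_of_ne h2, Pi.single_eq_of_ne h3, mul_zero, mul_zero, add_zero]
      · intro hi
        exact absurd (mem_univ _) hi
  · intro hb x
    rw [mem_quadric, mem_quadric]
    have : quadForm h (x + b) = quadForm h x := by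
      simp only [quadForm, Pi.add_apply]
      apply Finset.sum_congr rfl
      intro i _
      rw [hb ⟨2 * i.1, by omega⟩ (by simp only; omega),
        hb ⟨2 * i.1 + 1, by omega⟩ (by simp only; omega), add_zero, add_zero]
    rw [this]

/-- The space of all vectors whose first `2m` coordinates vanish. -/
lemma finrank_tail (n d : ℕ) (hd : d ≤ n) :
    ∃ U : Submodule (ZMod 2) (Vec n), Module.finrank (ZMod 2) U = n - d ∧
      ∀ b, b ∈ U ↔ ∀ j : Fin n, j.1 < d → b j = 0 := by
  let L : Vec n →ₗ[ZMod 2] (Fin d → ZMod 2) :=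
    LinearMap.funLeft (ZMod 2) (ZMod 2) (Fin.castLE hd)
  have hL : Function.Surjective L :=
    LinearMap.funLeft_surjective_of_injective _ _ _ (Fin.castLE_injective _)
  refine ⟨LinearMap.ker L, ?_, ?_⟩
  · have h1 := LinearMap.finrank_range_add_finrank_ker L
    rw [LinearMap.range_eq_top.2 hL, finrank_top] at h1
    simp only [Module.finrank_fintype_fun_eq_card, Fintype.card_fin] at h1
    omega
  · intro b
    rw [LinearMap.mem_ker]
    constructor
    · intro hb j hj
      exact congrFun hb ⟨j.1, hj⟩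
    · intro hb
      funext i
      exact hb (Fin.castLE hd i) i.2

/-- The periods of a codeword form a space of dimension `n - 2m`. -/
lemma code_period (hγ : γ ∈ QuadricCode h) :
    ∃ U : Submodule (ZMod 2) (Vec n), Module.finrank (ZMod 2) U = n - 2 * m ∧
      ∀ b, b ∈ U ↔ IsPeriod γ b := by
  obtain ⟨g, rfl⟩ := hγ
  obtain ⟨U, hU, hU'⟩ := finrank_tail n (2 * m) h
  refine ⟨U.map (g.linear : Vec n →ₗ[ZMod 2] Vec n), ?_, ?_⟩
  · rw [← hU]
    exact LinearEquiv.finrank_map_eq g.linear U
  · intro b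
    obtain ⟨a, rfl⟩ := g.linear.surjective b
    rw [isPeriod_act, quadric_period, ← hU']
    constructor
    · rintro ⟨a', ha', h1⟩
      have : a' = a := g.linear.injective h1
      rw [← this]
      exact ha'
    · intro ha
      exact ⟨a, ha, rfl⟩

end quadric

/-! ### the three families -/

section sp

variable {r : ℕ}

lemma coiso_iff (W : Submodule (ZMod 2) (Vec (2 * r))) :
    Coiso (sfB r) W ↔ ∀ a, (∀ w ∈ W, sf r a w = 0) → a ∈ W := Iff.rfl

/-- A coisotropic subspace has dimension at least `r`. -/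
lemma le_of_coiso {W : Submodule (ZMod 2) (Vec (2 * r))} (hW : Coiso (sfB r) W) :
    r ≤ Module.finrank (ZMod 2) W := by
  have h1 := LinearMap.BilinForm.finrank_orthogonal (symp_sf r).nondegenerate W
  have h2 : (sfB r).orthogonal W ≤ W := by
    intro a ha
    apply hW
    intro w hw
    rw [LinearMap.BilinForm.mem_orthogonal_iff] at ha
    rw [(symp_sf r).symm]
    exact ha w hw
  have h3 := Submodule.finrank_mono h2
  rw [h1] at h3
  simp only [Module.finrank_fintype_fun_eq_card, Fintype.card_fin] at h3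
  omega

/-- There is a coisotropic subspace of every dimension `d`, `r ≤ d ≤ 2r`. -/
lemma exists_coiso {d : ℕ} (h1 : r ≤ d) (h2 : d ≤ 2 * r) :
    ∃ W : Submodule (ZMod 2) (Vec (2 * r)), Module.finrank (ZMod 2) W = d ∧
      Coiso (sfB r) W := by
  let L : Vec (2 * r) →ₗ[ZMod 2] (Fin (2 * r - d) → ZMod 2) :=
    LinearMap.funLeft (ZMod 2) (ZMod 2) (fun i => ⟨2 * i.1 + 1, by omega⟩)
  have hL : Function.Surjective L :=
    LinearMap.funLeft_surjective_of_injective _ _ _ (by
      intro i j hij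
      have := congrArg Fin.val hij
      simp only at this
      exact Fin.ext (by omega))
  have hmem : ∀ b, b ∈ LinearMap.ker L ↔
      ∀ i : Fin (2 * r - d), b ⟨2 * i.1 + 1, by omega⟩ = 0 := by
    intro b
    rw [LinearMap.mem_ker]
    constructor
    · intro hb i
      exact congrFun hb i
    · intro hb
      funext i
      exact hb i
  refine ⟨LinearMap.ker L, ?_, ?_⟩
  · have h1 := LinearMap.finrank_range_add_finrank_ker L
    rw [LinearMap.range_eq_top.2 hL, finrank_top] at h1
    simp only [Module.finrank_fintype_fun_eq_card, Fintype.card_fin] at h1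
    omega
  · intro a ha
    rw [hmem]
    intro i
    have h3 : (Pi.single ⟨2 * i.1, by omega⟩ 1 : Vec (2 * r)) ∈ LinearMap.ker L := by
      rw [hmem]
      intro j
      have h4 : (⟨2 * j.1 + 1, by omega⟩ : Fin (2 * r)) ≠ ⟨2 * i.1, by omega⟩ := by
        intro h'
        have := congrArg Fin.val h'
        simp only at this
        omega
      rw [Pi.single_eq_of_ne h4]
    have h4 := ha _ h3
    rw [sfB_apply, sf_single_even r a ⟨i.1, by omega⟩] at h4
    exact h4

/-- the group acts on the three codes -/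
lemma coisoFlat_act {d : ℕ} {g : AGL (2 * r)} (hg : PB (sfB r) g) {γ : Finset (Vec (2 * r))}
    (hγ : γ ∈ CoisoFlatCode r d) : act g γ ∈ CoisoFlatCode r d := by
  obtain ⟨A, hA, hAd, hAc⟩ := hγ
  refine ⟨A.map g.toAffineMap, ?_, ?_, ?_⟩
  · rw [AffineSubspace.coe_map, ← hA, act, Finset.coe_image]
    rfl
  · rw [AffineSubspace.map_direction]
    rw [← hAd]
    exact LinearEquiv.finrank_map_eq g.linear A.direction
  · intro a ha
    rw [AffineSubspace.map_direction] at ha ⊢
    obtain ⟨b, rfl⟩ := g.linear.surjective a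
    refine ⟨b, hAc b ?_, rfl⟩
    intro w hw
    have h1 := ha (g.linear w) ⟨w, hw, rfl⟩
    have h2 := hg b w
    rw [sfB_apply, sfB_apply] at h2
    rw [← h2]
    exact h1

lemma coisoQuadric_act {m : ℕ} {h : 2 * m ≤ 2 * r} {g : AGL (2 * r)} (hg : PB (sfB r) g)
    {γ : Finset (Vec (2 * r))} (hγ : γ ∈ CoisoQuadricCode h) : act g γ ∈ CoisoQuadricCode h := by
  refine ⟨code_act hγ.1 g, ?_⟩
  intro a ha
  obtain ⟨a, rfl⟩ := g.linear.surjective a
  rw [isPeriod_act]
  apply hγ.2
  intro b hb
  have h1 := ha _ ((isPeriod_act g).2 hb)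
  have h2 := hg a b
  rw [sfB_apply, sfB_apply] at h2
  rw [← h2]
  exact h1

/-- `SympDesign` through the indicator function -/
lemma mem_sympDesign {γ : Finset (Vec (2 * r))} : γ ∈ SympDesign r ↔
    γ ∈ QuadricCode (le_refl (2 * r)) ∧ ∀ a b x,
      ind γ (x + a + b) + ind γ (x + a) + ind γ (x + b) + ind γ x = sfB r a b := Iff.rfl

lemma sympDesign_act {g : AGL (2 * r)} (hg : PB (sfB r) g) {γ : Finset (Vec (2 * r))}
    (hγ : γ ∈ SympDesign r) : act g γ ∈ SympDesign r := by
  rw [mem_sympDesign] at hγ ⊢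
  refine ⟨code_act hγ.1 g, ?_⟩
  intro a b y
  obtain ⟨a, rfl⟩ := g.linear.surjective a
  obtain ⟨b, rfl⟩ := g.linear.surjective b
  obtain ⟨x, rfl⟩ := g.surjective y
  rw [hg, ← hγ.2 a b x]
  have h1 : ∀ x a, g (x + a) = g x + g.linear a := by
    intro x a
    rw [agl_linear g (x + a), agl_linear g x, map_add]
    abel
  rw [← h1, ← h1, ← h1, ind_act, ind_act, ind_act, ind_act]

theorem coisoFlat_SIT {d : ℕ} (hd : 1 ≤ d) : IsSITCode (ASp r) (2 ^ d) (CoisoFlatCode r d) := by
  have hne : ∀ γ ∈ CoisoFlatCode r d, γ.Nonempty := by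
    rintro γ ⟨A, hA, hAd, -⟩
    rw [← Finset.coe_nonempty, hA]
    rcases A.eq_bot_or_nonempty with h | h
    · rw [h, AffineSubspace.direction_bot, finrank_bot] at hAd
      omega
    · exact h
  apply isSIT_of
  · intro γ hγ
    have h1 := hne γ hγ
    obtain ⟨A, hA, hAd, -⟩ := hγ
    rw [card_flat hA h1, hAd]
  · intro g hg γ hγ
    exact coisoFlat_act (mem_ASp.1 hg) hγ
  · intro γ hγ δ hδ
    obtain ⟨u, hu⟩ := hne γ hγ
    obtain ⟨w, hw⟩ := hne δ hδ
    obtain ⟨A, hA, hAd, hAc⟩ := hγ
    obtain ⟨A', hA', hAd', hAc'⟩ := hδ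
    obtain ⟨L, hL, hL'⟩ := iso_orbit (symp_sf r) (W := A.direction) (W' := A'.direction)
      hAc hAc' (by rw [hAd, hAd'])
    let g₁ : AGL (2 * r) :=
      (L.toAffineEquiv).trans (AffineEquiv.constVAdd (ZMod 2) (Vec (2 * r)) (L u + w))
    have hg₁ : ∀ x, g₁ x = (L u + w) + L x := fun x => rfl
    refine ⟨g₁, mem_ASp.2 (hL.affine.trans (PB_trans (sfB r) _)), ?_⟩
    rw [act_eq_iff]
    intro x
    rw [direction_mem_iff hA' hw, direction_mem_iff hA hu, hg₁]
    have h2 : L u + w + L x + w = L (x + u) := by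
      rw [map_add]
      have := add_self' w
      calc L u + w + L x + w = L x + L u + (w + w) := by abel
        _ = _ := by rw [this, add_zero]
    rw [h2, hL']
  · intro γ hγ u hu u' hu' w hw w' hw'
    obtain ⟨A, hA, hAd, hAc⟩ := hγ
    have huu : u + u ∈ A.direction := by
      rw [add_self']
      exact A.direction.zero_mem
    rw [direction_mem_iff hA hu] at hw
    rw [direction_mem_iff hA hu] at hu' hw'
    obtain ⟨g, hg, h1, h2, h3⟩ := sp_flat_transitive (symp_sf r) (W := A.direction) hAc u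
      huu hw hu' hw'
    refine ⟨g, mem_ASp.2 hg, ?_, h2, h3⟩
    rw [act_eq_iff]
    intro x
    rw [direction_mem_iff hA hu, direction_mem_iff hA hu, h1]

theorem coisoQuadric_SIT {m : ℕ} (h : 2 * m ≤ 2 * r) (hm : 1 ≤ m) :
    IsSITCode (ASp r) (2 ^ (2 * r - m - 1) * (2 ^ m - 1)) (CoisoQuadricCode h) := by
  have hco : ∀ γ ∈ CoisoQuadricCode h, ∀ a, (∀ b, (∀ x, ind γ (x + b) = ind γ x) →
      sfB r a b = 0) → ∀ x, ind γ (x + a) = ind γ x := by
    intro γ hγ a ha
    rw [← isPeriod_iff]
    apply hγ.2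
    intro b hb
    exact ha b (isPeriod_iff.1 hb)
  apply isSIT_of
  · intro γ hγ
    exact code_card hm hγ.1
  · intro g hg γ hγ
    exact coisoQuadric_act (mem_ASp.1 hg) hγ
  · intro γ hγ δ hδ
    obtain ⟨e, he⟩ := code_form hγ.1
    obtain ⟨e', he'⟩ := code_form hδ.1
    obtain ⟨g, hg, h1⟩ := sp_orb (symp_sf r) (hco γ hγ) (hco δ hδ) (e.symm.trans e') (by
      intro x
      rw [AffineEquiv.trans_apply, he', ← he, e.apply_symm_apply])
    exact ⟨g, mem_ASp.2 hg, (ind_act_iff g γ δ).1 h1⟩
  · intro γ hγ u hu u' hu' w hw w' hw'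
    obtain ⟨g, hg, h1, h2, h3⟩ := sp_suf_coiso (symp_sf r) (code_QF hγ.1) (code_rad hγ.1)
      (hco γ hγ) (code_card_lt hm hγ.1) (ind_eq_one.2 hu) (ind_eq_one.2 hw)
      (ind_eq_zero.2 hu') (ind_eq_zero.2 hw')
    exact ⟨g, mem_ASp.2 hg, (ind_act_iff g γ γ).1 h1, h2, h3⟩

theorem sympDesign_SIT (hr : 1 ≤ r) :
    IsSITCode (ASp r) (2 ^ (r - 1) * (2 ^ r - 1)) (SympDesign r) := by
  have hk : 2 * r - r - 1 = r - 1 := by omega
  apply isSIT_of
  · intro γ hγ
    rw [← hk]
    exact code_card hr hγ.1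
  · intro g hg γ hγ
    exact sympDesign_act (mem_ASp.1 hg) hγ
  · intro γ hγ δ hδ
    rw [mem_sympDesign] at hγ hδ
    -- the difference is affine
    let φ : Module.Dual (ZMod 2) (Vec (2 * r)) :=
      { toFun := fun x => ind γ x + ind δ x + (ind γ 0 + ind δ 0)
        map_add' := by
          intro x y
          have h1 := hγ.2 x y 0
          have h2 := hδ.2 x y 0
          rw [zero_add, zero_add] at h1 h2
          rw [← h1] at h2
          generalize ind γ (x + y) = p1 at *
          generalize ind δ (x + y) = p2 at *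
          generalize ind γ x = p3 at *
          generalize ind δ x = p4 at *
          generalize ind γ y = p5 at *
          generalize ind δ y = p6 at *
          generalize ind γ 0 = p7 at *
          generalize ind δ 0 = p8 at *
          clear h1
          revert p1 p2 p3 p4 p5 p6 p7 p8
          decide
        map_smul' := by
          intro c x
          rcases zmod2_cases c with rfl | rfl
          · rw [zero_smul, RingHom.id_apply, zero_smul]
            exact z2_add_self _
          · rw [one_smul, RingHom.id_apply, one_smul] }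
    have hφ : ∀ x, φ x = ind γ x + ind δ x + (ind γ 0 + ind δ 0) := fun x => rfl
    obtain ⟨z, hz⟩ := exists_repr (symp_sf r) φ
    -- translation by `z`
    have hconst : ∃ c, ∀ x, ind δ (z + x) = ind γ x + c := by
      refine ⟨ind δ z + ind γ 0, fun x => ?_⟩
      have h1 := hδ.2 z x 0
      have h2 := hφ x
      rw [← hz, ← h1] at h2
      rw [zero_add, zero_add] at h2
      generalize ind δ (z + x) = p1 at *
      generalize ind δ x = p2 at *
      generalize ind δ z = p3 at *
      generalize ind δ 0 = p4 at *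
      generalize ind γ x = p5 at *
      generalize ind γ 0 = p6 at *
      clear h1
      have key : ∀ p1 p2 p3 p4 p5 p6 : ZMod 2,
          p1 + p3 + p2 + p4 = p5 + p2 + (p6 + p4) → p1 = p5 + (p3 + p6) := by decide
      exact key _ _ _ _ _ _ h2
    obtain ⟨c, hc⟩ := hconst
    have hc0 : c = 0 := by
      rcases zmod2_cases c with h | h
      · exact h
      · exfalso
        have h1 := code_card_lt hr hγ.1
        have h2 := code_card_lt hr hδ.1
        have h3 : (univ.filter (fun x => ind γ x = 0)).card =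
            (univ.filter (fun x => ind δ x = 1)).card := by
          apply Finset.card_bij (fun x _ => z + x)
          · intro x hx
            rw [mem_filter] at hx ⊢
            refine ⟨mem_univ _, ?_⟩
            rw [hc, hx.2, h]
            rfl
          · intro x _ y _ hxy
            exact add_left_cancel hxy
          · intro y hy
            rw [mem_filter] at hy
            have h4 : z + (z + y) = y := by
              rw [← add_assoc, add_self', zero_add]
            refine ⟨z + y, ?_, h4⟩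
            rw [mem_filter]
            refine ⟨mem_univ _, ?_⟩
            have h5 := hc (z + y)
            rw [h4, hy.2, h] at h5
            revert h5
            generalize ind γ (z + y) = p
            revert p
            decide
        have h4 := card_filter_ind_zero (γ := γ)
        have h5 := card_filter_ind_zero (γ := δ)
        omega
    refine ⟨AffineEquiv.constVAdd (ZMod 2) (Vec (2 * r)) z, mem_ASp.2 (PB_trans (sfB r) z), ?_⟩
    rw [← ind_act_iff]
    intro x
    change ind δ (z + x) = ind γ x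
    rw [hc, hc0, add_zero]
  · intro γ hγ u hu u' hu' w hw w' hw'
    rw [mem_sympDesign] at hγ
    obtain ⟨g, hg, h1, h2, h3⟩ := sp_suf_design (symp_sf r) (code_QF hγ.1) hγ.2
      (code_card_lt hr hγ.1) (ind_eq_one.2 hu) (ind_eq_one.2 hw)
      (ind_eq_zero.2 hu') (ind_eq_zero.2 hw')
    exact ⟨g, mem_ASp.2 hg, (ind_act_iff g γ γ).1 h1, h2, h3⟩

/-! ### the three codes are not empty -/

theorem coisoFlat_nontrivial {d : ℕ} (hd : 1 ≤ d) (h1 : r ≤ d) (h2 : d < 2 * r) :
    (CoisoFlatCode r d).Nontrivial := by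
  classical
  obtain ⟨U, hU, hUc⟩ := exists_coiso h1 h2.le
  let γ : Finset (Vec (2 * r)) := univ.filter (fun x => x ∈ U)
  have hγ : γ ∈ CoisoFlatCode r d := by
    refine ⟨U.toAffineSubspace, ?_, ?_, ?_⟩
    · ext x
      simp [γ]
    · rw [Submodule.toAffineSubspace_direction, hU]
    · rw [Submodule.toAffineSubspace_direction]
      exact hUc
  have hu : (0 : Vec (2 * r)) ∈ γ := by simp [γ]
  obtain ⟨u', hu'⟩ := exists_notMem_of_card ((coisoFlat_SIT hd).card_eq γ hγ)
    (Nat.pow_lt_pow_right (by norm_num) h2)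
  exact nontrivial_of_trans (fun t γ hγ => coisoFlat_act (PB_trans (sfB r) t) hγ) hγ hu hu'

lemma nontrivial_of_code {n m : ℕ} {h : 2 * m ≤ n} (hm : 1 ≤ m) {C : Set (Finset (Vec n))}
    (hC : ∀ t : Vec n, ∀ γ ∈ C, act (AffineEquiv.constVAdd (ZMod 2) (Vec n) t) γ ∈ C)
    {γ : Finset (Vec n)} (hγ : γ ∈ C) (hγ' : γ ∈ QuadricCode h) : C.Nontrivial := by
  obtain ⟨u, hu⟩ := code_nonempty hm hγ'
  have h1 := code_card_lt hm hγ'
  obtain ⟨u', hu'⟩ : (univ.filter (fun x => ind γ x = 0)).Nonempty := by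
    rw [← Finset.card_pos]
    omega
  rw [mem_filter] at hu'
  exact nontrivial_of_trans hC hγ (ind_eq_one.1 hu) (ind_eq_zero.1 hu'.2)

theorem coisoQuadric_nontrivial {m : ℕ} (h : 2 * m ≤ 2 * r) (hm : 1 ≤ m) (h' : 2 * m ≤ r) :
    (CoisoQuadricCode h).Nontrivial := by
  obtain ⟨W, hW, hWc⟩ := exists_coiso (r := r) (d := 2 * r - 2 * m) (by omega) (by omega)
  obtain ⟨U, hU, hU'⟩ := finrank_tail (2 * r) (2 * m) h
  obtain ⟨L, hL⟩ := exists_linearEquiv U W (by rw [hU, hW])
  have hper : ∀ b, IsPeriod (act L.toAffineEquiv (quadric h)) b ↔ b ∈ W := by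
    intro b
    obtain ⟨a, rfl⟩ := L.surjective b
    have h1 := isPeriod_act L.toAffineEquiv (γ := quadric h) (b := a)
    rw [quadric_period, ← hU', ← hL] at h1
    exact h1
  have hQ : act L.toAffineEquiv (quadric h) ∈ QuadricCode h := ⟨_, rfl⟩
  have hmem : act L.toAffineEquiv (quadric h) ∈ CoisoQuadricCode h := by
    refine ⟨hQ, ?_⟩
    intro a ha
    rw [hper]
    apply hWc
    intro w hw
    exact ha w ((hper w).2 hw)
  exact nontrivial_of_code hm (fun t γ hγ => coisoQuadric_act (PB_trans (sfB r) t) hγ) hmem hQ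

lemma quadric_mem_sympDesign : quadric (le_refl (2 * r)) ∈ SympDesign r := by
  rw [mem_sympDesign]
  have h0 : ∀ x, ind (quadric (le_refl (2 * r))) x = quadForm (le_refl (2 * r)) x := by
    intro x
    rw [ind]
    split_ifs with hx
    · exact ((mem_quadric _).1 hx).symm
    · rcases zmod2_cases (quadForm (le_refl (2 * r)) x) with h1 | h1
      · exact h1.symm
      · exact absurd ((mem_quadric _).2 h1) hx
  refine ⟨⟨1, by
    ext x
    rw [mem_act']
    rfl⟩, ?_⟩
  intro a b x
  rw [h0, h0, h0, h0]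
  have hsf : ∀ x y : Vec (2 * r), (∑ i : Fin r, (y ⟨2 * i.1 + 1, by omega⟩ * x ⟨2 * i.1, by omega⟩ +
      y ⟨2 * i.1, by omega⟩ * x ⟨2 * i.1 + 1, by omega⟩)) = sfB r x y := by
    intro x y
    rw [sfB_apply, sf]
    exact Finset.sum_congr rfl fun i _ => by ring
  have h1 := quadForm_polar (le_refl (2 * r)) (x + a) b
  have h2 := quadForm_polar (le_refl (2 * r)) x b
  rw [hsf] at h1 h2
  rw [map_add, LinearMap.add_apply] at h1
  generalize quadForm (le_refl (2 * r)) (x + a + b) = p1 at *
  generalize quadForm (le_refl (2 * r)) (x + a) = p2 at *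
  generalize quadForm (le_refl (2 * r)) (x + b) = p3 at *
  generalize quadForm (le_refl (2 * r)) x = p4 at *
  generalize quadForm (le_refl (2 * r)) b = p5 at *
  generalize sfB r x b = p6 at *
  generalize sfB r a b = p7 at *
  clear hsf h0
  revert p1 p2 p3 p4 p5 p6 p7
  decide

theorem sympDesign_nontrivial (hr : 1 ≤ r) : (SympDesign r).Nontrivial :=
  nontrivial_of_code hr (fun t _ hγ => sympDesign_act (PB_trans (sfB r) t) hγ)
    quadric_mem_sympDesign quadric_mem_sympDesign.1

/-! ### necessity -/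

/-- The codewords of a `G`-SIT code, `G ≤ ASp(2r, 2)`. -/
theorem sp_codewords {k : ℕ} {G : Subgroup (AGL (2 * r))} {C : Set (Finset (Vec (2 * r)))}
    (hr : 1 ≤ r) (hG : G ≤ ASp r) (hk3 : 3 ≤ k) (hkn : k ≤ 2 ^ (2 * r - 1)) (hC : IsSITCode G k C)
    {γ : Finset (Vec (2 * r))} (hγ : γ ∈ C) :
    (∃ d, r ≤ d ∧ d < 2 * r ∧ k = 2 ^ d ∧ γ ∈ CoisoFlatCode r d) ∨
    (∃ (m : ℕ) (h : 2 * m ≤ 2 * r), 2 ≤ m ∧ 2 * m ≤ r ∧
      k = 2 ^ (2 * r - m - 1) * (2 ^ m - 1) ∧ γ ∈ CoisoQuadricCode h) ∨
    (k = 2 ^ (r - 1) * (2 ^ r - 1) ∧ γ ∈ SympDesign r) := by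
  have h2n : 2 ^ (2 * r) = 2 * 2 ^ (2 * r - 1) := by
    rw [← pow_succ']
    congr 1
    omega
  have hkn' : k < 2 ^ (2 * r) := by
    have : 0 < 2 ^ (2 * r - 1) := by positivity
    omega
  have hcard := hC.card_eq γ hγ
  have hne : γ.Nonempty := by rw [← Finset.card_pos]; omega
  rcases sit_set_classification (sitSet_of_code hC hγ) hne (by omega) with
    ⟨A, hA⟩ | ⟨m, h, hm, hQ⟩
  · left
    have hcA := card_flat hA hne
    rw [hcard] at hcA
    have hdn : Module.finrank (ZMod 2) A.direction < 2 * r := by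
      rw [hcA] at hkn'
      exact (Nat.pow_lt_pow_iff_right (by norm_num)).1 hkn'
    have hd0 : A.direction ≠ ⊥ := by
      intro h
      rw [h, finrank_bot] at hcA
      omega
    obtain ⟨u, hu⟩ := hne
    have hco : Coiso (sfB r) A.direction := by
      apply sp_flat_nec (symp_sf r) hd0
      intro x hx y hy
      have hx' : u + x ∉ γ := by
        rw [direction_mem_iff hA hu]
        intro h'
        apply hx
        have h2 : u + x + u = x := by
          calc u + x + u = x + (u + u) := by abel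
            _ = x := by rw [add_self', add_zero]
        rwa [h2] at h'
      have hy' : u + y ∉ γ := by
        rw [direction_mem_iff hA hu]
        intro h'
        apply hy
        have h2 : u + y + u = y := by
          calc u + y + u = y + (u + u) := by abel
            _ = y := by rw [add_self', add_zero]
        rwa [h2] at h'
      obtain ⟨g, hg, h1, h2, h3⟩ := hC.transitive γ hγ u hu (u + x) hx' γ hγ u hu (u + y) hy'
      have hlin : ∀ z, g (u + z) = u + g.linear z := by
        intro z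
        rw [agl_add, h2]
      have hmemu : ∀ z, u + z ∈ γ ↔ z ∈ A.direction := by
        intro z
        rw [direction_mem_iff hA hu]
        have h2 : u + z + u = z := by
          calc u + z + u = z + (u + u) := by abel
            _ = z := by rw [add_self', add_zero]
        rw [h2]
      refine ⟨g.linear, mem_ASp.1 (hG hg), ?_, ?_⟩
      · intro z
        rw [← hmemu, ← hmemu, ← hlin]
        exact (act_eq_iff g γ γ).1 h1 _
      · rw [hlin] at h3
        exact add_left_cancel h3
    exact ⟨_, le_of_coiso hco, hdn, hcA, A, hA, rfl, hco⟩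
  · right
    have hm1 : 1 ≤ m := by omega
    have hk := code_card hm1 hQ
    rw [hcard] at hk
    obtain ⟨U, hU, hU'⟩ := code_period hQ
    have hdisj := sp_nec (symp_sf r) (code_QF hQ) (code_rad hQ) (code_card_lt hm1 hQ)
      (code_nonempty hm1 hQ) (by
        intro u w u' w' hu hw hu' hw'
        obtain ⟨g, hg, h1, h2, h3⟩ := hC.transitive γ hγ u (ind_eq_one.1 hu) u'
          (ind_eq_zero.1 hu') γ hγ w (ind_eq_one.1 hw) w' (ind_eq_zero.1 hw')
        exact ⟨g, mem_ASp.1 (hG hg), (ind_act_iff g γ γ).2 h1, h2, h3⟩)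
    rcases hdisj with hco | hpol
    · left
      have hcoU : Coiso (sfB r) U := by
        intro a ha
        rw [hU', isPeriod_iff]
        apply hco
        intro b hb
        exact ha b ((hU' b).2 (isPeriod_iff.2 hb))
      have hle := le_of_coiso hcoU
      rw [hU] at hle
      refine ⟨m, h, hm, by omega, hk, hQ, ?_⟩
      intro a ha
      rw [← hU']
      apply hcoU
      intro w hw
      exact ha w ((hU' w).1 hw)
    · right
      have hmr : m = r := by
        by_contra hne'
        have hpos : 0 < Module.finrank (ZMod 2) U := by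
          rw [hU]
          omega
        rw [Module.finrank_pos_iff_exists_ne_zero] at hpos
        obtain ⟨⟨b, hbU⟩, hb0⟩ := hpos
        apply hb0
        apply Subtype.ext
        apply (symp_sf r).nd
        intro y
        have h1 := hpol b y 0
        have hb := isPeriod_iff.1 ((hU' b).1 hbU)
        rw [← h1]
        have h2 : (0 : Vec (2 * r)) + b + y = y + b := by abel
        rw [h2, hb y, zero_add, zero_add, ← hb 0, zero_add]
        generalize ind γ y = p
        generalize ind γ b = q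
        revert p q
        decide
      subst hmr
      have hk' : 2 * m - m - 1 = m - 1 := by omega
      rw [hk'] at hk
      exact ⟨hk, hQ, hpol⟩

/-- Strongly incidence-transitive codes for subgroups of `ASp(2r, 2)`. -/
theorem sp_classification (hr : 2 ≤ r) {k : ℕ} {G : Subgroup (AGL (2 * r))}
    {C : Set (Finset (Vec (2 * r)))} (hG : G ≤ ASp r) (hk3 : 3 ≤ k) (hkn : k ≤ 2 ^ (2 * r - 1))
    (hnt : C.Nontrivial) (hC : IsSITCode G k C) :
    (∃ d, r ≤ d ∧ d < 2 * r ∧ k = 2 ^ d ∧ C ⊆ CoisoFlatCode r d ∧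
      (G = ASp r → C = CoisoFlatCode r d)) ∨
    (∃ (m : ℕ) (h : 2 * m ≤ 2 * r), 2 ≤ m ∧ 2 * m ≤ r ∧
      k = 2 ^ (2 * r - m - 1) * (2 ^ m - 1) ∧ C ⊆ CoisoQuadricCode h ∧
      (G = ASp r → C = CoisoQuadricCode h)) ∨
    (k = 2 ^ (r - 1) * (2 ^ r - 1) ∧ C ⊆ SympDesign r ∧ (G = ASp r → C = SympDesign r)) := by
  obtain ⟨γ, hγ⟩ := hnt.nonempty
  have h2n : 2 ^ (2 * r) = 2 * 2 ^ (2 * r - 1) := by
    rw [← pow_succ']
    congr 1
    omega
  have hkn' : k < 2 ^ (2 * r) := by
    have : 0 < 2 ^ (2 * r - 1) := by positivity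
    omega
  have hsub : ∀ D : Set (Finset (Vec (2 * r))), IsSITCode (ASp r) k D → γ ∈ D → C ⊆ D := by
    intro D hD hγD δ hδ
    obtain ⟨g, hg, rfl⟩ := codeword_image hC hγ hδ (by omega) hkn'
    exact hD.invariant g (hG hg) γ hγD
  have heq : ∀ D : Set (Finset (Vec (2 * r))), IsSITCode (ASp r) k D → γ ∈ D → G = ASp r →
      C = D := by
    intro D hD hγD hG'
    apply Set.Subset.antisymm (hsub D hD hγD)
    intro δ hδ
    obtain ⟨g, hg, rfl⟩ := codeword_image hD hγD hδ (by omega) hkn'
    exact hC.invariant g (by rw [hG']; exact hg) γ hγ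
  rcases sp_codewords (by omega) hG hk3 hkn hC hγ with ⟨d, h1, h2, h3, h4⟩ |
    ⟨m, h, h1, h2, h3, h4⟩ | ⟨h1, h2⟩
  · left
    have hS := coisoFlat_SIT (r := r) (d := d) (by omega)
    rw [← h3] at hS
    exact ⟨d, h1, h2, h3, hsub _ hS h4, heq _ hS h4⟩
  · right
    left
    have hS := coisoQuadric_SIT (r := r) h (by omega)
    rw [← h3] at hS
    exact ⟨m, h, h1, h2, h3, hsub _ hS h4, heq _ hS h4⟩
  · right
    right
    have hS := sympDesign_SIT (r := r) (by omega)
    rw [← h1] at hS
    exact ⟨h1, hsub _ hS h2, heq _ hS h2⟩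

/-- The complete list of strongly incidence-transitive codes of `ASp(2r, 2)`. -/
theorem sp_main (hr : 2 ≤ r) {k : ℕ} {C : Set (Finset (Vec (2 * r)))} (hk3 : 3 ≤ k)
    (hkn : k ≤ 2 ^ (2 * r - 1)) (hnt : C.Nontrivial) :
    IsSITCode (ASp r) k C ↔
      (∃ d, r ≤ d ∧ d < 2 * r ∧ k = 2 ^ d ∧ C = CoisoFlatCode r d) ∨
      (∃ (m : ℕ) (h : 2 * m ≤ 2 * r), 2 ≤ m ∧ 2 * m ≤ r ∧
        k = 2 ^ (2 * r - m - 1) * (2 ^ m - 1) ∧ C = CoisoQuadricCode h) ∨
      (k = 2 ^ (r - 1) * (2 ^ r - 1) ∧ C = SympDesign r) := by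
  constructor
  · intro hC
    rcases sp_classification hr le_rfl hk3 hkn hnt hC with ⟨d, h1, h2, h3, -, h4⟩ |
      ⟨m, h, h1, h2, h3, -, h4⟩ | ⟨h1, -, h2⟩
    · exact Or.inl ⟨d, h1, h2, h3, h4 rfl⟩
    · exact Or.inr (Or.inl ⟨m, h, h1, h2, h3, h4 rfl⟩)
    · exact Or.inr (Or.inr ⟨h1, h2 rfl⟩)
  · rintro (⟨d, h1, h2, rfl, rfl⟩ | ⟨m, h, h1, h2, rfl, rfl⟩ | ⟨rfl, rfl⟩)
    · exact coisoFlat_SIT (by omega)
    · exact coisoQuadric_SIT h (by omega)
    · exact sympDesign_SIT (by omega)

end sp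

end Pool.Agent.SIT
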