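import Pool.Agent.SIT.HexBasic
import Pool.Agent.SIT.SpMain

/-!
# The groups `2^6 : G_2(2)'` and `2^6 : G_2(2)`: transitivity by explicit words
-/

namespace Pool.Agent.SIT

open Finset

lemma mem_AG2 {g : AGL (2 * 3)} : g ∈ AG2 ↔
    PB (sfB 3) g ∧ ∀ x y, HexRel (g.linear x) (g.linear y) ↔ HexRel x y := by
  constructor
  · rintro ⟨h1, h2⟩
    refine ⟨mem_ASp.1 h1, ?_⟩
    intro x y
    rw [agl_linear', agl_linear']
    exact h2 x y
  · rintro ⟨h1, h2⟩
    refine ⟨mem_ASp.2 h1, ?_⟩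
    intro x y
    rw [← agl_linear', ← agl_linear']
    exact h2 x y

lemma AG2_le_ASp : AG2 ≤ ASp 3 := fun _ h => h.1

namespace G2

lemma hexRel_symm {x y : Vec (2 * 3)} (h : HexRel x y) : HexRel y x := by
  refine ⟨?_, ?_⟩
  · have h1 := (symp_sf 3).symm y x
    rw [sfB_apply, sfB_apply] at h1
    rw [h1]
    exact h.1
  · intro t ht
    have h1 := h.2 t ht
    linear_combination h1

/-- the map `x ↦ x + B(a,x) b + B(b,x) a` -/
def eA (a b : Vec (2 * 3)) (h : sf 3 a b = 0) : AGL (2 * 3) :=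
  (eL (symp_sf 3) a b h).toAffineEquiv

lemma eA_apply (a b : Vec (2 * 3)) (h : sf 3 a b = 0) (x : Vec (2 * 3)) :
    eA a b h x = x + sf 3 a x • b + sf 3 b x • a := rfl

lemma eA_mem {a b : Vec (2 * 3)} (h : HexRel a b) : eA a b h.1 ∈ AG2' :=
  Subgroup.subset_closure (Or.inr ⟨a, b, h, fun x => eA_apply a b h.1 x⟩)

/-- translation by `t` -/
abbrev tr (t : Vec (2 * 3)) : AGL (2 * 3) := AffineEquiv.constVAdd (ZMod 2) (Vec (2 * 3)) t

lemma tr_apply (t x : Vec (2 * 3)) : tr t x = t + x := rfl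

lemma tr_mem (t : Vec (2 * 3)) : tr t ∈ AG2' :=
  Subgroup.subset_closure (Or.inl ⟨t, fun x => by rw [tr_apply, add_comm]⟩)

lemma okW_cons {p : ℕ × ℕ} {w : List (ℕ × ℕ)} (h : okW (p :: w) = true) :
    p.1 < 64 ∧ p.2 < 64 ∧ HexRel (dec p.1) (dec p.2) ∧ okW w = true := by
  rw [okW, List.all_cons, Bool.and_eq_true, Bool.and_eq_true, Bool.and_eq_true,
    decide_eq_true_eq, decide_eq_true_eq] at h
  obtain ⟨⟨⟨h1, h2⟩, h3⟩, h4⟩ := h
  exact ⟨h1, h2, (hexRel_tab h1 h2).2 h3, h4⟩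

/-- words of linear steps -/
lemma word_mem : ∀ (w : List (ℕ × ℕ)), okW w = true →
    ∃ g ∈ AG2', g 0 = 0 ∧ ∀ x < 64, evE w x < 64 ∧ g (dec x) = dec (evE w x) := by
  intro w
  induction w with
  | nil =>
    intro _
    exact ⟨1, Subgroup.one_mem _, rfl, fun x hx => ⟨hx, rfl⟩⟩
  | cons p w ih =>
    intro hw
    obtain ⟨h1, h2, h3, h4⟩ := okW_cons hw
    obtain ⟨g, hg, hg0, hgx⟩ := ih h4
    refine ⟨g * eA _ _ h3.1, Subgroup.mul_mem _ hg (eA_mem h3), ?_, ?_⟩
    · change g (eA _ _ h3.1 0) = 0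
      rw [eA_apply]
      have h5 : ∀ a : Vec (2 * 3), sf 3 a 0 = 0 := fun a => (sfB 3 a).map_zero
      rw [h5, h5, zero_smul, zero_smul, add_zero, add_zero, hg0]
    · intro x hx
      have h5 := hgx (eN p.1 p.2 x) (eN_lt h1 h2 hx)
      refine ⟨h5.1, ?_⟩
      change g (eA _ _ h3.1 (dec x)) = _
      rw [eA_apply, ← dec_eN]
      exact h5.2

/-! ### the quadratic form -/

lemma quad_add (x y : Vec (2 * 3)) : quadForm (le_refl (2 * 3)) (x + y) =
    quadForm (le_refl (2 * 3)) x + quadForm (le_refl (2 * 3)) y + sf 3 x y := by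
  simp only [quadForm, sf, Pi.add_apply]
  rw [← Finset.sum_add_distrib, ← Finset.sum_add_distrib]
  exact Finset.sum_congr rfl fun i _ => by ring

lemma quad_smul (c : ZMod 2) (x : Vec (2 * 3)) :
    quadForm (le_refl (2 * 3)) (c • x) = c * quadForm (le_refl (2 * 3)) x := by
  rcases zmod2_cases c with rfl | rfl
  · rw [zero_smul, zero_mul, quadForm]
    exact Finset.sum_eq_zero fun i _ => by rw [Pi.zero_apply, zero_mul]
  · rw [one_smul, one_mul]

/-- words of affine steps, preserving the standard quadric -/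
lemma wordD_mem : ∀ (w : List (ℕ × ℕ)), okW w = true →
    ∃ g ∈ AG2', (∀ x, quadForm (le_refl (2 * 3)) (g x) = quadForm (le_refl (2 * 3)) x) ∧
      ∀ x < 64, evD w x < 64 ∧ g (dec x) = dec (evD w x) := by
  intro w
  induction w with
  | nil =>
    intro _
    exact ⟨1, Subgroup.one_mem _, fun _ => rfl, fun x hx => ⟨hx, rfl⟩⟩
  | cons p w ih =>
    intro hw
    obtain ⟨h1, h2, h3, h4⟩ := okW_cons hw
    obtain ⟨g, hg, hgq, hgx⟩ := ih h4
    have hstep : ∀ x, (tr (quadForm (le_refl (2 * 3)) (dec p.1) • dec p.2 +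
        quadForm (le_refl (2 * 3)) (dec p.2) • dec p.1) * eA _ _ h3.1 : AGL (2 * 3)) x =
        x + (sf 3 (dec p.1) x + quadForm (le_refl (2 * 3)) (dec p.1)) • dec p.2 +
        (sf 3 (dec p.2) x + quadForm (le_refl (2 * 3)) (dec p.2)) • dec p.1 := by
      intro x
      change (quadForm (le_refl (2 * 3)) (dec p.1) • dec p.2 +
        quadForm (le_refl (2 * 3)) (dec p.2) • dec p.1) + eA _ _ h3.1 x = _
      rw [eA_apply, add_smul, add_smul]
      abel
    refine ⟨g * (tr (quadForm (le_refl (2 * 3)) (dec p.1) • dec p.2 +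
        quadForm (le_refl (2 * 3)) (dec p.2) • dec p.1) * eA _ _ h3.1),
      Subgroup.mul_mem _ hg (Subgroup.mul_mem _ (tr_mem _) (eA_mem h3)), ?_, ?_⟩
    · intro x
      change quadForm (le_refl (2 * 3)) (g ((tr _ * eA _ _ h3.1 : AGL (2 * 3)) x)) = _
      rw [hgq, hstep, quad_add, quad_add, quad_smul, quad_smul]
      have hs1 : ∀ (c : ZMod 2) (a b : Vec (2 * 3)), sf 3 a (c • b) = c * sf 3 a b :=
        fun c a b => (sfB 3 a).map_smul c b
      have hs2 : ∀ (a b c : Vec (2 * 3)), sf 3 (a + b) c = sf 3 a c + sf 3 b c := by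
        intro a b c
        have := congrArg (fun φ : Module.Dual (ZMod 2) (Vec (2 * 3)) => φ c) ((sfB 3).map_add a b)
        exact this
      have hs3 : ∀ (c : ZMod 2) (a b : Vec (2 * 3)), sf 3 (c • a) b = c * sf 3 a b := by
        intro c a b
        have := congrArg (fun φ : Module.Dual (ZMod 2) (Vec (2 * 3)) => φ b)
          ((sfB 3).map_smul c a)
        exact this
      have hs4 : ∀ a b, sf 3 a b = sf 3 b a := (symp_sf 3).symm
      rw [hs1, hs1, hs2, hs3, hs4 x (dec p.2), hs4 x (dec p.1), hs4 (dec p.2) (dec p.1), h3.1]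
      generalize quadForm (le_refl (2 * 3)) x = q1
      generalize quadForm (le_refl (2 * 3)) (dec p.1) = q2
      generalize quadForm (le_refl (2 * 3)) (dec p.2) = q3
      generalize sf 3 (dec p.1) x = s1
      generalize sf 3 (dec p.2) x = s2
      revert q1 q2 q3 s1 s2
      decide
    · intro x hx
      have h5 := hgx (dN p.1 p.2 x) (dN_lt h1 h2 hx)
      refine ⟨h5.1, ?_⟩
      change g ((tr _ * eA _ _ h3.1 : AGL (2 * 3)) (dec x)) = _
      rw [hstep, ← dec_dN]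
      exact h5.2

/-! ### transitivity lemmas -/

lemma trans_pt {u : Vec (2 * 3)} (hu : u ≠ 0) : ∃ g ∈ AG2', g 0 = 0 ∧ g (dec 1) = u := by
  obtain ⟨x, hx, rfl⟩ := dec_surj u
  have h1 := all_range chk_1 hx
  rw [Bool.or_eq_true, Bool.and_eq_true, beq_iff_eq, beq_iff_eq] at h1
  rcases h1 with h1 | ⟨h1, h2⟩
  · rw [h1, dec_zero] at hu
    exact absurd rfl hu
  · obtain ⟨g, hg, hg0, hgx⟩ := word_mem _ h1
    refine ⟨g, hg, hg0, ?_⟩
    rw [(hgx 1 (by norm_num)).2, h2]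

lemma trans_pt2 {v : Vec (2 * 3)} (hv : v ≠ 0) (hv1 : v ≠ dec 1) (h : HexRel (dec 1) v) :
    ∃ g ∈ AG2', g 0 = 0 ∧ g (dec 1) = dec 1 ∧ g (dec 8) = v := by
  obtain ⟨x, hx, rfl⟩ := dec_surj v
  have h1 := all_range chk_2 hx
  simp only [Bool.or_eq_true, Bool.and_eq_true, beq_iff_eq, Bool.not_eq_true'] at h1
  rcases h1 with ((h1 | h1) | h1) | ⟨⟨h1, h2⟩, h3⟩
  · rw [h1, dec_zero] at hv
    exact absurd rfl hv
  · rw [h1] at hv1
    exact absurd rfl hv1
  · rw [hexRel_tab (by norm_num) hx, h1] at h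
    exact absurd h (by decide)
  · obtain ⟨g, hg, hg0, hgx⟩ := word_mem _ h1
    refine ⟨g, hg, hg0, ?_, ?_⟩
    · rw [(hgx 1 (by norm_num)).2, h2]
    · rw [(hgx 8 (by norm_num)).2, h3]

lemma lin_of_zero {g : AGL (2 * 3)} (h : g 0 = 0) (x : Vec (2 * 3)) : g.linear x = g x := by
  rw [agl_linear', h, add_zero]

lemma sf_of_mem {g : AGL (2 * 3)} (hg : g ∈ ASp 3) (h : g 0 = 0) (x y : Vec (2 * 3)) :
    sf 3 (g x) (g y) = sf 3 x y := by
  have h1 := mem_ASp.1 hg x y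
  rw [lin_of_zero h, lin_of_zero h] at h1
  exact h1

lemma line_cases {a b : Vec (2 * 3)} (hab : a ≠ b)
    (ha : a = dec 1 ∨ a = dec 8 ∨ a = dec 9) (hb : b = dec 1 ∨ b = dec 8 ∨ b = dec 9)
    (z : Vec (2 * 3)) :
    (sf 3 (dec 1) z = 0 ∧ sf 3 (dec 8) z = 0) ↔ (sf 3 a z = 0 ∧ sf 3 b z = 0) := by
  have h9 : sf 3 (dec 9) z = sf 3 (dec 1) z + sf 3 (dec 8) z := by
    have h1 : dec 9 = dec 1 + dec 8 := dec_xor 1 8
    rw [h1]
    exact congrArg (fun φ : Module.Dual (ZMod 2) (Vec (2 * 3)) => φ z)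
      ((sfB 3).map_add (dec 1) (dec 8))
  rcases ha with rfl | rfl | rfl <;> rcases hb with rfl | rfl | rfl <;>
    first
    | exact absurd rfl hab
    | (rw [h9]
       generalize sf 3 (dec 1) z = p
       generalize sf 3 (dec 8) z = q
       revert p q
       decide)
    | (generalize sf 3 (dec 1) z = p
       generalize sf 3 (dec 8) z = q
       revert p q
       decide)

lemma trans_L (hle : AG2' ≤ ASp 3) {x : Vec (2 * 3)}
    (hx : ¬ (sf 3 (dec 1) x = 0 ∧ sf 3 (dec 8) x = 0)) :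
    ∃ g ∈ AG2', g 0 = 0 ∧ g (dec 2) = x ∧
      ∀ z, (sf 3 (dec 1) (g z) = 0 ∧ sf 3 (dec 8) (g z) = 0) ↔
        (sf 3 (dec 1) z = 0 ∧ sf 3 (dec 8) z = 0) := by
  obtain ⟨x, hx', rfl⟩ := dec_surj x
  have h1 := all_range chk_L hx'
  simp only [Bool.or_eq_true, Bool.and_eq_true, beq_iff_eq, Bool.not_eq_true'] at h1
  rcases h1 with h1 | ⟨⟨⟨h1, h2⟩, h3⟩, h4⟩
  · exfalso
    apply hx
    rw [sf_dec, sf_dec, b2_false, b2_false]
    exact h1
  · obtain ⟨g, hg, hg0, hgx⟩ := word_mem _ h1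
    refine ⟨g, hg, hg0, ?_, ?_⟩
    · rw [(hgx 2 (by norm_num)).2, h2]
    · intro z
      have h5 : g (dec 1) ≠ g (dec 8) := by
        intro h
        have h6 := dec_inj (by norm_num) (by norm_num) (g.injective h)
        exact absurd h6 (by norm_num)
      have h6 : g (dec 1) = dec 1 ∨ g (dec 1) = dec 8 ∨ g (dec 1) = dec 9 := by
        rw [(hgx 1 (by norm_num)).2]
        rcases h3 with (h | h) | h <;> rw [h] <;> simp
      have h7 : g (dec 8) = dec 1 ∨ g (dec 8) = dec 8 ∨ g (dec 8) = dec 9 := by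
        rw [(hgx 8 (by norm_num)).2]
        rcases h4 with (h | h) | h <;> rw [h] <;> simp
      rw [line_cases h5 h6 h7, sf_of_mem (hle hg) hg0, sf_of_mem (hle hg) hg0]

lemma trans_D1 {y : Vec (2 * 3)} (hy : quadForm (le_refl (2 * 3)) y = 1) :
    ∃ g ∈ AG2', (∀ x, quadForm (le_refl (2 * 3)) (g x) = quadForm (le_refl (2 * 3)) x) ∧
      g (dec 3) = y := by
  obtain ⟨x, hx, rfl⟩ := dec_surj y
  have h1 := all_range chk_D1 hx
  simp only [Bool.or_eq_true, Bool.and_eq_true, beq_iff_eq, Bool.not_eq_true'] at h1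
  rcases h1 with h1 | ⟨h1, h2⟩
  · rw [quadForm_dec, h1] at hy
    exact absurd hy (by decide)
  · obtain ⟨g, hg, hgq, hgx⟩ := wordD_mem _ h1
    refine ⟨g, hg, hgq, ?_⟩
    rw [(hgx 3 (by norm_num)).2, h2]

lemma trans_D2 {y : Vec (2 * 3)} (hy : quadForm (le_refl (2 * 3)) y = 0) :
    ∃ g ∈ AG2', (∀ x, quadForm (le_refl (2 * 3)) (g x) = quadForm (le_refl (2 * 3)) x) ∧
      g (dec 3) = dec 3 ∧ g (dec 0) = y := by
  obtain ⟨x, hx, rfl⟩ := dec_surj y
  have h1 := all_range chk_D2 hx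
  simp only [Bool.or_eq_true, Bool.and_eq_true, beq_iff_eq] at h1
  rcases h1 with h1 | ⟨⟨h1, h2⟩, h3⟩
  · rw [quadForm_dec, h1] at hy
    exact absurd hy (by decide)
  · obtain ⟨g, hg, hgq, hgx⟩ := wordD_mem _ h1
    refine ⟨g, hg, hgq, ?_, ?_⟩
    · rw [(hgx 3 (by norm_num)).2, h2]
    · rw [(hgx 0 (by norm_num)).2, h3]

/-! ### `AG2' ≤ AG2` -/

lemma hexRel_zero (x : Vec (2 * 3)) : HexRel 0 x := by
  obtain ⟨n, hn, rfl⟩ := dec_surj x
  rw [← dec_zero, hexRel_dec]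
  revert n
  decide +kernel

lemma hexRel_self (x : Vec (2 * 3)) : HexRel x x := by
  obtain ⟨n, hn, rfl⟩ := dec_surj x
  rw [hexRel_dec]
  revert n
  decide +kernel

lemma mem_hexLines {x y : ℕ} (hx : x < 64) (hy : y < 64) (hx0 : x ≠ 0) (hy0 : y ≠ 0) (hxy : x ≠ y)
    (h : HexRel (dec x) (dec y)) : ∃ p ∈ hexLines, (x = p.1 ∨ x = p.2 ∨ x = p.1 ^^^ p.2) ∧
      (y = p.1 ∨ y = p.2 ∨ y = p.1 ^^^ p.2) := by
  have h1 := all_range chk_lines hx
  have h2 := all_range h1 hy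
  simp only [Bool.or_eq_true, beq_iff_eq, Bool.not_eq_true', List.any_eq_true,
    Bool.and_eq_true] at h2
  rcases h2 with (((h2 | h2) | h2) | h2) | h2
  · exact absurd h2 hx0
  · exact absurd h2 hy0
  · exact absurd h2 hxy
  · rw [hexRel_tab hx hy, h2] at h
    exact absurd h (by decide)
  · obtain ⟨p, hp, h3, h4⟩ := h2
    exact ⟨p, hp, by tauto, by tauto⟩

lemma hl_lt {p : ℕ × ℕ} (hp : p ∈ hexLines) : p.1 < 64 ∧ p.2 < 64 ∧
    HexRel (dec p.1) (dec p.2) := by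
  have h1 := chk_hl
  rw [List.all_eq_true] at h1
  have h2 := h1 p hp
  simp only [Bool.and_eq_true, decide_eq_true_eq] at h2
  exact ⟨h2.1.1, h2.1.2, (hexRel_tab h2.1.1 h2.1.2).2 h2.2⟩

/-- the steps `eN p` preserve the hexagon -/
lemma eN_pres {p : ℕ × ℕ} (hp : p ∈ hexLines) {x y : ℕ} (hx : x < 64) (hy : y < 64)
    (h : HexRel (dec x) (dec y)) : HexRel (dec (eN p.1 p.2 x)) (dec (eN p.1 p.2 y)) := by
  obtain ⟨hp1, hp2, -⟩ := hl_lt hp
  have hz : dec (eN p.1 p.2 0) = 0 := by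
    rw [dec_eN, dec_zero]
    have h5 : ∀ a : Vec (2 * 3), sf 3 a 0 = 0 := fun a => (sfB 3 a).map_zero
    rw [h5, h5, zero_smul, zero_smul, add_zero, add_zero]
  by_cases hx0 : x = 0
  · subst hx0
    rw [hz]
    exact hexRel_zero _
  by_cases hy0 : y = 0
  · subst hy0
    rw [hz]
    exact hexRel_symm (hexRel_zero _)
  by_cases hxy : x = y
  · subst hxy
    exact hexRel_self _
  obtain ⟨l, hl, h1, h2⟩ := mem_hexLines hx hy hx0 hy0 hxy h
  obtain ⟨hl1, hl2, -⟩ := hl_lt hl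
  have hc := chk_pres
  rw [List.all_eq_true] at hc
  have hc2 := hc p hp
  rw [List.all_eq_true] at hc2
  have hc3 := hc2 l hl
  simp only [Bool.and_eq_true] at hc3
  obtain ⟨⟨c1, c2⟩, c3⟩ := hc3
  have hl3 := lt_xor hl1 hl2
  rw [← hexRel_tab (eN_lt hp1 hp2 hl1) (eN_lt hp1 hp2 hl2)] at c1
  rw [← hexRel_tab (eN_lt hp1 hp2 hl1) (eN_lt hp1 hp2 hl3)] at c2
  rw [← hexRel_tab (eN_lt hp1 hp2 hl2) (eN_lt hp1 hp2 hl3)] at c3
  rcases h1 with h1 | h1 | h1
  · rcases h2 with h2 | h2 | h2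
    · rw [h1, h2]
      exact hexRel_self _
    · rw [h1, h2]
      exact c1
    · rw [h1, h2]
      exact c2
  · rcases h2 with h2 | h2 | h2
    · rw [h1, h2]
      exact hexRel_symm c1
    · rw [h1, h2]
      exact hexRel_self _
    · rw [h1, h2]
      exact c3
  · rcases h2 with h2 | h2 | h2
    · rw [h1, h2]
      exact hexRel_symm c2
    · rw [h1, h2]
      exact hexRel_symm c3
    · rw [h1, h2]
      exact hexRel_self _

/-- `x + B(a,x) b + B(b,x) a` depends only on the line through `a`, `b` -/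
lemma eA_line {a b p q : Vec (2 * 3)} (h : sf 3 a b = 0) (h' : sf 3 p q = 0) (hab : a ≠ b)
    (ha : a = p ∨ a = q ∨ a = p + q) (hb : b = p ∨ b = q ∨ b = p + q) (x : Vec (2 * 3)) :
    eA a b h x = eA p q h' x := by
  rw [eA_apply, eA_apply]
  have hs : ∀ (a b c : Vec (2 * 3)), sf 3 (a + b) c = sf 3 a c + sf 3 b c := by
    intro a b c
    exact congrArg (fun φ : Module.Dual (ZMod 2) (Vec (2 * 3)) => φ c) ((sfB 3).map_add a b)
  rcases ha with ha | ha | ha <;> rcases hb with hb | hb | hb <;>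
    first
    | exact absurd (ha.trans hb.symm) hab
    | (rw [ha, hb]; done)
    | (rw [ha, hb]
       funext i
       simp only [hs, Pi.add_apply, Pi.smul_apply, smul_eq_mul]
       generalize x i = x0
       generalize p i = p0
       generalize q i = q0
       generalize sf 3 p x = s1
       generalize sf 3 q x = s2
       revert x0 p0 q0 s1 s2
       decide)

/-- the maps of lines of the hexagon are in `AG2` -/
lemma eA_AG2 {a b : Vec (2 * 3)} (h : HexRel a b) : eA a b h.1 ∈ AG2 := by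
  have hs : ∀ (a b c : Vec (2 * 3)), sf 3 (a + b) c = sf 3 a c + sf 3 b c := by
    intro a b c
    exact congrArg (fun φ : Module.Dual (ZMod 2) (Vec (2 * 3)) => φ c) ((sfB 3).map_add a b)
  have h0 : ∀ x, sf 3 0 x = 0 := by
    intro x
    exact congrArg (fun φ : Module.Dual (ZMod 2) (Vec (2 * 3)) => φ x) ((sfB 3).map_zero)
  rw [mem_AG2]
  refine ⟨PL_eL (symp_sf 3) a b h.1, ?_⟩
  have hlin : ∀ x, (eA a b h.1).linear x = eA a b h.1 x := fun x => rfl
  have hinv : ∀ x, eA a b h.1 (eA a b h.1 x) = x := fun x => eL_eL (symp_sf 3) a b h.1 x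
  -- degenerate cases
  have hid : (a = 0 ∨ b = 0 ∨ a = b) → ∀ x, eA a b h.1 x = x := by
    rintro (h1 | h1 | h1) x
    · rw [eA_apply, h1, h0, zero_smul, smul_zero, add_zero, add_zero]
    · rw [eA_apply, h1, h0, zero_smul, smul_zero, add_zero, add_zero]
    · rw [eA_apply, h1, add_add_self]
  have key : ∀ x y, HexRel x y → HexRel (eA a b h.1 x) (eA a b h.1 y) := by
    by_cases hd : a = 0 ∨ b = 0 ∨ a = b
    · intro x y hxy
      rw [hid hd, hid hd]
      exact hxy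
    · push Not at hd
      obtain ⟨ha0, hb0, hab⟩ := hd
      obtain ⟨m, hm, hma⟩ := dec_surj a
      obtain ⟨n, hn, hnb⟩ := dec_surj b
      have hm0 : m ≠ 0 := by
        rintro rfl
        exact ha0 (by rw [← hma, dec_zero])
      have hn0 : n ≠ 0 := by
        rintro rfl
        exact hb0 (by rw [← hnb, dec_zero])
      have hmn : m ≠ n := by
        rintro rfl
        exact hab (by rw [← hma, ← hnb])
      obtain ⟨p, hp, h1, h2⟩ := mem_hexLines hm hn hm0 hn0 hmn (by rw [hma, hnb]; exact h)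
      obtain ⟨hp1, hp2, hp3⟩ := hl_lt hp
      have h1' : a = dec p.1 ∨ a = dec p.2 ∨ a = dec p.1 + dec p.2 := by
        rw [← hma, ← dec_xor]
        rcases h1 with h1 | h1 | h1 <;> rw [h1]
        · exact Or.inl rfl
        · exact Or.inr (Or.inl rfl)
        · exact Or.inr (Or.inr rfl)
      have h2' : b = dec p.1 ∨ b = dec p.2 ∨ b = dec p.1 + dec p.2 := by
        rw [← hnb, ← dec_xor]
        rcases h2 with h2 | h2 | h2 <;> rw [h2]
        · exact Or.inl rfl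
        · exact Or.inr (Or.inl rfl)
        · exact Or.inr (Or.inr rfl)
      intro x y hxy
      rw [eA_line h.1 hp3.1 hab h1' h2', eA_line h.1 hp3.1 hab h1' h2', eA_apply, eA_apply]
      obtain ⟨s, hs', rfl⟩ := dec_surj x
      obtain ⟨t, ht, rfl⟩ := dec_surj y
      rw [← dec_eN, ← dec_eN]
      exact eN_pres hp hs' ht hxy
  intro x y
  rw [hlin, hlin]
  constructor
  · intro hxy
    have h1 := key _ _ hxy
    rw [hinv, hinv] at h1
    exact h1
  · exact key x y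

theorem AG2'_le : AG2' ≤ AG2 := by
  rw [AG2', Subgroup.closure_le]
  rintro g (⟨t, ht⟩ | ⟨a, b, h, hg⟩)
  · have : g = tr t := by
      ext1 x
      rw [ht, tr_apply, add_comm]
    rw [this]
    change tr t ∈ AG2
    rw [mem_AG2]
    exact ⟨PB_trans (sfB 3) t, fun x y => Iff.rfl⟩
  · have : g = eA a b h.1 := by
      ext1 x
      rw [hg, eA_apply]
    rw [this]
    exact eA_AG2 h

theorem AG2'_le_ASp : AG2' ≤ ASp 3 := AG2'_le.trans AG2_le_ASp

end G2

end Pool.Agent.SIT
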