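import Pool.Agent.SIT.HexClassMain

/-!
# The groups between `T.G_2(2)'` and `T.G_2(2)`: index at most two

`|F| = 2`. Products of two elementary maps of type `s`, `t` are in every group of the class.
-/

namespace Pool.Agent.SIT.Gen

open Hex

variable {F : Type*} [Field F]

lemma HexIso.symm {a : V6 F ≃ₗ[F] V6 F} (ha : HexIso a) : HexIso a.symm := by
  refine ⟨fun x y => ?_, fun x y => ?_⟩
  · rw [← ha.1, a.apply_symm_apply, a.apply_symm_apply]
  · rw [← ha.2, a.apply_symm_apply, a.apply_symm_apply]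

/-- an additive map as a linear equivalence -/
def linOf (g : V6 F ≃+ V6 F) (h : ∀ (c : F) x, g (c • x) = c • g x) : V6 F ≃ₗ[F] V6 F :=
  { g with map_smul' := h }

variable {G : Subgroup (Equiv.Perm (V6 F))}

lemma inG_mul {f f' : V6 F → V6 F} (h : InG G f) (h' : InG G f') : InG G (fun x => f (f' x)) := by
  obtain ⟨g, hg, h1⟩ := h
  obtain ⟨g', hg', h2⟩ := h'
  exact ⟨g * g', G.mul_mem hg hg', fun x => by
    change g (g' x) = _
    rw [h2, h1]⟩

variable [CharP F 2]

/-- the outer element -/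
def s0 : V6 F ≃ₗ[F] V6 F := sLin ![1, 0, 0]

lemma s0_s0 (x : V6 F) : s0 (s0 x) = x := sU_sU _ x

lemma hexIso_s0 : HexIso (s0 (F := F)) := hexIso_s _

omit [CharP F 2] in
lemma eq_of_crs_aux (hF : ∀ c : F, c = 0 ∨ c = 1) (a b c a' b' c' : F)
    (h1 : ¬ (a = 0 ∧ b = 0 ∧ c = 0)) (h2 : ¬ (a' = 0 ∧ b' = 0 ∧ c' = 0))
    (e0 : b * c' + c * b' = 0) (e1 : c * a' + a * c' = 0) (e2 : a * b' + b * a' = 0) :
    a = a' ∧ b = b' ∧ c = c' := by
  rcases hF a with rfl | rfl <;> rcases hF b with rfl | rfl <;> rcases hF c with rfl | rfl <;>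
  rcases hF a' with rfl | rfl <;> rcases hF b' with rfl | rfl <;>
  rcases hF c' with rfl | rfl <;> simp at h1 h2 e0 e1 e2 ⊢

omit [CharP F 2] in
lemma eq_of_crs (hF : ∀ c : F, c = 0 ∨ c = 1) {u u' : Fin 3 → F} (hu : u ≠ 0) (hu' : u' ≠ 0)
    (h : crs u u' = 0) : u = u' := by
  have e0 := congrFun h 0
  have e1 := congrFun h 1
  have e2 := congrFun h 2
  rw [crs_zero'] at e0
  rw [crs_one'] at e1
  rw [crs_two'] at e2
  have hz : ∀ v : Fin 3 → F, v ≠ 0 → ¬ (v 0 = 0 ∧ v 1 = 0 ∧ v 2 = 0) := by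
    rintro v hv ⟨h0, h1, h2⟩
    apply hv
    funext i
    revert i
    exact forall_fin3 h0 h1 h2
  obtain ⟨h0, h1, h2⟩ := eq_of_crs_aux hF _ _ _ _ _ _ (hz u hu) (hz u' hu') e0 e1 e2
  funext i
  revert i
  exact forall_fin3 h0 h1 h2

/-- two maps of type `s` -/
lemma inG_ss (hG : HexG' F G) (hF : ∀ c : F, c = 0 ∨ c = 1) {u u' : Fin 3 → F} (hu : u ≠ 0)
    (hu' : u' ≠ 0) : InG G (fun x => sU u (sU u' x)) := by
  have h2 : ∀ c : F, c + c = 0 := fun c => CharTwo.add_self_eq_zero c
  by_cases hc : crs u u' = 0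
  · have h1 := eq_of_crs hF hu hu' hc
    subst h1
    refine ⟨1, G.one_mem, fun x => ?_⟩
    exact (sU_sU u x).symm
  · obtain ⟨b, hb, hb'⟩ := exists_dot2 hc 1 1
    have hab : dot (u + u') b = 0 := by
      rw [dot_comm, dot_add, hb, hb']
      exact h2 1
    have h1 := inG_comm hG (hexIso_s u) (hexIso_e (u + u') b hab)
    convert h1 using 1
    funext x
    change sU u (sU u' x) = sU u (eU (u + u') b (sU u (eU (u + u') b x)))
    rw [conj_sU hab]
    congr 2
    rw [hb, one_smul, ← add_assoc]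
    have : u + u = 0 := by
      funext i
      exact h2 _
    rw [this, zero_add]

/-- a map of type `t` and a map of type `s` -/
lemma inG_ts (hG : HexG' F G) (u : Fin 3 → F) : InG G (fun x => tU u (sU u x)) := by
  exact inG_comm hG (hexIso_sw (F := F)) (hexIso_s u)

/-- the index of `G` -/
theorem hex_or (hF2 : ∀ c : F, c = 0 ∨ c = 1) (hG : HexG' F G) {b : V6 F ≃ₗ[F] V6 F}
    (hb : HexIso b) : InG G b ∨ InG G (fun x => s0 (b x)) := by
  have hsq : ∀ c : F, ∃ d, d ^ 2 = c := by
    intro c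
    rcases hF2 c with rfl | rfl
    · exact ⟨0, by simp⟩
    · exact ⟨1, by simp⟩
  have hid : InG G (fun x : V6 F => x) := ⟨1, G.one_mem, fun x => rfl⟩
  have hu0 : (![1, 0, 0] : Fin 3 → F) ≠ 0 := by
    intro h
    have := congrFun h 0
    simp at this
  -- commutators with `s0`
  have hcomm : ∀ g : V6 F ≃ₗ[F] V6 F, HexIso g → InG G (fun x => s0 (g (s0 (g.symm x)))) := by
    intro g hg
    have h1 := inG_comm hG hexIso_s0 hg
    exact h1
  have hcomm' : ∀ g : V6 F ≃ₗ[F] V6 F, HexIso g → InG G (fun x => g (s0 (g.symm (s0 x)))) := by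
    intro g hg
    have h1 := inG_comm hG hg hexIso_s0
    exact h1
  let P : (V6 F ≃+ V6 F) → V6 F → (F ≃+* F) → Prop := fun g _ σ => σ = RingEquiv.refl F ∧
    IsoC g ∧ (InG G g ∨ InG G (fun x => s0 (g x)))
  have key : ∀ {g : V6 F ≃+ V6 F}, (hg : IsoC g) → HexIso (linOf g hg.lin) :=
    fun hg => ⟨hg.iso, hg.col⟩
  have hP : HexG P := by
    refine { semi := ?_, mul := ?_, tr := ?_, s := ?_, t := ?_, e := ?_, inv := ?_, sim := ?_
             col := ?_ }
    · rintro g t σ ⟨rfl, h1, -⟩ c x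
      exact h1.lin c x
    · rintro g t σ g' t' σ' ⟨rfl, h1, h2⟩ ⟨rfl, h1', h2'⟩
      refine ⟨by ext x; rfl, h1'.trans h1, ?_⟩
      rcases h2 with h2 | h2
      · rcases h2' with h2' | h2'
        · left
          have h3 : InG G (fun x => g (g' x)) := inG_mul (f := g) (f' := g') h2 h2'
          exact h3
        · right
          -- `s0 g g' = (s0 g s0 g⁻¹) g (s0 g')`
          have h3 : InG G (fun x => s0 (g (s0 (g.symm (g (s0 (g' x))))))) :=
            inG_mul (f := fun x => s0 (g (s0 (g.symm x)))) (f' := fun x => g (s0 (g' x)))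
              (hcomm (linOf g h1.lin) (key h1)) (inG_mul (f := g) (f' := fun x => s0 (g' x)) h2 h2')
          convert h3 using 1
          funext x
          change s0 (g (g' x)) = s0 (g (s0 (g.symm (g (s0 (g' x))))))
          rw [g.symm_apply_apply, s0_s0]
      · rcases h2' with h2' | h2'
        · right
          have h3 : InG G (fun x => s0 (g (g' x))) :=
            inG_mul (f := fun x => s0 (g x)) (f' := g') h2 h2'
          exact h3
        · left
          -- `g g' = (g s0 g⁻¹ s0) (s0 g) (s0 g')`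
          have h3 : InG G (fun x => g (s0 (g.symm (s0 (s0 (g (s0 (g' x)))))))) :=
            inG_mul (f := fun x => g (s0 (g.symm (s0 x)))) (f' := fun x => s0 (g (s0 (g' x))))
              (hcomm' (linOf g h1.lin) (key h1))
              (inG_mul (f := fun x => s0 (g x)) (f' := fun x => s0 (g' x)) h2 h2')
          convert h3 using 1
          funext x
          change g (g' x) = g (s0 (g.symm (s0 (s0 (g (s0 (g' x)))))))
          rw [s0_s0, g.symm_apply_apply, s0_s0]
    · intro t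
      exact ⟨rfl, ⟨fun _ _ => rfl, fun _ _ => rfl, fun _ _ => Iff.rfl⟩, Or.inl hid⟩
    · intro u
      refine ⟨rfl, ⟨sU_smul u, Bf_sU u, (hexIso_s u).2⟩, ?_⟩
      by_cases hu : u = 0
      · left
        subst hu
        convert hid using 1
        funext x
        change sU 0 x = x
        apply ext6 <;> simp [sU, dot, crs_zero', crs_one', crs_two']
      · right
        exact inG_ss hG hF2 hu0 hu
    · intro u
      have hI : HexIso ((swLin.trans (sLin u)).trans swLin) :=
        (hexIso_sw.trans (hexIso_s u)).trans hexIso_sw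
      refine ⟨rfl, ⟨tU_smul u, Bf_tU u, hI.2⟩, ?_⟩
      by_cases hu : u = 0
      · left
        subst hu
        convert hid using 1
        funext x
        change tU 0 x = x
        apply ext6 <;> simp [tU, dot, crs_zero', crs_one', crs_two']
      · right
        -- `s0 t = (s0 s) (s t)`
        have h1 := inG_ss hG hF2 hu0 hu
        obtain ⟨g, hg, h2⟩ := inG_ts hG u
        have h3 : InG G (fun x => sU u (tU u x)) := by
          refine ⟨g⁻¹, G.inv_mem hg, fun x => ?_⟩
          change g.symm x = _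
          rw [Equiv.symm_apply_eq, h2]
          change x = tU u (sU u (sU u (tU u x)))
          rw [sU_sU, tU_tU]
        have h4 := inG_mul h1 h3
        convert h4 using 1
        funext x
        change sU _ (tU u x) = sU _ (sU u (sU u (tU u x)))
        rw [sU_sU]
    · intro a b h
      exact ⟨rfl, ⟨eU_smul a b, Bf_eU h, (hexIso_e a b h).2⟩, Or.inl (inG_e hG h)⟩
    · rintro g t σ ⟨rfl, h1, h2⟩
      have h1' : IsoC g.symm := by
        refine ⟨fun c x => ?_, fun x y => ?_, fun x y => ?_⟩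
        · apply g.injective
          rw [h1.lin, g.apply_symm_apply, g.apply_symm_apply]
        · rw [← h1.iso, g.apply_symm_apply, g.apply_symm_apply]
        · rw [← h1.col, g.apply_symm_apply, g.apply_symm_apply]
      refine ⟨by ext x; rfl, h1', ?_⟩
      rcases h2 with ⟨k, hk, h2⟩ | ⟨k, hk, h2⟩
      · left
        refine ⟨k⁻¹, G.inv_mem hk, fun x => ?_⟩
        change k.symm x = _
        rw [Equiv.symm_apply_eq, h2, g.apply_symm_apply]
      · right
        -- `s0 g⁻¹ = (s0 g⁻¹ s0 g) (g⁻¹ s0)`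
        have h3 : InG G (fun x => g.symm (s0 x)) := by
          refine ⟨k⁻¹, G.inv_mem hk, fun x => ?_⟩
          change k.symm x = _
          rw [Equiv.symm_apply_eq, h2]
          change x = s0 (g (g.symm (s0 x)))
          rw [g.apply_symm_apply, s0_s0]
        have h4 := inG_mul (hcomm (linOf g.symm h1'.lin) (key h1')) h3
        convert h4 using 1
        funext x
        change s0 (g.symm x) = s0 (g.symm (s0 (g.symm.symm (g.symm (s0 x)))))
        rw [AddEquiv.symm_symm, g.apply_symm_apply, s0_s0]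
    · rintro g t σ ⟨rfl, h1, -⟩
      exact ⟨1, one_ne_zero, fun x y => by rw [h1.iso, one_mul]; rfl⟩
    · rintro g t σ ⟨rfl, h1, -⟩
      exact h1.col
  have h1 := hP.iso_mem hsq (b := b.toAddEquiv) ⟨fun c x => b.map_smul c x, hb.1, hb.2⟩
  exact (h1 0).1.2.2

/-- if `s0` is in `G`, all of `G_2(2)` is -/
theorem hex_of_s0 (hF2 : ∀ c : F, c = 0 ∨ c = 1) (hG : HexG' F G) (h0 : InG G s0)
    {b : V6 F ≃ₗ[F] V6 F} (hb : HexIso b) : InG G b := by
  rcases hex_or hF2 hG hb with h | h
  · exact h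
  · have h1 := inG_mul h0 h
    convert h1 using 1
    funext x
    exact (s0_s0 _).symm

/-- conjugates of the commutators: the maps `x ↦ x + Bf(a,x) b + Bf(b,x) a` -/
theorem inG_line (hsq : ∀ c : F, ∃ d, d ^ 2 = c) (hG : HexG' F G) {a b : V6 F} (h : Col a b)
    (ha : a ≠ 0) (hb : ∀ c : F, b ≠ c • a) (hF2 : ∀ c : F, c = 0 ∨ c = 1) :
    InG G (fun x => x + Bf a x • b + Bf b x • a) := by
  let P : (V6 F ≃+ V6 F) → V6 F → (F ≃+* F) → Prop := fun g _ σ => σ = RingEquiv.refl F ∧
    IsoC g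
  have hP : HexG P := by
    refine { semi := ?_, mul := ?_, tr := ?_, s := ?_, t := ?_, e := ?_, inv := ?_, sim := ?_
             col := ?_ }
    · rintro g t σ ⟨rfl, h1⟩ c x
      exact h1.lin c x
    · rintro g t σ g' t' σ' ⟨rfl, h1⟩ ⟨rfl, h1'⟩
      exact ⟨by ext x; rfl, h1'.trans h1⟩
    · intro t
      exact ⟨rfl, ⟨fun _ _ => rfl, fun _ _ => rfl, fun _ _ => Iff.rfl⟩⟩
    · intro u
      exact ⟨rfl, ⟨sU_smul u, Bf_sU u, (hexIso_s u).2⟩⟩
    · intro u
      have hI : HexIso ((swLin.trans (sLin u)).trans swLin) :=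
        (hexIso_sw.trans (hexIso_s u)).trans hexIso_sw
      exact ⟨rfl, ⟨tU_smul u, Bf_tU u, hI.2⟩⟩
    · intro a b h
      exact ⟨rfl, ⟨eU_smul a b, Bf_eU h, (hexIso_e a b h).2⟩⟩
    · rintro g t σ ⟨rfl, h1⟩
      refine ⟨by ext x; rfl, ⟨fun c x => ?_, fun x y => ?_, fun x y => ?_⟩⟩
      · apply g.injective
        rw [h1.lin, g.apply_symm_apply, g.apply_symm_apply]
      · rw [← h1.iso, g.apply_symm_apply, g.apply_symm_apply]
      · rw [← h1.col, g.apply_symm_apply, g.apply_symm_apply]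
    · rintro g t σ ⟨rfl, h1⟩
      exact ⟨1, one_ne_zero, fun x y => by rw [h1.iso, one_mul]; rfl⟩
    · rintro g t σ ⟨rfl, h1⟩
      exact h1.col
  obtain ⟨L, k, m, hL, h1, hm, h2⟩ := to_line hsq hP ha hb h
  have hLc : IsoC L := (hL 0).2
  have hm1 : m = 1 := (hF2 m).resolve_left hm
  have hE : dot ![1, 0, 0] ![(0 : F), 1, 0] = 0 := by simp [dot]
  have hLi : HexIso (linOf L hLc.lin) := ⟨hLc.iso, hLc.col⟩
  -- the standard map is in `G`, and so is its commutator with `L`
  have h3 := inG_e hG hE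
  have h4 := inG_comm hG hLi.symm (hexIso_e _ _ hE)
  have h5 := inG_mul h4 h3
  convert h5 using 1
  funext x
  change _ = L.symm (eU ![1, 0, 0] ![0, 1, 0] (L (eU ![1, 0, 0] ![0, 1, 0]
    (eU ![1, 0, 0] ![0, 1, 0] x))))
  rw [eU_eU _ _ hE]
  apply L.injective
  rw [L.apply_symm_apply]
  have e1 : ∀ y : V6 F, eU ![1, 0, 0] ![0, 1, 0] y = y + Bf e0 y • f1 + Bf f1 y • e0 := by
    intro y
    apply ext6 <;> (simp only [eU, dot, Bf, e0, f1, Prod.fst_add, Prod.snd_add, Prod.smul_fst,
      Prod.smul_snd, Pi.add_apply, Pi.smul_apply, smul_eq_mul, Matrix.cons_val_zero,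
      Matrix.cons_val_one, Matrix.cons_val, Pi.zero_apply]) <;> ring
  rw [e1, map_add, map_add, hLc.lin, hLc.lin, h1, h2, hm1, one_smul]
  have e2 : Bf a x = Bf e0 (L x) := by
    rw [← h1, hLc.iso]
  have e3 : Bf b x = k * Bf e0 (L x) + Bf f1 (L x) := by
    rw [← hLc.iso, h2, hm1, one_smul, Bf_add_left, Bf_smul_left]
  rw [e2, e3]
  generalize Bf e0 (L x) = p
  generalize Bf f1 (L x) = q
  have e4 : L x + p • (k • e0 + f1) + (k * p + q) • e0 =
      L x + p • f1 + q • e0 + ((k * p) • e0 + (k * p) • (e0 : V6 F)) := by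
    module
  rw [e4, add_self6, add_zero]

/-- the generators of `T.G_2(2)'` -/
theorem inG_col (hG : HexG' F G) (hF2 : ∀ c : F, c = 0 ∨ c = 1) {a b : V6 F} (h : Col a b) :
    InG G (fun x => x + Bf a x • b + Bf b x • a) := by
  have hsq : ∀ c : F, ∃ d, d ^ 2 = c := by
    intro c
    rcases hF2 c with rfl | rfl
    · exact ⟨0, by simp⟩
    · exact ⟨1, by simp⟩
  have hid : InG G (fun x : V6 F => x) := ⟨1, G.one_mem, fun x => rfl⟩
  have z1 : ∀ x : V6 F, Bf 0 x = 0 := fun x => by simp [Bf, dot]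
  by_cases ha : a = 0
  · subst ha
    convert hid using 1
    funext x
    rw [z1, zero_smul, smul_zero, add_zero, add_zero]
  by_cases hb : ∃ c : F, b = c • a
  · obtain ⟨c, rfl⟩ := hb
    convert hid using 1
    funext x
    rw [Bf_smul_left, smul_smul, mul_comm c, add_assoc, add_self6, add_zero]
  · push Not at hb
    exact inG_line hsq hG h ha hb hF2

end Pool.Agent.SIT.Gen
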