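import Pool.Agent.SIT.HexQMain
import Pool.Agent.SIT.FinDefs

/-!
# The elementary maps generate `G_2(q)`, `q` even
-/

namespace Pool.Agent.SIT.Hex

open Pool.Agent.SIT.S4

variable {F : Type*} [Field F] [CharP F 2]

/-- `(0, e₁)` -/
def F1 : V6 F := (0, ![1, 0, 0])

/-- `(0, e₃)` -/
def L3 : V6 F := (0, ![0, 0, 1])

/-- `(e₃, 0)` -/
def E3 : V6 F := (![0, 0, 1], 0)

/-- Linear isometries preserving collinearity. -/
structure IsoC (b : V6 F ≃+ V6 F) : Prop where
  lin : ∀ (c : F) x, b (c • x) = c • b x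
  iso : ∀ x y, Bf (b x) (b y) = Bf x y
  col : ∀ x y, Col (b x) (b y) ↔ Col x y

omit [CharP F 2] in
lemma IsoC.trans {b b' : V6 F ≃+ V6 F} (h : IsoC b) (h' : IsoC b') : IsoC (b.trans b') := by
  refine ⟨fun c x => ?_, fun x y => ?_, fun x y => ?_⟩
  · rw [AddEquiv.trans_apply, AddEquiv.trans_apply, h.lin, h'.lin]
  · rw [AddEquiv.trans_apply, AddEquiv.trans_apply, h'.iso, h.iso]
  · rw [AddEquiv.trans_apply, AddEquiv.trans_apply, h'.col, h.col]

variable {P : (V6 F ≃+ V6 F) → V6 F → (F ≃+* F) → Prop}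

lemma HexG.isoC (hP : HexG P) {L : V6 F ≃+ V6 F} (h : LinIn (isoP P) L) : IsoC L :=
  ⟨fun c x => hP.iso.semi (h 0) c x, fun x y => (h 0).2 x y, hP.iso.col (h 0)⟩

omit [CharP F 2] in
lemma col_F1 {z : V6 F} (h : Col F1 z) : z.1 0 = 0 ∧ z.2 1 = 0 ∧ z.2 2 = 0 := by
  obtain ⟨h0, h1, -, -⟩ := h
  have hQ : Qf (F1 : V6 F) = 0 := by simp [Qf, dot, F1]
  have e1 := h1 1
  have e2 := h1 2
  rw [hQ, crs_one'] at e1
  rw [hQ, crs_two'] at e2
  refine ⟨?_, ?_, ?_⟩
  · simpa [Bf, dot, F1] using h0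
  · simp [F1] at e2
    exact (pow_eq_zero_iff two_ne_zero).1 e2.symm
  · simp [F1] at e1
    exact (pow_eq_zero_iff two_ne_zero).1 e1.symm

omit [CharP F 2] in
lemma Col_F1_E2 : Col (F1 : V6 F) E2 := by
  refine ⟨by simp [Bf, dot, F1, E2], ?_, ?_, ?_⟩
  · apply forall_fin3 <;> simp [Qf, dot, crs, F1, E2]
  · apply forall_fin3 <;> simp [Qf, dot, crs, F1, E2]
  · simp [Qf, dot, F1, E2]

omit [CharP F 2] in
lemma Col_F1_E3 : Col (F1 : V6 F) E3 := by
  refine ⟨by simp [Bf, dot, F1, E3], ?_, ?_, ?_⟩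
  · apply forall_fin3 <;> simp [Qf, dot, crs, F1, E3]
  · apply forall_fin3 <;> simp [Qf, dot, crs, F1, E3]
  · simp [Qf, dot, F1, E3]

omit [CharP F 2] in
lemma Col_e0_f1 : Col (e0 : V6 F) f1 := by
  refine ⟨by simp [Bf, dot, e0, f1], ?_, ?_, ?_⟩
  · apply forall_fin3 <;> simp [Qf, dot, crs, e0, f1]
  · apply forall_fin3 <;> simp [Qf, dot, crs, e0, f1]
  · simp [Qf, dot, e0, f1]

omit [CharP F 2] in
lemma Col_e0_L3 : Col (e0 : V6 F) L3 := by
  refine ⟨by simp [Bf, dot, e0, L3], ?_, ?_, ?_⟩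
  · apply forall_fin3 <;> simp [Qf, dot, crs, e0, L3]
  · apply forall_fin3 <;> simp [Qf, dot, crs, e0, L3]
  · simp [Qf, dot, e0, L3]

omit [CharP F 2] in
lemma Col_sum : Col (e0 + F1 : V6 F) (E2 + L3) := by
  refine ⟨by simp [Bf, dot, e0, F1, E2, L3], ?_, ?_, ?_⟩
  · apply forall_fin3 <;> simp [Qf, dot, crs, e0, F1, E2, L3]
  · apply forall_fin3 <;> simp [Qf, dot, crs, e0, F1, E2, L3]
  · simp [Qf, dot, e0, F1, E2, L3]

lemma col_sum {y : V6 F} (h : Col (e0 + F1) y) : y.1 1 = y.2 2 := by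
  obtain ⟨-, h1, -, -⟩ := h
  have hQ : Qf (e0 + F1 : V6 F) = 1 := by simp [Qf, dot, e0, F1]
  have e1 := h1 1
  rw [hQ, crs_one'] at e1
  simp [e0, F1] at e1
  have e2 : (y.1 1 + y.2 2) ^ 2 = 0 := by
    linear_combination e1 + (y.1 1 * y.2 2 + y.2 2 ^ 2) * two0 (F := F)
  exact add_eq_zero_iff_F.1 ((pow_eq_zero_iff two_ne_zero).1 e2)

/-- a linear isometry fixing enough vectors is the identity -/
lemma IsoC.eq_refl {b : V6 F ≃+ V6 F} (h : IsoC b) (h1 : b e0 = e0) (h2 : b F1 = F1)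
    (h3 : b f1 = f1) (h4 : b L3 = L3) : b = AddEquiv.refl _ := by
  have c1 : ∀ z, (b z).2 0 = z.2 0 := by
    intro z
    have := h.iso z e0
    rwa [h1, Bf_e0, Bf_e0] at this
  have c2 : ∀ z, (b z).1 0 = z.1 0 := by
    intro z
    have := h.iso z F1
    rw [h2] at this
    simpa [Bf, dot, F1] using this
  have c3 : ∀ z, (b z).1 1 = z.1 1 := by
    intro z
    have := h.iso z f1
    rw [h3] at this
    simpa [Bf, dot, f1] using this
  have c4 : ∀ z, (b z).1 2 = z.1 2 := by
    intro z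
    have := h.iso z L3
    rw [h4] at this
    simpa [Bf, dot, L3] using this
  have h5 : b E2 = E2 := by
    have h6 := (h.col F1 E2).2 Col_F1_E2
    rw [h2] at h6
    obtain ⟨-, h7, h8⟩ := col_F1 h6
    apply ext6
    · rw [c2]
    · rw [c3]
    · rw [c4]
    · rw [c1]
    · rw [h7]
      simp [E2]
    · rw [h8]
      simp [E2]
  have h6 : b E3 = E3 := by
    have h6 := (h.col F1 E3).2 Col_F1_E3
    rw [h2] at h6
    obtain ⟨-, h7, h8⟩ := col_F1 h6
    apply ext6
    · rw [c2]
    · rw [c3]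
    · rw [c4]
    · rw [c1]
    · rw [h7]
      simp [E3]
    · rw [h8]
      simp [E3]
  have c5 : ∀ z, (b z).2 1 = z.2 1 := by
    intro z
    have := h.iso z E2
    rw [h5] at this
    simpa [Bf, dot, E2] using this
  have c6 : ∀ z, (b z).2 2 = z.2 2 := by
    intro z
    have := h.iso z E3
    rw [h6] at this
    simpa [Bf, dot, E3] using this
  apply AddEquiv.ext
  intro z
  exact ext6 (c2 z) (c3 z) (c4 z) (c1 z) (c5 z) (c6 z)

lemma hdU (l : F) : dot ![0, 0, l] ![(0 : F), 1, 0] = 0 := by simp [dot]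

lemma hdL (l : F) : dot ![0, l, 0] ![(0 : F), 0, 1] = 0 := by simp [dot]

lemma eU_up (l : F) (x : V6 F) : eE ![0, 0, l] ![(0 : F), 1, 0] (hdU l) x =
    (![x.1 0, x.1 1, x.1 2 + l * x.1 1], ![x.2 0, x.2 1 + l * x.2 2, x.2 2]) := by
  change eU ![0, 0, l] ![0, 1, 0] x = _
  apply ext6 <;> (simp only [sU, tU, eU, dot, crs, Pi.add_apply, Pi.smul_apply, smul_eq_mul,
    Matrix.cons_val_zero, Matrix.cons_val_one, Matrix.cons_val]) <;> ring

lemma eU_lo (l : F) (x : V6 F) : eE ![0, l, 0] ![(0 : F), 0, 1] (hdL l) x =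
    (![x.1 0, x.1 1 + l * x.1 2, x.1 2], ![x.2 0, x.2 1, x.2 2 + l * x.2 1]) := by
  change eU ![0, l, 0] ![0, 0, 1] x = _
  apply ext6 <;> (simp only [sU, tU, eU, dot, crs, Pi.add_apply, Pi.smul_apply, smul_eq_mul,
    Matrix.cons_val_zero, Matrix.cons_val_one, Matrix.cons_val]) <;> ring

/-- **The elementary maps generate the group of all linear isometries preserving collinearity.** -/
theorem HexG.iso_mem (hsq : ∀ z : F, ∃ k, k ^ 2 = z) (hP : HexG P) {b : V6 F ≃+ V6 F}
    (hb : IsoC b) : LinIn (isoP P) b := by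
  have hI := hP.iso
  -- reduction by a member
  have red : ∀ {b : V6 F ≃+ V6 F} {L : V6 F ≃+ V6 F}, LinIn (isoP P) L →
      LinIn (isoP P) (b.trans L) → LinIn (isoP P) b := by
    intro b L hL h
    have h1 := hI.lin_trans h (hI.lin_symm hL)
    have e : (b.trans L).trans L.symm = b := by
      apply AddEquiv.ext
      intro x
      rw [AddEquiv.trans_apply, AddEquiv.trans_apply, L.symm_apply_apply]
    rwa [e] at h1
  have hnz : ∀ {b : V6 F ≃+ V6 F} {x : V6 F}, x ≠ 0 → b x ≠ 0 := by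
    intro b x hx h
    exact hx ((map_eq_zero_iff b b.injective).1 h)
  -- the vectors
  have hf1 : (f1 : V6 F) ≠ 0 := by
    intro h
    have := congrArg (fun z : V6 F => z.2 1) h
    simp [f1] at this
  -- step 4
  have s4 : ∀ {b : V6 F ≃+ V6 F}, IsoC b → b e0 = e0 → b F1 = F1 → b f1 = f1 →
      LinIn (isoP P) b := by
    intro b hb h1 h2 h3
    have k1 := (hb.col e0 L3).2 Col_e0_L3
    rw [h1] at k1
    obtain ⟨m1, m2, m3⟩ := col_e0 k1
    have m0 : (b L3).1 0 = 0 := by
      have := hb.iso L3 F1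
      rw [h2] at this
      simpa [Bf, dot, F1, L3] using this
    have k2 := (hb.col F1 E2).2 Col_F1_E2
    rw [h2] at k2
    obtain ⟨n1, n2, n3⟩ := col_F1 k2
    have n0 : (b E2).2 0 = 0 := by
      have := hb.iso E2 e0
      rw [h1, Bf_e0, Bf_e0] at this
      rw [this]
      simp [E2]
    have n4 : (b E2).1 1 = 1 := by
      have := hb.iso E2 f1
      rw [h3] at this
      simpa [Bf, dot, f1, E2] using this
    have k3 := (hb.col _ _).2 Col_sum
    rw [map_add, map_add, h1, h2] at k3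
    have k4 := col_sum k3
    have k5 : (b L3).2 2 = 1 := by
      simp only [Prod.fst_add, Prod.snd_add, Pi.add_apply] at k4
      rw [n4, m1, n3, add_zero, zero_add] at k4
      exact k4.symm
    apply red (hI.eL ![0, 0, (b L3).2 1] ![0, 1, 0] (hdU _))
    have hc : IsoC (b.trans (eE ![0, 0, (b L3).2 1] ![0, 1, 0] (hdU _))) :=
      hb.trans (hP.isoC (hI.eL _ _ _))
    have e : b.trans (eE ![0, 0, (b L3).2 1] ![0, 1, 0] (hdU _)) = AddEquiv.refl _ := by
      apply hc.eq_refl
      · rw [AddEquiv.trans_apply, h1, eU_up]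
        apply ext6 <;> simp [e0]
      · rw [AddEquiv.trans_apply, h2, eU_up]
        apply ext6 <;> simp [F1]
      · rw [AddEquiv.trans_apply, h3, eU_up]
        apply ext6 <;> simp [f1]
      · rw [AddEquiv.trans_apply, eU_up]
        apply ext6
        · change (b L3).1 0 = 0
          exact m0
        · change (b L3).1 1 = 0
          exact m1
        · change (b L3).1 2 + (b L3).2 1 * (b L3).1 1 = 0
          rw [m1, m2, mul_zero, add_zero]
        · change (b L3).2 0 = 0
          exact m3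
        · change (b L3).2 1 + (b L3).2 1 * (b L3).2 2 = 0
          rw [k5, mul_one, CharTwo.add_self_eq_zero]
        · change (b L3).2 2 = 1
          exact k5
    rw [e]
    exact hI.lin_refl
  -- step 3
  have s3 : ∀ {b : V6 F ≃+ V6 F}, IsoC b → b e0 = e0 → b F1 = F1 → LinIn (isoP P) b := by
    -- first the case of a nonzero last coordinate
    have s3' : ∀ {b : V6 F ≃+ V6 F}, IsoC b → b e0 = e0 → b F1 = F1 → (b f1).2 2 ≠ 0 →
        LinIn (isoP P) b := by
      intro b hb h1 h2 h3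
      have k1 := (hb.col e0 f1).2 Col_e0_f1
      rw [h1] at k1
      obtain ⟨m1, m2, m3⟩ := col_e0 k1
      have m0 : (b f1).1 0 = 0 := by
        have := hb.iso f1 F1
        rw [h2] at this
        simpa [Bf, dot, F1, f1] using this
      set p := (b f1).2 1 with hp
      set q := (b f1).2 2 with hq
      set l := (1 + p) / q with hl
      have hl' : l * q = 1 + p := div_mul_cancel₀ _ h3
      apply red (hI.eL ![0, 0, l] ![0, 1, 0] (hdU _))
      apply red (hI.eL ![0, q, 0] ![0, 0, 1] (hdL _))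
      apply s4 ((hb.trans (hP.isoC (hI.eL _ _ _))).trans (hP.isoC (hI.eL _ _ _)))
      · rw [AddEquiv.trans_apply, AddEquiv.trans_apply, h1, eU_up, eU_lo]
        apply ext6 <;> simp [e0]
      · rw [AddEquiv.trans_apply, AddEquiv.trans_apply, h2, eU_up, eU_lo]
        apply ext6 <;> simp [F1]
      · rw [AddEquiv.trans_apply, AddEquiv.trans_apply, eU_up, eU_lo]
        apply ext6
        · change (b f1).1 0 = 0
          exact m0
        · change (b f1).1 1 + q * ((b f1).1 2 + l * (b f1).1 1) = 0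
          rw [m1, m2, mul_zero, add_zero, mul_zero, add_zero]
        · change (b f1).1 2 + l * (b f1).1 1 = 0
          rw [m1, m2, mul_zero, add_zero]
        · change (b f1).2 0 = 0
          exact m3
        · change p + l * q = 1
          linear_combination hl' + p * two0 (F := F)
        · change q + q * (p + l * q) = 0
          linear_combination q * hl' + (q + p * q) * two0 (F := F)
    intro b hb h1 h2
    by_cases h3 : (b f1).2 2 = 0
    · apply red (hI.eL ![0, 1, 0] ![0, 0, 1] (hdL _))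
      apply s3' (hb.trans (hP.isoC (hI.eL _ _ _)))
      · rw [AddEquiv.trans_apply, h1, eU_lo]
        apply ext6 <;> simp [e0]
      · rw [AddEquiv.trans_apply, h2, eU_lo]
        apply ext6 <;> simp [F1]
      · rw [AddEquiv.trans_apply, eU_lo]
        simp only [Matrix.cons_val, h3, zero_add, one_mul]
        intro h4
        have k1 := (hb.col e0 f1).2 Col_e0_f1
        rw [h1] at k1
        obtain ⟨m1, m2, m3⟩ := col_e0 k1
        have m0 : (b f1).1 0 = 0 := by
          have := hb.iso f1 F1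
          rw [h2] at this
          simpa [Bf, dot, F1, f1] using this
        exact hnz hf1 (ext6 m0 m1 m2 m3 h4 h3)
    · exact s3' hb h1 h2 h3
  -- step 2
  have s2 : ∀ {b : V6 F ≃+ V6 F}, IsoC b → b e0 = e0 → LinIn (isoP P) b := by
    intro b hb h1
    have k1 : Bf (b F1) e0 = Bf F1 e0 := by
      have := hb.iso F1 e0
      rwa [h1] at this
    obtain ⟨L, hL, h2, h3⟩ := level hsq hI k1 (by
      rw [k1, Bf_e0]
      simp [F1])
    apply red hL
    have hLe : L e0 = e0 := by
      have h4 : ∀ z, Bf z (L e0 + e0) = 0 := by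
        intro z
        have h5 := (hL 0).2 (L.symm z) e0
        have h6 := h2 (L.symm z)
        rw [L.apply_symm_apply] at h5 h6
        rw [Bf_add_right, h5, h6]
        exact CharTwo.add_self_eq_zero _
      have h5 : L e0 + e0 = 0 := by
        apply (sympBl (F := F)).nd
        intro y
        rw [Bl_apply, Bf_comm]
        exact h4 y
      have := SpQ.vabb F (L e0) e0
      rw [h5, zero_add] at this
      exact this.symm
    apply s3 (hb.trans (hP.isoC hL))
    · rw [AddEquiv.trans_apply, h1, hLe]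
    · rw [AddEquiv.trans_apply, h3]
  -- step 1
  obtain ⟨L, hL, h1⟩ := to_e0 hsq hI (x := b e0) (hnz e0_ne)
  apply red hL
  apply s2 (hb.trans (hP.isoC hL))
  rw [AddEquiv.trans_apply, h1]

end Pool.Agent.SIT.Hex
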