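import Pool.Agent.SIT.HexCol

/-!
# Subspaces with transitive complement under the hexagon group

A coisotropic subspace whose stabiliser in the group of the hexagon is transitive on its complement
is `p^⊥` for a point `p` or `l^⊥` for a line `l` of the hexagon.
-/

namespace Pool.Agent.SIT.Hex

variable {F : Type*} [Field F] [CharP F 2]

/-- A class of maps closed under composition containing the elementary maps. -/
structure Gen (P : (V6 F → V6 F) → Prop) : Prop where
  comp : ∀ g h, P g → P h → P (g ∘ h)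
  s : ∀ u, P (sU u)
  t : ∀ u, P (tU u)
  e : ∀ a b, dot a b = 0 → P (eU a b)

/-- The vector `(e₁, 0)`. -/
def E1 : V6 F := (![1, 0, 0], 0)

/-- The vector `(e₂, 0)`. -/
def E2 : V6 F := (![0, 1, 0], 0)

/-- The vector `(0, e₂)`. -/
def L2 : V6 F := (0, ![0, 1, 0])

omit [CharP F 2] in
/-- `P` moves `x` to `y`. -/
def Mov (P : (V6 F → V6 F) → Prop) (x y : V6 F) : Prop := ∃ h, P h ∧ h x = y

/-- `P` moves `(x, x')` to `(y, y')`. -/
def Mov2 (P : (V6 F → V6 F) → Prop) (x x' y y' : V6 F) : Prop := ∃ h, P h ∧ h x = y ∧ h x' = y'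

variable {P : (V6 F → V6 F) → Prop}

omit [CharP F 2] in
lemma Mov2.trans (hP : Gen P) {x x' y y' z z' : V6 F} (h : Mov2 P x x' y y')
    (h' : Mov2 P y y' z z') : Mov2 P x x' z z' := by
  obtain ⟨g, hg, h1, h2⟩ := h
  obtain ⟨g', hg', h1', h2'⟩ := h'
  exact ⟨g' ∘ g, hP.comp _ _ hg' hg, by simp [h1, h1'], by simp [h2, h2']⟩

omit [CharP F 2] in
lemma Mov.trans (hP : Gen P) {x y z : V6 F} (h : Mov P x y) (h' : Mov P y z) : Mov P x z := by
  obtain ⟨g, hg, h1⟩ := h
  obtain ⟨g', hg', h1'⟩ := h'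
  exact ⟨g' ∘ g, hP.comp _ _ hg' hg, by simp [h1, h1']⟩

omit [CharP F 2] in
lemma Mov.refl (hP : Gen P) (x : V6 F) : Mov P x x := by
  refine ⟨eU 0 0, hP.e 0 0 (by simp [dot]), ?_⟩
  apply ext6 <;> simp [eU, dot]

/-- every nonzero vector is moved to one with second component zero -/
lemma mov_snd (hP : Gen P) (hsq : ∀ c : F, ∃ d, d ^ 2 = c) {x : V6 F} (hx : x ≠ 0) :
    ∃ v, v ≠ 0 ∧ Mov P x (v, 0) := by
  -- nonzero value of the quadratic form
  have key : ∀ y : V6 F, Qf y ≠ 0 → ∃ v, v ≠ 0 ∧ Mov P y (v, 0) := by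
    intro y hy
    obtain ⟨d, hd⟩ := hsq (Qf y)⁻¹
    have hd' : d ^ 2 * Qf y = 1 := by rw [hd, inv_mul_cancel₀ hy]
    refine ⟨y.1, ?_, tU (d • y.2), hP.t _, ?_⟩
    · intro h
      apply hy
      simp [Qf, h, dot]
    · simp only [Qf, dot] at hd'
      apply ext6
      · simp only [tU, crs_zero', crs_one', crs_two', dot, Pi.add_apply, Pi.smul_apply, smul_eq_mul]
        linear_combination (norm := (ring_nf; (try simp only [n2, n3, n4, n5, n6, n7, n8, n9, n10, n12, n14, n16, n18, n20, n24,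
    mul_zero, mul_one, zero_mul, one_mul, zero_add, add_zero, neg_zero, sub_zero]); (try ring)))
      · simp only [tU, crs_zero', crs_one', crs_two', dot, Pi.add_apply, Pi.smul_apply, smul_eq_mul]
        linear_combination (norm := (ring_nf; (try simp only [n2, n3, n4, n5, n6, n7, n8, n9, n10, n12, n14, n16, n18, n20, n24,
    mul_zero, mul_one, zero_mul, one_mul, zero_add, add_zero, neg_zero, sub_zero]); (try ring)))
      · simp only [tU, crs_zero', crs_one', crs_two', dot, Pi.add_apply, Pi.smul_apply, smul_eq_mul]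
        linear_combination (norm := (ring_nf; (try simp only [n2, n3, n4, n5, n6, n7, n8, n9, n10, n12, n14, n16, n18, n20, n24,
    mul_zero, mul_one, zero_mul, one_mul, zero_add, add_zero, neg_zero, sub_zero]); (try ring)))
      · simp only [tU, dot, Pi.add_apply, Pi.smul_apply, smul_eq_mul, Pi.zero_apply]
        linear_combination (norm := (ring_nf; (try simp only [n2, n3, n4, n5, n6, n7, n8, n9, n10, n12, n14, n16, n18, n20, n24,
    mul_zero, mul_one, zero_mul, one_mul, zero_add, add_zero, neg_zero, sub_zero]); (try ring))) y.2 0 * hd'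
      · simp only [tU, dot, Pi.add_apply, Pi.smul_apply, smul_eq_mul, Pi.zero_apply]
        linear_combination (norm := (ring_nf; (try simp only [n2, n3, n4, n5, n6, n7, n8, n9, n10, n12, n14, n16, n18, n20, n24,
    mul_zero, mul_one, zero_mul, one_mul, zero_add, add_zero, neg_zero, sub_zero]); (try ring))) y.2 1 * hd'
      · simp only [tU, dot, Pi.add_apply, Pi.smul_apply, smul_eq_mul, Pi.zero_apply]
        linear_combination (norm := (ring_nf; (try simp only [n2, n3, n4, n5, n6, n7, n8, n9, n10, n12, n14, n16, n18, n20, n24,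
    mul_zero, mul_one, zero_mul, one_mul, zero_add, add_zero, neg_zero, sub_zero]); (try ring))) y.2 2 * hd'
  by_cases hw : x.2 = 0
  · refine ⟨x.1, ?_, ?_⟩
    · intro h
      apply hx
      exact Prod.ext h hw
    · have : x = (x.1, 0) := Prod.ext rfl hw
      rw [← this]
      exact Mov.refl hP x
  · by_cases hQ : Qf x = 0
    · obtain ⟨u, hu⟩ : ∃ u, dot u x.2 = 1 := by
        by_contra hcon
        push Not at hcon
        apply hw
        funext i
        by_contra hi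
        revert i
        have h0 := hcon ![(x.2 0)⁻¹, 0, 0]
        have h1 := hcon ![0, (x.2 1)⁻¹, 0]
        have h2 := hcon ![0, 0, (x.2 2)⁻¹]
        simp only [dot, Matrix.cons_val_zero, Matrix.cons_val_one, Matrix.cons_val, zero_mul,
          add_zero, zero_add] at h0 h1 h2
        apply forall_fin3
        · intro h; exact h0 (inv_mul_cancel₀ h)
        · intro h; exact h1 (inv_mul_cancel₀ h)
        · intro h; exact h2 (inv_mul_cancel₀ h)
      obtain ⟨v, hv, hmv⟩ := key (sU u x) (by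
        rw [Qf_sU, hQ, hu]
        simp)
      exact ⟨v, hv, Mov.trans hP ⟨_, hP.s u, rfl⟩ hmv⟩
    · exact key x hQ

/-- The maps `eU` are transitive on the nonzero vectors `(v, 0)`. -/
lemma mov_E1_of_ne (hP : Gen P) {v : Fin 3 → F} (hv : v 1 ≠ 0 ∨ v 2 ≠ 0) : Mov P (v, 0) E1 := by
  have h2 : Mov P (![1, v 1, v 2], 0) E1 := by
    refine ⟨eU ![0, v 1, v 2] ![1, 0, 0], hP.e _ _ (by simp [dot]), ?_⟩
    apply ext6 <;> simp only [sU, tU, eU, dot, crs, Pi.add_apply, Pi.smul_apply, smul_eq_mul,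
      Matrix.cons_val_zero, Matrix.cons_val_one, Matrix.cons_val] <;> simp [E1, CharTwo.add_self_eq_zero]
  refine Mov.trans hP ?_ h2
  rcases hv with h | h
  · refine ⟨eU ![v 0 + 1, 0, 0] ![0, (v 1)⁻¹, 0], hP.e _ _ (by simp [dot]), ?_⟩
    have e : (v 1)⁻¹ * v 1 = 1 := inv_mul_cancel₀ h
    apply ext6 <;> simp only [sU, tU, eU, dot, crs, Pi.add_apply, Pi.smul_apply, smul_eq_mul,
      Matrix.cons_val_zero, Matrix.cons_val_one, Matrix.cons_val]
    · linear_combination (norm := (ring_nf; (try simp only [n2, n3, n4, n5, n6, n7, n8, n9, n10, n12, n14, n16, n18, n20, n24,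
    mul_zero, mul_one, zero_mul, one_mul, zero_add, add_zero, neg_zero, sub_zero]); (try ring))) (v 0 + 1) * e
    · ring
    · ring
    · simp
    · simp
    · simp
  · refine ⟨eU ![v 0 + 1, 0, 0] ![0, 0, (v 2)⁻¹], hP.e _ _ (by simp [dot]), ?_⟩
    have e : (v 2)⁻¹ * v 2 = 1 := inv_mul_cancel₀ h
    apply ext6 <;> simp only [sU, tU, eU, dot, crs, Pi.add_apply, Pi.smul_apply, smul_eq_mul,
      Matrix.cons_val_zero, Matrix.cons_val_one, Matrix.cons_val]
    · linear_combination (norm := (ring_nf; (try simp only [n2, n3, n4, n5, n6, n7, n8, n9, n10, n12, n14, n16, n18, n20, n24,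
    mul_zero, mul_one, zero_mul, one_mul, zero_add, add_zero, neg_zero, sub_zero]); (try ring))) (v 0 + 1) * e
    · ring
    · ring
    · simp
    · simp
    · simp

lemma mov_E1_of_fst (hP : Gen P) {v : Fin 3 → F} (hv : v ≠ 0) : Mov P (v, 0) E1 := by
  by_cases h : v 1 ≠ 0 ∨ v 2 ≠ 0
  · exact mov_E1_of_ne hP h
  · push Not at h
    obtain ⟨h1, h2⟩ := h
    have h0 : v 0 ≠ 0 := by
      intro h0
      apply hv
      funext i
      revert i
      exact forall_fin3 h0 h1 h2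
    refine Mov.trans hP ?_ (mov_E1_of_ne hP (v := ![v 0, 1, 0]) (by simp))
    refine ⟨eU ![0, 1, 0] ![(v 0)⁻¹, 0, 0], hP.e _ _ (by simp [dot]), ?_⟩
    have e : (v 0)⁻¹ * v 0 = 1 := inv_mul_cancel₀ h0
    apply ext6 <;> simp only [sU, tU, eU, dot, crs, Pi.add_apply, Pi.smul_apply, smul_eq_mul,
      Matrix.cons_val_zero, Matrix.cons_val_one, Matrix.cons_val]
    · ring
    · linear_combination e + h1
    · linear_combination h2
    · simp
    · simp
    · simp

/-- `P` is transitive on the nonzero vectors. -/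
theorem mov_E1 (hP : Gen P) (hsq : ∀ c : F, ∃ d, d ^ 2 = c) {x : V6 F} (hx : x ≠ 0) :
    Mov P x E1 := by
  obtain ⟨v, hv, h⟩ := mov_snd hP hsq hx
  exact Mov.trans hP h (mov_E1_of_fst hP hv)

/-! ### Pairs -/

/-- step with a map `eU` fixing `E1` -/
lemma mov2_e (hP : Gen P) {a b : Fin 3 → F} (hab : dot a b = 0) (hb : b 0 = 0) (y : V6 F) :
    Mov2 P E1 y E1 (eU a b y) := by
  refine ⟨eU a b, hP.e _ _ hab, ?_, rfl⟩
  apply ext6 <;> simp only [sU, tU, eU, dot, crs, Pi.add_apply, Pi.smul_apply, smul_eq_mul,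
      Matrix.cons_val_zero, Matrix.cons_val_one, Matrix.cons_val] <;> simp [E1, hb]

/-- step with a map `tU` fixing `E1` -/
lemma mov2_t (hP : Gen P) {c : Fin 3 → F} (hc : c 0 = 0) (y : V6 F) :
    Mov2 P E1 y E1 (tU c y) := by
  refine ⟨tU c, hP.t _, ?_, rfl⟩
  apply ext6 <;> simp only [sU, tU, eU, dot, crs, Pi.add_apply, Pi.smul_apply, smul_eq_mul,
      Matrix.cons_val_zero, Matrix.cons_val_one, Matrix.cons_val] <;> simp [E1, hc]

/-- step 1: `v 1 = 1` -/
lemma pair_step1 (hP : Gen P) {y : V6 F} (hy : y.2 0 = 0) (hv : y.1 1 ≠ 0 ∨ y.1 2 ≠ 0) :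
    ∃ z : V6 F, Mov2 P E1 y E1 z ∧ z.2 0 = 0 ∧ z.1 1 = 1 := by
  -- the case `v 2 ≠ 0`
  have key : ∀ y : V6 F, y.2 0 = 0 → y.1 2 ≠ 0 →
      ∃ z : V6 F, Mov2 P E1 y E1 z ∧ z.2 0 = 0 ∧ z.1 1 = 1 := by
    intro y hy h2
    refine ⟨_, mov2_e hP (a := ![0, y.1 1 + 1, 0]) (b := ![0, 0, (y.1 2)⁻¹]) (by simp [dot])
      (by simp) y, ?_, ?_⟩
    · simp only [sU, tU, eU, dot, crs, Pi.add_apply, Pi.smul_apply, smul_eq_mul,
      Matrix.cons_val_zero, Matrix.cons_val_one, Matrix.cons_val]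
      rw [hy]
      ring
    · simp only [sU, tU, eU, dot, crs, Pi.add_apply, Pi.smul_apply, smul_eq_mul,
      Matrix.cons_val_zero, Matrix.cons_val_one, Matrix.cons_val]
      have e : (y.1 2)⁻¹ * y.1 2 = 1 := inv_mul_cancel₀ h2
      linear_combination (norm := (ring_nf; (try simp only [n2, n3, n4, n5, n6, n7, n8, n9, n10, n12, n14, n16, n18, n20, n24,
    mul_zero, mul_one, zero_mul, one_mul, zero_add, add_zero, neg_zero, sub_zero]); (try ring))) (y.1 1 + 1) * e
  by_cases h2 : y.1 2 = 0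
  · have h1 : y.1 1 ≠ 0 := by
      rcases hv with h | h
      · exact h
      · exact absurd h2 h
    have hm := mov2_e hP (a := ![0, 0, 1]) (b := ![0, (y.1 1)⁻¹, 0]) (by simp [dot])
      (by simp) y
    obtain ⟨z, hz, h3, h4⟩ := key (eU ![0, 0, 1] ![0, (y.1 1)⁻¹, 0] y) (by
      simp only [sU, tU, eU, dot, crs, Pi.add_apply, Pi.smul_apply, smul_eq_mul,
      Matrix.cons_val_zero, Matrix.cons_val_one, Matrix.cons_val]
      rw [hy]
      ring) (by
      simp only [sU, tU, eU, dot, crs, Pi.add_apply, Pi.smul_apply, smul_eq_mul,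
      Matrix.cons_val_zero, Matrix.cons_val_one, Matrix.cons_val]
      have e : (y.1 1)⁻¹ * y.1 1 = 1 := inv_mul_cancel₀ h1
      rw [h2, e]
      simp)
    exact ⟨z, hm.trans hP hz, h3, h4⟩
  · exact key y hy h2

/-- step 2: `v = e₂` -/
lemma pair_step2 (hP : Gen P) {y : V6 F} (hy : y.2 0 = 0) (hv : y.1 1 = 1) :
    ∃ z : V6 F, Mov2 P E1 y E1 z ∧ z.2 0 = 0 ∧ z.1 = ![0, 1, 0] := by
  refine ⟨_, mov2_e hP (a := ![y.1 0, 0, y.1 2]) (b := ![0, 1, 0]) (by simp [dot])
      (by simp) y, ?_, ?_⟩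
  · simp only [sU, tU, eU, dot, crs, Pi.add_apply, Pi.smul_apply, smul_eq_mul,
      Matrix.cons_val_zero, Matrix.cons_val_one, Matrix.cons_val]
    rw [hy]
    ring
  · funext i
    revert i
    apply forall_fin3
    · simp only [sU, tU, eU, dot, crs, Pi.add_apply, Pi.smul_apply, smul_eq_mul,
      Matrix.cons_val_zero, Matrix.cons_val_one, Matrix.cons_val]
      rw [hv]
      linear_combination (norm := (ring_nf; (try simp only [n2, n3, n4, n5, n6, n7, n8, n9, n10, n12, n14, n16, n18, n20, n24,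
    mul_zero, mul_one, zero_mul, one_mul, zero_add, add_zero, neg_zero, sub_zero]); (try ring)))
    · simp only [sU, tU, eU, dot, crs, Pi.add_apply, Pi.smul_apply, smul_eq_mul,
      Matrix.cons_val_zero, Matrix.cons_val_one, Matrix.cons_val]
      rw [hv]
      ring
    · simp only [sU, tU, eU, dot, crs, Pi.add_apply, Pi.smul_apply, smul_eq_mul,
      Matrix.cons_val_zero, Matrix.cons_val_one, Matrix.cons_val]
      rw [hv]
      linear_combination (norm := (ring_nf; (try simp only [n2, n3, n4, n5, n6, n7, n8, n9, n10, n12, n14, n16, n18, n20, n24,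
    mul_zero, mul_one, zero_mul, one_mul, zero_add, add_zero, neg_zero, sub_zero]); (try ring)))

/-- step 3: `w = 0` -/
lemma pair_step3 (hP : Gen P) (hsq : ∀ c : F, ∃ d, d ^ 2 = c) {y : V6 F} (hy : y.2 0 = 0)
    (hv : y.1 = ![0, 1, 0]) : ∃ z : V6 F, Mov2 P E1 y E1 z ∧ z.2 = 0 ∧ z.1 1 = 1 := by
  -- the case `w 1 ≠ 0`
  have key : ∀ y : V6 F, y.2 0 = 0 → y.1 1 = 1 → y.1 2 = 0 → y.2 1 ≠ 0 →
      ∃ z : V6 F, Mov2 P E1 y E1 z ∧ z.2 = 0 ∧ z.1 1 = 1 := by
    intro y hy h1 h2 hw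
    obtain ⟨d, hd⟩ := hsq (y.2 1)
    have hd0 : d ≠ 0 := by
      rintro rfl
      apply hw
      rw [← hd]
      ring
    have e : d⁻¹ * d = 1 := inv_mul_cancel₀ hd0
    refine ⟨_, mov2_t hP (c := ![0, d, y.2 2 * d⁻¹]) (by simp) y, ?_, ?_⟩
    · funext i
      revert i
      apply forall_fin3
      · simp only [sU, tU, eU, dot, crs, Pi.add_apply, Pi.smul_apply, smul_eq_mul,
      Matrix.cons_val_zero, Matrix.cons_val_one, Matrix.cons_val]
        rw [hy, Pi.zero_apply]
        ring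
      · simp only [sU, tU, eU, dot, crs, Pi.add_apply, Pi.smul_apply, smul_eq_mul,
      Matrix.cons_val_zero, Matrix.cons_val_one, Matrix.cons_val]
        rw [h1, h2, Pi.zero_apply]
        linear_combination (norm := (ring_nf; (try simp only [n2, n3, n4, n5, n6, n7, n8, n9, n10, n12, n14, n16, n18, n20, n24,
    mul_zero, mul_one, zero_mul, one_mul, zero_add, add_zero, neg_zero, sub_zero]); (try ring))) hd
      · simp only [sU, tU, eU, dot, crs, Pi.add_apply, Pi.smul_apply, smul_eq_mul,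
      Matrix.cons_val_zero, Matrix.cons_val_one, Matrix.cons_val]
        rw [h1, h2, Pi.zero_apply]
        linear_combination (norm := (ring_nf; (try simp only [n2, n3, n4, n5, n6, n7, n8, n9, n10, n12, n14, n16, n18, n20, n24,
    mul_zero, mul_one, zero_mul, one_mul, zero_add, add_zero, neg_zero, sub_zero]); (try ring))) y.2 2 * e
    · simp only [sU, tU, eU, dot, crs, Pi.add_apply, Pi.smul_apply, smul_eq_mul,
      Matrix.cons_val_zero, Matrix.cons_val_one, Matrix.cons_val]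
      rw [h1, hy]
      ring
  have h1 : y.1 1 = 1 := by rw [hv]; rfl
  have h2 : y.1 2 = 0 := by rw [hv]; rfl
  by_cases hw : y.2 1 = 0
  · by_cases hw2 : y.2 2 = 0
    · refine ⟨y, ⟨eU 0 0, hP.e 0 0 (by simp [dot]), ?_, ?_⟩, ?_, h1⟩
      · apply ext6 <;> simp [eU, dot]
      · apply ext6 <;> simp [eU, dot]
      · funext i
        revert i
        exact forall_fin3 hy hw hw2
    · have hm := mov2_t hP (c := ![0, 1, 0]) (by simp) y
      obtain ⟨z, hz, h3, h4⟩ := key (tU ![0, 1, 0] y) (by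
        simp only [sU, tU, eU, dot, crs, Pi.add_apply, Pi.smul_apply, smul_eq_mul,
      Matrix.cons_val_zero, Matrix.cons_val_one, Matrix.cons_val]
        rw [hy]
        ring) (by
        simp only [sU, tU, eU, dot, crs, Pi.add_apply, Pi.smul_apply, smul_eq_mul,
      Matrix.cons_val_zero, Matrix.cons_val_one, Matrix.cons_val]
        rw [h1]
        ring) (by
        simp only [sU, tU, eU, dot, crs, Pi.add_apply, Pi.smul_apply, smul_eq_mul,
      Matrix.cons_val_zero, Matrix.cons_val_one, Matrix.cons_val]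
        rw [h2, hy]
        ring) (by
        simp only [sU, tU, eU, dot, crs, Pi.add_apply, Pi.smul_apply, smul_eq_mul,
      Matrix.cons_val_zero, Matrix.cons_val_one, Matrix.cons_val]
        rw [h1, hw]
        simp)
      exact ⟨z, hm.trans hP hz, h3, h4⟩
  · exact key y hy h1 h2 hw

/-- Orthogonal noncollinear pairs are moved to `(E1, E2)`. -/
theorem mov_E12 (hP : Gen P) (hsq : ∀ c : F, ∃ d, d ^ 2 = c) {y : V6 F} (hy : y.2 0 = 0)
    (hv : y.1 1 ≠ 0 ∨ y.1 2 ≠ 0) : Mov2 P E1 y E1 E2 := by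
  obtain ⟨z1, hm1, h1, h1'⟩ := pair_step1 hP hy hv
  obtain ⟨z2, hm2, h2, h2'⟩ := pair_step2 hP h1 h1'
  obtain ⟨z3, hm3, h3, h3'⟩ := pair_step3 hP hsq h2 h2'
  refine ((hm1.trans hP hm2).trans hP hm3).trans hP ?_
  have hm4 := mov2_e hP (a := ![z3.1 0, 0, z3.1 2]) (b := ![0, 1, 0]) (by simp [dot])
      (by simp) z3
  have e : eU ![z3.1 0, 0, z3.1 2] ![0, 1, 0] z3 = E2 := by
    apply ext6 <;> simp only [sU, tU, eU, dot, crs, Pi.add_apply, Pi.smul_apply, smul_eq_mul,
      Matrix.cons_val_zero, Matrix.cons_val_one, Matrix.cons_val]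
    · rw [h3']
      simp only [E2, Matrix.cons_val_zero]
      linear_combination (norm := (ring_nf; (try simp only [n2, n3, n4, n5, n6, n7, n8, n9, n10, n12, n14, n16, n18, n20, n24,
    mul_zero, mul_one, zero_mul, one_mul, zero_add, add_zero, neg_zero, sub_zero]); (try ring)))
    · rw [h3']
      simp [E2]
    · rw [h3']
      simp only [E2, Matrix.cons_val]
      linear_combination (norm := (ring_nf; (try simp only [n2, n3, n4, n5, n6, n7, n8, n9, n10, n12, n14, n16, n18, n20, n24,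
    mul_zero, mul_one, zero_mul, one_mul, zero_add, add_zero, neg_zero, sub_zero]); (try ring)))
    · rw [h3]
      simp [E2]
    · rw [h3]
      simp [E2]
    · rw [h3]
      simp [E2]
  rw [e] at hm4
  exact hm4

/-- steps for collinear pairs -/
lemma line_step1 (hP : Gen P) {y : V6 F} (h0 : y.2 0 = 0) (h1 : y.1 1 = 0) (h2 : y.1 2 = 0)
    (hw : y.2 1 ≠ 0 ∨ y.2 2 ≠ 0) : ∃ z : V6 F, Mov2 P E1 y E1 z ∧ z.2 0 = 0 ∧ z.1 1 = 0 ∧
      z.1 2 = 0 ∧ z.2 1 = 1 := by
  have key : ∀ y : V6 F, y.2 0 = 0 → y.1 1 = 0 → y.1 2 = 0 → y.2 2 ≠ 0 →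
      ∃ z : V6 F, Mov2 P E1 y E1 z ∧ z.2 0 = 0 ∧ z.1 1 = 0 ∧ z.1 2 = 0 ∧ z.2 1 = 1 := by
    intro y h0 h1 h2 hw
    have e : (y.2 2)⁻¹ * y.2 2 = 1 := inv_mul_cancel₀ hw
    refine ⟨_, mov2_e hP (a := ![0, 0, (y.2 2)⁻¹]) (b := ![0, y.2 1 + 1, 0]) (by simp [dot])
      (by simp) y, ?_, ?_, ?_, ?_⟩
    · simp only [sU, tU, eU, dot, crs, Pi.add_apply, Pi.smul_apply, smul_eq_mul,
      Matrix.cons_val_zero, Matrix.cons_val_one, Matrix.cons_val]; rw [h0]; ring
    · simp only [sU, tU, eU, dot, crs, Pi.add_apply, Pi.smul_apply, smul_eq_mul,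
      Matrix.cons_val_zero, Matrix.cons_val_one, Matrix.cons_val]; rw [h1]; ring
    · simp only [sU, tU, eU, dot, crs, Pi.add_apply, Pi.smul_apply, smul_eq_mul,
      Matrix.cons_val_zero, Matrix.cons_val_one, Matrix.cons_val]; rw [h2, h1]; ring
    · simp only [sU, tU, eU, dot, crs, Pi.add_apply, Pi.smul_apply, smul_eq_mul,
      Matrix.cons_val_zero, Matrix.cons_val_one, Matrix.cons_val]
      linear_combination (norm := (ring_nf; (try simp only [n2, n3, n4, n5, n6, n7, n8, n9, n10, n12, n14, n16, n18, n20, n24,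
    mul_zero, mul_one, zero_mul, one_mul, zero_add, add_zero, neg_zero, sub_zero]); (try ring))) (y.2 1 + 1) * e
  by_cases hw2 : y.2 2 = 0
  · have hw1 : y.2 1 ≠ 0 := by
      rcases hw with h | h
      · exact h
      · exact absurd hw2 h
    have e : (y.2 1)⁻¹ * y.2 1 = 1 := inv_mul_cancel₀ hw1
    have hm := mov2_e hP (a := ![0, (y.2 1)⁻¹, 0]) (b := ![0, 0, 1]) (by simp [dot])
      (by simp) y
    obtain ⟨z, hz, h3⟩ := key (eU ![0, (y.2 1)⁻¹, 0] ![0, 0, 1] y)
      (by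
        simp only [sU, tU, eU, dot, crs, Pi.add_apply, Pi.smul_apply, smul_eq_mul,
          Matrix.cons_val_zero, Matrix.cons_val_one, Matrix.cons_val]
        rw [h0]; ring) (by
        simp only [sU, tU, eU, dot, crs, Pi.add_apply, Pi.smul_apply, smul_eq_mul,
          Matrix.cons_val_zero, Matrix.cons_val_one, Matrix.cons_val]
        rw [h1, h2]; ring) (by
        simp only [sU, tU, eU, dot, crs, Pi.add_apply, Pi.smul_apply, smul_eq_mul,
          Matrix.cons_val_zero, Matrix.cons_val_one, Matrix.cons_val]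
        rw [h2]; ring) (by
        simp only [sU, tU, eU, dot, crs, Pi.add_apply, Pi.smul_apply, smul_eq_mul,
      Matrix.cons_val_zero, Matrix.cons_val_one, Matrix.cons_val]
        rw [hw2]
        have : (0 : F) + (0 * y.2 0 + (y.2 1)⁻¹ * y.2 1 + 0 * 0) * 1 = 1 := by
          rw [e]; ring
        rw [this]
        exact one_ne_zero)
    exact ⟨z, hm.trans hP hz, h3⟩
  · exact key y h0 h1 h2 hw2

/-- Collinear independent pairs are moved to `(E1, L2)`. -/
theorem mov_line (hP : Gen P) {y : V6 F} (h0 : y.2 0 = 0) (h1 : y.1 1 = 0) (h2 : y.1 2 = 0)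
    (hw : y.2 1 ≠ 0 ∨ y.2 2 ≠ 0) : Mov2 P E1 y E1 L2 := by
  obtain ⟨z, hm, g0, g1, g2, g3⟩ := line_step1 hP h0 h1 h2 hw
  refine hm.trans hP ?_
  have hm1 := mov2_e hP (a := ![0, 1, 0]) (b := ![0, 0, z.2 2]) (by simp [dot]) (by simp) z
  refine hm1.trans hP ?_
  have hm2 := mov2_t hP (c := ![0, 0, z.1 0]) (by simp) (eU ![0, 1, 0] ![0, 0, z.2 2] z)
  have e : tU ![0, 0, z.1 0] (eU ![0, 1, 0] ![0, 0, z.2 2] z) = L2 := by
    apply ext6 <;> simp only [sU, tU, eU, dot, crs, Pi.add_apply, Pi.smul_apply, smul_eq_mul,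
      Matrix.cons_val_zero, Matrix.cons_val_one, Matrix.cons_val] <;> rw [g0, g1, g2, g3]
    · simp only [L2, Pi.zero_apply]
      linear_combination (norm := (ring_nf; (try simp only [n2, n3, n4, n5, n6, n7, n8, n9, n10, n12, n14, n16, n18, n20, n24,
    mul_zero, mul_one, zero_mul, one_mul, zero_add, add_zero, neg_zero, sub_zero]); (try ring)))
    · simp only [L2, Pi.zero_apply]
      ring
    · simp only [L2, Pi.zero_apply]
      ring
    · simp only [L2, Matrix.cons_val_zero]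
      ring
    · simp only [L2, Matrix.cons_val_one, Matrix.cons_val_zero]
      ring
    · simp only [L2, Matrix.cons_val]
      linear_combination (norm := (ring_nf; (try simp only [n2, n3, n4, n5, n6, n7, n8, n9, n10, n12, n14, n16, n18, n20, n24,
    mul_zero, mul_one, zero_mul, one_mul, zero_add, add_zero, neg_zero, sub_zero]); (try ring)))
  rw [e] at hm2
  exact hm2

/-! ### Semilinear automorphisms of the hexagon -/

/-- Semilinear automorphisms of the space preserving the form up to a factor, and collinearity. -/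
structure HexSemi (g : V6 F ≃+ V6 F) (σ : F ≃+* F) : Prop where
  semi : ∀ (c : F) x, g (c • x) = σ c • g x
  form : ∃ c : F, c ≠ 0 ∧ ∀ x y, Bf (g x) (g y) = c * σ (Bf x y)
  col : ∀ x y, Col (g x) (g y) ↔ Col x y

omit [CharP F 2] in
lemma HexSemi.trans {g h : V6 F ≃+ V6 F} {σ τ : F ≃+* F} (hg : HexSemi g σ) (hh : HexSemi h τ) :
    HexSemi (g.trans h) (σ.trans τ) := by
  refine ⟨fun c x => ?_, ?_, fun x y => ?_⟩
  · rw [AddEquiv.trans_apply, hg.semi, hh.semi]
    rfl
  · obtain ⟨c, hc, h1⟩ := hg.form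
    obtain ⟨d, hd, h2⟩ := hh.form
    refine ⟨d * τ c, mul_ne_zero hd (by rwa [Ne, map_eq_zero]), fun x y => ?_⟩
    rw [AddEquiv.trans_apply, AddEquiv.trans_apply, h2, h1, map_mul]
    change d * (τ c * τ (σ (Bf x y))) = d * τ c * τ (σ (Bf x y))
    ring
  · rw [AddEquiv.trans_apply, AddEquiv.trans_apply, hh.col, hg.col]

omit [CharP F 2] in
lemma HexSemi.symm {g : V6 F ≃+ V6 F} {σ : F ≃+* F} (hg : HexSemi g σ) :
    HexSemi g.symm σ.symm := by
  refine ⟨fun c x => ?_, ?_, fun x y => ?_⟩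
  · apply g.injective
    rw [g.apply_symm_apply, hg.semi, σ.apply_symm_apply, g.apply_symm_apply]
  · obtain ⟨c, hc, h1⟩ := hg.form
    refine ⟨σ.symm c⁻¹, by rw [Ne, map_eq_zero]; exact inv_ne_zero hc, fun x y => ?_⟩
    have h2 := h1 (g.symm x) (g.symm y)
    rw [g.apply_symm_apply, g.apply_symm_apply] at h2
    rw [h2, ← map_mul, ← mul_assoc, inv_mul_cancel₀ hc, one_mul, σ.symm_apply_apply]
  · rw [← hg.col, g.apply_symm_apply, g.apply_symm_apply]

lemma hex_of_pres {g : V6 F ≃+ V6 F} (hs : ∀ (c : F) x, g (c • x) = c • g x)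
    (hb : ∀ x y, Bf (g x) (g y) = Bf x y) (hc : ∀ x y, Col x y → Col (g x) (g y))
    (hc' : ∀ x y, Col x y → Col (g.symm x) (g.symm y)) : HexSemi g (RingEquiv.refl F) := by
  refine ⟨hs, ⟨1, one_ne_zero, fun x y => by rw [hb, one_mul]; rfl⟩, fun x y => ⟨fun h => ?_,
    hc x y⟩⟩
  have := hc' _ _ h
  rwa [g.symm_apply_apply, g.symm_apply_apply] at this

lemma hexSemi_sE (u : Fin 3 → F) : HexSemi (sE u) (RingEquiv.refl F) :=
  hex_of_pres (fun c x => sU_smul u c x) (fun x y => Bf_sU u x y) (fun _ _ h => Col_sU u h)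
    (fun _ _ h => Col_sU u h)

lemma hexSemi_tE (u : Fin 3 → F) : HexSemi (tE u) (RingEquiv.refl F) :=
  hex_of_pres (fun c x => tU_smul u c x) (fun x y => Bf_tU u x y) (fun _ _ h => Col_tU u h)
    (fun _ _ h => Col_tU u h)

lemma hexSemi_eE (a b : Fin 3 → F) (hab : dot a b = 0) :
    HexSemi (eE a b hab) (RingEquiv.refl F) :=
  hex_of_pres (fun c x => eU_smul a b c x) (fun x y => Bf_eU hab x y)
    (fun _ _ h => Col_eU hab h) (fun _ _ h => Col_eU hab h)

/-- linear automorphisms of the hexagon, as maps -/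
def IsHex (h : V6 F → V6 F) : Prop :=
  ∃ g : V6 F ≃+ V6 F, (∀ x, g x = h x) ∧ HexSemi g (RingEquiv.refl F)

lemma gen_isHex : Gen (IsHex (F := F)) where
  comp := by
    rintro g h ⟨g', h1, h2⟩ ⟨h', h3, h4⟩
    refine ⟨h'.trans g', fun x => ?_, ?_⟩
    · rw [AddEquiv.trans_apply, h1, h3]
      rfl
    · have := h4.trans h2
      have e3 : (RingEquiv.refl F).trans (RingEquiv.refl F) = RingEquiv.refl F := by ext x; rfl
      rwa [e3] at this
  s := fun u => ⟨sE u, fun _ => rfl, hexSemi_sE u⟩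
  t := fun u => ⟨tE u, fun _ => rfl, hexSemi_tE u⟩
  e := fun a b hab => ⟨eE a b hab, fun _ => rfl, hexSemi_eE a b hab⟩

/-! ### The subspaces -/

/-- the orthogonal of a set -/
def perp (W : Set (V6 F)) : Set (V6 F) := {a | ∀ w ∈ W, Bf a w = 0}

/-- `W` contains its orthogonal, and the stabiliser of `W` is transitive on its complement. -/
structure Hyp (W : Set (V6 F)) : Prop where
  co : ∀ a ∈ perp W, a ∈ W
  tr : ∀ x y, x ∉ W → y ∉ W → ∃ g σ, HexSemi g σ ∧ (∀ z, g z ∈ W ↔ z ∈ W) ∧ g x = y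

omit [CharP F 2] in
lemma mem_im (h : V6 F ≃+ V6 F) {W : Set (V6 F)} {z : V6 F} : z ∈ h '' W ↔ h.symm z ∈ W := by
  constructor
  · rintro ⟨x, hx, rfl⟩
    rwa [h.symm_apply_apply]
  · intro hz
    exact ⟨_, hz, h.apply_symm_apply z⟩

omit [CharP F 2] in
lemma perp_im {h : V6 F ≃+ V6 F} {σ : F ≃+* F} (hh : HexSemi h σ) {W : Set (V6 F)} {a : V6 F} :
    h a ∈ perp (h '' W) ↔ a ∈ perp W := by
  obtain ⟨c, hc, h1⟩ := hh.form
  constructor
  · intro ha w hw
    have := ha (h w) ⟨w, hw, rfl⟩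
    rw [h1, mul_eq_zero, or_iff_right hc, map_eq_zero] at this
    exact this
  · rintro ha _ ⟨w, hw, rfl⟩
    rw [h1, ha w hw, map_zero, mul_zero]

omit [CharP F 2] in
lemma Hyp.im {W : Set (V6 F)} (hW : Hyp W) {h : V6 F ≃+ V6 F} {τ : F ≃+* F} (hh : HexSemi h τ) :
    Hyp (h '' W) := by
  refine ⟨fun a ha => ?_, fun x y hx hy => ?_⟩
  · rw [mem_im]
    apply hW.co
    rw [← perp_im hh, h.apply_symm_apply]
    exact ha
  · rw [mem_im] at hx hy
    obtain ⟨g, σ, hg, h1, h2⟩ := hW.tr _ _ hx hy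
    refine ⟨h.symm.trans (g.trans h), _, hh.symm.trans (hg.trans hh), fun z => ?_, ?_⟩
    · rw [mem_im, mem_im, AddEquiv.trans_apply, AddEquiv.trans_apply, h.symm_apply_apply, h1]
    · rw [AddEquiv.trans_apply, AddEquiv.trans_apply, h2, h.apply_symm_apply]

omit [CharP F 2] in
/-- the orthogonal is invariant -/
lemma perp_inv {W : Set (V6 F)} {g : V6 F ≃+ V6 F} {σ : F ≃+* F} (hg : HexSemi g σ)
    (h : ∀ z, g z ∈ W ↔ z ∈ W) {a : V6 F} : g a ∈ perp W ↔ a ∈ perp W := by
  have e : g '' W = W := by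
    ext z
    rw [mem_im, ← h, g.apply_symm_apply]
  have := perp_im hg (W := W) (a := a)
  rwa [e] at this

omit [CharP F 2] in
lemma perp_add {W : Set (V6 F)} {a b : V6 F} (ha : a ∈ perp W) (hb : b ∈ perp W) :
    a + b ∈ perp W := by
  intro w hw
  rw [Bf_add_left, ha w hw, hb w hw, add_zero]

omit [CharP F 2] in
lemma perp_smul {W : Set (V6 F)} {a : V6 F} (c : F) (ha : a ∈ perp W) : c • a ∈ perp W := by
  intro w hw
  rw [Bf_smul_left, ha w hw, mul_zero]

omit [CharP F 2] in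
lemma Bf_E1 (z : V6 F) : Bf E1 z = z.2 0 := by
  simp [Bf, E1, dot]

omit [CharP F 2] in
lemma Bf_E2 (z : V6 F) : Bf E2 z = z.2 1 := by
  simp [Bf, E2, dot]

omit [CharP F 2] in
lemma Bf_L2 (z : V6 F) : Bf L2 z = z.1 1 := by
  simp [Bf, L2, dot]

omit [CharP F 2] in
lemma sq_zero {c : F} (h : c ^ 2 = 0) : c = 0 := pow_eq_zero_iff (two_ne_zero) |>.mp h

omit [CharP F 2] in
/-- collinear with `E1` -/
lemma col_E1 {z : V6 F} (h : Col z E1) : z.2 0 = 0 ∧ z.1 1 = 0 ∧ z.1 2 = 0 := by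
  obtain ⟨h0, h1, h2, h3⟩ := h
  have hQ : Qf (E1 : V6 F) = 0 := by simp [Qf, E1, dot]
  have h21 := h2 1
  have h22 := h2 2
  rw [crs_one', hQ] at h21
  rw [crs_two', hQ] at h22
  simp only [E1, Matrix.cons_val_zero, Matrix.cons_val_one, Matrix.cons_val, Pi.zero_apply] at h21 h22
  refine ⟨?_, ?_, ?_⟩
  · rw [Bf_comm, Bf_E1] at h0
    exact h0
  · apply sq_zero
    linear_combination -h22
  · apply sq_zero
    linear_combination -h21

omit [CharP F 2] in
/-- collinear with `E2` -/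
lemma col_E2 {z : V6 F} (h : Col z E2) : z.2 1 = 0 ∧ z.1 0 = 0 ∧ z.1 2 = 0 := by
  obtain ⟨h0, h1, h2, h3⟩ := h
  have hQ : Qf (E2 : V6 F) = 0 := by simp [Qf, E2, dot]
  have h20 := h2 0
  have h22 := h2 2
  rw [crs_zero', hQ] at h20
  rw [crs_two', hQ] at h22
  simp only [E2, Matrix.cons_val_zero, Matrix.cons_val_one, Matrix.cons_val, Pi.zero_apply] at h20 h22
  refine ⟨?_, ?_, ?_⟩
  · rw [Bf_comm, Bf_E2] at h0
    exact h0
  · apply sq_zero
    linear_combination -h22
  · apply sq_zero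
    linear_combination -h20

/-- The plane `F^3 × 0` does not occur. -/
lemma no_E123 {W : Set (V6 F)} (hW : Hyp W) (h1 : E1 ∈ perp W) (h2 : E2 ∈ perp W)
    (h3 : ((![0, 0, 1], 0) : V6 F) ∈ perp W) : False := by
  have hW2 : ∀ z ∈ W, z.2 = 0 := by
    intro z hz
    funext i
    revert i
    apply forall_fin3
    · have := h1 z hz
      rwa [Bf_E1] at this
    · have := h2 z hz
      rwa [Bf_E2] at this
    · have := h3 z hz
      simpa [Bf, dot] using this
  have hx : ((0, ![1, 0, 0]) : V6 F) ∉ W := by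
    intro h
    have := congrFun (hW2 _ h) 0
    simp at this
  have hy : ((![1, 0, 0], ![1, 0, 0]) : V6 F) ∉ W := by
    intro h
    have := congrFun (hW2 _ h) 0
    simp at this
  obtain ⟨g, σ, hg, hgW, hgx⟩ := hW.tr _ _ hx hy
  have hc : Col ((0, ![1, 0, 0]) : V6 F) E2 := by
    refine ⟨?_, ?_, ?_, ?_⟩
    · simp [Bf, E2, dot]
    · apply forall_fin3 <;> simp [Qf, E2, dot, crs_zero', crs_one', crs_two']
    · apply forall_fin3 <;> simp [Qf, E2, dot, crs_zero', crs_one', crs_two']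
    · simp [Qf, E2, dot]
  rw [← hg.col, hgx] at hc
  have hu : (g E2).2 = 0 := hW2 _ ((hgW _).2 (hW.co _ h2))
  obtain ⟨-, h4, -, -⟩ := hc
  have hQ1 : Qf ((![1, 0, 0], ![1, 0, 0]) : V6 F) = 1 := by simp [Qf, dot]
  have hQ2 : Qf (g E2) = 0 := by simp [Qf, dot, hu]
  have h5 : g E2 = 0 := by
    apply Prod.ext
    · funext i
      apply sq_zero
      have := h4 i
      rw [hQ1, hQ2, hu, one_mul, zero_mul, add_zero] at this
      rw [this]
      revert i
      apply forall_fin3 <;> simp [crs_zero', crs_one', crs_two']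
    · exact hu
  have h6 : (E2 : V6 F) = 0 := by
    rw [← g.symm_apply_apply E2, h5, map_zero]
  have h7 := congrFun (congrArg Prod.fst h6) 1
  simp [E2] at h7

/-- Noncollinear pairs in the orthogonal are impossible (normal form). -/
lemma no_E12 (hsq : ∀ c : F, ∃ d, d ^ 2 = c) {W : Set (V6 F)} (hW : Hyp W) (h1 : E1 ∈ perp W)
    (h2 : E2 ∈ perp W) : False := by
  have hW1 := hW.co _ h1
  have hW2 := hW.co _ h2
  have hu0 : ∀ u ∈ perp W, u.2 0 = 0 := by
    intro u hu
    have := hu E1 hW1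
    rwa [Bf_comm, Bf_E1] at this
  have hu1 : ∀ u ∈ perp W, u.2 1 = 0 := by
    intro u hu
    have := hu E2 hW2
    rwa [Bf_comm, Bf_E2] at this
  by_cases hcase : ∀ u ∈ perp W, u.1 2 = 0
  · -- the common neighbour
    have hcol : ∀ u ∈ perp W, Col ((0, ![0, 0, 1]) : V6 F) u := by
      intro u hu
      have g0 := hu0 u hu
      have g1 := hu1 u hu
      have g2 := hcase u hu
      have hQu : Qf u = 0 := by simp [Qf, dot, g0, g1, g2]
      have hQc : Qf ((0, ![0, 0, 1]) : V6 F) = 0 := by simp [Qf, dot]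
      refine ⟨?_, ?_, ?_, ?_⟩
      · simp [Bf, dot, g2]
      · apply forall_fin3 <;> simp [hQu, hQc, crs_zero', crs_one', crs_two', g0, g1]
      · apply forall_fin3 <;> simp [hQu, hQc, crs_zero', crs_one', crs_two']
      · simp [hQu, dot]
    have hx : ((0, ![1, 0, 0]) : V6 F) ∉ W := by
      intro h
      have := h1 _ h
      rw [Bf_E1] at this
      simp at this
    have hy : ((![0, 0, 1], ![1, 0, 0]) : V6 F) ∉ W := by
      intro h
      have := h1 _ h
      rw [Bf_E1] at this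
      simp at this
    obtain ⟨g, σ, hg, hgW, hgx⟩ := hW.tr _ _ hx hy
    -- the image of the common neighbour
    have hc1 : ∀ u ∈ perp W, Col (g (0, ![0, 0, 1])) u := by
      intro u hu
      have h3 : g.symm u ∈ perp W := by
        rw [← perp_inv hg hgW, g.apply_symm_apply]
        exact hu
      have h4 := hcol _ h3
      rw [← hg.col, g.apply_symm_apply] at h4
      exact h4
    obtain ⟨a1, a2, a3⟩ := col_E1 (hc1 _ h1)
    obtain ⟨b1, b2, b3⟩ := col_E2 (hc1 _ h2)
    obtain ⟨c, hc, hform⟩ := hg.form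
    have h3 := hform (0, ![0, 0, 1]) (0, ![1, 0, 0])
    rw [hgx] at h3
    have h4 : Bf ((0, ![0, 0, 1]) : V6 F) (0, ![1, 0, 0]) = 0 := by simp [Bf, dot]
    rw [h4, map_zero, mul_zero] at h3
    have h5 : (g (0, ![0, 0, 1])).2 2 = 0 := by
      simpa [Bf, dot, a2, b2, a3] using h3
    have h6 : g (0, ![0, 0, 1]) = 0 := ext6 b2 a2 a3 a1 b1 h5
    have h7 : ((0, ![0, 0, 1]) : V6 F) = 0 := by
      rw [← g.symm_apply_apply (0, ![0, 0, 1]), h6, map_zero]
    have h8 := congrFun (congrArg Prod.snd h7) 2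
    simp at h8
  · push Not at hcase
    obtain ⟨u, hu, hu2⟩ := hcase
    obtain ⟨s, hs⟩ := hsq ((u.1 2)⁻¹ * u.2 2)
    -- a vector `(e₃, k e₃)`
    have hv : ((![0, 0, 1], ![0, 0, s ^ 2]) : V6 F) ∈ perp W := by
      have e : ((![0, 0, 1], ![0, 0, s ^ 2]) : V6 F) = (u.1 2)⁻¹ • u +
          (((u.1 2)⁻¹ * u.1 0) • E1 + ((u.1 2)⁻¹ * u.1 1) • E2) := by
        have g0 := hu0 u hu
        have g1 := hu1 u hu
        have e1 : (u.1 2)⁻¹ * u.1 2 = 1 := inv_mul_cancel₀ hu2
        apply ext6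
        · simp only [E1, E2, Prod.fst_add, Prod.smul_fst, Pi.add_apply, Pi.smul_apply, smul_eq_mul,
            Matrix.cons_val_zero]
          linear_combination (norm := (ring_nf; (try simp only [n2, n3, n4, n5, n6, n7, n8, n9, n10, n12, n14, n16, n18, n20, n24,
    mul_zero, mul_one, zero_mul, one_mul, zero_add, add_zero, neg_zero, sub_zero]); (try ring)))
        · simp only [E1, E2, Prod.fst_add, Prod.smul_fst, Pi.add_apply, Pi.smul_apply, smul_eq_mul,
            Matrix.cons_val_one, Matrix.cons_val_zero]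
          linear_combination (norm := (ring_nf; (try simp only [n2, n3, n4, n5, n6, n7, n8, n9, n10, n12, n14, n16, n18, n20, n24,
    mul_zero, mul_one, zero_mul, one_mul, zero_add, add_zero, neg_zero, sub_zero]); (try ring)))
        · simp only [E1, E2, Prod.fst_add, Prod.smul_fst, Pi.add_apply, Pi.smul_apply, smul_eq_mul,
            Matrix.cons_val]
          linear_combination -e1
        · simp only [E1, E2, Prod.snd_add, Prod.smul_snd, Pi.add_apply, Pi.smul_apply, smul_eq_mul,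
            Matrix.cons_val_zero, Pi.zero_apply, g0]
          ring
        · simp only [E1, E2, Prod.snd_add, Prod.smul_snd, Pi.add_apply, Pi.smul_apply, smul_eq_mul,
            Matrix.cons_val_one, Matrix.cons_val_zero, Pi.zero_apply, g1]
          ring
        · simp only [E1, E2, Prod.snd_add, Prod.smul_snd, Pi.add_apply, Pi.smul_apply, smul_eq_mul,
            Matrix.cons_val, Pi.zero_apply]
          rw [hs]
          ring
      rw [e]
      exact perp_add (perp_smul _ hu) (perp_add (perp_smul _ h1) (perp_smul _ h2))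
    have hh := hexSemi_tE (F := F) ![0, 0, s]
    refine no_E123 (hW.im hh) ?_ ?_ ?_
    · have := (perp_im hh).2 h1
      rw [tE_2] at this
      have e : ((![E1.1 0 + s * E1.2 1, E1.1 1 + s * E1.2 0, E1.1 2],
          ![E1.2 0, E1.2 1, E1.2 2 + s ^ 2 * E1.1 2]) : V6 F) = E1 := by
        apply ext6 <;> simp [E1]
      rwa [e] at this
    · have := (perp_im hh).2 h2
      rw [tE_2] at this
      have e : ((![E2.1 0 + s * E2.2 1, E2.1 1 + s * E2.2 0, E2.1 2],
          ![E2.2 0, E2.2 1, E2.2 2 + s ^ 2 * E2.1 2]) : V6 F) = E2 := by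
        apply ext6 <;> simp [E2]
      rwa [e] at this
    · have := (perp_im hh).2 hv
      rw [tE_2] at this
      convert this using 1
      apply ext6 <;> simp [CharTwo.add_self_eq_zero]

/-- All pairs in the orthogonal are collinear. -/
theorem col_of_perp (hsq : ∀ c : F, ∃ d, d ^ 2 = c) {W : Set (V6 F)} (hW : Hyp W) {a b : V6 F}
    (ha : a ∈ perp W) (hb : b ∈ perp W) : Col a b := by
  by_contra hcon
  have ha0 : a ≠ 0 := by
    rintro rfl
    apply hcon
    refine ⟨?_, ?_, ?_, ?_⟩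
    · simp [Bf, dot]
    · apply forall_fin3 <;> simp [Qf, dot, crs_zero', crs_one', crs_two']
    · apply forall_fin3 <;> simp [Qf, dot, crs_zero', crs_one', crs_two']
    · simp [Qf, dot]
  obtain ⟨h, ⟨g, hgh, hg⟩, hga⟩ := mov_E1 gen_isHex hsq ha0
  rw [← hgh] at hga
  have hW' := hW.im hg
  have h1 : (E1 : V6 F) ∈ perp (g '' W) := by
    rw [← hga, perp_im hg]
    exact ha
  have h2 : g b ∈ perp (g '' W) := (perp_im hg).2 hb
  have h3 : (g b).2 0 = 0 := by
    have := h1 (g b) (hW'.co _ h2)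
    rwa [Bf_E1] at this
  have h4 : (g b).1 1 ≠ 0 ∨ (g b).1 2 ≠ 0 := by
    by_contra hcon2
    push Not at hcon2
    obtain ⟨h5, h6⟩ := hcon2
    apply hcon
    rw [← hg.col, hga]
    have hQ : Qf (g b) = 0 := by simp [Qf, dot, h3, h5, h6]
    have hQ1 : Qf (E1 : V6 F) = 0 := by simp [Qf, E1, dot]
    refine ⟨by rw [Bf_E1]; exact h3, ?_, ?_, ?_⟩
    · intro i
      rw [hQ, hQ1, zero_mul, zero_mul, add_zero]
      revert i
      apply forall_fin3 <;> simp [E1, crs_zero', crs_one', crs_two']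
    · intro i
      rw [hQ, hQ1, zero_mul, zero_mul, add_zero]
      revert i
      apply forall_fin3 <;> simp [E1, crs_zero', crs_one', crs_two', h5, h6]
    · simp [hQ, E1, dot, h3]
  obtain ⟨h', ⟨g', hgh', hg'⟩, e1, e2⟩ := mov_E12 gen_isHex hsq h3 h4
  rw [← hgh'] at e1 e2
  refine no_E12 hsq (hW'.im hg') ?_ ?_
  · rw [← e1, perp_im hg']
    exact h1
  · rw [← e2, perp_im hg']
    exact h2

omit [CharP F 2] in
/-- a subspace is the orthogonal of its orthogonal -/
lemma exists_perp (W : Submodule F (V6 F)) {z : V6 F} (hz : z ∉ W) :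
    ∃ a ∈ perp (W : Set (V6 F)), Bf a z ≠ 0 := by
  obtain ⟨φ, h1, h2⟩ := LinS.exists_fun hz
  have key : ∀ x : V6 F, φ x = Bf (![φ (0, ![1, 0, 0]), φ (0, ![0, 1, 0]), φ (0, ![0, 0, 1])],
      ![φ (![1, 0, 0], 0), φ (![0, 1, 0], 0), φ (![0, 0, 1], 0)]) x := by
    intro x
    have e : x = x.1 0 • ((![1, 0, 0], 0) : V6 F) + x.1 1 • ((![0, 1, 0], 0) : V6 F) +
        x.1 2 • ((![0, 0, 1], 0) : V6 F) + x.2 0 • ((0, ![1, 0, 0]) : V6 F) +
        x.2 1 • ((0, ![0, 1, 0]) : V6 F) + x.2 2 • ((0, ![0, 0, 1]) : V6 F) := by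
      apply ext6 <;> simp
    conv_lhs => rw [e]
    simp only [map_add, map_smul, smul_eq_mul, Bf, dot, Matrix.cons_val_zero, Matrix.cons_val_one,
      Matrix.cons_val]
    ring
  refine ⟨(![φ (0, ![1, 0, 0]), φ (0, ![0, 1, 0]), φ (0, ![0, 0, 1])],
    ![φ (![1, 0, 0], 0), φ (![0, 1, 0], 0), φ (![0, 0, 1], 0)]), fun w hw => ?_, ?_⟩
  · rw [← key]
    exact h2 w hw
  · rw [← key, h1]
    exact one_ne_zero

/-- The subspaces: hyperplanes `p^⊥`, and `l^⊥` for lines `l` of the hexagon. -/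
theorem hex_flats (hsq : ∀ c : F, ∃ d, d ^ 2 = c) {P : (V6 F → V6 F) → Prop} (hP : Gen P)
    (hPB : ∀ h, P h → ∀ x y, Bf (h x) (h y) = Bf x y) (W : Submodule F (V6 F)) (hne : W ≠ ⊤)
    (hW : Hyp (W : Set (V6 F))) :
    ∃ h, P h ∧ ((∀ z, z ∈ W ↔ (h z).2 0 = 0) ∨ ∀ z, z ∈ W ↔ (h z).2 0 = 0 ∧ (h z).1 1 = 0) := by
  obtain ⟨z₀, hz₀⟩ : ∃ z, z ∉ W := by
    by_contra hcon
    push Not at hcon
    exact hne (Submodule.eq_top_iff'.2 hcon)
  obtain ⟨a, ha, haz⟩ := exists_perp W hz₀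
  have ha0 : a ≠ 0 := by
    rintro rfl
    apply haz
    simp [Bf, dot]
  have hP' : Gen (fun h => P h ∧ IsHex (F := F) h) :=
    { comp := fun g h hg hh => ⟨hP.comp _ _ hg.1 hh.1, gen_isHex.comp _ _ hg.2 hh.2⟩
      s := fun u => ⟨hP.s u, gen_isHex.s u⟩
      t := fun u => ⟨hP.t u, gen_isHex.t u⟩
      e := fun a b h => ⟨hP.e a b h, gen_isHex.e a b h⟩ }
  obtain ⟨h1, ⟨hP1, g1, hg1, hx1⟩, e1⟩ := mov_E1 hP' hsq ha0
  -- the position of the vectors of the orthogonal
  have hpos : ∀ b ∈ perp (W : Set (V6 F)), (h1 b).2 0 = 0 ∧ (h1 b).1 1 = 0 ∧ (h1 b).1 2 = 0 := by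
    intro b hb
    have hc := col_of_perp hsq hW hb ha
    rw [← hx1.col, hg1, hg1, e1] at hc
    exact col_E1 hc
  by_cases hc : ∀ b ∈ perp (W : Set (V6 F)), (h1 b).2 = 0
  · refine ⟨h1, hP1, Or.inl fun z => ?_⟩
    have e2 : (h1 z).2 0 = Bf a z := by rw [← Bf_E1, ← e1, hPB _ hP1]
    rw [e2]
    constructor
    · intro hz
      exact ha z hz
    · intro hz
      by_contra hcon
      obtain ⟨b, hb, hbz⟩ := exists_perp W hcon
      apply hbz
      rw [← hPB _ hP1]
      obtain ⟨b1, b2, b3⟩ := hpos b hb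
      rw [← e2] at hz
      simp only [Bf, dot, hc b hb, b2, b3, hz, Pi.zero_apply]
      ring
  · push Not at hc
    obtain ⟨b₀, hb₀, hne0⟩ := hc
    obtain ⟨b1, b2, b3⟩ := hpos b₀ hb₀
    have hw : (h1 b₀).2 1 ≠ 0 ∨ (h1 b₀).2 2 ≠ 0 := by
      by_contra hcon
      push Not at hcon
      apply hne0
      funext i
      revert i
      exact forall_fin3 b1 hcon.1 hcon.2
    obtain ⟨h2, ⟨hP2, g2, hg2, hx2⟩, e2, e2'⟩ := mov_line hP' b1 b2 b3 hw
    refine ⟨h2 ∘ h1, hP.comp _ _ hP2 hP1, Or.inr fun z => ?_⟩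
    have e3 : ((h2 ∘ h1) z).2 0 = Bf a z := by
      rw [← Bf_E1, ← e2, ← e1]
      change Bf (h2 (h1 a)) (h2 (h1 z)) = _
      rw [hPB _ hP2, hPB _ hP1]
    have e4 : ((h2 ∘ h1) z).1 1 = Bf b₀ z := by
      rw [← Bf_L2, ← e2']
      change Bf (h2 (h1 b₀)) (h2 (h1 z)) = _
      rw [hPB _ hP2, hPB _ hP1]
    rw [e3, e4]
    constructor
    · intro hz
      exact ⟨ha z hz, hb₀ z hz⟩
    · rintro ⟨hz1, hz2⟩
      by_contra hcon
      obtain ⟨b, hb, hbz⟩ := exists_perp W hcon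
      apply hbz
      rw [← hPB _ hP1, ← hPB _ hP2]
      have hc1 := col_of_perp hsq hW hb ha
      rw [← hx1.col, hg1, hg1, e1, ← hx2.col, hg2, hg2, e2] at hc1
      have hc2 := col_of_perp hsq hW hb hb₀
      rw [← hx1.col, hg1, hg1, ← hx2.col, hg2, hg2, e2'] at hc2
      obtain ⟨d1, d2, d3⟩ := col_E1 hc1
      have hQ : Qf (h2 (h1 b)) = 0 := by simp [Qf, dot, d1, d2, d3]
      have hQ2 : Qf (L2 : V6 F) = 0 := by simp [Qf, L2, dot]
      have d4 : (h2 (h1 b)).2 2 = 0 := by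
        have h5 := hc2.2.1 0
        rw [hQ, hQ2, crs_zero'] at h5
        simp only [L2, Matrix.cons_val_one, Matrix.cons_val_zero, Matrix.cons_val] at h5
        apply sq_zero
        linear_combination -h5
      rw [← e3] at hz1
      rw [← e4] at hz2
      have hz1' : (h2 (h1 z)).2 0 = 0 := hz1
      have hz2' : (h2 (h1 z)).1 1 = 0 := hz2
      simp only [Bf, dot, d1, d2, d3, d4, hz1', hz2']
      ring

end Pool.Agent.SIT.Hex
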