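import Pool.Agent.SIT.HexPos
import Pool.Agent.SIT.SpHyp

/-!
# The codes of `2^6 : G_2(2)'` and `2^6 : G_2(2)`: necessity and the complete lists
-/

namespace Pool.Agent.SIT

open Finset

namespace G2

/-- the neighbours of `w` except `0`, `w` -/
noncomputable def nbr (w : Vec (2 * 3)) : Finset (Vec (2 * 3)) := by
  classical
  exact univ.filter (fun x => HexRel w x ∧ x ≠ 0 ∧ x ≠ w)

lemma mem_nbr {w x : Vec (2 * 3)} : x ∈ nbr w ↔ HexRel w x ∧ x ≠ 0 ∧ x ≠ w := by
  classical
  rw [nbr, mem_filter]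
  exact ⟨fun h => h.2, fun h => ⟨mem_univ _, h⟩⟩

lemma card_nbr {w : Vec (2 * 3)} (hw : w ≠ 0) : (nbr w).card ≤ 6 := by
  classical
  obtain ⟨n, hn, rfl⟩ := dec_surj w
  have hn0 : n ≠ 0 := by
    rintro rfl
    exact hw dec_zero
  have h1 := all_range chk_deg hn
  rw [Bool.or_eq_true, beq_iff_eq, beq_iff_eq] at h1
  have h2 := h1.resolve_left hn0
  -- the list of the neighbours
  set l := (List.range 64).filter fun x => hexTab.testBit (64 * n + x) with hl
  have hnd : l.Nodup := List.nodup_range.filter _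
  have hcard : l.toFinset.card = 8 := by
    rw [List.toFinset_card_of_nodup hnd, h2]
  have h0 : 0 ∈ l.toFinset := by
    rw [List.mem_toFinset, hl, List.mem_filter, List.mem_range]
    refine ⟨by norm_num, ?_⟩
    rw [← hexRel_tab hn (by norm_num), dec_zero]
    exact hexRel_symm (hexRel_zero _)
  have hself : n ∈ l.toFinset := by
    rw [List.mem_toFinset, hl, List.mem_filter, List.mem_range]
    refine ⟨hn, ?_⟩
    rw [← hexRel_tab hn hn]
    exact hexRel_self _
  have hsub : nbr (dec n) ⊆ ((l.toFinset.erase 0).erase n).image dec := by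
    intro x hx
    rw [mem_nbr] at hx
    obtain ⟨m, hm, rfl⟩ := dec_surj x
    rw [mem_image]
    refine ⟨m, ?_, rfl⟩
    rw [mem_erase, mem_erase, List.mem_toFinset, hl, List.mem_filter, List.mem_range]
    refine ⟨?_, ?_, hm, ?_⟩
    · rintro rfl
      exact hx.2.2 rfl
    · rintro rfl
      exact hx.2.1 dec_zero
    · rw [← hexRel_tab hn hm]
      exact hx.1
  refine (Finset.card_le_card hsub).trans (Finset.card_image_le.trans ?_)
  rw [Finset.card_erase_of_mem (by rw [mem_erase]; exact ⟨hn0, hself⟩),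
    Finset.card_erase_of_mem h0, hcard]

lemma rel_of_perp {a b : Vec (2 * 3)} (h : ∀ x, HexRel a x → sf 3 x b = 0) : HexRel a b := by
  obtain ⟨m, hm, rfl⟩ := dec_surj a
  obtain ⟨n, hn, rfl⟩ := dec_surj b
  have h1 := all_range chk_F2 hm
  have h2 := all_range h1 hn
  rw [Bool.or_eq_true, List.any_eq_true] at h2
  rcases h2 with h2 | ⟨x, hx, h2⟩
  · exact (hexRel_tab hm hn).2 h2
  · exfalso
    rw [List.mem_range] at hx
    rw [Bool.and_eq_true] at h2
    have h3 := h (dec x) ((hexRel_tab hm hx).2 h2.1)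
    rw [sf_dec, h2.2] at h3
    exact absurd h3 (by decide)

lemma no_triangle {a b c : Vec (2 * 3)} (ha : a ≠ 0) (hb : b ≠ 0) (hab : b ≠ a)
    (h1 : HexRel a b) (h2 : HexRel a c) (h3 : HexRel b c) :
    c = 0 ∨ c = a ∨ c = b ∨ c = a + b := by
  obtain ⟨m, hm, rfl⟩ := dec_surj a
  obtain ⟨n, hn, rfl⟩ := dec_surj b
  obtain ⟨k, hk, rfl⟩ := dec_surj c
  have c1 := all_range chk_F3 hm
  rw [Bool.or_eq_true, beq_iff_eq] at c1
  rcases c1 with c1 | c1
  · rw [c1, dec_zero] at ha
    exact absurd rfl ha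
  have c2 := all_range c1 hn
  rw [Bool.or_eq_true, Bool.or_eq_true, Bool.or_eq_true, beq_iff_eq, beq_iff_eq,
    Bool.not_eq_true'] at c2
  rcases c2 with ((c2 | c2) | c2) | c2
  · rw [c2, dec_zero] at hb
    exact absurd rfl hb
  · rw [c2] at hab
    exact absurd rfl hab
  · rw [hexRel_tab hm hn, c2] at h1
    exact absurd h1 (by decide)
  have c3 := all_range c2 hk
  rw [hexRel_tab hm hk] at h2
  rw [hexRel_tab hn hk] at h3
  rw [h2, h3] at c3
  simp only [Bool.not_true, Bool.or_eq_true, beq_iff_eq, Bool.false_or] at c3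
  rcases c3 with ((c3 | c3) | c3) | c3
  · left
    rw [c3, dec_zero]
  · right
    left
    rw [c3]
  · right
    right
    left
    rw [c3]
  · right
    right
    right
    rw [c3, dec_xor]

/-- the counting argument: all pairs of vectors of `W^⊥` are collinear -/
lemma perp_collinear (W : Submodule (ZMod 2) (Vec (2 * 3)))
    (hco : ∀ a, (∀ w ∈ W, sf 3 a w = 0) → a ∈ W)
    (d : ℕ) (hd : Module.finrank (ZMod 2) W = d) (hd3 : 3 ≤ d) (hd5 : d ≤ 5)
    (htr : ∀ x ∉ W, ∀ y ∉ W, ∃ g : Vec (2 * 3) ≃ₗ[ZMod 2] Vec (2 * 3),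
      (∀ a b, sf 3 (g a) (g b) = sf 3 a b) ∧ (∀ a b, HexRel (g a) (g b) ↔ HexRel a b) ∧
      (∀ z, g z ∈ W ↔ z ∈ W) ∧ g x = y)
    {a b : Vec (2 * 3)} (ha : ∀ w ∈ W, sf 3 a w = 0) (hb : ∀ w ∈ W, sf 3 b w = 0) :
    HexRel a b := by
  classical
  -- the perpendicular space
  let U : Finset (Vec (2 * 3)) := univ.filter (fun a => ∀ w ∈ W, sf 3 a w = 0)
  have hU : ∀ a, a ∈ U ↔ ∀ w ∈ W, sf 3 a w = 0 := by
    intro a
    rw [mem_filter]
    exact ⟨fun h => h.2, fun h => ⟨mem_univ _, h⟩⟩
  have hUcard : U.card = 2 ^ (6 - d) := by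
    have h1 := LinearMap.BilinForm.finrank_orthogonal (symp_sf 3).nondegenerate W
    rw [hd] at h1
    simp only [Module.finrank_fintype_fun_eq_card, Fintype.card_fin] at h1
    have h2 : Fintype.card ((sfB 3).orthogonal W) = 2 ^ (6 - d) := by
      rw [Module.card_eq_pow_finrank (K := ZMod 2), ZMod.card, h1]
    rw [← h2, ← Fintype.card_coe]
    apply Fintype.card_congr
    refine Equiv.subtypeEquivRight ?_
    intro x
    rw [hU, LinearMap.BilinForm.mem_orthogonal_iff]
    constructor
    · intro h w hw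
      change sf 3 w x = 0
      rw [sf_symm]
      exact h w hw
    · intro h w hw
      rw [sf_symm]
      exact h w hw
  let Wf : Finset (Vec (2 * 3)) := univ.filter (fun x => x ∉ W)
  have hWf : ∀ x, x ∈ Wf ↔ x ∉ W := by
    intro x
    rw [mem_filter]
    exact ⟨fun h => h.2, fun h => ⟨mem_univ _, h⟩⟩
  have hWcard : Wf.card = 64 - 2 ^ d := by
    have h1 : Fintype.card W = 2 ^ d := by
      rw [Module.card_eq_pow_finrank (K := ZMod 2), ZMod.card, hd]
    have h2 := Finset.card_filter_add_card_filter_not (s := (univ : Finset (Vec (2 * 3))))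
      (fun x => x ∈ W)
    have h3 : (univ.filter (fun x : Vec (2 * 3) => x ∈ W)).card = 2 ^ d := by
      rw [← h1, ← Fintype.card_coe]
      apply Fintype.card_congr
      refine Equiv.subtypeEquivRight ?_
      intro x
      rw [mem_filter]
      exact ⟨fun h => h.2, fun h => ⟨mem_univ _, h⟩⟩
    rw [h3, Finset.card_univ, card_vec] at h2
    change (univ.filter (fun x : Vec (2 * 3) => x ∉ W)).card = _
    have h4 : 2 ^ (2 * 3) = 64 := by norm_num
    omega
  -- no vector outside `W` has a neighbour in `U \ 0`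
  have hno : ∀ w ∈ U, w ≠ 0 → ∀ x, HexRel w x → x ∈ W := by
    by_contra hcon
    push Not at hcon
    obtain ⟨w, hw, hw0, x, hwx, hxW⟩ := hcon
    have hall : Wf ⊆ (U.erase 0).biUnion nbr := by
      intro y hy
      rw [hWf] at hy
      obtain ⟨g, hg1, hg2, hg3, hg4⟩ := htr x hxW y hy
      rw [mem_biUnion]
      refine ⟨g w, ?_, ?_⟩
      · rw [mem_erase, hU]
        refine ⟨?_, ?_⟩
        · rw [Ne, LinearEquiv.map_eq_zero_iff]
          exact hw0
        · intro v hv
          obtain ⟨v, rfl⟩ := g.surjective v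
          rw [hg1]
          exact (hU w).1 hw v ((hg3 v).1 hv)
      · rw [mem_nbr]
        refine ⟨?_, ?_, ?_⟩
        · rw [← hg4, hg2]
          exact hwx
        · rintro rfl
          exact hy W.zero_mem
        · rintro rfl
          apply hy
          rw [hg3]
          exact hco w ((hU w).1 hw)
    have h1 := Finset.card_le_card hall
    have h2 : ((U.erase 0).biUnion nbr).card ≤ (U.erase 0).card * 6 := by
      apply Finset.card_biUnion_le_card_mul
      intro v hv
      rw [mem_erase] at hv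
      exact card_nbr hv.1
    have h3 : (U.erase 0).card = 2 ^ (6 - d) - 1 := by
      rw [Finset.card_erase_of_mem, hUcard]
      rw [hU]
      intro w _
      exact sf_zero_left w
    rw [h3] at h2
    rw [hWcard] at h1
    have h4 := h1.trans h2
    interval_cases d <;> revert h4 <;> decide
  -- conclusion
  by_cases ha0 : a = 0
  · rw [ha0]
    exact hexRel_zero _
  apply rel_of_perp
  intro x hx
  rw [sf_symm]
  exact hb x (hno a ((hU a).2 ha) ha0 x hx)

/-- the flats of a `G`-SIT code, `G ≤ AG2`: dimension `5`, or a member of the hexagon code -/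
lemma flat_cases {G : Subgroup (AGL (2 * 3))} (hG : G ≤ AG2) {k : ℕ}
    {C : Set (Finset (Vec (2 * 3)))} (hC : IsSITCode G k C) {γ : Finset (Vec (2 * 3))} (hγ : γ ∈ C)
    {d : ℕ} (hd3 : 3 ≤ d) (hd5 : d < 2 * 3) (hk : k = 2 ^ d) (hγd : γ ∈ CoisoFlatCode 3 d) :
    d = 5 ∨ (d = 4 ∧ γ ∈ HexCode) := by
  classical
  obtain ⟨A, hA, hAd, hco⟩ := hγd
  have hcard := hC.card_eq γ hγ
  obtain ⟨u, hu⟩ : γ.Nonempty := by
    rw [← Finset.card_pos, hcard, hk]
    positivity
  set W := A.direction with hW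
  have hmemu : ∀ z, u + z ∈ γ ↔ z ∈ W := by
    intro z
    rw [direction_mem_iff hA hu]
    have h2 : u + z + u = z := by
      calc u + z + u = z + (u + u) := by abel
        _ = z := by rw [add_self', add_zero]
    rw [h2]
  have htr : ∀ x ∉ W, ∀ y ∉ W, ∃ g : Vec (2 * 3) ≃ₗ[ZMod 2] Vec (2 * 3),
      (∀ a b, sf 3 (g a) (g b) = sf 3 a b) ∧ (∀ a b, HexRel (g a) (g b) ↔ HexRel a b) ∧
      (∀ z, g z ∈ W ↔ z ∈ W) ∧ g x = y := by
    intro x hx y hy
    obtain ⟨g, hg, h1, h2, h3⟩ := hC.transitive γ hγ u hu (u + x) (fun h => hx ((hmemu x).1 h))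
      γ hγ u hu (u + y) (fun h => hy ((hmemu y).1 h))
    have hlin : ∀ z, g (u + z) = u + g.linear z := by
      intro z
      rw [agl_add, h2]
    obtain ⟨hpb, hhex⟩ := mem_AG2.1 (hG hg)
    refine ⟨g.linear, hpb, hhex, ?_, ?_⟩
    · intro z
      rw [← hmemu, ← hmemu, ← hlin]
      exact (act_eq_iff g γ γ).1 h1 _
    · rw [hlin] at h3
      exact add_left_cancel h3
  have hcol : ∀ a b, (∀ w ∈ W, sf 3 a w = 0) → (∀ w ∈ W, sf 3 b w = 0) → HexRel a b :=
    fun a b ha hb => perp_collinear W hco d hAd hd3 (by omega) htr ha hb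
  -- the perpendicular space
  let U : Finset (Vec (2 * 3)) := univ.filter (fun a => ∀ w ∈ W, sf 3 a w = 0)
  have hU : ∀ a, a ∈ U ↔ ∀ w ∈ W, sf 3 a w = 0 := by
    intro a
    rw [mem_filter]
    exact ⟨fun h => h.2, fun h => ⟨mem_univ _, h⟩⟩
  have hUcard : U.card = 2 ^ (6 - d) := by
    have h1 := LinearMap.BilinForm.finrank_orthogonal (symp_sf 3).nondegenerate W
    rw [hAd] at h1
    simp only [Module.finrank_fintype_fun_eq_card, Fintype.card_fin] at h1
    have h2 : Fintype.card ((sfB 3).orthogonal W) = 2 ^ (6 - d) := by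
      rw [Module.card_eq_pow_finrank (K := ZMod 2), ZMod.card, h1]
    rw [← h2, ← Fintype.card_coe]
    apply Fintype.card_congr
    refine Equiv.subtypeEquivRight ?_
    intro x
    rw [hU, LinearMap.BilinForm.mem_orthogonal_iff]
    constructor
    · intro h w hw
      change sf 3 w x = 0
      rw [sf_symm]
      exact h w hw
    · intro h w hw
      rw [sf_symm]
      exact h w hw
  have hU0 : (0 : Vec (2 * 3)) ∈ U := by
    rw [hU]
    intro w _
    exact sf_zero_left w
  have hUadd : ∀ a ∈ U, ∀ b ∈ U, a + b ∈ U := by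
    intro a ha b hb
    rw [hU] at ha hb ⊢
    intro w hw
    rw [sf_add_left, ha w hw, hb w hw, add_zero]
  by_cases hd : d = 5
  · exact Or.inl hd
  right
  have hd4 : d ≤ 4 := by omega
  have h4 : 4 ≤ U.card := by
    rw [hUcard]
    calc 4 = 2 ^ 2 := by norm_num
      _ ≤ 2 ^ (6 - d) := Nat.pow_le_pow_right (by norm_num) (by omega)
  obtain ⟨a, ha, ha0⟩ : ∃ a ∈ U, a ≠ 0 := by
    by_contra hcon
    push Not at hcon
    have h1 : U ⊆ {0} := by
      intro x hx
      rw [mem_singleton]
      exact hcon x hx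
    have h2 := Finset.card_le_card h1
    rw [card_singleton] at h2
    omega
  obtain ⟨b, hb, hb0, hba⟩ : ∃ b ∈ U, b ≠ 0 ∧ b ≠ a := by
    by_contra hcon
    push Not at hcon
    have h1 : U ⊆ {0, a} := by
      intro x hx
      rw [mem_insert, mem_singleton]
      by_cases hx0 : x = 0
      · exact Or.inl hx0
      · exact Or.inr (hcon x hx hx0)
    have h2 := (Finset.card_le_card h1).trans Finset.card_le_two
    omega
  -- the four vectors
  let Q : Finset (Vec (2 * 3)) := {0, a, b, a + b}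
  have hQU : Q ⊆ U := by
    intro x hx
    simp only [Q, mem_insert, mem_singleton] at hx
    rcases hx with rfl | rfl | rfl | rfl
    · exact hU0
    · exact ha
    · exact hb
    · exact hUadd a ha b hb
  have hQle : Q.card ≤ 4 := Finset.card_le_four
  rcases Nat.lt_or_ge d 4 with hlt | hge
  · -- dimension 3: a triangle
    exfalso
    have hd' : d = 3 := by omega
    have h8 : U.card = 8 := by rw [hUcard, hd']; norm_num
    obtain ⟨c, hc, hcQ⟩ : ∃ c ∈ U, c ∉ Q := by
      by_contra hcon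
      push Not at hcon
      have h2 := Finset.card_le_card (show U ⊆ Q from hcon)
      omega
    apply hcQ
    simp only [Q, mem_insert, mem_singleton]
    exact no_triangle ha0 hb0 hba (hcol a b ((hU a).1 ha) ((hU b).1 hb))
      (hcol a c ((hU a).1 ha) ((hU c).1 hc)) (hcol b c ((hU b).1 hb) ((hU c).1 hc))
  · have hd' : d = 4 := by omega
    refine ⟨hd', a, b, u, ha0, hb0, hba.symm, hcol a b ((hU a).1 ha) ((hU b).1 hb), ?_⟩
    have h44 : U.card = 4 := by rw [hUcard, hd']; norm_num
    have hQ4 : Q.card = 4 := by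
      have e1 : a + b ≠ b := by
        intro h
        apply ha0
        have := add_add_self a b
        rw [h, add_self'] at this
        exact this.symm
      have e2 : a + b ≠ a := by
        intro h
        apply hb0
        have h5 := self_add_add a b
        rw [h, add_self'] at h5
        exact h5.symm
      have e3 : a + b ≠ 0 := by
        intro h
        apply hba
        have := self_add_add a b
        rw [h, add_zero] at this
        exact this.symm
      change ({0, a, b, a + b} : Finset (Vec (2 * 3))).card = 4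
      rw [Finset.card_insert_of_notMem, Finset.card_insert_of_notMem,
        Finset.card_insert_of_notMem, Finset.card_singleton]
      · rw [mem_singleton]
        exact e1.symm
      · rw [mem_insert, mem_singleton]
        push Not
        exact ⟨hba.symm, e2.symm⟩
      · rw [mem_insert, mem_insert, mem_singleton]
        push Not
        exact ⟨ha0.symm, hb0.symm, e3.symm⟩
    have hQeq : Q = U := Finset.eq_of_subset_of_card_le hQU (by rw [h44, hQ4])
    intro z
    rw [direction_mem_iff hA hu, ← hW]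
    constructor
    · intro hz
      exact ⟨(hU a).1 ha _ hz, (hU b).1 hb _ hz⟩
    · rintro ⟨hz1, hz2⟩
      apply mem_of_orth (symp_sf 3)
      intro c hc
      have hcU : c ∈ Q := by
        rw [hQeq, hU]
        exact hc
      simp only [Q, mem_insert, mem_singleton] at hcU
      rcases hcU with rfl | rfl | rfl | rfl
      · exact sf_zero_left _
      · exact hz1
      · exact hz2
      · change sf 3 (a + b) (z + u) = 0
        rw [sf_add_left, hz1, hz2, add_zero]

/-- The codes of the groups `G` with `2^6 : G_2(2)' ≤ G ≤ 2^6 : G_2(2)`. -/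
theorem g2_iff {G : Subgroup (AGL (2 * 3))} (h1 : AG2' ≤ G) (h2 : G ≤ AG2) {k : ℕ}
    {C : Set (Finset (Vec (2 * 3)))} (hk3 : 3 ≤ k) (hkn : k ≤ 2 ^ (2 * 3 - 1))
    (hnt : C.Nontrivial) :
    IsSITCode G k C ↔ (k = 16 ∧ C = HexCode) ∨ (k = 28 ∧ C = SympDesign 3) ∨
      (k = 32 ∧ C = FlatCode (2 * 3) 5 ∧ IsSITCode G 32 (FlatCode (2 * 3) 5)) := by
  constructor
  · intro hC
    obtain ⟨γ, hγ⟩ := hnt.nonempty
    have hk32 : k ≤ 32 := by
      have : (2 : ℕ) ^ (2 * 3 - 1) = 32 := by norm_num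
      omega
    have hkn' : k < 2 ^ (2 * 3) := by
      have : (2 : ℕ) ^ (2 * 3) = 64 := by norm_num
      omega
    have heq : ∀ D : Set (Finset (Vec (2 * 3))), IsSITCode G k D → γ ∈ D → C = D := by
      intro D hD hγD
      apply Set.Subset.antisymm
      · intro δ hδ
        obtain ⟨g, hg, rfl⟩ := codeword_image hC hγ hδ (by omega) hkn'
        exact hD.invariant g hg γ hγD
      · intro δ hδ
        obtain ⟨g, hg, rfl⟩ := codeword_image hD hγD hδ (by omega) hkn'
        exact hC.invariant g hg γ hγ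
    rcases sp_codewords (r := 3) (by norm_num) (h2.trans AG2_le_ASp) hk3 hkn hC hγ with
      ⟨d, hd1, hd2, hd3, hd4⟩ | ⟨m, h, hm1, hm2, -, -⟩ | ⟨hk, hD⟩
    · rcases flat_cases h2 hC hγ hd1 hd2 hd3 hd4 with rfl | ⟨rfl, hhex⟩
      · right
        right
        have hk : k = 32 := by rw [hd3]; norm_num
        subst hk
        have hS := flatCode_SIT (n := 2 * 3) (d := 5) (by norm_num)
        have hγF : γ ∈ FlatCode (2 * 3) 5 := by
          obtain ⟨A, hA, hAd, -⟩ := hd4
          exact ⟨A, hA, hAd⟩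
        have hsub : C ⊆ FlatCode (2 * 3) 5 := by
          intro δ hδ
          obtain ⟨g, hg, rfl⟩ := codeword_image hC hγ hδ (by omega) hkn'
          exact hS.invariant g (Subgroup.mem_top _) γ hγF
        have hCF : C = FlatCode (2 * 3) 5 :=
          hyperplane_code (n := 2 * 3) (by norm_num) (twoTransitive_of_le h1) hC ⟨γ, hγ⟩
            (by norm_num) hsub
        refine ⟨rfl, hCF, ?_⟩
        rw [← hCF]
        exact hC
      · left
        have hk : k = 16 := by rw [hd3]; norm_num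
        subst hk
        exact ⟨rfl, heq _ (hexCode_SIT h1 h2) hhex⟩
    · omega
    · right
      left
      have hk : k = 28 := by rw [hk]; norm_num
      subst hk
      exact ⟨rfl, heq _ (design_SIT h1 h2) hD⟩
  · rintro (⟨rfl, rfl⟩ | ⟨rfl, rfl⟩ | ⟨rfl, rfl, h⟩)
    · exact hexCode_SIT h1 h2
    · exact design_SIT h1 h2
    · exact h

/-! ### `2^6 : G_2(2)'` is not transitive on the antiflags -/

/-- the invariant -/
def InvP (u x : Vec (2 * 3)) : Prop :=
  ∃ m n, m < 64 ∧ n < 64 ∧ dec m = u ∧ dec n = x ∧ invTab.testBit (64 * m + n) = true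

lemma inv_dec {m n : ℕ} (hm : m < 64) (hn : n < 64) :
    InvP (dec m) (dec n) ↔ invTab.testBit (64 * m + n) = true := by
  constructor
  · rintro ⟨m', n', hm', hn', h1, h2, h3⟩
    rw [← dec_inj hm' hm h1, ← dec_inj hn' hn h2]
    exact h3
  · intro h
    exact ⟨m, n, hm, hn, rfl, rfl, h⟩

lemma eA_cases {a b : Vec (2 * 3)} (h : HexRel a b) :
    (∀ x, eA a b h.1 x = x) ∨
      ∃ p ∈ hexLines, ∀ x, eA a b h.1 (dec x) = dec (eN p.1 p.2 x) := by
  by_cases ha0 : a = 0
  · left
    intro x
    rw [eA_apply, ha0, sf_zero_left, zero_smul, smul_zero, add_zero, add_zero]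
  by_cases hb0 : b = 0
  · left
    intro x
    rw [eA_apply, hb0, sf_zero_left, zero_smul, smul_zero, add_zero, add_zero]
  by_cases hab : a = b
  · left
    intro x
    rw [eA_apply, hab, add_add_self]
  right
  obtain ⟨m, hm, hma⟩ := dec_surj a
  obtain ⟨n, hn, hnb⟩ := dec_surj b
  have hm0 : m ≠ 0 := by
    rintro rfl
    exact ha0 (by rw [← hma, dec_zero])
  have hn0 : n ≠ 0 := by
    rintro rfl
    exact hb0 (by rw [← hnb, dec_zero])
  have hmn : m ≠ n := by
    rintro rfl
    exact hab (by rw [← hma, ← hnb])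
  obtain ⟨p, hp, h1, h2⟩ := mem_hexLines hm hn hm0 hn0 hmn (by rw [hma, hnb]; exact h)
  obtain ⟨hp1, hp2, hp3⟩ := hl_lt hp
  have h1' : a = dec p.1 ∨ a = dec p.2 ∨ a = dec p.1 + dec p.2 := by
    rw [← hma, ← dec_xor]
    rcases h1 with h1 | h1 | h1 <;> rw [h1]
    · exact Or.inl rfl
    · exact Or.inr (Or.inl rfl)
    · exact Or.inr (Or.inr rfl)
  have h2' : b = dec p.1 ∨ b = dec p.2 ∨ b = dec p.1 + dec p.2 := by
    rw [← hnb, ← dec_xor]
    rcases h2 with h2 | h2 | h2 <;> rw [h2]
    · exact Or.inl rfl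
    · exact Or.inr (Or.inl rfl)
    · exact Or.inr (Or.inr rfl)
  refine ⟨p, hp, ?_⟩
  intro x
  rw [eA_line h.1 hp3.1 hab h1' h2', eA_apply, ← dec_eN]

lemma inv_pres {g : AGL (2 * 3)} (hg : g ∈ AG2') :
    ∀ u x, sf 3 u x = 1 → (InvP (g.linear u) (g.linear x) ↔ InvP u x) := by
  induction hg using Subgroup.closure_induction with
  | mem g hg =>
    intro u x hux
    rcases hg with ⟨t, ht⟩ | ⟨a, b, h, hg⟩
    · have hl : ∀ y, g.linear y = y := by
        intro y
        rw [agl_linear', ht, ht, zero_add, add_add_self]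
      rw [hl, hl]
    · have hgx : ∀ y, g y = eA a b h.1 y := fun y => by rw [hg, eA_apply]
      have hg0 : g 0 = 0 := by
        rw [hg, sf_zero_right, sf_zero_right, zero_smul, zero_smul, add_zero, add_zero]
      rw [lin_of_zero hg0, lin_of_zero hg0, hgx, hgx]
      rcases eA_cases h with h1 | ⟨p, hp, h1⟩
      · rw [h1, h1]
      · obtain ⟨m, hm, rfl⟩ := dec_surj u
        obtain ⟨n, hn, rfl⟩ := dec_surj x
        obtain ⟨hp1, hp2, -⟩ := hl_lt hp
        rw [h1, h1, inv_dec (eN_lt hp1 hp2 hm) (eN_lt hp1 hp2 hn), inv_dec hm hn]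
        have c1 := chk_inv
        rw [List.all_eq_true] at c1
        have c2 := all_range (c1 p hp) hm
        have c3 := all_range c2 hn
        rw [Bool.or_eq_true, Bool.not_eq_true', beq_iff_eq] at c3
        rw [sf_dec, b2_true] at hux
        rcases c3 with c3 | c3
        · rw [hux] at c3
          exact absurd c3 (by decide)
        · rw [c3]
  | one =>
    intro u x _
    exact Iff.rfl
  | mul g h hg hh ihg ihh =>
    intro u x hux
    change InvP (g.linear (h.linear u)) (g.linear (h.linear x)) ↔ _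
    have h1 : sf 3 (h.linear u) (h.linear x) = 1 := by
      have := mem_ASp.1 (AG2'_le_ASp hh) u x
      rw [sfB_apply, sfB_apply] at this
      rw [this, hux]
    rw [ihg _ _ h1, ihh u x hux]
  | inv g hg ih =>
    intro u x hux
    change InvP (g.linear.symm u) (g.linear.symm x) ↔ _
    have h1 : sf 3 (g.linear.symm u) (g.linear.symm x) = 1 := by
      have := mem_ASp.1 (AG2'_le_ASp hg) (g.linear.symm u) (g.linear.symm x)
      rw [g.linear.apply_symm_apply, g.linear.apply_symm_apply, sfB_apply, sfB_apply] at this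
      rw [← this, hux]
    have h2 := ih _ _ h1
    rw [g.linear.apply_symm_apply, g.linear.apply_symm_apply] at h2
    exact h2.symm

lemma base5_mem : base5 ∈ FlatCode (2 * 3) 5 := by
  have hS := flatCode_SIT (n := 2 * 3) (d := 5) (by norm_num)
  obtain ⟨γ, hγ⟩ := (flatCode_nontrivial (n := 2 * 3) (d := 5) (by norm_num)
    (by norm_num)).nonempty
  have hcard := hS.card_eq γ hγ
  obtain ⟨u, hu⟩ : γ.Nonempty := by
    rw [← Finset.card_pos, hcard]
    norm_num
  obtain ⟨u', hu'⟩ := exists_notMem_of_card hcard (by norm_num)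
  obtain ⟨g, -, h1, -⟩ := hyp_triple hγ hu hu'
  have h2 := hS.invariant g.symm (Subgroup.mem_top _) γ hγ
  rw [← h1, act_symm_act] at h2
  exact h2

theorem not_flat5_SIT : ¬ IsSITCode AG2' 32 (FlatCode (2 * 3) 5) := by
  intro hC
  have h0 : (0 : Vec (2 * 3)) ∈ base5 := by
    rw [mem_base5, sf_zero_right]
  have h2 : dec 2 ∉ base5 := by
    rw [mem_base5, sf_dec]
    decide
  have h3 : dec 3 ∉ base5 := by
    rw [mem_base5, sf_dec]
    decide
  obtain ⟨g, hg, e1, e2, e3⟩ := hC.transitive _ base5_mem 0 h0 (dec 2) h2 _ base5_mem 0 h0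
    (dec 3) h3
  have hlin : ∀ x, g.linear x = g x := lin_of_zero e2
  have hsp := sf_of_mem (AG2'_le_ASp hg) e2
  have hstep : ∀ z, sf 3 (dec 1) (g z) = 0 ↔ sf 3 (dec 1) z = 0 := by
    intro z
    rw [← mem_base5, ← mem_base5]
    exact (act_eq_iff g base5 base5).1 e1 z
  have hfix : g (dec 1) = dec 1 := by
    have h5 : dec 1 + g (dec 1) = 0 := by
      apply (symp_sf 3).nd
      intro y
      obtain ⟨z, rfl⟩ := g.surjective y
      rw [sfB_apply, sf_add_left, hsp]
      have h6 := hstep z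
      generalize sf 3 (dec 1) (g z) = p at *
      generalize sf 3 (dec 1) z = q at *
      revert p q
      decide
    have h6 := self_add_add (dec 1) (g (dec 1))
    rw [h5, add_zero] at h6
    exact h6.symm
  have h4 := inv_pres hg (dec 1) (dec 2) (by rw [sf_dec]; decide)
  rw [hlin, hlin, hfix, e3, inv_dec (by norm_num) (by norm_num),
    inv_dec (by norm_num) (by norm_num)] at h4
  have h5 : invTab.testBit (64 * 1 + 3) = false := by decide +kernel
  have h6 : invTab.testBit (64 * 1 + 2) = true := by decide +kernel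
  rw [h5, h6] at h4
  exact absurd (h4.2 rfl) (by decide)

/-- The complete list for `2^6 : G_2(2)`. -/
theorem spor_G2 : IsTwoTransitive AG2 ∧
    ∀ (k : ℕ) (C : Set (Finset (Vec (2 * 3)))), 3 ≤ k → k ≤ 2 ^ (2 * 3 - 1) → C.Nontrivial →
      (IsSITCode AG2 k C ↔ (k = 16 ∧ C = HexCode) ∨ (k = 28 ∧ C = SympDesign 3) ∨
        (k = 32 ∧ C = FlatCode (2 * 3) 5)) := by
  refine ⟨twoTransitive_of_le AG2'_le, ?_⟩
  intro k C hk3 hkn hnt
  rw [g2_iff AG2'_le (le_refl _) hk3 hkn hnt]
  constructor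
  · rintro (h | h | ⟨h, h', -⟩)
    · exact Or.inl h
    · exact Or.inr (Or.inl h)
    · exact Or.inr (Or.inr ⟨h, h'⟩)
  · rintro (h | h | ⟨h, h'⟩)
    · exact Or.inl h
    · exact Or.inr (Or.inl h)
    · exact Or.inr (Or.inr ⟨h, h', flat5_SIT⟩)

/-- The complete list for `2^6 : G_2(2)'`, `G_2(2)' ≅ PSU(3,3)`. -/
theorem spor_G2' : IsTwoTransitive AG2' ∧
    ∀ (k : ℕ) (C : Set (Finset (Vec (2 * 3)))), 3 ≤ k → k ≤ 2 ^ (2 * 3 - 1) → C.Nontrivial →
      (IsSITCode AG2' k C ↔ (k = 16 ∧ C = HexCode) ∨ (k = 28 ∧ C = SympDesign 3)) := by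
  refine ⟨twoTransitive_G2', ?_⟩
  intro k C hk3 hkn hnt
  rw [g2_iff (le_refl _) AG2'_le hk3 hkn hnt]
  constructor
  · rintro (h | h | ⟨-, -, h⟩)
    · exact Or.inl h
    · exact Or.inr h
    · exact absurd h not_flat5_SIT
  · rintro (h | h)
    · exact Or.inl h
    · exact Or.inr (Or.inl h)

end G2

end Pool.Agent.SIT
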