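import Pool.Agent.SIT.HexGroup

/-!
# The codes of `2^6 : G_2(2)'` and `2^6 : G_2(2)`: sufficiency
-/

namespace Pool.Agent.SIT

open Finset

namespace G2

lemma sf_add_left (a b c : Vec (2 * 3)) : sf 3 (a + b) c = sf 3 a c + sf 3 b c :=
  congrArg (fun φ : Module.Dual (ZMod 2) (Vec (2 * 3)) => φ c) ((sfB 3).map_add a b)

lemma sf_add_right (a b c : Vec (2 * 3)) : sf 3 a (b + c) = sf 3 a b + sf 3 a c :=
  (sfB 3 a).map_add b c

lemma sf_zero_right (a : Vec (2 * 3)) : sf 3 a 0 = 0 := (sfB 3 a).map_zero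

lemma sf_zero_left (a : Vec (2 * 3)) : sf 3 0 a = 0 :=
  congrArg (fun φ : Module.Dual (ZMod 2) (Vec (2 * 3)) => φ a) ((sfB 3).map_zero)

lemma sf_symm (a b : Vec (2 * 3)) : sf 3 a b = sf 3 b a := (symp_sf 3).symm a b

lemma hexRel_of_mem {g : AGL (2 * 3)} (hg : g ∈ AG2) (h : g 0 = 0) (x y : Vec (2 * 3)) :
    HexRel (g x) (g y) ↔ HexRel x y := by
  have h1 := (mem_AG2.1 hg).2 x y
  rw [lin_of_zero h, lin_of_zero h] at h1
  exact h1

lemma add_of_zero {g : AGL (2 * 3)} (h : g 0 = 0) (x y : Vec (2 * 3)) : g (x + y) = g x + g y := by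
  rw [← lin_of_zero h, ← lin_of_zero h x, ← lin_of_zero h y, map_add]

/-- a member of `AG2'` which maps `0`, `dec 1`, `dec 8` to `0`, `a`, `b` -/
lemma trans_ab {a b : Vec (2 * 3)} (ha : a ≠ 0) (hb : b ≠ 0) (hab : a ≠ b) (h : HexRel a b) :
    ∃ g ∈ AG2', g 0 = 0 ∧ g (dec 1) = a ∧ g (dec 8) = b := by
  obtain ⟨g₁, hg₁, h1, h2⟩ := trans_pt ha
  have hs0 : g₁.symm 0 = 0 := by
    have := g₁.symm_apply_apply 0
    rw [h1] at this
    exact this
  have hs1 : g₁.symm a = dec 1 := by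
    rw [← h2, g₁.symm_apply_apply]
  have hsm : g₁.symm ∈ AG2 := AG2.inv_mem (AG2'_le hg₁)
  obtain ⟨g₂, hg₂, h3, h4, h5⟩ := trans_pt2 (v := g₁.symm b) (by
      intro h6
      apply hb
      rw [← g₁.apply_symm_apply b, h6, h1]) (by
      intro h6
      apply hab
      rw [← h2, ← h6, g₁.apply_symm_apply]) (by
      rw [← hs1, hexRel_of_mem hsm hs0]
      exact h)
  refine ⟨g₁ * g₂, Subgroup.mul_mem _ hg₁ hg₂, ?_, ?_, ?_⟩
  · change g₁ (g₂ 0) = 0
    rw [h3, h1]
  · change g₁ (g₂ (dec 1)) = a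
    rw [h4, h2]
  · change g₁ (g₂ (dec 8)) = b
    rw [h5, g₁.apply_symm_apply]

/-- the base flat of the hexagon code -/
def base4 : Finset (Vec (2 * 3)) :=
  univ.filter (fun z => sf 3 (dec 1) z = 0 ∧ sf 3 (dec 8) z = 0)

lemma mem_base4 (z : Vec (2 * 3)) : z ∈ base4 ↔ sf 3 (dec 1) z = 0 ∧ sf 3 (dec 8) z = 0 := by
  rw [base4, mem_filter]
  exact ⟨fun h => h.2, fun h => ⟨mem_univ _, h⟩⟩

/-- the members of the hexagon code with a marked point inside and one outside form one orbit -/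
lemma hex_triple {γ : Finset (Vec (2 * 3))} (hγ : γ ∈ HexCode) {u u' : Vec (2 * 3)} (hu : u ∈ γ)
    (hu' : u' ∉ γ) : ∃ g ∈ AG2', act g base4 = γ ∧ g 0 = u ∧ g (dec 2) = u' := by
  obtain ⟨a, b, t, ha, hb, hab, h, hmem⟩ := hγ
  obtain ⟨g₁, hg₁, h0, h1, h8⟩ := trans_ab ha hb hab h
  have hsp := AG2'_le_ASp hg₁
  have hs0 : g₁.symm 0 = 0 := by
    have := g₁.symm_apply_apply 0
    rw [h0] at this
    exact this
  have hua := (hmem u).1 hu
  have hkey : ∀ y, (sf 3 (dec 1) y = 0 ∧ sf 3 (dec 8) y = 0) ↔ u + g₁ y ∈ γ := by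
    intro y
    rw [hmem, ← sf_of_mem hsp h0 (dec 1) y, ← sf_of_mem hsp h0 (dec 8) y, h1, h8]
    have e1 : u + g₁ y + t = (u + t) + g₁ y := by abel
    rw [e1, sf_add_right a (u + t), sf_add_right b (u + t), hua.1, hua.2, zero_add, zero_add]
  obtain ⟨g₂, hg₂, h2, h3, h4⟩ := trans_L AG2'_le_ASp (x := g₁.symm (u + u')) (by
    intro hcon
    apply hu'
    rw [hkey, g₁.apply_symm_apply] at hcon
    rw [self_add_add] at hcon
    exact hcon)
  refine ⟨tr u * (g₁ * g₂), Subgroup.mul_mem _ (tr_mem u) (Subgroup.mul_mem _ hg₁ hg₂), ?_, ?_, ?_⟩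
  · rw [act_eq_iff]
    intro z
    change u + g₁ (g₂ z) ∈ γ ↔ z ∈ base4
    rw [← hkey, h4, mem_base4]
  · change u + g₁ (g₂ 0) = u
    rw [h2, h0, add_zero]
  · change u + g₁ (g₂ (dec 2)) = u'
    rw [h3, g₁.apply_symm_apply, self_add_add]

lemma card_base4 : base4.card = 16 := by
  decide +kernel

lemma zero_mem_base4 : (0 : Vec (2 * 3)) ∈ base4 := by
  rw [mem_base4, sf_zero_right, sf_zero_right]
  exact ⟨rfl, rfl⟩

lemma two_notMem_base4 : dec 2 ∉ base4 := by
  rw [mem_base4, sf_dec]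
  intro h
  exact absurd h.1 (by decide)

lemma base4_mem : base4 ∈ HexCode := by
  refine ⟨dec 1, dec 8, 0, ?_, ?_, ?_, ?_, ?_⟩
  · intro h
    rw [← dec_zero] at h
    exact absurd (dec_inj (by norm_num) (by norm_num) h) (by norm_num)
  · intro h
    rw [← dec_zero] at h
    exact absurd (dec_inj (by norm_num) (by norm_num) h) (by norm_num)
  · intro h
    exact absurd (dec_inj (by norm_num) (by norm_num) h) (by norm_num)
  · rw [hexRel_dec]
    decide
  · intro z
    rw [mem_base4, add_zero]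

lemma hexCode_act {g : AGL (2 * 3)} (hg : g ∈ AG2) {γ : Finset (Vec (2 * 3))} (hγ : γ ∈ HexCode) :
    act g γ ∈ HexCode := by
  obtain ⟨a, b, t, ha, hb, hab, h, hmem⟩ := hγ
  obtain ⟨hpb, hhex⟩ := mem_AG2.1 hg
  refine ⟨g.linear a, g.linear b, g t, ?_, ?_, ?_, (hhex a b).2 h, ?_⟩
  · rw [Ne, LinearEquiv.map_eq_zero_iff]
    exact ha
  · rw [Ne, LinearEquiv.map_eq_zero_iff]
    exact hb
  · intro h'
    exact hab (g.linear.injective h')
  · intro z
    obtain ⟨y, rfl⟩ := g.surjective z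
    rw [mem_act, hmem]
    have e1 : g y + g t = g.linear (y + t) := by
      rw [agl_linear g y, agl_linear g t, map_add]
      have := add_self' (g 0)
      calc g.linear y + g 0 + (g.linear t + g 0) = g.linear y + g.linear t + (g 0 + g 0) := by abel
        _ = _ := by rw [this, add_zero]
    have e2 := hpb a (y + t)
    have e3 := hpb b (y + t)
    rw [sfB_apply, sfB_apply] at e2 e3
    rw [e1, e2, e3]

/-- the hexagon code is SIT for every group between `AG2'` and `AG2` -/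
theorem hexCode_SIT {G : Subgroup (AGL (2 * 3))} (h1 : AG2' ≤ G) (h2 : G ≤ AG2) :
    IsSITCode G 16 HexCode := by
  refine ⟨?_, ?_, ?_⟩
  · intro γ hγ
    obtain ⟨u, hu⟩ : ∃ u, u ∈ γ := by
      obtain ⟨a, b, t, -, -, -, -, hmem⟩ := hγ
      refine ⟨t, ?_⟩
      rw [hmem, add_self', sf_zero_right, sf_zero_right]
      exact ⟨rfl, rfl⟩
    by_cases hu' : ∃ u', u' ∉ γ
    · obtain ⟨u', hu'⟩ := hu'
      obtain ⟨g, -, h3, -⟩ := hex_triple hγ hu hu'
      rw [← h3, card_act, card_base4]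
    · exfalso
      push Not at hu'
      obtain ⟨a, b, t, ha, -, -, -, hmem⟩ := hγ
      apply ha
      apply (symp_sf 3).nd
      intro y
      rw [sfB_apply]
      have h3 := (hmem (y + t)).1 (hu' _)
      rw [add_add_self] at h3
      exact h3.1
  · intro g hg γ hγ
    exact hexCode_act (h2 hg) hγ
  · intro γ hγ u hu u' hu' δ hδ w hw w' hw'
    obtain ⟨g₁, hg₁, h3, h4, h5⟩ := hex_triple hγ hu hu'
    obtain ⟨g₂, hg₂, h6, h7, h8⟩ := hex_triple hδ hw hw'
    refine ⟨g₂ * g₁.symm, G.mul_mem (h1 hg₂) (G.inv_mem (h1 hg₁)), ?_, ?_, ?_⟩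
    · rw [act_mul, ← h3, act_symm_act, h6]
    · change g₂ (g₁.symm u) = w
      rw [← h4, g₁.symm_apply_apply, h7]
    · change g₂ (g₁.symm u') = w'
      rw [← h5, g₁.symm_apply_apply, h8]

lemma hexCode_nontrivial : HexCode.Nontrivial :=
  nontrivial_of_trans (fun t _ hγ => hexCode_act (AG2'_le (tr_mem t)) hγ) base4_mem
    zero_mem_base4 two_notMem_base4

/-! ### the symplectic design -/

lemma AG2'_trans_design {γ δ : Finset (Vec (2 * 3))} (hγ : γ ∈ SympDesign 3)
    (hδ : δ ∈ SympDesign 3) : ∃ t : Vec (2 * 3), act (tr t) γ = δ := by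
  rw [mem_sympDesign] at hγ hδ
  -- the difference is affine
  let φ : Module.Dual (ZMod 2) (Vec (2 * 3)) :=
    { toFun := fun x => ind γ x + ind δ x + (ind γ 0 + ind δ 0)
      map_add' := by
        intro x y
        have h1 := hγ.2 x y 0
        have h2 := hδ.2 x y 0
        rw [zero_add, zero_add] at h1 h2
        rw [← h1] at h2
        generalize ind γ (x + y) = p1 at *
        generalize ind δ (x + y) = p2 at *
        generalize ind γ x = p3 at *
        generalize ind δ x = p4 at *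
        generalize ind γ y = p5 at *
        generalize ind δ y = p6 at *
        generalize ind γ 0 = p7 at *
        generalize ind δ 0 = p8 at *
        clear h1
        revert p1 p2 p3 p4 p5 p6 p7 p8
        decide
      map_smul' := by
        intro c x
        rcases zmod2_cases c with rfl | rfl
        · rw [zero_smul, RingHom.id_apply, zero_smul]
          exact z2_add_self _
        · rw [one_smul, RingHom.id_apply, one_smul] }
  have hφ : ∀ x, φ x = ind γ x + ind δ x + (ind γ 0 + ind δ 0) := fun x => rfl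
  obtain ⟨z, hz⟩ := exists_repr (symp_sf 3) φ
  have hconst : ∃ c, ∀ x, ind δ (z + x) = ind γ x + c := by
    refine ⟨ind δ z + ind γ 0, fun x => ?_⟩
    have h1 := hδ.2 z x 0
    have h2 := hφ x
    rw [← hz, ← h1] at h2
    rw [zero_add, zero_add] at h2
    generalize ind δ (z + x) = p1 at *
    generalize ind δ x = p2 at *
    generalize ind δ z = p3 at *
    generalize ind δ 0 = p4 at *
    generalize ind γ x = p5 at *
    generalize ind γ 0 = p6 at *
    clear h1
    have key : ∀ p1 p2 p3 p4 p5 p6 : ZMod 2,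
        p1 + p3 + p2 + p4 = p5 + p2 + (p6 + p4) → p1 = p5 + (p3 + p6) := by decide
    exact key _ _ _ _ _ _ h2
  obtain ⟨c, hc⟩ := hconst
  have hc0 : c = 0 := by
    rcases zmod2_cases c with h | h
    · exact h
    · exfalso
      have h1 := code_card_lt (by norm_num) hγ.1
      have h2 := code_card_lt (by norm_num) hδ.1
      have h3 : (univ.filter (fun x => ind γ x = 0)).card =
          (univ.filter (fun x => ind δ x = 1)).card := by
        apply Finset.card_bij (fun x _ => z + x)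
        · intro x hx
          rw [mem_filter] at hx ⊢
          refine ⟨mem_univ _, ?_⟩
          rw [hc, hx.2, h]
          rfl
        · intro x _ y _ hxy
          exact add_left_cancel hxy
        · intro y hy
          rw [mem_filter] at hy
          have h4 : z + (z + y) = y := by
            rw [← add_assoc, add_self', zero_add]
          refine ⟨z + y, ?_, h4⟩
          rw [mem_filter]
          refine ⟨mem_univ _, ?_⟩
          have h5 := hc (z + y)
          rw [h4, hy.2, h] at h5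
          revert h5
          generalize ind γ (z + y) = p
          revert p
          decide
      have h4 := card_filter_ind_zero (γ := γ)
      have h5 := card_filter_ind_zero (γ := δ)
      omega
  refine ⟨z, ?_⟩
  rw [← ind_act_iff]
  intro x
  change ind δ (z + x) = ind γ x
  rw [hc, hc0, add_zero]

lemma act_quadric {g : AGL (2 * 3)}
    (hg : ∀ x, quadForm (le_refl (2 * 3)) (g x) = quadForm (le_refl (2 * 3)) x) :
    act g (quadric (le_refl (2 * 3))) = quadric (le_refl (2 * 3)) := by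
  rw [act_eq_iff]
  intro x
  rw [mem_quadric, mem_quadric, hg]

lemma design_triple {γ : Finset (Vec (2 * 3))} (hγ : γ ∈ SympDesign 3) {u u' : Vec (2 * 3)}
    (hu : u ∈ γ) (hu' : u' ∉ γ) :
    ∃ g ∈ AG2', act g (quadric (le_refl (2 * 3))) = γ ∧ g (dec 3) = u ∧ g (dec 0) = u' := by
  obtain ⟨t, ht⟩ := AG2'_trans_design quadric_mem_sympDesign hγ
  have hm : ∀ x, x ∈ γ ↔ quadForm (le_refl (2 * 3)) (t + x) = 1 := by
    intro x
    rw [← ht, mem_act', mem_quadric]
    have : (tr t).symm x = t + x := by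
      rw [AffineEquiv.symm_apply_eq, tr_apply, self_add_add]
    rw [this]
  have hu1 := (hm u).1 hu
  have hu2 : quadForm (le_refl (2 * 3)) (t + u') = 0 := by
    rcases zmod2_cases (quadForm (le_refl (2 * 3)) (t + u')) with h | h
    · exact h
    · exact absurd ((hm u').2 h) hu'
  obtain ⟨g₁, hg₁, hq₁, h1⟩ := trans_D1 hu1
  have hq₁' : quadForm (le_refl (2 * 3)) (g₁.symm (t + u')) = 0 := by
    rw [← hq₁, g₁.apply_symm_apply, hu2]
  obtain ⟨g₂, hg₂, hq₂, h2, h3⟩ := trans_D2 hq₁'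
  refine ⟨tr t * (g₁ * g₂), Subgroup.mul_mem _ (tr_mem t) (Subgroup.mul_mem _ hg₁ hg₂),
    ?_, ?_, ?_⟩
  · rw [act_mul, act_mul, act_quadric hq₂, act_quadric hq₁, ht]
  · change t + g₁ (g₂ (dec 3)) = u
    rw [h2, h1, self_add_add]
  · change t + g₁ (g₂ (dec 0)) = u'
    rw [h3, g₁.apply_symm_apply, self_add_add]

theorem design_SIT {G : Subgroup (AGL (2 * 3))} (h1 : AG2' ≤ G) (h2 : G ≤ AG2) :
    IsSITCode G 28 (SympDesign 3) := by
  refine ⟨(sympDesign_SIT (r := 3) (by norm_num)).card_eq, ?_, ?_⟩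
  · intro g hg γ hγ
    exact sympDesign_act (mem_AG2.1 (h2 hg)).1 hγ
  · intro γ hγ u hu u' hu' δ hδ w hw w' hw'
    obtain ⟨g₁, hg₁, h3, h4, h5⟩ := design_triple hγ hu hu'
    obtain ⟨g₂, hg₂, h6, h7, h8⟩ := design_triple hδ hw hw'
    refine ⟨g₂ * g₁.symm, G.mul_mem (h1 hg₂) (G.inv_mem (h1 hg₁)), ?_, ?_, ?_⟩
    · rw [act_mul, ← h3, act_symm_act, h6]
    · change g₂ (g₁.symm u) = w
      rw [← h4, g₁.symm_apply_apply, h7]
    · change g₂ (g₁.symm u') = w'
      rw [← h5, g₁.symm_apply_apply, h8]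

/-! ### 2-transitivity -/

theorem twoTransitive_G2' : IsTwoTransitive AG2' := by
  intro x y x' y' hxy hxy'
  have h1 : x + y ≠ 0 := by
    intro h
    apply hxy
    rw [← add_add_self x y, h, zero_add]
  have h2 : x' + y' ≠ 0 := by
    intro h
    apply hxy'
    rw [← add_add_self x' y', h, zero_add]
  obtain ⟨g₁, hg₁, h3, h4⟩ := trans_pt h1
  obtain ⟨g₂, hg₂, h5, h6⟩ := trans_pt h2
  have hs0 : g₁.symm 0 = 0 := by
    have := g₁.symm_apply_apply 0
    rw [h3] at this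
    exact this
  refine ⟨tr x' * (g₂ * (g₁.symm * tr x)), Subgroup.mul_mem _ (tr_mem x') (Subgroup.mul_mem _ hg₂
    (Subgroup.mul_mem _ (Subgroup.inv_mem _ hg₁) (tr_mem x))), ?_, ?_⟩
  · change x' + g₂ (g₁.symm (x + x)) = x'
    rw [add_self', hs0, h5, add_zero]
  · change x' + g₂ (g₁.symm (x + y)) = y'
    rw [← h4, g₁.symm_apply_apply, h6, self_add_add]

theorem twoTransitive_of_le {G : Subgroup (AGL (2 * 3))} (h1 : AG2' ≤ G) : IsTwoTransitive G := by
  intro x y x' y' hxy hxy'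
  obtain ⟨g, hg, h⟩ := twoTransitive_G2' x y x' y' hxy hxy'
  exact ⟨g, h1 hg, h⟩

/-! ### hyperplanes and `2^6 : G_2(2)` -/

/-- exchange of the coordinates `x_{2i}`, `x_{2i+1}` -/
def swF (x : Vec (2 * 3)) : Vec (2 * 3) := fun i => x ⟨i.1 ^^^ 1, by
  have := i.2
  interval_cases h : i.1 <;> decide⟩

lemma dec_sN_aux : ∀ x < 64, ∀ i < 6, (sN x).testBit i = x.testBit (i ^^^ 1) := by
  decide +kernel

lemma dec_sN {x : ℕ} (hx : x < 64) : dec (sN x) = swF (dec x) := by
  funext i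
  rw [dec_apply, swF, dec_apply, dec_sN_aux x hx i.1 i.2]

lemma sN_lt : ∀ x < 64, sN x < 64 := by
  decide +kernel

lemma swF_swF (x : Vec (2 * 3)) : swF (swF x) = x := by
  funext i
  rw [swF, swF]
  congr 1
  apply Fin.ext
  change (i.1 ^^^ 1) ^^^ 1 = i.1
  rw [Nat.xor_assoc, Nat.xor_self, Nat.xor_zero]

/-- the exchange as an affine map -/
def swA : AGL (2 * 3) :=
  (LinearEquiv.ofInvolutive
    ({ toFun := swF
       map_add' := fun _ _ => rfl
       map_smul' := fun _ _ => rfl } : Vec (2 * 3) →ₗ[ZMod 2] Vec (2 * 3))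
    (fun x => swF_swF x)).toAffineEquiv

lemma swA_apply (x : Vec (2 * 3)) : swA x = swF x := rfl

lemma sf_sw_aux : ∀ x < 64, ∀ y < 64, bN (sN x) (sN y) = bN x y := by
  decide +kernel

lemma swA_mem : swA ∈ AG2 := by
  rw [mem_AG2]
  constructor
  · intro x y
    obtain ⟨m, hm, rfl⟩ := dec_surj x
    obtain ⟨n, hn, rfl⟩ := dec_surj y
    change sf 3 (swF (dec m)) (swF (dec n)) = sf 3 (dec m) (dec n)
    rw [← dec_sN hm, ← dec_sN hn, sf_dec, sf_dec, sf_sw_aux m hm n hn]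
  · intro x y
    obtain ⟨m, hm, rfl⟩ := dec_surj x
    obtain ⟨n, hn, rfl⟩ := dec_surj y
    change HexRel (swF (dec m)) (swF (dec n)) ↔ HexRel (dec m) (dec n)
    rw [← dec_sN hm, ← dec_sN hn, hexRel_tab (sN_lt m hm) (sN_lt n hn), hexRel_tab hm hn]
    have h1 := all_range chk_sw hm
    have h2 := all_range h1 hn
    rw [beq_iff_eq] at h2
    rw [h2]

lemma okS_cons {p : ℕ × ℕ} {w : List (ℕ × ℕ)} (h : okW (p :: w) = true) :
    p.1 < 64 ∧ p.2 < 64 ∧ HexRel (dec p.1) (dec p.2) ∧ okW w = true := okW_cons h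

/-- words of linear steps and exchanges -/
lemma wordS_mem : ∀ (w : List (ℕ × ℕ)), okW w = true →
    ∃ g ∈ AG2, g 0 = 0 ∧ ∀ x < 64, evS w x < 64 ∧ g (dec x) = dec (evS w x) := by
  intro w
  induction w with
  | nil =>
    intro _
    exact ⟨1, Subgroup.one_mem _, rfl, fun x hx => ⟨hx, rfl⟩⟩
  | cons p w ih =>
    intro hw
    obtain ⟨h1, h2, h3, h4⟩ := okW_cons hw
    obtain ⟨g, hg, hg0, hgx⟩ := ih h4
    by_cases hp : p.1 = 0
    · refine ⟨g * swA, Subgroup.mul_mem _ hg swA_mem, ?_, ?_⟩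
      · change g (swF 0) = 0
        have : swF 0 = 0 := rfl
        rw [this, hg0]
      · intro x hx
        have h5 := hgx (sN x) (sN_lt x hx)
        have h6 : evS (p :: w) x = evS w (sN x) := by
          rw [evS, List.foldl_cons, if_pos hp]
          rfl
        rw [h6]
        refine ⟨h5.1, ?_⟩
        change g (swF (dec x)) = _
        rw [← dec_sN hx]
        exact h5.2
    · refine ⟨g * eA _ _ h3.1, Subgroup.mul_mem _ hg (eA_AG2 h3), ?_, ?_⟩
      · change g (eA _ _ h3.1 0) = 0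
        rw [eA_apply, sf_zero_right, sf_zero_right, zero_smul, zero_smul, add_zero, add_zero, hg0]
      · intro x hx
        have h5 := hgx (eN p.1 p.2 x) (eN_lt h1 h2 hx)
        have h6 : evS (p :: w) x = evS w (eN p.1 p.2 x) := by
          rw [evS, List.foldl_cons, if_neg hp]
          rfl
        rw [h6]
        refine ⟨h5.1, ?_⟩
        change g (eA _ _ h3.1 (dec x)) = _
        rw [eA_apply, ← dec_eN]
        exact h5.2

lemma trans_A {y : Vec (2 * 3)} (hy : sf 3 (dec 1) y = 1) :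
    ∃ g ∈ AG2, g 0 = 0 ∧ g (dec 1) = dec 1 ∧ g (dec 2) = y := by
  obtain ⟨x, hx, rfl⟩ := dec_surj y
  have h1 := all_range chk_A hx
  simp only [Bool.or_eq_true, Bool.and_eq_true, beq_iff_eq, Bool.not_eq_true'] at h1
  rcases h1 with h1 | ⟨⟨h1, h2⟩, h3⟩
  · rw [sf_dec, h1] at hy
    exact absurd hy (by decide)
  · obtain ⟨g, hg, hg0, hgx⟩ := wordS_mem _ h1
    refine ⟨g, hg, hg0, ?_, ?_⟩
    · rw [(hgx 1 (by norm_num)).2, h2]
    · rw [(hgx 2 (by norm_num)).2, h3]

/-- the base hyperplane -/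
def base5 : Finset (Vec (2 * 3)) := univ.filter (fun z => sf 3 (dec 1) z = 0)

lemma mem_base5 (z : Vec (2 * 3)) : z ∈ base5 ↔ sf 3 (dec 1) z = 0 := by
  rw [base5, mem_filter]
  exact ⟨fun h => h.2, fun h => ⟨mem_univ _, h⟩⟩

/-- a hyperplane is `{z | B(a, z + u) = 0}` -/
lemma flat5_repr {γ : Finset (Vec (2 * 3))} (hγ : γ ∈ FlatCode (2 * 3) 5) {u : Vec (2 * 3)}
    (hu : u ∈ γ) : ∃ a, a ≠ 0 ∧ ∀ z, z ∈ γ ↔ sf 3 a (z + u) = 0 := by
  obtain ⟨A, hA, hAd⟩ := hγ
  have hne : A.direction ≠ ⊤ := by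
    intro h
    rw [h, finrank_top] at hAd
    simp only [Module.finrank_fintype_fun_eq_card, Fintype.card_fin] at hAd
    omega
  obtain ⟨v, hv⟩ : ∃ v, v ∉ A.direction := by
    by_contra hcon
    push Not at hcon
    exact hne (Submodule.eq_top_iff'.2 hcon)
  obtain ⟨φ, h1, h2⟩ := exists_dual_of_notMem _ _ hv
  obtain ⟨a, ha⟩ := exists_repr (symp_sf 3) φ
  have hle : A.direction ≤ LinearMap.ker φ := fun x hx => h2 x hx
  have hrk := LinearMap.finrank_range_add_finrank_ker φ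
  have hsurj : LinearMap.range φ = ⊤ := by
    rw [LinearMap.range_eq_top]
    intro c
    exact ⟨c • v, by rw [map_smul, h1, smul_eq_mul, mul_one]⟩
  rw [hsurj, finrank_top] at hrk
  simp only [Module.finrank_fintype_fun_eq_card, Fintype.card_fin, Module.finrank_self] at hrk
  have heq : A.direction = LinearMap.ker φ :=
    Submodule.eq_of_le_of_finrank_eq hle (by omega)
  refine ⟨a, ?_, ?_⟩
  · rintro rfl
    have := ha v
    rw [h1, map_zero, LinearMap.zero_apply] at this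
    exact absurd this (by decide)
  · intro z
    rw [direction_mem_iff hA hu, heq, LinearMap.mem_ker, ← ha, sfB_apply]

lemma hyp_triple {γ : Finset (Vec (2 * 3))} (hγ : γ ∈ FlatCode (2 * 3) 5) {u u' : Vec (2 * 3)}
    (hu : u ∈ γ) (hu' : u' ∉ γ) : ∃ g ∈ AG2, act g base5 = γ ∧ g 0 = u ∧ g (dec 2) = u' := by
  obtain ⟨a, ha, hmem⟩ := flat5_repr hγ hu
  obtain ⟨g₁, hg₁', h0, h1⟩ := trans_pt ha
  have hg₁ := AG2'_le hg₁'
  have hsp := AG2'_le_ASp hg₁'
  have hkey : ∀ y, sf 3 (dec 1) y = 0 ↔ u + g₁ y ∈ γ := by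
    intro y
    rw [hmem, ← sf_of_mem hsp h0 (dec 1) y, h1]
    have e1 : u + g₁ y + u = g₁ y := by
      calc u + g₁ y + u = g₁ y + (u + u) := by abel
        _ = _ := by rw [add_self', add_zero]
    rw [e1]
  have hs : sf 3 (dec 1) (g₁.symm (u + u')) = 1 := by
    rcases zmod2_cases (sf 3 (dec 1) (g₁.symm (u + u'))) with h | h
    · rw [hkey, g₁.apply_symm_apply, self_add_add] at h
      exact absurd h hu'
    · exact h
  obtain ⟨g₂, hg₂, h2, h3, h4⟩ := trans_A hs
  refine ⟨tr u * (g₁ * g₂), Subgroup.mul_mem _ (AG2'_le (tr_mem u)) (Subgroup.mul_mem _ hg₁ hg₂),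
    ?_, ?_, ?_⟩
  · rw [act_eq_iff]
    intro z
    change u + g₁ (g₂ z) ∈ γ ↔ z ∈ base5
    rw [← hkey, mem_base5]
    have := sf_of_mem (AG2_le_ASp hg₂) h2 (dec 1) z
    rw [h3] at this
    rw [this]
  · change u + g₁ (g₂ 0) = u
    rw [h2, h0, add_zero]
  · change u + g₁ (g₂ (dec 2)) = u'
    rw [h4, g₁.apply_symm_apply, self_add_add]

theorem flat5_SIT : IsSITCode AG2 32 (FlatCode (2 * 3) 5) := by
  have hS := flatCode_SIT (n := 2 * 3) (d := 5) (by norm_num)
  refine ⟨?_, ?_, ?_⟩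
  · intro γ hγ
    exact hS.card_eq γ hγ
  · intro g _ γ hγ
    exact hS.invariant g (Subgroup.mem_top _) γ hγ
  · intro γ hγ u hu u' hu' δ hδ w hw w' hw'
    obtain ⟨g₁, hg₁, h3, h4, h5⟩ := hyp_triple hγ hu hu'
    obtain ⟨g₂, hg₂, h6, h7, h8⟩ := hyp_triple hδ hw hw'
    refine ⟨g₂ * g₁.symm, AG2.mul_mem hg₂ (AG2.inv_mem hg₁), ?_, ?_, ?_⟩
    · rw [act_mul, ← h3, act_symm_act, h6]
    · change g₂ (g₁.symm u) = w
      rw [← h4, g₁.symm_apply_apply, h7]
    · change g₂ (g₁.symm u') = w'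
      rw [← h5, g₁.symm_apply_apply, h8]

end G2

end Pool.Agent.SIT
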