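import Pool.Agent.SIT.HexQSuf

/-!
# The groups between `AG_2(q)` and `AΓG_2(q)`, `q ≥ 4` even: all codes
-/

namespace Pool.Agent.SIT.Hex

open Finset SpQ

section

variable {F : Type*} [Field F]

/-- `AG_2(q) ≤ G ≤ AΓG_2(q)`: every member of `G` is `x ↦ g x + t`, where `g` is a semilinear
similitude of the form `Bf` preserving the collinearity `Col` of the hexagon; `G` contains all
translations and all `F`-linear isometries of `Bf` preserving `Col`. -/
structure GHex (F : Type*) [Field F] (G : Subgroup (Equiv.Perm (V6 F))) : Prop where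
  semi : ∀ h ∈ G, ∃ (g : V6 F ≃+ V6 F) (t : V6 F) (σ : F ≃+* F) (c : F),
    (∀ (a : F) (x : V6 F), g (a • x) = σ a • g x) ∧ c ≠ 0 ∧
    (∀ x y, Bf (g x) (g y) = c * σ (Bf x y)) ∧ (∀ x y, Col (g x) (g y) ↔ Col x y) ∧
    ∀ x, h x = g x + t
  trans : ∀ t : V6 F, Equiv.addRight t ∈ G
  cont : ∀ h : Equiv.Perm (V6 F), (∀ x y, h (x + y) = h x + h y) →
    (∀ (a : F) (x : V6 F), h (a • x) = a • h x) → (∀ x y, Bf (h x) (h y) = Bf x y) →
    (∀ x y, Col (h x) (h y) ↔ Col x y) → h ∈ G

/-- `u` and `v` span a line of the hexagon. -/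
def IsLine (u v : V6 F) : Prop := u ≠ 0 ∧ (∀ c : F, v ≠ c • u) ∧ Col u v

variable {G : Subgroup (Equiv.Perm (V6 F))}

lemma GHex.semiG (hG : GHex F G) : Gen.SemiG F G := by
  intro h hh
  obtain ⟨g, t, σ, c, h1, -, -, -, h4⟩ := hG.semi h hh
  exact ⟨g, t, σ, h1, h4⟩

lemma GHex.hexSemi (hG : GHex F G) {g : V6 F ≃+ V6 F} {t : V6 F} {σ : F ≃+* F}
    (h : Gen.PG G g t σ) : HexSemi g σ := by
  obtain ⟨h1, a, ha, h2⟩ := h
  obtain ⟨g', t', σ', c, h1', hc, h3, h5, h4⟩ := hG.semi a ha
  have ht : t = t' := by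
    have e1 := h2 0
    have e2 := h4 0
    rw [map_zero g, zero_add] at e1
    rw [map_zero g', zero_add] at e2
    rw [← e1, e2]
  have hg : ∀ x, g x = g' x := by
    intro x
    have e1 := h2 x
    rw [h4, ← ht] at e1
    exact (add_right_cancel e1).symm
  have hσ : ∀ a, σ a = σ' a := by
    intro a
    have e1 := h1 a e0
    rw [hg, hg, h1'] at e1
    have e2 : (σ a - σ' a) • g' e0 = 0 := by rw [sub_smul, e1, sub_self]
    rcases smul_eq_zero.1 e2 with e3 | e3
    · exact sub_eq_zero.1 e3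
    · exact absurd (g'.injective (by rw [e3, map_zero])) e0_ne
  refine ⟨h1, ⟨c, hc, fun x y => ?_⟩, fun x y => ?_⟩
  · rw [hg, hg, h3, hσ]
  · rw [hg, hg, h5]

variable [CharP F 2]

lemma GHex.pg (hG : GHex F G) {g : V6 F ≃+ V6 F} (hg : HexSemi g (RingEquiv.refl F))
    (hB : ∀ x y, Bf (g x) (g y) = Bf x y) : Gen.PG G g 0 (RingEquiv.refl F) :=
  ⟨hg.semi, g.toEquiv, hG.cont _ (fun x y => map_add g x y) (fun a x => hg.semi a x) hB hg.col,
    fun x => (add_zero (g x)).symm⟩

lemma GHex.hexG (hG : GHex F G) : HexG (Gen.PG (F := F) G) where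
  semi := fun h c x => h.1 c x
  mul := Gen.PG_mul
  tr := fun t => ⟨fun _ _ => rfl, Equiv.addRight t, hG.trans t, fun _ => rfl⟩
  s := fun u => hG.pg (hexSemi_sE u) (fun x y => Bf_sU u x y)
  t := fun u => hG.pg (hexSemi_tE u) (fun x y => Bf_tU u x y)
  e := fun a b h => hG.pg (hexSemi_eE a b h) (fun x y => Bf_eU h x y)
  inv := Gen.PG_inv (vaa F)
  sim := fun h => (hG.hexSemi h).form
  col := fun h => (hG.hexSemi h).col

lemma col_E1_L2 : Col (E1 : V6 F) L2 := by
  have hQ : Qf (E1 : V6 F) = 0 := by simp [Qf, dot, E1]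
  have hQ2 : Qf (L2 : V6 F) = 0 := by simp [Qf, dot, L2]
  refine ⟨by simp [Bf, dot, E1, L2], ?_, ?_, ?_⟩
  · apply forall_fin3
    · rw [hQ, hQ2, crs_zero']
      simp [E1, L2]
    · rw [hQ, hQ2, crs_one']
      simp [E1, L2]
    · rw [hQ, hQ2, crs_two']
      simp [E1, L2]
  · apply forall_fin3
    · rw [hQ, hQ2, crs_zero']
      simp [E1, L2]
    · rw [hQ, hQ2, crs_one']
      simp [E1, L2]
    · rw [hQ, hQ2, crs_two']
      simp [E1, L2]
  · rw [hQ, hQ2]
    simp [dot, E1, L2]

/-- The subspaces containing their orthogonal, with transitive complement: hyperplanes and the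
spaces orthogonal to lines of the hexagon. -/
lemma flats (hsq : ∀ c : F, ∃ d, d ^ 2 = c) (W : Submodule F (V6 F)) (hne : W ≠ ⊤)
    (hW : Hyp (W : Set (V6 F))) :
    (∃ u : V6 F, u ≠ 0 ∧ ∀ z, z ∈ W ↔ Bf u z = 0) ∨
      ∃ u v : V6 F, IsLine u v ∧ ∀ z, z ∈ W ↔ Bf u z = 0 ∧ Bf v z = 0 := by
  have hP : Gen (fun h : V6 F → V6 F => IsHex (F := F) h ∧ ∀ x y, Bf (h x) (h y) = Bf x y) :=
    { comp := fun g h hg hh => ⟨gen_isHex.comp _ _ hg.1 hh.1, fun x y => by
        change Bf (g (h x)) (g (h y)) = _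
        rw [hg.2, hh.2]⟩
      s := fun u => ⟨gen_isHex.s u, Bf_sU u⟩
      t := fun u => ⟨gen_isHex.t u, Bf_tU u⟩
      e := fun a b h => ⟨gen_isHex.e a b h, Bf_eU h⟩ }
  obtain ⟨h, ⟨⟨g, hg, hx⟩, hB⟩, h1⟩ := hex_flats hsq hP (fun h hh => hh.2) W hne hW
  have hB' : ∀ x y, Bf (g x) (g y) = Bf x y := by
    intro x y
    rw [hg, hg, hB]
  have e1 : ∀ z, (h z).2 0 = Bf (g.symm E1) z := by
    intro z
    rw [← Bf_E1, ← hg, ← hB' (g.symm E1), g.apply_symm_apply]
  have e2 : ∀ z, (h z).1 1 = Bf (g.symm L2) z := by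
    intro z
    rw [← Bf_L2, ← hg, ← hB' (g.symm L2), g.apply_symm_apply]
  have hu : g.symm E1 ≠ 0 := by
    intro h2
    rw [AddEquiv.symm_apply_eq, map_zero] at h2
    have := congrArg (fun z : V6 F => z.1 0) h2
    simp [E1] at this
  rcases h1 with h1 | h1
  · left
    exact ⟨g.symm E1, hu, fun z => by rw [h1, e1]⟩
  · right
    refine ⟨g.symm E1, g.symm L2, ⟨hu, fun c h2 => ?_, ?_⟩, fun z => by rw [h1, e1, e2]⟩
    · have h3 := congrArg g h2
      rw [hx.semi, g.apply_symm_apply, g.apply_symm_apply] at h3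
      have := congrArg (fun z : V6 F => z.2 1) h3
      simp [E1, L2] at this
    · rw [← hx.col, g.apply_symm_apply, g.apply_symm_apply]
      exact col_E1_L2

variable [Fintype F] [DecidableEq (V6 F)] {γ : Finset (V6 F)}

omit [Fintype F] [DecidableEq (V6 F)] in
lemma twoTransitive_of (hP : HexG (Gen.PG (F := F) G)) (hsq : ∀ c : F, ∃ d, d ^ 2 = c) :
    Gen.IsTwoTransitive G := by
  intro x y x' y' hxy hxy'
  have h1 : x + y ≠ 0 := fun h => hxy (by have := vabb F x y; rw [h, zero_add] at this; exact this.symm)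
  have h2 : x' + y' ≠ 0 :=
    fun h => hxy' (by have := vabb F x' y'; rw [h, zero_add] at this; exact this.symm)
  obtain ⟨g, hg, h3⟩ := vec hsq hP h1 h2
  have h4 := Gen.PG_toP (hg (g x + x'))
  refine ⟨_, h4, ?_, ?_⟩
  · rw [Gen.toP_apply]
    exact vaab F (g x) x'
  · rw [Gen.toP_apply]
    have e : g x + g y = x' + y' := by rw [← map_add, h3]
    calc g y + (g x + x') = (g x + g y) + x' := by abel
      _ = x' + (x' + y') := by rw [e]; abel
      _ = y' := vaab F x' y'

/-- **All codes for the groups between `AG_2(q)` and `AΓG_2(q)`, `q ≥ 4` even.** -/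
theorem hex_all_of (hF2 : Fintype.card F ≠ 2) (hS : Gen.SemiG F G)
    (hP : HexG (Gen.PG (F := F) G)) : Gen.IsTwoTransitive G ∧
    ∀ (k : ℕ) (C : Set (Finset (V6 F))), 3 ≤ k → 2 * k ≤ Fintype.card (V6 F) →
    ((Gen.IsSITCode G k C ∧ C.Nonempty) ↔ ∃ γ : Finset (V6 F), γ.card = k ∧ C = Gen.Orb G γ ∧
      ((∃ u : V6 F, u ≠ 0 ∧ Gen.Translate {x | Bf u x = 0} γ) ∨
        (∃ u v : V6 F, IsLine u v ∧ Gen.Translate {x | Bf u x = 0 ∧ Bf v x = 0} γ) ∨
        Gen.Exc F G γ ∨
        ∃ β, Gen.Quad F G γ β ∧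
          ((∃ u v : V6 F, IsLine u v ∧ ∀ r, (∀ y, β r y = 0) ↔ Bf u r = 0 ∧ Bf v r = 0) ∨
            ∀ a b, Bf a b = 0 → β a b = 0))) := by
  have hsq : ∀ c : F, ∃ d, d ^ 2 = c := by
    intro c
    obtain ⟨d, hd⟩ := FiniteField.isSquare_of_char_two (ringChar.eq F 2) c
    exact ⟨d, by rw [hd, sq]⟩
  refine ⟨twoTransitive_of hP hsq, fun k C hk hk' => ?_⟩
  have h2 : ∀ x : V6 F, x + x = 0 := vaa F
  have hB := sympBl (F := F)
  apply Gen.iff_of _ hk hk'
  · intro γ hC hγ
    have hcard := hC.card_eq γ hγ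
    have hSG : SG (ind γ) (Gen.PGs (F := F) G γ) := Gen.sg_of_sit h2 hS hC hγ
    have hpg : ∀ {g t σ}, Gen.PGs (F := F) G γ g t σ → HexSemi g σ :=
      fun ⟨h1, a, ha, h3, _⟩ =>
        ⟨h1, hP.sim (σ := _) ⟨h1, a, ha, h3⟩, hP.col (σ := _) ⟨h1, a, ha, h3⟩⟩
    have hsim : ∀ g t σ, Gen.PGs (F := F) G γ g t σ →
        ∃ c : F, c ≠ 0 ∧ ∀ x y, Bl F (g x) (g y) = c * σ (Bl F x y) :=
      fun g t σ h => (hpg h).form
    have hhyp : ∀ W : Submodule F (V6 F), (∀ r, r ∈ W ↔ ∀ x, ind γ (x + r) = ind γ x) →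
        CoisoF (Bl F) W → Hyp (W : Set (V6 F)) := by
      intro W hW hco
      refine ⟨fun a ha => hco a ha, fun x y hx hy => ?_⟩
      have hx' : x ∉ W := hx
      have hy' : y ∉ W := hy
      rw [hW] at hx' hy'
      push Not at hx' hy'
      obtain ⟨g, t, σ, hg, h3⟩ := hSG.lin_trans h2 hx' hy'
      refine ⟨g, σ, hpg hg, fun z => ?_, h3⟩
      change g z ∈ W ↔ z ∈ W
      rw [hW, hW]
      exact hSG.period_iff hg
    rcases Gen.nec_gen hS hC hk hk' hγ with ⟨W, v, hW⟩ | h | ⟨β, hq⟩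
    · have hper := Gen.periods_coset W hW
      rcases hSG.coiso hB hsim W hper with h3 | h3
      · exfalso
        have h4 : γ ⊆ {v} := by
          intro x hx
          have hx' : x + v ∈ W := (hW x).1 hx
          rw [h3, Submodule.mem_bot] at hx'
          rw [mem_singleton]
          have := vabb F x v
          rw [hx', zero_add] at this
          exact this.symm
        have h5 := Finset.card_le_card h4
        rw [Finset.card_singleton] at h5
        omega
      · have hne : W ≠ ⊤ := by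
          rintro rfl
          have h4 : γ = univ := Finset.eq_univ_of_forall fun x => (hW x).2 Submodule.mem_top
          rw [h4, Finset.card_univ] at hcard
          omega
        rcases flats hsq W hne (hhyp W hper h3) with ⟨u, hu, h5⟩ | ⟨u, w, hl, h5⟩
        · left
          exact ⟨u, hu, v, fun x => (hW x).trans (h5 _)⟩
        · right
          left
          exact ⟨u, w, hl, v, fun x => (hW x).trans (h5 _)⟩
    · exact Or.inr (Or.inr (Or.inl h))
    · right
      right
      right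
      refine ⟨β, hq, ?_⟩
      have hpol := hq.polar
      have hR : ∀ r, (∀ y, β r y = 0) → ∀ x, ind γ (x + r) = ind γ x :=
        fun r hr => Gen.ind_period_iff.2 ((hq.period r).2 hr)
      let R : Submodule F (V6 F) :=
        { carrier := {r | ∀ y, β r y = 0}
          add_mem' := by
            intro a b ha hb y
            rw [S4.beta_add_left hpol, ha, hb, add_zero]
          zero_mem' := fun y => S4.beta_zero_left hpol y
          smul_mem' := by
            intro c a ha y
            rw [hq.comp, ha] }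
      have hper : ∀ r, r ∈ R ↔ ∀ x, ind γ (x + r) = ind γ x := fun r => ⟨fun hr => hR r hr,
          fun hr => (hq.period r).1 (Gen.ind_period_iff.1 hr)⟩
      rcases hSG.coiso hB hsim R hper with h3 | h3
      · right
        have hnd : ∀ a, (∀ b, β a b = 0) → a = 0 := by
          intro a ha
          have h4 : a ∈ R := ha
          rw [h3, Submodule.mem_bot] at h4
          exact h4
        obtain ⟨p, hp⟩ : γ.Nonempty := by
          rw [← Finset.card_pos]
          omega
        apply hSG.polar_zero hB hsim hpol hq.comp hnd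
          (Gen.quad_lt h2 hpol hR (by omega)) (ind_eq_one.2 hp)
        rcases hq.small with h4 | ⟨h4, -⟩
        · exact Or.inl h4
        · exact Or.inr h4
      · left
        have hF4 : Fintype.card F = 4 := by
          rcases hq.small with h4 | ⟨h4, -⟩
          · exact absurd h4 hF2
          · exact h4
        obtain ⟨w, hw, hFw⟩ := S4.exists_w hF4
        obtain ⟨a₀, b₀, hab⟩ := hq.ne
        have hne : R ≠ ⊤ := by
          intro h4
          apply hab
          have h5 : a₀ ∈ R := by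
            rw [h4]
            exact Submodule.mem_top
          exact h5 b₀
        rcases flats hsq R hne (hhyp R hper h3) with ⟨u, hu, h5⟩ | ⟨u, w, hl, h5⟩
        · exfalso
          apply hab
          obtain ⟨e, he⟩ : ∃ e, Bf u e ≠ 0 := by
            by_contra hcon
            push Not at hcon
            exact hu (hB.nd u hcon)
          have hdec : ∀ a, a + (Bf u a * (Bf u e)⁻¹) • e ∈ R := by
            intro a
            rw [h5, Bf_add_right, Bf_smul_right, mul_assoc, inv_mul_cancel₀ he, mul_one,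
              CharTwo.add_self_eq_zero]
          have hz : ∀ a b, β a b = β ((Bf u a * (Bf u e)⁻¹) • e) b := by
            intro a b
            have h6 := hdec a b
            rw [S4.beta_add_left hpol] at h6
            revert h6
            generalize β a b = p
            generalize β ((Bf u a * (Bf u e)⁻¹) • e) b = q
            revert p q
            decide
          rw [hz, S4.beta_comm hpol, hz, ← hq.comp, smul_smul]
          exact S4.beta_smul_self hpol hq.comp hw hFw _ _
        · exact ⟨u, w, hl, h5⟩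
  · intro γ hcard h
    rcases h with ⟨u, hu, v, hγ⟩ | ⟨u, w, hl, v, hγ⟩ | (⟨hF, hnl, W, hW, v, hγ⟩ |
      ⟨hF, hall, W, hW, hW', v, hγ⟩) | ⟨β, hq, hβ⟩
    · intro p hp p' hp' q hq q' hq'
      apply Gen.ex_of_pg (F := F)
      let W : AddSubgroup (V6 F) :=
        { carrier := {x | Bf u x = 0}
          add_mem' := by
            intro a b ha hb
            change Bf u (a + b) = 0
            rw [Bf_add_right, show Bf u a = 0 from ha, show Bf u b = 0 from hb, add_zero]
          zero_mem' := by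
            change Bf u 0 = 0
            simp [Bf, dot]
          neg_mem' := by
            intro a ha
            rw [neg_eq_of_add_eq_zero_left (h2 a)]
            exact ha }
      refine hP.coset W (γ := (γ : Set (V6 F))) hγ (fun x hx y hy => ?_) hp hp' hq hq'
      have hx' : Bf x u ≠ 0 := by rw [Bf_comm]; exact hx
      have hy' : Bf y u ≠ 0 := by rw [Bf_comm]; exact hy
      obtain ⟨L, hL, h3, h4⟩ := hyp hsq hP hx' hy'
      refine ⟨L, _, ⟨0, hL 0⟩, fun z => ?_, h4⟩
      change Bf u (L z) = 0 ↔ Bf u z = 0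
      rw [Bf_comm u, Bf_comm u]
      exact h3 z
    · intro p hp p' hp' q hq q' hq'
      apply Gen.ex_of_pg (F := F)
      let W : AddSubgroup (V6 F) :=
        { carrier := {x | Bf u x = 0 ∧ Bf w x = 0}
          add_mem' := by
            rintro a b ⟨ha, ha'⟩ ⟨hb, hb'⟩
            refine ⟨?_, ?_⟩
            · rw [Bf_add_right, ha, hb, add_zero]
            · rw [Bf_add_right, ha', hb', add_zero]
          zero_mem' := by
            refine ⟨?_, ?_⟩ <;> simp [Bf, dot]
          neg_mem' := by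
            intro a ha
            rw [neg_eq_of_add_eq_zero_left (h2 a)]
            exact ha }
      refine hP.coset W (γ := (γ : Set (V6 F))) hγ (fun x hx y hy => ?_) hp hp' hq hq'
      obtain ⟨L, hL, h3, h4⟩ := flat hsq hP hl.1 hl.2.1 hl.2.2 hx hy
      exact ⟨L, _, ⟨0, hL 0⟩, fun z => h3 z, h4⟩
    · intro u hu u' hu' w hw w' hw'
      apply Gen.ex_of_pg (F := F)
      exact hP.hyp4 hsq (γ := (γ : Set (V6 F))) hF hnl W hW hγ hu hu' hw hw'
    · intro u hu u' hu' w hw w' hw'
      apply Gen.ex_of_pg (F := F)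
      exact hP.hyp16 hsq (γ := (γ : Set (V6 F))) hF hall W hW hW' hγ hu hu' hw hw'
    · have hR : ∀ r, (∀ y, β r y = 0) → ∀ x, ind γ (x + r) = ind γ x :=
        fun r hr => Gen.ind_period_iff.2 ((hq.period r).2 hr)
      rcases hq.small with hF | ⟨hF, g, t, σ, hg, hσ⟩
      · exact absurd hF hF2
      · intro u hu u' hu' w hw w' hw'
        have e1 : ind γ u = ind γ w := by rw [ind_eq_one.2 hu, ind_eq_one.2 hw]
        have e2 : ind γ u' = ind γ w' := by
          rw [ind_eq_zero_iff.2 hu', ind_eq_zero_iff.2 hw']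
        have e3 : ind γ u ≠ ind γ u' := by
          rw [ind_eq_one.2 hu, ind_eq_zero_iff.2 hu']
          decide
        have h0 : ∃ g t σ, Gen.PG (F := F) G g t σ ∧ σ ≠ RingEquiv.refl F ∧
            ∀ x, ind γ (g x + t) = ind γ x := by
          obtain ⟨h1, a, ha, h2, h3⟩ := hg
          refine ⟨g, t, σ, ⟨h1, a, ha, h2⟩, hσ, fun x => ?_⟩
          rw [← h2, ind, ind]
          simp only [h3]
        have key : ∃ g t, ∃ σ : F ≃+* F, Gen.PG G g t σ ∧ (∀ z, ind γ (g z + t) = ind γ z) ∧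
            g u + t = w ∧ g u' + t = w' := by
          rcases hβ with ⟨a, b, hl, hrad⟩ | hmult
          · exact hP.quad_flat hsq hF hq.polar hq.comp hR hl.1 hl.2.1 hl.2.2 hrad h0 e1 e2 e3
          · exact hP.quad_mult hF hq.polar hq.comp hq.ne hmult h0 e1 e2 e3
        obtain ⟨g, t, σ, h1, h2, h3, h4⟩ := key
        apply Gen.ex_of_pg (F := F)
        refine ⟨g, t, σ, h1, fun x => ?_, h3, h4⟩
        rw [← ind_eq_one, h2, ind_eq_one]

/-- **All codes for the groups between `AG_2(q)` and `AΓG_2(q)`, `q ≥ 4` even.** -/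
theorem hex_all (hF2 : Fintype.card F ≠ 2) (hG : GHex F G) : Gen.IsTwoTransitive G ∧
    ∀ (k : ℕ) (C : Set (Finset (V6 F))), 3 ≤ k → 2 * k ≤ Fintype.card (V6 F) →
    ((Gen.IsSITCode G k C ∧ C.Nonempty) ↔ ∃ γ : Finset (V6 F), γ.card = k ∧ C = Gen.Orb G γ ∧
      ((∃ u : V6 F, u ≠ 0 ∧ Gen.Translate {x | Bf u x = 0} γ) ∨
        (∃ u v : V6 F, IsLine u v ∧ Gen.Translate {x | Bf u x = 0 ∧ Bf v x = 0} γ) ∨
        Gen.Exc F G γ ∨
        ∃ β, Gen.Quad F G γ β ∧
          ((∃ u v : V6 F, IsLine u v ∧ ∀ r, (∀ y, β r y = 0) ↔ Bf u r = 0 ∧ Bf v r = 0) ∨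
            ∀ a b, Bf a b = 0 → β a b = 0))) :=
  hex_all_of hF2 hG.semiG hG.hexG

end

end Pool.Agent.SIT.Hex
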