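import Pool.Agent.SIT.HexQPos
import Pool.Agent.SIT.HexNec
import Pool.Agent.SIT.SpQAll

/-!
# The hexagon group `G_2(q)`, `q` even: pairs of points in and outside a codeword
-/

namespace Pool.Agent.SIT.Hex

open Pool.Agent.SIT.S4

section

variable {F : Type*} [Field F]

/-- the form as a bilinear map -/
def Bl (F : Type*) [Field F] : V6 F →ₗ[F] V6 F →ₗ[F] F :=
  LinearMap.mk₂ F Bf Bf_add_left Bf_smul_left Bf_add_right Bf_smul_right

lemma Bl_apply (x y : V6 F) : Bl F x y = Bf x y := rfl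

lemma sympBl [CharP F 2] : SpQ.SympF (Bl F) := by
  refine ⟨fun x => Bf_self x, fun x hx => ?_⟩
  have h := fun y => (Bl_apply x y).symm.trans (hx y)
  apply ext6
  · simpa [Bf, dot] using h (0, ![1, 0, 0])
  · simpa [Bf, dot] using h (0, ![0, 1, 0])
  · simpa [Bf, dot] using h (0, ![0, 0, 1])
  · simpa [Bf, dot] using h (![1, 0, 0], 0)
  · simpa [Bf, dot] using h (![0, 1, 0], 0)
  · simpa [Bf, dot] using h (![0, 0, 1], 0)

end

section

variable {F : Type*} [Field F] [CharP F 2] {P : (V6 F ≃+ V6 F) → V6 F → (F ≃+* F) → Prop}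

lemma HexG.tr' (h : HexG P) {g : V6 F ≃+ V6 F} {t : V6 F} {σ : F ≃+* F} (hg : P g t σ)
    (t' : V6 F) : P g t' σ := by
  have h1 := h.mul (h.tr (t + t')) hg
  have e1 : g.trans (AddEquiv.refl (V6 F)) = g := rfl
  have e2 : σ.trans (RingEquiv.refl F) = σ := by ext x; rfl
  have e3 : (AddEquiv.refl (V6 F)) t + (t + t') = t' := SpQ.vaab F t t'
  rwa [e1, e2, e3] at h1

/-- Cosets of subgroups: transitivity outside the subgroup gives transitivity on the pairs. -/
theorem HexG.coset (h : HexG P) (W : AddSubgroup (V6 F)) {γ : Set (V6 F)} {v₀ : V6 F}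
    (hγ : ∀ x, x ∈ γ ↔ x + v₀ ∈ W)
    (hW : ∀ x, x ∉ W → ∀ y, y ∉ W → ∃ g, ∃ σ : F ≃+* F, (∃ t, P g t σ) ∧
      (∀ z, g z ∈ W ↔ z ∈ W) ∧ g x = y)
    {u u' w w' : V6 F} (hu : u ∈ γ) (hu' : u' ∉ γ) (hw : w ∈ γ) (hw' : w' ∉ γ) :
    ∃ g t σ, P g t σ ∧ (∀ x, g x + t ∈ γ ↔ x ∈ γ) ∧ g u + t = w ∧ g u' + t = w' := by
  have hmem : ∀ {u : V6 F}, u ∈ γ → ∀ x, x ∈ γ ↔ x + u ∈ W := by
    intro u hu x
    rw [hγ] at hu ⊢
    have e : x + u = (x + v₀) + (u + v₀) := by
      calc x + u = x + u + (v₀ + v₀) := by rw [SpQ.vaa F v₀, add_zero]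
        _ = _ := by abel
    rw [e]
    exact (AddSubgroup.add_mem_cancel_right W hu).symm
  obtain ⟨g, σ, ⟨t, hg⟩, h1, h2⟩ := hW (u' + u) (fun h0 => hu' ((hmem hu u').2 h0)) (w' + w)
    (fun h0 => hw' ((hmem hw w').2 h0))
  have ha : ∀ x, g x + (g u + w) = g (x + u) + w := by
    intro x
    rw [map_add, add_assoc]
  refine ⟨g, g u + w, σ, h.tr' hg _, fun x => ?_, ?_, ?_⟩
  · rw [hmem hw, hmem hu x, ha, SpQ.vabb F]
    exact h1 _
  · rw [ha, SpQ.vaa F, map_zero, zero_add]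
  · rw [ha, h2, SpQ.vabb F]

variable [Fintype F]

theorem HexG.hypS (hsq : ∀ z : F, ∃ k, k ^ 2 = z) (hP : HexG P)
    {e : ℕ} (he : 1 ≤ e) (hF : Fintype.card F = (2 ^ e) ^ 2)
    (W : AddSubgroup (V6 F)) (hW : ∀ c : F, c ^ (2 ^ e) = c → ∀ w ∈ W, c • w ∈ W)
    (hidx : W.index = 2 ^ e)
    (hval : ∀ s t : F, s ^ (2 ^ e) ≠ s → t ^ (2 ^ e) ≠ t →
      ∃ (μ : F) (σ : F ≃+* F), μ ^ (2 ^ e) = μ ∧ μ ≠ 0 ∧ (∃ g t, P g t σ) ∧ t = μ * σ s)
    {x y : V6 F} (hx : x ∉ W) (hy : y ∉ W) :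
    ∃ g σ, (∃ t, P g t σ) ∧ (∀ z, g z ∈ W ↔ z ∈ W) ∧ g x = y := by
  obtain ⟨φ, hφ, hφW⟩ := LinS.exists_hyp_fun he hF W hW hidx
  obtain ⟨u, hu'⟩ := SpQ.exists_repr sympBl φ
  have hu : ∀ x, Bf x u = φ x := hu'
  have hu0 : u ≠ 0 := by
    rintro rfl
    apply hφ
    apply LinearMap.ext
    intro x
    rw [← hu]
    simp [Bf, dot]
  rw [hφW] at hx hy
  obtain ⟨μ, σ, hμ, hμ0, ⟨g, t, hg⟩, ht⟩ := hval (φ x) (φ y) hx hy
  obtain ⟨L, hL, hφh⟩ := semi_adj hsq hP hg hu0 hμ0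
  have hval' : Bf (L (g x)) u = Bf y u := by rw [hφh, hu, hu, ← ht]
  have hne : Bf (L (g x)) u ≠ 0 := by
    rw [hval', hu]
    intro h0
    apply hy
    rw [h0]
    exact zero_mem _
  obtain ⟨K, hK, hk1, hk2⟩ := level hsq hP hval' hne
  have hmem := hP.mul (hK 0) (hP.mul (hL 0) hg)
  have e' : (σ.trans (RingEquiv.refl F)).trans (RingEquiv.refl F) = σ := by ext x; rfl
  rw [e'] at hmem
  refine ⟨(g.trans L).trans K, σ, ⟨_, hmem⟩, ?_, hk2⟩
  intro z
  rw [hφW, hφW]
  have h1 : φ (((g.trans L).trans K) z) = μ * σ (φ z) := by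
    rw [← hu]
    change Bf (K (L (g z))) u = _
    rw [hk1, hφh, hu]
  rw [h1, LinS.mem_fix, LinS.mem_fix, mul_pow, hμ, ← map_pow]
  constructor
  · intro h2
    exact σ.injective (mul_left_cancel₀ hμ0 h2)
  · intro h2
    rw [h2]

/-- `|F| = 4`: affine hyperplanes over `F_2` -/
theorem HexG.hyp4 (hsq : ∀ z : F, ∃ k, k ^ 2 = z) (h : HexG P) (hF : Fintype.card F = 4)
    (hnl : ∃ g t σ, P g t σ ∧ σ ≠ RingEquiv.refl F) (W : AddSubgroup (V6 F)) (hidx : W.index = 2)
    {γ : Set (V6 F)} {v₀ : V6 F} (hγ : ∀ x, x ∈ γ ↔ x + v₀ ∈ W)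
    {u u' w w' : V6 F} (hu : u ∈ γ) (hu' : u' ∉ γ) (hw : w ∈ γ) (hw' : w' ∉ γ) :
    ∃ g t σ, P g t σ ∧ (∀ x, g x + t ∈ γ ↔ x ∈ γ) ∧ g u + t = w ∧ g u' + t = w' := by
  refine h.coset W hγ (fun x hx y hy => ?_) hu hu' hw hw'
  apply h.hypS hsq (e := 1) le_rfl (by rw [hF]; norm_num) W _ (by rw [hidx]; norm_num) _ hx hy
  · intro c hc w hw
    rw [pow_one, sq] at hc
    have hc' : c = 0 ∨ c = 1 := by
      have h1 : c * (c - 1) = 0 := by linear_combination hc
      rcases mul_eq_zero.1 h1 with h | h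
      · exact Or.inl h
      · exact Or.inr (sub_eq_zero.1 h)
    rcases hc' with rfl | rfl
    · rw [zero_smul]; exact W.zero_mem
    · rw [one_smul]; exact hw
  · intro s t hs ht
    rw [pow_one] at hs ht
    rcases LinS.exc4 hF hs ht with rfl | h'
    · exact ⟨1, RingEquiv.refl F, one_pow _, one_ne_zero, ⟨_, 0, h.tr 0⟩, by rw [one_mul]; rfl⟩
    · obtain ⟨g, t', σ, hg, hσ⟩ := hnl
      exact ⟨1, σ, one_pow _, one_ne_zero, ⟨g, t', hg⟩, by rw [one_mul, ← h' σ hσ]⟩

/-- `|F| = 16`: affine hyperplanes over `F_4` -/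
theorem HexG.hyp16 (hsq : ∀ z : F, ∃ k, k ^ 2 = z) (h : HexG P) (hF : Fintype.card F = 16)
    (hall : ∀ σ : F ≃+* F, ∃ g t, P g t σ) (W : AddSubgroup (V6 F)) (hidx : W.index = 4)
    (hW : ∀ c : F, c ^ 4 = c → ∀ w ∈ W, c • w ∈ W)
    {γ : Set (V6 F)} {v₀ : V6 F} (hγ : ∀ x, x ∈ γ ↔ x + v₀ ∈ W)
    {u u' w w' : V6 F} (hu : u ∈ γ) (hu' : u' ∉ γ) (hw : w ∈ γ) (hw' : w' ∉ γ) :
    ∃ g t σ, P g t σ ∧ (∀ x, g x + t ∈ γ ↔ x ∈ γ) ∧ g u + t = w ∧ g u' + t = w' := by
  refine h.coset W hγ (fun x hx y hy => ?_) hu hu' hw hw'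
  apply h.hypS hsq (e := 2) (by norm_num) (by rw [hF]; norm_num) W _
    (by rw [hidx]; norm_num) _ hx hy
  · intro c hc
    exact hW c (by simpa using hc)
  · intro s t hs ht
    obtain ⟨μ, σ, h1, h2, h3⟩ := LinS.exc16 hF (s := s) (t := t) (by simpa using hs)
      (by simpa using ht)
    exact ⟨μ, σ, by simpa using h1, h2, hall σ, h3⟩

end

/-! ### quadrics -/

section

variable {F : Type*} [Field F] [CharP F 2] {P : (V6 F ≃+ V6 F) → V6 F → (F ≃+* F) → Prop}

/-- conjugation by a member, up to a constant -/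
lemma HexG.conj (hP : HexG P) {L : V6 F ≃+ V6 F} (hL : LinIn P L) (s : V6 F)
    {f f' : V6 F → ZMod 2} {ε : ZMod 2} (hf : ∀ x, f' (L x + s) = f x + ε)
    (H : (∃ g t σ, P g t σ ∧ σ ≠ RingEquiv.refl F ∧ ∀ x, f' (g x + t) = f' x) →
      ∀ {x y x' y' : V6 F}, f' x = f' x' → f' y = f' y' → f' x ≠ f' y →
        ∃ g t σ, P g t σ ∧ (∀ z, f' (g z + t) = f' z) ∧ g x + t = x' ∧ g y + t = y')
    (h0 : ∃ g t σ, P g t σ ∧ σ ≠ RingEquiv.refl F ∧ ∀ x, f (g x + t) = f x)
    {x y x' y' : V6 F} (hx : f x = f x') (hy : f y = f y') (hne : f x ≠ f y) :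
    ∃ g t σ, P g t σ ∧ (∀ z, f (g z + t) = f z) ∧ g x + t = x' ∧ g y + t = y' := by
  have h0' : ∃ g t σ, P g t σ ∧ σ ≠ RingEquiv.refl F ∧ ∀ x, f' (g x + t) = f' x := by
    obtain ⟨g, t, σ, hg, hσ, h1⟩ := h0
    have h2 := hP.mul (hL 0) (hP.mul hg (hP.lin_symm hL 0))
    refine ⟨_, (L.symm.trans g).trans L s + L t + s, _, hP.tr' h2 _, ?_, fun z => ?_⟩
    · intro h3
      apply hσ
      rw [← h3]
      ext c
      rfl
    · have e : z = L (L.symm (z + s)) + s := by
        rw [L.apply_symm_apply, SpQ.vabb F]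
      have e2 : ((L.symm.trans g).trans L) z + (((L.symm.trans g).trans L) s + L t + s) =
          L (g (L.symm (z + s)) + t) + s := by
        simp only [AddEquiv.trans_apply, map_add]
        abel
      rw [e2, hf, h1]
      conv_rhs => rw [e]
      rw [hf]
  obtain ⟨g, t, σ, hg, h1, h2, h3⟩ := H h0' (x := L x + s) (y := L y + s) (x' := L x' + s)
    (y' := L y' + s) (by rw [hf, hf, hx]) (by rw [hf, hf, hy]) (by
      rw [hf, hf]
      intro h4
      exact hne (add_right_cancel h4))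
  have h4 := hP.mul (hP.lin_symm hL 0) (hP.mul hg (hL 0))
  have e2 : ∀ z, ((L.trans g).trans L.symm) z + L.symm (g s + t + s) =
      L.symm ((g (L z + s) + t) + s) := by
    intro z
    simp only [AddEquiv.trans_apply, map_add]
    abel
  refine ⟨_, L.symm (g s + t + s), _, hP.tr' h4 _, fun z => ?_, ?_, ?_⟩
  · rw [e2]
    have h5 := hf (L.symm ((g (L z + s) + t) + s))
    rw [L.apply_symm_apply, SpQ.vabb F, h1, hf] at h5
    exact (add_right_cancel h5).symm
  · rw [e2, h2, SpQ.vabb F, L.symm_apply_apply]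
  · rw [e2, h3, SpQ.vabb F, L.symm_apply_apply]

variable {f : V6 F → ZMod 2} {β : V6 F → V6 F → ZMod 2}

/-- quadrics whose period is orthogonal to a hexagon line -/
theorem HexG.quad_flat [Fintype F] (hsq : ∀ z : F, ∃ k, k ^ 2 = z) (hP : HexG P)
    (hcard : Fintype.card F = 4)
    (hb : ∀ x a b, f (x + a + b) + f (x + a) + f (x + b) + f x = β a b)
    (hcomp : ∀ (c : F) a b, β (c • a) b = β a (c • b))
    (hR : ∀ a, (∀ b, β a b = 0) → ∀ x, f (x + a) = f x)
    {u v : V6 F} (hu : u ≠ 0) (hv : ∀ c : F, v ≠ c • u) (huv : Col u v)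
    (hrad : ∀ r : V6 F, (∀ b, β r b = 0) ↔ (Bf u r = 0 ∧ Bf v r = 0))
    (h0 : ∃ g t σ, P g t σ ∧ σ ≠ RingEquiv.refl F ∧ ∀ x, f (g x + t) = f x)
    {x y x' y' : V6 F} (hx : f x = f x') (hy : f y = f y') (hne : f x ≠ f y) :
    ∃ g t σ, P g t σ ∧ (∀ z, f (g z + t) = f z) ∧ g x + t = x' ∧ g y + t = y' := by
  obtain ⟨w, hw, hF⟩ := exists_w hcard
  obtain ⟨L, hL, hLf⟩ := to_flat hsq hP hu hv huv
  have hlin : ∀ (c : F) x, L.symm (c • x) = c • L.symm x := fun c x =>
    hP.semi (hP.lin_symm hL 0) c x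
  refine hP.conj hL 0 (f' := fun z => f (L.symm z)) (ε := 0) (fun z => ?_) (fun h0' => ?_) h0
    hx hy hne
  · rw [add_zero, add_zero, L.symm_apply_apply]
  · intro x y x' y' hx hy hne
    refine g2f hw hF (f := fun z => f (L.symm z)) (β := fun a b => β (L.symm a) (L.symm b))
      (fun x a b => ?_) (fun c a b => ?_) (fun a ha x => ?_) (fun r => ?_) hP.toHexGrp h0' hx hy hne
    · simp only [map_add]
      exact hb _ _ _
    · simp only [hlin]
      exact hcomp c _ _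
    · simp only [map_add]
      apply hR
      intro b
      have := ha (L b)
      simpa only [L.symm_apply_apply] using this
    · have h1 := hLf (L.symm r)
      rw [L.apply_symm_apply] at h1
      rw [← h1, ← hrad]
      constructor
      · intro h2 b
        have := h2 (L b)
        rwa [L.symm_apply_apply] at this
      · intro h2 b
        exact h2 _

omit [CharP F 2] in
lemma Qf_polar (x a b : V6 F) :
    Qf (x + a + b) - Qf (x + a) - Qf (x + b) + Qf x = Bf a b := by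
  simp only [Qf, Bf, dot, Prod.fst_add, Prod.snd_add, Pi.add_apply]
  ring

/-- representation of additive functions by a nondegenerate form over `F_2` -/
lemma exists_repr2 {V : Type*} [AddCommGroup V] [Finite V] (h2 : ∀ x : V, x + x = 0)
    {β : V → V → ZMod 2} (hadd : ∀ a b c, β (a + b) c = β a c + β b c)
    (hadd' : ∀ a b c, β a (b + c) = β a b + β a c) (halt : ∀ a, β a a = 0)
    (hnd : ∀ a, (∀ b, β a b = 0) → a = 0) (l : V → ZMod 2)
    (hl : ∀ a b, l (a + b) = l a + l b) : ∃ t, ∀ x, β t x = l x := by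
  let _ : Module (ZMod 2) V := AddCommGroup.zmodModule (n := 2) (fun x => by rw [two_nsmul, h2])
  have hz : ∀ b, β 0 b = 0 := by
    intro b
    have := hadd 0 0 b
    rw [add_zero] at this
    exact left_eq_add.1 this
  have hz' : ∀ b, β b 0 = 0 := by
    intro b
    have := hadd' b 0 0
    rw [add_zero] at this
    exact left_eq_add.1 this
  have hl0 : l 0 = 0 := by
    have := hl 0 0
    rw [add_zero] at this
    exact left_eq_add.1 this
  let B : LinearMap.BilinForm (ZMod 2) V := LinearMap.mk₂ (ZMod 2) β hadd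
    (fun c a b => by
      rcases zmod2_cases c with rfl | rfl
      · rw [zero_smul, zero_smul, hz]
      · rw [one_smul, one_smul]) hadd'
    (fun c a b => by
      rcases zmod2_cases c with rfl | rfl
      · rw [zero_smul, zero_smul, hz']
      · rw [one_smul, one_smul])
  let φ : Module.Dual (ZMod 2) V :=
    { toFun := l
      map_add' := hl
      map_smul' := fun c a => by
        rcases zmod2_cases c with rfl | rfl
        · rw [zero_smul, hl0, map_zero, zero_smul]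
        · rw [one_smul, map_one, one_smul] }
  have hfd : FiniteDimensional (ZMod 2) V := Module.Finite.of_finite
  obtain ⟨t, ht⟩ := exists_repr (B := B) ⟨halt, hnd⟩ φ
  exact ⟨t, ht⟩

omit [CharP F 2] in
/-- a form vanishing where a nondegenerate alternating form vanishes is proportional to it -/
lemma prop_form {B : V6 F → V6 F → F} {D : V6 F → V6 F → F} {a₀ b₀ : V6 F}
    (hBa : ∀ a b c, B (a + b) c = B a c + B b c) (hBs : ∀ (c : F) a b, B (c • a) b = c * B a b)
    (hBc : ∀ a b, B a b = B b a)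
    (hDa : ∀ a b c, D (a + b) c = D a c + D b c) (hDs : ∀ (c : F) a b, D (c • a) b = c * D a b)
    (hDc : ∀ a b, D a b = D b a) (h : ∀ a b, B a b = 0 → D a b = 0) (h0 : B a₀ b₀ ≠ 0) :
    ∃ c, ∀ a b, D a b = c * B a b := by
  have key : ∀ b, ∃ k : F, ∀ a, D a b = k * B a b := by
    intro b
    by_cases hb : ∃ t, B t b ≠ 0
    · obtain ⟨t, ht⟩ := hb
      refine ⟨D t b * (B t b)⁻¹, fun a => ?_⟩
      have h1 : B (a + (-(B a b * (B t b)⁻¹)) • t) b = 0 := by
        rw [hBa, hBs]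
        have : (B t b)⁻¹ * B t b = 1 := inv_mul_cancel₀ ht
        linear_combination (-B a b) * this
      have h2 := h _ _ h1
      rw [hDa, hDs] at h2
      linear_combination h2
    · push Not at hb
      exact ⟨0, fun a => by rw [h a b (hb a), zero_mul]⟩
  obtain ⟨k, hk⟩ := key a₀
  refine ⟨k, fun a b => ?_⟩
  have step : ∀ b, B a₀ b ≠ 0 → ∀ a, D a b = k * B a b := by
    intro b hb a
    obtain ⟨m, hm⟩ := key b
    have h1 : m * B a₀ b = k * B a₀ b := by rw [← hm, hDc, hk, hBc b a₀]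
    rw [hm, mul_right_cancel₀ hb h1]
  by_cases hb : B a₀ b = 0
  · have h1 : B a₀ (b + b₀) ≠ 0 := by
      rw [hBc, hBa, hBc b, hBc b₀, hb, zero_add]
      exact h0
    have h2 := step _ h1 a
    have h3 := step _ h0 a
    rw [hDc, hDa, hDc b, hDc b₀, hBc a, hBa, hBc b, hBc b₀] at h2
    linear_combination h2 - h3
  · exact step b hb a

lemma io_beta {w : F} (hw : w ^ 2 + w + 1 = 0) (a b : V6 F) :
    bt w β a b + bt w β a b ^ 2 = io F (β a b) := by
  have p2 := io_sq (F := F) (β a b)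
  have q2 := io_sq (F := F) (β (w • a) b)
  unfold bt
  set p := io F (β a b)
  set q := io F (β (w • a) b)
  linear_combination (w + 1) ^ 2 * p2 + q2 + p * hw +
    (w * p + q + (w + 1) * p * q) * two0 (F := F)

/-- quadrics whose polar form is the trace of a multiple of the form -/
theorem HexG.quad_mult [Fintype F] (hP : HexG P) (hcard : Fintype.card F = 4)
    (hb : ∀ x a b, f (x + a + b) + f (x + a) + f (x + b) + f x = β a b)
    (hcomp : ∀ (c : F) a b, β (c • a) b = β a (c • b)) (hne0 : ∃ a b, β a b ≠ 0)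
    (hmult : ∀ a b, Bf a b = 0 → β a b = 0)
    (h0 : ∃ g t σ, P g t σ ∧ σ ≠ RingEquiv.refl F ∧ ∀ x, f (g x + t) = f x)
    {x y x' y' : V6 F} (hx : f x = f x') (hy : f y = f y') (hne : f x ≠ f y) :
    ∃ g t σ, P g t σ ∧ (∀ z, f (g z + t) = f z) ∧ g x + t = x' ∧ g y + t = y' := by
  classical
  obtain ⟨w, hw, hF⟩ := exists_w hcard
  have hnd : ∀ a, (∀ b, β a b = 0) → a = 0 := fun a ha =>
    Gen.rad_zero_of_mult hb hcomp hne0 sympBl hmult ha
  obtain ⟨a₀, b₀, hab⟩ := hne0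
  have hB0 : Bf a₀ b₀ ≠ 0 := fun h => hab (hmult _ _ h)
  obtain ⟨c, hc⟩ := prop_form (B := Bf) (D := bt w β) Bf_add_left Bf_smul_left Bf_comm
    (bt_add_left hb) (bt_smul_left hb hw hF) (bt_comm hb hcomp) (fun a b h => by
      unfold bt
      rw [hmult a b h, hmult (w • a) b (by rw [Bf_smul_left, h, mul_zero]), map_zero, mul_zero,
        add_zero]) hB0
  have hc0 : c ≠ 0 := by
    rintro rfl
    apply hab
    apply io_eq_zero (F := F)
    rw [← io_beta hw, hc]
    ring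
  have htr : ∀ y : F, ∃ a : ZMod 2, io F a = y ^ 2 + y := by
    intro y
    rcases hF y with rfl | rfl | rfl | rfl
    · exact ⟨0, by rw [map_zero]; ring⟩
    · exact ⟨0, by rw [map_zero]; linear_combination -(two0 (F := F))⟩
    · refine ⟨1, ?_⟩
      rw [map_one]
      linear_combination -hw + two0 (F := F)
    · refine ⟨1, ?_⟩
      rw [map_one]
      linear_combination -hw - w * two0 (F := F)
  choose τ hτ using htr
  set f₀ : V6 F → ZMod 2 := fun x => τ (c * Qf x) with hf₀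
  have hf₀' : ∀ x, io F (f₀ x) = (c * Qf x) ^ 2 + c * Qf x := fun x => hτ _
  have hinj : Function.Injective (io F) := by
    rw [injective_iff_map_eq_zero]
    intro a ha
    exact io_eq_zero ha
  have hb₀ : ∀ x a b, f₀ (x + a + b) + f₀ (x + a) + f₀ (x + b) + f₀ x = β a b := by
    intro x a b
    apply hinj
    rw [map_add, map_add, map_add, hf₀', hf₀', hf₀', hf₀', ← io_beta hw, hc]
    have h1 := Qf_polar x a b
    rw [← h1]
    set p := Qf (x + a + b)
    set q := Qf (x + a)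
    set r := Qf (x + b)
    set s := Qf x
    linear_combination (c * (q + r) + c ^ 2 * (p * q + p * r - q * r - p * s + q * s + r * s)) *
      two0 (F := F)
  have hladd : ∀ a b, (f (a + b) + f₀ (a + b) + (f 0 + f₀ 0)) =
      (f a + f₀ a + (f 0 + f₀ 0)) + (f b + f₀ b + (f 0 + f₀ 0)) := by
    intro a b
    have h1 := hb 0 a b
    have h2 := hb₀ 0 a b
    rw [← h1] at h2
    simp only [zero_add] at h2
    revert h2
    generalize f (a + b) = p1
    generalize f₀ (a + b) = p2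
    generalize f a = p3
    generalize f₀ a = p4
    generalize f b = p5
    generalize f₀ b = p6
    generalize f 0 = p7
    generalize f₀ 0 = p8
    revert p1 p2 p3 p4 p5 p6 p7 p8
    decide
  obtain ⟨t, ht⟩ := exists_repr2 (SpQ.vaa F) (beta_add_left hb) (beta_add_right hb)
    (beta_self (F := F) hb) hnd (fun x => f x + f₀ x + (f 0 + f₀ 0)) hladd
  refine hP.conj hP.lin_refl t (f := f) (f' := f₀) (ε := f₀ t + f 0) (fun x => ?_)
    (fun h0' => ?_) h0 hx hy hne
  · change f₀ (x + t) = _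
    have h1 := hb₀ 0 x t
    have h2 := ht x
    rw [S4.beta_comm hb₀, ← h1] at h2
    simp only [zero_add] at h2
    revert h2
    generalize f₀ (x + t) = p1
    generalize f₀ x = p2
    generalize f₀ t = p3
    generalize f₀ 0 = p4
    generalize f x = p5
    generalize f 0 = p6
    revert p1 p2 p3 p4 p5 p6
    decide
  · intro x y x' y' hx hy hne
    exact g2g_grp hw hF hc0 hf₀' hP.toHexGrp h0' hx hy hne

end

end Pool.Agent.SIT.Hex
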