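import Pool.Agent.SIT.LinS4

/-!
# The hexagon group `G_2(q)`, `q` even: elementary maps

`V = F^3 × F^3` with the form `B((v,w),(v',w')) = v·w' + w·v'` and `Q(v,w) = v·w`. The maps `sU`,
`tU`, `eU` are elements of `G_2(q)` in this representation.
-/

namespace Pool.Agent.SIT.Hex

open Pool.Agent.SIT.S4

variable {F : Type*} [Field F]

/-- The space `F^3 × F^3`. -/
abbrev V6 (F : Type*) : Type _ := (Fin 3 → F) × (Fin 3 → F)

/-- The dot product on `F^3`. -/
def dot (u v : Fin 3 → F) : F := u 0 * v 0 + u 1 * v 1 + u 2 * v 2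

/-- The cross product on `F^3`, in characteristic two. -/
def crs (u v : Fin 3 → F) : Fin 3 → F :=
  ![u 1 * v 2 + u 2 * v 1, u 2 * v 0 + u 0 * v 2, u 0 * v 1 + u 1 * v 0]

/-- `(v, w) ↦ (v + (u·w) u, w + u × v)`. -/
def sU (u : Fin 3 → F) (x : V6 F) : V6 F := (x.1 + dot u x.2 • u, x.2 + crs u x.1)

/-- `(v, w) ↦ (v + u × w, w + (u·v) u)`. -/
def tU (u : Fin 3 → F) (x : V6 F) : V6 F := (x.1 + crs u x.2, x.2 + dot u x.1 • u)

/-- `(v, w) ↦ (v + (b·v) a, w + (a·w) b)`, an element of `SL_3` if `a·b = 0`. -/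
def eU (a b : Fin 3 → F) (x : V6 F) : V6 F := (x.1 + dot b x.1 • a, x.2 + dot a x.2 • b)

/-- A class of permutations that contains the translations and the elementary maps. -/
structure HexClass (G : (V6 F → V6 F) → Prop) : Prop where
  comp : ∀ g h, G g → G h → G (g ∘ h)
  tr : ∀ t, G (fun x => x + t)
  s : ∀ u, G (sU u)
  t : ∀ u, G (tU u)
  e : ∀ a b, dot a b = 0 → G (eU a b)

omit [Field F] in
/-- extensionality -/
lemma ext6 {x y : V6 F} (h0 : x.1 0 = y.1 0) (h1 : x.1 1 = y.1 1) (h2 : x.1 2 = y.1 2)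
    (h3 : x.2 0 = y.2 0) (h4 : x.2 1 = y.2 1) (h5 : x.2 2 = y.2 2) : x = y := by
  apply Prod.ext
  · funext i
    fin_cases i
    · exact h0
    · exact h1
    · exact h2
  · funext i
    fin_cases i
    · exact h3
    · exact h4
    · exact h5

section basic

lemma dot_add (u v w : Fin 3 → F) : dot u (v + w) = dot u v + dot u w := by
  simp only [dot, Pi.add_apply]; ring

lemma add_dot (u v w : Fin 3 → F) : dot (u + v) w = dot u w + dot v w := by
  simp only [dot, Pi.add_apply]; ring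

lemma dot_smul (c : F) (u v : Fin 3 → F) : dot u (c • v) = c * dot u v := by
  simp only [dot, Pi.smul_apply, smul_eq_mul]; ring

lemma smul_dot (c : F) (u v : Fin 3 → F) : dot (c • u) v = c * dot u v := by
  simp only [dot, Pi.smul_apply, smul_eq_mul]; ring

lemma dot_comm (u v : Fin 3 → F) : dot u v = dot v u := by
  simp only [dot]; ring

lemma crs_add (u v w : Fin 3 → F) : crs u (v + w) = crs u v + crs u w := by
  funext i
  fin_cases i <;> simp [crs] <;> ring

lemma crs_smul (c : F) (u v : Fin 3 → F) : crs u (c • v) = c • crs u v := by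
  funext i
  fin_cases i <;> simp [crs] <;> ring

lemma sU_add (u : Fin 3 → F) (x y : V6 F) : sU u (x + y) = sU u x + sU u y := by
  simp only [sU, Prod.fst_add, Prod.snd_add, dot_add, crs_add, add_smul, Prod.mk_add_mk]
  congr 1 <;> abel

lemma tU_add (u : Fin 3 → F) (x y : V6 F) : tU u (x + y) = tU u x + tU u y := by
  simp only [tU, Prod.fst_add, Prod.snd_add, dot_add, crs_add, add_smul, Prod.mk_add_mk]
  congr 1 <;> abel

lemma eU_add (a b : Fin 3 → F) (x y : V6 F) : eU a b (x + y) = eU a b x + eU a b y := by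
  simp only [eU, Prod.fst_add, Prod.snd_add, dot_add, add_smul, Prod.mk_add_mk]
  congr 1 <;> abel

lemma sU_smul (u : Fin 3 → F) (c : F) (x : V6 F) : sU u (c • x) = c • sU u x := by
  simp only [sU, Prod.smul_fst, Prod.smul_snd, dot_smul, crs_smul, Prod.smul_mk, smul_add, mul_smul]

lemma tU_smul (u : Fin 3 → F) (c : F) (x : V6 F) : tU u (c • x) = c • tU u x := by
  simp only [tU, Prod.smul_fst, Prod.smul_snd, dot_smul, crs_smul, Prod.smul_mk, smul_add, mul_smul]

lemma eU_smul (a b : Fin 3 → F) (c : F) (x : V6 F) : eU a b (c • x) = c • eU a b x := by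
  simp only [eU, Prod.smul_fst, Prod.smul_snd, dot_smul, Prod.smul_mk, smul_add, mul_smul]

variable [CharP F 2]

lemma two0 : (2 : F) = 0 := CharTwo.two_eq_zero

lemma dot_crs (u v : Fin 3 → F) : dot u (crs u v) = 0 := by
  simp only [dot, crs, Matrix.cons_val_zero, Matrix.cons_val_one, Matrix.cons_val]
  linear_combination (u 0 * u 1 * v 2 + u 0 * u 2 * v 1 + u 1 * u 2 * v 0) * (two0 (F := F))

lemma dot_crs' (u v : Fin 3 → F) : dot v (crs u v) = 0 := by
  simp only [dot, crs, Matrix.cons_val_zero, Matrix.cons_val_one, Matrix.cons_val]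
  linear_combination (v 0 * u 1 * v 2 + v 0 * u 2 * v 1 + v 1 * u 0 * v 2) * (two0 (F := F))

/-- the quadratic form -/
def Qf (x : V6 F) : F := dot x.1 x.2

lemma Qf_sU (u : Fin 3 → F) (x : V6 F) : Qf (sU u x) = Qf x + dot u x.2 ^ 2 := by
  simp only [Qf, sU, dot_add, add_dot, smul_dot, dot_crs, dot_crs']
  ring

lemma Qf_tU (u : Fin 3 → F) (x : V6 F) : Qf (tU u x) = Qf x + dot u x.1 ^ 2 := by
  have h : dot (crs u x.2) x.2 = 0 := by rw [dot_comm, dot_crs']
  have h' : dot (crs u x.2) u = 0 := by rw [dot_comm, dot_crs]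
  simp only [Qf, tU, dot_add, add_dot, dot_smul, h, h', dot_comm x.1 u]
  ring

lemma Qf_eU (a b : Fin 3 → F) (h : dot a b = 0) (x : V6 F) : Qf (eU a b x) = Qf x := by
  simp only [Qf, eU, dot_add, add_dot, dot_smul, smul_dot, h, dot_comm x.1 b]
  linear_combination (dot b x.1 * dot a x.2) * (two0 (F := F))

end basic

end Pool.Agent.SIT.Hex
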