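import Pool.Agent.SIT.HexDer
import Pool.Agent.SIT.A7Class

/-!
# `|F| = 2`: from `V6 F` to `F_2^6`
-/

namespace Pool.Agent.SIT.Gen

open Finset Hex G2

variable {F : Type*} [Field F]

/-- the last condition in `Col` follows from the others over the field of order two -/
theorem chk_last : ((List.range 64).all fun m => (List.range 64).all fun n =>
    !(hN m n) || ((qN m && qN n) ==
      ((m.testBit 0 && n.testBit 1) ^^ (m.testBit 2 && n.testBit 3) ^^
        (m.testBit 4 && n.testBit 5)))) = true := by decide +kernel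

/-- coordinates -/
def toV (ι : F ≃+* ZMod 2) (x : V6 F) : Vec (2 * 3) :=
  (![ι (x.1 0), ι (x.2 0), ι (x.1 1), ι (x.2 1), ι (x.1 2), ι (x.2 2)] : Fin 6 → ZMod 2)

/-- back -/
def fromV (ι : F ≃+* ZMod 2) (y : Vec (2 * 3)) : V6 F :=
  (![ι.symm (y (0 : Fin 6)), ι.symm (y (2 : Fin 6)), ι.symm (y (4 : Fin 6))],
    ![ι.symm (y (1 : Fin 6)), ι.symm (y (3 : Fin 6)), ι.symm (y (5 : Fin 6))])

variable (ι : F ≃+* ZMod 2)

lemma fromV_toV (x : V6 F) : fromV ι (toV ι x) = x := by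
  apply ext6 <;> simp [fromV, toV]

lemma vec6_ext {x y : Vec (2 * 3)} (h0 : x (0 : Fin 6) = y (0 : Fin 6))
    (h1 : x (1 : Fin 6) = y (1 : Fin 6)) (h2 : x (2 : Fin 6) = y (2 : Fin 6))
    (h3 : x (3 : Fin 6) = y (3 : Fin 6)) (h4 : x (4 : Fin 6) = y (4 : Fin 6))
    (h5 : x (5 : Fin 6) = y (5 : Fin 6)) : x = y := by
  funext i
  change Fin 6 at i
  fin_cases i
  · exact h0
  · exact h1
  · exact h2
  · exact h3
  · exact h4
  · exact h5

lemma toV_fromV (y : Vec (2 * 3)) : toV ι (fromV ι y) = y := by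
  apply vec6_ext <;> simp [fromV, toV]

/-- coordinates, as a bijection -/
def eV : V6 F ≃ Vec (2 * 3) :=
  { toFun := toV ι, invFun := fromV ι, left_inv := fromV_toV ι, right_inv := toV_fromV ι }

lemma toV_add (x y : V6 F) : toV ι (x + y) = toV ι x + toV ι y := by
  apply vec6_ext <;> simp [toV]

lemma toV_zero : toV ι (0 : V6 F) = 0 := by
  apply vec6_ext <;> simp [toV]

lemma toV_smul (c : F) (x : V6 F) : toV ι (c • x) = ι c • toV ι x := by
  apply vec6_ext <;> simp [toV]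

lemma sf_toV (x y : V6 F) : sf 3 (toV ι x) (toV ι y) = ι (Bf x y) := by
  rw [sf, Fin.sum_univ_three]
  simp only [Bf, dot, map_add, map_mul]
  change ι (x.1 0) * ι (y.2 0) + ι (x.2 0) * ι (y.1 0) +
    (ι (x.1 1) * ι (y.2 1) + ι (x.2 1) * ι (y.1 1)) +
    (ι (x.1 2) * ι (y.2 2) + ι (x.2 2) * ι (y.1 2)) = _
  ring

lemma quad_toV (x : V6 F) : quadForm (le_refl (2 * 3)) (toV ι x) = ι (Qf x) := by
  rw [quadForm, Fin.sum_univ_three]
  simp only [Qf, dot, map_add, map_mul]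
  rfl

lemma dot_toV (x y : V6 F) : ι (dot x.1 y.2) = toV ι x (0 : Fin 6) * toV ι y (1 : Fin 6) +
    toV ι x (2 : Fin 6) * toV ι y (3 : Fin 6) + toV ι x (4 : Fin 6) * toV ι y (5 : Fin 6) := by
  simp only [dot, map_add, map_mul]
  rfl

lemma z2_sq (c : ZMod 2) : c ^ 2 = c := by
  revert c
  decide

lemma last_of_rel {x y : Vec (2 * 3)} (h : HexRel x y) :
    quadForm (le_refl (2 * 3)) x * quadForm (le_refl (2 * 3)) y =
      x (0 : Fin 6) * y (1 : Fin 6) + x (2 : Fin 6) * y (3 : Fin 6) +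
        x (4 : Fin 6) * y (5 : Fin 6) := by
  obtain ⟨m, hm, rfl⟩ := dec_surj x
  obtain ⟨n, hn, rfl⟩ := dec_surj y
  rw [hexRel_dec] at h
  have h1 := all_range (all_range chk_last hm) hn
  rw [h, Bool.not_true, Bool.false_or, beq_iff_eq] at h1
  rw [quadForm_dec, quadForm_dec, ← b2_and, h1, b2_xor, b2_xor, b2_and, b2_and, b2_and]
  rfl

lemma hexRel_toV (x y : V6 F) : HexRel (toV ι x) (toV ι y) ↔ Col x y := by
  have hinj : ∀ a b : F, ι a = ι b ↔ a = b := fun a b => ι.injective.eq_iff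
  have hsq : ∀ c : F, c ^ 2 = c := by
    intro c
    rw [← hinj, map_pow, z2_sq]
  have hz : ∀ a : F, ι a = 0 ↔ a = 0 := fun a => map_eq_zero_iff ι ι.injective
  constructor
  · intro h
    have hl := last_of_rel h
    rw [quad_toV, quad_toV, ← dot_toV, ← map_mul, hinj] at hl
    obtain ⟨h0, h⟩ := h
    simp only [List.forall_mem_cons, quad_toV] at h
    obtain ⟨h1, h2, h3, h4, h5, h6, -⟩ := h
    rw [sf_toV, hz] at h0
    change ι (x.1 1) * ι (y.1 2) + ι (x.1 2) * ι (y.1 1) =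
      ι (Qf x) * ι (y.2 0) + ι (x.2 0) * ι (Qf y) at h1
    change ι (x.2 0) * ι (y.2 1) + ι (x.2 1) * ι (y.2 0) =
      ι (Qf x) * ι (y.1 2) + ι (x.1 2) * ι (Qf y) at h2
    change ι (x.1 0) * ι (y.1 2) + ι (x.1 2) * ι (y.1 0) =
      ι (Qf x) * ι (y.2 1) + ι (x.2 1) * ι (Qf y) at h3
    change ι (x.2 1) * ι (y.2 2) + ι (x.2 2) * ι (y.2 1) =
      ι (Qf x) * ι (y.1 0) + ι (x.1 0) * ι (Qf y) at h4
    change ι (x.1 0) * ι (y.1 1) + ι (x.1 1) * ι (y.1 0) =
      ι (Qf x) * ι (y.2 2) + ι (x.2 2) * ι (Qf y) at h5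
    change ι (x.2 0) * ι (y.2 2) + ι (x.2 2) * ι (y.2 0) =
      ι (Qf x) * ι (y.1 1) + ι (x.1 1) * ι (Qf y) at h6
    simp only [← map_mul, ← map_add, hinj] at h1 h2 h3 h4 h5 h6
    refine ⟨h0, forall_fin3 ?_ ?_ ?_, forall_fin3 ?_ ?_ ?_, ?_⟩
    · rw [hsq, hsq, hsq, crs_zero']
      linear_combination -h4
    · rw [hsq, hsq, hsq, crs_one']
      linear_combination -h6
    · rw [hsq, hsq, hsq, crs_two']
      linear_combination -h2
    · rw [hsq, hsq, hsq, crs_zero']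
      linear_combination -h1
    · rw [hsq, hsq, hsq, crs_one']
      linear_combination -h3
    · rw [hsq, hsq, hsq, crs_two']
      linear_combination -h5
    · rw [hsq, hl]
  · rintro ⟨h0, h1, h2, -⟩
    have a0 := h1 0
    have a1 := h1 1
    have a2 := h1 2
    have b0 := h2 0
    have b1 := h2 1
    have b2 := h2 2
    rw [hsq, hsq, hsq, crs_zero'] at a0 b0
    rw [hsq, hsq, hsq, crs_one'] at a1 b1
    rw [hsq, hsq, hsq, crs_two'] at a2 b2
    refine ⟨by rw [sf_toV, h0, map_zero], ?_⟩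
    simp only [List.forall_mem_cons, quad_toV]
    refine ⟨?_, ?_, ?_, ?_, ?_, ?_, fun t ht => absurd ht List.not_mem_nil⟩
    · change ι (x.1 1) * ι (y.1 2) + ι (x.1 2) * ι (y.1 1) =
        ι (Qf x) * ι (y.2 0) + ι (x.2 0) * ι (Qf y)
      simp only [← map_mul, ← map_add, hinj]
      linear_combination -b0
    · change ι (x.2 0) * ι (y.2 1) + ι (x.2 1) * ι (y.2 0) =
        ι (Qf x) * ι (y.1 2) + ι (x.1 2) * ι (Qf y)
      simp only [← map_mul, ← map_add, hinj]
      linear_combination -a2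
    · change ι (x.1 0) * ι (y.1 2) + ι (x.1 2) * ι (y.1 0) =
        ι (Qf x) * ι (y.2 1) + ι (x.2 1) * ι (Qf y)
      simp only [← map_mul, ← map_add, hinj]
      linear_combination -b1
    · change ι (x.2 1) * ι (y.2 2) + ι (x.2 2) * ι (y.2 1) =
        ι (Qf x) * ι (y.1 0) + ι (x.1 0) * ι (Qf y)
      simp only [← map_mul, ← map_add, hinj]
      linear_combination -a0
    · change ι (x.1 0) * ι (y.1 1) + ι (x.1 1) * ι (y.1 0) =
        ι (Qf x) * ι (y.2 2) + ι (x.2 2) * ι (Qf y)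
      simp only [← map_mul, ← map_add, hinj]
      linear_combination -b2
    · change ι (x.2 0) * ι (y.2 2) + ι (x.2 2) * ι (y.2 0) =
        ι (Qf x) * ι (y.1 1) + ι (x.1 1) * ι (Qf y)
      simp only [← map_mul, ← map_add, hinj]
      linear_combination -a1

end Pool.Agent.SIT.Gen
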