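import Pool.Agent.SIT.HexTwoG

/-!
# The groups between `T.G_2(2)'` and `T.G_2(2)`: the final form
-/

namespace Pool.Agent.SIT.Gen

open Finset Hex G2

variable {F : Type*} [Field F] [DecidableEq F] (ι : F ≃+* ZMod 2)

/-- the image of a set of points -/
def im (γ : Finset (V6 F)) : Finset (Vec (2 * 3)) := γ.image (eV ι)

omit [DecidableEq F] in
lemma mem_im6 {γ : Finset (V6 F)} {x : V6 F} : toV ι x ∈ im ι γ ↔ x ∈ γ := by
  unfold im
  rw [Finset.mem_image]
  constructor
  · rintro ⟨y, hy, h⟩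
    have : y = x := (eV ι).injective h
    rwa [← this]
  · intro h
    exact ⟨x, h, rfl⟩

omit [DecidableEq F] in
lemma card_im6 (γ : Finset (V6 F)) : (im ι γ).card = γ.card :=
  Finset.card_image_of_injective _ (eV ι).injective

lemma im_mem_img {C : Set (Finset (V6 F))} {γ : Finset (V6 F)} (h : γ ∈ C) :
    im ι γ ∈ img (eV ι) C := by
  change (γ.image (eV ι)).image (eV ι).symm ∈ C
  rw [image_symm_image]
  exact h

lemma ind_im (γ : Finset (V6 F)) (x : V6 F) : ind (im ι γ) (toV ι x) = ind γ x := by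
  rw [ind, ind]
  simp only [mem_im6]

omit [DecidableEq F] in
lemma two_of (ι : F ≃+* ZMod 2) (c : F) : c = 0 ∨ c = 1 := by
  rcases zmod2_cases (ι c) with h | h
  · exact Or.inl ((map_eq_zero_iff ι ι.injective).1 h)
  · exact Or.inr (ι.injective (by rw [h, map_one]))

omit [DecidableEq F] in
lemma map_zero_iff (ι : F ≃+* ZMod 2) (c : F) : ι c = 0 ↔ c = 0 :=
  map_eq_zero_iff ι ι.injective

/-! ### the flats -/

omit [DecidableEq F] in
lemma of_hexCode [CharP F 2] {γ : Finset (V6 F)} (h : im ι γ ∈ HexCode) :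
    ∃ W : Submodule F (V6 F), LinePerp (W : Set (V6 F)) ∧ Translate (W : Set (V6 F)) γ := by
  obtain ⟨a, b, t, ha, hb, hab, hr, hz⟩ := h
  obtain ⟨u, rfl⟩ := surjV ι a
  obtain ⟨v, rfl⟩ := surjV ι b
  obtain ⟨w, rfl⟩ := surjV ι t
  rw [hexRel_toV] at hr
  have hu : u ≠ 0 := by
    rintro rfl
    exact ha (toV_zero ι)
  have hv : v ≠ 0 := by
    rintro rfl
    exact hb (toV_zero ι)
  refine ⟨LinearMap.ker (Bl F u) ⊓ LinearMap.ker (Bl F v),
    ⟨u, v, ?_, hr, fun x => Iff.rfl⟩, w, fun x => ?_⟩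
  · rw [LinearIndependent.pair_iff' hu]
    intro c hc
    rcases two_of ι c with rfl | rfl
    · rw [zero_smul] at hc
      exact hv hc.symm
    · rw [one_smul] at hc
      exact hab (by rw [hc])
  · rw [← mem_im6 ι, hz, ← toV_add, sf_toV, sf_toV, map_zero_iff, map_zero_iff]
    exact Iff.rfl

omit [DecidableEq F] in
lemma to_hexCode {W : Set (V6 F)} {γ : Finset (V6 F)} (hW : LinePerp W) (h : Translate W γ) :
    im ι γ ∈ HexCode := by
  obtain ⟨u, v, hl, hc, hW⟩ := hW
  obtain ⟨w, hw⟩ := h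
  have hu : u ≠ 0 := by
    have := hl.ne_zero 0
    simpa using this
  have hl' := (LinearIndependent.pair_iff' hu).1 hl
  have hinj : ∀ {x y : V6 F}, toV ι x = toV ι y → x = y := fun h => (eV ι).injective h
  refine ⟨toV ι u, toV ι v, toV ι w, ?_, ?_, ?_, (hexRel_toV ι _ _).2 hc, fun z => ?_⟩
  · intro h
    exact hu (hinj (by rw [h, toV_zero]))
  · intro h
    apply hl' 0
    rw [zero_smul]
    exact (hinj (by rw [h, toV_zero])).symm
  · intro h
    apply hl' 1
    rw [one_smul]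
    exact hinj h
  · obtain ⟨x, rfl⟩ := surjV ι z
    rw [mem_im6, hw, hW, ← toV_add, sf_toV, sf_toV, map_zero_iff, map_zero_iff]

omit [DecidableEq F] in
lemma of_flat5 {γ : Finset (V6 F)} (hne : γ.Nonempty) (h : im ι γ ∈ FlatCode (2 * 3) 5) :
    ∃ W : Submodule F (V6 F), Module.finrank F W = 5 ∧ Translate (W : Set (V6 F)) γ := by
  obtain ⟨A, hA, hd⟩ := h
  obtain ⟨u, hu⟩ := hne
  have hu' : toV ι u ∈ im ι γ := (mem_im6 ι).2 hu
  let W : Submodule F (V6 F) :=
    { carrier := {x | toV ι x ∈ A.direction}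
      zero_mem' := by
        change toV ι 0 ∈ A.direction
        rw [toV_zero]
        exact A.direction.zero_mem
      add_mem' := by
        intro x y hx hy
        change toV ι (x + y) ∈ A.direction
        rw [toV_add]
        exact A.direction.add_mem hx hy
      smul_mem' := by
        intro c x hx
        change toV ι (c • x) ∈ A.direction
        rw [toV_smul]
        exact A.direction.smul_mem _ hx }
  refine ⟨W, ?_, u, fun x => ?_⟩
  · have h1 : Nat.card W = Nat.card F ^ Module.finrank F W := Module.natCard_eq_pow_finrank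
    have h2 : Nat.card F = 2 := by
      rw [Nat.card_congr ι.toEquiv, Nat.card_eq_fintype_card, ZMod.card]
    have h3 : Nat.card W = Nat.card A.direction := by
      apply Nat.card_congr
      exact
        { toFun := fun x => ⟨toV ι x.1, x.2⟩
          invFun := fun y => ⟨fromV ι y.1, by
            change toV ι (fromV ι y.1) ∈ A.direction
            rw [toV_fromV]
            exact y.2⟩
          left_inv := fun x => Subtype.ext (fromV_toV ι x.1)
          right_inv := fun y => Subtype.ext (toV_fromV ι y.1) }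
    have h4 : Nat.card A.direction = Nat.card (ZMod 2) ^ Module.finrank (ZMod 2) A.direction :=
      Module.natCard_eq_pow_finrank
    rw [h3, h4, hd, h2, Nat.card_eq_fintype_card, ZMod.card] at h1
    exact (Nat.pow_right_injective (le_refl 2) h1).symm
  · rw [← mem_im6 ι, direction_mem_iff hA hu', ← toV_add]
    exact Iff.rfl

omit [DecidableEq F] in
lemma to_flat5 [CharP F 2] {W : Submodule F (V6 F)} (hW : Module.finrank F W = 5)
    {γ : Finset (V6 F)} (h : Translate (W : Set (V6 F)) γ) :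
    im ι γ ∈ FlatCode (2 * 3) 5 := by
  obtain ⟨w, hw⟩ := h
  have h2 : Nat.card F = 2 := by
    rw [Nat.card_congr ι.toEquiv, Nat.card_eq_fintype_card, ZMod.card]
  have h1 : Nat.card W = Nat.card F ^ Module.finrank F W := Module.natCard_eq_pow_finrank
  have h3 : Nat.card (γ : Finset (V6 F)) = Nat.card W := by
    apply Nat.card_congr
    exact
      { toFun := fun x => ⟨x.1 + w, (hw x.1).1 x.2⟩
        invFun := fun y => ⟨y.1 + w, (hw _).2 (by
          rw [add_assoc, add_self6, add_zero]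
          exact y.2)⟩
        left_inv := fun x => Subtype.ext (by
          change x.1 + w + w = x.1
          rw [add_assoc, add_self6, add_zero])
        right_inv := fun x => Subtype.ext (by
          change x.1 + w + w = x.1
          rw [add_assoc, add_self6, add_zero]) }
  rw [Nat.card_eq_fintype_card, Fintype.card_coe, h1, h2, hW] at h3
  obtain ⟨A, hA⟩ := flat_of_closed (im ι γ) (by
    intro p hp q hq r hr
    obtain ⟨x, rfl⟩ := surjV ι p
    obtain ⟨y, rfl⟩ := surjV ι q
    obtain ⟨z, rfl⟩ := surjV ι r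
    rw [mem_im6, hw] at hp hq hr
    rw [← toV_add, ← toV_add, mem_im6, hw]
    have h4 := W.add_mem (W.add_mem hp hq) hr
    have h5 : x + w + (y + w) + (z + w) = x + y + z + w + (w + w) := by abel
    rw [h5, add_self6, add_zero] at h4
    exact h4)
  refine ⟨A, hA, ?_⟩
  have h6 := card_flat hA (by
    rw [← Finset.card_pos, card_im6, h3]
    norm_num)
  rw [card_im6, h3] at h6
  exact (Nat.pow_right_injective (le_refl 2) h6).symm

/-! ### the quadrics -/

lemma of_design [Fintype F] [CharP F 2] (hF : Fintype.card F = 2)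
    {G : Subgroup (Equiv.Perm (V6 F))} {γ : Finset (V6 F)} (h : im ι γ ∈ SympDesign 3) :
    Quad F G γ (fun a b => ι (Bf a b)) := by
  have hpol : ∀ x a b, ind γ (x + a + b) + ind γ (x + a) + ind γ (x + b) + ind γ x =
      ι (Bf a b) := by
    intro x a b
    have h1 := h.2 (toV ι a) (toV ι b) (toV ι x)
    rw [sf_toV] at h1
    rw [← h1, ← ind_im ι γ (x + a + b), ← ind_im ι γ (x + a), ← ind_im ι γ (x + b), ← ind_im ι γ x,
      toV_add, toV_add, toV_add]
    rfl
  have hnd : ∀ r, (∀ y, ι (Bf r y) = 0) → r = 0 := by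
    intro r hr
    apply (sympBl (F := F)).nd
    intro y
    exact (map_zero_iff ι _).1 (hr y)
  refine ⟨hpol, fun c a b => ?_, fun r => ⟨fun h1 y => ?_, fun h1 x => ?_⟩, ?_, Or.inl hF⟩
  · rw [Bf_smul_left, Bf_smul_right]
  · rw [← hpol 0 r y]
    have e : ∀ z, ind γ (z + r) = ind γ z := by
      intro z
      rw [ind, ind]
      simp only [h1]
    have e2 : (0 : V6 F) + r + y = 0 + y + r := by abel
    rw [e2, e, e]
    linear_combination (ind γ (0 + y) + ind γ 0) * (by rfl : (2 : ZMod 2) = 0)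
  · rw [hnd r h1, add_zero]
  · by_contra hcon
    push Not at hcon
    have h1 := hnd e0 (hcon e0)
    have := congrArg (fun z : V6 F => z.1 0) h1
    simp [e0] at this

lemma quad_im {G : Subgroup (Equiv.Perm (V6 F))} [Fintype F] {γ : Finset (V6 F)}
    {β : V6 F → V6 F → ZMod 2} (hq : Quad F G γ β) :
    Quad (ZMod 2) (⊤ : Subgroup (Equiv.Perm (Vec (2 * 3)))) (im ι γ)
      (fun a b => β (fromV ι a) (fromV ι b)) := by
  refine ⟨fun x a b => ?_, fun c a b => ?_, fun r => ?_, ?_, Or.inl (ZMod.card 2)⟩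
  · obtain ⟨x, rfl⟩ := surjV ι x
    obtain ⟨a, rfl⟩ := surjV ι a
    obtain ⟨b, rfl⟩ := surjV ι b
    rw [← toV_add, ← toV_add, ← toV_add, ind_im, ind_im, ind_im, ind_im, fromV_toV, fromV_toV]
    exact hq.polar x a b
  · rcases zmod2_cases c with rfl | rfl
    · change β (fromV ι ((0 : ZMod 2) • a)) (fromV ι b) = β (fromV ι a) (fromV ι ((0 : ZMod 2) • b))
      rw [zero_smul, zero_smul, fromV_zero]
      have := hq.comp 0 (fromV ι a) (fromV ι b)
      rwa [zero_smul, zero_smul] at this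
    · change β (fromV ι ((1 : ZMod 2) • a)) (fromV ι b) = β (fromV ι a) (fromV ι ((1 : ZMod 2) • b))
      rw [one_smul, one_smul]
  · obtain ⟨r, rfl⟩ := surjV ι r
    rw [fromV_toV]
    constructor
    · intro h y
      apply (hq.period r).1
      intro x
      have := h (toV ι x)
      rwa [← toV_add, mem_im6, mem_im6] at this
    · intro h x
      obtain ⟨x, rfl⟩ := surjV ι x
      rw [← toV_add, mem_im6, mem_im6]
      refine (hq.period r).2 (fun y => ?_) x
      have := h (toV ι y)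
      rwa [fromV_toV] at this
  · obtain ⟨a, b, h⟩ := hq.ne
    exact ⟨toV ι a, toV ι b, by rwa [fromV_toV, fromV_toV]⟩

/-- a quadric is a coset of its radical, or has rank at least four -/
lemma quad_cases {G : Subgroup (Equiv.Perm (V6 F))} [Fintype F] {γ : Finset (V6 F)}
    {β : V6 F → V6 F → ZMod 2} (hq : Quad F G γ β) (hk : 3 ≤ γ.card) (hk' : 2 * γ.card ≤ 64) :
    (∃ w, ∀ x, x ∈ γ ↔ ∀ y, β (x + w) y = 0) ∨
      ∃ (m : ℕ) (h : 2 * m ≤ 2 * 3), 2 ≤ m ∧ im ι γ ∈ QuadricCode h ∧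
        64 = 2 ^ (2 * m) * Nat.card {r : V6 F // ∀ y, β r y = 0} := by
  have hcV : Fintype.card (Vec (2 * 3)) = 64 := by
    rw [card_vec]
    norm_num
  have hS := sitSet_of_good (n := 2 * 3) (by norm_num) (by rw [card_im6]; exact hk)
    (by rw [card_im6, hcV]; exact hk') (Or.inr ⟨_, quad_im ι hq⟩)
  have hne : (im ι γ).Nonempty := by
    rw [← Finset.card_pos, card_im6]
    omega
  have hne' : γ.Nonempty := by
    rw [← Finset.card_pos]
    omega
  rcases sit_set_classification hS hne (by rw [card_im6]; exact hk') with ⟨A, hA⟩ |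
    ⟨m, h, hm, hQ⟩
  · left
    obtain ⟨u, hu⟩ := hne'
    have hu' : toV ι u ∈ im ι γ := (mem_im6 ι).2 hu
    have hmem : ∀ x, x ∈ γ ↔ toV ι x + toV ι u ∈ A.direction := by
      intro x
      rw [← mem_im6 ι, direction_mem_iff hA hu']
    refine ⟨u, fun x => ?_⟩
    rw [← hq.period]
    constructor
    · intro hx z
      rw [hmem] at hx
      rw [hmem, hmem]
      have e : toV ι (z + (x + u)) + toV ι u = toV ι z + toV ι u + (toV ι x + toV ι u) := by
        rw [toV_add, toV_add]
        abel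
      rw [e]
      exact Submodule.add_mem_iff_left _ hx
    · intro h
      have h1 := (h u).2 hu
      rw [hmem] at h1 ⊢
      have e : toV ι (u + (x + u)) + toV ι u = toV ι x + toV ι u := by
        rw [toV_add, toV_add]
        have := add_self' (toV ι u)
        calc toV ι u + (toV ι x + toV ι u) + toV ι u
            = toV ι x + toV ι u + (toV ι u + toV ι u) := by abel
          _ = _ := by rw [this, add_zero]
      rwa [e] at h1
  · right
    refine ⟨m, h, hm, hQ, ?_⟩
    have hd := (qdata_vec h hm hQ).card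
    rw [Nat.card_eq_fintype_card, hcV] at hd
    rw [hd]
    congr 1
    apply Nat.card_congr
    have hper : ∀ r : V6 F, toV ι r ∈ perS (ind (im ι γ)) ↔ ∀ y, β r y = 0 := by
      intro r
      rw [mem_perS, ← hq.period, ← ind_period_iff]
      constructor
      · intro h1 x
        have := h1 (toV ι x)
        rwa [← toV_add, ind_im, ind_im] at this
      · intro h1 x
        obtain ⟨x, rfl⟩ := surjV ι x
        rw [← toV_add, ind_im, ind_im]
        exact h1 x
    exact
      { toFun := fun x => ⟨fromV ι x.1, (hper _).1 (by rw [toV_fromV]; exact x.2)⟩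
        invFun := fun y => ⟨toV ι y.1, (hper _).2 y.2⟩
        left_inv := fun x => Subtype.ext (toV_fromV ι x.1)
        right_inv := fun y => Subtype.ext (fromV_toV ι y.1) }

/-- radical a hexagon flat -/
lemma hexCode_of_quad [Fintype F] {G : Subgroup (Equiv.Perm (V6 F))} {γ : Finset (V6 F)}
    {β : V6 F → V6 F → ZMod 2} (hq : Quad F G γ β) (hk : 3 ≤ γ.card) (hk' : 2 * γ.card ≤ 64)
    (hL : LinePerp {r : V6 F | ∀ y, β r y = 0}) : im ι γ ∈ HexCode := by
  classical
  rcases quad_cases ι hq hk hk' with ⟨w, hw⟩ | ⟨m, h, hm, -, hc⟩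
  · exact to_hexCode ι hL ⟨w, hw⟩
  · exfalso
    set γ0 : Finset (V6 F) := univ.filter (fun r => ∀ y, β r y = 0) with hγ0
    have h1 : im ι γ0 ∈ HexCode := by
      refine to_hexCode ι hL ⟨0, fun x => ?_⟩
      rw [hγ0, Finset.mem_filter, add_zero]
      exact ⟨fun h => h.2, fun h => ⟨Finset.mem_univ _, h⟩⟩
    have h2 := (hexCode_SIT (le_refl _) AG2'_le).card_eq _ h1
    rw [card_im6] at h2
    have h3 : Nat.card {r : V6 F // ∀ y, β r y = 0} = 16 := by
      rw [← h2, Nat.card_eq_fintype_card, Fintype.card_subtype]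
    rw [h3] at hc
    have h4 : 2 ^ (2 * 2) ≤ 2 ^ (2 * m) := Nat.pow_le_pow_right (by norm_num) (by omega)
    norm_num at h4
    omega

omit [DecidableEq F] in
/-- a nonzero form that vanishes where `Bf` does is `Bf` -/
lemma beta_eq [CharP F 2] {f : V6 F → ZMod 2} {β : V6 F → V6 F → ZMod 2}
    (hpol : ∀ x a b, f (x + a + b) + f (x + a) + f (x + b) + f x = β a b)
    (hne : ∃ a b, β a b ≠ 0) (h0 : ∀ a b, Bf a b = 0 → β a b = 0) (a b : V6 F) :
    β a b = ι (Bf a b) := by
  have hsym := polar_hsym hpol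
  have hadd := polar_hadd' hpol
  have h1 : ∀ c : F, c ≠ 0 → c = 1 := fun c hc => (two_of ι c).resolve_left hc
  have h11 : (1 : F) + 1 = 0 := CharTwo.add_self_eq_zero 1
  -- constant in the first variable
  have hc1 : ∀ a a' b, Bf a b = 1 → Bf a' b = 1 → β a b = β a' b := by
    intro a a' b e1 e2
    have h2 : β (a + a') b = 0 := h0 _ _ (by rw [Bf_add_left, e1, e2, h11])
    have h3 : β (a + a') b = β a b + β a' b := hadd a a' b
    rw [h3] at h2
    clear h3
    generalize β a b = p at h2 ⊢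
    generalize β a' b = q at h2 ⊢
    revert p q
    decide
  have hc2 : ∀ a b b', Bf a b = 1 → Bf a b' = 1 → β a b = β a b' := by
    intro a b b' e1 e2
    rw [hsym a b, hsym a b']
    exact hc1 b b' a (by rw [Bf_comm, e1]) (by rw [Bf_comm, e2])
  have hex : ∀ b : V6 F, b ≠ 0 → ∃ c, Bf c b = 1 := by
    intro b hb
    by_contra hcon
    push Not at hcon
    apply hb
    apply (sympBl (F := F)).nd
    intro y
    change Bf b y = 0
    by_contra h2
    exact hcon y (by rw [Bf_comm]; exact h1 _ h2)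
  have hex2 : ∀ b b' : V6 F, b ≠ 0 → b' ≠ 0 → ∃ c, Bf c b = 1 ∧ Bf c b' = 1 := by
    intro b b' hb hb'
    obtain ⟨c, hc⟩ := hex b hb
    obtain ⟨c', hc'⟩ := hex b' hb'
    by_cases e : Bf c b' = 0
    · by_cases e' : Bf c' b = 0
      · exact ⟨c + c', by rw [Bf_add_left, hc, e', add_zero], by rw [Bf_add_left, e, hc', zero_add]⟩
      · exact ⟨c', h1 _ e', hc'⟩
    · exact ⟨c, hc, h1 _ e⟩
  obtain ⟨a₀, b₀, hab⟩ := hne
  have hB0 : Bf a₀ b₀ = 1 := h1 _ fun h => hab (h0 _ _ h)
  have hβ0 : β a₀ b₀ = 1 := (zmod2_cases _).resolve_left hab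
  by_cases hB : Bf a b = 0
  · rw [h0 _ _ hB, hB, map_zero]
  · have hB1 := h1 _ hB
    have hb : b ≠ 0 := by
      rintro rfl
      apply hB
      simp [Bf, dot]
    have hb₀ : b₀ ≠ 0 := by
      rintro rfl
      rw [show Bf a₀ (0 : V6 F) = 0 by simp [Bf, dot]] at hB0
      exact zero_ne_one hB0
    obtain ⟨c, hc, hc'⟩ := hex2 b b₀ hb hb₀
    rw [hB1, map_one, hc1 a c b hB1 hc, hc2 c b b₀ hc hc', hc1 c a₀ b₀ hc' hB0, hβ0]

/-- nondegenerate quadrics -/
lemma design_of_quad [Fintype F] [CharP F 2] {G : Subgroup (Equiv.Perm (V6 F))}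
    {γ : Finset (V6 F)} {β : V6 F → V6 F → ZMod 2} (hq : Quad F G γ β) (hk : 3 ≤ γ.card)
    (hk' : 2 * γ.card ≤ 64) (h0 : ∀ a b, Bf a b = 0 → β a b = 0) : im ι γ ∈ SympDesign 3 := by
  have hβ := beta_eq ι hq.polar hq.ne h0
  have hnd : ∀ r, (∀ y, β r y = 0) → r = 0 := by
    intro r hr
    apply (sympBl (F := F)).nd
    intro y
    have := hr y
    rw [hβ] at this
    exact (map_zero_iff ι _).1 this
  rcases quad_cases ι hq hk hk' with ⟨w, hw⟩ | ⟨m, h, hm, hQ, hc⟩
  · exfalso
    have h1 : γ ⊆ {w} := by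
      intro x hx
      have h2 := hnd _ ((hw x).1 hx)
      rw [Finset.mem_singleton]
      have h3 : x + w + w = w := by rw [h2, zero_add]
      rwa [add_assoc, add_self6, add_zero] at h3
    have h2 := Finset.card_le_card h1
    rw [Finset.card_singleton] at h2
    omega
  · have h1 : Nat.card {r : V6 F // ∀ y, β r y = 0} = 1 := by
      rw [Nat.card_eq_one_iff_unique]
      refine ⟨⟨fun x y => Subtype.ext (by rw [hnd _ x.2, hnd _ y.2])⟩, ⟨⟨0, fun y => ?_⟩⟩⟩
      rw [hβ]
      simp [Bf, dot]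
    rw [h1, mul_one] at hc
    have h2 : (2 : ℕ) ^ 6 = 2 ^ (2 * m) := by rw [← hc]; norm_num
    have h3 : 6 = 2 * m := Nat.pow_right_injective (le_refl 2) h2
    have h4 : m = 3 := by omega
    subst h4
    refine ⟨hQ, fun a b x => ?_⟩
    obtain ⟨x, rfl⟩ := surjV ι x
    obtain ⟨a, rfl⟩ := surjV ι a
    obtain ⟨b, rfl⟩ := surjV ι b
    rw [sf_toV, ← hβ, ← hq.polar x a b, ← ind_im ι γ (x + a + b), ← ind_im ι γ (x + a),
      ← ind_im ι γ (x + b), ← ind_im ι γ x, toV_add, toV_add, toV_add]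
    rfl

/-- **The groups `G` with `T.G_2(2)' ≤ G ≤ T.G_2(2)`.** -/
theorem hex_class_two {F : Type*} [Field F] [Fintype F] [DecidableEq F] [CharP F 2]
    {G : Subgroup (Equiv.Perm (Hex.V6 F))} (hF : Fintype.card F = 2) (hG : HexG' F G) :
    IsTwoTransitive G ∧ ∀ (k : ℕ) (C : Set (Finset (Hex.V6 F))), 3 ≤ k →
    2 * k ≤ Fintype.card (Hex.V6 F) →
    ((IsSITCode G k C ∧ C.Nonempty) ↔ ∃ γ : Finset (Hex.V6 F), γ.card = k ∧ C = Orb G γ ∧
      ((∃ W : Submodule F (Hex.V6 F),
          ((Module.finrank F W = 5 ∧ ∀ a : Hex.V6 F ≃ₗ[F] Hex.V6 F, HexIso a → a.toEquiv ∈ G) ∨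
            LinePerp (W : Set (Hex.V6 F))) ∧ Translate (W : Set (Hex.V6 F)) γ) ∨
        Exc F G γ ∨
        ∃ β, Quad F G γ β ∧ (LinePerp {r : Hex.V6 F | ∀ y, β r y = 0} ∨
          ∀ a b, Hex.Bf a b = 0 → β a b = 0))) := by
  let ι : F ≃+* ZMod 2 := (ZMod.ringEquivOfPrime F Nat.prime_two hF).symm
  have hF2 : ∀ c : F, c = 0 ∨ c = 1 := two_of ι
  have hconj : conj (eV ι) G = permOf (GV ι G) := conj_eq ι (fun h hh => by
    obtain ⟨g, t, -, h2⟩ := hG.data hF2 hh
    exact ⟨g.toAddEquiv, t, h2⟩)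
  have hle1 := le_GV ι hG hF2
  have hle2 := GV_le ι hG hF2
  have h2t' : SIT.IsTwoTransitive (GV ι G) := G2.twoTransitive_of_le hle1
  have hinj : ∀ {x y : V6 F}, toV ι x = toV ι y → x = y := fun h => (eV ι).injective h
  refine ⟨?_, fun k C hk hk' => ?_⟩
  · intro x y x' y' hxy hxy'
    obtain ⟨g, ⟨h, hh, h1⟩, h2, h3⟩ := h2t' (toV ι x) (toV ι y) (toV ι x') (toV ι y')
      (fun h => hxy (hinj h)) (fun h => hxy' (hinj h))
    exact ⟨h, hh, hinj (by rw [h1, h2]), hinj (by rw [h1, h3])⟩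
  · have h64 : Fintype.card (V6 F) = 64 := by
      rw [Fintype.card_congr (eV ι), card_vec]
      norm_num
    rw [h64] at hk'
    refine iff_of (fun γ => (∃ W : Submodule F (Hex.V6 F),
          ((Module.finrank F W = 5 ∧ ∀ a : Hex.V6 F ≃ₗ[F] Hex.V6 F, HexIso a → a.toEquiv ∈ G) ∨
            LinePerp (W : Set (Hex.V6 F))) ∧ Translate (W : Set (Hex.V6 F)) γ) ∨
        Exc F G γ ∨
        ∃ β, Quad F G γ β ∧ (LinePerp {r : Hex.V6 F | ∀ y, β r y = 0} ∨
          ∀ a b, Hex.Bf a b = 0 → β a b = 0)) hk (by rw [h64]; exact hk') ?_ ?_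
    · intro γ hC hγ
      have hcard := hC.card_eq γ hγ
      have hne : γ.Nonempty := by
        rw [← Finset.card_pos]
        omega
      have hC' : SIT.IsSITCode (GV ι G) k (img (eV ι) C) := by
        have := hC.transfer (eV ι)
        rw [hconj] at this
        exact isSIT_permOf.1 this
      have hγ' := im_mem_img ι hγ
      have hnt : (img (eV ι) C).Nontrivial :=
        nontrivial_of_two h2t' hC' (by omega) (by norm_num; omega) ⟨_, hγ'⟩
      rcases (g2_iff hle1 hle2 hk (by norm_num; omega) hnt).1 hC' with ⟨-, h⟩ | ⟨-, h⟩ |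
        ⟨-, h, h5⟩
      · rw [h] at hγ'
        obtain ⟨W, h1, h2⟩ := of_hexCode ι hγ'
        exact Or.inl ⟨W, Or.inr h1, h2⟩
      · rw [h] at hγ'
        refine Or.inr (Or.inr ⟨_, of_design ι hF hγ', Or.inr fun a b hab => ?_⟩)
        rw [hab, map_zero]
      · rw [h] at hγ'
        obtain ⟨W, h1, h2⟩ := of_flat5 ι hne hγ'
        exact Or.inl ⟨W, Or.inl ⟨h1, fun a ha => all_of_flat5 ι hG hF2 h5 ha⟩, h2⟩
    · intro γ hcard hgood
      obtain ⟨k', D, hD, hγD⟩ : ∃ (k' : ℕ) (D : Set (Finset (Vec (2 * 3)))),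
          SIT.IsSITCode (GV ι G) k' D ∧ im ι γ ∈ D := by
        rcases hgood with ⟨W, ⟨h1, hall⟩ | h1, h2⟩ | (⟨h1, -⟩ | ⟨h1, -⟩) | ⟨β, hq, h1 | h1⟩
        · have heq : GV ι G = AG2 := le_antisymm hle2 (ag2_le ι hG hall)
          refine ⟨32, _, ?_, to_flat5 ι h1 h2⟩
          rw [heq]
          exact flat5_SIT
        · exact ⟨_, _, hexCode_SIT hle1 hle2, to_hexCode ι h1 h2⟩
        · omega
        · omega
        · exact ⟨_, _, hexCode_SIT hle1 hle2, hexCode_of_quad ι hq (by omega) (by omega) h1⟩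
        · exact ⟨_, _, design_SIT hle1 hle2, design_of_quad ι hq (by omega) (by omega) h1⟩
      intro u hu u' hu' w hw w' hw'
      obtain ⟨a, ha, h1, h2, h3⟩ := (isSIT_permOf.2 hD).stab hγD (toV ι u) ((mem_im6 ι).2 hu)
        (toV ι u') (fun h => hu' ((mem_im6 ι).1 h)) (toV ι w) ((mem_im6 ι).2 hw)
        (toV ι w') (fun h => hw' ((mem_im6 ι).1 h))
      rw [← hconj, mem_conj] at ha
      obtain ⟨g, hg, hag⟩ := ha
      have hag' : ∀ x, a (toV ι x) = toV ι (g x) := hag
      refine ⟨g, hg, ?_, hinj (by rw [← hag', h2]), hinj (by rw [← hag', h3])⟩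
      rw [act_eq_iff] at h1 ⊢
      intro x
      rw [← mem_im6 ι, ← hag', h1, mem_im6]

end Pool.Agent.SIT.Gen
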