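import Pool.Agent.SIT.HexTr

/-!
# `|F| = 2`: the transport of the group
-/

namespace Pool.Agent.SIT.Gen

open Finset Hex G2

variable {F : Type*} [Field F] (ι : F ≃+* ZMod 2)

/-- the group on `F_2^6` -/
def GV (G : Subgroup (Equiv.Perm (V6 F))) : Subgroup (AGL (2 * 3)) where
  carrier := {g | ∃ h ∈ G, ∀ x, toV ι (h x) = g (toV ι x)}
  one_mem' := ⟨1, G.one_mem, fun _ => rfl⟩
  mul_mem' := by
    rintro g g' ⟨h, hh, h1⟩ ⟨h', hh', h1'⟩
    refine ⟨h * h', G.mul_mem hh hh', fun x => ?_⟩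
    change toV ι (h (h' x)) = g (g' (toV ι x))
    rw [h1, h1']
  inv_mem' := by
    rintro g ⟨h, hh, h1⟩
    refine ⟨h⁻¹, G.inv_mem hh, fun x => ?_⟩
    change toV ι (h.symm x) = g.symm (toV ι x)
    apply g.injective
    rw [g.apply_symm_apply, ← h1, h.apply_symm_apply]

lemma mem_GV {G : Subgroup (Equiv.Perm (V6 F))} {g : AGL (2 * 3)} :
    g ∈ GV ι G ↔ ∃ h ∈ G, ∀ x, toV ι (h x) = g (toV ι x) := Iff.rfl

lemma fromV_add (x y : Vec (2 * 3)) : fromV ι (x + y) = fromV ι x + fromV ι y := by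
  apply (eV ι).injective
  change toV ι (fromV ι (x + y)) = toV ι (fromV ι x + fromV ι y)
  rw [toV_add, toV_fromV, toV_fromV, toV_fromV]

lemma fromV_zero : fromV ι 0 = 0 := by
  apply (eV ι).injective
  change toV ι (fromV ι 0) = toV ι 0
  rw [toV_fromV, toV_zero]

/-- the linear part -/
def linV (g : V6 F ≃+ V6 F) : Vec (2 * 3) ≃ₗ[ZMod 2] Vec (2 * 3) :=
  { toFun := fun y => toV ι (g (fromV ι y))
    invFun := fun y => toV ι (g.symm (fromV ι y))
    left_inv := fun y => by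
      change toV ι (g.symm (fromV ι (toV ι (g (fromV ι y))))) = y
      rw [fromV_toV, g.symm_apply_apply, toV_fromV]
    right_inv := fun y => by
      change toV ι (g (fromV ι (toV ι (g.symm (fromV ι y))))) = y
      rw [fromV_toV, g.apply_symm_apply, toV_fromV]
    map_add' := fun x y => by rw [fromV_add, map_add, toV_add]
    map_smul' := fun c x => by
      rcases zmod2_cases c with rfl | rfl
      · rw [zero_smul, fromV_zero, map_zero, toV_zero]
        exact (zero_smul _ _).symm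
      · rw [one_smul]
        exact (one_smul _ _).symm }

/-- the affine map -/
def affV (g : V6 F ≃+ V6 F) (t : V6 F) : AGL (2 * 3) :=
  (linV ι g).toAffineEquiv.trans (tr (toV ι t))

lemma affV_apply (g : V6 F ≃+ V6 F) (t x : V6 F) :
    affV ι g t (toV ι x) = toV ι (g x + t) := by
  change toV ι t + toV ι (g (fromV ι (toV ι x))) = _
  rw [fromV_toV, toV_add, add_comm]

lemma surjV (y : Vec (2 * 3)) : ∃ x, toV ι x = y := ⟨fromV ι y, toV_fromV ι y⟩

lemma conj_eq [DecidableEq F] {G : Subgroup (Equiv.Perm (V6 F))}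
    (hG : ∀ h ∈ G, ∃ (g : V6 F ≃+ V6 F) (t : V6 F), ∀ x, h x = g x + t) :
    conj (eV ι) G = permOf (GV ι G) := by
  ext a
  rw [mem_conj]
  constructor
  · rintro ⟨h, hh, h1⟩
    obtain ⟨g, t, hgt⟩ := hG h hh
    refine ⟨affV ι g t, ⟨h, hh, fun x => ?_⟩, fun y => ?_⟩
    · rw [affV_apply, hgt]
    · obtain ⟨x, rfl⟩ := surjV ι y
      rw [affV_apply, ← hgt]
      exact h1 x
  · rintro ⟨g, ⟨h, hh, h1⟩, h2⟩
    refine ⟨h, hh, fun x => ?_⟩
    change a (toV ι x) = toV ι (h x)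
    rw [h2, h1]

variable {G : Subgroup (Equiv.Perm (V6 F))}

/-- the semilinear data over the field of order two -/
lemma HexG'.data (hG : HexG' F G) (hF2 : ∀ c : F, c = 0 ∨ c = 1) {h : Equiv.Perm (V6 F)}
    (hh : h ∈ G) : ∃ (g : V6 F ≃ₗ[F] V6 F) (t : V6 F), HexIso g ∧ ∀ x, h x = g x + t := by
  obtain ⟨g, t, σ, c, h1, hc, h2, h3, h4⟩ := hG.semi h hh
  have hσ : ∀ z, σ z = z := by
    intro z
    rcases hF2 z with rfl | rfl
    · exact map_zero σ
    · exact map_one σ
  have hc1 : c = 1 := (hF2 c).resolve_left hc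
  refine ⟨linOf g (fun c x => by rw [h1, hσ]), t, ⟨fun x y => ?_, fun x y => ?_⟩, fun x => h4 x⟩
  · change Bf (g x) (g y) = _
    rw [h2, hc1, one_mul, hσ]
  · exact h3 x y

lemma linear_toV {h : Equiv.Perm (V6 F)} {g : AGL (2 * 3)}
    (h1 : ∀ x, toV ι (h x) = g (toV ι x)) {b : V6 F ≃ₗ[F] V6 F} {t : V6 F}
    (h2 : ∀ x, h x = b x + t) (x : V6 F) : g.linear (toV ι x) = toV ι (b x) := by
  have e0 : g 0 = toV ι t := by
    have := h1 0
    rw [toV_zero, h2, map_zero, zero_add] at this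
    exact this.symm
  rw [agl_linear', ← h1, h2, e0, toV_add, add_add_self]

lemma GV_le (hG : HexG' F G) (hF2 : ∀ c : F, c = 0 ∨ c = 1) : GV ι G ≤ AG2 := by
  rintro g ⟨h, hh, h1⟩
  obtain ⟨b, t, hb, h2⟩ := hG.data hF2 hh
  have hl := linear_toV ι h1 h2
  rw [mem_AG2]
  constructor
  · intro x y
    obtain ⟨x, rfl⟩ := surjV ι x
    obtain ⟨y, rfl⟩ := surjV ι y
    rw [sfB_apply, sfB_apply, hl, hl, sf_toV, sf_toV, hb.1]
  · intro x y
    obtain ⟨x, rfl⟩ := surjV ι x
    obtain ⟨y, rfl⟩ := surjV ι y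
    rw [hl, hl, hexRel_toV, hexRel_toV, hb.2]

lemma le_GV [CharP F 2] (hG : HexG' F G) (hF2 : ∀ c : F, c = 0 ∨ c = 1) : AG2' ≤ GV ι G := by
  rw [AG2', Subgroup.closure_le]
  rintro g (⟨t, ht⟩ | ⟨a, b, hab, hg⟩)
  · refine ⟨Equiv.addRight (fromV ι t), hG.trans _, fun x => ?_⟩
    change toV ι (x + fromV ι t) = _
    rw [ht, toV_add, toV_fromV]
  · obtain ⟨a, rfl⟩ := surjV ι a
    obtain ⟨b, rfl⟩ := surjV ι b
    rw [hexRel_toV] at hab
    obtain ⟨h, hh, h1⟩ := inG_col hG hF2 hab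
    refine ⟨h, hh, fun x => ?_⟩
    rw [h1, hg, sf_toV, sf_toV, toV_add, toV_add, toV_smul, toV_smul]

/-- `DG` and `AG2'` -/
lemma D_to {h : Equiv.Perm (V6 F)} (hh : h ∈ DG F) :
    ∃ g ∈ AG2', ∀ x, toV ι (h x) = g (toV ι x) := by
  induction hh using Subgroup.closure_induction with
  | mem h hh =>
    rcases hh with ⟨t, ht⟩ | ⟨a, b, hab, hg⟩
    · refine ⟨tr (toV ι t), tr_mem _, fun x => ?_⟩
      rw [ht, toV_add, tr_apply, add_comm]
    · rw [← hexRel_toV ι] at hab
      refine ⟨eA (toV ι a) (toV ι b) hab.1, eA_mem hab, fun x => ?_⟩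
      rw [hg, eA_apply, toV_add, toV_add, toV_smul, toV_smul, sf_toV, sf_toV]
  | one => exact ⟨1, AG2'.one_mem, fun _ => rfl⟩
  | mul h h' _ _ ih ih' =>
    obtain ⟨g, hg, h1⟩ := ih
    obtain ⟨g', hg', h1'⟩ := ih'
    refine ⟨g * g', AG2'.mul_mem hg hg', fun x => ?_⟩
    change toV ι (h (h' x)) = g (g' (toV ι x))
    rw [h1, h1']
  | inv h _ ih =>
    obtain ⟨g, hg, h1⟩ := ih
    refine ⟨g⁻¹, AG2'.inv_mem hg, fun x => ?_⟩
    change toV ι (h.symm x) = g.symm (toV ι x)
    apply g.injective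
    rw [g.apply_symm_apply, ← h1, h.apply_symm_apply]

lemma D_le [CharP F 2] (hG : HexG' F G) (hF2 : ∀ c : F, c = 0 ∨ c = 1) : DG F ≤ G := by
  rw [DG, Subgroup.closure_le]
  rintro g (⟨t, ht⟩ | ⟨a, b, hab, hg⟩)
  · have e : g = Equiv.addRight t := Equiv.ext ht
    rw [e]
    exact hG.trans t
  · obtain ⟨h, hh, h1⟩ := inG_col hG hF2 hab
    have e : g = h := Equiv.ext fun x => by rw [hg, h1]
    rw [e]
    exact hh

omit ι in
lemma inG_iff {b : V6 F ≃ₗ[F] V6 F} : InG G b ↔ b.toEquiv ∈ G := by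
  constructor
  · rintro ⟨g, hg, h1⟩
    have e : g = b.toEquiv := Equiv.ext h1
    rwa [← e]
  · intro h
    exact ⟨_, h, fun _ => rfl⟩

/-- If the hyperplanes are a code, all of `G_2(2)` is in the group. -/
theorem all_of_flat5 [CharP F 2] (hG : HexG' F G) (hF2 : ∀ c : F, c = 0 ∨ c = 1)
    (hC : SIT.IsSITCode (GV ι G) 32 (FlatCode (2 * 3) 5)) {b : V6 F ≃ₗ[F] V6 F} (hb : HexIso b) :
    b.toEquiv ∈ G := by
  by_contra hcon
  have hDG := D_le hG hF2
  have hs0 : ¬ InG G (s0 (F := F)) := by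
    intro h0
    exact hcon (inG_iff.1 (hex_of_s0 hF2 hG h0 hb))
  have hle : GV ι G ≤ AG2' := by
    rintro g ⟨h, hh, h1⟩
    obtain ⟨a, t, ha, h2⟩ := hG.data hF2 hh
    have haG : InG G a := by
      refine ⟨Equiv.addRight t * h, G.mul_mem (hG.trans t) hh, fun x => ?_⟩
      change h x + t = a x
      rw [h2, add_assoc, add_self6, add_zero]
    have haD : InG (DG F) a := by
      rcases iso_or hF2 ha with h3 | ⟨k, hk, h3⟩
      · exact h3
      · exfalso
        apply hs0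
        have h4 : InG G (fun x => s0 (a x)) := ⟨k, hDG hk, h3⟩
        obtain ⟨a', ha', h5⟩ := haG
        refine ⟨k * a'⁻¹, G.mul_mem (hDG hk) (G.inv_mem ha'), fun x => ?_⟩
        change k (a'.symm x) = _
        rw [h3]
        change s0 (a (a'.symm x)) = s0 x
        rw [← h5, a'.apply_symm_apply]
    obtain ⟨k, hk, h6⟩ := inG_mul (inD_tr t) haD
    obtain ⟨g', hg', h7⟩ := D_to ι hk
    have e : g = g' := by
      ext1 y
      obtain ⟨x, rfl⟩ := surjV ι y
      rw [← h1, ← h7, h6, h2]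
    rw [e]
    exact hg'
  have heq : GV ι G = AG2' := le_antisymm hle (le_GV ι hG hF2)
  rw [heq] at hC
  exact not_flat5_SIT hC

/-- If all of `G_2(2)` is in the group, it is the whole group. -/
theorem ag2_le (hG : HexG' F G)
    (hall : ∀ b : V6 F ≃ₗ[F] V6 F, HexIso b → b.toEquiv ∈ G) : AG2 ≤ GV ι G := by
  intro g hg
  obtain ⟨h1, h2⟩ := mem_AG2.1 hg
  have hF : ∀ c : F, c = 0 ∨ c = 1 := by
    intro c
    rcases zmod2_cases (ι c) with h | h
    · exact Or.inl ((map_eq_zero_iff ι ι.injective).1 h)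
    · exact Or.inr (ι.injective (by rw [h, map_one]))
  let b : V6 F ≃ₗ[F] V6 F :=
    { toFun := fun x => fromV ι (g.linear (toV ι x))
      invFun := fun x => fromV ι (g.linear.symm (toV ι x))
      left_inv := fun x => by
        change fromV ι (g.linear.symm (toV ι (fromV ι (g.linear (toV ι x))))) = x
        rw [toV_fromV, g.linear.symm_apply_apply, fromV_toV]
      right_inv := fun x => by
        change fromV ι (g.linear (toV ι (fromV ι (g.linear.symm (toV ι x))))) = x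
        rw [toV_fromV, g.linear.apply_symm_apply, fromV_toV]
      map_add' := fun x y => by rw [toV_add, map_add, fromV_add]
      map_smul' := fun c x => by
        rcases hF c with rfl | rfl
        · rw [zero_smul, toV_zero, map_zero, fromV_zero]
          exact (zero_smul _ _).symm
        · rw [one_smul]
          exact (one_smul _ _).symm }
  have hbx : ∀ x, toV ι (b x) = g.linear (toV ι x) := fun x => toV_fromV ι _
  have hb : HexIso b := by
    constructor
    · intro x y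
      apply ι.injective
      rw [← sf_toV, ← sf_toV, hbx, hbx]
      have := h1 (toV ι x) (toV ι y)
      rwa [sfB_apply, sfB_apply] at this
    · intro x y
      rw [← hexRel_toV ι, ← hexRel_toV ι, hbx, hbx]
      exact h2 _ _
  refine ⟨Equiv.addRight (fromV ι (g 0)) * b.toEquiv, G.mul_mem (hG.trans _) (hall b hb),
    fun x => ?_⟩
  change toV ι (b x + fromV ι (g 0)) = _
  rw [toV_add, hbx, toV_fromV, ← agl_linear]

end Pool.Agent.SIT.Gen
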