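import Mathlib

/-!
# Subgroups of an `F`-space meeting all lines outside in the same number of points
-/

namespace Pool.Agent.SIT.Lin

open Finset

lemma arith_B {a D s m : ℕ} (hs : 1 ≤ s) (hsa : s < a)
    (h : ((2 : ℤ) ^ a - 1) * (2 ^ D - 1) = (2 ^ (a * m) - 1) * (2 ^ s - 1)) : m ≤ 1 := by
  by_contra hm
  push Not at hm
  have h1 : (2 : ℤ) ^ (a * m) = 2 ^ a * 2 ^ (a * (m - 1)) := by
    rw [← pow_add]
    congr 1
    obtain ⟨c, rfl⟩ : ∃ c, m = c + 1 := ⟨m - 1, by omega⟩
    rw [Nat.add_sub_cancel]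
    ring
  have h2 : (2 : ℤ) ^ a ∣ 2 ^ D - 2 ^ s := by
    refine ⟨(2 ^ D - 1) - 2 ^ (a * (m - 1)) * (2 ^ s - 1), ?_⟩
    rw [h1] at h
    linear_combination -h
  have hD : D < a := by
    by_contra hcon
    push Not at hcon
    have h3 : (2 : ℤ) ^ a ∣ 2 ^ s := by
      have h4 : (2 : ℤ) ^ a ∣ 2 ^ D := pow_dvd_pow 2 hcon
      have := dvd_sub h4 h2
      rwa [sub_sub_cancel] at this
    have h5 := Int.le_of_dvd (by positivity) h3
    have h6 : (2 : ℤ) ^ s < 2 ^ a := pow_lt_pow_right₀ (by norm_num) hsa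
    omega
  have hDs : (2 : ℤ) ^ D = 2 ^ s := by
    have h3 : (2 : ℤ) ^ D < 2 ^ a := pow_lt_pow_right₀ (by norm_num) hD
    have h4 : (2 : ℤ) ^ s < 2 ^ a := pow_lt_pow_right₀ (by norm_num) hsa
    have h5 : (0 : ℤ) < 2 ^ D := by positivity
    have h6 : (0 : ℤ) < 2 ^ s := by positivity
    have h7 := Int.eq_zero_of_abs_lt_dvd h2 (by rw [abs_lt]; constructor <;> omega)
    omega
  rw [hDs] at h
  have h3 : (2 : ℤ) ≤ 2 ^ s := by
    calc (2 : ℤ) = 2 ^ 1 := by norm_num
      _ ≤ 2 ^ s := pow_le_pow_right₀ (by norm_num) hs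
  have h4 : (2 : ℤ) ^ a - 1 = 2 ^ (a * m) - 1 :=
    mul_right_cancel₀ (by omega) h
  have h5 : (2 : ℤ) ^ a < 2 ^ (a * m) := by
    apply pow_lt_pow_right₀ (by norm_num)
    nlinarith
  omega

variable {F : Type*} [Field F] [Fintype F] [CharP F 2] {V : Type*} [AddCommGroup V] [Module F V]
  [Finite V]

/-- The largest `F`-subspace in the subgroup `W`. -/
def core (F : Type*) [Field F] {V : Type*} [AddCommGroup V] [Module F V] (W : AddSubgroup V) :
    Submodule F V where
  carrier := {w | ∀ c : F, c • w ∈ W}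
  zero_mem' := fun c => by rw [smul_zero]; exact W.zero_mem
  add_mem' := fun ha hb c => by rw [smul_add]; exact W.add_mem (ha c) (hb c)
  smul_mem' := fun d a ha c => by rw [smul_smul]; exact ha _

omit [Fintype F] [CharP F 2] [Finite V] in
lemma mem_core {W : AddSubgroup V} {w : V} : w ∈ core F W ↔ ∀ c : F, c • w ∈ W := Iff.rfl

omit [Fintype F] [CharP F 2] [Finite V] in
lemma core_le {W : AddSubgroup V} {w : V} (h : w ∈ core F W) : w ∈ W := by
  have := h 1
  rwa [one_smul] at this

/-- The scalars mapping `x` into `W`. -/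
def scal (F : Type*) [Field F] {V : Type*} [AddCommGroup V] [Module F V] (W : AddSubgroup V)
    (x : V) : AddSubgroup F where
  carrier := {c | c • x ∈ W}
  zero_mem' := by
    change (0 : F) • x ∈ W
    rw [zero_smul]; exact W.zero_mem
  add_mem' := fun {a b} ha hb => by
    change (a + b) • x ∈ W
    rw [add_smul]; exact W.add_mem ha hb
  neg_mem' := fun {a} ha => by
    change (-a) • x ∈ W
    rw [neg_smul]; exact W.neg_mem ha

omit [Fintype F] [CharP F 2] [Finite V] in
lemma mem_scal {W : AddSubgroup V} {x : V} {c : F} : c ∈ scal F W x ↔ c • x ∈ W := Iff.rfl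

omit [CharP F 2] in
/-- Counting on the lines. -/
lemma count_B {W : AddSubgroup V} {N : ℕ} (hN : ∀ x, x ∉ W → Nat.card (scal F W x) = N) :
    ((Fintype.card F : ℤ) - 1) * (Nat.card W - Nat.card (core F W)) =
      ((Nat.card V : ℤ) - Nat.card (core F W)) * (N - 1) := by
  classical
  have : Fintype V := Fintype.ofFinite V
  -- pairs `(c, v)`, `c ≠ 0`, `v` not in the core, `c v ∈ W`
  set A : Finset V := univ.filter (fun v => v ∉ core F W) with hA
  set B : Finset F := univ.filter (fun c => c ≠ 0) with hB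
  have h1 : ∑ v ∈ A, (B.filter (fun c => c • v ∈ W)).card =
      ∑ c ∈ B, (A.filter (fun v => c • v ∈ W)).card := by
    have h2 := Finset.sum_card_bipartiteAbove_eq_sum_card_bipartiteBelow
        (s := A) (t := B) (fun v c => c • v ∈ W)
    simpa only [bipartiteAbove, bipartiteBelow] using h2
  have hcA : (A.card : ℤ) = (Nat.card V : ℤ) - Nat.card (core F W) := by
    have h2 := Finset.card_filter_add_card_filter_not (s := (univ : Finset V))
      (fun v => v ∈ core F W)
    have h3 : (univ.filter (fun v : V => v ∈ core F W)).card = Nat.card (core F W) := by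
      rw [Nat.card_eq_fintype_card, Fintype.card_subtype]
    rw [Finset.card_univ, h3] at h2
    rw [Nat.card_eq_fintype_card (α := V), ← h2]
    push_cast
    ring
  have hcB : (B.card : ℤ) = (Fintype.card F : ℤ) - 1 := by
    have h2 : B = univ.erase 0 := by
      ext c
      simp [hB]
    rw [h2, Finset.card_erase_of_mem (mem_univ _), Finset.card_univ]
    have := Fintype.card_pos (α := F)
    omega
  have hrow : ∀ v ∈ A, ((B.filter (fun c => c • v ∈ W)).card : ℤ) = N - 1 := by
    intro v hv
    rw [hA, mem_filter, mem_core] at hv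
    obtain ⟨d, hd⟩ := not_forall.1 hv.2
    have hd0 : d ≠ 0 := by
      rintro rfl
      apply hd
      rw [zero_smul]
      exact W.zero_mem
    have h2 := hN _ hd
    have h3 : (univ.filter (fun c : F => c • v ∈ W)).card = N := by
      rw [← h2, Nat.card_eq_fintype_card]
      have h4 : Fintype.card (scal F W (d • v)) =
          (univ.filter (fun c : F => c • (d • v) ∈ W)).card := by
        rw [Fintype.card_subtype]
        rfl
      rw [h4]
      symm
      apply Finset.card_bij (fun c _ => c * d)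
      · intro c hc
        rw [mem_filter] at hc ⊢
        refine ⟨mem_univ _, ?_⟩
        rw [← smul_smul]
        exact hc.2
      · intro c _ e _ hce
        exact mul_right_cancel₀ hd0 hce
      · intro c hc
        rw [mem_filter] at hc
        refine ⟨c * d⁻¹, ?_, ?_⟩
        · rw [mem_filter]
          refine ⟨mem_univ _, ?_⟩
          rw [smul_smul, mul_assoc, inv_mul_cancel₀ hd0, mul_one]
          exact hc.2
        · rw [mul_assoc, inv_mul_cancel₀ hd0, mul_one]
    have h5 : B.filter (fun c => c • v ∈ W) = (univ.filter (fun c : F => c • v ∈ W)).erase 0 := by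
      ext c
      simp [hB]
    have h6 : (0 : F) ∈ univ.filter (fun c : F => c • v ∈ W) := by
      rw [mem_filter, zero_smul]
      exact ⟨mem_univ _, W.zero_mem⟩
    have h7 : 0 < (univ.filter (fun c : F => c • v ∈ W)).card := Finset.card_pos.2 ⟨0, h6⟩
    rw [h5, Finset.card_erase_of_mem h6, h3]
    rw [h3] at h7
    omega
  have hcol : ∀ c ∈ B, ((A.filter (fun v => c • v ∈ W)).card : ℤ) =
      (Nat.card W : ℤ) - Nat.card (core F W) := by
    intro c hc
    rw [hB, mem_filter] at hc
    have h2 : (A.filter (fun v => c • v ∈ W)).card =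
        (univ.filter (fun v : V => v ∈ W ∧ v ∉ core F W)).card := by
      apply Finset.card_bij (fun v _ => c • v)
      · intro v hv
        rw [hA, mem_filter, mem_filter] at hv
        rw [mem_filter]
        refine ⟨mem_univ _, hv.2, fun h => hv.1.2 ?_⟩
        have := (core F W).smul_mem c⁻¹ h
        rwa [smul_smul, inv_mul_cancel₀ hc.2, one_smul] at this
      · intro v _ w _ hvw
        exact smul_right_injective V hc.2 hvw
      · intro v hv
        rw [mem_filter] at hv
        refine ⟨c⁻¹ • v, ?_, ?_⟩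
        · rw [hA, mem_filter, mem_filter]
          refine ⟨⟨mem_univ _, fun h => hv.2.2 ?_⟩, ?_⟩
          · have := (core F W).smul_mem c h
            rwa [smul_smul, mul_inv_cancel₀ hc.2, one_smul] at this
          · rw [smul_smul, mul_inv_cancel₀ hc.2, one_smul]
            exact hv.2.1
        · rw [smul_smul, mul_inv_cancel₀ hc.2, one_smul]
    have h3 : (univ.filter (fun v : V => v ∈ W)).card = Nat.card W := by
      rw [Nat.card_eq_fintype_card, Fintype.card_subtype]
    have h4 : (univ.filter (fun v : V => v ∈ core F W)).card = Nat.card (core F W) := by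
      rw [Nat.card_eq_fintype_card, Fintype.card_subtype]
    have h5 := Finset.card_filter_add_card_filter_not (s := (univ.filter (fun v : V => v ∈ W)))
      (fun v => v ∈ core F W)
    rw [filter_filter, filter_filter] at h5
    have h6 : (univ.filter (fun v : V => v ∈ W ∧ v ∈ core F W)) =
        univ.filter (fun v : V => v ∈ core F W) := by
      ext v
      simp only [mem_filter, mem_univ, true_and]
      exact ⟨fun h => h.2, fun h => ⟨core_le h, h⟩⟩
    rw [h6, h3, h4] at h5
    rw [h2, ← h5]
    push_cast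
    ring
  have h2 : (∑ v ∈ A, ((B.filter (fun c => c • v ∈ W)).card : ℤ)) =
      ∑ c ∈ B, ((A.filter (fun v => c • v ∈ W)).card : ℤ) := by
    exact_mod_cast h1
  rw [Finset.sum_congr rfl hrow, Finset.sum_congr rfl hcol, sum_const, sum_const, nsmul_eq_mul,
    nsmul_eq_mul, hcA, hcB] at h2
  rw [h2]

/-- the order of a subgroup is a power of two -/
lemma card_addSubgroup_pow (F : Type*) [Field F] [Fintype F] [CharP F 2] {V : Type*}
    [AddCommGroup V] [Module F V] [Finite V] (W : AddSubgroup V) : ∃ k, Nat.card W = 2 ^ k := by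
  obtain ⟨a, ha⟩ : ∃ a, Fintype.card F = 2 ^ a := by
    obtain ⟨a, -, ha⟩ := FiniteField.card F 2
    exact ⟨a, ha⟩
  have h1 : Nat.card V = 2 ^ (a * Module.finrank F V) := by
    have : Fintype V := Fintype.ofFinite V
    rw [Nat.card_eq_fintype_card, Module.card_eq_pow_finrank (K := F) (V := V), ha, pow_mul]
  have h2 : Nat.card W ∣ 2 ^ (a * Module.finrank F V) := by
    rw [← h1]
    exact AddSubgroup.card_addSubgroup_dvd_card W
  obtain ⟨k, -, hk⟩ := (Nat.dvd_prime_pow Nat.prime_two).1 h2
  exact ⟨k, hk⟩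

/-- A subgroup meeting all `F`-lines outside in equally many points is an `F`-subspace or contains
an `F`-hyperplane. -/
theorem lin_B (W : AddSubgroup V) (hcount : ∀ x, x ∉ W → ∀ y, y ∉ W →
    Nat.card (scal F W x) = Nat.card (scal F W y)) :
    (∀ (c : F) (w : V), w ∈ W → c • w ∈ W) ∨ ∃ φ : V →ₗ[F] F, φ ≠ 0 ∧ ∀ x, φ x = 0 ↔ x ∈ core F W := by
  by_cases hW : ∀ (c : F) (w : V), w ∈ W → c • w ∈ W
  · exact Or.inl hW
  right
  push Not at hW
  obtain ⟨c₀, w₀, hw₀, hcw⟩ := hW
  set N := Nat.card (scal F W (c₀ • w₀)) with hNdef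
  have hN : ∀ x, x ∉ W → Nat.card (scal F W x) = N := fun x hx => hcount x hx _ hcw
  have hcount := count_B hN
  obtain ⟨a, ha⟩ : ∃ a, Fintype.card F = 2 ^ a := by
    obtain ⟨a, -, ha⟩ := FiniteField.card F 2
    exact ⟨a, ha⟩
  have hc₀ : c₀ ≠ 0 := by
    rintro rfl
    apply hcw
    rw [zero_smul]
    exact W.zero_mem
  -- `N = 2 ^ s`
  obtain ⟨s, hs⟩ := card_addSubgroup_pow F (scal F W (c₀ • w₀))
  have hs1 : 1 ≤ s := by
    by_contra hcon
    have h0 : s = 0 := by omega
    rw [h0, pow_zero] at hs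
    have h1 : scal F W (c₀ • w₀) = ⊥ := AddSubgroup.eq_bot_of_card_eq _ hs
    have h2 : c₀⁻¹ ∈ scal F W (c₀ • w₀) := by
      rw [mem_scal, smul_smul, inv_mul_cancel₀ hc₀, one_smul]
      exact hw₀
    rw [h1, AddSubgroup.mem_bot] at h2
    exact inv_ne_zero hc₀ h2
  have hsa : s < a := by
    have h1 : Nat.card (scal F W (c₀ • w₀)) < Nat.card F := by
      have h2 := AddSubgroup.card_addSubgroup_dvd_card (scal F W (c₀ • w₀))
      rcases Nat.lt_or_ge (Nat.card (scal F W (c₀ • w₀))) (Nat.card F) with h3 | h3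
      · exact h3
      · exfalso
        have h4 : scal F W (c₀ • w₀) = ⊤ := AddSubgroup.eq_top_of_card_eq _
          (le_antisymm (Nat.le_of_dvd Nat.card_pos h2) h3)
        have h5 : (1 : F) ∈ scal F W (c₀ • w₀) := by rw [h4]; exact AddSubgroup.mem_top _
        rw [mem_scal, one_smul] at h5
        exact hcw h5
    rw [hs, Nat.card_eq_fintype_card, ha] at h1
    exact (Nat.pow_lt_pow_iff_right (by norm_num)).1 h1
  -- orders
  obtain ⟨u, hu⟩ := card_addSubgroup_pow F (core F W).toAddSubgroup
  have hu' : Nat.card (core F W) = 2 ^ u := hu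
  obtain ⟨w, hw⟩ := card_addSubgroup_pow F W
  have huw : u ≤ w := by
    have h1 : Nat.card (core F W).toAddSubgroup ≤ Nat.card W := by
      apply Nat.card_le_card_of_injective
        (fun x : (core F W).toAddSubgroup => (⟨x.1, core_le x.2⟩ : W))
      intro x y hxy
      exact Subtype.ext (congrArg (fun z : W => z.1) hxy)
    rw [hu, hw] at h1
    exact (Nat.pow_le_pow_iff_right (by norm_num)).1 h1
  set m := Module.finrank F (V ⧸ core F W) with hm
  have hV : Nat.card V = 2 ^ u * 2 ^ (a * m) := by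
    have h1 := Submodule.card_eq_card_quotient_mul_card (core F W)
    have h2 : Nat.card (V ⧸ core F W) = 2 ^ (a * m) := by
      have hfin : Finite (V ⧸ core F W) :=
        Finite.of_surjective _ (core F W).mkQ_surjective
      have : Fintype (V ⧸ core F W) := Fintype.ofFinite _
      rw [Nat.card_eq_fintype_card, Module.card_eq_pow_finrank (K := F) (V := V ⧸ core F W), ha,
        pow_mul]
    rw [h1, h2, hu']
  have hm1 : m ≤ 1 := by
    apply arith_B (a := a) (D := w - u) hs1 hsa
    have hNs : (N : ℤ) = 2 ^ s := by rw [hNdef, hs]; push_cast; rfl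
    have hwu : (2 : ℤ) ^ w = 2 ^ u * 2 ^ (w - u) := by
      rw [← pow_add]
      congr 1
      omega
    rw [ha, hw, hu', hV, hNs] at hcount
    push_cast at hcount
    rw [hwu] at hcount
    have h0 : (2 : ℤ) ^ u ≠ 0 := by positivity
    apply mul_left_cancel₀ h0
    linear_combination hcount
  have hm0 : m ≠ 0 := by
    intro h0
    rw [hm, Module.finrank_zero_iff] at h0
    apply hcw
    apply core_le (F := F)
    have h1 : (core F W).mkQ (c₀ • w₀) = 0 := Subsingleton.elim _ _
    rwa [Submodule.mkQ_apply, Submodule.Quotient.mk_eq_zero] at h1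
  have hm' : Module.finrank F (V ⧸ core F W) = 1 := by omega
  obtain ⟨e⟩ := (Module.nonempty_linearEquiv_of_finrank_eq_one hm')
  refine ⟨e.symm.toLinearMap.comp (core F W).mkQ, ?_, ?_⟩
  · intro h0
    have h1 := LinearMap.congr_fun h0 (c₀ • w₀)
    have h2 : e.symm ((core F W).mkQ (c₀ • w₀)) = 0 := h1
    rw [e.symm.map_eq_zero_iff, Submodule.mkQ_apply, Submodule.Quotient.mk_eq_zero] at h2
    exact hcw (core_le h2)
  · intro x
    change e.symm ((core F W).mkQ x) = 0 ↔ _
    rw [e.symm.map_eq_zero_iff, Submodule.mkQ_apply, Submodule.Quotient.mk_eq_zero]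

end Pool.Agent.SIT.Lin
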