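import Pool.Agent.SIT.Fourier

/-!
# Semilinear isometries transitive outside the radical: the form is compatible with scalars

If `β` is an alternating `F_2`-bilinear form on the `F`-space `V` (`|F| = 2^a`) with radical `R`, an
`F`-subspace with `|V/R| = 2^(2μ)`, `a ≤ μ`, and some group of `F`-semilinear isometries of `β` is
transitive on `V \ R`, then `β (c x) x = 0` for all `c` in `F`.
-/

namespace Pool.Agent.SIT

open Finset

namespace LinD

/-! ### arithmetic -/

lemma lt_two_pow_sub (μ : ℕ) (hμ : 2 ≤ μ) : (μ : ℤ) < 2 ^ μ - 1 := by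
  induction μ, hμ using Nat.le_induction with
  | base => norm_num
  | succ n hn ih =>
    rw [pow_succ]
    push_cast
    have : (2 : ℤ) ≤ n := by exact_mod_cast hn
    linarith

lemma four_pow (μ : ℕ) : (4 : ℤ) ^ μ = 2 ^ μ * 2 ^ μ := by
  rw [← mul_pow]; norm_num

lemma arith0 (μ l : ℕ) (hl : 0 < l) (hlμ : l ≤ μ) (hμ : 2 ≤ μ) (t : ℤ)
    (h : (l : ℤ) * (0 - 1) = (4 ^ μ - 1) * t) : False := by
  have h1 := lt_two_pow_sub μ hμ
  have h2 : (0 : ℤ) < l := by exact_mod_cast hl
  have h3 : (l : ℤ) ≤ μ := by exact_mod_cast hlμ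
  have hd : (4 ^ μ - 1 : ℤ) ∣ l := ⟨-t, by linarith⟩
  have h4 := Int.le_of_dvd h2 hd
  rw [four_pow] at h4
  have h5 : (4 : ℤ) ≤ 2 ^ μ := by
    calc (4 : ℤ) = 2 ^ 2 := by norm_num
      _ ≤ 2 ^ μ := pow_le_pow_right₀ (by norm_num) hμ
  nlinarith

lemma arith1 (μ e l : ℕ) (hl : 0 < l) (hlμ : l ≤ μ) (hμ : 2 ≤ μ) (he : μ ≤ e) (he' : e < 2 * μ)
    (ε : ℤ) (hε : ε = 1 ∨ ε = -1) (t : ℤ)
    (h : (l : ℤ) * (ε * 2 ^ e - 1) = (4 ^ μ - 1) * t) : False := by
  obtain ⟨k, hk⟩ : ∃ k, e + k = 2 * μ := ⟨2 * μ - e, by omega⟩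
  have hk1 : 1 ≤ k := by omega
  have hk2 : k ≤ μ := by omega
  have h1 := lt_two_pow_sub μ hμ
  have h2 : (0 : ℤ) < l := by exact_mod_cast hl
  have h3 : (l : ℤ) ≤ μ := by exact_mod_cast hlμ
  have hpow : (2 : ℤ) ^ e * 2 ^ k = 4 ^ μ := by
    rw [← pow_add, hk, pow_mul]; norm_num
  have hkp : (2 : ℤ) ≤ 2 ^ k := by
    calc (2 : ℤ) = 2 ^ 1 := by norm_num
      _ ≤ 2 ^ k := pow_le_pow_right₀ (by norm_num) hk1
  have hkm : (2 : ℤ) ^ k ≤ 2 ^ μ := pow_le_pow_right₀ (by norm_num) hk2
  have hd : (4 ^ μ - 1 : ℤ) ∣ l * (2 ^ k - ε) := by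
    refine ⟨l * ε - t * 2 ^ k, ?_⟩
    have h4 : (l : ℤ) * (ε * 4 ^ μ - 2 ^ k) = (4 ^ μ - 1) * (t * 2 ^ k) := by
      rw [← hpow] at h ⊢
      linear_combination (2 ^ k) * h
    linear_combination -h4
  have hpos : (0 : ℤ) < l * (2 ^ k - ε) := by
    apply mul_pos h2
    rcases hε with rfl | rfl <;> linarith
  have h5 := Int.le_of_dvd hpos hd
  have h6 : (l : ℤ) * (2 ^ k - ε) ≤ μ * (2 ^ μ + 1) := by
    apply mul_le_mul h3 _ _ (by positivity)
    · rcases hε with rfl | rfl <;> linarith
    · rcases hε with rfl | rfl <;> linarith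
  rw [four_pow] at h5
  have h7 : (0 : ℤ) < 2 ^ μ + 1 := by positivity
  nlinarith

/-! ### Gauss sums -/

lemma sum_sgn_add {V : Type*} [AddCommGroup V] [Fintype V] (φ : V → ZMod 2)
    (hφ : ∀ x y, φ (x + y) = φ x + φ y) : (∀ x, φ x = 0) ∨ ∑ x : V, sgn (φ x) = 0 := by
  by_cases h : ∀ x, φ x = 0
  · exact Or.inl h
  · right
    push Not at h
    obtain ⟨v, hv⟩ := h
    have hv1 : φ v = 1 := (zmod2_cases _).resolve_left hv
    have h1 : ∑ x : V, sgn (φ x) = ∑ x : V, sgn (φ (x + v)) :=
      (Equiv.sum_comp (Equiv.addRight v) (fun x => sgn (φ x))).symm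
    simp only [hφ, hv1, sgn_add, sgn_one, mul_neg, mul_one, Finset.sum_neg_distrib] at h1
    linarith

lemma gauss_sq {V : Type*} [AddCommGroup V] [Fintype V] (h : V → ZMod 2) (p : V → V → ZMod 2)
    (hh : ∀ x y, h (x + y) = h x + h y + p x y) (hp : ∀ x y z, p (x + y) z = p x z + p y z)
    (hp' : ∀ x y z, p x (y + z) = p x y + p x z) :
    ∃ K : AddSubgroup V, (∀ z, z ∈ K ↔ ∀ x, p x z = 0) ∧
      ((∑ x, sgn (h x)) * (∑ x, sgn (h x)) = 0 ∨
        (∑ x, sgn (h x)) * (∑ x, sgn (h x)) = (Nat.card V : ℤ) * Nat.card K) := by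
  classical
  have hp0 : ∀ x, p x 0 = 0 := by
    intro x
    have := hp' x 0 0
    rw [add_zero] at this
    exact left_eq_add.1 this
  let K : AddSubgroup V :=
    { carrier := {z | ∀ x, p x z = 0}
      zero_mem' := hp0
      add_mem' := by
        intro a b ha hb x
        rw [hp', ha x, hb x, add_zero]
      neg_mem' := by
        intro a ha x
        have h1 := hp' x a (-a)
        rw [add_neg_cancel, hp0, ha x, zero_add] at h1
        exact h1.symm }
  have hK : ∀ z, z ∈ K ↔ ∀ x, p x z = 0 := fun z => Iff.rfl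
  refine ⟨K, hK, ?_⟩
  have e1 : (∑ x, sgn (h x)) * (∑ x, sgn (h x)) =
      ∑ z, sgn (h z) * ∑ x, sgn (p x z) := by
    rw [Finset.sum_mul_sum]
    have : ∀ x : V, ∑ y, sgn (h x) * sgn (h y) = ∑ z, sgn (h z) * sgn (p x z) := by
      intro x
      rw [← Equiv.sum_comp (Equiv.addLeft x) (fun y => sgn (h x) * sgn (h y))]
      apply Finset.sum_congr rfl
      intro z _
      change sgn (h x) * sgn (h (x + z)) = _
      rw [hh, sgn_add, sgn_add]
      linear_combination (sgn (h z) * sgn (p x z)) * sgn_mul_self (h x)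
    rw [Finset.sum_congr rfl (fun x _ => this x), Finset.sum_comm]
    apply Finset.sum_congr rfl
    intro z _
    rw [Finset.mul_sum]
  have e2 : ∀ z, sgn (h z) * ∑ x, sgn (p x z) =
      if z ∈ K then (Nat.card V : ℤ) * sgn (h z) else 0 := by
    intro z
    rcases sum_sgn_add (fun x => p x z) (fun x y => hp x y z) with h1 | h1
    · rw [if_pos ((hK z).2 h1)]
      simp only [h1, sgn_zero, Finset.sum_const, Finset.card_univ, nsmul_eq_mul, mul_one,
        Nat.card_eq_fintype_card]
      ring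
    · rw [h1, mul_zero]
      split_ifs with h2
      · exfalso
        rw [hK] at h2
        simp only [h2, sgn_zero, Finset.sum_const, Finset.card_univ, nsmul_eq_mul, mul_one] at h1
        have : 0 < Fintype.card V := Fintype.card_pos
        omega
      · rfl
  rw [e1, Finset.sum_congr rfl (fun z _ => e2 z), ← Finset.sum_filter, ← Finset.mul_sum]
  have e3 : ∑ z ∈ univ.filter (fun z => z ∈ K), sgn (h z) = ∑ z : K, sgn (h z) := by
    rw [Finset.sum_subtype (univ.filter (fun z => z ∈ K)) (p := fun z => z ∈ K) (by simp)]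
  rw [e3]
  rcases sum_sgn_add (V := K) (fun z => h z) (by
    intro x y
    change h ((x : V) + y) = _
    rw [hh, (hK y).1 y.2, add_zero]) with h1 | h1
  · right
    simp only [h1, sgn_zero, Finset.sum_const, Finset.card_univ, nsmul_eq_mul, mul_one,
      Nat.card_eq_fintype_card]
  · left
    rw [h1, mul_zero]

/-! ### field automorphisms -/

lemma card_orbit_le {F : Type*} [Field F] [Fintype F] [CharP F 2] (μ : ℕ)
    (hF : Fintype.card F ≤ 2 ^ μ) (c : F) (Λ : Finset F)
    (hΛ : ∀ d ∈ Λ, ∃ σ : F ≃+* F, σ c = d) : Λ.card ≤ μ := by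
  classical
  let _ : Algebra (ZMod 2) F := ZMod.algebra F 2
  have h1 : Fintype.card F = 2 ^ Module.finrank (ZMod 2) F := by
    rw [Module.card_eq_pow_finrank (K := ZMod 2) (V := F), ZMod.card]
  have h2 : Module.finrank (ZMod 2) F ≤ μ := by
    rw [h1] at hF
    exact (Nat.pow_le_pow_iff_right (by norm_num)).1 hF
  have h3 : Fintype.card (F ≃ₐ[ZMod 2] F) ≤ Module.finrank (ZMod 2) F := AlgEquiv.card_le
  have h4 : Λ ⊆ (Finset.univ : Finset (F ≃ₐ[ZMod 2] F)).image (fun σ => σ c) := by
    intro d hd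
    obtain ⟨σ, hσ⟩ := hΛ d hd
    refine Finset.mem_image.2 ⟨AlgEquiv.ofRingEquiv (f := σ) ?_, Finset.mem_univ _, hσ⟩
    intro r
    rcases zmod2_cases r with rfl | rfl
    · simp
    · simp
  calc Λ.card ≤ _ := Finset.card_le_card h4
    _ ≤ _ := Finset.card_image_le
    _ = Fintype.card (F ≃ₐ[ZMod 2] F) := Finset.card_univ
    _ ≤ μ := h3.trans h2

lemma card_pow {F V : Type*} [Field F] [Fintype F] [CharP F 2] [AddCommGroup V] [Module F V]
    [Fintype V] : ∃ n, Nat.card V = 2 ^ n := by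
  let _ : Algebra (ZMod 2) F := ZMod.algebra F 2
  refine ⟨Module.finrank (ZMod 2) F * Module.finrank F V, ?_⟩
  rw [Nat.card_eq_fintype_card, Module.card_eq_pow_finrank (K := F) (V := V),
    Module.card_eq_pow_finrank (K := ZMod 2) (V := F), ZMod.card, ← pow_mul]

end LinD

open LinD

theorem lin_D2 {F V : Type*} [Field F] [Fintype F] [CharP F 2] [AddCommGroup V] [Module F V]
    [Fintype V] (β : V → V → ZMod 2) (hl : ∀ x y z, β (x + y) z = β x z + β y z)
    (hr : ∀ x y z, β x (y + z) = β x y + β x z) (halt : ∀ x, β x x = 0)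
    (R : Submodule F V) (hR : ∀ x, x ∈ R ↔ ∀ y, β x y = 0)
    (μ : ℕ) (hμ : Nat.card V = 2 ^ (2 * μ) * Nat.card R) (hF : Fintype.card F ≤ 2 ^ μ)
    (P : (V ≃+ V) → (F ≃+* F) → Prop)
    (hone : P (AddEquiv.refl V) (RingEquiv.refl F))
    (hmul : ∀ g σ h τ, P g σ → P h τ → P (g.trans h) (σ.trans τ))
    (hsemi : ∀ g σ, P g σ → ∀ (c : F) x, g (c • x) = σ c • g x)
    (hβ : ∀ g σ, P g σ → ∀ x y, β (g x) (g y) = β x y)
    (htr : ∀ x y, x ∉ R → y ∉ R → ∃ g σ, P g σ ∧ g x = y) :
    ∀ (c : F) x, β (c • x) x = 0 := by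
  classical
  intro c
  -- symmetry
  have hsym : ∀ x y, β x y = β y x := by
    intro x y
    have h := halt (x + y)
    rw [hl, hr, hr, halt, halt, zero_add, add_zero] at h
    revert h
    generalize β x y = p
    generalize β y x = q
    revert p q
    decide
  -- the case of two elements
  rcases Nat.lt_or_ge μ 2 with hμ2 | hμ2
  · have hc : c = 0 ∨ c = 1 := by
      by_contra hcon
      push Not at hcon
      have h1 : 3 ≤ Fintype.card F := by
        have : ({0, 1, c} : Finset F).card = 3 := by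
          rw [Finset.card_eq_three]
          exact ⟨0, 1, c, zero_ne_one, hcon.1.symm, hcon.2.symm, rfl⟩
        rw [← this]
        exact Finset.card_le_univ _
      have h2 : 2 ^ μ ≤ 2 := by
        calc 2 ^ μ ≤ 2 ^ 1 := Nat.pow_le_pow_right (by norm_num) (by omega)
          _ = 2 := by norm_num
      omega
    intro x
    rcases hc with rfl | rfl
    · rw [zero_smul]
      have := hl 0 0 x
      rw [add_zero] at this
      exact left_eq_add.1 this
    · rw [one_smul, halt]
  -- the orbit of `c`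
  set Λ : Finset F := univ.filter (fun d => ∃ g σ, P g σ ∧ σ c = d) with hΛ
  have hcΛ : c ∈ Λ := by
    rw [hΛ, Finset.mem_filter]
    exact ⟨Finset.mem_univ _, _, _, hone, rfl⟩
  have hΛmem : ∀ d, d ∈ Λ ↔ ∃ g σ, P g σ ∧ σ c = d := by
    intro d
    rw [hΛ, Finset.mem_filter]
    simp
  have hΛcard : Λ.card ≤ μ := by
    apply card_orbit_le μ hF c Λ
    intro d hd
    obtain ⟨g, σ, _, h⟩ := (hΛmem d).1 hd
    exact ⟨σ, h⟩
  have hΛpos : 0 < Λ.card := Finset.card_pos.2 ⟨c, hcΛ⟩
  have hΛimg : ∀ g σ, P g σ → Λ.image σ = Λ := by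
    intro g σ hg
    apply Finset.eq_of_subset_of_card_le
    · intro d hd
      obtain ⟨d', hd', rfl⟩ := Finset.mem_image.1 hd
      obtain ⟨g', σ', hg', rfl⟩ := (hΛmem d').1 hd'
      exact (hΛmem _).2 ⟨_, _, hmul _ _ _ _ hg' hg, rfl⟩
    · rw [Finset.card_image_of_injective _ σ.injective]
  -- the forms
  set h : F → V → ZMod 2 := fun d x => β (d • x) x with hh
  have hinv : ∀ g σ, P g σ → ∀ d x, h (σ d) (g x) = h d x := by
    intro g σ hg d x
    simp only [hh]
    rw [← hsemi g σ hg, hβ g σ hg]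
  set S : F → ℤ := fun d => ∑ x, sgn (h d x) with hS
  have hSinv : ∀ d ∈ Λ, S d = S c := by
    intro d hd
    obtain ⟨g, σ, hg, rfl⟩ := (hΛmem d).1 hd
    simp only [hS]
    rw [← Equiv.sum_comp g.toEquiv (fun x => sgn (h (σ c) x))]
    apply Finset.sum_congr rfl
    intro x _
    change sgn (h (σ c) (g x)) = _
    rw [hinv g σ hg]
  set T : V → ℤ := fun x => ∑ d ∈ Λ, sgn (h d x) with hT
  have hTinv : ∀ g σ, P g σ → ∀ x, T (g x) = T x := by
    intro g σ hg x
    simp only [hT]
    rw [← hΛimg g σ hg, Finset.sum_image (fun a _ b _ hab => σ.injective hab)]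
    rw [hΛimg g σ hg]
    apply Finset.sum_congr rfl
    intro d _
    rw [hinv g σ hg]
  obtain ⟨t, ht⟩ : ∃ t, ∀ x, x ∉ R → T x = t := by
    by_cases hex : ∃ x, x ∉ R
    · obtain ⟨x0, hx0⟩ := hex
      refine ⟨T x0, fun x hx => ?_⟩
      obtain ⟨g, σ, hg, rfl⟩ := htr x0 x hx0 hx
      exact hTinv g σ hg x0
    · push Not at hex
      exact ⟨0, fun x hx => absurd (hex x) hx⟩
  have hTR : ∀ x, x ∈ R → T x = Λ.card := by
    intro x hx
    simp only [hT, hh]
    have : ∀ d ∈ Λ, sgn (β (d • x) x) = 1 := by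
      intro d _
      rw [(hR _).1 (R.smul_mem d hx), sgn_zero]
    rw [Finset.sum_congr rfl this]
    simp
  -- double count
  have hcount : (Λ.card : ℤ) * S c =
      Nat.card R * Λ.card + ((Nat.card V : ℤ) - Nat.card R) * t := by
    have h1 : ∑ x, T x = Λ.card * S c := by
      simp only [hT]
      rw [Finset.sum_comm]
      have : ∀ d ∈ Λ, ∑ x, sgn (h d x) = S c := fun d hd => hSinv d hd
      rw [Finset.sum_congr rfl this]
      simp
    have h2 : ∑ x, T x = ∑ x, (if x ∈ R then (Λ.card : ℤ) else t) := by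
      apply Finset.sum_congr rfl
      intro x _
      split_ifs with hx
      · exact hTR x hx
      · exact ht x hx
    have h3 : (univ.filter (fun x => x ∈ R)).card = Nat.card R := by
      rw [Nat.card_eq_fintype_card, Fintype.card_subtype]
    have h4 : ((univ.filter (fun x => ¬ x ∈ R)).card : ℤ) = (Nat.card V : ℤ) - Nat.card R := by
      have := Finset.card_filter_add_card_filter_not (s := (univ : Finset V)) (fun x => x ∈ R)
      rw [h3, Finset.card_univ, ← Nat.card_eq_fintype_card] at this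
      have h5 : ((Nat.card R + (univ.filter (fun x => ¬ x ∈ R)).card : ℕ) : ℤ) = Nat.card V := by
        rw [this]
      push_cast at h5
      linarith
    rw [← h1, h2, Finset.sum_ite, Finset.sum_const, Finset.sum_const, h3, nsmul_eq_mul,
      nsmul_eq_mul, h4]
  -- the Gauss sum
  obtain ⟨K, hK, hKS⟩ := gauss_sq (h c) (fun x y => β (c • x) y + β (c • y) x)
    (by
      intro x y
      simp only [hh]
      rw [smul_add, hl, hr, hr]
      abel)
    (by
      intro x y z
      rw [smul_add, hl, hr]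
      abel)
    (by
      intro x y z
      rw [smul_add, hl, hr]
      abel)
  have hRK : Nat.card R ≤ Nat.card K := by
    have : R.toAddSubgroup ≤ K := by
      intro z hz
      rw [hK]
      intro x
      have hz' : z ∈ R := hz
      rw [hsym, (hR z).1 hz', (hR _).1 (R.smul_mem c hz'), add_zero]
    exact Nat.card_le_card_of_injective (Set.inclusion this) (Set.inclusion_injective this)
  obtain ⟨n, hn⟩ := card_pow (F := F) (V := V)
  obtain ⟨ρ, hρ⟩ := card_pow (F := F) (V := R)
  obtain ⟨κ, _, hκ⟩ : ∃ κ ≤ n, Nat.card K = 2 ^ κ := by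
    rw [← Nat.dvd_prime_pow Nat.prime_two, ← hn]
    exact K.card_addSubgroup_dvd_card
  have hμ' : n = 2 * μ + ρ := by
    rw [hn, hρ, ← pow_add] at hμ
    exact Nat.pow_right_injective (le_refl 2) hμ
  rw [hρ, hn, hμ'] at hcount
  have hρ0 : (2 : ℤ) ^ ρ ≠ 0 := by positivity
  rcases hKS with h0 | h0
  · exfalso
    have hS0 : S c = 0 := by
      rcases mul_eq_zero.1 h0 with h | h <;> exact h
    rw [hS0] at hcount
    apply arith0 μ Λ.card hΛpos hΛcard hμ2 t
    apply mul_left_cancel₀ hρ0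
    push_cast at hcount
    rw [pow_add, pow_mul] at hcount
    norm_num at hcount
    linear_combination hcount
  · rw [hn, hκ] at h0
    change S c * S c = _ at h0
    have hnat : (S c).natAbs * (S c).natAbs = 2 ^ (n + κ) := by
      have : ((S c).natAbs * (S c).natAbs : ℤ) = 2 ^ (n + κ) := by
        rw [Int.natAbs_mul_self', h0, pow_add]
        push_cast
        ring
      exact_mod_cast this
    obtain ⟨s, _, hs⟩ : ∃ s ≤ n + κ, (S c).natAbs = 2 ^ s := by
      rw [← Nat.dvd_prime_pow Nat.prime_two, ← hnat]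
      exact dvd_mul_left _ _
    have hs2 : 2 * s = n + κ := by
      rw [hs, ← pow_add] at hnat
      have := Nat.pow_right_injective (le_refl 2) hnat
      omega
    have hρκ : ρ ≤ κ := by
      rw [hρ, hκ] at hRK
      exact (Nat.pow_le_pow_iff_right (by norm_num)).1 hRK
    obtain ⟨e, he⟩ : ∃ e, s = e + ρ := ⟨s - ρ, by omega⟩
    have heμ : μ ≤ e := by omega
    have hε : S c = (1 : ℤ) * 2 ^ s ∨ S c = (-1 : ℤ) * 2 ^ s := by
      rcases Int.natAbs_eq (S c) with h | h
      · left; rw [h, hs]; push_cast; ring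
      · right; rw [h, hs]; push_cast; ring
    have he2 : e ≤ 2 * μ := by omega
    obtain ⟨ε, hε1, hε2⟩ : ∃ ε : ℤ, (ε = 1 ∨ ε = -1) ∧ S c = ε * 2 ^ s := by
      rcases hε with h | h
      · exact ⟨1, Or.inl rfl, h⟩
      · exact ⟨-1, Or.inr rfl, h⟩
    rcases Nat.lt_or_ge e (2 * μ) with he3 | he3
    · exfalso
      apply arith1 μ e Λ.card hΛpos hΛcard hμ2 heμ he3 ε hε1 t
      apply mul_left_cancel₀ hρ0
      rw [hε2, he] at hcount
      push_cast at hcount
      rw [pow_add, pow_add, pow_mul] at hcount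
      norm_num at hcount
      linear_combination hcount
    · -- the sum is `± |V|`
      have he4 : s = n := by omega
      have habs : S c = Nat.card V ∨ S c = -(Nat.card V : ℤ) := by
        rw [hε2, he4, hn]
        rcases hε1 with rfl | rfl
        · left; push_cast; ring
        · right; push_cast; ring
      have h00 : h c 0 = 0 := by
        simp only [hh]
        rw [smul_zero, halt]
      have hle : ∀ a : ZMod 2, sgn a ≤ 1 := by decide
      have hge : ∀ a : ZMod 2, -1 ≤ sgn a := by decide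
      rcases habs with hpos | hneg
      · intro x
        by_contra hx
        have hx1 : h c x = 1 := (zmod2_cases _).resolve_left hx
        have : S c < ∑ _x : V, (1 : ℤ) := by
          apply Finset.sum_lt_sum (fun y _ => hle _)
          exact ⟨x, Finset.mem_univ _, by rw [hx1, sgn_one]; norm_num⟩
        rw [Finset.sum_const, Finset.card_univ, ← Nat.card_eq_fintype_card, hpos] at this
        simp at this
      · exfalso
        have : ∑ _x : V, (-1 : ℤ) < S c := by
          apply Finset.sum_lt_sum (fun y _ => hge _)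
          exact ⟨0, Finset.mem_univ _, by rw [h00, sgn_zero]; norm_num⟩
        rw [Finset.sum_const, Finset.card_univ, ← Nat.card_eq_fintype_card, hneg] at this
        simp at this

/-- the form of the conclusion used later -/
theorem lin_D2' {F V : Type*} [Field F] [AddCommGroup V] [Module F V]
    (β : V → V → ZMod 2) (hl : ∀ x y z, β (x + y) z = β x z + β y z)
    (hr : ∀ x y z, β x (y + z) = β x y + β x z) (halt : ∀ x, β x x = 0)
    (h : ∀ (c : F) x, β (c • x) x = 0) (c : F) (x y : V) : β (c • x) y = β x (c • y) := by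
  have hsym : ∀ x y, β x y = β y x := by
    intro x y
    have h := halt (x + y)
    rw [hl, hr, hr, halt, halt, zero_add, add_zero] at h
    revert h
    generalize β x y = p
    generalize β y x = q
    revert p q
    decide
  have h1 := h c (x + y)
  rw [smul_add, hl, hr, hr, h, h, zero_add, add_zero, hsym (c • y) x] at h1
  revert h1
  generalize β (c • x) y = p
  generalize β x (c • y) = q
  revert p q
  decide

end Pool.Agent.SIT
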