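import Mathlib

/-!
# Compatible quadrics: the field has at most four elements

`Q` is a quadratic function on an `F`-space with polar form compatible with `F`; a group of
semilinear maps preserving `Q` is transitive on `Q = 1`.  Then `|F| ≤ 4`, and for `|F| = 4` some
member of the group is not linear.
-/

namespace Pool.Agent.SIT

lemma card_ringAut_le (F : Type*) [Field F] [Fintype F] [CharP F 2] :
    ∃ a : ℕ, Fintype.card F = 2 ^ a ∧ Nat.card (F ≃+* F) ≤ a := by
  classical
  let _ : Algebra (ZMod 2) F := ZMod.algebra F 2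
  refine ⟨Module.finrank (ZMod 2) F, ?_, ?_⟩
  · rw [Module.card_eq_pow_finrank (K := ZMod 2), ZMod.card]
  · let φ : (F ≃+* F) → (F ≃ₐ[ZMod 2] F) := fun σ => AlgEquiv.ofRingEquiv (f := σ) (by
      intro r
      have : (σ.toRingHom.comp (algebraMap (ZMod 2) F)) = algebraMap (ZMod 2) F :=
        Subsingleton.elim _ _
      exact congrArg (fun h => h r) this)
    have hinj : Function.Injective φ := by
      intro σ τ h
      ext x
      exact congrArg (fun e : F ≃ₐ[ZMod 2] F => e x) h
    have h1 : Nat.card (F ≃+* F) ≤ Nat.card (F ≃ₐ[ZMod 2] F) := Nat.card_le_card_of_injective φ hinj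
    rw [Nat.card_eq_fintype_card (α := F ≃ₐ[ZMod 2] F)] at h1
    exact h1.trans AlgEquiv.card_le

theorem lin_D4 {F V : Type*} [Field F] [Fintype F] [CharP F 2] [AddCommGroup V] [Module F V]
    (Q : V → ZMod 2) (β : V → V → ZMod 2) (hQ : ∀ x y, Q (x + y) = Q x + Q y + β x y)
    (hcomp : ∀ (c : F) x y, β (c • x) y = β x (c • y)) (hself : ∀ (c : F) x, β (c • x) x = 0)
    (P : (V ≃+ V) → (F ≃+* F) → Prop) (hP : ∀ g σ, P g σ → ∀ (c : F) x, g (c • x) = σ c • g x)
    (hPQ : ∀ g σ, P g σ → ∀ x, Q (g x) = Q x)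
    (htr : ∀ x y, Q x = 1 → Q y = 1 → ∃ g σ, P g σ ∧ g x = y) (hex : ∃ x, Q x = 1) :
    Fintype.card F = 2 ∨ (Fintype.card F = 4 ∧ ∃ g σ, P g σ ∧ σ ≠ RingEquiv.refl F) := by
  classical
  obtain ⟨x₀, hx₀⟩ := hex
  -- the functional
  have hadd : ∀ c d : F, Q ((c + d) • x₀) = Q (c • x₀) + Q (d • x₀) := by
    intro c d
    rw [add_smul, hQ, ← hcomp d (c • x₀) x₀, smul_smul, hself, add_zero]
  have h1 : Q ((1 : F) • x₀) = 1 := by rw [one_smul, hx₀]
  have hz : Q ((0 : F) • x₀) = 0 := by
    have := hadd 0 0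
    rw [add_zero] at this
    generalize Q ((0 : F) • x₀) = a at this
    revert this
    revert a
    decide
  have hinj : ∀ μ ν : F, (∀ t : F, Q ((t * μ) • x₀) = Q ((t * ν) • x₀)) → μ = ν := by
    intro μ ν h
    by_contra hne
    have hne' : μ + ν ≠ 0 := by
      intro h0
      apply hne
      have := CharTwo.add_self_eq_zero ν
      rw [← h0] at this
      exact (add_right_cancel this).symm
    have h2 := h (μ + ν)⁻¹
    have h3 := hadd ((μ + ν)⁻¹ * μ) ((μ + ν)⁻¹ * ν)
    rw [← mul_add, inv_mul_cancel₀ hne', h1, h2] at h3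
    generalize Q (((μ + ν)⁻¹ * ν) • x₀) = a at h3
    revert h3
    revert a
    decide
  -- one automorphism for each `μ` with `Q (μ x₀) = 1`
  have hex : ∀ μ : {μ : F // Q (μ • x₀) = 1}, ∃ g σ, P g σ ∧ g x₀ = μ.1 • x₀ :=
    fun μ => htr x₀ (μ.1 • x₀) hx₀ μ.2
  choose g σ hPg hg using hex
  have hσ : ∀ (μ : {μ : F // Q (μ • x₀) = 1}) (t : F), Q ((σ μ t * μ.1) • x₀) = Q (t • x₀) := by
    intro μ t
    rw [← hPQ _ _ (hPg μ) (t • x₀), hP _ _ (hPg μ), hg, smul_smul]
  have hσinj : Function.Injective σ := by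
    intro μ ν h
    apply Subtype.ext
    apply hinj
    intro t
    have a := hσ μ ((σ μ).symm t)
    have b := hσ ν ((σ μ).symm t)
    rw [← h] at b
    rw [(σ μ).apply_symm_apply] at a b
    rw [a, b]
  have hfin : Finite (F ≃+* F) :=
    Finite.of_injective (fun e : F ≃+* F => (e : F → F)) DFunLike.coe_injective
  have hle := Nat.card_le_card_of_injective σ hσinj
  obtain ⟨a, ha, haut⟩ := card_ringAut_le F
  -- half of the elements
  have hhalf : Fintype.card F = 2 * Nat.card {μ : F // Q (μ • x₀) = 1} := by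
    suffices h : Fintype.card F = Fintype.card (Bool × {μ : F // Q (μ • x₀) = 1}) by
      rw [h, Fintype.card_prod, Fintype.card_bool, Nat.card_eq_fintype_card]
    apply Fintype.card_congr
    refine ⟨fun μ => if h : Q (μ • x₀) = 1 then (true, ⟨μ, h⟩) else (false, ⟨μ + 1, ?_⟩),
      fun p => if p.1 then p.2.1 else p.2.1 + 1, ?_, ?_⟩
    · rw [hadd, h1]
      generalize Q (μ • x₀) = b at h
      revert h
      revert b
      decide
    · intro μ
      by_cases h : Q (μ • x₀) = 1
      · simp [h]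
      · simp only [h, dite_false]
        simp [add_assoc, CharTwo.add_self_eq_zero]
    · rintro ⟨b, μ, h⟩
      cases b
      · have h2 : ¬ Q ((μ + 1) • x₀) = 1 := by
          rw [hadd, h1, h]
          decide
        simp [h2, add_assoc, CharTwo.add_self_eq_zero]
      · simp [h]
  have ha2 : 2 ^ a ≤ 2 * a := by
    rw [← ha, hhalf]
    exact Nat.mul_le_mul_left 2 (hle.trans haut)
  have ha3 : a ≤ 2 := by
    by_contra hcon
    push Not at hcon
    have : ∀ n, 3 ≤ n → 2 * n < 2 ^ n := by
      intro n hn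
      induction n, hn using Nat.le_induction with
      | base => norm_num
      | succ n hn ih => rw [pow_succ]; omega
    exact absurd (this a hcon) (by omega)
  have ha1 : 1 ≤ a := by
    rcases Nat.eq_zero_or_pos a with h | h
    · rw [h, pow_zero] at ha
      have := Fintype.one_lt_card (α := F)
      omega
    · exact h
  interval_cases a
  · left
    rw [ha]; norm_num
  · right
    refine ⟨by rw [ha]; norm_num, ?_⟩
    have hc : Nat.card {μ : F // Q (μ • x₀) = 1} = 2 := by
      rw [ha] at hhalf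
      omega
    obtain ⟨μ, hμ⟩ : ∃ μ : {μ : F // Q (μ • x₀) = 1}, μ ≠ ⟨1, h1⟩ := by
      by_contra hcon
      push Not at hcon
      have : Nat.card {μ : F // Q (μ • x₀) = 1} ≤ 1 := by
        rw [Finite.card_le_one_iff_subsingleton]
        exact ⟨fun x y => (hcon x).trans (hcon y).symm⟩
      omega
    refine ⟨g μ, σ μ, hPg μ, ?_⟩
    intro hr
    apply hμ
    apply Subtype.ext
    apply hinj
    intro t
    have := hσ μ t
    rw [hr] at this
    rw [mul_one]
    exact this

end Pool.Agent.SIT
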