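import Pool.Agent.SIT.LinSG
import Pool.Agent.SIT.LinC
import Pool.Agent.SIT.LinD2
import Pool.Agent.SIT.LinD4

/-!
# Dimension one: no quadrics
-/

namespace Pool.Agent.SIT

open Finset

section

variable {F : Type*} [Field F] {V : Type*} [AddCommGroup V] [Module F V]
  {f : V → ZMod 2} {P : (V ≃+ V) → V → (F ≃+* F) → Prop}

/-- A member with the same linear part and a different translation gives a period. -/
lemma SG.eq_of_linear (h : SG f P) {g : V ≃+ V} {t t' : V} {σ σ' : F ≃+* F}
    (hg : P g t σ) (hg' : P g t' σ') (x : V) : f (x + (t' - t)) = f x := by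
  have h1 : ∃ y, g y + t = x := ⟨g.symm (x - t), by rw [g.apply_symm_apply, sub_add_cancel]⟩
  obtain ⟨y, rfl⟩ := h1
  have h2 : g y + t + (t' - t) = g y + t' := by abel
  rw [h2, h.pres hg', h.pres hg]

end

section

variable {F : Type*} [Field F] [Fintype F] [CharP F 2] {V : Type*} [AddCommGroup V] [Module F V]
  [Fintype V] {f : V → ZMod 2} {P : (V ≃+ V) → V → (F ≃+* F) → Prop}

/-- the numbers of zeros and ones of a nondegenerate quadratic function -/
lemma card_values {β : V → V → ZMod 2}
    (hβ : ∀ x a b, f (x + a + b) + f (x + a) + f (x + b) + f x = β a b)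
    (hnd : ∀ a, (∀ b, β a b = 0) → a = 0) :
    4 * ((univ.filter (fun x => f x = 1)).card * (univ.filter (fun x => f x = 0)).card) =
      Fintype.card V * Fintype.card V ∨
    4 * ((univ.filter (fun x => f x = 1)).card * (univ.filter (fun x => f x = 0)).card) +
      Fintype.card V = Fintype.card V * Fintype.card V := by
  classical
  have h4 : ∀ a b c d e : ZMod 2, a + b + c + d = e → a = b + c + d + e := by decide
  have hsym : ∀ a b, β a b = β b a := by
    intro a b
    rw [← hβ 0 a b, ← hβ 0 b a]
    have : (0 : V) + a + b = 0 + b + a := by abel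
    rw [this]
    ring
  have hadd : ∀ a b c, β a (b + c) = β a b + β a c := by
    intro a b c
    rw [← hβ 0 a (b + c), ← hβ b a c, ← hβ 0 a b]
    have e1 : (0 : V) + a + (b + c) = b + a + c := by abel
    have e2 : (0 : V) + (b + c) = b + c := by abel
    have e3 : (0 : V) + a + b = b + a := by abel
    have e4 : (0 : V) + b = b := by abel
    rw [e1, e2, e3, e4]
    linear_combination (-(f (b + a)) - f b) * (by rfl : (2 : ZMod 2) = 0)
  obtain ⟨K, hK, hS⟩ := LinD.gauss_sq (fun x => f x + f 0) β (by
      intro x y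
      have h1 := h4 _ _ _ _ _ (hβ 0 x y)
      simp only [zero_add] at h1
      change f (x + y) + f 0 = f x + f 0 + (f y + f 0) + β x y
      rw [h1]
      linear_combination (by rfl : (0 : ZMod 2) = 0))
    (by
      intro x y z
      rw [hsym, hadd, hsym z x, hsym z y]) hadd
  have hK1 : Nat.card K = 1 := by
    have : K = ⊥ := by
      rw [eq_bot_iff]
      intro z hz
      rw [hK] at hz
      rw [AddSubgroup.mem_bot]
      apply hnd
      intro b
      rw [hsym]
      exact hz b
    rw [this]
    exact AddSubgroup.card_bot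
  rw [hK1, Nat.card_eq_fintype_card] at hS
  -- the sum of the signs
  have hsum : ∑ x : V, sgn (f x + f 0) = sgn (f 0) *
      (((univ.filter (fun x => f x = 0)).card : ℤ) - (univ.filter (fun x => f x = 1)).card) := by
    have h1 : ∀ x : V, sgn (f x + f 0) =
        sgn (f 0) * ((if f x = 0 then 1 else 0) - (if f x = 1 then 1 else 0)) := by
      intro x
      rw [sgn_add, mul_comm]
      rcases zmod2_cases (f x) with h | h
      · simp [h, sgn_zero]
      · simp [h, sgn_one]
    rw [Finset.sum_congr rfl (fun x _ => h1 x), ← Finset.mul_sum, Finset.sum_sub_distrib,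
      Finset.sum_boole, Finset.sum_boole]
  have htot : (univ.filter (fun x => f x = 1)).card + (univ.filter (fun x => f x = 0)).card =
      Fintype.card V := by
    rw [← Finset.card_union_of_disjoint, ← Finset.card_univ]
    · congr 1
      ext x
      simp only [mem_union, mem_filter, mem_univ, true_and, iff_true]
      exact (zmod2_cases (f x)).symm
    · rw [Finset.disjoint_filter]
      intro x _ h1 h2
      rw [h1] at h2
      exact absurd h2 (by decide)
  generalize (univ.filter (fun x => f x = 1)).card = p at *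
  generalize (univ.filter (fun x => f x = 0)).card = r at *
  rw [hsum] at hS
  have h5 : sgn (f 0) * sgn (f 0) = 1 := sgn_mul_self _
  have h6 : sgn (f 0) * ((r : ℤ) - p) * (sgn (f 0) * ((r : ℤ) - p)) = ((r : ℤ) - p) * (r - p) := by
    linear_combination ((r : ℤ) - p) * (r - p) * h5
  rw [h6, Nat.cast_one, mul_one] at hS
  have h7 : (Fintype.card V : ℤ) = p + r := by
    rw [← htot]
    push_cast
    ring
  rcases hS with hS | hS
  · left
    zify
    rw [h7]
    linear_combination (-1) * hS
  · right
    zify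
    have h8 : (4 * ((p : ℤ) * r)) + ((r : ℤ) - p) * (r - p) = (p + r) * (p + r) := by ring
    rw [h7] at hS ⊢
    linear_combination h8 - hS

theorem lin_D3 (h : SG f P) {β : V → V → ZMod 2}
    (hβ : ∀ x a b, f (x + a + b) + f (x + a) + f (x + b) + f x = β a b)
    (hnd : ∀ a, (∀ b, β a b = 0) → a = 0) {e : V} (he0 : e ≠ 0) (he : ∀ x, ∃ c : F, x = c • e)
    (hcard : 16 ≤ Fintype.card V) : False := by
  classical
  -- `|V| = |F| = 2 ^ a`
  have hVF : Fintype.card V = Fintype.card F := by
    symm
    apply Fintype.card_of_bijective (f := fun c : F => c • e)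
    constructor
    · intro c d hcd
      have h1 : (c - d) • e = 0 := by
        rw [sub_smul]
        exact sub_eq_zero.2 hcd
      rcases smul_eq_zero.1 h1 with h2 | h2
      · exact sub_eq_zero.1 h2
      · exact absurd h2 he0
    · intro x
      obtain ⟨c, hc⟩ := he x
      exact ⟨c, hc.symm⟩
  obtain ⟨a, ha, -⟩ := card_ringAut_le F
  have haut : Nat.card (F ≃+* F) = a := Lin.card_aut ha
  have hfin : Finite (F ≃+* F) :=
    Finite.of_injective (fun σ : F ≃+* F => (σ : F → F)) DFunLike.coe_injective
  let _ : Fintype (F ≃+* F) := Fintype.ofFinite _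
  rw [Nat.card_eq_fintype_card] at haut
  have ha4 : 4 ≤ a := by
    by_contra hcon
    have h1 : 2 ^ a ≤ 2 ^ 3 := Nat.pow_le_pow_right (by norm_num) (by omega)
    omega
  set A := univ.filter (fun x => f x = 1) with hA
  set B := univ.filter (fun x => f x = 0) with hB
  have hvals := card_values hβ hnd
  rw [← hA, ← hB] at hvals
  have hAB : 0 < A.card * B.card := by
    rcases hvals with h1 | h1
    · nlinarith
    · nlinarith
  obtain ⟨x₀, hx₀⟩ : A.Nonempty := by
    rw [← Finset.card_pos]
    exact Nat.pos_of_mul_pos_right hAB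
  obtain ⟨y₀, hy₀⟩ : B.Nonempty := by
    rw [← Finset.card_pos]
    exact Nat.pos_of_mul_pos_left hAB
  have hx₀' : f x₀ = 1 := by simpa [hA] using hx₀
  have hy₀' : f y₀ = 0 := by simpa [hB] using hy₀
  have hex : ∀ p : V × V, p ∈ A ×ˢ B → ∃ (q : F × (F ≃+* F)), q.1 ≠ 0 ∧ ∃ g t, P g t q.2 ∧
      g x₀ + t = p.1 ∧ g y₀ + t = p.2 ∧ g e = q.1 • e := by
    intro p hp
    rw [mem_product] at hp
    have h1 : f p.1 = 1 := by simpa [hA] using hp.1
    have h2 : f p.2 = 0 := by simpa [hB] using hp.2
    obtain ⟨g, t, σ, hg, h3, h4⟩ := h.trans x₀ y₀ p.1 p.2 (by rw [hx₀', h1]) (by rw [hy₀', h2])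
      (by rw [hx₀', hy₀']; decide)
    obtain ⟨c, hc⟩ := he (g e)
    refine ⟨(c, σ), ?_, g, t, hg, h3, h4, hc⟩
    rintro rfl
    rw [zero_smul] at hc
    exact he0 ((map_eq_zero_iff g g.injective).1 hc)
  choose! φ hφ0 G T hP hG1 hG2 hG3 using hex
  -- a semilinear map is determined by its value at `e`
  have hdet : ∀ {g g' : V ≃+ V} {t t' : V} {σ : F ≃+* F} {c : F}, P g t σ → P g' t' σ →
      g e = c • e → g' e = c • e → g = g' := by
    intro g g' t t' σ c hg hg' h1 h2
    ext x
    obtain ⟨d, rfl⟩ := he x
    rw [h.semi hg, h.semi hg', h1, h2]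
  have hinj : ∀ p ∈ A ×ˢ B, ∀ p' ∈ A ×ˢ B, φ p = φ p' → p = p' := by
    intro p hp p' hp' hpp
    have h1 := hP p hp
    have h2 := hP p' hp'
    have h3 := hG3 p hp
    have h4 := hG3 p' hp'
    rw [← hpp] at h2 h4
    have h5 : G p = G p' := hdet h1 h2 h3 h4
    rw [← h5] at h2
    have h6 : T p' - T p = 0 := by
      apply hnd
      intro b
      have h7 := h.eq_of_linear h1 h2
      rw [← hβ 0]
      have e1 : (0 : V) + (T p' - T p) + b = 0 + b + (T p' - T p) := by abel
      rw [e1, h7, h7]
      linear_combination (f (0 + b) + f 0) * (by rfl : (2 : ZMod 2) = 0)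
    have h8 : T p' = T p := sub_eq_zero.1 h6
    apply Prod.ext
    · rw [← hG1 p hp, ← hG1 p' hp', ← h5, h8]
    · rw [← hG2 p hp, ← hG2 p' hp', ← h5, h8]
  set S : Finset (F × (F ≃+* F)) := (univ.erase (0 : F)) ×ˢ univ with hS
  have hScard : S.card = (Fintype.card F - 1) * a := by
    rw [hS, Finset.card_product, Finset.card_erase_of_mem (mem_univ _), Finset.card_univ,
      Finset.card_univ, haut]
  have hmaps : ∀ p ∈ A ×ˢ B, φ p ∈ S := by
    intro p hp
    rw [hS, mem_product, mem_erase]
    exact ⟨⟨hφ0 p hp, mem_univ _⟩, mem_univ _⟩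
  have hle : (A ×ˢ B).card ≤ S.card := Finset.card_le_card_of_injOn φ hmaps hinj
  rw [Finset.card_product, hScard] at hle
  have hF1 : Fintype.card V = (Fintype.card F - 1) + 1 := by
    rw [hVF]
    have : 0 < Fintype.card F := Fintype.card_pos
    omega
  have hgrow : ∀ x : ℕ, 5 ≤ x → 4 * x < 2 ^ x := by
    intro x hx
    induction x, hx using Nat.le_induction with
    | base => norm_num
    | succ n hn ih => rw [pow_succ]; omega
  have ha' : a = 4 := by
    by_contra hcon
    have h5 := hgrow a (by omega)
    rw [← ha, ← hVF] at h5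
    generalize Fintype.card F - 1 = N at *
    rw [hF1] at hvals h5 hcard
    rcases hvals with h1 | h1
    · nlinarith
    · nlinarith
  subst ha'
  have hF16 : Fintype.card F = 16 := by rw [ha]; norm_num
  rw [hF16] at hle hScard hVF
  rw [hVF] at hvals
  have h60 : A.card * B.card = 60 := by omega
  -- surjectivity
  have himg : (A ×ˢ B).image φ = S := by
    apply Finset.eq_of_subset_of_card_le
    · intro q hq
      rw [Finset.mem_image] at hq
      obtain ⟨p, hp, rfl⟩ := hq
      exact hmaps p hp
    · rw [Finset.card_image_of_injOn hinj, hScard, Finset.card_product, h60]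
  obtain ⟨κ, hκ⟩ := IsCyclic.exists_generator (α := Fˣ)
  have hκS : ((κ : F), RingEquiv.refl F) ∈ S := by
    rw [hS, mem_product, mem_erase]
    exact ⟨⟨κ.ne_zero, mem_univ _⟩, mem_univ _⟩
  rw [← himg, Finset.mem_image] at hκS
  obtain ⟨p, hp, hpκ⟩ := hκS
  have h1 := hP p hp
  have h3 := hG3 p hp
  rw [hpκ] at h1 h3
  have hmul : ∀ x, G p x = (κ : F) • x := by
    intro x
    obtain ⟨c, rfl⟩ := he x
    rw [h.semi h1, h3]
    change c • (κ : F) • e = _
    rw [smul_smul, smul_smul, mul_comm]
  -- the fixed point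
  have hκ1 : (κ : F) ≠ 1 := by
    intro h5
    have h6 : κ = 1 := Units.ext h5
    have h7 : Fintype.card Fˣ = 15 := by rw [Fintype.card_units, hF16]
    have h8 : ∀ u : Fˣ, u = 1 := by
      intro u
      have := hκ u
      rw [h6, Subgroup.zpowers_one_eq_bot, Subgroup.mem_bot] at this
      exact this
    have h9 : Fintype.card Fˣ ≤ 1 := Fintype.card_le_one_iff.2 (fun u v => by rw [h8 u, h8 v])
    omega
  have hκ1' : (1 : F) - κ ≠ 0 := fun h5 => hκ1 (sub_eq_zero.1 h5).symm
  set z := ((1 : F) - κ)⁻¹ • T p with hz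
  have hfix : (κ : F) • z + T p = z := by
    have h5 : T p = ((1 : F) - κ) • z := by
      rw [hz, smul_smul, mul_inv_cancel₀ hκ1', one_smul]
    rw [h5, ← add_smul]
    have h6 : (κ : F) + (1 - κ) = 1 := by ring
    rw [h6, one_smul]
  have hstep : ∀ x, f (z + (κ : F) • x) = f (z + x) := by
    intro x
    have h5 := h.pres h1 (z + x)
    rw [hmul, smul_add] at h5
    have h6 : (κ : F) • z + (κ : F) • x + T p = z + (κ : F) • x := by
      calc (κ : F) • z + (κ : F) • x + T p = ((κ : F) • z + T p) + (κ : F) • x := by abel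
        _ = _ := by rw [hfix]
    rw [h6] at h5
    exact h5
  have hpow : ∀ (n : ℕ) x, f (z + ((κ ^ n : Fˣ) : F) • x) = f (z + x) := by
    intro n
    induction n with
    | zero => intro x; rw [pow_zero, Units.val_one, one_smul]
    | succ n ih =>
      intro x
      rw [pow_succ', Units.val_mul, mul_smul, hstep, ih]
  have hconst : ∀ x, x ≠ z → f x = f (z + e) := by
    intro x hx
    obtain ⟨c, hc⟩ := he (x - z)
    have hc0 : c ≠ 0 := by
      rintro rfl
      rw [zero_smul, sub_eq_zero] at hc
      exact hx hc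
    obtain ⟨n, hn⟩ := (Subgroup.mem_zpowers_iff.1 (hκ (Units.mk0 c hc0)))
    obtain ⟨m, hm⟩ : ∃ m : ℕ, κ ^ m = Units.mk0 c hc0 := by
      have h5 := hκ (Units.mk0 c hc0)
      rw [← mem_powers_iff_mem_zpowers] at h5
      exact h5
    have h6 := hpow m e
    rw [hm, Units.val_mk0, ← hc, add_sub_cancel] at h6
    exact h6
  -- count
  have hcases : A.card ≤ 1 ∨ B.card ≤ 1 := by
    rcases zmod2_cases (f (z + e)) with h5 | h5
    · left
      have : A ⊆ {z} := by
        intro x hx
        rw [Finset.mem_singleton]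
        by_contra hxz
        have h6 : f x = 1 := by simpa [hA] using hx
        rw [hconst x hxz, h5] at h6
        exact absurd h6 (by decide)
      exact (Finset.card_le_card this).trans (by simp)
    · right
      have : B ⊆ {z} := by
        intro x hx
        rw [Finset.mem_singleton]
        by_contra hxz
        have h6 : f x = 0 := by simpa [hB] using hx
        rw [hconst x hxz, h5] at h6
        exact absurd h6 (by decide)
      exact (Finset.card_le_card this).trans (by simp)
  have hA16 : A.card ≤ 16 := by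
    rw [← hVF]
    exact Finset.card_le_univ _
  have hB16 : B.card ≤ 16 := by
    rw [← hVF]
    exact Finset.card_le_univ _
  rcases hcases with h5 | h5
  · nlinarith
  · nlinarith

end

end Pool.Agent.SIT
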