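import Pool.Agent.SIT.GBase
import Pool.Agent.SIT.LinS2
import Pool.Agent.SIT.LinS4G

/-!
# The groups between `ASL(V)` and `AΓL(V)`: all strongly incidence-transitive codes
-/

namespace Pool.Agent.SIT.Gen

open Finset

variable {F : Type*} [Field F] {V : Type*} [AddCommGroup V] [Module F V]

/-- `h` is an affine map whose linear part is semilinear with field automorphism `σ`. -/
def Acts (F : Type*) [Field F] {V : Type*} [AddCommGroup V] [Module F V] (σ : F ≃+* F)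
    (h : Equiv.Perm V) : Prop :=
  ∃ (g : V ≃+ V) (t : V), (∀ (c : F) (x : V), g (c • x) = σ c • g x) ∧ ∀ x, h x = g x + t

/-- `ASL(V) ≤ G ≤ AΓL(V)`: every member of `G` is affine and semilinear over `F`, and `G` contains
all translations and all transvections. -/
structure LinG (F : Type*) [Field F] {V : Type*} [AddCommGroup V] [Module F V]
    (G : Subgroup (Equiv.Perm V)) : Prop where
  semi : ∀ h ∈ G, ∃ σ : F ≃+* F, Acts F σ h
  trans : ∀ t : V, Equiv.addRight t ∈ G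
  tv : ∀ (φ : Module.Dual F V) (v : V), φ v = 0 → ∀ g : Equiv.Perm V, (∀ x, g x = x + φ x • v) →
    g ∈ G

section Words

variable [DecidableEq V] [Fintype V]

/-- `γ` is an affine subspace over `F`. -/
def FlatWord (F : Type*) [Field F] {V : Type*} [AddCommGroup V] [Module F V] (γ : Finset V) :
    Prop := ∃ (W : Submodule F V) (v : V), ∀ x, x ∈ γ ↔ x + v ∈ W

/-- `γ` is an affine hyperplane over `F_2`. -/
def Hyp2Word {V : Type*} [AddCommGroup V] (γ : Finset V) : Prop :=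
  ∃ (W : AddSubgroup V) (v : V), W.index = 2 ∧ ∀ x, x ∈ γ ↔ x + v ∈ W

/-- `γ` is an affine hyperplane over the subfield of order 4 of `F`. -/
def Hyp4Word (F : Type*) [Field F] {V : Type*} [AddCommGroup V] [Module F V] (γ : Finset V) :
    Prop :=
  ∃ (W : AddSubgroup V) (v : V), W.index = 4 ∧ (∀ c : F, c ^ 4 = c → ∀ w ∈ W, c • w ∈ W) ∧
    ∀ x, x ∈ γ ↔ x + v ∈ W

/-- `γ` is a quadric over `F_2` (of size less than `|V| / 2`), whose polar form is nonzero, is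
compatible with the multiplication by `F`, and has only periods of `γ` in its radical. -/
def QuadWord (F : Type*) [Field F] {V : Type*} [AddCommGroup V] [Module F V] [DecidableEq V]
    [Fintype V] (γ : Finset V) : Prop :=
  2 * γ.card < Fintype.card V ∧ ∃ β : V → V → ZMod 2,
    (∀ x a b, ind γ (x + a + b) + ind γ (x + a) + ind γ (x + b) + ind γ x = β a b) ∧
    (∀ (c : F) a b, β (c • a) b = β a (c • b)) ∧ (∃ a b, β a b ≠ 0) ∧
    ∀ r, (∀ y, β r y = 0) → ∀ x, ind γ (x + r) = ind γ x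

/-- The codewords for a group `G` with `ASL(V) ≤ G ≤ AΓL(V)`. -/
def LinWord (F : Type*) [Field F] [Fintype F] {V : Type*} [AddCommGroup V] [Module F V]
    [DecidableEq V] [Fintype V] (G : Subgroup (Equiv.Perm V)) (γ : Finset V) : Prop :=
  FlatWord F γ ∨
  (Fintype.card F = 4 ∧ Hyp2Word γ ∧ ∃ h ∈ G, ∃ σ ≠ RingEquiv.refl F, Acts F σ h) ∨
  (Fintype.card F = 16 ∧ Hyp4Word F γ ∧ ∀ σ : F ≃+* F, ∃ h ∈ G, Acts F σ h) ∨
  (Fintype.card F = 4 ∧ QuadWord F γ ∧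
    ∃ h ∈ G, act h γ = γ ∧ ∃ σ ≠ RingEquiv.refl F, Acts F σ h)

end Words

variable {G : Subgroup (Equiv.Perm V)}

lemma LinG.semiG (hG : LinG F G) : SemiG F G := by
  intro h hh
  obtain ⟨σ, g, t, h1, h2⟩ := hG.semi h hh
  exact ⟨g, t, σ, h1, h2⟩

/-- The linear parts of `G`. -/
def PL1 (G : Subgroup (Equiv.Perm V)) (g : V ≃+ V) (σ : F ≃+* F) : Prop := ∃ t, PG G g t σ

lemma LinG.pg_tr (hG : LinG F G) {g : V ≃+ V} {t : V} {σ : F ≃+* F}
    (h : PG G g t σ) (t' : V) : PG G g t' σ := by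
  obtain ⟨h1, a, ha, h2⟩ := h
  refine ⟨h1, Equiv.addRight (-t + t') * a, G.mul_mem (hG.trans _) ha, ?_⟩
  intro x
  change a x + (-t + t') = g x + t'
  rw [h2]
  abel

lemma LinG.pg_one (hG : LinG F G) (t : V) :
    PG G (AddEquiv.refl V) t (RingEquiv.refl F) :=
  ⟨fun _ _ => rfl, _, hG.trans t, fun _ => rfl⟩

lemma LinG.pg_tv (hG : LinG F G) (φ : Module.Dual F V) (v : V) (h : φ v = 0)
    (t : V) : PG G (LinS.tE φ v h) t (RingEquiv.refl F) := by
  apply hG.pg_tr (t := 0)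
  refine ⟨?_, (LinS.tE φ v h).toEquiv, ?_, ?_⟩
  · intro c x
    rw [LinS.tE_apply, LinS.tE_apply, map_smul, smul_add, smul_assoc]
    rfl
  · exact hG.tv φ v h _ (fun x => LinS.tE_apply φ v h x)
  · intro x
    rw [add_zero]
    rfl

lemma LinG.grp (h2 : ∀ x : V, x + x = 0) (hG : LinG F G) : LinS.Grp (F := F) (PL1 G) where
  semi := by
    rintro g σ ⟨t, h, -⟩ c x
    exact h c x
  one := ⟨0, hG.pg_one 0⟩
  mul := by
    rintro g σ h τ ⟨t, ht⟩ ⟨t', ht'⟩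
    exact ⟨_, PG_mul ht' ht⟩
  inv := by
    rintro g σ ⟨t, ht⟩
    exact ⟨_, PG_inv h2 ht⟩
  tv := fun φ v h => ⟨0, hG.pg_tv φ v h 0⟩

lemma acts_pg {h : Equiv.Perm V} (hh : h ∈ G) {σ : F ≃+* F} (ha : Acts F σ h) :
    ∃ g t, PG G g t σ ∧ ∀ x, h x = g x + t := by
  obtain ⟨g, t, h1, h2⟩ := ha
  exact ⟨g, t, ⟨h1, h, hh, h2⟩, h2⟩

lemma exists_ker_of_finrank [FiniteDimensional F V] (hdim : 2 ≤ Module.finrank F V)
    (φ : Module.Dual F V) : ∃ v, v ≠ 0 ∧ φ v = 0 := by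
  have h1 := LinearMap.finrank_range_add_finrank_ker φ
  have h2 : Module.finrank F (LinearMap.range φ) ≤ 1 := by
    have := Submodule.finrank_le (LinearMap.range φ)
    rwa [Module.finrank_self] at this
  have h3 : 0 < Module.finrank F (LinearMap.ker φ) := by omega
  have h4 : LinearMap.ker φ ≠ ⊥ := by
    intro h
    rw [h, finrank_bot] at h3
    omega
  obtain ⟨v, hv, hv0⟩ := Submodule.exists_mem_ne_zero_of_ne_bot h4
  exact ⟨v, hv0, hv⟩

variable [DecidableEq V]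

/-- Cosets of subgroups: transitivity on the complement of the subgroup suffices. -/
lemma coset_sit (h2 : ∀ x : V, x + x = 0) (htr : ∀ {g : V ≃+ V} {t : V} {σ : F ≃+* F},
      PG G g t σ → ∀ t', PG G g t' σ) (W : AddSubgroup V) {γ : Finset V} {v₀ : V}
    (hγ : ∀ x, x ∈ γ ↔ x + v₀ ∈ W)
    (h : ∀ x, x ∉ W → ∀ y, y ∉ W → ∃ g, ∃ σ : F ≃+* F, PL1 G g σ ∧ (∀ z, g z ∈ W ↔ z ∈ W) ∧
      g x = y) :
    ∀ u ∈ γ, ∀ u' ∉ γ, ∀ w ∈ γ, ∀ w' ∉ γ, ∃ g ∈ G, act g γ = γ ∧ g u = w ∧ g u' = w' := by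
  have h3 : ∀ x y : V, x + y + y = x := fun x y => by rw [add_assoc, h2, add_zero]
  have hmem : ∀ {u : V}, u ∈ γ → ∀ x, x ∈ γ ↔ x + u ∈ W := by
    intro u hu x
    rw [hγ] at hu ⊢
    have e : x + u = (x + v₀) + (u + v₀) := by
      calc x + u = x + u + (v₀ + v₀) := by rw [h2, add_zero]
        _ = _ := by abel
    rw [e]
    exact (AddSubgroup.add_mem_cancel_right W hu).symm
  intro u hu u' hu' w hw w' hw'
  obtain ⟨g, σ, ⟨t, hg⟩, h4, h5⟩ := h (u' + u) (fun h0 => hu' ((hmem hu u').2 h0)) (w' + w)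
    (fun h0 => hw' ((hmem hw w').2 h0))
  have hg' := PG_toP (htr hg (g u + w))
  have ha : ∀ x, toP g (g u + w) x = g (x + u) + w := by
    intro x
    rw [toP_apply, map_add, add_assoc]
  refine ⟨toP g (g u + w), hg', ?_, ?_, ?_⟩
  · rw [act_eq_iff]
    intro x
    rw [hmem hw, hmem hu x, ha, h3]
    exact h4 _
  · rw [ha, h2, map_zero, zero_add]
  · rw [ha, h5, h3]

variable [Fintype F] [CharP F 2] [Fintype V]

/-- Sufficiency. -/
theorem lin_suf (hG : LinG F G) (hdim : 2 ≤ Module.finrank F V) {γ : Finset V}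
    (h : LinWord F G γ) : IsSITCode G γ.card (Orb G γ) := by
  have h2 : ∀ x : V, x + x = 0 := add_self_of_char F V
  have hd := exists_ker_of_finrank (F := F) hdim
  have htr : ∀ {g : V ≃+ V} {t : V} {σ : F ≃+* F}, PG G g t σ → ∀ t', PG G g t' σ :=
    fun h t' => hG.pg_tr h t'
  apply orbit_sit
  rcases h with ⟨W, v, hγ⟩ | ⟨hF, ⟨W, v, hW, hγ⟩, a, ha, σ, hσ, hact⟩ |
    ⟨hF, ⟨W, v, hW, hW', hγ⟩, hall⟩ | ⟨hF, ⟨-, β, hb, hcomp, -, hR⟩, a, ha, haγ, σ, hσ, hact⟩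
  · apply coset_sit h2 htr W.toAddSubgroup hγ
    intro x hx y hy
    obtain ⟨g, hg, h3, h4⟩ := LinS.lin_S1 (hG.grp h2) hd W hx hy
    exact ⟨g, RingEquiv.refl F, hg, h3, h4⟩
  · apply coset_sit h2 htr W hγ
    intro x hx y hy
    obtain ⟨g, t, hg, -⟩ := acts_pg ha hact
    exact LinS.lin_S2 (hG.grp h2) hd hF W hW ⟨g, σ, ⟨t, hg⟩, hσ⟩ hx hy
  · apply coset_sit h2 htr W hγ
    intro x hx y hy
    apply LinS.lin_S3 (hG.grp h2) hd hF W hW hW' _ hx hy
    intro σ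
    obtain ⟨a, ha, hact⟩ := hall σ
    obtain ⟨g, t, hg, -⟩ := acts_pg ha hact
    exact ⟨g, t, hg⟩
  · intro u hu u' hu' w hw w' hw'
    have e1 : ind γ u = ind γ w := by rw [ind_eq_one.2 hu, ind_eq_one.2 hw]
    have e2 : ind γ u' = ind γ w' := by
      rw [ind_eq_zero_iff.2 hu', ind_eq_zero_iff.2 hw']
    have e3 : ind γ u ≠ ind γ u' := by
      rw [ind_eq_one.2 hu, ind_eq_zero_iff.2 hu']
      decide
    obtain ⟨g, t, σ, hg, h1, h3, h4⟩ := S4.lin_S4 (F := F) hF hb hcomp hR (P := PG G)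
      (fun h c x => h.1 c x) (fun h h' => PG_mul h h') (fun r => hG.pg_one r)
      (fun φ v h t => hG.pg_tv φ v h t) (by
        obtain ⟨g, t, hg, hgt⟩ := acts_pg ha hact
        refine ⟨g, t, σ, hg, hσ, fun x => ?_⟩
        rw [← hgt]
        exact (ind_act_iff a γ γ).2 haγ x) e1 e2 e3
    exact ⟨toP g t, PG_toP hg, (ind_act_iff _ _ _).1 h1, h3, h4⟩

/-- Necessity, for any group of semilinear affine maps. -/
theorem semi_nec (hG : SemiG F G) {k : ℕ} (hk : 3 ≤ k) (hk' : 2 * k ≤ Fintype.card V)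
    {C : Set (Finset V)} (hC : IsSITCode G k C) {γ : Finset V} (hγ : γ ∈ C)
    (hF : Fintype.card F ≠ 2) : LinWord F G γ := by
  have h2 : ∀ x : V, x + x = 0 := add_self_of_char F V
  have hcard := hC.card_eq γ hγ
  have hact : ∀ {g t} {σ : F ≃+* F}, PGs G γ g t σ → ∃ h ∈ G, act h γ = γ ∧ Acts F σ h := by
    rintro g t σ ⟨h1, a, ha, h3, h4⟩
    exact ⟨a, ha, act_eq_iff.2 h4, g, t, h1, h3⟩
  rcases nec_semi (sg_of_sit h2 hG hC hγ) (by omega) (by omega) with h | ⟨h4, W, v, h5, h6, g, t,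
    σ, h7, h8⟩ | ⟨h4, W, v, h5, h6, h7, h8⟩ | ⟨β, h4, h5, -, h6, h7, h8, h9⟩
  · exact Or.inl h
  · right; left
    obtain ⟨a, ha, -, h9⟩ := hact h7
    exact ⟨h4, ⟨W, v, h5, h6⟩, a, ha, σ, h8, h9⟩
  · right; right; left
    refine ⟨h4, ⟨W, v, h5, h6, h7⟩, fun σ => ?_⟩
    obtain ⟨g, t, hg⟩ := h8 σ
    obtain ⟨a, ha, -, h9⟩ := hact hg
    exact ⟨a, ha, h9⟩
  · right; right; right
    rcases h9 with h9 | ⟨h9, g, t, σ, h10, h11⟩
    · exact absurd h9 hF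
    · obtain ⟨a, ha, h12, h13⟩ := hact h10
      exact ⟨h9, ⟨h8, β, h4, h5, h7, fun r hr => (h6 r).2 hr⟩, a, ha, h12, σ, h11, h13⟩

/-- **All codes for the groups between `ASL(V)` and `AΓL(V)`**, `|F| > 2`, `dim V ≥ 2`. -/
theorem lin_main (hG : LinG F G) (hF : Fintype.card F ≠ 2) (hdim : 2 ≤ Module.finrank F V)
    {k : ℕ} (hk : 3 ≤ k) (hk' : 2 * k ≤ Fintype.card V) (C : Set (Finset V)) :
    (IsSITCode G k C ∧ C.Nonempty) ↔
      ∃ γ : Finset V, γ.card = k ∧ C = Orb G γ ∧ LinWord F G γ := by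
  constructor
  · rintro ⟨hC, γ, hγ⟩
    have hcard := hC.card_eq γ hγ
    obtain ⟨u, hu⟩ : ∃ u, u ∈ γ := Finset.card_pos.1 (by omega)
    obtain ⟨u', hu'⟩ : ∃ u', u' ∉ γ := by
      by_contra hcon
      push Not at hcon
      rw [Finset.eq_univ_of_forall hcon, Finset.card_univ] at hcard
      omega
    exact ⟨γ, hcard, hC.eq_orb hγ hu hu', semi_nec hG.semiG hk hk' hC hγ hF⟩
  · rintro ⟨γ, rfl, rfl, h⟩
    exact ⟨lin_suf hG hdim h, γ, 1, G.one_mem, (act_one γ).symm⟩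

end Pool.Agent.SIT.Gen
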