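import Pool.Agent.SIT.SpStd
import Pool.Agent.SIT.SpNec

/-!
# Subgroups of index at most two of the affine symplectic group: the same codes
-/

namespace Pool.Agent.SIT.Idx

open Finset

section Comp

variable {V : Type*} [AddCommGroup V] [Module (ZMod 2) V]

lemma agl_add (g : V ≃ᵃ[ZMod 2] V) (x a : V) : g (x + a) = g x + g.linear a := by
  rw [agl_linear g (x + a), map_add, agl_linear g x]
  abel

lemma QF_comp {f : V → ZMod 2} (hf : QF f) (g : V ≃ᵃ[ZMod 2] V) : QF (fun x => f (g x)) := by
  intro a
  obtain ⟨φ, c, h⟩ := hf (g.linear a)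
  refine ⟨φ.comp (g.linear : V →ₗ[ZMod 2] V), φ (g 0) + c, fun x => ?_⟩
  change f (g (x + a)) + f (g x) = φ (g.linear x) + (φ (g 0) + c)
  rw [agl_add, h, agl_linear g x, map_add]
  ring

lemma Rad_comp {f : V → ZMod 2} (hT : ∀ a, Rad f a → ∀ x, f (x + a) = f x) (g : V ≃ᵃ[ZMod 2] V)
    (a : V) (ha : Rad (fun x => f (g x)) a) : ∀ x, f (g (x + a)) = f (g x) := by
  obtain ⟨c, hc⟩ := ha
  intro x
  rw [agl_add]
  apply hT
  refine ⟨c, fun y => ?_⟩
  have h1 : f (g (g.symm y + a)) + f (g (g.symm y)) = c := hc (g.symm y)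
  rw [agl_add, g.apply_symm_apply] at h1
  exact h1

end Comp

/-- The data of a quadric. -/
lemma quadric_data {n m : ℕ} (h : 2 * m ≤ n) (hm : 1 ≤ m) {γ : Finset (Vec n)}
    (hγ : γ ∈ QuadricCode h) : QF (ind γ) ∧ (∀ a, Rad (ind γ) a → ∀ x, ind γ (x + a) = ind γ x) ∧
      (univ.filter (fun x => ind γ x = 1)).card < (univ.filter (fun x => ind γ x = 0)).card := by
  obtain ⟨g, rfl⟩ := hγ
  have h1 : ind (act g (quadric h)) = fun x => quadForm h (g.symm x) := by
    funext x
    rw [ind]
    split_ifs with hx
    · rw [mem_act', mem_quadric] at hx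
      exact hx.symm
    · rw [mem_act', mem_quadric] at hx
      rcases zmod2_cases (quadForm h (g.symm x)) with h' | h'
      · exact h'.symm
      · exact absurd h' hx
  have hcard : ∀ β : ZMod 2, (univ.filter (fun x : Vec n => quadForm h (g.symm x) = β)).card =
      (univ.filter (fun x : Vec n => quadForm h x = β)).card := by
    intro β
    apply Finset.card_bij (fun x _ => g.symm x)
    · intro x hx
      simpa using hx
    · intro x _ y _ hxy
      exact g.symm.injective hxy
    · intro y hy
      refine ⟨g y, ?_, ?_⟩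
      · simpa using hy
      · exact g.symm_apply_apply y
  rw [h1]
  refine ⟨QF_comp (quadForm_QF h) g.symm, Rad_comp (quadForm_rad h) g.symm, ?_⟩
  rw [hcard, hcard]
  exact quadric_card_lt_compl h hm

variable {r : ℕ}

/-- The codewords of a `G`-SIT code, where `G` is contained in the affine symplectic group. -/
theorem codeword_cases {G : Subgroup (AGL (2 * r))} (hG : ∀ g ∈ G, PB (sfB r) g) {k : ℕ}
    {C : Set (Finset (Vec (2 * r)))} (hC : IsSITCode G k C) (hk : 3 ≤ k)
    (hk' : k ≤ 2 ^ (2 * r - 1)) {γ : Finset (Vec (2 * r))} (hγ : γ ∈ C) :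
    (∀ a, (∀ b, IsPeriod γ b → sf r a b = 0) → IsPeriod γ a) ∨
      (QF (ind γ) ∧ ∀ a b x, ind γ (x + a + b) + ind γ (x + a) + ind γ (x + b) + ind γ x
        = sf r a b) := by
  have hr : 1 ≤ r := by
    rcases Nat.eq_zero_or_pos r with h | h
    · subst h
      norm_num at hk'
      omega
    · exact h
  have h2n : 2 ^ (2 * r) = 2 * 2 ^ (2 * r - 1) := by
    rw [← pow_succ']
    congr 1
    omega
  have hcard := hC.card_eq γ hγ
  have hne : γ.Nonempty := by rw [← Finset.card_pos]; omega
  have hS : SITSet γ := by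
    intro u hu u' hu' w hw w' hw'
    obtain ⟨g, _, h1, h2, h3⟩ := hC.transitive γ hγ u hu u' hu' γ hγ w hw w' hw'
    exact ⟨g.toEquiv, isAff_agl g, (act_eq_iff g γ γ).1 h1, h2, h3⟩
  rcases sit_set_classification hS hne (by omega) with ⟨A, hA⟩ | ⟨m, h, hm, hQ⟩
  · left
    obtain ⟨v, hv⟩ := hne
    have hcA := card_flat hA ⟨v, hv⟩
    rw [hcard] at hcA
    have hmem : ∀ x, v + x ∈ γ ↔ x ∈ A.direction := by
      intro x
      rw [direction_mem_iff hA hv, add_comm v x, add_add_self]
    have hper : ∀ b, IsPeriod γ b ↔ b ∈ A.direction := by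
      intro b
      constructor
      · intro hb
        rw [← hmem]
        exact (hb v).2 hv
      · intro hb x
        rw [direction_mem_iff hA hv, direction_mem_iff hA hv]
        constructor
        · intro h1
          have := A.direction.add_mem h1 hb
          have h2 : x + b + v + b = x + v := by
            calc x + b + v + b = x + v + (b + b) := by abel
              _ = _ := by rw [add_self', add_zero]
          rwa [h2] at this
        · intro h1
          have := A.direction.add_mem h1 hb
          have h2 : x + v + b = x + b + v := by abel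
          rwa [h2] at this
    have hW0 : A.direction ≠ ⊥ := by
      intro h0
      rw [h0, finrank_bot, pow_zero] at hcA
      omega
    have hco : Coiso (sfB r) A.direction := by
      apply sp_flat_nec (symp_sf r) hW0
      intro x hx y hy
      have hx' : v + x ∉ γ := fun h1 => hx ((hmem x).1 h1)
      have hy' : v + y ∉ γ := fun h1 => hy ((hmem y).1 h1)
      obtain ⟨g, hg, h1, h2, h3⟩ := hC.transitive γ hγ v hv (v + x) hx' γ hγ v hv (v + y) hy'
      rw [act_eq_iff] at h1
      have h4 : ∀ z, g (v + z) = v + g.linear z := by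
        intro z
        rw [agl_add, h2]
      refine ⟨g.linear, hG g hg, fun z => ?_, ?_⟩
      · rw [← hmem, ← h4, h1, hmem]
      · rw [h4] at h3
        exact add_left_cancel h3
    intro a ha
    rw [hper]
    apply hco
    intro w hw
    exact ha w ((hper w).2 hw)
  · obtain ⟨hq, hT, hlt⟩ := quadric_data h (by omega) hQ
    obtain ⟨v, hv⟩ := hne
    have hmem1 : ∀ x, ind γ x = 1 ↔ x ∈ γ := fun x => ind_eq_one
    have hmem0 : ∀ x, ind γ x = 0 ↔ x ∉ γ := by
      intro x
      rw [← hmem1]
      rcases zmod2_cases (ind γ x) with h' | h' <;> rw [h'] <;> decide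
    have hper : ∀ b, (∀ x, ind γ (x + b) = ind γ x) ↔ IsPeriod γ b := by
      intro b
      apply forall_congr'
      intro x
      rw [← hmem1, ← hmem1]
      rcases zmod2_cases (ind γ (x + b)) with h1 | h1 <;>
        rcases zmod2_cases (ind γ x) with h2 | h2 <;> rw [h1, h2] <;> decide
    have h5 := sp_nec (symp_sf r) hq hT hlt ⟨v, (hmem1 v).2 hv⟩ (by
      intro u w u' w' hu hw hu' hw'
      obtain ⟨g, hg, h1, h2, h3⟩ := hC.transitive γ hγ u ((hmem1 u).1 hu) u' ((hmem0 u').1 hu')
        γ hγ w ((hmem1 w).1 hw) w' ((hmem0 w').1 hw')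
      rw [act_eq_iff] at h1
      refine ⟨g, hG g hg, fun x => ?_, h2, h3⟩
      have h4 := h1 x
      rw [← hmem1, ← hmem1] at h4
      rcases zmod2_cases (ind γ (g x)) with h6 | h6 <;>
        rcases zmod2_cases (ind γ x) with h7 | h7 <;> rw [h6, h7] at h4 ⊢ <;>
          revert h4 <;> decide)
    rcases h5 with h5 | h5
    · left
      intro a ha
      rw [← hper]
      apply h5
      intro b hb
      exact ha b ((hper b).1 hb)
    · right
      exact ⟨hq, fun a b x => h5 a b x⟩

/-- Every triple `(γ, u, u')` is fixed by a nontrivial transvection. -/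
theorem exists_transvection (hr : 2 ≤ r) {G : Subgroup (AGL (2 * r))}
    (hG : ∀ g ∈ G, PB (sfB r) g) {k : ℕ} {C : Set (Finset (Vec (2 * r)))}
    (hC : IsSITCode G k C) (hk : 3 ≤ k) (hk' : k ≤ 2 ^ (2 * r - 1)) {γ : Finset (Vec (2 * r))}
    (hγ : γ ∈ C) {u u' : Vec (2 * r)} (hu : u ∈ γ) (hu' : u' ∉ γ) :
    ∃ b, b ≠ 0 ∧ ∃ c, act (tauA (symp_sf r) b c) γ = γ ∧ tauA (symp_sf r) b c u = u ∧
      tauA (symp_sf r) b c u' = u' := by
  rcases codeword_cases hG hC hk hk' hγ with h | ⟨-, h⟩
  · -- a nonzero period orthogonal to `u + u'`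
    obtain ⟨b, hb, hb0, hbu⟩ : ∃ b, IsPeriod γ b ∧ b ≠ 0 ∧ sfB r b (u + u') = 0 := by
      by_contra hcon
      push Not at hcon
      by_cases hex : ∃ b, IsPeriod γ b ∧ b ≠ 0
      · obtain ⟨b₀, hb₀, hb₀'⟩ := hex
        have huniq : ∀ a, IsPeriod γ a → a = 0 ∨ a = b₀ := by
          intro a ha
          by_cases ha0 : a = 0
          · exact Or.inl ha0
          right
          have h1 := (zmod2_cases _).resolve_left (hcon a ha ha0)
          have h2 := (zmod2_cases _).resolve_left (hcon b₀ hb₀ hb₀')
          have h3 : IsPeriod γ (a + b₀) := by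
            intro x
            rw [← add_assoc, hb₀, ha]
          have h4 : a + b₀ = 0 := by
            by_contra h5
            apply hcon _ h3 h5
            rw [map_add (sfB r) a b₀, LinearMap.add_apply, h1, h2]
            rfl
          have h6 := add_add_self a b₀
          rw [h4, zero_add] at h6
          exact h6.symm
        have hker : ∀ a, sf r a b₀ = 0 → a = 0 ∨ a = b₀ := by
          intro a ha
          apply huniq
          apply h
          intro b hb
          rcases huniq b hb with rfl | rfl
          · exact map_zero (sfB r a)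
          · exact ha
        obtain ⟨φ, hφ⟩ := exists_dual b₀ hb₀'
        have hinj : Function.Injective
            (fun x : Vec (2 * r) => ((sfB r x b₀, φ x) : ZMod 2 × ZMod 2)) := by
          intro x y hxy
          simp only [Prod.mk.injEq] at hxy
          have h1 : sf r (x + y) b₀ = 0 := by
            change sfB r (x + y) b₀ = 0
            rw [map_add, LinearMap.add_apply, hxy.1, z2_add_self]
          have h2 : x + y = 0 := by
            rcases hker _ h1 with h2 | h2
            · exact h2
            · exfalso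
              have h3 : φ (x + y) = 1 := by rw [h2, hφ]
              rw [map_add, hxy.2, z2_add_self] at h3
              exact absurd h3 (by decide)
          have h3 := add_add_self x y
          rw [h2, zero_add] at h3
          exact h3.symm
        have h1 := Fintype.card_le_of_injective _ hinj
        rw [card_vec, Fintype.card_prod, ZMod.card] at h1
        have h2 : 2 ^ 4 ≤ 2 ^ (2 * r) := Nat.pow_le_pow_right (by norm_num) (by omega)
        omega
      · push Not at hex
        have h1 : IsPeriod γ (u + u') := by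
          apply h
          intro b hb
          rw [hex b hb]
          exact map_zero (sfB r _)
        apply hu'
        have h2 := (h1 u).2 hu
        rwa [self_add_add] at h2
    have hB : sfB r b u' = sfB r b u := by
      rw [map_add] at hbu
      generalize sfB r b u = p at *
      generalize sfB r b u' = q at *
      revert p q
      decide
    refine ⟨b, hb0, sfB r b u, ?_, ?_, ?_⟩
    · rw [act_eq_iff]
      intro x
      rw [tauA_apply]
      rcases zmod2_cases (sfB r b x + sfB r b u) with h1 | h1
      · rw [h1, zero_smul, add_zero]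
      · rw [h1, one_smul]
        exact hb x
    · rw [tauA_apply, z2_add_self, zero_smul, add_zero]
    · rw [tauA_apply, hB, z2_add_self, zero_smul, add_zero]
  · -- the step of the quadric in direction `u + u'`
    have hmem1 : ∀ x, ind γ x = 1 ↔ x ∈ γ := fun x => ind_eq_one
    have hmem0 : ∀ x, ind γ x = 0 ↔ x ∉ γ := by
      intro x
      rw [← hmem1]
      rcases zmod2_cases (ind γ x) with h' | h' <;> rw [h'] <;> decide
    have hfu := (hmem1 u).2 hu
    have hfu' := (hmem0 u').2 hu'
    have key : ∀ x, sfB r (u + u') x + sfB r (u + u') u =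
        ind γ (x + (u + u')) + ind γ x + 1 := by
      intro x
      have h1 := h (u + u') (x + u) u
      have h2 : u + (u + u') + (x + u) = x + (u + u') := by
        calc u + (u + u') + (x + u) = x + (u + u') + (u + u) := by abel
          _ = _ := by rw [add_self', add_zero]
      have h3 : u + (x + u) = x := by
        rw [add_comm x u, self_add_add]
      rw [h2, h3, self_add_add, hfu, hfu', add_zero] at h1
      rw [← map_add, h1]
      rfl
    refine ⟨u + u', ?_, sfB r (u + u') u, ?_, ?_, ?_⟩
    · intro h0
      apply hu'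
      have h1 := add_add_self u u'
      rw [h0, zero_add] at h1
      rw [h1]
      exact hu
    · rw [act_eq_iff]
      intro x
      rw [tauA_apply, key]
      rcases zmod2_cases (ind γ (x + (u + u')) + ind γ x) with h1 | h1
      · rw [h1, zero_add, one_smul]
        have h2 : ind γ (x + (u + u')) = ind γ x := by
          generalize ind γ (x + (u + u')) = p at *
          generalize ind γ x = q at *
          clear key
          revert p q
          decide
        rw [← hmem1, h2, hmem1]
      · rw [h1, z2_add_self, zero_smul, add_zero]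
    · rw [tauA_apply, z2_add_self, zero_smul, add_zero]
    · rw [tauA_apply, key]
      have h1 : u' + (u + u') = u := by
        rw [add_comm u u', self_add_add]
      rw [h1, hfu, hfu', add_zero, z2_add_self, zero_smul, add_zero]

/-- A subgroup `G` of the affine symplectic group that contains, for every affine symplectic `g`
and every nontrivial transvection `t`, one of `g` and `g t`. -/
def HalfASp (r : ℕ) (G : Subgroup (AGL (2 * r))) : Prop :=
  (∀ g ∈ G, PB (sfB r) g) ∧ ∀ g, PB (sfB r) g → ∀ b, b ≠ 0 → ∀ c,
    g ∈ G ∨ g * tauA (symp_sf r) b c ∈ G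

/-- The two groups have the same SIT codes. -/
theorem half_iff (hr : 2 ≤ r) {G : Subgroup (AGL (2 * r))} (hG : HalfASp r G) {k : ℕ}
    {C : Set (Finset (Vec (2 * r)))} (hk : 3 ≤ k) (hk' : k ≤ 2 ^ (2 * r - 1)) :
    IsSITCode G k C ↔ IsSITCode (ASp r) k C := by
  have h2n : 2 ^ (2 * r) = 2 * 2 ^ (2 * r - 1) := by
    rw [← pow_succ']
    congr 1
    omega
  have hkn : k < 2 ^ (2 * r) := by
    have : 0 < 2 ^ (2 * r - 1) := by positivity
    omega
  constructor
  · intro hC
    refine ⟨hC.card_eq, fun g hg γ hγ => ?_, fun γ hγ u hu u' hu' δ hδ w hw w' hw' => ?_⟩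
    · have h1 := hC.card_eq γ hγ
      obtain ⟨u, hu⟩ : γ.Nonempty := by rw [← Finset.card_pos]; omega
      obtain ⟨u', hu'⟩ := exists_notMem_of_card h1 hkn
      obtain ⟨b, hb, c, h2, -, -⟩ := exists_transvection hr hG.1 hC hk hk' hγ hu hu'
      rcases hG.2 g (mem_ASp.1 hg) b hb c with h3 | h3
      · exact hC.invariant g h3 γ hγ
      · have h4 := hC.invariant _ h3 γ hγ
        rwa [act_mul, h2] at h4
    · obtain ⟨g, hg, h1, h2, h3⟩ := hC.transitive γ hγ u hu u' hu' δ hδ w hw w' hw'
      exact ⟨g, mem_ASp.2 (hG.1 g hg), h1, h2, h3⟩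
  · intro hC
    refine ⟨hC.card_eq, fun g hg γ hγ => hC.invariant g (mem_ASp.2 (hG.1 g hg)) γ hγ,
      fun γ hγ u hu u' hu' δ hδ w hw w' hw' => ?_⟩
    obtain ⟨g, hg, h1, h2, h3⟩ := hC.transitive γ hγ u hu u' hu' δ hδ w hw w' hw'
    obtain ⟨b, hb, c, h4, h5, h6⟩ := exists_transvection hr (fun g hg => mem_ASp.1 hg) hC hk hk'
      hγ hu hu'
    rcases hG.2 g (mem_ASp.1 hg) b hb c with h7 | h7
    · exact ⟨g, h7, h1, h2, h3⟩
    · refine ⟨_, h7, ?_, ?_, ?_⟩
      · rw [act_mul, h4, h1]
      · change g (tauA (symp_sf r) b c u) = w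
        rw [h5, h2]
      · change g (tauA (symp_sf r) b c u') = w'
        rw [h6, h3]

/-- `G` is 2-transitive. -/
theorem half_twoTransitive {G : Subgroup (AGL (2 * r))} (hG : HalfASp r G) :
    IsTwoTransitive G := by
  intro x y x' y' hxy hxy'
  obtain ⟨g, hg, h1, h2⟩ := twoTransitive_ASp r x y x' y' hxy hxy'
  have h3 : x + y ≠ 0 := by
    intro h
    apply hxy
    rw [← add_add_self x y, h, zero_add]
  have hsym := (symp_sf r).symm x y
  have halt := (symp_sf r).alt
  rcases hG.2 g (mem_ASp.1 hg) (x + y) h3 (sfB r (x + y) x) with h4 | h4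
  · exact ⟨g, h4, h1, h2⟩
  · refine ⟨_, h4, ?_, ?_⟩
    · change g (tauA (symp_sf r) (x + y) (sfB r (x + y) x) x) = x'
      rw [tauA_apply, z2_add_self, zero_smul, add_zero, h1]
    · change g (tauA (symp_sf r) (x + y) (sfB r (x + y) x) y) = y'
      have h5 : sfB r (x + y) y = sfB r (x + y) x := by
        rw [map_add (sfB r) x y, LinearMap.add_apply, LinearMap.add_apply, halt, halt, hsym,
          add_zero, zero_add]
      rw [tauA_apply, h5, z2_add_self, zero_smul, add_zero, h2]

end Pool.Agent.SIT.Idx
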