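import Pool.Agent.SIT.LinD3
import Pool.Agent.SIT.SpIdx

/-!
# Necessary conditions on the codewords for groups of semilinear affine maps
-/

namespace Pool.Agent.SIT

open Finset

section General

variable {F : Type*} [Field F] {V : Type*} [AddCommGroup V] [Module F V]
  {f : V → ZMod 2} {P : (V ≃+ V) → V → (F ≃+* F) → Prop}

lemma polar_hsym {V : Type*} [AddCommGroup V] {f : V → ZMod 2} {β : V → V → ZMod 2}
    (hβ : ∀ x a b, f (x + a + b) + f (x + a) + f (x + b) + f x = β a b) (a b : V) :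
    β a b = β b a := by
  rw [← hβ 0 a b, ← hβ 0 b a]
  have : (0 : V) + a + b = 0 + b + a := by abel
  rw [this]
  ring

lemma polar_hadd {V : Type*} [AddCommGroup V] {f : V → ZMod 2} {β : V → V → ZMod 2}
    (hβ : ∀ x a b, f (x + a + b) + f (x + a) + f (x + b) + f x = β a b) (a b c : V) :
    β a (b + c) = β a b + β a c := by
  rw [← hβ 0 a (b + c), ← hβ b a c, ← hβ 0 a b]
  have e1 : (0 : V) + a + (b + c) = b + a + c := by abel
  have e2 : (0 : V) + (b + c) = b + c := by abel
  have e3 : (0 : V) + a + b = b + a := by abel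
  have e4 : (0 : V) + b = b := by abel
  rw [e1, e2, e3, e4]
  linear_combination (-(f (b + a)) - f b) * (by rfl : (2 : ZMod 2) = 0)

lemma polar_hadd' {V : Type*} [AddCommGroup V] {f : V → ZMod 2} {β : V → V → ZMod 2}
    (hβ : ∀ x a b, f (x + a + b) + f (x + a) + f (x + b) + f x = β a b) (a b c : V) :
    β (a + b) c = β a c + β b c := by
  rw [polar_hsym hβ, polar_hadd hβ, polar_hsym hβ c a, polar_hsym hβ c b]

lemma polar_halt {V : Type*} [AddCommGroup V] (h2 : ∀ x : V, x + x = 0) {f : V → ZMod 2}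
    {β : V → V → ZMod 2}
    (hβ : ∀ x a b, f (x + a + b) + f (x + a) + f (x + b) + f x = β a b) (a : V) : β a a = 0 := by
  have h3 : (0 : V) + a + a = 0 := by rw [add_assoc, h2, add_zero]
  rw [← hβ 0 a a, h3]
  linear_combination (f 0 + f (0 + a)) * (by rfl : (2 : ZMod 2) = 0)

/-- the periods of a function -/
def perS (f : V → ZMod 2) : AddSubgroup V where
  carrier := {t | ∀ x, f (x + t) = f x}
  zero_mem' := fun x => by rw [add_zero]
  add_mem' := by
    intro a b ha hb x
    rw [← add_assoc, hb, ha]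
  neg_mem' := by
    intro a ha x
    have := ha (x + -a)
    rw [neg_add_cancel_right] at this
    exact this.symm

omit [Field F] [Module F V] in
lemma mem_perS {t : V} : t ∈ perS f ↔ ∀ x, f (x + t) = f x := Iff.rfl

/-- The linear parts form a semilinear family for the group of periods. -/
lemma SG.semiFam (h : SG f P) (h2 : ∀ x : V, x + x = 0) :
    Lin.SemiFam (perS f) (fun g σ => ∃ t, P g t σ) := by
  refine ⟨?_, ?_, ?_, ?_, ?_, ?_⟩
  · rintro g σ ⟨t, hg⟩ c x
    exact h.semi hg c x
  · rintro g σ ⟨t, hg⟩ x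
    rw [mem_perS, mem_perS]
    exact h.period_iff hg
  · exact ⟨0, h.one⟩
  · rintro g σ g' σ' ⟨t, hg⟩ ⟨t', hg'⟩
    exact ⟨_, h.mul hg' hg⟩
  · rintro g σ ⟨t, hg⟩
    exact ⟨_, h.inv hg⟩
  · intro x hx y hy
    rw [mem_perS] at hx hy
    push Not at hx hy
    obtain ⟨g, t, σ, hg, hxy⟩ := h.lin_trans h2 hx hy
    exact ⟨g, σ, ⟨t, hg⟩, hxy⟩

end General

section Quadric

variable {F : Type*} [Field F] [Fintype F] [CharP F 2] {V : Type*} [AddCommGroup V] [Module F V]
  [Fintype V] {f : V → ZMod 2} {P : (V ≃+ V) → V → (F ≃+* F) → Prop}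

/-- Quadrics: the polar form is compatible with `F` and `|F| ≤ 4`. -/
theorem SG.quadric (h : SG f P) (h2 : ∀ x : V, x + x = 0) {β : V → V → ZMod 2}
    (hβ : ∀ x a b, f (x + a + b) + f (x + a) + f (x + b) + f x = β a b)
    (R : Submodule F V) (hR : ∀ r, r ∈ R ↔ ∀ x, f (x + r) = f x)
    (hR2 : ∀ r, r ∈ R ↔ ∀ y, β r y = 0) {m : ℕ} (hm : 2 ≤ m)
    (hμ : Nat.card V = 2 ^ (2 * m) * Nat.card R) {p q : V} (hp : f p = 1) (hq : f q = 0) :
    (∀ (c : F) a b, β (c • a) b = β a (c • b)) ∧ (∀ (c : F) a, β (c • a) a = 0) ∧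
      (Fintype.card F = 2 ∨
        (Fintype.card F = 4 ∧ ∃ g t σ, P g t σ ∧ σ ≠ RingEquiv.refl F)) := by
  classical
  have hsemi : ∀ g σ, (∃ t, P g t σ) → ∀ (c : F) x, g (c • x) = σ c • g x := by
    rintro g σ ⟨t, hg⟩ c x
    exact h.semi hg c x
  -- the quotient
  have hcQ : Nat.card V = Nat.card (V ⧸ R) * Nat.card R := by
    rw [mul_comm]
    exact Submodule.card_eq_card_quotient_mul_card R
  have hR0 : 0 < Nat.card R := Nat.card_pos
  have hVR : Nat.card (V ⧸ R) = 2 ^ (2 * m) := by
    rw [hcQ] at hμ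
    exact Nat.eq_of_mul_eq_mul_right hR0 hμ
  have hFm : Fintype.card F ≤ 2 ^ m := by
    by_contra hcon
    push Not at hcon
    let _ : Fintype (V ⧸ R) := Fintype.ofFinite _
    have h1 : Fintype.card (V ⧸ R) = Fintype.card F ^ Module.finrank F (V ⧸ R) :=
      Module.card_eq_pow_finrank
    have h3 : Fintype.card (V ⧸ R) = 2 ^ (2 * m) := by
      rw [← Nat.card_eq_fintype_card, hVR]
    have hF2 : 1 < Fintype.card F := Fintype.one_lt_card
    have h4 : Module.finrank F (V ⧸ R) = 1 := by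
      have h5 : Module.finrank F (V ⧸ R) ≠ 0 := by
        intro h0
        rw [h0, pow_zero, h3] at h1
        have : 2 ^ (2 * m) ≥ 2 ^ 4 := Nat.pow_le_pow_right (by norm_num) (by omega)
        omega
      have h6 : Module.finrank F (V ⧸ R) < 2 := by
        by_contra hcon2
        push Not at hcon2
        have h7 : Fintype.card F ^ 2 ≤ 2 ^ (2 * m) := by
          rw [← h3, h1]
          exact Nat.pow_le_pow_right (by omega) hcon2
        have h8 : (2 ^ m) ^ 2 < Fintype.card F ^ 2 := Nat.pow_lt_pow_left hcon (by norm_num)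
        rw [← pow_mul, mul_comm m 2] at h8
        omega
      omega
    obtain ⟨e, he0, he⟩ := finrank_eq_one_iff'.1 h4
    refine lin_D3 (h.quot R hR) (qβ_polar hR hβ) ?_ he0 (fun x => ?_) ?_
    · intro a ha
      obtain ⟨a, rfl⟩ := R.mkQ_surjective a
      rw [Submodule.mkQ_apply, Submodule.Quotient.mk_eq_zero, hR2]
      intro y
      rw [← qβ_mkQ hR hβ]
      exact ha _
    · obtain ⟨c, hc⟩ := he x
      exact ⟨c, hc.symm⟩
    · rw [h3]
      calc 16 = 2 ^ 4 := by norm_num
        _ ≤ _ := Nat.pow_le_pow_right (by norm_num) (by omega)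
  have hself : ∀ (c : F) a, β (c • a) a = 0 := by
    apply lin_D2 β (polar_hadd' hβ) (polar_hadd hβ) (polar_halt h2 hβ) R hR2 m hμ hFm
      (fun g σ => ∃ t, P g t σ) ⟨0, h.one⟩
    · rintro g σ g' σ' ⟨t, hg⟩ ⟨t', hg'⟩
      exact ⟨_, h.mul hg' hg⟩
    · exact hsemi
    · rintro g σ ⟨t, hg⟩ x y
      exact h.polar hβ hg x y
    · intro x y hx hy
      rw [hR] at hx hy
      push Not at hx hy
      obtain ⟨g, t, σ, hg, hxy⟩ := h.lin_trans h2 hx hy
      exact ⟨g, σ, ⟨t, hg⟩, hxy⟩
  have hcomp : ∀ (c : F) a b, β (c • a) b = β a (c • b) :=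
    lin_D2' β (polar_hadd' hβ) (polar_hadd hβ) (polar_halt h2 hβ) hself
  refine ⟨hcomp, hself, ?_⟩
  have h4 := lin_D4 (fun x => f (p + x) + f p) β (by
      intro x y
      change f (p + (x + y)) + f p = f (p + x) + f p + (f (p + y) + f p) + β x y
      rw [← hβ p x y, ← add_assoc]
      linear_combination (-(f (p + x)) - f (p + y) - f p) * (by rfl : (2 : ZMod 2) = 0))
    hcomp hself (fun g σ => ∃ t, P g t σ ∧ g p + t = p)
    (by
      rintro g σ ⟨t, hg, -⟩ c x
      exact h.semi hg c x)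
    (by
      rintro g σ ⟨t, hg, hgp⟩ x
      change f (p + g x) + f p = f (p + x) + f p
      rw [← h.pres hg (p + x), map_add]
      congr 2
      calc p + g x = g p + t + g x := by rw [hgp]
        _ = _ := by abel)
    (by
      intro x y hx hy
      change f (p + x) + f p = 1 at hx
      change f (p + y) + f p = 1 at hy
      rw [hp] at hx hy
      have hx' : f (p + x) = 0 := by
        generalize f (p + x) = u at hx
        revert hx
        revert u
        decide
      have hy' : f (p + y) = 0 := by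
        generalize f (p + y) = u at hy
        revert hy
        revert u
        decide
      obtain ⟨g, t, σ, hg, h5, h6⟩ := h.trans p (p + x) p (p + y) rfl (by rw [hx', hy'])
        (by rw [hp, hx']; decide)
      refine ⟨g, σ, ⟨t, hg, h5⟩, ?_⟩
      rw [map_add] at h6
      have h7 : p + g x = p + y := by
        calc p + g x = g p + t + g x := by rw [h5]
          _ = g p + g x + t := by abel
          _ = _ := h6
      exact add_left_cancel h7)
    ⟨q - p, by
      change f (p + (q - p)) + f p = 1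
      rw [add_sub_cancel, hq, hp, zero_add]⟩
  rcases h4 with h4 | ⟨h4, g, σ, ⟨t, hg, -⟩, hσ⟩
  · exact Or.inl h4
  · exact Or.inr ⟨h4, g, t, σ, hg, hσ⟩

end Quadric

end Pool.Agent.SIT
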