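import Mathlib

/-!
# Trace quadrics over `F_4`: transitivity of the stabiliser

`F` is the field with four elements, `f : V → F_2` is a function on an `F`-space `V` with bilinear
second derivative `β`, such that `β (c a) b = β a (c b)` for all scalars. The maps
`x ↦ x + b(x + p, z) / Q_p(z) z` preserve `f`; together with one semilinear map which is not linear
they act transitively on pairs of points with different values of `f`.
-/

namespace Pool.Agent.SIT.S4

variable {F : Type*} [Field F] [CharP F 2] {V : Type*} [AddCommGroup V] [Module F V]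

/-- The embedding of `F_2` into `F`. -/
def io (F : Type*) [Field F] [CharP F 2] : ZMod 2 →+* F := ZMod.castHom (dvd_refl 2) F

theorem zmod2_cases (a : ZMod 2) : a = 0 ∨ a = 1 := by
  fin_cases a
  · left; rfl
  · right; rfl

theorem io_eq_zero {a : ZMod 2} (h : io F a = 0) : a = 0 := by
  rcases zmod2_cases a with h1 | h1
  · exact h1
  · rw [h1, map_one] at h
    exact absurd h one_ne_zero

theorem io_sq (a : ZMod 2) : io F a ^ 2 = io F a := by
  rcases zmod2_cases a with h1 | h1 <;> rw [h1] <;> simp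

theorem add_self_F (x : F) : x + x = 0 := CharTwo.add_self_eq_zero x

include F in
theorem add_self_V (x : V) : x + x = 0 := by
  have h : (1 : F) • x + (1 : F) • x = 0 := by
    rw [← add_smul, add_self_F, zero_smul]
  simpa using h

theorem add_eq_zero_iff_F {x y : F} : x + y = 0 ↔ x = y := by
  constructor
  · intro h
    calc x = x + (y + y) := by rw [add_self_F, add_zero]
      _ = (x + y) + y := by ring
      _ = y := by rw [h, zero_add]
  · rintro rfl
    exact add_self_F x

/-- The `F`-valued quadratic form at the point `p`. -/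
def Qt (w : F) (f : V → ZMod 2) (p x : V) : F :=
  w * io F (f (p + x) + f p) + io F (f (p + w • x) + f p)

/-- The `F`-bilinear form whose trace is `β`. -/
def bt (w : F) (β : V → V → ZMod 2) (a b : V) : F :=
  (w + 1) * io F (β a b) + io F (β (w • a) b)

section

variable {w : F} {f : V → ZMod 2} {β : V → V → ZMod 2}

theorem w_sq (hw : w ^ 2 + w + 1 = 0) : w ^ 2 = w + 1 := by
  have := add_eq_zero_iff_F.mp (show w ^ 2 + (w + 1) = 0 by rw [← hw]; ring)
  exact this

theorem w_ne_zero (hw : w ^ 2 + w + 1 = 0) : w ≠ 0 := by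
  rintro rfl
  simp at hw

theorem pow_four (hw : w ^ 2 + w + 1 = 0) (hF : ∀ x : F, x = 0 ∨ x = 1 ∨ x = w ∨ x = w + 1)
    (x : F) : x ^ 4 = x := by
  have h2 := w_sq hw
  have h3 : w ^ 4 = w := by
    have : w ^ 4 = (w + 1) ^ 2 := by rw [← h2]; ring
    rw [this]
    have : (w + 1) ^ 2 = w ^ 2 + (w + w) + 1 := by ring
    rw [this, add_self_F, h2]
    linear_combination (add_self_F (1 : F))
  rcases hF x with rfl | rfl | rfl | rfl
  · simp
  · simp
  · exact h3
  · have : (w + 1) ^ 4 = w ^ 4 + 1 + (w ^ 3 + w ^ 3) + (w ^ 3 + w ^ 3) + 3 * (w ^ 2 + w ^ 2) +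
        (w + w) + (w + w) := by ring
    rw [this, h3]
    simp only [add_self_F]
    ring

/-! ### The form `β` -/

theorem beta_add_left (hb : ∀ x a b, f (x + a + b) + f (x + a) + f (x + b) + f x = β a b)
    (a a' b : V) : β (a + a') b = β a b + β a' b := by
  have h1 := hb 0 (a + a') b
  have h2 := hb 0 a b
  have h3 := hb a a' b
  rw [← h1, ← h2, ← h3]
  have e1 : (0 : V) + (a + a') + b = a + a' + b := by abel
  have e2 : (0 : V) + (a + a') = a + a' := by abel
  have e3 : (0 : V) + a = a := by abel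
  rw [e1, e2, e3]
  have := CharTwo.add_self_eq_zero (f (a + b))
  have := CharTwo.add_self_eq_zero (f a)
  linear_combination (CharTwo.add_self_eq_zero (f (a + b))) * (-1) -
    (CharTwo.add_self_eq_zero (f a))

theorem beta_comm (hb : ∀ x a b, f (x + a + b) + f (x + a) + f (x + b) + f x = β a b)
    (a b : V) : β a b = β b a := by
  rw [← hb 0 a b, ← hb 0 b a]
  have e1 : (0 : V) + a + b = 0 + b + a := by abel
  rw [e1]
  ring

theorem beta_add_right (hb : ∀ x a b, f (x + a + b) + f (x + a) + f (x + b) + f x = β a b)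
    (a b b' : V) : β a (b + b') = β a b + β a b' := by
  rw [beta_comm hb a, beta_add_left hb, beta_comm hb b, beta_comm hb b']

include F in
theorem beta_self (hb : ∀ x a b, f (x + a + b) + f (x + a) + f (x + b) + f x = β a b)
    (a : V) : β a a = 0 := by
  rw [← hb 0 a a]
  have e1 : (0 : V) + a + a = 0 := by
    rw [add_assoc, add_self_V (F := F), add_zero]
  rw [e1]
  linear_combination (CharTwo.add_self_eq_zero (f 0)) + (CharTwo.add_self_eq_zero (f (0 + a)))

theorem beta_smul_self (hb : ∀ x a b, f (x + a + b) + f (x + a) + f (x + b) + f x = β a b)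
    (hcomp : ∀ (c : F) a b, β (c • a) b = β a (c • b)) (hw : w ^ 2 + w + 1 = 0)
    (hF : ∀ x : F, x = 0 ∨ x = 1 ∨ x = w ∨ x = w + 1) (c : F) (x : V) : β (c • x) x = 0 := by
  have h : c = c ^ 2 * c ^ 2 := by rw [← pow_add, pow_four hw hF]
  rw [h, mul_smul, hcomp]
  exact beta_self (F := F) hb _

/-! ### The form `bt` -/

theorem beta_zero_left (hb : ∀ x a b, f (x + a + b) + f (x + a) + f (x + b) + f x = β a b)
    (b : V) : β 0 b = 0 := by
  have h := beta_add_left hb 0 0 b
  rw [add_zero] at h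
  have h2 := CharTwo.add_self_eq_zero (β 0 b)
  rw [← h] at h2
  exact h2

theorem beta_zero_right (hb : ∀ x a b, f (x + a + b) + f (x + a) + f (x + b) + f x = β a b)
    (a : V) : β a 0 = 0 := by
  rw [beta_comm hb, beta_zero_left hb]

theorem bt_add_left (hb : ∀ x a b, f (x + a + b) + f (x + a) + f (x + b) + f x = β a b)
    (a a' b : V) : bt w β (a + a') b = bt w β a b + bt w β a' b := by
  simp only [bt, smul_add, beta_add_left hb, map_add]
  ring

theorem bt_add_right (hb : ∀ x a b, f (x + a + b) + f (x + a) + f (x + b) + f x = β a b)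
    (a b b' : V) : bt w β a (b + b') = bt w β a b + bt w β a b' := by
  simp only [bt, beta_add_right hb, map_add]
  ring

theorem bt_comm (hb : ∀ x a b, f (x + a + b) + f (x + a) + f (x + b) + f x = β a b)
    (hcomp : ∀ (c : F) a b, β (c • a) b = β a (c • b))
    (a b : V) : bt w β a b = bt w β b a := by
  simp only [bt]
  rw [beta_comm hb a b, hcomp, beta_comm hb a]

theorem smul_w_w (hw : w ^ 2 + w + 1 = 0) (x : V) : w • w • x = w • x + x := by
  rw [← mul_smul, ← pow_two, w_sq hw, add_smul, one_smul]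

theorem bt_smul_w (hb : ∀ x a b, f (x + a + b) + f (x + a) + f (x + b) + f x = β a b)
    (hw : w ^ 2 + w + 1 = 0) (a b : V) : bt w β (w • a) b = w * bt w β a b := by
  simp only [bt]
  rw [smul_w_w hw, beta_add_left hb, map_add]
  have h2 := w_sq hw
  have e := add_self_F (io F (β (w • a) b))
  have h3 : w * ((w + 1) * io F (β a b) + io F (β (w • a) b)) =
      (w ^ 2 + w) * io F (β a b) + w * io F (β (w • a) b) := by ring
  rw [h3, h2]
  have h4 : (w + 1 + w : F) = 1 := by
    have := add_self_F w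
    linear_combination this
  rw [h4]
  linear_combination e

theorem bt_smul_left (hb : ∀ x a b, f (x + a + b) + f (x + a) + f (x + b) + f x = β a b)
    (hw : w ^ 2 + w + 1 = 0)
    (hF : ∀ x : F, x = 0 ∨ x = 1 ∨ x = w ∨ x = w + 1) (c : F) (a b : V) :
    bt w β (c • a) b = c * bt w β a b := by
  have h0 : bt w β (0 : V) b = 0 := by
    have h := bt_add_left (w := w) hb 0 0 b
    rw [add_zero] at h
    have h2 := add_self_F (bt w β 0 b)
    rw [← h] at h2
    exact h2
  rcases hF c with h | h | h | h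
  · rw [h, zero_smul, h0, zero_mul]
  · rw [h, one_smul, one_mul]
  · rw [h, bt_smul_w hb hw]
  · rw [h, add_smul, one_smul, bt_add_left hb, bt_smul_w hb hw]
    ring

theorem bt_smul_right (hb : ∀ x a b, f (x + a + b) + f (x + a) + f (x + b) + f x = β a b)
    (hcomp : ∀ (c : F) a b, β (c • a) b = β a (c • b)) (hw : w ^ 2 + w + 1 = 0)
    (hF : ∀ x : F, x = 0 ∨ x = 1 ∨ x = w ∨ x = w + 1) (c : F) (a b : V) :
    bt w β a (c • b) = c * bt w β a b := by
  rw [bt_comm hb hcomp, bt_smul_left hb hw hF, bt_comm hb hcomp]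

theorem bt_self (hb : ∀ x a b, f (x + a + b) + f (x + a) + f (x + b) + f x = β a b)
    (hcomp : ∀ (c : F) a b, β (c • a) b = β a (c • b)) (hw : w ^ 2 + w + 1 = 0)
    (hF : ∀ x : F, x = 0 ∨ x = 1 ∨ x = w ∨ x = w + 1) (a : V) : bt w β a a = 0 := by
  rw [bt, beta_self (F := F) hb, beta_smul_self hb hcomp hw hF, map_zero, mul_zero, add_zero]

theorem bt_eq_zero (hb : ∀ x a b, f (x + a + b) + f (x + a) + f (x + b) + f x = β a b)
    (hw : w ^ 2 + w + 1 = 0) {a b : V} (h : bt w β a b = 0) : β a b = 0 := by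
  have h2 := w_sq hw
  have e1 := io_sq (F := F) (β a b)
  have e2 := io_sq (F := F) (β (w • a) b)
  apply io_eq_zero (F := F)
  rw [bt] at h
  have h3 : ((w + 1) * io F (β a b) + io F (β (w • a) b)) +
      ((w + 1) * io F (β a b) + io F (β (w • a) b)) ^ 2 = io F (β a b) := by
    have h4 : ((w + 1) * io F (β a b) + io F (β (w • a) b)) ^ 2 =
        (w ^ 2 + (w + w) + 1) * io F (β a b) ^ 2 + io F (β (w • a) b) ^ 2 +
        ((w + 1) * io F (β a b) * io F (β (w • a) b) +
        (w + 1) * io F (β a b) * io F (β (w • a) b)) := by ring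
    rw [h4, add_self_F, add_self_F, e1, e2, h2]
    linear_combination (add_self_F ((w + 1) * io F (β a b))) + (add_self_F (io F (β (w • a) b))) +
      (add_self_F (io F (β a b))) - io F (β a b) * (add_self_F (1 : F))
  rw [← h3, h]
  ring

theorem rad_of_bt (hb : ∀ x a b, f (x + a + b) + f (x + a) + f (x + b) + f x = β a b)
    (hw : w ^ 2 + w + 1 = 0) {a : V} (h : ∀ b, bt w β a b = 0) : ∀ b, β a b = 0 :=
  fun b => bt_eq_zero hb hw (h b)

theorem bt_of_rad (hcomp : ∀ (c : F) a b, β (c • a) b = β a (c • b)) {a : V}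
    (h : ∀ b, β a b = 0) (b : V) : bt w β a b = 0 := by
  rw [bt, h, hcomp, h, map_zero, mul_zero, add_zero]

/-! ### The quadratic form -/

theorem Qt_tr (hw : w ^ 2 + w + 1 = 0) (p x : V) :
    io F (f (p + x) + f p) = Qt w f p x + Qt w f p x ^ 2 := by
  have h2 := w_sq hw
  have e1 := io_sq (F := F) (f (p + x) + f p)
  have e2 := io_sq (F := F) (f (p + w • x) + f p)
  rw [Qt]
  have h4 : (w * io F (f (p + x) + f p) + io F (f (p + w • x) + f p)) ^ 2 =
      w ^ 2 * io F (f (p + x) + f p) ^ 2 + io F (f (p + w • x) + f p) ^ 2 +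
      (w * io F (f (p + x) + f p) * io F (f (p + w • x) + f p) +
        w * io F (f (p + x) + f p) * io F (f (p + w • x) + f p)) := by ring
  rw [h4, add_self_F, e1, e2, h2]
  linear_combination (-1 : F) * (add_self_F (w * io F (f (p + x) + f p))) -
    (add_self_F (io F (f (p + w • x) + f p)))

include F in
/-- change of the base point -/
theorem Q_rebase (hb : ∀ x a b, f (x + a + b) + f (x + a) + f (x + b) + f x = β a b)
    (p x u : V) : f (x + u) + f x = f (p + u) + f p + β (x + p) u := by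
  have h := hb p (x + p) u
  have e1 : p + (x + p) + u = x + u + (p + p) := by abel
  have e2 : p + (x + p) = x + (p + p) := by abel
  rw [e1, e2, add_self_V (F := F), add_zero, add_zero] at h
  rw [← h]
  linear_combination (-1 : ZMod 2) * (CharTwo.add_self_eq_zero (f (p + u))) -
    (CharTwo.add_self_eq_zero (f p))

theorem Qt_rebase (hb : ∀ x a b, f (x + a + b) + f (x + a) + f (x + b) + f x = β a b)
    (hcomp : ∀ (c : F) a b, β (c • a) b = β a (c • b)) (hw : w ^ 2 + w + 1 = 0)
    (p x u : V) : Qt w f x u = Qt w f p u + bt w β (x + p) u ^ 2 := by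
  have h2 := w_sq hw
  rw [Qt, Qt, Q_rebase (F := F) hb p x u, Q_rebase (F := F) hb p x (w • u),
    map_add (io F) (f (p + u) + f p), map_add (io F) (f (p + w • u) + f p), bt, ← hcomp]
  have e1 := io_sq (F := F) (β (x + p) u)
  have e2 := io_sq (F := F) (β (w • (x + p)) u)
  have h4 : ((w + 1) * io F (β (x + p) u) + io F (β (w • (x + p)) u)) ^ 2 =
      (w ^ 2 + (w + w) + 1) * io F (β (x + p) u) ^ 2 + io F (β (w • (x + p)) u) ^ 2 +
      ((w + 1) * io F (β (x + p) u) * io F (β (w • (x + p)) u) +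
        (w + 1) * io F (β (x + p) u) * io F (β (w • (x + p)) u)) := by ring
  rw [h4, add_self_F, add_self_F, e1, e2, h2]
  linear_combination (-1 : F) * io F (β (x + p) u) * (add_self_F (1 : F))

theorem Qt_add (hb : ∀ x a b, f (x + a + b) + f (x + a) + f (x + b) + f x = β a b)
    (hcomp : ∀ (c : F) a b, β (c • a) b = β a (c • b)) (hw : w ^ 2 + w + 1 = 0)
    (p x y : V) : Qt w f p (x + y) = Qt w f p x + Qt w f p y + bt w β x y := by
  have key : ∀ u v : V, f (p + (u + v)) + f p = (f (p + u) + f p) + (f (p + v) + f p) + β u v := by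
    intro u v
    have h := hb p u v
    rw [← add_assoc p u v, ← h]
    linear_combination (-1 : ZMod 2) * (CharTwo.add_self_eq_zero (f (p + u))) -
      (CharTwo.add_self_eq_zero (f (p + v))) - (CharTwo.add_self_eq_zero (f p))
  have h2 := w_sq hw
  simp only [Qt, bt]
  rw [smul_add, key, key, ← hcomp, smul_w_w hw, beta_add_left hb]
  simp only [map_add]
  linear_combination (-1 : F) * (add_self_F (io F (β x y))) * 0
    + 0 * h2

theorem Qt_zero (p : V) : Qt w f p 0 = 0 := by
  simp only [Qt, smul_zero, add_zero]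
  rw [CharTwo.add_self_eq_zero, map_zero, mul_zero, add_zero]

theorem Qt_smul_w (hb : ∀ x a b, f (x + a + b) + f (x + a) + f (x + b) + f x = β a b)
    (hcomp : ∀ (c : F) a b, β (c • a) b = β a (c • b)) (hw : w ^ 2 + w + 1 = 0)
    (hF : ∀ x : F, x = 0 ∨ x = 1 ∨ x = w ∨ x = w + 1)
    (p x : V) : Qt w f p (w • x) = w ^ 2 * Qt w f p x := by
  have key : ∀ u v : V, f (p + (u + v)) + f p = (f (p + u) + f p) + (f (p + v) + f p) + β u v := by
    intro u v
    have h := hb p u v
    rw [← add_assoc p u v, ← h]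
    linear_combination (-1 : ZMod 2) * (CharTwo.add_self_eq_zero (f (p + u))) -
      (CharTwo.add_self_eq_zero (f (p + v))) - (CharTwo.add_self_eq_zero (f p))
  have h2 := w_sq hw
  simp only [Qt]
  rw [smul_w_w hw, key, beta_smul_self hb hcomp hw hF, add_zero,
    map_add (io F) (f (p + w • x) + f p)]
  have h3 : w ^ 2 * (w * io F (f (p + x) + f p) + io F (f (p + w • x) + f p)) =
      w * w ^ 2 * io F (f (p + x) + f p) + w ^ 2 * io F (f (p + w • x) + f p) := by ring
  have h5 : w * (w + 1) = 1 := by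
    have : w * (w + 1) = w ^ 2 + w := by ring
    rw [this, h2]
    linear_combination add_self_F w
  rw [h3, h2, h5]
  ring

theorem Qt_smul (hb : ∀ x a b, f (x + a + b) + f (x + a) + f (x + b) + f x = β a b)
    (hcomp : ∀ (c : F) a b, β (c • a) b = β a (c • b)) (hw : w ^ 2 + w + 1 = 0)
    (hF : ∀ x : F, x = 0 ∨ x = 1 ∨ x = w ∨ x = w + 1)
    (p : V) (c : F) (x : V) : Qt w f p (c • x) = c ^ 2 * Qt w f p x := by
  rcases hF c with h | h | h | h
  · rw [h, zero_smul, Qt_zero]
    ring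
  · rw [h, one_smul]
    ring
  · rw [h, Qt_smul_w hb hcomp hw hF]
  · rw [h, add_smul, one_smul, Qt_add hb hcomp hw, Qt_smul_w hb hcomp hw hF, bt_smul_w hb hw,
      bt_self hb hcomp hw hF]
    linear_combination (-1 : F) * w * Qt w f p x * (add_self_F (1 : F))

theorem Qt_rad (hcomp : ∀ (c : F) a b, β (c • a) b = β a (c • b))
    (hR : ∀ a, (∀ b, β a b = 0) → ∀ x, f (x + a) = f x) (p : V) {r : V}
    (hr : ∀ b, β r b = 0) : Qt w f p r = 0 := by
  have h2 : ∀ b, β (w • r) b = 0 := fun b => by rw [hcomp, hr]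
  rw [Qt, hR _ hr, hR _ h2, CharTwo.add_self_eq_zero, map_zero, mul_zero, add_zero]

/-- The reflections preserve `f`. -/
theorem refl_f (hb : ∀ x a b, f (x + a + b) + f (x + a) + f (x + b) + f x = β a b)
    (hcomp : ∀ (c : F) a b, β (c • a) b = β a (c • b)) (hw : w ^ 2 + w + 1 = 0)
    (hF : ∀ x : F, x = 0 ∨ x = 1 ∨ x = w ∨ x = w + 1)
    {p z : V} {c : F} (hc : c * Qt w f p z = 1) (x : V) :
    f (x + (c * bt w β (x + p) z) • z) = f x := by
  have h1 : f (x + (c * bt w β (x + p) z) • z) + f x = 0 := by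
    apply io_eq_zero (F := F)
    rw [Qt_tr hw, Qt_smul hb hcomp hw hF, Qt_rebase hb hcomp hw p x z]
    have h4 := pow_four hw hF (c * bt w β (x + p) z ^ 2)
    have e : (c * bt w β (x + p) z) ^ 2 * (Qt w f p z + bt w β (x + p) z ^ 2) =
        c * bt w β (x + p) z ^ 2 + (c * bt w β (x + p) z ^ 2) ^ 2 := by
      linear_combination c * bt w β (x + p) z ^ 2 * hc
    rw [e]
    have e2 : c * bt w β (x + p) z ^ 2 + (c * bt w β (x + p) z ^ 2) ^ 2 +
        (c * bt w β (x + p) z ^ 2 + (c * bt w β (x + p) z ^ 2) ^ 2) ^ 2 =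
        c * bt w β (x + p) z ^ 2 + (c * bt w β (x + p) z ^ 2) ^ 4 +
        ((c * bt w β (x + p) z ^ 2) ^ 2 + (c * bt w β (x + p) z ^ 2) ^ 2) +
        (c * bt w β (x + p) z ^ 2 * (c * bt w β (x + p) z ^ 2) ^ 2 +
          c * bt w β (x + p) z ^ 2 * (c * bt w β (x + p) z ^ 2) ^ 2) := by ring
    rw [e2, h4]
    simp only [add_self_F]
  have h2 := CharTwo.add_self_eq_zero (f x)
  linear_combination h1 - h2

/-! ### Moving points -/

theorem exists_bt (hb : ∀ x a b, f (x + a + b) + f (x + a) + f (x + b) + f x = β a b)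
    (hcomp : ∀ (c : F) a b, β (c • a) b = β a (c • b)) (hw : w ^ 2 + w + 1 = 0)
    (hF : ∀ x : F, x = 0 ∨ x = 1 ∨ x = w ∨ x = w + 1) {z : V} (hz : ¬ ∀ b, β z b = 0) (c : F) :
    ∃ x, bt w β x z = c := by
  have h1 : ∃ x, bt w β z x ≠ 0 := by
    by_contra hcon
    push Not at hcon
    exact hz (rad_of_bt hb hw hcon)
  obtain ⟨x, hx⟩ := h1
  refine ⟨(c * (bt w β z x)⁻¹) • x, ?_⟩
  rw [bt_smul_left hb hw hF, bt_comm hb hcomp x z, mul_assoc, inv_mul_cancel₀ hx, mul_one]

/-- the scalars `0` and `1` are `t ^ 2 + t` with `t ≠ 0` -/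
theorem exists_sq_add (hw : w ^ 2 + w + 1 = 0) {e : F} (he : e + e ^ 2 = 0) :
    ∃ t : F, t ≠ 0 ∧ e + t ^ 2 = t := by
  have h1 : e * (1 + e) = 0 := by rw [← he]; ring
  rcases mul_eq_zero.mp h1 with h | h
  · exact ⟨1, one_ne_zero, by rw [h]; ring⟩
  · have h2 : (1 : F) = e := add_eq_zero_iff_F.mp h
    refine ⟨w, w_ne_zero hw, ?_⟩
    rw [← h2, w_sq hw]
    linear_combination add_self_F (1 : F)

/-- Two points with the same value are moved by a reflection. -/
theorem step (hb : ∀ x a b, f (x + a + b) + f (x + a) + f (x + b) + f x = β a b)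
    (hcomp : ∀ (c : F) a b, β (c • a) b = β a (c • b)) (hw : w ^ 2 + w + 1 = 0)
    (hF : ∀ x : F, x = 0 ∨ x = 1 ∨ x = w ∨ x = w + 1) {x y : V} (hxy : f x = f y)
    (hz : ¬ ∀ b, β (x + y) b = 0) :
    ∃ (p : V) (c : F), c * Qt w f p (x + y) = 1 ∧
      x + (c * bt w β (x + p) (x + y)) • (x + y) = y := by
  have e0 : Qt w f x (x + y) + Qt w f x (x + y) ^ 2 = 0 := by
    rw [← Qt_tr hw]
    have e1 : x + (x + y) = y + (x + x) := by abel
    rw [e1, add_self_V (F := F), add_zero, hxy, CharTwo.add_self_eq_zero, map_zero]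
  obtain ⟨t, ht, het⟩ := exists_sq_add hw e0
  obtain ⟨q, hq⟩ := exists_bt hb hcomp hw hF hz t
  have hp : bt w β (x + (x + q)) (x + y) = t := by
    have e1 : x + (x + q) = q + (x + x) := by abel
    rw [e1, add_self_V (F := F), add_zero, hq]
  have hQ : Qt w f (x + q) (x + y) = t := by
    have h := Qt_rebase hb hcomp hw (x + q) x (x + y)
    rw [hp] at h
    rw [h] at het
    have h2 := add_self_F (t ^ 2)
    linear_combination het - h2
  refine ⟨x + q, t⁻¹, by rw [hQ, inv_mul_cancel₀ ht], ?_⟩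
  rw [hp, inv_mul_cancel₀ ht, one_smul]
  have e1 : x + (x + y) = y + (x + x) := by abel
  rw [e1, add_self_V (F := F), add_zero]

/-- Two vectors `u, u'` with the same value of the form at `p` and `bt u u' ≠ 0`: the reflection at
`p` in `u + u'` moves `p + u` to `p + u'`. -/
theorem fix_step (hb : ∀ x a b, f (x + a + b) + f (x + a) + f (x + b) + f x = β a b)
    (hcomp : ∀ (c : F) a b, β (c • a) b = β a (c • b)) (hw : w ^ 2 + w + 1 = 0)
    (hF : ∀ x : F, x = 0 ∨ x = 1 ∨ x = w ∨ x = w + 1) {p u u' : V}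
    (hQ : Qt w f p u = Qt w f p u') (hne : bt w β u u' ≠ 0) :
    ∃ c : F, c * Qt w f p (u + u') = 1 ∧
      p + u + (c * bt w β (p + u + p) (u + u')) • (u + u') = p + u' := by
  have h1 : Qt w f p (u + u') = bt w β u u' := by
    rw [Qt_add hb hcomp hw, hQ, add_self_F, zero_add]
  refine ⟨(bt w β u u')⁻¹, by rw [h1, inv_mul_cancel₀ hne], ?_⟩
  have e1 : p + u + p = u + (p + p) := by abel
  rw [e1, add_self_V (F := F), add_zero, bt_add_right hb, bt_self hb hcomp hw hF, zero_add,
    inv_mul_cancel₀ hne, one_smul]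
  have e2 : p + u + (u + u') = p + u' + (u + u) := by abel
  rw [e2, add_self_V (F := F), add_zero]

theorem exists_two (hb : ∀ x a b, f (x + a + b) + f (x + a) + f (x + b) + f x = β a b)
    (hcomp : ∀ (c : F) a b, β (c • a) b = β a (c • b)) (hw : w ^ 2 + w + 1 = 0)
    (hF : ∀ x : F, x = 0 ∨ x = 1 ∨ x = w ∨ x = w + 1)
    (hR : ∀ a, (∀ b, β a b = 0) → ∀ x, f (x + a) = f x) {p u u' : V} {c : F} (hc : c ≠ 0)
    (hu : Qt w f p u = c) (hu' : Qt w f p u' = c) (hz : ¬ ∀ b, β (u + u') b = 0) :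
    ∃ v, bt w β u v = 1 ∧ bt w β u' v = 1 := by
  have hru : ¬ ∀ b, β u b = 0 := by
    intro h
    apply hc
    rw [← hu, Qt_rad hcomp hR _ h]
  obtain ⟨v0, hv0⟩ := exists_bt hb hcomp hw hF hru 1
  rw [bt_comm hb hcomp] at hv0
  by_cases hk : ∃ k, bt w β u k = 0 ∧ bt w β u' k ≠ 0
  · obtain ⟨k, hk1, hk2⟩ := hk
    refine ⟨v0 + ((1 + bt w β u' v0) * (bt w β u' k)⁻¹) • k, ?_, ?_⟩
    · rw [bt_add_right hb, bt_smul_right hb hcomp hw hF, hk1, hv0, mul_zero, add_zero]
    · rw [bt_add_right hb, bt_smul_right hb hcomp hw hF, mul_assoc, inv_mul_cancel₀ hk2, mul_one]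
      linear_combination add_self_F (bt w β u' v0)
  · exfalso
    push Not at hk
    -- `u' + λ u` is in the radical
    have h1 : ∀ v, bt w β (u' + (bt w β u' v0) • u) v = 0 := by
      intro v
      have h2 := hk (v + (bt w β u v) • v0) (by
        rw [bt_add_right hb, bt_smul_right hb hcomp hw hF, hv0, mul_one, add_self_F])
      rw [bt_add_right hb, bt_smul_right hb hcomp hw hF] at h2
      rw [bt_add_left hb, bt_smul_left hb hw hF, mul_comm]
      exact h2
    have h2 := rad_of_bt hb hw h1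
    have h3 := Qt_rad (w := w) hcomp hR p h2
    have h4 : bt w β u' u = 0 := by
      have h5 := h1 u
      rw [bt_add_left hb, bt_smul_left hb hw hF, bt_self hb hcomp hw hF, mul_zero, add_zero] at h5
      exact h5
    rw [Qt_add hb hcomp hw, bt_smul_right hb hcomp hw hF, h4, mul_zero, add_zero,
      Qt_smul hb hcomp hw hF, hu, hu'] at h3
    have h5 : c * (1 + bt w β u' v0) ^ 2 = 0 := by
      have e : c * (1 + bt w β u' v0) ^ 2 = (c + bt w β u' v0 ^ 2 * c) +
        (c * bt w β u' v0 + c * bt w β u' v0) := by ring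
      rw [e, h3, add_self_F, add_zero]
    rcases mul_eq_zero.mp h5 with h | h
    · exact hc h
    · have h6 : (1 : F) + bt w β u' v0 = 0 := by
        exact pow_eq_zero_iff (two_ne_zero) |>.mp h
      have h7 : (1 : F) = bt w β u' v0 := add_eq_zero_iff_F.mp h6
      rw [← h7, one_smul] at h2
      apply hz
      rw [add_comm]
      exact h2

/-- An intermediate vector. -/
theorem exists_mid (hb : ∀ x a b, f (x + a + b) + f (x + a) + f (x + b) + f x = β a b)
    (hcomp : ∀ (c : F) a b, β (c • a) b = β a (c • b)) (hw : w ^ 2 + w + 1 = 0)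
    (hF : ∀ x : F, x = 0 ∨ x = 1 ∨ x = w ∨ x = w + 1)
    (hR : ∀ a, (∀ b, β a b = 0) → ∀ x, f (x + a) = f x) {p u u' : V} {c : F} (hc : c ≠ 0)
    (hu : Qt w f p u = c) (hu' : Qt w f p u' = c) (hz : ¬ ∀ b, β (u + u') b = 0)
    (h0 : bt w β u u' = 0) :
    ∃ t, Qt w f p t = c ∧ bt w β u t ≠ 0 ∧ bt w β u' t ≠ 0 := by
  obtain ⟨v, hv, hv'⟩ := exists_two hb hcomp hw hF hR hc hu hu' hz
  have hsq : ∀ y : F, ∃ d : F, d ^ 2 = y := by
    intro y
    refine ⟨y ^ 2, ?_⟩
    rw [← pow_mul]
    exact pow_four hw hF y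
  have h0' : bt w β u' u = 0 := by rw [bt_comm hb hcomp, h0]
  by_cases hQ : Qt w f p v = 0
  · -- `e' = 1 / c`
    obtain ⟨d, hd⟩ := hsq (c * c)
    have hd0 : d ≠ 0 := by
      rintro rfl
      rw [zero_pow two_ne_zero] at hd
      exact hc (mul_self_eq_zero.mp hd.symm)
    refine ⟨(w * d * c⁻¹) • u + d • v, ?_, ?_, ?_⟩
    · rw [Qt_add hb hcomp hw, Qt_smul hb hcomp hw hF, Qt_smul hb hcomp hw hF, hu, hQ,
        bt_smul_left hb hw hF, bt_smul_right hb hcomp hw hF, hv, mul_zero, add_zero, mul_one]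
      have e : (w * d * c⁻¹) ^ 2 * c + w * d * c⁻¹ * d = (w ^ 2 + w) * (c * c) * c⁻¹ := by
        field_simp
        rw [hd]
        ring
      rw [e, w_sq hw]
      have e2 : (w + 1 + w : F) = 1 := by linear_combination add_self_F w
      rw [e2, one_mul, mul_assoc, mul_inv_cancel₀ hc, mul_one]
    · rw [bt_add_right hb, bt_smul_right hb hcomp hw hF, bt_smul_right hb hcomp hw hF,
        bt_self hb hcomp hw hF, hv, mul_zero, zero_add, mul_one]
      exact hd0
    · rw [bt_add_right hb, bt_smul_right hb hcomp hw hF, bt_smul_right hb hcomp hw hF,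
        h0', hv', mul_zero, zero_add, mul_one]
      exact hd0
  · obtain ⟨d, hd⟩ := hsq (c * (Qt w f p v)⁻¹)
    have hd0 : d ≠ 0 := by
      rintro rfl
      rw [zero_pow two_ne_zero] at hd
      rcases mul_eq_zero.mp hd.symm with h | h
      · exact hc h
      · exact inv_ne_zero hQ h
    refine ⟨d • v, ?_, ?_, ?_⟩
    · rw [Qt_smul hb hcomp hw hF, hd, mul_assoc, inv_mul_cancel₀ hQ, mul_one]
    · rw [bt_smul_right hb hcomp hw hF, hv, mul_one]
      exact hd0
    · rw [bt_smul_right hb hcomp hw hF, hv', mul_one]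
      exact hd0

/-! ### The group -/

/-- an `F`-affine map preserving `f` preserves the quadratic forms -/
theorem Qt_map {g : V → V} (hf : ∀ x, f (g x) = f x)
    (hl : ∀ (c : F) x y, g (x + c • (x + y)) = g x + c • (g x + g y)) (p y : V) :
    Qt w f (g p) (g p + g y) = Qt w f p (p + y) := by
  have e1 : g p + (g p + g y) = g (p + (1 : F) • (p + y)) := by rw [hl, one_smul]
  rw [Qt, Qt, ← hl, e1, hf, hf, hf, one_smul]

/-- a semilinear map which is not linear, preserving `f`, conjugates the values of the forms -/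
theorem Qt_map_conj (hb : ∀ x a b, f (x + a + b) + f (x + a) + f (x + b) + f x = β a b)
    (hcomp : ∀ (c : F) a b, β (c • a) b = β a (c • b)) (hw : w ^ 2 + w + 1 = 0)
    (hF : ∀ x : F, x = 0 ∨ x = 1 ∨ x = w ∨ x = w + 1) {g : V → V} (hf : ∀ x, f (g x) = f x)
    (hl : ∀ (c : F) x y, g (x + c • (x + y)) = g x + c ^ 2 • (g x + g y)) (p y : V) :
    Qt w f (g p) (g p + g y) = Qt w f p (p + y) ^ 2 := by
  have e1 : g p + (g p + g y) = g (p + (1 : F) • (p + y)) := by rw [hl, one_pow, one_smul]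
  have e2 : g p + w • (g p + g y) = g (p + (w ^ 2) • (p + y)) := by
    rw [hl, ← pow_mul, pow_four hw hF]
  rw [Qt, e1, e2, hf, hf, hf, one_smul, w_sq hw, add_smul, one_smul]
  have h := hb p (w • (p + y)) (p + y)
  rw [beta_smul_self hb hcomp hw hF, add_assoc p] at h
  have h1 : f (p + (w • (p + y) + (p + y))) + f p =
      (f (p + (p + y)) + f p) + (f (p + w • (p + y)) + f p) := by
    linear_combination h - CharTwo.add_self_eq_zero (f (p + (p + y))) -
      CharTwo.add_self_eq_zero (f (p + w • (p + y))) - CharTwo.add_self_eq_zero (f p)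
  rw [h1, map_add (io F) (f (p + (p + y)) + f p), Qt]
  have g1 := io_sq (F := F) (f (p + (p + y)) + f p)
  have g2 := io_sq (F := F) (f (p + w • (p + y)) + f p)
  have h4 : (w * io F (f (p + (p + y)) + f p) + io F (f (p + w • (p + y)) + f p)) ^ 2 =
      w ^ 2 * io F (f (p + (p + y)) + f p) ^ 2 + io F (f (p + w • (p + y)) + f p) ^ 2 +
      (w * io F (f (p + (p + y)) + f p) * io F (f (p + w • (p + y)) + f p) +
        w * io F (f (p + (p + y)) + f p) * io F (f (p + w • (p + y)) + f p)) := by ring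
  rw [h4, add_self_F, g1, g2, w_sq hw]
  ring

/-- Transitivity: `P` is a property of `F`-affine maps preserving `f`. -/
theorem exists_move (hb : ∀ x a b, f (x + a + b) + f (x + a) + f (x + b) + f x = β a b)
    (hcomp : ∀ (c : F) a b, β (c • a) b = β a (c • b)) (hw : w ^ 2 + w + 1 = 0)
    (hF : ∀ x : F, x = 0 ∨ x = 1 ∨ x = w ∨ x = w + 1) {P : (V → V) → Prop}
    (hPc : ∀ g h, P g → P h → P (g ∘ h))
    (htr : ∀ r, (∀ b, β r b = 0) → P (fun x => x + r))
    (hrefl : ∀ (p z : V) (c : F), c * Qt w f p z = 1 → ∃ g, P g ∧ g p = p ∧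
      ∀ x, ∀ b, β (g x + (x + (c * bt w β (x + p) z) • z)) b = 0)
    {x y : V} (hxy : f x = f y) : ∃ g, P g ∧ g x = y := by
  by_cases hz : ∀ b, β (x + y) b = 0
  · refine ⟨_, htr _ hz, ?_⟩
    have e1 : x + (x + y) = y + (x + x) := by abel
    rw [e1, add_self_V (F := F), add_zero]
  · obtain ⟨p, c, hc, hst⟩ := step hb hcomp hw hF hxy hz
    obtain ⟨g, hg, -, hgx⟩ := hrefl p (x + y) c hc
    have h1 := hgx x
    rw [hst] at h1
    refine ⟨_, hPc _ _ (htr _ h1) hg, ?_⟩
    change g x + (g x + y) = y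
    have e1 : g x + (g x + y) = y + (g x + g x) := by abel
    rw [e1, add_self_V (F := F), add_zero]

theorem exists_fix (hb : ∀ x a b, f (x + a + b) + f (x + a) + f (x + b) + f x = β a b)
    (hcomp : ∀ (c : F) a b, β (c • a) b = β a (c • b)) (hw : w ^ 2 + w + 1 = 0)
    (hF : ∀ x : F, x = 0 ∨ x = 1 ∨ x = w ∨ x = w + 1)
    (hR : ∀ a, (∀ b, β a b = 0) → ∀ x, f (x + a) = f x) {P : (V → V) → Prop}
    (hPc : ∀ g h, P g → P h → P (g ∘ h))
    (hrefl : ∀ (p z : V) (c : F), c * Qt w f p z = 1 → ∃ g, P g ∧ g p = p ∧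
      ∀ x, ∀ b, β (g x + (x + (c * bt w β (x + p) z) • z)) b = 0)
    (hrad : ∀ p y y' : V, (¬ ∀ b, β (p + y) b = 0) → (∀ b, β (y + y') b = 0) →
      ∃ g, P g ∧ g p = p ∧ g y = y')
    {p y y' : V} (hQ : Qt w f p (p + y) = Qt w f p (p + y')) (h0 : Qt w f p (p + y) ≠ 0) :
    ∃ g, P g ∧ g p = p ∧ g y = y' := by
  -- the case where the form does not vanish
  have key : ∀ a b : V, Qt w f p (p + a) = Qt w f p (p + b) → Qt w f p (p + a) ≠ 0 →
      bt w β (p + a) (p + b) ≠ 0 → ∃ g, P g ∧ g p = p ∧ g a = b := by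
    intro a b hab ha hne
    obtain ⟨c, hc, hst⟩ := fix_step hb hcomp hw hF hab hne
    obtain ⟨g, hg, hgp, hgx⟩ := hrefl p _ c hc
    have e0 : ∀ v : V, p + (p + v) = v := by
      intro v
      have e1 : p + (p + v) = v + (p + p) := by abel
      rw [e1, add_self_V (F := F), add_zero]
    rw [e0, e0] at hst
    have h1 := hgx a
    rw [hst] at h1
    have h2 : ¬ ∀ c, β (p + g a) c = 0 := by
      intro h3
      apply ha
      rw [hab]
      apply Qt_rad hcomp hR
      intro c
      have e1 : p + b = (p + g a) + (g a + b) := by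
        have : (p + g a) + (g a + b) = p + b + (g a + g a) := by abel
        rw [this, add_self_V (F := F), add_zero]
      rw [e1, beta_add_left hb, h3, h1, add_zero]
    obtain ⟨g', hg', hgp', hga'⟩ := hrad p (g a) b h2 h1
    exact ⟨g' ∘ g, hPc _ _ hg' hg, by simp [hgp, hgp'], by simp [hga']⟩
  by_cases hne : bt w β (p + y) (p + y') = 0
  · by_cases hz : ∀ b, β (p + y + (p + y')) b = 0
    · apply hrad p y y'
      · intro h3
        exact h0 (Qt_rad hcomp hR _ h3)
      · intro b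
        have e1 : p + y + (p + y') = y + y' + (p + p) := by abel
        have := hz b
        rwa [e1, add_self_V (F := F), add_zero] at this
    · obtain ⟨t, ht, h1, h2⟩ := exists_mid hb hcomp hw hF hR h0 rfl hQ.symm hz hne
      have e0 : ∀ v : V, p + (p + v) = v := by
        intro v
        have e1 : p + (p + v) = v + (p + p) := by abel
        rw [e1, add_self_V (F := F), add_zero]
      obtain ⟨g, hg, hgp, hga⟩ := key y (p + t) (by rw [e0, ht]) h0 (by rw [e0]; exact h1)
      obtain ⟨g', hg', hgp', hga'⟩ := key (p + t) y' (by rw [e0, ht]; exact hQ)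
        (by rw [e0, ht]; exact h0) (by rw [e0, bt_comm hb hcomp]; exact h2)
      exact ⟨g' ∘ g, hPc _ _ hg' hg, by simp [hgp, hgp'], by simp [hga, hga']⟩
  · exact key y y' hQ h0 hne

/-- the value of the form between points with different values of `f` -/
theorem Qt_value (hw : w ^ 2 + w + 1 = 0) (hF : ∀ x : F, x = 0 ∨ x = 1 ∨ x = w ∨ x = w + 1)
    {p y : V} (h : f p ≠ f y) : Qt w f p (p + y) = w ∨ Qt w f p (p + y) = w + 1 := by
  have h1 := Qt_tr (f := f) hw p (p + y)
  have e1 : p + (p + y) = y + (p + p) := by abel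
  rw [e1, add_self_V (F := F), add_zero] at h1
  have h2 : f y + f p = 1 := by
    rcases zmod2_cases (f y) with h3 | h3 <;> rcases zmod2_cases (f p) with h4 | h4 <;>
      rw [h3, h4]
    · exact absurd (h4.trans h3.symm) h
    · rfl
    · rfl
    · exact absurd (h4.trans h3.symm) h
  rw [h2, map_one] at h1
  rcases hF (Qt w f p (p + y)) with h3 | h3 | h3 | h3
  · rw [h3] at h1
    simp at h1
  · rw [h3] at h1
    rw [one_pow, add_self_F] at h1
    exact absurd h1 one_ne_zero
  · exact Or.inl h3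
  · exact Or.inr h3

/-- The stabiliser of the quadric is transitive on the pairs of points with different values, if it
contains a semilinear map which is not linear. -/
theorem s4 (hb : ∀ x a b, f (x + a + b) + f (x + a) + f (x + b) + f x = β a b)
    (hcomp : ∀ (c : F) a b, β (c • a) b = β a (c • b)) (hw : w ^ 2 + w + 1 = 0)
    (hF : ∀ x : F, x = 0 ∨ x = 1 ∨ x = w ∨ x = w + 1)
    (hR : ∀ a, (∀ b, β a b = 0) → ∀ x, f (x + a) = f x) {P P2 : (V → V) → Prop}
    (hPc : ∀ g h, P g → P h → P (g ∘ h))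
    (hPf : ∀ g, P g → ∀ x, f (g x) = f x)
    (hPl : ∀ g, P g → ∀ (c : F) x y, g (x + c • (x + y)) = g x + c • (g x + g y))
    (htr : ∀ r, (∀ b, β r b = 0) → P (fun x => x + r))
    (hrefl : ∀ (p z : V) (c : F), c * Qt w f p z = 1 → ∃ g, P g ∧ g p = p ∧
      ∀ x, ∀ b, β (g x + (x + (c * bt w β (x + p) z) • z)) b = 0)
    (hrad : ∀ p y y' : V, (¬ ∀ b, β (p + y) b = 0) → (∀ b, β (y + y') b = 0) →
      ∃ g, P g ∧ g p = p ∧ g y = y')
    {g0 : V → V} (h0f : ∀ x, f (g0 x) = f x)
    (h0l : ∀ (c : F) x y, g0 (x + c • (x + y)) = g0 x + c ^ 2 • (g0 x + g0 y))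
    (hP2 : ∀ g, P g → P2 g) (hP2' : ∀ g, P g → P2 (g ∘ g0))
    {p y p' y' : V} (hp : f p = f p') (hy : f y = f y') (hne : f p ≠ f y) :
    ∃ g, P2 g ∧ g p = p' ∧ g y = y' := by
  have hne' : f p' ≠ f y' := by rw [← hp, ← hy]; exact hne
  have hv := Qt_value hw hF hne
  have hv' := Qt_value hw hF hne'
  have hw0 := w_ne_zero hw
  have hw1 : w + 1 ≠ 0 := by
    rw [← w_sq hw]
    exact pow_ne_zero 2 hw0
  by_cases hQ : Qt w f p (p + y) = Qt w f p' (p' + y')
  · obtain ⟨g1, hg1, hg1p⟩ := exists_move hb hcomp hw hF hPc htr hrefl hp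
    have h1 := Qt_map (w := w) (hPf g1 hg1) (hPl g1 hg1) p y
    rw [hg1p] at h1
    obtain ⟨g2, hg2, hg2p, hg2y⟩ := exists_fix hb hcomp hw hF hR hPc hrefl hrad
      (p := p') (y := g1 y) (y' := y') (by rw [h1, hQ]) (by
        rw [h1]
        rcases hv with h | h <;> rw [h]
        · exact hw0
        · exact hw1)
    exact ⟨g2 ∘ g1, hP2 _ (hPc _ _ hg2 hg1), by simp [hg1p, hg2p], by simp [hg2y]⟩
  · have hsq : Qt w f p' (p' + y') = Qt w f p (p + y) ^ 2 := by
      rcases hv with h | h <;> rcases hv' with h' | h'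
      · exact absurd (h.trans h'.symm) hQ
      · rw [h, h', w_sq hw]
      · rw [h, h']
        have : (w + 1) ^ 2 = w ^ 2 + (w + w) + 1 := by ring
        rw [this, add_self_F, w_sq hw]
        linear_combination (-1 : F) * add_self_F (1 : F)
      · exact absurd (h.trans h'.symm) hQ
    obtain ⟨g1, hg1, hg1p⟩ := exists_move hb hcomp hw hF hPc htr hrefl
      (x := g0 p) (y := p') (by rw [h0f, hp])
    have h1 := Qt_map (w := w) (hPf g1 hg1) (hPl g1 hg1) (g0 p) (g0 y)
    rw [hg1p, Qt_map_conj hb hcomp hw hF h0f h0l] at h1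
    obtain ⟨g2, hg2, hg2p, hg2y⟩ := exists_fix hb hcomp hw hF hR hPc hrefl hrad
      (p := p') (y := g1 (g0 y)) (y' := y') (by rw [h1, hsq]) (by
        rw [h1]
        apply pow_ne_zero
        rcases hv with h | h <;> rw [h]
        · exact hw0
        · exact hw1)
    exact ⟨(g2 ∘ g1) ∘ g0, hP2' _ (hPc _ _ hg2 hg1), by simp [hg1p, hg2p], by simp [hg2y]⟩

end

end Pool.Agent.SIT.S4
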