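import Pool.Agent.SIT.SpDefs

/-!
# Semilinear affine maps preserving a function, and the passage to the quotient by the periods
-/

namespace Pool.Agent.SIT

open Finset

section Basic

variable {F : Type*} [Field F] {V : Type*} [AddCommGroup V] [Module F V]

/-- `P g t σ` : the affine map `x ↦ g x + t` is `σ`-semilinear and preserves `f`; these maps are
closed under composition and inverses and transitive on the pairs `(x, y)` with `f x ≠ f y` (for
fixed values). -/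
structure SG (f : V → ZMod 2) (P : (V ≃+ V) → V → (F ≃+* F) → Prop) : Prop where
  semi : ∀ {g t σ}, P g t σ → ∀ (c : F) (x : V), g (c • x) = σ c • g x
  pres : ∀ {g t σ}, P g t σ → ∀ x, f (g x + t) = f x
  one : P (AddEquiv.refl V) 0 (RingEquiv.refl F)
  mul : ∀ {g t σ g' t' σ'}, P g t σ → P g' t' σ' → P (g'.trans g) (g t' + t) (σ'.trans σ)
  inv : ∀ {g t σ}, P g t σ → P g.symm (g.symm t) σ.symm
  trans : ∀ x y x' y', f x = f x' → f y = f y' → f x ≠ f y →
    ∃ g t σ, P g t σ ∧ g x + t = x' ∧ g y + t = y'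

lemma ne_or (a b c : ZMod 2) (h : a ≠ b) : c = a ∨ c = b := by
  revert a b c
  decide

lemma exists_pq {V : Type*} [AddCommGroup V] (h2 : ∀ x : V, x + x = 0) {f : V → ZMod 2} {a : V}
    (ha : ∃ x, f (x + a) ≠ f x) : ∃ p, f p = 1 ∧ f (p + a) = 0 := by
  obtain ⟨x, hx⟩ := ha
  rcases zmod2_cases (f x) with h | h
  · refine ⟨x + a, ?_, ?_⟩
    · rcases zmod2_cases (f (x + a)) with h' | h'
      · exact absurd (h'.trans h.symm) hx
      · exact h'
    · rw [add_assoc, h2, add_zero, h]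
  · refine ⟨x, h, ?_⟩
    rcases zmod2_cases (f (x + a)) with h' | h'
    · exact h'
    · exact absurd (h'.trans h.symm) hx

variable {f : V → ZMod 2} {P : (V ≃+ V) → V → (F ≃+* F) → Prop}

/-- Linear parts are transitive on the vectors that are not periods. -/
lemma SG.lin_trans (h : SG f P) (h2 : ∀ x : V, x + x = 0) {a b : V} (ha : ∃ x, f (x + a) ≠ f x)
    (hb : ∃ x, f (x + b) ≠ f x) : ∃ g t σ, P g t σ ∧ g a = b := by
  obtain ⟨p, hp, hp'⟩ := exists_pq h2 ha
  obtain ⟨q, hq, hq'⟩ := exists_pq h2 hb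
  obtain ⟨g, t, σ, hg, h3, h4⟩ := h.trans p (p + a) q (q + b) (by rw [hp, hq]) (by rw [hp', hq'])
    (by rw [hp, hp']; decide)
  refine ⟨g, t, σ, hg, ?_⟩
  rw [map_add] at h4
  have h5 : g p + t + g a = g p + t + b := by
    calc g p + t + g a = g p + g a + t := by abel
      _ = q + b := h4
      _ = g p + t + b := by rw [h3]
  exact add_left_cancel h5

/-- Linear parts preserve the polar form. -/
lemma SG.polar (h : SG f P) {β : V → V → ZMod 2}
    (hβ : ∀ x a b, f (x + a + b) + f (x + a) + f (x + b) + f x = β a b)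
    {g : V ≃+ V} {t : V} {σ : F ≃+* F} (hg : P g t σ) (a b : V) : β (g a) (g b) = β a b := by
  rw [← hβ t (g a) (g b), ← hβ 0 a b, ← h.pres hg (0 + a + b), ← h.pres hg (0 + a),
    ← h.pres hg (0 + b), ← h.pres hg 0]
  simp only [map_add, map_zero, zero_add]
  congr 1
  · congr 1
    · congr 1
      · congr 1
        abel
      · congr 1
        abel
    · congr 1
      abel

/-- Periods are preserved. -/
lemma SG.period (h : SG f P) {g : V ≃+ V} {t : V} {σ : F ≃+* F} (hg : P g t σ) {r : V}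
    (hr : ∀ x, f (x + r) = f x) (x : V) : f (x + g r) = f x := by
  have h1 : ∃ y, g y + t = x := ⟨g.symm (x - t), by rw [g.apply_symm_apply, sub_add_cancel]⟩
  obtain ⟨y, rfl⟩ := h1
  have h2 : g y + t + g r = g (y + r) + t := by
    rw [map_add]
    abel
  rw [h2, h.pres hg, h.pres hg, hr]

lemma SG.period_iff (h : SG f P) {g : V ≃+ V} {t : V} {σ : F ≃+* F} (hg : P g t σ) {r : V} :
    (∀ x, f (x + g r) = f x) ↔ ∀ x, f (x + r) = f x := by
  constructor
  · intro h1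
    have h2 := h.period (h.inv hg) h1
    rwa [g.symm_apply_apply] at h2
  · intro h1
    exact h.period hg h1

end Basic

section Quot

variable {F : Type*} [Field F] {V : Type*} [AddCommGroup V] [Module F V]

/-- the additive automorphism of `V ⧸ R` -/
noncomputable def quotEquiv (R : Submodule F V) (g : V ≃+ V) (h : ∀ x, g x ∈ R ↔ x ∈ R) :
    (V ⧸ R) ≃+ (V ⧸ R) :=
  QuotientAddGroup.congr R.toAddSubgroup R.toAddSubgroup g (by
    ext x
    rw [AddSubgroup.mem_map]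
    constructor
    · rintro ⟨y, hy, rfl⟩
      exact (h y).2 hy
    · intro hx
      refine ⟨g.symm x, ?_, g.apply_symm_apply x⟩
      apply (h _).1
      rw [g.apply_symm_apply]
      exact hx)

lemma quotEquiv_mk (R : Submodule F V) (g : V ≃+ V) (h : ∀ x, g x ∈ R ↔ x ∈ R) (x : V) :
    quotEquiv R g h (Submodule.Quotient.mk x) = Submodule.Quotient.mk (g x) := rfl

lemma quotEquiv_mkQ (R : Submodule F V) (g : V ≃+ V) (h : ∀ x, g x ∈ R ↔ x ∈ R) (x : V) :
    quotEquiv R g h (R.mkQ x) = R.mkQ (g x) := rfl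

/-- the function on the quotient -/
noncomputable def qf (R : Submodule F V) (f : V → ZMod 2) (x : V ⧸ R) : ZMod 2 :=
  f (Function.surjInv R.mkQ_surjective x)

lemma qf_mkQ {R : Submodule F V} {f : V → ZMod 2} (hR : ∀ r ∈ R, ∀ x, f (x + r) = f x) (x : V) :
    qf R f (R.mkQ x) = f x := by
  rw [qf]
  have h1 : R.mkQ (Function.surjInv R.mkQ_surjective (R.mkQ x)) = R.mkQ x :=
    Function.surjInv_eq R.mkQ_surjective (R.mkQ x)
  have h2 : Function.surjInv R.mkQ_surjective (R.mkQ x) - x ∈ R := by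
    rw [← Submodule.Quotient.mk_eq_zero R, Submodule.Quotient.mk_sub, sub_eq_zero]
    exact h1
  have h3 := hR _ h2 x
  rw [add_sub_cancel] at h3
  exact h3

/-- the maps on the quotient -/
def qP (R : Submodule F V) (P : (V ≃+ V) → V → (F ≃+* F) → Prop)
    (g' : (V ⧸ R) ≃+ (V ⧸ R)) (t' : V ⧸ R) (σ : F ≃+* F) : Prop :=
  ∃ g t, P g t σ ∧ (∀ x, g' (R.mkQ x) = R.mkQ (g x)) ∧ t' = R.mkQ t

variable {f : V → ZMod 2} {P : (V ≃+ V) → V → (F ≃+* F) → Prop}

/-- The passage to the quotient by the periods. -/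
theorem SG.quot (h : SG f P) (R : Submodule F V) (hR : ∀ r, r ∈ R ↔ ∀ x, f (x + r) = f x) :
    SG (qf R f) (qP R P) := by
  have hR' : ∀ r ∈ R, ∀ x, f (x + r) = f x := fun r hr => (hR r).1 hr
  refine ⟨?_, ?_, ?_, ?_, ?_, ?_⟩
  · rintro g' t' σ ⟨g, t, hg, h1, rfl⟩ c x
    obtain ⟨x, rfl⟩ := R.mkQ_surjective x
    rw [← map_smul, h1, h1, h.semi hg, map_smul]
  · rintro g' t' σ ⟨g, t, hg, h1, rfl⟩ x
    obtain ⟨x, rfl⟩ := R.mkQ_surjective x
    rw [h1, ← map_add, qf_mkQ hR', qf_mkQ hR', h.pres hg]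
  · exact ⟨AddEquiv.refl V, 0, h.one, fun x => rfl, (map_zero _).symm⟩
  · rintro g₁ t₁ σ₁ g₂ t₂ σ₂ ⟨g, t, hg, h1, rfl⟩ ⟨g', t', hg', h1', rfl⟩
    refine ⟨_, _, h.mul hg hg', ?_, ?_⟩
    · intro x
      change g₁ (g₂ (R.mkQ x)) = R.mkQ (g (g' x))
      rw [h1', h1]
    · rw [h1, ← map_add]
  · rintro g₁ t₁ σ₁ ⟨g, t, hg, h1, rfl⟩
    refine ⟨_, _, h.inv hg, ?_, ?_⟩
    · intro x
      rw [AddEquiv.symm_apply_eq, h1, g.apply_symm_apply]
    · rw [AddEquiv.symm_apply_eq, h1, g.apply_symm_apply]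
  · intro x y x' y' hx hy hxy
    obtain ⟨x, rfl⟩ := R.mkQ_surjective x
    obtain ⟨y, rfl⟩ := R.mkQ_surjective y
    obtain ⟨x', rfl⟩ := R.mkQ_surjective x'
    obtain ⟨y', rfl⟩ := R.mkQ_surjective y'
    rw [qf_mkQ hR', qf_mkQ hR'] at hx hy hxy
    obtain ⟨g, t, σ, hg, h1, h2⟩ := h.trans x y x' y' hx hy hxy
    have h3 : ∀ x, g x ∈ R ↔ x ∈ R := by
      intro x
      rw [hR, hR, h.period_iff hg]
    refine ⟨quotEquiv R g h3, R.mkQ t, σ, ⟨g, t, hg, fun x => rfl, rfl⟩, ?_, ?_⟩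
    · rw [quotEquiv_mkQ, ← map_add, h1]
    · rw [quotEquiv_mkQ, ← map_add, h2]

/-- the polar form of the function on the quotient -/
lemma qf_polar {R : Submodule F V} (hR : ∀ r, r ∈ R ↔ ∀ x, f (x + r) = f x)
    {β : V → V → ZMod 2} (hβ : ∀ x a b, f (x + a + b) + f (x + a) + f (x + b) + f x = β a b)
    (x a b : V) : qf R f (R.mkQ x + R.mkQ a + R.mkQ b) + qf R f (R.mkQ x + R.mkQ a) +
      qf R f (R.mkQ x + R.mkQ b) + qf R f (R.mkQ x) = β a b := by
  have hR' : ∀ r ∈ R, ∀ x, f (x + r) = f x := fun r hr => (hR r).1 hr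
  rw [← map_add, ← map_add, ← map_add, qf_mkQ hR', qf_mkQ hR', qf_mkQ hR', qf_mkQ hR', hβ]

/-- the form on the quotient -/
noncomputable def qβ (R : Submodule F V) (β : V → V → ZMod 2) (a b : V ⧸ R) : ZMod 2 :=
  β (Function.surjInv R.mkQ_surjective a) (Function.surjInv R.mkQ_surjective b)

lemma qβ_polar {R : Submodule F V} (hR : ∀ r, r ∈ R ↔ ∀ x, f (x + r) = f x)
    {β : V → V → ZMod 2} (hβ : ∀ x a b, f (x + a + b) + f (x + a) + f (x + b) + f x = β a b)
    (x a b : V ⧸ R) : qf R f (x + a + b) + qf R f (x + a) +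
      qf R f (x + b) + qf R f x = qβ R β a b := by
  have hs : ∀ y : V ⧸ R, R.mkQ (Function.surjInv R.mkQ_surjective y) = y :=
    fun y => Function.surjInv_eq R.mkQ_surjective y
  have h1 := qf_polar hR hβ (Function.surjInv R.mkQ_surjective x)
    (Function.surjInv R.mkQ_surjective a) (Function.surjInv R.mkQ_surjective b)
  rw [hs, hs, hs] at h1
  exact h1

lemma qβ_mkQ {R : Submodule F V} (hR : ∀ r, r ∈ R ↔ ∀ x, f (x + r) = f x)
    {β : V → V → ZMod 2} (hβ : ∀ x a b, f (x + a + b) + f (x + a) + f (x + b) + f x = β a b)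
    (a b : V) : qβ R β (R.mkQ a) (R.mkQ b) = β a b := by
  rw [← qβ_polar hR hβ (R.mkQ 0), qf_polar hR hβ]

end Quot

end Pool.Agent.SIT
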