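import Pool.Agent.SIT.SpMain
import Pool.Agent.SIT.LinS2
import Pool.Agent.SIT.LinS4G

/-!
# Sufficiency for the groups between `ASL(m,q)` and `AΓL(m,q)`
-/

namespace Pool.Agent.SIT

open Finset

/-- If the stabiliser of `γ` in `G` is transitive on `γ × γᶜ`, the `G`-orbit of `γ` is a
`G`-strongly incidence-transitive code. -/
theorem orbit_sit {n : ℕ} {G : Subgroup (AGL n)} {γ : Finset (Vec n)}
    (h : ∀ u ∈ γ, ∀ u' ∉ γ, ∀ w ∈ γ, ∀ w' ∉ γ, ∃ g ∈ G, act g γ = γ ∧ g u = w ∧ g u' = w') :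
    IsSITCode G γ.card {δ | ∃ g ∈ G, δ = act g γ} := by
  have hs : ∀ (g : AGL n) (δ : Finset (Vec n)), act g⁻¹ (act g δ) = δ :=
    fun g δ => act_symm_act g δ
  apply isSIT_of
  · rintro δ ⟨g, -, rfl⟩
    exact card_act g γ
  · rintro g hg δ ⟨g', hg', rfl⟩
    exact ⟨g * g', G.mul_mem hg hg', (act_mul g g' γ).symm⟩
  · rintro δ ⟨g, hg, rfl⟩ δ' ⟨g', hg', rfl⟩
    exact ⟨g' * g⁻¹, G.mul_mem hg' (G.inv_mem hg), by rw [act_mul, hs]⟩
  · rintro δ ⟨g, hg, rfl⟩ u hu u' hu' w hw w' hw'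
    rw [mem_act'] at hu hu' hw hw'
    obtain ⟨a, ha, h1, h2, h3⟩ := h _ hu _ hu' _ hw _ hw'
    refine ⟨g * a * g⁻¹, G.mul_mem (G.mul_mem hg ha) (G.inv_mem hg), ?_, ?_, ?_⟩
    · rw [act_mul, act_mul, hs, h1]
    · change g (a (g.symm u)) = w
      rw [h2, g.apply_symm_apply]
    · change g (a (g.symm u')) = w'
      rw [h3, g.apply_symm_apply]

section

variable {n : ℕ} {F : Type*} [Field F] [Module F (Vec n)]

/-- `G` consists of affine maps that are semilinear over `F`, and contains all translations and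
all `F`-transvections (so `ASL(m,F) ≤ G ≤ AΓL(m,F)`). -/
structure LinGrp (F : Type*) [Field F] [Module F (Vec n)] (G : Subgroup (AGL n)) : Prop where
  semi : ∀ g ∈ G, ∃ σ : F ≃+* F, ∀ (c : F) (x : Vec n), g.linear (c • x) = σ c • g.linear x
  trans : ∀ t : Vec n, AffineEquiv.constVAdd (ZMod 2) (Vec n) t ∈ G
  tv : ∀ (φ : Module.Dual F (Vec n)) (v : Vec n), φ v = 0 →
    ∀ g : AGL n, (∀ x, g x = x + φ x • v) → g ∈ G

/-- `x ↦ g x + t` is a member of `G`, semilinear for `σ`. -/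
def PG (G : Subgroup (AGL n)) (g : Vec n ≃+ Vec n) (t : Vec n) (σ : F ≃+* F) : Prop :=
  (∀ (c : F) (x : Vec n), g (c • x) = σ c • g x) ∧ ∃ a ∈ G, ∀ x, a x = g x + t

/-- The affine map `x ↦ g x + t`. -/
def toAGL (g : Vec n ≃+ Vec n) (t : Vec n) : AGL n :=
  (AffineEquiv.constVAdd (ZMod 2) (Vec n) t) *
    ({ g with map_smul' := fun c x => ZMod.map_smul g.toAddMonoidHom c x } :
      Vec n ≃ₗ[ZMod 2] Vec n).toAffineEquiv

lemma toAGL_apply (g : Vec n ≃+ Vec n) (t x : Vec n) : toAGL g t x = g x + t := by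
  change t + g x = g x + t
  rw [add_comm]

lemma agl_ext' {g h : AGL n} (H : ∀ x, g x = h x) : g = h := AffineEquiv.ext H

lemma PG_toAGL {G : Subgroup (AGL n)} {g : Vec n ≃+ Vec n} {t : Vec n} {σ : F ≃+* F}
    (h : PG G g t σ) : toAGL g t ∈ G := by
  obtain ⟨-, a, ha, h1⟩ := h
  have : toAGL g t = a := agl_ext' (fun x => by rw [toAGL_apply, h1])
  rw [this]
  exact ha

lemma PG_mul {G : Subgroup (AGL n)} {g t} {σ : F ≃+* F} {g' t'} {σ' : F ≃+* F}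
    (h : PG G g t σ) (h' : PG G g' t' σ') : PG G (g'.trans g) (g t' + t) (σ'.trans σ) := by
  obtain ⟨h1, a, ha, h2⟩ := h
  obtain ⟨h1', a', ha', h2'⟩ := h'
  refine ⟨?_, a * a', G.mul_mem ha ha', ?_⟩
  · intro c x
    change g (g' (c • x)) = σ (σ' c) • g (g' x)
    rw [h1', h1]
  · intro x
    change a (a' x) = g (g' x) + (g t' + t)
    rw [h2', h2, map_add, add_assoc]

lemma PG_inv {G : Subgroup (AGL n)} {g t} {σ : F ≃+* F} (h : PG G g t σ) :
    PG G g.symm (g.symm t) σ.symm := by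
  obtain ⟨h1, a, ha, h2⟩ := h
  refine ⟨?_, a⁻¹, G.inv_mem ha, ?_⟩
  · intro c x
    rw [AddEquiv.symm_apply_eq, h1, σ.apply_symm_apply, g.apply_symm_apply]
  · intro x
    change a.symm x = _
    have h3 : a (g.symm x + g.symm t) = x := by
      rw [h2, map_add, g.apply_symm_apply, g.apply_symm_apply, add_add_self]
    have h4 := a.symm_apply_apply (g.symm x + g.symm t)
    rw [h3] at h4
    exact h4

/-- The linear parts of `G`. -/
def PL1 (G : Subgroup (AGL n)) (g : Vec n ≃+ Vec n) (σ : F ≃+* F) : Prop := ∃ t, PG G g t σ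

variable {G : Subgroup (AGL n)}

lemma LinGrp.pg_tr (hG : LinGrp F G) {g : Vec n ≃+ Vec n} {t : Vec n} {σ : F ≃+* F}
    (h : PG G g t σ) (t' : Vec n) : PG G g t' σ := by
  obtain ⟨h1, a, ha, h2⟩ := h
  refine ⟨h1, AffineEquiv.constVAdd (ZMod 2) (Vec n) (t' + t) * a, G.mul_mem (hG.trans _) ha, ?_⟩
  intro x
  change (t' + t) + a x = g x + t'
  rw [h2]
  have := add_self' t
  calc t' + t + (g x + t) = g x + t' + (t + t) := by abel
    _ = _ := by rw [this, add_zero]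

lemma LinGrp.pg_one (hG : LinGrp F G) (t : Vec n) :
    PG G (AddEquiv.refl (Vec n)) t (RingEquiv.refl F) :=
  ⟨fun _ _ => rfl, _, hG.trans t, fun x => add_comm t x⟩

lemma LinGrp.pg_tv (hG : LinGrp F G) (φ : Module.Dual F (Vec n)) (v : Vec n) (h : φ v = 0)
    (t : Vec n) : PG G (LinS.tE φ v h) t (RingEquiv.refl F) := by
  apply hG.pg_tr (t := 0)
  refine ⟨fun c x => ?_, toAGL (LinS.tE φ v h) 0, ?_, fun x => toAGL_apply _ _ _⟩
  · rw [LinS.tE_apply, LinS.tE_apply, map_smul, smul_eq_mul, mul_smul]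
    exact (smul_add c x _).symm
  · apply hG.tv φ v h
    intro x
    rw [toAGL_apply, add_zero, LinS.tE_apply]

/-- Every member of `G` is of the form `PG`. -/
lemma LinGrp.exists_pg (hG : LinGrp F G) {a : AGL n} (ha : a ∈ G) :
    ∃ g t σ, PG (F := F) G g t σ ∧ (∀ x, a x = g x + t) ∧ ∀ x, g x = a.linear x := by
  obtain ⟨σ, hσ⟩ := hG.semi a ha
  exact ⟨a.linear.toAddEquiv, a 0, σ, ⟨hσ, a, ha, fun x => agl_linear a x⟩,
    fun x => agl_linear a x, fun x => rfl⟩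

lemma LinGrp.grp (hG : LinGrp F G) : LinS.Grp (F := F) (PL1 G) where
  semi := by
    rintro g σ ⟨t, h, -⟩ c x
    exact h c x
  one := ⟨0, hG.pg_one 0⟩
  mul := by
    rintro g σ h τ ⟨t, ht⟩ ⟨t', ht'⟩
    exact ⟨_, PG_mul ht' ht⟩
  inv := by
    rintro g σ ⟨t, ht⟩
    exact ⟨_, PG_inv ht⟩
  tv := fun φ v h => ⟨0, hG.pg_tv φ v h 0⟩

/-- Cosets of subgroups: transitivity on the complement of the subgroup suffices. -/
lemma coset_sit (hG : LinGrp F G) (W : AddSubgroup (Vec n)) {γ : Finset (Vec n)} {v₀ : Vec n}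
    (hγ : ∀ x, x ∈ γ ↔ x + v₀ ∈ W)
    (h : ∀ x, x ∉ W → ∀ y, y ∉ W → ∃ g, ∃ σ : F ≃+* F, PL1 G g σ ∧ (∀ z, g z ∈ W ↔ z ∈ W) ∧
      g x = y) :
    ∀ u ∈ γ, ∀ u' ∉ γ, ∀ w ∈ γ, ∀ w' ∉ γ, ∃ g ∈ G, act g γ = γ ∧ g u = w ∧ g u' = w' := by
  have hmem : ∀ {u : Vec n}, u ∈ γ → ∀ x, x ∈ γ ↔ x + u ∈ W := by
    intro u hu x
    rw [hγ] at hu ⊢
    have e : x + u = (x + v₀) + (u + v₀) := by
      have := add_self' v₀
      calc x + u = x + u + (v₀ + v₀) := by rw [this, add_zero]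
        _ = _ := by abel
    rw [e]
    exact (AddSubgroup.add_mem_cancel_right W hu).symm
  intro u hu u' hu' w hw w' hw'
  obtain ⟨g, σ, ⟨t, hg⟩, h1, h2⟩ := h (u' + u) (fun h0 => hu' ((hmem hu u').2 h0)) (w' + w)
    (fun h0 => hw' ((hmem hw w').2 h0))
  have hg' := PG_toAGL (hG.pg_tr hg (g u + w))
  have ha : ∀ x, toAGL g (g u + w) x = g (x + u) + w := by
    intro x
    rw [toAGL_apply, map_add, add_assoc]
  refine ⟨toAGL g (g u + w), hg', ?_, ?_, ?_⟩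
  · rw [act_eq_iff]
    intro x
    rw [hmem hw, hmem hu x, ha, add_add_self]
    exact h1 _
  · rw [ha, add_self', map_zero, zero_add]
  · rw [ha, h2, add_add_self]

/-- **(1)** affine `F`-subspaces. -/
theorem lin_suf_flat (hG : LinGrp F G) (hdim : ∀ φ : Module.Dual F (Vec n), ∃ v, v ≠ 0 ∧ φ v = 0)
    (W : Submodule F (Vec n)) {γ : Finset (Vec n)} {v₀ : Vec n} (hγ : ∀ x, x ∈ γ ↔ x + v₀ ∈ W) :
    IsSITCode G γ.card {δ | ∃ g ∈ G, δ = act g γ} := by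
  apply orbit_sit
  apply coset_sit hG W.toAddSubgroup hγ
  intro x hx y hy
  obtain ⟨g, hg, h1, h2⟩ := LinS.lin_S1 hG.grp hdim W hx hy
  exact ⟨g, RingEquiv.refl F, hg, h1, h2⟩

/-- **(2)** `q = 4`: affine hyperplanes over `F_2`. -/
theorem lin_suf_hyp4 [Fintype F] [CharP F 2] (hG : LinGrp F G)
    (hdim : ∀ φ : Module.Dual F (Vec n), ∃ v, v ≠ 0 ∧ φ v = 0)
    (hF : Fintype.card F = 4)
    (hnl : ∃ g ∈ G, ∃ (c : F) (x : Vec n), g.linear (c • x) ≠ c • g.linear x)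
    (W : AddSubgroup (Vec n)) (hW : W.index = 2) {γ : Finset (Vec n)} {v₀ : Vec n}
    (hγ : ∀ x, x ∈ γ ↔ x + v₀ ∈ W) :
    IsSITCode G γ.card {δ | ∃ g ∈ G, δ = act g γ} := by
  apply orbit_sit
  apply coset_sit hG W hγ
  intro x hx y hy
  apply LinS.lin_S2 hG.grp hdim hF W hW _ hx hy
  obtain ⟨a, ha, c, z, hcz⟩ := hnl
  obtain ⟨g, t, σ, hg, -, hlin⟩ := hG.exists_pg ha
  refine ⟨g, σ, ⟨t, hg⟩, ?_⟩
  rintro rfl
  apply hcz
  rw [← hlin, ← hlin]
  exact hg.1 c z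

/-- **(3)** `q = 16`: affine hyperplanes over `F_4`. -/
theorem lin_suf_hyp16 [Fintype F] [CharP F 2] (hG : LinGrp F G)
    (hdim : ∀ φ : Module.Dual F (Vec n), ∃ v, v ≠ 0 ∧ φ v = 0)
    (hF : Fintype.card F = 16)
    (hall : ∀ σ : F ≃+* F, ∃ g ∈ G, ∀ (c : F) (x : Vec n), g.linear (c • x) = σ c • g.linear x)
    (W : AddSubgroup (Vec n)) (hW : W.index = 4) (hW' : ∀ c : F, c ^ 4 = c → ∀ w ∈ W, c • w ∈ W)
    {γ : Finset (Vec n)} {v₀ : Vec n} (hγ : ∀ x, x ∈ γ ↔ x + v₀ ∈ W) :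
    IsSITCode G γ.card {δ | ∃ g ∈ G, δ = act g γ} := by
  apply orbit_sit
  apply coset_sit hG W hγ
  intro x hx y hy
  apply LinS.lin_S3 hG.grp hdim hF W hW hW' _ hx hy
  intro σ
  obtain ⟨a, ha, hσ⟩ := hall σ
  exact ⟨a.linear.toAddEquiv, a 0, hσ, a, ha, fun x => agl_linear a x⟩

/-- **(4)** `q = 4`: quadrics whose polar form is compatible with the field. -/
theorem lin_suf_quad4 [Fintype F] [CharP F 2] (hG : LinGrp F G) (hF : Fintype.card F = 4)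
    {γ : Finset (Vec n)} {β : Vec n → Vec n → ZMod 2}
    (hb : ∀ x a b, ind γ (x + a + b) + ind γ (x + a) + ind γ (x + b) + ind γ x = β a b)
    (hcomp : ∀ (c : F) a b, β (c • a) b = β a (c • b))
    (hR : ∀ a, (∀ b, β a b = 0) → ∀ x, ind γ (x + a) = ind γ x)
    (hnl : ∃ g ∈ G, act g γ = γ ∧ ∃ (c : F) (x : Vec n), g.linear (c • x) ≠ c • g.linear x) :
    IsSITCode G γ.card {δ | ∃ g ∈ G, δ = act g γ} := by
  have hind : ∀ {a : AGL n}, act a γ = γ ↔ ∀ x, ind γ (a x) = ind γ x := by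
    intro a
    rw [act_eq_iff]
    constructor
    · intro h x
      have := h x
      rw [ind, ind]
      by_cases hx : x ∈ γ
      · rw [if_pos hx, if_pos (this.2 hx)]
      · rw [if_neg hx, if_neg (fun h' => hx (this.1 h'))]
    · intro h x
      rw [← ind_eq_one (γ := γ), ← ind_eq_one (γ := γ), h]
  apply orbit_sit
  intro u hu u' hu' w hw w' hw'
  have e1 : ind γ u = ind γ w := by rw [ind_eq_one.2 hu, ind_eq_one.2 hw]
  have e2 : ind γ u' = ind γ w' := by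
    rw [ind, ind, if_neg hu', if_neg hw']
  have e3 : ind γ u ≠ ind γ u' := by
    rw [ind, ind, if_pos hu, if_neg hu']
    decide
  obtain ⟨g, t, σ, hg, h1, h2, h3⟩ := S4.lin_S4 (F := F) hF hb hcomp hR (P := PG G)
    (fun h c x => h.1 c x) (fun h h' => PG_mul h h') (fun r => hG.pg_one r)
    (fun φ v h t => hG.pg_tv φ v h t) (by
      obtain ⟨a, ha, haγ, c, z, hcz⟩ := hnl
      obtain ⟨g, t, σ, hg, hgt, hlin⟩ := hG.exists_pg (F := F) ha
      refine ⟨g, t, σ, hg, ?_, fun x => ?_⟩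
      · rintro rfl
        apply hcz
        rw [← hlin, ← hlin]
        exact hg.1 c z
      · rw [← hgt]
        exact hind.1 haγ x) e1 e2 e3
  refine ⟨toAGL g t, PG_toAGL hg, hind.2 (fun x => by rw [toAGL_apply]; exact h1 x), ?_, ?_⟩
  · rw [toAGL_apply, h2]
  · rw [toAGL_apply, h3]

end

end Pool.Agent.SIT
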