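import Pool.Agent.SIT.Forward

/-!
# Strongly incidence-transitive sets: derivatives are affine
-/

namespace Pool.Agent.SIT

open Finset

/-- A Sylow 2-subgroup is transitive on every orbit of 2-power size. -/
lemma sylow_transitive {G α : Type*} [Group G] [Finite G] [MulAction G α] (x : α) (e : ℕ)
    (h : (MulAction.orbit G x).ncard = 2 ^ e) (P : Sylow 2 G) {y : α}
    (hy : y ∈ MulAction.orbit G x) : ∃ g ∈ P, g • x = y := by
  have h1 := MulAction.index_stabilizer G x
  have h2 : (MulAction.stabilizer P x).index = (MulAction.orbit P x).ncard :=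
    MulAction.index_stabilizer P x
  have h3 := Subgroup.card_mul_index (MulAction.stabilizer G x)
  have h4 := Subgroup.card_mul_index (MulAction.stabilizer P x)
  have h5 := P.card_eq_multiplicity
  rw [h1, h] at h3
  -- the stabiliser in `P` is a 2-group
  obtain ⟨s, hsf, hs⟩ : ∃ s ≤ (Nat.card G).factorization 2,
      Nat.card (MulAction.stabilizer P x) = 2 ^ s := by
    apply (Nat.dvd_prime_pow Nat.prime_two).1
    rw [← h5, ← h4]
    exact Dvd.intro _ rfl
  have h6 : Nat.card (MulAction.stabilizer P x) ∣ Nat.card (MulAction.stabilizer G x) := by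
    have h7 : Nat.card ((MulAction.stabilizer P x).map (P : Subgroup G).subtype) =
        Nat.card (MulAction.stabilizer P x) :=
      Subgroup.card_map_of_injective (Subgroup.subtype_injective _)
    rw [← h7]
    apply Subgroup.card_dvd_of_le
    rintro _ ⟨g, hg, rfl⟩
    exact hg
  have h8 : 2 ^ (s + e) ∣ Nat.card G := by
    rw [pow_add, ← h3, ← hs]
    exact Nat.mul_dvd_mul_right h6 _
  have h9 : s + e ≤ (Nat.card G).factorization 2 :=
    (Nat.Prime.pow_dvd_iff_le_factorization Nat.prime_two Nat.card_pos.ne').1 h8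
  have h10 : 2 ^ e ≤ (MulAction.orbit P x).ncard := by
    rw [← h2]
    rw [h5, hs] at h4
    have h11 : 2 ^ s * 2 ^ e ≤ 2 ^ s * (MulAction.stabilizer P x).index := by
      rw [h4, ← pow_add]
      exact Nat.pow_le_pow_right (by norm_num) h9
    exact Nat.le_of_mul_le_mul_left h11 (by positivity)
  have hsub : MulAction.orbit P x ⊆ MulAction.orbit G x := by
    rintro _ ⟨g, rfl⟩
    exact ⟨g.1, rfl⟩
  have heq : MulAction.orbit P x = MulAction.orbit G x := by
    refine Set.eq_of_subset_of_ncard_le hsub ?_ ?_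
    · rw [h]; exact h10
    · apply Set.finite_of_ncard_ne_zero
      rw [h]; positivity
  rw [← heq] at hy
  obtain ⟨g, hg⟩ := hy
  exact ⟨g.1, g.2, hg⟩

section

variable {V : Type*} [AddCommGroup V] [Module (ZMod 2) V]

omit [AddCommGroup V] [Module (ZMod 2) V] in
lemma perm_apply_inv (g : Equiv.Perm V) (x : V) : g (g⁻¹ x) = x := by
  rw [Equiv.Perm.inv_def]
  exact g.apply_symm_apply x

lemma IsAff.mul {g h : Equiv.Perm V} (hg : IsAff g) (hh : IsAff h) : IsAff (g * h) := by
  intro x y
  simp only [Equiv.Perm.coe_mul, Function.comp_apply]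
  rw [hh x y, hg, hg (h x) (h y)]
  have := add_self' (g 0)
  calc g (h x) + g (h y) + g 0 + g (h 0) + g 0
      = g (h x) + g (h y) + g (h 0) + (g 0 + g 0) := by abel
    _ = _ := by rw [this, add_zero]

lemma IsAff.inv {g : Equiv.Perm V} (hg : IsAff g) : IsAff g⁻¹ := by
  intro x y
  apply g.injective
  rw [hg, hg (g⁻¹ x)]
  simp only [perm_apply_inv]
  rw [add_zero, add_add_self]

/-- The group of affine permutations stabilising `γ` and whose linear part fixes `a`. -/
def K (γ : Finset V) (a : V) : Subgroup (Equiv.Perm V) where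
  carrier := {g | IsAff g ∧ (∀ x, g x ∈ γ ↔ x ∈ γ) ∧ ∀ x, g (x + a) = g x + a}
  mul_mem' := by
    rintro g h ⟨hg1, hg2, hg3⟩ ⟨hh1, hh2, hh3⟩
    refine ⟨hg1.mul hh1, ?_, ?_⟩
    · intro x
      simp only [Equiv.Perm.coe_mul, Function.comp_apply]
      rw [hg2, hh2]
    · intro x
      simp only [Equiv.Perm.coe_mul, Function.comp_apply]
      rw [hh3, hg3]
  one_mem' := by
    refine ⟨?_, fun x => Iff.rfl, fun x => rfl⟩
    intro x y
    simp
  inv_mem' := by
    rintro g ⟨hg1, hg2, hg3⟩
    refine ⟨hg1.inv, ?_, ?_⟩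
    · intro x
      rw [← hg2 (g⁻¹ x), perm_apply_inv]
    · intro x
      apply g.injective
      rw [hg3, perm_apply_inv, perm_apply_inv]

lemma mem_K {γ : Finset V} {a : V} {g : Equiv.Perm V} :
    g ∈ K γ a ↔ IsAff g ∧ (∀ x, g x ∈ γ ↔ x ∈ γ) ∧ ∀ x, g (x + a) = g x + a := Iff.rfl

/-- Functionals vanishing on the periods and on `a`. -/
def W (γ : Finset V) (a : V) : Submodule (ZMod 2) (Module.Dual (ZMod 2) V) where
  carrier := {φ | φ a = 0 ∧ ∀ t ∈ period γ, φ t = 0}
  add_mem' := by
    rintro φ ψ ⟨h1, h2⟩ ⟨h3, h4⟩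
    refine ⟨?_, ?_⟩
    · rw [LinearMap.add_apply, h1, h3, add_zero]
    · intro t ht
      rw [LinearMap.add_apply, h2 t ht, h4 t ht, add_zero]
  zero_mem' := ⟨rfl, fun _ _ => rfl⟩
  smul_mem' := by
    rintro c φ ⟨h1, h2⟩
    refine ⟨?_, ?_⟩
    · rw [LinearMap.smul_apply, h1, smul_zero]
    · intro t ht
      rw [LinearMap.smul_apply, h2 t ht, smul_zero]

lemma mem_W {γ : Finset V} {a : V} {φ : Module.Dual (ZMod 2) V} :
    φ ∈ W γ a ↔ φ a = 0 ∧ ∀ t ∈ period γ, φ t = 0 := Iff.rfl

/-- The linear part acts on functionals. -/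
def transport (g : Equiv.Perm V) (hg : IsAff g) (φ : Module.Dual (ZMod 2) V) :
    Module.Dual (ZMod 2) V :=
  AddMonoidHom.toZModLinearMap 2
    { toFun := fun v => φ (g v) + φ (g 0)
      map_zero' := by exact ZModModule.add_self _
      map_add' := by
        intro x y
        rw [hg x y, map_add, map_add]
        ring }

lemma transport_apply (g : Equiv.Perm V) (hg : IsAff g) (φ : Module.Dual (ZMod 2) V) (v : V) :
    transport g hg φ v = φ (g v) + φ (g 0) := rfl

lemma transport_mem {γ : Finset V} {a : V} {g : Equiv.Perm V} (hg : g ∈ K γ a)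
    {φ : Module.Dual (ZMod 2) V} (hφ : φ ∈ W γ a) : transport g hg.1 φ ∈ W γ a := by
  obtain ⟨h1, h2, h3⟩ := hg
  refine ⟨?_, ?_⟩
  · rw [transport_apply]
    have := h3 0
    rw [zero_add] at this
    rw [this, map_add, hφ.1, add_zero]
    exact ZModModule.add_self _
  · intro t ht
    rw [transport_apply, ← map_add]
    apply hφ.2
    intro x
    have h4 : g (g⁻¹ x + t) = x + (g t + g 0) := by
      rw [h1, perm_apply_inv, add_assoc]
    rw [← h4, h2, ht, ← h2, perm_apply_inv]

instance (γ : Finset V) (a : V) : SMul (K γ a) (W γ a) where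
  smul g φ := ⟨transport (g⁻¹ : K γ a).1 (g⁻¹ : K γ a).2.1 φ.1, transport_mem (g⁻¹ : K γ a).2 φ.2⟩

lemma smul_apply' {γ : Finset V} {a : V} (g : K γ a) (φ : W γ a) (v : V) :
    (g • φ).1 v = φ.1 ((g⁻¹ : K γ a).1 v) + φ.1 ((g⁻¹ : K γ a).1 0) := rfl

instance (γ : Finset V) (a : V) : MulAction (K γ a) (W γ a) where
  one_smul := by
    intro φ
    apply Subtype.ext
    apply LinearMap.ext
    intro v
    rw [smul_apply', inv_one]
    change φ.1 v + φ.1 0 = φ.1 v
    rw [map_zero, add_zero]
  mul_smul := by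
    intro g h φ
    apply Subtype.ext
    apply LinearMap.ext
    intro v
    rw [smul_apply', smul_apply', smul_apply', smul_apply', mul_inv_rev]
    change φ.1 (h⁻¹.1 (g⁻¹.1 v)) + φ.1 (h⁻¹.1 (g⁻¹.1 0)) = _
    have := CharTwo.add_self_eq_zero (φ.1 (h⁻¹.1 0))
    linear_combination -this

variable [Fintype V] [DecidableEq V]

lemma card_fiber (φ : Module.Dual (ZMod 2) V) (hφ : φ ≠ 0) (β : ZMod 2) :
    2 * (univ.filter (fun x => φ x = β)).card = Fintype.card V := by
  have h1 := sum_sgn_eq_zero φ hφ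
  have h2 : ∀ x : V, sgn (φ x) = (if φ x = 0 then 1 else 0) - (if φ x = 1 then 1 else 0) := by
    intro x
    generalize φ x = c
    revert c
    decide
  rw [Finset.sum_congr rfl (fun x _ => h2 x), Finset.sum_sub_distrib] at h1
  have h5 : ∀ c : ZMod 2, (∑ x : V, if φ x = c then (1 : ℤ) else 0) =
      ((univ.filter (fun x => φ x = c)).card : ℤ) := by
    intro c
    rw [Finset.card_filter]
    push_cast
    rfl
  rw [h5, h5] at h1
  have h3 := Finset.card_filter_add_card_filter_not (s := (univ : Finset V)) (fun x => φ x = 0)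
  have h4 : univ.filter (fun x => ¬ φ x = 0) = univ.filter (fun x => φ x = 1) := by
    ext x
    simp only [mem_filter, mem_univ, true_and]
    generalize φ x = c
    revert c
    decide
  rw [h4, Finset.card_univ] at h3
  rcases zmod2_cases β with rfl | rfl <;> omega

lemma card_periodF_le {γ : Finset V} {a : V} (ha : a ∉ period γ) :
    (periodF γ).card ≤ (S γ a).card := by
  obtain ⟨x, hx⟩ := S_nonempty ha
  rw [mem_S] at hx
  apply Finset.card_le_card_of_injOn (fun t => x + t)
  · intro t ht
    rw [Finset.mem_coe, mem_periodF] at ht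
    rw [Finset.mem_coe, mem_S]
    refine ⟨(ht x).2 hx.1, ?_⟩
    have : x + t + a = x + a + t := by abel
    rw [this, ht]
    exact hx.2
  · intro t _ t' _ h
    exact add_left_cancel h

lemma exists_W {γ : Finset V} {a : V} (ha : a ∉ period γ)
    (hN : 4 * (S γ a).card = Fintype.card V) : ∃ φ : W γ a, φ ≠ 0 := by
  obtain ⟨x, hx⟩ : ∃ x : V, x ∉ periodF γ ∪ (periodF γ).image (fun t => t + a) := by
    by_contra hcon
    push Not at hcon
    have h1 : (univ : Finset V) ⊆ periodF γ ∪ (periodF γ).image (fun t => t + a) :=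
      fun x _ => hcon x
    have h2 := Finset.card_le_card h1
    have h3 := Finset.card_union_le (periodF γ) ((periodF γ).image (fun t => t + a))
    have h4 : ((periodF γ).image (fun t => t + a)).card ≤ (periodF γ).card :=
      Finset.card_image_le
    have h5 := card_periodF_le ha
    have h6 := Finset.card_pos.2 (S_nonempty ha)
    rw [Finset.card_univ] at h2
    omega
  have hx' : x ∉ period γ ⊔ Submodule.span (ZMod 2) {a} := by
    intro h
    rw [Submodule.mem_sup] at h
    obtain ⟨t, ht, y, hy, rfl⟩ := h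
    rw [Submodule.mem_span_singleton] at hy
    obtain ⟨c, rfl⟩ := hy
    apply hx
    rw [Finset.mem_union]
    rcases zmod2_cases c with rfl | rfl
    · left
      rw [zero_smul, add_zero]
      exact mem_periodF.2 ht
    · right
      rw [one_smul, Finset.mem_image]
      exact ⟨t, mem_periodF.2 ht, rfl⟩
  obtain ⟨φ, h1, h2⟩ := exists_dual_of_notMem _ _ hx'
  refine ⟨⟨φ, ?_, ?_⟩, ?_⟩
  · exact h2 a (Submodule.mem_sup_right (Submodule.mem_span_singleton_self a))
  · intro t ht
    exact h2 t (Submodule.mem_sup_left ht)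
  · intro h
    have h3 : φ = 0 := congrArg Subtype.val h
    rw [h3] at h1
    simp at h1

/-- The heart of the matter: the derivative of the indicator function of `γ` in the
direction `a` is an affine function. -/
theorem derivative_affine {γ : Finset V} (hγ : SITSet γ) {a : V} (ha : a ∉ period γ)
    (hN : 4 * (S γ a).card = Fintype.card V) :
    ∃ (φ : Module.Dual (ZMod 2) V) (β : ZMod 2), φ ≠ 0 ∧
      ∀ x, (φ x = β ↔ ¬ (x + a ∈ γ ↔ x ∈ γ)) := by
  -- a Sylow 2-subgroup
  let P : Sylow 2 (K γ a) := default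
  -- a fixed functional
  obtain ⟨ψ, hψ⟩ := exists_W ha hN
  have : Finite (W γ a) := Subtype.finite
  have hcard : 2 ∣ Nat.card (W γ a) := by
    have h1 : addOrderOf ψ = 2 := by
      apply addOrderOf_eq_prime
      · exact ZModModule.char_nsmul_eq_zero 2 ψ
      · exact hψ
    have h2 := addOrderOf_dvd_natCard ψ
    rwa [h1] at h2
  have hfix0 : (0 : W γ a) ∈ MulAction.fixedPoints P (W γ a) := by
    intro g
    apply Subtype.ext
    apply LinearMap.ext
    intro v
    change (g.1 • (0 : W γ a)).1 v = _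
    rw [smul_apply']
    simp
  obtain ⟨⟨φ, hφW⟩, hφfix, hφ0⟩ :=
    P.isPGroup'.exists_fixed_point_of_prime_dvd_card_of_fixed_point (W γ a) hcard hfix0
  have hφ : φ ≠ 0 := by
    rintro rfl
    exact hφ0 rfl
  -- invariance of the fibres
  have hinv : ∀ g ∈ P, ∀ x, φ (g.1 x) = φ x + φ (g.1 0) := by
    intro g hg x
    have h1 := hφfix ⟨g⁻¹, P.inv_mem hg⟩
    have h2 : ((g⁻¹ : K γ a) • (⟨φ, hφW⟩ : W γ a)).1 x = φ x := by
      have := congrArg (fun ψ : W γ a => ψ.1 x) h1
      exact this
    rw [smul_apply', inv_inv] at h2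
    rw [← h2, add_assoc, CharTwo.add_self_eq_zero, add_zero]
  have hNpos := Finset.card_pos.2 (S_nonempty ha)
  have hTpos : 0 < (periodF γ).card := by
    apply Finset.card_pos.2
    exact ⟨0, mem_periodF.2 (Submodule.zero_mem _)⟩
  have hchi : chi γ φ ≠ 0 := by
    intro h
    have h1 := chi_sq_vanish hγ ha φ hφ hφW.2
    rw [h] at h1
    have h2 : (0 : ℤ) < (S γ a).card * (periodF γ).card := by positivity
    omega
  have hinv0 : ∀ g ∈ P, φ (g.1 0) = 0 := by
    intro g hg
    rcases zmod2_cases (φ (g.1 0)) with h | h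
    · exact h
    exfalso
    apply hchi
    have h1 : chi γ φ = ∑ x ∈ γ, sgn (φ (g.1 x)) := by
      rw [chi]
      apply Finset.sum_nbij' (fun x => g.1⁻¹ x) (fun x => g.1 x)
      · intro x hx
        have := g.2.2.1 (g.1⁻¹ x)
        rw [perm_apply_inv] at this
        exact this.1 hx
      · intro x hx; exact (g.2.2.1 x).2 hx
      · intro x _; exact perm_apply_inv g.1 x
      · intro x _; exact g.1.symm_apply_apply x
      · intro x _; rw [perm_apply_inv]
    have h2 : ∑ x ∈ γ, sgn (φ (g.1 x)) = - chi γ φ := by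
      rw [chi, ← Finset.sum_neg_distrib]
      apply Finset.sum_congr rfl
      intro x _
      rw [hinv g hg, sgn_add, h, sgn_one]
      ring
    omega
  have hinv' : ∀ g ∈ P, ∀ x, φ (g.1 x) = φ x := by
    intro g hg x
    rw [hinv g hg, hinv0 g hg, add_zero]
  -- transitivity
  obtain ⟨u, hu⟩ := S_nonempty ha
  have horb : MulAction.orbit (K γ a) u = (S γ a : Set V) := by
    ext y
    constructor
    · rintro ⟨g, rfl⟩
      change g.1 u ∈ (S γ a : Set V)
      rw [Finset.mem_coe, mem_S] at *
      refine ⟨(g.2.2.1 u).2 hu.1, ?_⟩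
      rw [← g.2.2.2, g.2.2.1]
      exact hu.2
    · intro hy
      rw [Finset.mem_coe, mem_S] at *
      obtain ⟨h, h1, h2, h3, h4⟩ := hγ u hu.1 (u + a) hu.2 y hy.1 (y + a) hy.2
      exact ⟨⟨h, h1, h2, h1.map_add_left h3 h4⟩, h3⟩
  obtain ⟨e, he⟩ : ∃ e, (S γ a).card = 2 ^ e := by
    have h1 := Module.card_eq_pow_finrank (K := ZMod 2) (V := V)
    rw [ZMod.card, ← hN] at h1
    have h2 : (S γ a).card ∣ 2 ^ (Module.finrank (ZMod 2) V) := by
      rw [← h1]
      exact Dvd.intro_left 4 rfl
    obtain ⟨e, _, he⟩ := (Nat.dvd_prime_pow Nat.prime_two).1 h2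
    exact ⟨e, he⟩
  have horbcard : (MulAction.orbit (K γ a) u).ncard = 2 ^ e := by
    rw [horb, Set.ncard_coe_finset, he]
  have hconst : ∀ y ∈ S γ a, φ y = φ u := by
    intro y hy
    have h1 : y ∈ MulAction.orbit (K γ a) u := by
      rw [horb]; exact hy
    obtain ⟨g, hgP, hg⟩ := sylow_transitive u e horbcard P h1
    rw [← hg]
    exact hinv' g hgP u
  -- the support of the derivative
  refine ⟨φ, φ u, hφ, ?_⟩
  have hsub : (S γ a) ∪ (S γ a).image (fun x => x + a) ⊆ univ.filter (fun x => φ x = φ u) := by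
    intro y hy
    rw [Finset.mem_filter]
    refine ⟨mem_univ _, ?_⟩
    rw [Finset.mem_union, Finset.mem_image] at hy
    rcases hy with hy | ⟨z, hz, rfl⟩
    · exact hconst y hy
    · rw [map_add, hφW.1, add_zero]
      exact hconst z hz
  have hdisj : Disjoint (S γ a) ((S γ a).image (fun x => x + a)) := by
    rw [Finset.disjoint_left]
    intro y hy hy'
    rw [Finset.mem_image] at hy'
    obtain ⟨z, hz, rfl⟩ := hy'
    rw [mem_S] at hy hz
    exact hz.2 hy.1
  have heq : (S γ a) ∪ (S γ a).image (fun x => x + a) = univ.filter (fun x => φ x = φ u) := by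
    apply Finset.eq_of_subset_of_card_le hsub
    rw [Finset.card_union_of_disjoint hdisj, Finset.card_image_of_injective]
    · have := card_fiber φ hφ (φ u)
      omega
    · intro x y h
      exact add_right_cancel h
  intro x
  have h1 : x ∈ (S γ a) ∪ (S γ a).image (fun x => x + a) ↔ φ x = φ u := by
    rw [heq]
    simp
  rw [← h1, Finset.mem_union, Finset.mem_image]
  constructor
  · rintro (h | ⟨z, hz, rfl⟩)
    · rw [mem_S] at h
      tauto
    · rw [mem_S] at hz
      rw [add_add_self]
      tauto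
  · intro h
    by_cases hx : x ∈ γ
    · left
      rw [mem_S]
      tauto
    · right
      refine ⟨x + a, ?_, add_add_self x a⟩
      rw [mem_S, add_add_self]
      tauto

end

end Pool.Agent.SIT
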