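import Pool.Agent.SIT.Defs
import Pool.Agent.SIT.Sylow
import Pool.Agent.SIT.Converse

/-!
# Classification of the codewords of strongly incidence-transitive codes over `F_2^n`
-/

namespace Pool.Agent.SIT

open Finset

lemma card_vec (n : ℕ) : Fintype.card (Vec n) = 2 ^ n := by
  simp [ZMod.card]

lemma mem_act {n : ℕ} (g : AGL n) (γ : Finset (Vec n)) (x : Vec n) :
    g x ∈ act g γ ↔ x ∈ γ := by
  rw [act, Finset.mem_image]
  constructor
  · rintro ⟨y, hy, h⟩
    rw [← g.injective h]
    exact hy
  · intro h
    exact ⟨x, h, rfl⟩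

lemma mem_act' {n : ℕ} (g : AGL n) (γ : Finset (Vec n)) (x : Vec n) :
    x ∈ act g γ ↔ g.symm x ∈ γ := by
  rw [← mem_act g γ (g.symm x), g.apply_symm_apply]

lemma card_act {n : ℕ} (g : AGL n) (γ : Finset (Vec n)) : (act g γ).card = γ.card := by
  rw [act]
  exact Finset.card_image_of_injective _ g.injective

lemma act_mul {n : ℕ} (g h : AGL n) (γ : Finset (Vec n)) : act (g * h) γ = act g (act h γ) := by
  rw [act, act, act, Finset.image_image]
  rfl

lemma act_symm_act {n : ℕ} (g : AGL n) (γ : Finset (Vec n)) : act g.symm (act g γ) = γ := by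
  ext x
  rw [mem_act', mem_act']
  change g.symm (g x) ∈ γ ↔ x ∈ γ
  rw [g.symm_apply_apply]

lemma act_eq_iff {n : ℕ} (g : AGL n) (γ δ : Finset (Vec n)) :
    act g γ = δ ↔ ∀ x, g x ∈ δ ↔ x ∈ γ := by
  constructor
  · rintro rfl x
    exact mem_act g γ x
  · intro h
    ext x
    rw [mem_act', ← h, g.apply_symm_apply]

/-- An affine equivalence is an affine permutation in the sense of `IsAff`. -/
lemma isAff_agl {V : Type*} [AddCommGroup V] [Module (ZMod 2) V] (g : V ≃ᵃ[ZMod 2] V) :
    IsAff (g.toEquiv : Equiv.Perm V) := by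
  intro x y
  have h : ∀ z : V, g z = g.linear z + g 0 := by
    intro z
    have := g.map_vadd 0 z
    simpa using this
  change g (x + y) = g x + g y + g 0
  rw [h (x + y), h x, h y, map_add]
  have := add_self' (g 0)
  calc g.linear x + g.linear y + g 0 = g.linear x + g.linear y + g 0 + (g 0 + g 0) := by
        rw [this, add_zero]
    _ = _ := by abel

lemma agl_add_three {V W : Type*} [AddCommGroup V] [Module (ZMod 2) V] [AddCommGroup W]
    [Module (ZMod 2) W] (g : V ≃ᵃ[ZMod 2] W) (x y z : V) :
    g (x + y + z) = g x + g y + g z := by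
  have h : ∀ z : V, g z = g.linear z + g 0 := by
    intro z
    have := g.map_vadd 0 z
    simpa using this
  rw [h (x + y + z), h x, h y, h z, map_add, map_add]
  have := add_self' (g 0)
  calc g.linear x + g.linear y + g.linear z + g 0
      = g.linear x + g.linear y + g.linear z + g 0 + (g 0 + g 0) := by
        rw [this, add_zero]
    _ = _ := by abel

/-- A nonempty set closed under `p + q + r` is an affine subspace. -/
lemma flat_of_closed {n : ℕ} (γ : Finset (Vec n))
    (h : ∀ p ∈ γ, ∀ q ∈ γ, ∀ r ∈ γ, p + q + r ∈ γ) :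
    ∃ A : AffineSubspace (ZMod 2) (Vec n), (γ : Set (Vec n)) = (A : Set (Vec n)) := by
  refine ⟨⟨(γ : Set (Vec n)), ?_⟩, rfl⟩
  intro c p q r hp hq hr
  rcases zmod2_cases c with rfl | rfl
  · rw [zero_smul, zero_vadd]
    exact hr
  · rw [one_smul, vadd_eq_add, vsub_eq_sub, ZModModule.sub_eq_add]
    exact h p hp q hq r hr

lemma direction_mem_iff {n : ℕ} {γ : Finset (Vec n)} {A : AffineSubspace (ZMod 2) (Vec n)}
    (h : (γ : Set (Vec n)) = (A : Set (Vec n))) {u : Vec n} (hu : u ∈ γ) (x : Vec n) :
    x ∈ γ ↔ x + u ∈ A.direction := by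
  have hu' : u ∈ A := by
    rw [← SetLike.mem_coe, ← h]
    exact hu
  have h1 := AffineSubspace.vsub_right_mem_direction_iff_mem hu' x
  rw [vsub_eq_sub, ZModModule.sub_eq_add] at h1
  rw [h1, ← Finset.mem_coe, h, SetLike.mem_coe]

lemma card_flat {n : ℕ} {γ : Finset (Vec n)} {A : AffineSubspace (ZMod 2) (Vec n)}
    (h : (γ : Set (Vec n)) = (A : Set (Vec n))) (hne : γ.Nonempty) :
    γ.card = 2 ^ (Module.finrank (ZMod 2) A.direction) := by
  classical
  obtain ⟨u, hu⟩ := hne
  have h1 : Fintype.card A.direction = 2 ^ (Module.finrank (ZMod 2) A.direction) := by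
    rw [Module.card_eq_pow_finrank (K := ZMod 2), ZMod.card]
  rw [← h1, ← Fintype.card_coe]
  apply Fintype.card_congr
  refine ⟨fun x => ⟨x.1 + u, (direction_mem_iff h hu x.1).1 x.2⟩,
    fun y => ⟨y.1 + u, (direction_mem_iff h hu _).2 (by rw [add_add_self]; exact y.2)⟩, ?_, ?_⟩
  · intro x
    apply Subtype.ext
    exact add_add_self _ _
  · intro x
    apply Subtype.ext
    exact add_add_self _ _

/-! ### Forward direction -/

/-- The indicator function. -/
def ind {V : Type*} [DecidableEq V] (γ : Finset V) (x : V) : ZMod 2 := if x ∈ γ then 1 else 0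

lemma ind_eq_one {V : Type*} [DecidableEq V] {γ : Finset V} {x : V} : ind γ x = 1 ↔ x ∈ γ := by
  rw [ind]
  split_ifs with h
  · simp [h]
  · simp [h]

lemma ind_add {V : Type*} [DecidableEq V] {γ : Finset V} {x y : V} :
    ind γ x + ind γ y = if (x ∈ γ ↔ y ∈ γ) then 0 else 1 := by
  rw [ind, ind]
  by_cases h1 : x ∈ γ <;> by_cases h2 : y ∈ γ <;> simp [h1, h2]
  rfl

lemma cube_closed : ∀ p1 p2 q1 q2 r1 r2 : ZMod 2, p1 * p2 = 1 → q1 * q2 = 1 → r1 * r2 = 1 →
    (p1 + q1 + r1) * (p2 + q2 + r2) = 1 := by
  decide

theorem sit_set_classification {n : ℕ} {γ : Finset (Vec n)} (hγ : SITSet γ)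
    (hne : γ.Nonempty) (hcard : 2 * γ.card ≤ 2 ^ n) :
    (∃ A : AffineSubspace (ZMod 2) (Vec n), (γ : Set (Vec n)) = (A : Set (Vec n))) ∨
      (∃ (m : ℕ) (h : 2 * m ≤ n), 2 ≤ m ∧ γ ∈ QuadricCode h) := by
  obtain ⟨u, hu⟩ := hne
  obtain ⟨u', hu'⟩ : ∃ u', u' ∉ γ := by
    by_contra hcon
    push Not at hcon
    have h1 : γ = univ := Finset.eq_univ_of_forall hcon
    rw [h1, Finset.card_univ, card_vec] at hcard
    have : 0 < 2 ^ n := by positivity
    omega
  have ha₀ : u + u' ∉ period γ := by
    intro h
    have := h u
    rw [self_add_add] at this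
    exact hu' (this.2 hu)
  -- cosets of the group of periods
  have hcoset : γ.card = (periodF γ).card →
      ∃ A : AffineSubspace (ZMod 2) (Vec n), (γ : Set (Vec n)) = (A : Set (Vec n)) := by
    intro hc
    have h1 : (periodF γ).image (fun t => u + t) = γ := by
      apply Finset.eq_of_subset_of_card_le
      · intro x hx
        rw [Finset.mem_image] at hx
        obtain ⟨t, ht, rfl⟩ := hx
        exact (mem_periodF.1 ht u).2 hu
      · rw [Finset.card_image_of_injective _ (fun x y h => add_left_cancel h), hc]
    apply flat_of_closed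
    intro p hp q hq r hr
    rw [← h1, Finset.mem_image] at hp hq
    obtain ⟨s, hs, rfl⟩ := hp
    obtain ⟨t, ht, rfl⟩ := hq
    rw [mem_periodF] at hs ht
    have h2 : u + s + (u + t) + r = r + (s + t) := by
      have := add_self' u
      calc u + s + (u + t) + r = r + (s + t) + (u + u) := by abel
        _ = _ := by rw [this, add_zero]
    rw [h2, (period γ).add_mem hs ht r]
    exact hr
  rcases card_S_trichotomy hγ ha₀ with h4 | hc | hc
  · -- quadratic case
    have hder : ∀ a, a ∉ period γ → ∃ (φ : Module.Dual (ZMod 2) (Vec n)) (β : ZMod 2),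
        φ ≠ 0 ∧ ∀ x, (φ x = β ↔ ¬ (x + a ∈ γ ↔ x ∈ γ)) := by
      intro a ha
      apply derivative_affine hγ ha
      rw [card_S_eq hγ ha ha₀]
      exact h4
    have hQ : QF (ind γ) := by
      intro a
      by_cases ha : a ∈ period γ
      · refine ⟨0, 0, ?_⟩
        intro x
        rw [ind_add, if_pos (ha x)]
        simp
      · obtain ⟨φ, β, -, hφ⟩ := hder a ha
        refine ⟨φ, β + 1, ?_⟩
        intro x
        rw [ind_add]
        by_cases h : (x + a ∈ γ ↔ x ∈ γ)
        · rw [if_pos h]
          have h1 : φ x ≠ β := fun h' => (hφ x).1 h' h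
          generalize φ x = p at *
          clear hφ
          revert h1 p β
          decide
        · rw [if_neg h, (hφ x).2 h]
          generalize β = p
          revert p
          decide
    have hN : ND (ind γ) := by
      intro a h
      have ha : a ∉ period γ := by
        intro ha
        have h1 := h 0
        rw [ind_add, if_pos (ha 0)] at h1
        exact absurd h1 (by decide)
      obtain ⟨φ, β, hφ0, hφ⟩ := hder a ha
      have h2 : ∀ x, φ x = β := by
        intro x
        rw [hφ]
        intro h'
        have h1 := h x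
        rw [ind_add, if_pos h'] at h1
        exact absurd h1 (by decide)
      apply hφ0
      apply LinearMap.ext
      intro x
      rw [h2, ← h2 0, map_zero]
      rfl
    obtain ⟨m, h, e, c, hform⟩ := exists_quadForm (V := Vec n) n (by simp) (normal_form _ hQ hN)
    have hcard' : ∀ β : ZMod 2, (univ.filter (fun x : Vec n => quadForm h (e x) = β)).card =
        (univ.filter (fun x : Vec n => quadForm h x = β)).card := by
      intro β
      apply Finset.card_bij (fun x _ => e x)
      · intro x hx
        simpa using hx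
      · intro x _ y _ hxy
        exact e.injective hxy
      · intro y hy
        refine ⟨e.symm y, ?_, ?_⟩
        · simpa using hy
        · exact e.apply_symm_apply y
    have hm : 1 ≤ m := by
      rcases Nat.eq_zero_or_pos m with hm | hm
      · exfalso
        subst hm
        have h1 := hform u
        have h2 := hform u'
        rw [quadForm, Finset.univ_eq_empty, Finset.sum_empty, zero_add] at h1 h2
        rw [ind_eq_one.2 hu] at h1
        rw [← h1] at h2
        exact hu' (ind_eq_one.1 h2)
      · exact hm
    have hc0 : c = 0 := by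
      rcases zmod2_cases c with h0 | h0
      · exact h0
      exfalso
      have h1 : γ = univ.filter (fun x : Vec n => quadForm h (e x) = 0) := by
        ext x
        rw [← ind_eq_one, hform, h0]
        simp
      have h2 := hcard' 0
      rw [← h1] at h2
      have h3 := card_quadric_lt h hm
      have h5 := Finset.card_filter_add_card_filter_not (s := (univ : Finset (Vec n)))
        (fun x => quadForm h x = 0)
      have h6 : univ.filter (fun x : Vec n => ¬ quadForm h x = 0) = quadric h := by
        ext x
        simp only [quadric, mem_filter, mem_univ, true_and]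
        generalize quadForm h x = p
        revert p
        decide
      rw [h6, Finset.card_univ, card_vec] at h5
      omega
    subst hc0
    have hmem : ∀ x, x ∈ γ ↔ quadForm h (e x) = 1 := by
      intro x
      rw [← ind_eq_one, hform, add_zero]
    rcases Nat.lt_or_ge m 2 with hm2 | hm2
    · -- `m = 1`: a flat of codimension 2
      left
      have hm1 : m = 1 := by omega
      subst hm1
      apply flat_of_closed
      intro p hp q hq r hr
      rw [hmem] at hp hq hr ⊢
      rw [agl_add_three]
      simp only [quadForm, Fin.sum_univ_one, Pi.add_apply] at hp hq hr ⊢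
      generalize e p _ = p1 at *
      generalize e q _ = q1 at *
      generalize e r _ = r1 at *
      generalize e p _ = p2 at *
      generalize e q _ = q2 at *
      generalize e r _ = r2 at *
      exact cube_closed p1 p2 q1 q2 r1 r2 hp hq hr
    · right
      refine ⟨m, h, hm2, e.symm, ?_⟩
      ext x
      rw [mem_act', hmem, mem_quadric]
      rfl
  · left
    exact hcoset hc
  · left
    apply hcoset
    -- `|T|` is a power of two between `2^(n-1)` and `2^n`
    rw [card_vec] at hc
    have h1 := card_periodF_dvd γ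
    rw [card_vec] at h1
    obtain ⟨s, hs, hs'⟩ := (Nat.dvd_prime_pow Nat.prime_two).1 h1
    have hpos : 0 < γ.card := Finset.card_pos.2 ⟨u, hu⟩
    rcases Nat.lt_or_ge s n with hlt | hge
    · have h2 : 2 * 2 ^ s ≤ 2 ^ n := by
        rw [← pow_succ']
        exact Nat.pow_le_pow_right (by norm_num) hlt
      omega
    · have h2 : s = n := by omega
      rw [h2] at hs'
      omega

end Pool.Agent.SIT
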