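import Pool.Agent.SIT.ClassGen

/-!
# Codewords for groups of semilinear affine maps
-/

namespace Pool.Agent.SIT

open Finset

variable {F : Type*} [Field F] [Fintype F] [CharP F 2] {V : Type*} [AddCommGroup V] [Module F V]
  [Fintype V] [DecidableEq V] {γ : Finset V} {P : (V ≃+ V) → V → (F ≃+* F) → Prop}

lemma add_self_of_char (F V : Type*) [Field F] [CharP F 2] [AddCommGroup V] [Module F V] (x : V) :
    x + x = 0 := by
  have h1 : ((2 : F)) • x = 0 := by rw [CharTwo.two_eq_zero, zero_smul]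
  rw [← h1, two_smul]

omit [Field F] [Fintype F] [CharP F 2] [Module F V] [Fintype V] in
lemma ind_eq_zero_iff {x : V} : ind γ x = 0 ↔ x ∉ γ := by
  rw [ind]
  split_ifs with h
  · simp [h]
  · simp [h]

omit [Fintype F] [Fintype V] in
lemma SG.sitSet (h : SG (ind γ) P) : SITSet γ := by
  intro u hu u' hu' w hw w' hw'
  have h1 := ind_eq_one.2 hu
  have h2 := ind_eq_zero_iff.2 hu'
  have h3 := ind_eq_one.2 hw
  have h4 := ind_eq_zero_iff.2 hw'
  obtain ⟨g, t, σ, hg, h5, h6⟩ := h.trans u u' w w' (by rw [h1, h3]) (by rw [h2, h4])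
    (by rw [h1, h2]; decide)
  refine ⟨g.toEquiv.trans (Equiv.addRight t), ?_, ?_, h5, h6⟩
  · intro x y
    change g (x + y) + t = (g x + t) + (g y + t) + (g 0 + t)
    have ht : t + t = 0 := add_self_of_char F V t
    rw [map_add, map_zero, zero_add]
    calc g x + g y + t = g x + g y + t + 0 := by rw [add_zero]
      _ = g x + g y + t + (t + t) := by rw [ht]
      _ = _ := by abel
  · intro x
    change g x + t ∈ γ ↔ x ∈ γ
    rw [← ind_eq_one, h.pres hg, ind_eq_one]

/-- The possible codewords for a group of semilinear affine maps. -/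
theorem nec_semi (h : SG (ind γ) P) (h3 : 3 ≤ γ.card) (hc : 2 * γ.card ≤ Fintype.card V) :
    (∃ (W : Submodule F V) (v : V), ∀ x, x ∈ γ ↔ x + v ∈ W) ∨
    (Fintype.card F = 4 ∧ ∃ (W : AddSubgroup V) (v : V), W.index = 2 ∧
      (∀ x, x ∈ γ ↔ x + v ∈ W) ∧ ∃ g t σ, P g t σ ∧ σ ≠ RingEquiv.refl F) ∨
    (Fintype.card F = 16 ∧ ∃ (W : AddSubgroup V) (v : V), W.index = 4 ∧
      (∀ c : F, c ^ 4 = c → ∀ w ∈ W, c • w ∈ W) ∧ (∀ x, x ∈ γ ↔ x + v ∈ W) ∧
      ∀ σ : F ≃+* F, ∃ g t, P g t σ) ∨
    (∃ β : V → V → ZMod 2,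
      (∀ x a b, ind γ (x + a + b) + ind γ (x + a) + ind γ (x + b) + ind γ x = β a b) ∧
      (∀ (c : F) a b, β (c • a) b = β a (c • b)) ∧ (∀ (c : F) a, β (c • a) a = 0) ∧
      (∀ r, (∀ x, ind γ (x + r) = ind γ x) ↔ ∀ y, β r y = 0) ∧ (∃ a b, β a b ≠ 0) ∧
      2 * γ.card < Fintype.card V ∧
      (Fintype.card F = 2 ∨
        (Fintype.card F = 4 ∧ ∃ g t σ, P g t σ ∧ σ ≠ RingEquiv.refl F))) := by
  classical
  have h2 : ∀ x : V, x + x = 0 := add_self_of_char F V
  have hne : γ.Nonempty := by rw [← Finset.card_pos]; omega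
  obtain ⟨p, hp⟩ := hne
  obtain ⟨q, hq⟩ : ∃ q, q ∉ γ := by
    by_contra hcon
    push Not at hcon
    have h1 : γ = univ := Finset.eq_univ_of_forall hcon
    rw [h1, Finset.card_univ] at hc h3
    omega
  have hflat := Lin.lin_flat (h.semiFam h2)
  rcases class_gen h2 h.sitSet ⟨p, hp⟩ hc with hcl | ⟨β, m, hd⟩
  · -- flats
    have hper : ∀ x, x ∈ γ ↔ x + p ∈ perS (ind γ) := by
      intro x
      rw [mem_perS]
      constructor
      · intro hx y
        have key : ∀ y, y ∈ γ → y + (x + p) ∈ γ := by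
          intro y hy
          have h4 := hcl y hy x hx p hp
          rwa [add_assoc] at h4
        have h5 : (y + (x + p) ∈ γ) ↔ y ∈ γ := by
          refine ⟨fun h6 => ?_, key y⟩
          have h7 := key _ h6
          have h8 : y + (x + p) + (x + p) = y := by rw [add_assoc, h2, add_zero]
          rwa [h8] at h7
        rw [ind, ind]
        simp only [h5]
      · intro h4
        have h5 := h4 p
        have h6 : p + (x + p) = x := by
          calc p + (x + p) = x + (p + p) := by abel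
            _ = x := by rw [h2, add_zero]
        rw [h6, ind_eq_one.2 hp] at h5
        exact ind_eq_one.1 h5
    rcases hflat with h4 | ⟨h4, h5, g, σ, ⟨t, hg⟩, hσ⟩ | ⟨h4, h5, h6, h7⟩
    · left
      refine ⟨{ perS (ind γ) with smul_mem' := fun c x hx => h4 c x hx }, p, fun x => ?_⟩
      rw [hper]
      rfl
    · right
      left
      exact ⟨h4, perS (ind γ), p, h5, hper, g, t, σ, hg, hσ⟩
    · right
      right
      left
      exact ⟨h4, perS (ind γ), p, h5, h6, hper, h7⟩
  · -- quadrics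
    right
    right
    right
    have hidx : 16 ≤ (perS (ind γ)).index := by
      have h4 := (perS (ind γ)).card_mul_index
      rw [hd.card, mul_comm] at h4
      have h5 : (perS (ind γ)).index = 2 ^ (2 * m) :=
        Nat.eq_of_mul_eq_mul_right Nat.card_pos h4
      rw [h5]
      calc 16 = 2 ^ 4 := by norm_num
        _ ≤ _ := Nat.pow_le_pow_right (by norm_num) (by have := hd.two_le; omega)
    have hstab : ∀ (c : F) (w : V), w ∈ perS (ind γ) → c • w ∈ perS (ind γ) := by
      rcases hflat with h4 | ⟨-, h5, -⟩ | ⟨-, h5, -⟩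
      · exact h4
      · omega
      · omega
    let R : Submodule F V :=
      { perS (ind γ) with smul_mem' := fun c x hx => hstab c x hx }
    have hRc : Nat.card R = Nat.card (perS (ind γ)) := rfl
    obtain ⟨hcomp, hself, h4⟩ := h.quadric h2 hd.polar R (fun r => Iff.rfl)
      (fun r => hd.period r) hd.two_le (by rw [hRc]; exact hd.card) (ind_eq_one.2 hp)
      (ind_eq_zero_iff.2 hq)
    refine ⟨β, hd.polar, hcomp, hself, hd.period, ?_, hd.lt, h4⟩
    by_contra hcon
    push Not at hcon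
    have h5 := (hd.period (p + q)).2 (fun y => hcon _ _) q
    have h6 : q + (p + q) = p := by
      calc q + (p + q) = p + (q + q) := by abel
        _ = p := by rw [h2, add_zero]
    rw [h6, ind_eq_one.2 hp, ind_eq_zero_iff.2 hq] at h5
    exact absurd h5 (by decide)

end Pool.Agent.SIT
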