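import Pool.Agent.SIT.Fourier

/-!
# Normal form of quadratic functions over `F_2` without linear part on the radical
-/

namespace Pool.Agent.SIT

open Finset

section

variable {V : Type*} [AddCommGroup V] [Module (ZMod 2) V]

/-- All derivatives of `f` are affine functions. -/
def QF (f : V → ZMod 2) : Prop :=
  ∀ a, ∃ (φ : Module.Dual (ZMod 2) V) (c : ZMod 2), ∀ x, f (x + a) + f x = φ x + c

/-- No derivative of `f` is the constant `1`. -/
def ND (f : V → ZMod 2) : Prop := ∀ a, ¬ ∀ x, f (x + a) + f x = 1

/-- Directions in which the derivative is constant. -/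
def Rad (f : V → ZMod 2) (a : V) : Prop := ∃ c, ∀ x, f (x + a) + f x = c

/-- Normal form: a sum of products of independent affine functions, plus a constant. -/
def NF (f : V → ZMod 2) : Prop :=
  ∃ (ι : Type) (_ : Fintype ι) (l l' : ι → Module.Dual (ZMod 2) V) (α α' : ι → ZMod 2)
    (c : ZMod 2),
    (∀ s t : ι → ZMod 2, (∀ x, ∑ i, (s i * l i x + t i * l' i x) = 0) →
      ∀ i, s i = 0 ∧ t i = 0) ∧
    (∀ i w, Rad f w → l i w = 0 ∧ l' i w = 0) ∧
    ∀ x, f x = ∑ i, (l i x + α i) * (l' i x + α' i) + c

lemma z2_add_self (c : ZMod 2) : c + c = 0 := CharTwo.add_self_eq_zero c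

lemma z2_eq_add_iff (a b c : ZMod 2) : a + b = c ↔ a = c + b := by
  revert a b c; decide

variable {f : V → ZMod 2}

lemma polar_symm {a b : V} {φa φb : Module.Dual (ZMod 2) V} {ca cb : ZMod 2}
    (ha : ∀ x, f (x + a) + f x = φa x + ca) (hb : ∀ x, f (x + b) + f x = φb x + cb) :
    φa b = φb a := by
  have h1 := ha b
  have h2 := ha 0
  have h3 := hb a
  have h4 := hb 0
  rw [zero_add, map_zero, zero_add] at h2 h4
  rw [add_comm a b] at h3
  rw [← h2] at h1
  rw [← h4] at h3
  generalize f (b + a) = p at *
  generalize f a = q at *
  generalize f b = r at *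
  generalize f 0 = s at *
  generalize φa b = t at *
  generalize φb a = u at *
  clear h2 h4 ha hb
  revert p q r s t u
  decide

lemma polar_self {a : V} {φa : Module.Dual (ZMod 2) V} {ca : ZMod 2}
    (ha : ∀ x, f (x + a) + f x = φa x + ca) : φa a = 0 := by
  have h1 := ha a
  have h2 := ha 0
  rw [zero_add, map_zero, zero_add] at h2
  rw [add_self', ← h2] at h1
  generalize f a = q at *
  generalize f 0 = s at *
  generalize φa a = t at *
  clear h2 ha
  revert q s t
  decide

variable [Fintype V]

theorem normal_form_aux : ∀ (k : ℕ) (f : V → ZMod 2), QF f → ND f →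
    {a | ¬ Rad f a}.ncard ≤ k → NF f := by
  intro k
  induction k with
  | zero =>
    intro f hQ hN hk
    have hall : ∀ a, Rad f a := by
      intro a
      by_contra h
      have h1 : 0 < {a | ¬ Rad f a}.ncard := (Set.ncard_pos (Set.toFinite _)).2 ⟨a, h⟩
      omega
    refine ⟨Fin 0, inferInstance, fun _ => 0, fun _ => 0, fun _ => 0, fun _ => 0, f 0, ?_, ?_, ?_⟩
    · intro s t _ i
      exact i.elim0
    · intro i
      exact i.elim0
    · intro x
      obtain ⟨c, hc⟩ := hall x
      rcases zmod2_cases c with rfl | rfl
      · have := hc 0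
        rw [zero_add, z2_eq_add_iff] at this
        simpa using this
      · exact absurd hc (hN x)
  | succ k ih =>
    intro f hQ hN hk
    by_cases hall : ∀ a, Rad f a
    · apply ih f hQ hN
      have : {a | ¬ Rad f a} = ∅ := by
        rw [Set.eq_empty_iff_forall_notMem]
        intro a ha
        exact ha (hall a)
      rw [this]
      simp
    push Not at hall
    obtain ⟨a, ha⟩ := hall
    obtain ⟨φa, ca, hφa⟩ := hQ a
    obtain ⟨b, hb⟩ : ∃ b, φa b = 1 := by
      by_contra hcon
      push Not at hcon
      apply ha
      refine ⟨ca, ?_⟩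
      intro x
      rw [hφa]
      rcases zmod2_cases (φa x) with h | h
      · rw [h, zero_add]
      · exact absurd h (hcon x)
    obtain ⟨φb, cb, hφb⟩ := hQ b
    have hba : φb a = 1 := by rw [← polar_symm hφa hφb, hb]
    have haa : φa a = 0 := polar_self hφa
    have hbb : φb b = 0 := polar_self hφb
    set g : V → ZMod 2 := fun x => f x + (φb x + cb) * (φa x + ca) with hg
    have hgw : ∀ w x, g (x + w) + g x = (f (x + w) + f x) +
        (φa w * (φb x + cb) + φb w * (φa x + ca) + φb w * φa w) := by
      intro w x
      simp only [hg, map_add]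
      have h2 : (2 : ZMod 2) = 0 := rfl
      linear_combination ((φb x + cb) * (φa x + ca)) * h2
    have hga : ∀ x, g (x + a) = g x := by
      intro x
      have := hgw a x
      rw [hφa, haa, hba] at this
      rw [z2_eq_add_iff] at this
      rw [this]
      have h2 : (2 : ZMod 2) = 0 := rfl
      linear_combination (φa x + ca) * h2
    have hgb : ∀ x, g (x + b) = g x := by
      intro x
      have := hgw b x
      rw [hφb, hbb, hb] at this
      rw [z2_eq_add_iff] at this
      rw [this]
      have h2 : (2 : ZMod 2) = 0 := rfl
      linear_combination (φb x + cb) * h2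
    have hQg : QF g := by
      intro w
      obtain ⟨φw, cw, hφw⟩ := hQ w
      refine ⟨φw + φa w • φb + φb w • φa, cw + φa w * cb + φb w * ca + φb w * φa w, ?_⟩
      intro x
      rw [hgw, hφw]
      simp only [LinearMap.add_apply, LinearMap.smul_apply, smul_eq_mul]
      ring
    have hNg : ND g := by
      intro w hw
      have hgper : ∀ (c : ZMod 2) x, g (x + c • a) = g x := by
        intro c x
        rcases zmod2_cases c with rfl | rfl
        · rw [zero_smul, add_zero]
        · rw [one_smul, hga]
      have hgper' : ∀ (c : ZMod 2) x, g (x + c • b) = g x := by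
        intro c x
        rcases zmod2_cases c with rfl | rfl
        · rw [zero_smul, add_zero]
        · rw [one_smul, hgb]
      apply hN (w + φb w • a + φa w • b)
      intro x
      have h1 := hgw (w + φb w • a + φa w • b) x
      have h2 : φb (w + φb w • a + φa w • b) = 0 := by
        rw [map_add, map_add, map_smul, map_smul, hba, hbb, smul_zero, add_zero, smul_eq_mul,
          mul_one, z2_add_self]
      have h3 : φa (w + φb w • a + φa w • b) = 0 := by
        rw [map_add, map_add, map_smul, map_smul, haa, hb, smul_zero, add_zero, smul_eq_mul,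
          mul_one, z2_add_self]
      rw [h2, h3] at h1
      have h4 : g (x + (w + φb w • a + φa w • b)) = g (x + w) := by
        rw [← add_assoc, ← add_assoc, hgper', hgper]
      rw [h4, hw x] at h1
      rw [zero_mul, zero_mul, zero_mul, add_zero, add_zero, add_zero] at h1
      exact h1.symm
    have hRad : ∀ w, Rad f w → φa w = 0 ∧ φb w = 0 ∧ Rad g w := by
      rintro w ⟨c, hc⟩
      have hc' : ∀ x, f (x + w) + f x = (0 : Module.Dual (ZMod 2) V) x + c := by
        intro x
        rw [hc, LinearMap.zero_apply, zero_add]
      have h1 : φa w = 0 := by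
        rw [polar_symm hφa hc']; rfl
      have h2 : φb w = 0 := by
        rw [polar_symm hφb hc']; rfl
      refine ⟨h1, h2, c, ?_⟩
      intro x
      rw [hgw, h1, h2, hc]
      ring
    have hRada : Rad g a := ⟨0, fun x => by rw [hga]; exact z2_add_self _⟩
    have hRadb : Rad g b := ⟨0, fun x => by rw [hgb]; exact z2_add_self _⟩
    have hcard : {a | ¬ Rad g a}.ncard ≤ k := by
      have h1 : {a | ¬ Rad g a}.ncard < {a | ¬ Rad f a}.ncard := by
        apply Set.ncard_lt_ncard
        · rw [Set.ssubset_iff_of_subset]
          · exact ⟨a, ha, fun h => h hRada⟩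
          · intro w hw hw'
            exact hw (hRad w hw').2.2
        · exact Set.toFinite _
      omega
    obtain ⟨ι, hι, l, l', α, α', c, hind, hvan, hform⟩ := ih g hQg hNg hcard
    refine ⟨Option ι, inferInstance, fun o => o.elim φb l, fun o => o.elim φa l',
      fun o => o.elim cb α, fun o => o.elim ca α', c, ?_, ?_, ?_⟩
    · intro s t h
      have hs : s none = 0 := by
        have h1 := h a
        rw [Fintype.sum_option] at h1
        simp only [Option.elim] at h1
        rw [hba, haa, Finset.sum_eq_zero] at h1
        · simpa using h1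
        · intro i _
          rw [(hvan i a hRada).1, (hvan i a hRada).2]
          simp
      have ht : t none = 0 := by
        have h1 := h b
        rw [Fintype.sum_option] at h1
        simp only [Option.elim] at h1
        rw [hbb, hb, Finset.sum_eq_zero] at h1
        · simpa using h1
        · intro i _
          rw [(hvan i b hRadb).1, (hvan i b hRadb).2]
          simp
      have h2 := hind (fun i => s (some i)) (fun i => t (some i)) (by
        intro x
        have h1 := h x
        rw [Fintype.sum_option] at h1
        simp only [Option.elim] at h1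
        rw [hs, ht, zero_mul, zero_mul, zero_add, zero_add] at h1
        exact h1)
      intro o
      cases o with
      | none => exact ⟨hs, ht⟩
      | some i => exact h2 i
    · intro o w hw
      obtain ⟨h1, h2, h3⟩ := hRad w hw
      cases o with
      | none => exact ⟨h2, h1⟩
      | some i => exact hvan i w h3
    · intro x
      rw [Fintype.sum_option]
      simp only [Option.elim]
      have h1 := hform x
      have h3 : f x = g x + (φb x + cb) * (φa x + ca) := by
        simp only [hg]
        rw [add_assoc, z2_add_self, add_zero]
      rw [h3, h1]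
      ring

theorem normal_form (f : V → ZMod 2) (hQ : QF f) (hN : ND f) : NF f :=
  normal_form_aux _ f hQ hN le_rfl

end

end Pool.Agent.SIT
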