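import Pool.Agent.SIT.LinAll

/-!
# Quadrics over the field of order four: normal form
-/

namespace Pool.Agent.SIT.Gen

open Finset

variable {F : Type*} [Field F] [CharP F 2] {V : Type*} [AddCommGroup V] [Module F V]

/-- a quadratic form, with polar form `B`, that vanishes on the radical of `B` -/
structure QS (Q : V → F) (B : V → V → F) : Prop where
  add : ∀ x y, Q (x + y) = Q x + Q y + B x y
  smul : ∀ (c : F) x, Q (c • x) = c ^ 2 * Q x
  badd : ∀ x y z, B (x + y) z = B x z + B y z
  bsmul : ∀ (c : F) x y, B (c • x) y = c * B x y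
  bsymm : ∀ x y, B x y = B y x
  rad : ∀ r, (∀ y, B r y = 0) → Q r = 0

lemma QS.balt {Q : V → F} {B : V → V → F} (h : QS Q B) (x : V) : B x x = 0 := by
  have h1 := h.add x x
  have h2 : x + x = 0 := add_self_of_char F V x
  have h3 : Q (0 : V) = 0 := by
    have := h.smul 0 0
    rwa [zero_smul, zero_pow two_ne_zero, zero_mul] at this
  rw [h2, h3] at h1
  have h4 : Q x + Q x = 0 := CharTwo.add_self_eq_zero _
  rw [h4, zero_add] at h1
  exact h1.symm

lemma QS.badd' {Q : V → F} {B : V → V → F} (h : QS Q B) (x y z : V) :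
    B x (y + z) = B x y + B x z := by
  rw [h.bsymm, h.badd, h.bsymm y, h.bsymm z]

lemma QS.bsmul' {Q : V → F} {B : V → V → F} (h : QS Q B) (c : F) (x y : V) :
    B x (c • y) = c * B x y := by
  rw [h.bsymm, h.bsmul, h.bsymm y]

/-- the sign of the trace of an element of the field of order four -/
noncomputable def sT (q : F) : ℤ :=
  haveI := Classical.propDecidable (q ^ 2 + q = 0)
  if q ^ 2 + q = 0 then 1 else -1

lemma sT_of_eq {q : F} (h : q ^ 2 + q = 0) : sT q = 1 := by
  rw [sT, if_pos h]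

lemma sT_of_ne {q : F} (h : q ^ 2 + q ≠ 0) : sT q = -1 := by
  rw [sT, if_neg h]

lemma sT_zero : sT (0 : F) = 1 := sT_of_eq (by ring)

section four

variable [Fintype F]

lemma card_four_pow (hF : Fintype.card F = 4) (q : F) : q ^ 4 = q := by
  rw [← hF]
  exact FiniteField.pow_card q

lemma tr_cases (hF : Fintype.card F = 4) (q : F) : q ^ 2 + q = 0 ∨ q ^ 2 + q = 1 := by
  have h1 := card_four_pow hF q
  have h2 : (q ^ 2 + q) * (q ^ 2 + q - 1) = 0 := by
    have h3 : (2 : F) = 0 := CharTwo.two_eq_zero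
    linear_combination h1 + q ^ 3 * h3
  rcases mul_eq_zero.1 h2 with h | h
  · exact Or.inl h
  · exact Or.inr (sub_eq_zero.1 h)

lemma sT_add (hF : Fintype.card F = 4) (a b : F) : sT (a + b) = sT a * sT b := by
  have h3 : (2 : F) = 0 := CharTwo.two_eq_zero
  have h1 : (a + b) ^ 2 + (a + b) = (a ^ 2 + a) + (b ^ 2 + b) := by
    linear_combination a * b * h3
  rcases tr_cases hF a with ha | ha <;> rcases tr_cases hF b with hb | hb
  · rw [sT_of_eq ha, sT_of_eq hb, sT_of_eq (by rw [h1, ha, hb, add_zero])]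
    norm_num
  · rw [sT_of_eq ha, sT_of_ne (q := b) (by rw [hb]; exact one_ne_zero),
      sT_of_ne (by rw [h1, ha, hb, zero_add]; exact one_ne_zero)]
    norm_num
  · rw [sT_of_eq hb, sT_of_ne (q := a) (by rw [ha]; exact one_ne_zero),
      sT_of_ne (by rw [h1, ha, hb, add_zero]; exact one_ne_zero)]
    norm_num
  · rw [sT_of_ne (q := a) (by rw [ha]; exact one_ne_zero),
      sT_of_ne (q := b) (by rw [hb]; exact one_ne_zero),
      sT_of_eq (by rw [h1, ha, hb]; linear_combination h3)]
    norm_num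

/-- there is an element of trace one -/
lemma exists_tr (hF : Fintype.card F = 4) : ∃ u : F, u ^ 2 + u = 1 := by
  obtain ⟨w, hw, -⟩ := S4.exists_w hF
  refine ⟨w, ?_⟩
  have h3 : (2 : F) = 0 := CharTwo.two_eq_zero
  linear_combination hw - h3

lemma sum_sT (hF : Fintype.card F = 4) : ∑ a : F, sT a = 0 := by
  obtain ⟨u, hu⟩ := exists_tr hF
  have h1 : ∑ a : F, sT a = ∑ a : F, sT (a + u) :=
    (Equiv.sum_comp (Equiv.addRight u) (fun a => sT a)).symm
  have h2 : ∑ a : F, sT (a + u) = -∑ a : F, sT a := by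
    rw [← Finset.sum_neg_distrib]
    apply Finset.sum_congr rfl
    intro a _
    rw [sT_add hF, sT_of_ne (q := u) (by rw [hu]; exact one_ne_zero)]
    ring
  linarith

lemma sum_sT_mul (hF : Fintype.card F = 4) {a : F} (ha : a ≠ 0) : ∑ b : F, sT (a * b) = 0 := by
  rw [← sum_sT hF]
  exact Equiv.sum_comp (Equiv.mulLeft₀ a ha) (fun b => sT b)

lemma sum_sT_sq (hF : Fintype.card F = 4) {q : F} (hq : q ≠ 0) :
    ∑ c : F, sT (c ^ 2 * q) = 0 := by
  rw [← sum_sT_mul hF hq]
  have hinj : Function.Bijective (fun c : F => c ^ 2) := by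
    rw [← Finite.injective_iff_bijective]
    intro c d h
    have h1 : c ^ 2 = d ^ 2 := h
    have h3 : (c ^ 2) ^ 2 = (d ^ 2) ^ 2 := by rw [h1]
    rw [← pow_mul, ← pow_mul, card_four_pow hF, card_four_pow hF] at h3
    exact h3
  rw [← Equiv.sum_comp (Equiv.ofBijective _ hinj) (fun b => sT (q * b))]
  apply Finset.sum_congr rfl
  intro c _
  rw [Equiv.ofBijective_apply, mul_comm]

lemma sum_sT_mul2 (hF : Fintype.card F = 4) : ∑ a : F, ∑ b : F, sT (a * b) = 4 := by
  rw [Finset.sum_eq_single 0]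
  · have : ∀ b : F, sT (0 * b) = 1 := fun b => by rw [zero_mul, sT_zero]
    rw [Finset.sum_congr rfl (fun b _ => this b), Finset.sum_const, Finset.card_univ, hF]
    norm_num
  · intro a _ ha
    exact sum_sT_mul hF ha
  · intro h
    exact absurd (Finset.mem_univ _) h

variable [Fintype V]

/-- `|V| + 3 S = 4 |{Q = 0}|` -/
lemma QS.count {Q : V → F} {B : V → V → F} (h : QS Q B) (hF : Fintype.card F = 4) [DecidableEq F] :
    (Fintype.card V : ℤ) + 3 * ∑ x : V, sT (Q x) =
      4 * ((univ.filter (fun x => Q x = 0)).card : ℤ) := by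
  have h1 : ∑ c : F, ∑ x : V, sT (Q (c • x)) = (Fintype.card V : ℤ) + 3 * ∑ x : V, sT (Q x) := by
    rw [← Finset.add_sum_erase _ _ (Finset.mem_univ (0 : F))]
    congr 1
    · have : ∀ x : V, sT (Q ((0 : F) • x)) = 1 := by
        intro x
        rw [h.smul, zero_pow two_ne_zero, zero_mul, sT_zero]
      rw [Finset.sum_congr rfl (fun x _ => this x), Finset.sum_const, Finset.card_univ]
      simp
    · have : ∀ c ∈ univ.erase (0 : F), ∑ x : V, sT (Q (c • x)) = ∑ x : V, sT (Q x) := by
        intro c hc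
        have hc0 : c ≠ 0 := Finset.ne_of_mem_erase hc
        exact Equiv.sum_comp (LinearEquiv.smulOfNeZero F V c hc0).toEquiv (fun x => sT (Q x))
      rw [Finset.sum_congr rfl this, Finset.sum_const, Finset.card_erase_of_mem (Finset.mem_univ _),
        Finset.card_univ, hF]
      simp
  rw [← h1, Finset.sum_comm]
  have h2 : ∀ x : V, ∑ c : F, sT (Q (c • x)) = if Q x = 0 then (4 : ℤ) else 0 := by
    intro x
    split_ifs with hx
    · have : ∀ c : F, sT (Q (c • x)) = 1 := by
        intro c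
        rw [h.smul, hx, mul_zero, sT_zero]
      rw [Finset.sum_congr rfl (fun c _ => this c), Finset.sum_const, Finset.card_univ, hF]
      norm_num
    · rw [← sum_sT_sq hF hx]
      apply Finset.sum_congr rfl
      intro c _
      rw [h.smul]
  rw [Finset.sum_congr rfl (fun x _ => h2 x), ← Finset.sum_filter, Finset.sum_const]
  simp [mul_comm]

/-- a singular vector outside the radical -/
lemma QS.exists_sing {Q : V → F} {B : V → V → F} (h : QS Q B) (hF : Fintype.card F = 4)
    (hS : 0 < ∑ x : V, sT (Q x)) (hne : ∃ x y, B x y ≠ 0) :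
    ∃ x, Q x = 0 ∧ ∃ y, B x y ≠ 0 := by
  classical
  by_contra hcon
  push Not at hcon
  have h1 := h.count hF
  set Z := univ.filter (fun x => Q x = 0) with hZ
  obtain ⟨x₀, y₀, hxy⟩ := hne
  have hZr : ∀ x ∈ Z, ∀ y, B x y = 0 := fun x hx => hcon x (Finset.mem_filter.1 hx).2
  have h2 : Fintype.card F * Z.card ≤ Fintype.card V := by
    rw [← Finset.card_univ, ← Finset.card_univ, ← Finset.card_product]
    apply Finset.card_le_card_of_injOn (fun p : F × V => p.1 • x₀ + p.2)
      (fun _ _ => Finset.mem_coe.2 (Finset.mem_univ _))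
    rintro ⟨a, z⟩ hz ⟨b, z'⟩ hz' he
    have hz1 : z ∈ Z := (Finset.mem_product.1 (Finset.mem_coe.1 hz)).2
    have hz2 : z' ∈ Z := (Finset.mem_product.1 (Finset.mem_coe.1 hz')).2
    have he' : a • x₀ + z = b • x₀ + z' := he
    have h3 : a * B x₀ y₀ = b * B x₀ y₀ := by
      have := congrArg (fun v => B v y₀) he'
      simp only [h.badd, h.bsmul, hZr z hz1, hZr z' hz2, add_zero] at this
      exact this
    have h4 : a = b := mul_right_cancel₀ hxy h3
    subst h4
    have h5 : z = z' := add_left_cancel he'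
    rw [h5]
  rw [hF] at h2
  have h3 : (4 : ℤ) * (Z.card : ℤ) ≤ Fintype.card V := by exact_mod_cast h2
  linarith

omit [Fintype F] [Fintype V] in
/-- splitting off a hyperbolic pair -/
lemma QS.split {Q : V → F} {B : V → V → F} (h : QS Q B) {x y : V} (hx : Q x = 0) (hy : Q y = 0)
    (hxy : B x y = 1) :
    QS (fun z => Q z + B y z * B x z) (fun z z' => B z z' + B y z * B x z' + B y z' * B x z) where
  add := by
    intro z z'
    simp only [h.add, h.badd']
    ring
  smul := by
    intro c z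
    simp only [h.smul, h.bsmul']
    ring
  badd := by
    intro a b c
    simp only [h.badd, h.badd']
    ring
  bsmul := by
    intro c a b
    simp only [h.bsmul, h.bsmul']
    ring
  bsymm := by
    intro a b
    rw [h.bsymm a b]
    ring
  rad := by
    intro r hr
    have h2 : (2 : F) = 0 := CharTwo.two_eq_zero
    have h1 : Q (r + (B y r • x + B x r • y)) = 0 := by
      apply h.rad
      intro z
      rw [h.badd, h.badd, h.bsmul, h.bsmul, h.bsymm r z, h.bsymm z r]
      have := hr z
      linear_combination this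
    rw [h.add, h.add, h.smul, h.smul, hx, hy, h.bsmul, h.bsmul', hxy, h.badd', h.bsmul', h.bsmul',
      h.bsymm r x, h.bsymm r y] at h1
    linear_combination h1 - B y r * B x r * h2

/-- the Gauss sum after splitting off a hyperbolic pair -/
lemma QS.sum_split {Q : V → F} {B : V → V → F} (h : QS Q B) (hF : Fintype.card F = 4) {x y : V}
    (hx : Q x = 0) (hy : Q y = 0) (hxy : B x y = 1) :
    ∑ z : V, sT (Q z + B y z * B x z) = 4 * ∑ z : V, sT (Q z) := by
  have h1 : ∀ p : F × F, ∑ z : V, sT (Q (z + (p.1 • x + p.2 • y))) = ∑ z : V, sT (Q z) :=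
    fun p => Equiv.sum_comp (Equiv.addRight (p.1 • x + p.2 • y)) (fun z => sT (Q z))
  have h2 : ∑ p : F × F, ∑ z : V, sT (Q (z + (p.1 • x + p.2 • y))) =
      16 * ∑ z : V, sT (Q z) := by
    rw [Finset.sum_congr rfl (fun p _ => h1 p), Finset.sum_const, Finset.card_univ,
      Fintype.card_prod, hF]
    norm_num
  have h3 : ∀ (p : F × F) (z : V), sT (Q (z + (p.1 • x + p.2 • y))) =
      sT (Q z + B y z * B x z) * sT ((B y z + p.1) * (B x z + p.2)) := by
    rintro ⟨a, b⟩ z
    rw [← sT_add hF]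
    congr 1
    simp only
    rw [h.add, h.add, h.smul, h.smul, hx, hy, h.bsmul, h.bsmul', hxy, h.badd', h.bsmul', h.bsmul',
      h.bsymm z x, h.bsymm z y]
    have h4 : (2 : F) = 0 := CharTwo.two_eq_zero
    linear_combination (-(B y z * B x z)) * h4
  have h4 : ∀ s t : F, ∑ p : F × F, sT ((s + p.1) * (t + p.2)) = 4 := by
    intro s t
    rw [Fintype.sum_prod_type, ← sum_sT_mul2 hF,
      ← Equiv.sum_comp (Equiv.addLeft s) (fun a => ∑ b : F, sT (a * b))]
    apply Finset.sum_congr rfl
    intro a _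
    exact Equiv.sum_comp (Equiv.addLeft t) (fun b => sT ((s + a) * b))
  rw [Finset.sum_comm] at h2
  have h5 : ∀ z : V, ∑ p : F × F, sT (Q (z + (p.1 • x + p.2 • y))) =
      sT (Q z + B y z * B x z) * 4 := by
    intro z
    rw [Finset.sum_congr rfl (fun p _ => h3 p z), ← Finset.mul_sum, h4]
  rw [Finset.sum_congr rfl (fun z _ => h5 z), ← Finset.sum_mul] at h2
  linarith

end four

end Pool.Agent.SIT.Gen
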