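import Pool.Agent.SIT.QuadForm4

/-!
# Quadrics over the field of order four: normal form, the induction
-/

namespace Pool.Agent.SIT.Gen

open Finset

variable {F : Type*} [Field F] [CharP F 2] {V : Type*} [AddCommGroup V] [Module F V]

/-- the functional `B x ·` -/
def QS.fn {Q : V → F} {B : V → V → F} (h : QS Q B) (x : V) : Module.Dual F V where
  toFun := B x
  map_add' := h.badd' x
  map_smul' := fun c y => by
    rw [h.bsmul']
    rfl

omit [CharP F 2] in
/-- the polar form of a sum of products of functionals -/
lemma polar_sum {m : ℕ} {φ ψ : Fin m → Module.Dual F V} {Q : V → F} {B : V → V → F}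
    (hadd : ∀ x y, Q (x + y) = Q x + Q y + B x y) (hQ : ∀ x, Q x = ∑ i, φ i x * ψ i x) (x y : V) :
    B x y = ∑ i, (φ i x * ψ i y + φ i y * ψ i x) := by
  have h1 := hadd x y
  rw [hQ, hQ, hQ] at h1
  have h2 : ∑ i, φ i (x + y) * ψ i (x + y) =
      ∑ i, φ i x * ψ i x + ∑ i, φ i y * ψ i y + ∑ i, (φ i x * ψ i y + φ i y * ψ i x) := by
    rw [← Finset.sum_add_distrib, ← Finset.sum_add_distrib]
    apply Finset.sum_congr rfl
    intro i _
    rw [map_add, map_add]
    ring
  rw [h2] at h1
  exact (add_left_cancel h1).symm

omit [CharP F 2] in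
/-- the radical of a sum of products of independent functionals -/
lemma rad_sum {m : ℕ} {φ ψ : Fin m → Module.Dual F V}
    (hli : LinearIndependent F (Sum.elim φ ψ)) {x : V}
    (h : ∀ y, ∑ i, (φ i x * ψ i y + φ i y * ψ i x) = 0) (i : Fin m) : φ i x = 0 ∧ ψ i x = 0 := by
  rw [Fintype.linearIndependent_iff] at hli
  have h1 := hli (Sum.elim (fun i => ψ i x) (fun i => φ i x)) (by
    ext y
    rw [Fintype.sum_sum_type]
    simp only [Sum.elim_inl, Sum.elim_inr, LinearMap.add_apply, LinearMap.sum_apply,
      LinearMap.smul_apply, smul_eq_mul, LinearMap.zero_apply]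
    rw [← h y, ← Finset.sum_add_distrib]
    apply Finset.sum_congr rfl
    intro i _
    ring)
  exact ⟨h1 (Sum.inr i), h1 (Sum.inl i)⟩

variable [Fintype F] [Fintype V]

/-- **Normal form** for a quadratic form over the field of order four, that vanishes on the radical
and has a positive Gauss sum. -/
theorem QS.normal (hF : Fintype.card F = 4) : ∀ (n : ℕ) (Q : V → F) (B : V → V → F), QS Q B →
    0 < ∑ x : V, sT (Q x) → Nat.card {x : V // ∃ y, B x y ≠ 0} = n →
    ∃ (m : ℕ) (φ ψ : Fin m → Module.Dual F V), LinearIndependent F (Sum.elim φ ψ) ∧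
      ∀ x, Q x = ∑ i, φ i x * ψ i x := by
  intro n
  induction n using Nat.strong_induction_on with
  | _ n ih =>
    intro Q B h hS hn
    by_cases hne : ∃ x y, B x y ≠ 0
    · obtain ⟨x, hx, y₀, hy₀⟩ := h.exists_sing hF hS hne
      -- the second vector
      obtain ⟨y, hy, hxy⟩ : ∃ y, Q y = 0 ∧ B x y = 1 := by
        obtain ⟨y₁, h1⟩ : ∃ y₁, B x y₁ = 1 :=
          ⟨(B x y₀)⁻¹ • y₀, by rw [h.bsmul', inv_mul_cancel₀ hy₀]⟩
        refine ⟨y₁ + Q y₁ • x, ?_, ?_⟩
        · rw [h.add, h.smul, hx, h.bsmul', h.bsymm y₁ x, h1, mul_zero, add_zero, mul_one,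
            CharTwo.add_self_eq_zero]
        · rw [h.badd', h1, h.bsmul', h.balt, mul_zero, add_zero]
      have hsp := h.split hx hy hxy
      have hS' : 0 < ∑ z : V, sT (Q z + B y z * B x z) := by
        rw [h.sum_split hF hx hy hxy]
        linarith
      have hxx : B x x = 0 := h.balt x
      have hyy : B y y = 0 := h.balt y
      have hyx : B y x = 1 := by rw [h.bsymm, hxy]
      have hcard : Nat.card {u : V // ∃ z, B u z + B y u * B x z + B y z * B x u ≠ 0} < n := by
        rw [← hn]
        apply Set.ncard_lt_ncard (s := {u : V | ∃ z, B u z + B y u * B x z + B y z * B x u ≠ 0})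
          (t := {u : V | ∃ z, B u z ≠ 0}) _ (Set.toFinite _)
        refine ⟨?_, ?_⟩
        · rintro u ⟨z, hz⟩
          by_contra hcon
          have hcon' : ∀ z, B u z = 0 := by
            intro z
            by_contra h0
            exact hcon ⟨z, h0⟩
          apply hz
          rw [hcon' z, h.bsymm y u, hcon' y, h.bsymm x u, hcon' x]
          ring
        · intro hsub
          obtain ⟨z, hz⟩ := hsub (show x ∈ {u : V | ∃ z, B u z ≠ 0} from ⟨y₀, hy₀⟩)
          apply hz
          rw [hyx, hxx, mul_zero, add_zero, one_mul, CharTwo.add_self_eq_zero]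
      obtain ⟨m, φ, ψ, hli, hQ⟩ := ih _ hcard _ _ hsp hS' rfl
      have hpol := polar_sum hsp.add hQ
      have hx0 : ∀ i, φ i x = 0 ∧ ψ i x = 0 := rad_sum hli (fun z => by
        rw [← hpol, hyx, hxx, mul_zero, add_zero, one_mul, CharTwo.add_self_eq_zero])
      have hy0 : ∀ i, φ i y = 0 ∧ ψ i y = 0 := rad_sum hli (fun z => by
        rw [← hpol, hyy, hxy, zero_mul, add_zero, mul_one, CharTwo.add_self_eq_zero])
      refine ⟨m + 1, Fin.cons (h.fn y) φ, Fin.cons (h.fn x) ψ, ?_, ?_⟩
      · rw [Fintype.linearIndependent_iff]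
        intro g hg
        rw [Fintype.sum_sum_type, Fin.sum_univ_succ, Fin.sum_univ_succ] at hg
        simp only [Sum.elim_inl, Sum.elim_inr, Fin.cons_zero, Fin.cons_succ] at hg
        have hev : ∀ v : V, g (Sum.inl 0) * B y v + ∑ i : Fin m, g (Sum.inl i.succ) * φ i v +
            (g (Sum.inr 0) * B x v + ∑ i : Fin m, g (Sum.inr i.succ) * ψ i v) = 0 := by
          intro v
          have h1 := congrArg (fun l : Module.Dual F V => l v) hg
          simp only [LinearMap.add_apply, LinearMap.sum_apply, LinearMap.smul_apply,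
            smul_eq_mul, LinearMap.zero_apply] at h1
          exact h1
        have g0 : g (Sum.inl 0) = 0 := by
          have h1 := hev x
          simp only [(hx0 _).1, (hx0 _).2, mul_zero, Finset.sum_const_zero, add_zero, hyx, hxx,
            mul_one] at h1
          exact h1
        have g1 : g (Sum.inr 0) = 0 := by
          have h1 := hev y
          simp only [(hy0 _).1, (hy0 _).2, mul_zero, Finset.sum_const_zero, add_zero, hyy, hxy,
            mul_one, zero_add] at h1
          exact h1
        rw [Fintype.linearIndependent_iff] at hli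
        have h1 := hli (Sum.elim (fun i => g (Sum.inl i.succ)) (fun i => g (Sum.inr i.succ))) (by
          ext v
          rw [Fintype.sum_sum_type]
          simp only [Sum.elim_inl, Sum.elim_inr, LinearMap.add_apply, LinearMap.sum_apply,
            LinearMap.smul_apply, smul_eq_mul, LinearMap.zero_apply]
          have h2 := hev v
          rw [g0, g1, zero_mul, zero_mul, zero_add, zero_add] at h2
          exact h2)
        intro i
        rcases i with i | i
        · refine Fin.cases g0 (fun j => ?_) i
          exact h1 (Sum.inl j)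
        · refine Fin.cases g1 (fun j => ?_) i
          exact h1 (Sum.inr j)
      · intro z
        rw [Fin.sum_univ_succ]
        simp only [Fin.cons_zero, Fin.cons_succ]
        rw [← hQ z]
        change Q z = B y z * B x z + (Q z + B y z * B x z)
        have h2 : (2 : F) = 0 := CharTwo.two_eq_zero
        linear_combination (-(B y z * B x z)) * h2
    · push Not at hne
      refine ⟨0, Fin.elim0, Fin.elim0, ?_, ?_⟩
      · rw [Fintype.linearIndependent_iff]
        intro g _ i
        rcases i with i | i <;> exact i.elim0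
      · intro x
        rw [h.rad x (hne x)]
        simp

end Pool.Agent.SIT.Gen
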