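import Pool.Agent.SIT.QuadForm4b

/-!
# Quadrics over the field of order four: the explicit form of the codewords
-/

namespace Pool.Agent.SIT.Gen

open Finset

variable {F : Type*} [Field F] {V : Type*} [AddCommGroup V] [Module F V]

/-- The translates of the quadrics `Tr (φ₁ ψ₁ + ⋯ + φ_m ψ_m) = 1`, where `φ₁, …, ψ_m` are
independent linear forms over the field `F` of order 4, `m ≥ 1` and `Tr q = q ^ 2 + q`. -/
def HermQuad (F : Type*) [Field F] {V : Type*} [AddCommGroup V] [Module F V] (m : ℕ)
    (γ : Finset V) : Prop :=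
  ∃ (φ ψ : Fin m → Module.Dual F V) (v : V), LinearIndependent F (Sum.elim φ ψ) ∧
    ∀ x, x ∈ γ ↔ (∑ i, φ i (x + v) * ψ i (x + v)) ^ 2 + ∑ i, φ i (x + v) * ψ i (x + v) = 1

variable [Fintype F] [CharP F 2] [Fintype V] [DecidableEq V] {γ : Finset V}

/-- From the polar form to the explicit form. -/
theorem explicit_of_quad (hF : Fintype.card F = 4) (hk : 2 * γ.card ≤ Fintype.card V)
    {β : V → V → ZMod 2}
    (hb : ∀ x a b, ind γ (x + a + b) + ind γ (x + a) + ind γ (x + b) + ind γ x = β a b)
    (hcomp : ∀ (c : F) a b, β (c • a) b = β a (c • b))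
    (hR : ∀ r, (∀ y, β r y = 0) → ∀ x, ind γ (x + r) = ind γ x) (hne : ∃ a b, β a b ≠ 0) :
    ∃ m, 1 ≤ m ∧ HermQuad F m γ := by
  have h2 : ∀ x : V, x + x = 0 := add_self_of_char F V
  obtain ⟨w, hw, hF'⟩ := S4.exists_w hF
  obtain ⟨p, hp⟩ : ∃ p, p ∉ γ := by
    by_contra hcon
    push Not at hcon
    rw [Finset.eq_univ_of_forall hcon, Finset.card_univ] at hk
    have : 0 < Fintype.card V := Fintype.card_pos_iff.2 ⟨0⟩
    omega
  have hp0 : ind γ p = 0 := ind_eq_zero_iff.2 hp
  have hQS : QS (S4.Qt w (ind γ) p) (S4.bt w β) :=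
    { add := S4.Qt_add hb hcomp hw p
      smul := S4.Qt_smul hb hcomp hw hF' p
      badd := S4.bt_add_left hb
      bsmul := S4.bt_smul_left hb hw hF'
      bsymm := S4.bt_comm hb hcomp
      rad := fun r hr => S4.Qt_rad hcomp hR p (S4.rad_of_bt hb hw hr) }
  have htr : ∀ x, S4.io F (ind γ (p + x)) = S4.Qt w (ind γ) p x ^ 2 + S4.Qt w (ind γ) p x := by
    intro x
    have := S4.Qt_tr (f := ind γ) hw p x
    rw [hp0, add_zero] at this
    rw [this, add_comm]
  have hsum : ∑ x : V, sT (S4.Qt w (ind γ) p x) = ∑ x : V, sgn (ind γ x) := by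
    rw [← Equiv.sum_comp (Equiv.addLeft p) (fun x => sgn (ind γ x))]
    apply Finset.sum_congr rfl
    intro x _
    change _ = sgn (ind γ (p + x))
    rcases zmod2_cases (ind γ (p + x)) with h | h
    · have h1 := htr x
      rw [h, map_zero] at h1
      rw [h, sgn_zero, sT_of_eq h1.symm]
    · have h1 := htr x
      rw [h, map_one] at h1
      rw [h, sgn_one, sT_of_ne (by rw [← h1]; exact one_ne_zero)]
  have hS : 0 < ∑ x : V, sT (S4.Qt w (ind γ) p x) := by
    rw [hsum, sum_sgn_eq]
    have := quad_lt h2 hb hR hk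
    omega
  obtain ⟨m, φ, ψ, hli, hQ⟩ := hQS.normal hF _ _ _ hS rfl
  refine ⟨m, ?_, φ, ψ, p, hli, ?_⟩
  · by_contra hm
    have hm0 : m = 0 := by omega
    subst hm0
    obtain ⟨a, b, hab⟩ := hne
    apply hab
    apply S4.bt_eq_zero hb hw
    rw [polar_sum hQS.add hQ]
    simp
  · intro x
    rw [← hQ]
    have h1 := htr (x + p)
    have h3 : p + (x + p) = x := by
      calc p + (x + p) = x + (p + p) := by abel
        _ = x := by rw [h2, add_zero]
    rw [h3] at h1
    rw [← h1, ← ind_eq_one]
    constructor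
    · intro h
      rw [h, map_one]
    · intro h
      rcases zmod2_cases (ind γ x) with h0 | h0
      · rw [h0, map_zero] at h
        exact absurd h zero_ne_one
      · exact h0

/-- the trace to the prime field, `F` of order 4 -/
noncomputable def tau (q : F) : ZMod 2 :=
  haveI := Classical.propDecidable (q ^ 2 + q = 0)
  if q ^ 2 + q = 0 then 0 else 1

lemma tau_eq_one (hF : Fintype.card F = 4) {q : F} : tau q = 1 ↔ q ^ 2 + q = 1 := by
  unfold tau
  split_ifs with h
  · rw [h]
    exact ⟨fun h' => absurd h' (by decide), fun h' => absurd h' zero_ne_one⟩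
  · exact ⟨fun _ => (tr_cases hF q).resolve_left h, fun _ => rfl⟩

lemma tau_add (hF : Fintype.card F = 4) (a b : F) : tau (a + b) = tau a + tau b := by
  have h3 : (2 : F) = 0 := CharTwo.two_eq_zero
  have h1 : (a + b) ^ 2 + (a + b) = (a ^ 2 + a) + (b ^ 2 + b) := by
    linear_combination a * b * h3
  have h4 : ∀ q : F, q ^ 2 + q = 0 → tau q = 0 := fun q hq => by rw [tau, if_pos hq]
  have h5 : ∀ q : F, q ^ 2 + q = 1 → tau q = 1 := fun q hq => (tau_eq_one hF).2 hq
  rcases tr_cases hF a with ha | ha <;> rcases tr_cases hF b with hb | hb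
  · rw [h4 a ha, h4 b hb, h4 _ (by rw [h1, ha, hb, add_zero]), add_zero]
  · rw [h4 a ha, h5 b hb, h5 _ (by rw [h1, ha, hb, zero_add]), zero_add]
  · rw [h5 a ha, h4 b hb, h5 _ (by rw [h1, ha, hb, add_zero]), add_zero]
  · rw [h5 a ha, h5 b hb, h4 _ (by rw [h1, ha, hb]; linear_combination h3)]
    rfl

/-- From the explicit form to the polar form. -/
theorem quad_of_explicit (hF : Fintype.card F = 4) {m : ℕ} (hm : 1 ≤ m) (h : HermQuad F m γ) :
    ∃ β : V → V → ZMod 2,
      (∀ x a b, ind γ (x + a + b) + ind γ (x + a) + ind γ (x + b) + ind γ x = β a b) ∧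
      (∀ (c : F) a b, β (c • a) b = β a (c • b)) ∧
      (∀ r, (∀ x, x + r ∈ γ ↔ x ∈ γ) ↔ ∀ y, β r y = 0) ∧ (∃ a b, β a b ≠ 0) := by
  obtain ⟨φ, ψ, v, hli, hγ⟩ := h
  have h2 : ∀ x : V, x + x = 0 := add_self_of_char F V
  set q : V → F := fun x => ∑ i, φ i x * ψ i x with hq
  set B : V → V → F := fun x y => ∑ i, (φ i x * ψ i y + φ i y * ψ i x) with hB
  have hqa : ∀ x y, q (x + y) = q x + q y + B x y := by
    intro x y
    simp only [hq, hB]
    rw [← Finset.sum_add_distrib, ← Finset.sum_add_distrib]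
    apply Finset.sum_congr rfl
    intro i _
    rw [map_add, map_add]
    ring
  have hBl : ∀ (c : F) a b, B (c • a) b = c * B a b := by
    intro c a b
    simp only [hB]
    rw [Finset.mul_sum]
    apply Finset.sum_congr rfl
    intro i _
    rw [map_smul, map_smul, smul_eq_mul, smul_eq_mul]
    ring
  have hBr : ∀ (c : F) a b, B a (c • b) = c * B a b := by
    intro c a b
    simp only [hB]
    rw [Finset.mul_sum]
    apply Finset.sum_congr rfl
    intro i _
    rw [map_smul, map_smul, smul_eq_mul, smul_eq_mul]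
    ring
  have hBa : ∀ a b c, B (a + b) c = B a c + B b c := by
    intro a b c
    simp only [hB]
    rw [← Finset.sum_add_distrib]
    apply Finset.sum_congr rfl
    intro i _
    rw [map_add, map_add]
    ring
  have hind : ∀ x, ind γ x = tau (q (x + v)) := by
    intro x
    rcases zmod2_cases (tau (q (x + v))) with h0 | h0
    · rw [h0, ind_eq_zero_iff, hγ]
      intro h1
      rw [(tau_eq_one hF).2 h1] at h0
      exact absurd h0 (by decide)
    · rw [h0, ind_eq_one, hγ]
      exact (tau_eq_one hF).1 h0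
  have hpol : ∀ x a b, ind γ (x + a + b) + ind γ (x + a) + ind γ (x + b) + ind γ x =
      tau (B a b) := by
    intro x a b
    rw [hind, hind, hind, hind]
    have e1 : q (x + a + b + v) = q (x + v) + q a + B (x + v) a + (q b + (B (x + v) b + B a b)) := by
      have : x + a + b + v = (x + v + a) + b := by abel
      rw [this, hqa (x + v + a) b, hqa (x + v) a, hBa (x + v) a b]
      ring
    have e2 : q (x + a + v) = q (x + v) + q a + B (x + v) a := by
      have : x + a + v = x + v + a := by abel
      rw [this, hqa]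
    have e3 : q (x + b + v) = q (x + v) + q b + B (x + v) b := by
      have : x + b + v = x + v + b := by abel
      rw [this, hqa]
    rw [e1, e2, e3]
    simp only [tau_add hF]
    linear_combination (tau (q (x + v)) * 2 + tau (q a) + tau (B (x + v) a) + tau (q b) +
      tau (B (x + v) b)) * (by rfl : (2 : ZMod 2) = 0)
  obtain ⟨u, hu⟩ := exists_tr hF
  have hscale : ∀ {a b : V}, B a b ≠ 0 → tau (B a ((u / B a b) • b)) = 1 := by
    intro a b hab
    rw [hBr, div_mul_cancel₀ _ hab]
    exact (tau_eq_one hF).2 hu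
  have hrad : ∀ r, (∀ y, tau (B r y) = 0) → ∀ i, φ i r = 0 ∧ ψ i r = 0 := by
    intro r hr
    apply rad_sum hli
    intro y
    by_contra hne
    have := hscale (a := r) (b := y) hne
    rw [hr] at this
    exact absurd this (by decide)
  refine ⟨fun a b => tau (B a b), hpol, fun c a b => by
    change tau (B (c • a) b) = tau (B a (c • b))
    rw [hBl, hBr], ?_, ?_⟩
  · intro r
    constructor
    · intro hr y
      change tau (B r y) = 0
      have h1 : ∀ x, ind γ (x + r) = ind γ x := ind_period_iff.2 hr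
      have h3 := hpol 0 r y
      have e : (0 : V) + r + y = (0 + y) + r := by abel
      rw [e, h1, h1] at h3
      rw [← h3]
      linear_combination (ind γ (0 + y) + ind γ 0) * (by rfl : (2 : ZMod 2) = 0)
    · intro hr
      have h1 := hrad r hr
      apply ind_period_iff.1
      intro x
      rw [hind, hind]
      congr 1
      simp only [hq]
      apply Finset.sum_congr rfl
      intro i _
      rw [map_add, map_add, map_add, map_add, map_add, map_add, (h1 i).1, (h1 i).2, add_zero,
        add_zero]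
  · by_contra hcon
    push Not at hcon
    have h1 : ∀ x : V, φ ⟨0, hm⟩ x = 0 := fun x => (hrad x (hcon x) ⟨0, hm⟩).1
    have h3 : (Sum.elim φ ψ) (Sum.inl ⟨0, hm⟩) = 0 := by
      ext x
      exact h1 x
    exact hli.ne_zero (Sum.inl ⟨0, hm⟩) h3

end Pool.Agent.SIT.Gen
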