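import Pool.Agent.SIT.QuadForm4c

/-!
# The full group `AΓL(V)`, `|F| > 2`, `dim V ≥ 2`: all strongly incidence-transitive codes
-/

namespace Pool.Agent.SIT.Gen

open Finset

section

variable {F : Type*} [Field F] {V : Type*} [AddCommGroup V] [Module F V]

/-- The group `AΓL(V)` of all affine maps whose linear part is semilinear. -/
def AGammaL (F : Type*) [Field F] (V : Type*) [AddCommGroup V] [Module F V] :
    Subgroup (Equiv.Perm V) where
  carrier := {h | ∃ σ : F ≃+* F, Acts F σ h}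
  mul_mem' := by
    rintro a b ⟨σ, g, t, h1, h2⟩ ⟨σ', g', t', h1', h2'⟩
    refine ⟨σ'.trans σ, g'.trans g, g t' + t, ?_, ?_⟩
    · intro c x
      change g (g' (c • x)) = σ (σ' c) • g (g' x)
      rw [h1', h1]
    · intro x
      change a (b x) = g (g' x) + (g t' + t)
      rw [h2', h2, map_add, add_assoc]
  one_mem' := ⟨RingEquiv.refl F, AddEquiv.refl V, 0, fun _ _ => rfl, fun x => (add_zero x).symm⟩
  inv_mem' := by
    rintro a ⟨σ, g, t, h1, h2⟩
    refine ⟨σ.symm, g.symm, -g.symm t, ?_, ?_⟩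
    · intro c x
      rw [AddEquiv.symm_apply_eq, h1, σ.apply_symm_apply, g.apply_symm_apply]
    · intro x
      change a.symm x = _
      rw [Equiv.symm_apply_eq, h2, map_add, map_neg, g.apply_symm_apply, g.apply_symm_apply,
        neg_add_cancel_right]

lemma mem_AGammaL {h : Equiv.Perm V} : h ∈ AGammaL F V ↔ ∃ σ : F ≃+* F, Acts F σ h := Iff.rfl

lemma linG_AGammaL : LinG F (AGammaL F V) where
  semi := fun _ h => h
  trans := fun t => ⟨RingEquiv.refl F, AddEquiv.refl V, t, fun _ _ => rfl, fun _ => rfl⟩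
  tv := by
    intro φ v h g hg
    refine ⟨RingEquiv.refl F, LinS.tE φ v h, 0, ?_, ?_⟩
    · intro c x
      rw [LinS.tE_apply, LinS.tE_apply, map_smul, smul_add, smul_assoc]
      rfl
    · intro x
      rw [hg, add_zero, LinS.tE_apply]

lemma pg_AGammaL {g : V ≃+ V} {σ : F ≃+* F} (h : ∀ (c : F) (x : V), g (c • x) = σ c • g x)
    (t : V) : PG (AGammaL F V) g t σ :=
  ⟨h, toP g t, ⟨σ, g, t, h, fun _ => rfl⟩, fun _ => rfl⟩

/-- A semilinear bijection that acts by `σ` on the values of independent linear forms. -/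
lemma exists_semi [FiniteDimensional F V] (σ : F ≃+* F) {ι : Type*} {l : ι → Module.Dual F V}
    (hl : LinearIndependent F l) :
    ∃ g : V ≃+ V, (∀ (c : F) (x : V), g (c • x) = σ c • g x) ∧ ∀ i x, l i (g x) = σ (l i x) := by
  classical
  let b := Module.Basis.extend hl.linearIndepOn_id
  have hfin : Fintype (hl.linearIndepOn_id.extend (Set.subset_univ (Set.range l))) :=
    FiniteDimensional.fintypeBasisIndex b
  have hmem : ∀ i, l i ∈ hl.linearIndepOn_id.extend (Set.subset_univ (Set.range l)) :=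
    fun i => hl.linearIndepOn_id.subset_extend _ (Set.mem_range_self i)
  have hb : ∀ i, b ⟨l i, hmem i⟩ = l i := fun i => Module.Basis.extend_apply_self _ _
  let T : V →ₗ[F] (hl.linearIndepOn_id.extend (Set.subset_univ (Set.range l)) → F) :=
    LinearMap.pi (fun j => b j)
  have hT : ∀ x j, T x j = b j x := fun x j => rfl
  have hinj : Function.Injective T := by
    rw [← LinearMap.ker_eq_bot, LinearMap.ker_eq_bot']
    intro x hx
    rw [← Module.forall_dual_apply_eq_zero_iff F x]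
    intro φ
    rw [← b.sum_repr φ, LinearMap.sum_apply]
    apply Finset.sum_eq_zero
    intro j _
    rw [LinearMap.smul_apply, ← hT, hx]
    simp
  have hcard : Module.finrank F V = Module.finrank F
      (hl.linearIndepOn_id.extend (Set.subset_univ (Set.range l)) → F) := by
    rw [Module.finrank_fintype_fun_eq_card, ← Module.finrank_eq_card_basis b,
      Subspace.dual_finrank_eq]
  let E := LinearEquiv.ofInjectiveOfFinrankEq T hinj hcard
  have hE : ∀ x, E x = T x := fun x => rfl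
  let g : V ≃+ V := (E.toAddEquiv.trans (AddEquiv.piCongrRight (fun _ => σ.toAddEquiv))).trans
    E.symm.toAddEquiv
  have hg : ∀ x, E (g x) = fun j => σ (E x j) := by
    intro x
    change E (E.symm _) = _
    rw [E.apply_symm_apply]
    rfl
  refine ⟨g, ?_, ?_⟩
  · intro c x
    apply E.injective
    rw [hg, map_smul, map_smul, hg]
    funext j
    simp
  · intro i x
    have h1 := congrFun (hg x) ⟨l i, hmem i⟩
    rw [hE, hE, hT, hT, hb] at h1
    exact h1

end

section

variable {F : Type*} [Field F] [Fintype F] [CharP F 2] {V : Type*} [AddCommGroup V] [Module F V]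
  [Fintype V] [DecidableEq V] {γ : Finset V} {G : Subgroup (Equiv.Perm V)}

/-- The quadrics in explicit form. -/
theorem quad_iff_four (hF : Fintype.card F = 4) (hk : 2 * γ.card ≤ Fintype.card V) :
    (∃ β, Quad F G γ β) ↔ (∃ m, 1 ≤ m ∧ HermQuad F m γ) ∧
      ∃ (g : V ≃+ V) (t : V) (σ : F ≃+* F), PGs G γ g t σ ∧ σ ≠ RingEquiv.refl F := by
  constructor
  · rintro ⟨β, h⟩
    refine ⟨explicit_of_quad hF hk h.polar h.comp
      (fun r hr => ind_period_iff.2 ((h.period r).2 hr)) h.ne, ?_⟩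
    rcases h.small with h1 | ⟨-, h1⟩
    · omega
    · exact h1
  · rintro ⟨⟨m, hm, h⟩, h1⟩
    obtain ⟨β, h2, h3, h4, h5⟩ := quad_of_explicit hF hm h
    exact ⟨β, h2, h3, h4, h5, Or.inr ⟨hF, h1⟩⟩

/-- The field of order 4 has a nontrivial automorphism. -/
lemma exists_aut (hF : Fintype.card F = 4) : ∃ σ : F ≃+* F, σ ≠ RingEquiv.refl F := by
  obtain ⟨u, hu⟩ := exists_tr hF
  refine ⟨frobeniusEquiv F 2, fun h => ?_⟩
  have h1 : (frobeniusEquiv F 2) u = u := by
    rw [h]
    rfl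
  rw [frobeniusEquiv_apply, frobenius_def] at h1
  rw [h1, CharTwo.add_self_eq_zero] at hu
  exact zero_ne_one hu

/-- `AΓL(V)` contains a nonlinear map that fixes the quadric. -/
lemma exists_fix_quad (hF : Fintype.card F = 4) {m : ℕ} (h : HermQuad F m γ) :
    ∃ (g : V ≃+ V) (t : V) (σ : F ≃+* F), PGs (AGammaL F V) γ g t σ ∧ σ ≠ RingEquiv.refl F := by
  obtain ⟨φ, ψ, v, hli, hγ⟩ := h
  obtain ⟨σ, hσ⟩ := exists_aut hF
  obtain ⟨g, hg, hg'⟩ := exists_semi σ hli
  have h2 : ∀ x : V, x + x = 0 := add_self_of_char F V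
  refine ⟨g, g v + v, σ, ⟨hg, toP g (g v + v), ⟨σ, g, g v + v, hg, fun _ => rfl⟩,
    fun _ => rfl, ?_⟩, hσ⟩
  intro x
  rw [toP_apply, hγ, hγ]
  have e : g x + (g v + v) + v = g (x + v) := by
    rw [map_add]
    calc g x + (g v + v) + v = g x + g v + (v + v) := by abel
      _ = _ := by rw [h2, add_zero]
  have e2 : ∑ i, φ i (g (x + v)) * ψ i (g (x + v)) = σ (∑ i, φ i (x + v) * ψ i (x + v)) := by
    rw [map_sum]
    apply Finset.sum_congr rfl
    intro i _
    have h3 : φ i (g (x + v)) = σ (φ i (x + v)) := hg' (Sum.inl i) (x + v)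
    have h4 : ψ i (g (x + v)) = σ (ψ i (x + v)) := hg' (Sum.inr i) (x + v)
    rw [map_mul, h3, h4]
  rw [e, e2, ← map_pow, ← map_add]
  constructor
  · intro h3
    apply σ.injective
    rw [h3, map_one]
  · intro h3
    rw [h3, map_one]

/-- **The full affine semilinear group**, `|F| > 2`, `dim V ≥ 2`. -/
theorem agammaL_class (hF : Fintype.card F ≠ 2) (hdim : 2 ≤ Module.finrank F V) {k : ℕ}
    (hk : 3 ≤ k) (hk' : 2 * k ≤ Fintype.card V) (C : Set (Finset V)) :
    (IsSITCode (AGammaL F V) k C ∧ C.Nonempty) ↔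
      ∃ γ : Finset V, γ.card = k ∧ C = Orb (AGammaL F V) γ ∧
        ((∃ W : Submodule F V, Translate (W : Set V) γ) ∨
        (Fintype.card F = 4 ∧ ∃ W : AddSubgroup V, W.index = 2 ∧ Translate (W : Set V) γ) ∨
        (Fintype.card F = 16 ∧ ∃ W : AddSubgroup V, W.index = 4 ∧
          (∀ c : F, c ^ 4 = c → ∀ w ∈ W, c • w ∈ W) ∧ Translate (W : Set V) γ) ∨
        (Fintype.card F = 4 ∧ ∃ m, 1 ≤ m ∧ HermQuad F m γ)) := by
  rw [lin_all linG_AGammaL hdim hk hk']
  apply exists_congr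
  intro γ
  apply and_congr_right
  intro hcard
  apply and_congr_right
  intro _
  apply or_congr_right
  have hsemi : ∀ σ : F ≃+* F, ∃ g : V ≃+ V, ∀ (c : F) (x : V), g (c • x) = σ c • g x := by
    intro σ
    obtain ⟨g, hg, -⟩ := exists_semi (V := V) σ (l := (Fin.elim0 : Fin 0 → Module.Dual F V))
      linearIndependent_empty_type
    exact ⟨g, hg⟩
  constructor
  · rintro ((⟨h1, -, h2⟩ | ⟨h1, -, h2⟩) | ⟨β, h⟩)
    · exact Or.inl ⟨h1, h2⟩
    · exact Or.inr (Or.inl ⟨h1, h2⟩)
    · have h4 : Fintype.card F = 4 := by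
        rcases h.small with h1 | ⟨h1, -⟩
        · exact absurd h1 hF
        · exact h1
      exact Or.inr (Or.inr ⟨h4, ((quad_iff_four h4 (by omega)).1 ⟨β, h⟩).1⟩)
  · rintro (⟨h1, h2⟩ | ⟨h1, h2⟩ | ⟨h1, m, hm, h2⟩)
    · left
      left
      obtain ⟨σ, hσ⟩ := exists_aut h1
      obtain ⟨g, hg⟩ := hsemi σ
      exact ⟨h1, ⟨g, 0, σ, pg_AGammaL hg 0, hσ⟩, h2⟩
    · left
      right
      refine ⟨h1, fun σ => ?_, h2⟩
      obtain ⟨g, hg⟩ := hsemi σ
      exact ⟨g, 0, pg_AGammaL hg 0⟩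
    · right
      exact (quad_iff_four h1 (by omega)).2 ⟨⟨m, hm, h2⟩, exists_fix_quad h1 h2⟩

end

end Pool.Agent.SIT.Gen
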