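import Pool.Agent.SIT.Converse

/-!
# Symplectic forms over `F_2` and affine permutations preserving them
-/

namespace Pool.Agent.SIT

open Finset

section

variable {V : Type*} [AddCommGroup V] [Module (ZMod 2) V]

/-- `B` is alternating and nondegenerate. -/
structure Symp (B : LinearMap.BilinForm (ZMod 2) V) : Prop where
  alt : ∀ x, B x x = 0
  nd : ∀ x, (∀ y, B x y = 0) → x = 0

/-- The linear part of the affine permutation `g` preserves `B`. -/
def PB (B : LinearMap.BilinForm (ZMod 2) V) (g : V ≃ᵃ[ZMod 2] V) : Prop :=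
  ∀ x y, B (g.linear x) (g.linear y) = B x y

/-- The linear permutation `g` preserves `B`. -/
def PL (B : LinearMap.BilinForm (ZMod 2) V) (g : V ≃ₗ[ZMod 2] V) : Prop :=
  ∀ x y, B (g x) (g y) = B x y

/-- `W` contains its orthogonal. -/
def Coiso (B : LinearMap.BilinForm (ZMod 2) V) (W : Submodule (ZMod 2) V) : Prop :=
  ∀ a, (∀ w ∈ W, B a w = 0) → a ∈ W

variable {B : LinearMap.BilinForm (ZMod 2) V}

lemma Symp.symm (hB : Symp B) (x y : V) : B x y = B y x := by
  have h := hB.alt (x + y)
  simp only [map_add, LinearMap.add_apply, hB.alt, zero_add, add_zero] at h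
  revert h
  generalize B x y = p
  generalize B y x = q
  revert p q
  decide

/-! ### affine and linear maps -/

lemma PL.affine {g : V ≃ₗ[ZMod 2] V} (hg : PL B g) : PB B g.toAffineEquiv := hg

lemma PL.trans {g h : V ≃ₗ[ZMod 2] V} (hg : PL B g) (hh : PL B h) : PL B (g.trans h) := by
  intro x y
  rw [LinearEquiv.trans_apply, LinearEquiv.trans_apply, hh, hg]

lemma PL.symm {g : V ≃ₗ[ZMod 2] V} (hg : PL B g) : PL B g.symm := by
  intro x y
  rw [← hg, g.apply_symm_apply, g.apply_symm_apply]

lemma PB.trans {g h : V ≃ᵃ[ZMod 2] V} (hg : PB B g) (hh : PB B h) : PB B (g.trans h) := by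
  intro x y
  change B (h.linear (g.linear x)) (h.linear (g.linear y)) = B x y
  rw [hh, hg]

lemma PB.symm {g : V ≃ᵃ[ZMod 2] V} (hg : PB B g) : PB B g.symm := by
  intro x y
  change B (g.linear.symm x) (g.linear.symm y) = B x y
  rw [← hg, g.linear.apply_symm_apply, g.linear.apply_symm_apply]

/-- translations -/
lemma PB_trans (B : LinearMap.BilinForm (ZMod 2) V) (t : V) :
    PB B (AffineEquiv.constVAdd (ZMod 2) V t) := fun _ _ => rfl

lemma agl_linear (g : V ≃ᵃ[ZMod 2] V) (x : V) : g x = g.linear x + g 0 := by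
  have := g.map_vadd 0 x
  simpa using this

lemma agl_linear' (g : V ≃ᵃ[ZMod 2] V) (x : V) : g.linear x = g x + g 0 := by
  rw [agl_linear g x, add_add_self]

lemma tv_linear (φ : Module.Dual (ZMod 2) V) (c : ZMod 2) (d : V) (h : φ d = 0) (x : V) :
    (tv φ c d h).linear x = x + φ x • d := rfl

lemma PL_transv (hB : Symp B) (a : V) (h : B a a = 0) : PL B (tvLin (B a) a h) := by
  intro x y
  change B (x + B a x • a) (y + B a y • a) = B x y
  simp only [map_add, LinearMap.add_apply, map_smul, LinearMap.smul_apply, smul_eq_mul]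
  rw [h, hB.symm x a]
  generalize B x y = p
  generalize B a x = q
  generalize B a y = s
  revert p q s
  decide

/-- `x ↦ x + (B a x + c) a` -/
def tauA (hB : Symp B) (a : V) (c : ZMod 2) : V ≃ᵃ[ZMod 2] V := tv (B a) c a (hB.alt a)

lemma tauA_apply (hB : Symp B) (a : V) (c : ZMod 2) (x : V) :
    tauA hB a c x = x + (B a x + c) • a := tv_apply _ _ _ _ _

lemma PB_tauA (hB : Symp B) (a : V) (c : ZMod 2) : PB B (tauA hB a c) :=
  PL_transv hB a (hB.alt a)

/-- `x ↦ x + B a x a` -/
def tauL (hB : Symp B) (a : V) : V ≃ₗ[ZMod 2] V := tvLin (B a) a (hB.alt a)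

lemma tauL_apply (hB : Symp B) (a x : V) : tauL hB a x = x + B a x • a := rfl

lemma PL_tauL (hB : Symp B) (a : V) : PL B (tauL hB a) := PL_transv hB a (hB.alt a)

/-- `x ↦ x + B u x v + B v x u`, where `B u v = 0` -/
def eL (hB : Symp B) (u v : V) (h : B u v = 0) : V ≃ₗ[ZMod 2] V :=
  LinearEquiv.ofInvolutive (LinearMap.id + (B u).smulRight v + (B v).smulRight u) (by
    intro x
    change x + B u x • v + B v x • u + B u (x + B u x • v + B v x • u) • v +
      B v (x + B u x • v + B v x • u) • u = x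
    have h1 : B u (x + B u x • v + B v x • u) = B u x := by
      rw [map_add, map_add, map_smul, map_smul, h, hB.alt, smul_zero, smul_zero, add_zero,
        add_zero]
    have h2 : B v (x + B u x • v + B v x • u) = B v x := by
      rw [map_add, map_add, map_smul, map_smul, hB.alt, hB.symm v u, h, smul_zero, smul_zero,
        add_zero, add_zero]
    rw [h1, h2]
    calc x + B u x • v + B v x • u + B u x • v + B v x • u
        = x + (B u x • v + B u x • v) + (B v x • u + B v x • u) := by abel
      _ = x := by rw [add_self', add_self', add_zero, add_zero])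

lemma eL_apply (hB : Symp B) (u v : V) (h : B u v = 0) (x : V) :
    eL hB u v h x = x + B u x • v + B v x • u := rfl

lemma eL_eL (hB : Symp B) (u v : V) (h : B u v = 0) (x : V) :
    eL hB u v h (eL hB u v h x) = x := by
  have h1 : (eL hB u v h).symm = eL hB u v h := rfl
  conv_lhs => rw [← h1]
  exact (eL hB u v h).symm_apply_apply x

lemma PL_eL (hB : Symp B) (u v : V) (h : B u v = 0) : PL B (eL hB u v h) := by
  intro x y
  rw [eL_apply, eL_apply]
  simp only [map_add, LinearMap.add_apply, map_smul, LinearMap.smul_apply, smul_eq_mul]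
  rw [h, hB.symm v u, h, hB.alt u, hB.alt v, hB.symm x v, hB.symm x u]
  generalize B x y = p
  generalize B u x = q
  generalize B u y = s
  generalize B v x = q'
  generalize B v y = s'
  revert p q s q' s'
  decide

/-! ### separation -/

/-- a vector of `W` at which two functionals `B u`, `B v`, not zero on `W`, are `1` -/
lemma sep_on (W : Submodule (ZMod 2) V) {u v : V} (hu : ∃ w ∈ W, B u w ≠ 0)
    (hv : ∃ w ∈ W, B v w ≠ 0) : ∃ w ∈ W, B u w = 1 ∧ B v w = 1 := by
  obtain ⟨w₁, hw₁, h1⟩ := hu
  obtain ⟨w₂, hw₂, h2⟩ := hv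
  have h1' := (zmod2_cases (B u w₁)).resolve_left h1
  have h2' := (zmod2_cases (B v w₂)).resolve_left h2
  rcases zmod2_cases (B v w₁) with h3 | h3
  · rcases zmod2_cases (B u w₂) with h4 | h4
    · exact ⟨w₁ + w₂, W.add_mem hw₁ hw₂, by rw [map_add, h1', h4, add_zero],
        by rw [map_add, h3, h2', zero_add]⟩
    · exact ⟨w₂, hw₂, h4, h2'⟩
  · exact ⟨w₁, hw₁, h1', h3⟩

/-- every functional is of the form `B z` -/
lemma exists_repr [FiniteDimensional (ZMod 2) V] (hB : Symp B) (φ : Module.Dual (ZMod 2) V) :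
    ∃ z, ∀ x, B z x = φ x := by
  have h1 : Function.Injective (B : V →ₗ[ZMod 2] Module.Dual (ZMod 2) V) := by
    rw [← LinearMap.ker_eq_bot, LinearMap.ker_eq_bot']
    intro x hx
    exact hB.nd x fun y => by rw [hx]; rfl
  have h2 : Function.Surjective (B : V →ₗ[ZMod 2] Module.Dual (ZMod 2) V) :=
    (LinearMap.injective_iff_surjective_of_finrank_eq_finrank
      (Subspace.dual_finrank_eq (K := ZMod 2) (V := V)).symm).1 h1
  obtain ⟨z, hz⟩ := h2 φ
  exact ⟨z, fun x => by rw [hz]⟩

end

end Pool.Agent.SIT
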