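import Pool.Agent.SIT.SpDefs

/-!
# Flats under the affine symplectic group
-/

namespace Pool.Agent.SIT

open Finset

section

variable {V : Type*} [AddCommGroup V] [Module (ZMod 2) V] [FiniteDimensional (ZMod 2) V]
  {B : LinearMap.BilinForm (ZMod 2) V}

omit [FiniteDimensional (ZMod 2) V] in
lemma Coiso.exists_ne {W : Submodule (ZMod 2) V} (hW : Coiso B W) {v : V} (hv : v ∉ W) :
    ∃ w ∈ W, B v w ≠ 0 := by
  by_contra hcon
  push Not at hcon
  exact hv (hW v hcon)

omit [FiniteDimensional (ZMod 2) V] in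
lemma tauL_move (hB : Symp B) {v v' : V} (h : B v v' = 1) : tauL hB (v + v') v = v' := by
  rw [tauL_apply, map_add, LinearMap.add_apply, hB.alt, hB.symm v' v, h, zero_add, one_smul,
    self_add_add]

omit [FiniteDimensional (ZMod 2) V] in
/-- inside a coset of a coisotropic subspace -/
theorem sp_coset (hB : Symp B) {W : Submodule (ZMod 2) V} (hW : Coiso B W) {v v' : V}
    (hv : v ∉ W) (hv' : v' ∉ W) (hvv : v + v' ∈ W) :
    ∃ g : V ≃ₗ[ZMod 2] V, PL B g ∧ (∀ x, g x + x ∈ W) ∧ g v = v' := by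
  have hin : ∀ a ∈ W, ∀ x, tauL hB a x + x ∈ W := by
    intro a ha x
    rw [tauL_apply]
    have h1 : x + B a x • a + x = B a x • a := by
      calc x + B a x • a + x = B a x • a + (x + x) := by abel
        _ = _ := by rw [add_self', add_zero]
    rw [h1]
    exact W.smul_mem _ ha
  rcases zmod2_cases (B v v') with h | h
  · obtain ⟨w, hw, h1, h2⟩ := sep_on W (hW.exists_ne hv) (hW.exists_ne hv')
    have h3 : tauL hB w v = v + w := by
      rw [tauL_apply, hB.symm w v, h1, one_smul]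
    have h4 : B (v + w) v' = 1 := by
      rw [map_add, LinearMap.add_apply, h, hB.symm w v', h2, zero_add]
    have h5 : v + w + v' ∈ W := by
      have : v + w + v' = v + v' + w := by abel
      rw [this]
      exact W.add_mem hvv hw
    refine ⟨(tauL hB w).trans (tauL hB (v + w + v')), (PL_tauL hB w).trans (PL_tauL hB _),
      fun x => ?_, ?_⟩
    · rw [LinearEquiv.trans_apply]
      have h6 := W.add_mem (hin _ h5 (tauL hB w x)) (hin _ hw x)
      have h7 : tauL hB (v + w + v') (tauL hB w x) + tauL hB w x + (tauL hB w x + x) =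
          tauL hB (v + w + v') (tauL hB w x) + x := by
        calc _ = tauL hB (v + w + v') (tauL hB w x) + x + (tauL hB w x + tauL hB w x) := by abel
          _ = _ := by rw [add_self', add_zero]
      rwa [h7] at h6
    · rw [LinearEquiv.trans_apply, h3, tauL_move hB h4]
  · exact ⟨tauL hB (v + v'), PL_tauL hB _, hin _ hvv, tauL_move hB h⟩

/-- a vector `z` with `B z = 0` on `T` and `B z x = B z y = 1` -/
theorem exists_z (hB : Symp B) {T : Submodule (ZMod 2) V} {x y : V} (hx : x ∉ T) (hy : y ∉ T) :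
    ∃ z, (∀ t ∈ T, B z t = 0) ∧ B z x = 1 ∧ B z y = 1 := by
  have hnot : x ∉ T ⊔ Submodule.span (ZMod 2) {x + y} := by
    intro h
    rw [Submodule.mem_sup] at h
    obtain ⟨t, ht, s, hs, hts⟩ := h
    rw [Submodule.mem_span_singleton] at hs
    obtain ⟨c, rfl⟩ := hs
    rcases zmod2_cases c with rfl | rfl
    · rw [zero_smul, add_zero] at hts
      exact hx (hts ▸ ht)
    · rw [one_smul] at hts
      apply hy
      have h3 : y = t := by
        have h4 : t + (x + y) + x = 0 := by rw [hts, add_self']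
        calc y = y + (t + (x + y) + x) := by rw [h4, add_zero]
          _ = t + (x + x) + (y + y) := by abel
          _ = t := by rw [add_self', add_self', add_zero, add_zero]
      rw [h3]
      exact ht
  obtain ⟨φ, h1, h2⟩ := exists_dual_of_notMem _ _ hnot
  obtain ⟨z, hz⟩ := exists_repr hB φ
  refine ⟨z, fun t ht => ?_, ?_, ?_⟩
  · rw [hz]
    exact h2 t (Submodule.mem_sup_left ht)
  · rw [hz, h1]
  · have h3 : φ (x + y) = 0 :=
      h2 _ (Submodule.mem_sup_right (Submodule.mem_span_singleton_self _))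
    rw [hz]
    rw [map_add, h1] at h3
    rcases zmod2_cases (φ y) with h | h
    · rw [h] at h3
      exact absurd h3 (by decide)
    · exact h

/-- the stabiliser of a coisotropic subspace is transitive on the vectors outside -/
theorem sp_outside (hB : Symp B) {W : Submodule (ZMod 2) V} (hW : Coiso B W) {x y : V}
    (hx : x ∉ W) (hy : y ∉ W) :
    ∃ g : V ≃ₗ[ZMod 2] V, PL B g ∧ (∀ z, g z ∈ W ↔ z ∈ W) ∧ g x = y := by
  have hiff : ∀ g : V ≃ₗ[ZMod 2] V, (∀ x, g x + x ∈ W) → ∀ z, g z ∈ W ↔ z ∈ W := by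
    intro g hg z
    constructor
    · intro h
      have := W.add_mem h (hg z)
      rwa [self_add_add] at this
    · intro h
      have := W.add_mem (hg z) h
      rwa [add_add_self] at this
  obtain ⟨z, hz, hzx, hzy⟩ := exists_z hB hx hy
  have hzW : z ∈ W := hW z hz
  have hzxy : B z (x + y) = 0 := by
    rw [map_add, hzx, hzy]
    decide
  have hEW : ∀ w ∈ W, eL hB z (x + y) hzxy w ∈ W := by
    intro w hw
    rw [eL_apply, hz w hw, zero_smul, add_zero]
    exact W.add_mem hw (W.smul_mem _ hzW)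
  have hEiff : ∀ w, eL hB z (x + y) hzxy w ∈ W ↔ w ∈ W := by
    intro w
    refine ⟨fun h => ?_, hEW w⟩
    have := hEW _ h
    rwa [eL_eL] at this
  have hEx : eL hB z (x + y) hzxy x + y ∈ W := by
    rw [eL_apply, hzx, one_smul]
    have h1 : x + (x + y) + B (x + y) x • z + y = B (x + y) x • z := by
      rw [self_add_add]
      calc y + B (x + y) x • z + y = B (x + y) x • z + (y + y) := by abel
        _ = _ := by rw [add_self', add_zero]
    rw [h1]
    exact W.smul_mem _ hzW
  have hEx' : eL hB z (x + y) hzxy x ∉ W := fun h => hx ((hEiff x).1 h)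
  obtain ⟨g, hg, hg', hgx⟩ := sp_coset hB hW hEx' hy hEx
  refine ⟨(eL hB z (x + y) hzxy).trans g, (PL_eL hB _ _ _).trans hg, fun w => ?_, ?_⟩
  · rw [LinearEquiv.trans_apply, hiff g hg', hEiff]
  · rw [LinearEquiv.trans_apply, hgx]

theorem sp_flat_transitive (hB : Symp B) {W : Submodule (ZMod 2) V} (hW : Coiso B W) (v₀ : V)
    {u w u' w' : V} (hu : u + v₀ ∈ W) (hw : w + v₀ ∈ W) (hu' : u' + v₀ ∉ W)
    (hw' : w' + v₀ ∉ W) :
    ∃ g : V ≃ᵃ[ZMod 2] V, PB B g ∧ (∀ x, g x + v₀ ∈ W ↔ x + v₀ ∈ W) ∧ g u = w ∧ g u' = w' := by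
  -- everything relative to `u` and `w`
  have hvu : ∀ x, x + v₀ ∈ W ↔ x + u ∈ W := by
    intro x
    have h1 : x + v₀ = x + u + (u + v₀) := by
      calc x + v₀ = x + v₀ + (u + u) := by rw [add_self', add_zero]
        _ = _ := by abel
    rw [h1]
    exact W.add_mem_iff_left hu
  have hvw : ∀ x, x + v₀ ∈ W ↔ x + w ∈ W := by
    intro x
    have h1 : x + v₀ = x + w + (w + v₀) := by
      calc x + v₀ = x + v₀ + (w + w) := by rw [add_self', add_zero]
        _ = _ := by abel
    rw [h1]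
    exact W.add_mem_iff_left hw
  have h1 : u' + u ∉ W := fun h => hu' ((hvu u').2 h)
  have h2 : w' + w ∉ W := fun h => hw' ((hvw w').2 h)
  obtain ⟨g, hg, hgW, hgx⟩ := sp_outside hB hW h1 h2
  let G : V ≃ᵃ[ZMod 2] V := ((AffineEquiv.constVAdd (ZMod 2) V u).trans g.toAffineEquiv).trans
    (AffineEquiv.constVAdd (ZMod 2) V w)
  have hG : ∀ x, G x = w + g (u + x) := fun x => rfl
  refine ⟨G, ((PB_trans B u).trans hg.affine).trans (PB_trans B w), fun x => ?_, ?_, ?_⟩
  · rw [hvw, hvu x, hG]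
    have h3 : w + g (u + x) + w = g (u + x) := by
      calc w + g (u + x) + w = g (u + x) + (w + w) := by abel
        _ = _ := by rw [add_self', add_zero]
    rw [h3, hgW, add_comm]
  · rw [hG, add_self', map_zero, add_zero]
  · rw [hG, add_comm u u', hgx, add_comm w' w, self_add_add]

/-- Witt: moving a vector while fixing a subspace -/
theorem sp_move (hB : Symp B) {D : Submodule (ZMod 2) V} {u u' : V} (hu : u ∉ D) (hu' : u' ∉ D)
    (h : ∀ d ∈ D, B u d = 0) (h' : ∀ d ∈ D, B u' d = 0) :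
    ∃ g : V ≃ₗ[ZMod 2] V, PL B g ∧ (∀ d ∈ D, g d = d) ∧ g u = u' := by
  have hfix : ∀ a, (∀ d ∈ D, B a d = 0) → ∀ d ∈ D, tauL hB a d = d := by
    intro a ha d hd
    rw [tauL_apply, ha d hd, zero_smul, add_zero]
  rcases zmod2_cases (B u u') with h0 | h0
  · obtain ⟨z, hz, hzu, hzu'⟩ := exists_z hB hu hu'
    have h1 : tauL hB (u + z) u = z := tauL_move hB (by rw [hB.symm, hzu])
    have h2 : tauL hB (z + u') z = u' := tauL_move hB hzu'
    refine ⟨(tauL hB (u + z)).trans (tauL hB (z + u')), (PL_tauL hB _).trans (PL_tauL hB _),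
      fun d hd => ?_, ?_⟩
    · rw [LinearEquiv.trans_apply, hfix _ _ d hd, hfix _ _ d hd]
      · intro d hd
        rw [map_add, LinearMap.add_apply, hz d hd, h' d hd, add_zero]
      · intro d hd
        rw [map_add, LinearMap.add_apply, hz d hd, h d hd, add_zero]
    · rw [LinearEquiv.trans_apply, h1, h2]
  · refine ⟨tauL hB (u + u'), PL_tauL hB _, hfix _ fun d hd => ?_, tauL_move hB h0⟩
    rw [map_add, LinearMap.add_apply, h d hd, h' d hd, add_zero]

/-- isotropic subspaces of the same dimension are conjugate -/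
theorem isotropic_orbit (hB : Symp B) {U' : Submodule (ZMod 2) V}
    (hU' : ∀ a ∈ U', ∀ b ∈ U', B a b = 0) : ∀ (k : ℕ) (U : Submodule (ZMod 2) V),
    (∀ a ∈ U, ∀ b ∈ U, B a b = 0) →
    Module.finrank (ZMod 2) U = Module.finrank (ZMod 2) U' →
    Module.finrank (ZMod 2) U ≤ Module.finrank (ZMod 2) (U ⊓ U' : Submodule (ZMod 2) V) + k →
    ∃ g : V ≃ₗ[ZMod 2] V, PL B g ∧ ∀ x, g x ∈ U' ↔ x ∈ U := by
  intro k
  induction k with
  | zero =>
    intro U hU hd hk
    have h1 : U ⊓ U' = U := Submodule.eq_of_le_of_finrank_le inf_le_left (by omega)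
    have h2 : U = U' := Submodule.eq_of_le_of_finrank_eq (inf_eq_left.1 h1) hd
    subst h2
    exact ⟨LinearEquiv.refl _ _, fun x y => rfl, fun x => Iff.rfl⟩
  | succ k ih =>
    intro U hU hd hk
    by_cases hle : U ≤ U'
    · have h2 : U = U' := Submodule.eq_of_le_of_finrank_eq hle hd
      subst h2
      exact ⟨LinearEquiv.refl _ _, fun x y => rfl, fun x => Iff.rfl⟩
    have hle' : ¬ U' ≤ U := by
      intro h
      have h2 : U' = U := Submodule.eq_of_le_of_finrank_eq h hd.symm
      exact hle h2.symm.le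
    obtain ⟨u, hu, huU'⟩ := SetLike.not_le_iff_exists.1 hle
    obtain ⟨u', hu', hu'U⟩ := SetLike.not_le_iff_exists.1 hle'
    obtain ⟨g, hg, hgD, hgu⟩ := sp_move hB (D := U ⊓ U') (u := u) (u' := u')
      (fun h => huU' h.2) (fun h => hu'U h.1) (fun d hd => hU u hu d hd.1)
      (fun d hd => hU' u' hu' d hd.2)
    have hmem : ∀ x, g x ∈ U.map (g : V →ₗ[ZMod 2] V) ↔ x ∈ U := by
      intro x
      constructor
      · rintro ⟨y, hy, hyx⟩
        rw [← g.injective hyx]
        exact hy
      · intro h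
        exact ⟨x, h, rfl⟩
    have hfin : Module.finrank (ZMod 2) (U.map (g : V →ₗ[ZMod 2] V)) =
        Module.finrank (ZMod 2) U := LinearEquiv.finrank_map_eq g U
    have hlt : U ⊓ U' < U.map (g : V →ₗ[ZMod 2] V) ⊓ U' := by
      rw [SetLike.lt_iff_le_and_exists]
      refine ⟨fun d hd => ⟨?_, hd.2⟩, u', ⟨?_, hu'⟩, fun h => hu'U h.1⟩
      · exact ⟨d, hd.1, hgD d hd⟩
      · exact ⟨u, hu, hgu⟩
    have hlt' := Submodule.finrank_lt_finrank_of_lt hlt
    obtain ⟨g', hg', hgU⟩ := ih (U.map (g : V →ₗ[ZMod 2] V)) (by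
      rintro _ ⟨a, ha, rfl⟩ _ ⟨b, hb, rfl⟩
      change B (g a) (g b) = 0
      rw [hg]
      exact hU a ha b hb) (hfin.trans hd) (by omega)
    refine ⟨g.trans g', hg.trans hg', fun x => ?_⟩
    rw [LinearEquiv.trans_apply, hgU, hmem]

omit [FiniteDimensional (ZMod 2) V] in
lemma Symp.nondegenerate (hB : Symp B) : B.Nondegenerate := by
  constructor
  · intro x hx
    exact hB.nd x hx
  · intro x hx
    exact hB.nd x fun y => by rw [hB.symm]; exact hx y

omit [FiniteDimensional (ZMod 2) V] in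
lemma Symp.isRefl (hB : Symp B) : B.IsRefl := by
  intro x y h
  rw [hB.symm]
  exact h

/-- coisotropic subspaces of the same dimension are conjugate -/
theorem iso_orbit (hB : Symp B) {W W' : Submodule (ZMod 2) V} (hW : Coiso B W) (hW' : Coiso B W')
    (hd : Module.finrank (ZMod 2) W = Module.finrank (ZMod 2) W') :
    ∃ g : V ≃ₗ[ZMod 2] V, PL B g ∧ ∀ x, g x ∈ W' ↔ x ∈ W := by
  have hmem : ∀ (Z : Submodule (ZMod 2) V) (a : V), a ∈ B.orthogonal Z ↔ ∀ w ∈ Z, B a w = 0 := by
    intro Z a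
    rw [LinearMap.BilinForm.mem_orthogonal_iff]
    exact ⟨fun h w hw => by rw [hB.symm]; exact h w hw, fun h w hw => by
      change B w a = 0
      rw [hB.symm]; exact h w hw⟩
  have hiso : ∀ Z : Submodule (ZMod 2) V, Coiso B Z → ∀ a ∈ B.orthogonal Z,
      ∀ b ∈ B.orthogonal Z, B a b = 0 := by
    intro Z hZ a ha b hb
    exact (hmem Z a).1 ha b (hZ b ((hmem Z b).1 hb))
  have h1 := LinearMap.BilinForm.finrank_orthogonal hB.nondegenerate W
  have h2 := LinearMap.BilinForm.finrank_orthogonal hB.nondegenerate W'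
  obtain ⟨g, hg, hgU⟩ := isotropic_orbit hB (hiso W' hW')
    (Module.finrank (ZMod 2) (B.orthogonal W)) (B.orthogonal W) (hiso W hW) (by
      rw [h1, h2, hd]) (by omega)
  refine ⟨g, hg, fun x => ?_⟩
  have hdd : ∀ (Z : Submodule (ZMod 2) V) (y : V), y ∈ Z ↔ ∀ a ∈ B.orthogonal Z, B a y = 0 := by
    intro Z y
    have h3 := LinearMap.BilinForm.orthogonal_orthogonal hB.nondegenerate hB.isRefl Z
    constructor
    · intro hy a ha
      exact (hmem Z a).1 ha y hy
    · intro h
      rw [← h3, LinearMap.BilinForm.mem_orthogonal_iff]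
      exact h
  rw [hdd W', hdd W]
  constructor
  · intro h a ha
    rw [← hg]
    exact h (g a) ((hgU a).2 ha)
  · intro h a ha
    have h4 : g.symm a ∈ B.orthogonal W := by
      rw [← hgU, g.apply_symm_apply]
      exact ha
    have h5 := h _ h4
    rw [← hg, g.apply_symm_apply] at h5
    exact h5

omit [FiniteDimensional (ZMod 2) V] in
/-- necessity for flats -/
theorem sp_flat_nec (hB : Symp B) {W : Submodule (ZMod 2) V} (hW0 : W ≠ ⊥)
    (htr : ∀ x ∉ W, ∀ y ∉ W, ∃ g : V ≃ₗ[ZMod 2] V, PL B g ∧ (∀ z, g z ∈ W ↔ z ∈ W) ∧ g x = y) :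
    Coiso B W := by
  intro a ha
  by_contra haW
  have h1 : ∀ y ∉ W, ∀ w ∈ W, B y w = 0 := by
    intro y hy w hw
    obtain ⟨g, hg, hgW, hga⟩ := htr a haW y hy
    have h2 : g.symm w ∈ W := by
      rw [← hgW, g.apply_symm_apply]
      exact hw
    have h3 := hg a (g.symm w)
    rw [hga, g.apply_symm_apply, ha _ h2] at h3
    exact h3
  apply hW0
  rw [Submodule.eq_bot_iff]
  intro w hw
  refine hB.nd w fun y => ?_
  rw [hB.symm]
  by_cases hy : y ∈ W
  · have h2 : y + a ∉ W := fun h => haW (by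
      have := W.add_mem hy h
      rwa [self_add_add] at this)
    have h3 := h1 _ h2 w hw
    rw [map_add, LinearMap.add_apply, ha w hw, add_zero] at h3
    exact h3
  · exact h1 y hy w hw

end

end Pool.Agent.SIT
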