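import Pool.Agent.SIT.FinDefs
import Pool.Agent.SIT.SpQAll

/-!
# Groups that contain all translations and `Sp(V, B)'`, over the field of two elements

Such a group has the same codes as the group of all maps `x ↦ g x + t`, `g` an isometry of `B`:
of two maps that differ by a transvection one is in the group, and every triple `(γ, u, u')` is
fixed by a transvection.
-/

namespace Pool.Agent.SIT.Gen.Sp2

open Finset SpQ

section Groups

variable {F : Type*} [Field F] {V : Type*} [AddCommGroup V] [Module F V]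

/-- All maps `x ↦ g x + t`, `g` an isometry of `B`. -/
def ASpG (B : V →ₗ[F] V →ₗ[F] F) : Subgroup (Equiv.Perm V) where
  carrier := {h | ∃ (g : V ≃ₗ[F] V) (t : V), (∀ x y, B (g x) (g y) = B x y) ∧
    ∀ x, h x = g x + t}
  one_mem' := ⟨LinearEquiv.refl F V, 0, fun _ _ => rfl, fun x => (add_zero x).symm⟩
  mul_mem' := by
    rintro a b ⟨g, t, h1, h2⟩ ⟨g', t', h1', h2'⟩
    refine ⟨g'.trans g, g t' + t, fun x y => ?_, fun x => ?_⟩
    · change B (g (g' x)) (g (g' y)) = B x y
      rw [h1, h1']
    · change a (b x) = g (g' x) + (g t' + t)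
      rw [h2, h2', map_add, add_assoc]
  inv_mem' := by
    rintro a ⟨g, t, h1, h2⟩
    refine ⟨g.symm, -g.symm t, fun x y => ?_, fun x => ?_⟩
    · rw [← h1, g.apply_symm_apply, g.apply_symm_apply]
    · change a.symm x = _
      rw [Equiv.symm_apply_eq, h2, map_add, map_neg, g.apply_symm_apply, g.apply_symm_apply,
        neg_add_cancel_right]

/-- Linear maps as permutations. -/
def lp : (V ≃ₗ[F] V) →* Equiv.Perm V where
  toFun g := g.toEquiv
  map_one' := rfl
  map_mul' _ _ := rfl

lemma lp_apply (g : V ≃ₗ[F] V) (x : V) : lp g x = g x := rfl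

variable {B : V →ₗ[F] V →ₗ[F] F}

variable [CharP F 2]

lemma spG_ASpG (hB : SympF B) : SpG F B (ASpG B) where
  alt := hB.alt
  nd := hB.nd
  semi := by
    rintro h ⟨g, t, h1, h2⟩
    exact ⟨g.toAddEquiv, t, RingEquiv.refl F, 1, fun a x => g.map_smul a x, one_ne_zero,
      fun x y => by rw [one_mul]; exact h1 x y, h2⟩
  trans := fun t => ⟨LinearEquiv.refl F V, t, fun _ _ => rfl, fun _ => rfl⟩
  tv := by
    intro c z h hh
    exact ⟨tq hB c z, 0, tq_pres hB c z, fun x => by rw [hh, add_zero, tq_apply]⟩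

lemma tq_tq (hB : SympF B) (c : F) (z x : V) : tq hB c z (tq hB c z x) = x := by
  rw [tq_apply, tq_apply, map_add, LinearMap.add_apply, map_smul, LinearMap.smul_apply, hB.alt,
    smul_zero, add_zero, vabb F]

lemma tq_inv (hB : SympF B) (c : F) (z : V) : (tq hB c z)⁻¹ = tq hB c z := by
  apply inv_eq_of_mul_eq_one_left
  ext x
  exact tq_tq hB c z x

/-- conjugates of transvections -/
lemma tq_conj (hB : SympF B) (c : F) (z : V) {g : V ≃ₗ[F] V} (hg : ∀ x y, B (g x) (g y) = B x y) :
    g * tq hB c z * g⁻¹ = tq hB c (g z) := by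
  ext x
  change g (tq hB c z (g.symm x)) = _
  rw [tq_apply, tq_apply, map_add, map_smul, g.apply_symm_apply, ← hg (g.symm x) z,
    g.apply_symm_apply]

lemma tq_comm (hB : SympF B) (c : F) (z : V) {g : V ≃ₗ[F] V} (hg : ∀ x y, B (g x) (g y) = B x y) :
    g * tq hB c z = tq hB c (g z) * g := by
  rw [← tq_conj hB c z hg, inv_mul_cancel_right]

/-- `τ` is the transvection `x ↦ x + (B(x,b) + c) b`. -/
def IsTau (B : V →ₗ[F] V →ₗ[F] F) (τ : Equiv.Perm V) : Prop :=
  ∃ (b : V) (c : F), b ≠ 0 ∧ ∀ x, τ x = x + (B x b + c) • b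

/-- `G` consists of maps `x ↦ g x + t`, `g` an isometry, and contains, for each of these maps `h`
and each transvection `τ`, one of `h` and `h τ`. -/
structure HalfG (B : V →ₗ[F] V →ₗ[F] F) (G : Subgroup (Equiv.Perm V)) : Prop where
  le : G ≤ ASpG B
  half : ∀ h ∈ ASpG B, ∀ τ, IsTau B τ → h ∈ G ∨ h * τ ∈ G

variable {G : Subgroup (Equiv.Perm V)}

omit [CharP F 2] in
lemma sympF (hG : SpG' F B G) : SympF B := ⟨hG.alt, hG.nd⟩

/-- products of two transvections -/
lemma two_mem [Fintype V] (hG : SpG' F B G) {z z' : V} (hz : z ≠ 0) (hz' : z' ≠ 0) :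
    lp (tq (sympF hG) 1 z * tq (sympF hG) 1 z') ∈ G := by
  have hfd : FiniteDimensional F V := Module.Finite.of_finite
  obtain ⟨g, hg, rfl⟩ := sp_vec (sympF hG) hz hz'
  have hpres := SpT_pres (sympF hG) hg
  have h1 : tq (sympF hG) 1 z * tq (sympF hG) 1 (g z) =
      tq (sympF hG) 1 z * (g * (tq (sympF hG) 1 z)⁻¹ * g⁻¹) := by
    rw [tq_inv, tq_conj _ _ _ hpres]
  rw [h1]
  exact hG.comm (tq (sympF hG) 1 z) g (tq_pres _ _ _) hpres _ (fun x => rfl)

variable [Fintype F]

/-- a group that contains all translations and `Sp(V, B)'` -/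
theorem half_of [Fintype V] (hF : Fintype.card F = 2) (hG : SpG' F B G) : HalfG B G := by
  classical
  have hB := sympF hG
  refine ⟨?_, ?_⟩
  · intro h hh
    obtain ⟨g, t, σ, c, h1, hc, h2, h3⟩ := hG.semi h hh
    have hσ : ∀ a : F, σ a = a := by
      intro a
      rcases zero_or_one hF a with rfl | rfl
      · exact map_zero σ
      · exact map_one σ
    have hc1 : c = 1 := (zero_or_one hF c).resolve_left hc
    have hlin : ∀ (a : F) (x : V), g (a • x) = a • g x := fun a x => by rw [h1, hσ]
    refine ⟨{ g with map_smul' := hlin }, t, fun x y => ?_, h3⟩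
    change B (g x) (g y) = B x y
    rw [h2, hσ, hc1, one_mul]
  · -- the linear parts
    have key : ∀ g ∈ SpT hB, (∀ x y, B (g x) (g y) = B x y) ∧
        (lp g ∈ G ∨ ∀ b, b ≠ 0 → lp (g * tq hB 1 b) ∈ G) := by
      intro g hg
      refine SpT_induct hB (p := fun g => (∀ x y, B (g x) (g y) = B x y) ∧
        (lp g ∈ G ∨ ∀ b, b ≠ 0 → lp (g * tq hB 1 b) ∈ G)) ⟨fun _ _ => rfl, Or.inl ?_⟩ ?_ ?_ hg
      · rw [map_one]
        exact G.one_mem
      · rintro g h ⟨h1, h2⟩ ⟨h3, h4⟩
        refine ⟨fun x y => ?_, ?_⟩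
        · change B (g (h x)) (g (h y)) = B x y
          rw [h1, h3]
        rcases h2 with h2 | h2
        · rcases h4 with h4 | h4
          · left
            rw [map_mul]
            exact G.mul_mem h2 h4
          · right
            intro b hb
            rw [mul_assoc, map_mul]
            exact G.mul_mem h2 (h4 b hb)
        · rcases h4 with h4 | h4
          · right
            intro b hb
            rw [mul_assoc, tq_comm hB 1 b h3, ← mul_assoc, map_mul]
            refine G.mul_mem (h2 _ ?_) h4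
            intro h5
            exact hb ((LinearEquiv.map_eq_zero_iff h).1 h5)
          · left
            by_cases hV : ∃ b : V, b ≠ 0
            · obtain ⟨b, hb⟩ := hV
              have h5 : g * h = (g * tq hB 1 (h b)) * (h * tq hB 1 b) := by
                rw [tq_comm hB 1 b h3, mul_assoc g, ← mul_assoc (tq hB 1 (h b)) (tq hB 1 (h b)) h]
                have h6 : tq hB 1 (h b) * tq hB 1 (h b) = 1 := by
                  ext x
                  exact tq_tq hB 1 (h b) x
                rw [h6, one_mul]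
              rw [h5, map_mul]
              refine G.mul_mem (h2 _ ?_) (h4 b hb)
              intro h6
              exact hb ((LinearEquiv.map_eq_zero_iff h).1 h6)
            · push Not at hV
              have h5 : lp (g * h) = 1 := by
                ext x
                rw [hV (lp (g * h) x), hV ((1 : Equiv.Perm V) x)]
              rw [h5]
              exact G.one_mem
      · intro c z
        refine ⟨tq_pres hB c z, ?_⟩
        rcases zero_or_one hF c with rfl | rfl
        · left
          have h1 : lp (tq hB 0 z) = 1 := by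
            ext x
            rw [lp_apply, tq_apply, zero_mul, zero_smul, add_zero]
            rfl
          rw [h1]
          exact G.one_mem
        · by_cases hz : z = 0
          · left
            have h1 : lp (tq hB 1 z) = 1 := by
              ext x
              rw [lp_apply, tq_apply, hz, smul_zero, add_zero]
              rfl
            rw [h1]
            exact G.one_mem
          · right
            intro b hb
            exact two_mem hG hz hb
    rintro h ⟨g, t, h1, h2⟩ τ ⟨b, c, hb, hτ⟩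
    rcases (key g (isom_mem hB _ g h1 rfl)).2 with h3 | h3
    · left
      have h4 : h = Equiv.addRight t * lp g := by
        ext x
        exact h2 x
      rw [h4]
      exact G.mul_mem (hG.trans t) h3
    · right
      have h4 : h * τ = Equiv.addRight (c • g b + t) * lp (g * tq hB 1 b) := by
        ext x
        change h (τ x) = g (tq hB 1 b x) + (c • g b + t)
        rw [h2, hτ, tq_apply, one_mul, add_smul, ← add_assoc x, map_add, map_smul, add_assoc]
      rw [h4]
      exact G.mul_mem (hG.trans _) (h3 b hb)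

end Groups

section Codes

variable {F : Type*} [Field F] [Fintype F] [CharP F 2] {V : Type*} [AddCommGroup V] [Module F V]
  [Fintype V] [DecidableEq V] {B : V →ₗ[F] V →ₗ[F] F} {G : Subgroup (Equiv.Perm V)} {γ : Finset V}

/-- The members of a code for any group of semilinear similitudes. -/
theorem nec_sp (hB : SympF B) (hG : SemiG F G)
    (hsim : ∀ g t σ, PG (F := F) G g t σ → ∃ c : F, c ≠ 0 ∧ ∀ x y, B (g x) (g y) = c * σ (B x y))
    {k : ℕ} {C : Set (Finset V)} (hC : IsSITCode G k C) (hk : 3 ≤ k)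
    (hk' : 2 * k ≤ Fintype.card V) (hγ : γ ∈ C) :
    (∃ W : Submodule F V, (∀ a, (∀ w ∈ W, B a w = 0) → a ∈ W) ∧ Translate (W : Set V) γ) ∨
      Exc F G γ ∨
      ∃ β, Quad F G γ β ∧ ((∀ a, (∀ r, (∀ y, β r y = 0) → B a r = 0) → ∀ y, β a y = 0) ∨
        ∀ a b, B a b = 0 → β a b = 0) := by
  have h2 : ∀ x : V, x + x = 0 := add_self_of_char F V
  have hcard := hC.card_eq γ hγ
  have hSG : SG (ind γ) (PGs (F := F) G γ) := sg_of_sit h2 hG hC hγ
  have hsim' : ∀ g t σ, PGs (F := F) G γ g t σ →
      ∃ c : F, c ≠ 0 ∧ ∀ x y, B (g x) (g y) = c * σ (B x y) :=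
    fun g t σ ⟨h1, a, ha, h3, _⟩ => hsim g t σ ⟨h1, a, ha, h3⟩
  rcases nec_gen hG hC hk hk' hγ with ⟨W, v, hW⟩ | h | ⟨β, hq⟩
  · left
    refine ⟨W, ?_, v, hW⟩
    rcases hSG.coiso hB hsim' W (periods_coset W hW) with h3 | h3
    · exfalso
      have h4 : γ ⊆ {v} := by
        intro x hx
        have hx' : x + v ∈ W := (hW x).1 hx
        rw [h3, Submodule.mem_bot] at hx'
        rw [mem_singleton]
        have := vabb F x v
        rw [hx', zero_add] at this
        exact this.symm
      have h5 := Finset.card_le_card h4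
      rw [Finset.card_singleton] at h5
      omega
    · exact h3
  · exact Or.inr (Or.inl h)
  · right
    right
    refine ⟨β, hq, ?_⟩
    have hpol := hq.polar
    have hR : ∀ r, (∀ y, β r y = 0) → ∀ x, ind γ (x + r) = ind γ x :=
      fun r hr => ind_period_iff.2 ((hq.period r).2 hr)
    let R : Submodule F V :=
      { carrier := {r | ∀ y, β r y = 0}
        add_mem' := by
          intro a b ha hb y
          rw [S4.beta_add_left hpol, ha, hb, add_zero]
        zero_mem' := fun y => S4.beta_zero_left hpol y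
        smul_mem' := by
          intro c a ha y
          rw [hq.comp, ha] }
    rcases hSG.coiso hB hsim' R (fun r => ⟨fun hr => hR r hr,
        fun hr => (hq.period r).1 (ind_period_iff.1 hr)⟩) with h3 | h3
    · right
      have hnd : ∀ a, (∀ b, β a b = 0) → a = 0 := by
        intro a ha
        have h4 : a ∈ R := ha
        rw [h3, Submodule.mem_bot] at h4
        exact h4
      obtain ⟨p, hp⟩ : γ.Nonempty := by
        rw [← Finset.card_pos]
        omega
      apply hSG.polar_zero hB hsim' hpol hq.comp hnd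
        (quad_lt h2 hpol hR (by omega)) (ind_eq_one.2 hp)
      rcases hq.small with h4 | ⟨h4, -⟩
      · exact Or.inl h4
      · exact Or.inr h4
    · left
      intro a ha
      exact h3 a (fun w hw => ha w hw)

omit [DecidableEq V] in
/-- a nonzero period orthogonal to `d` -/
lemma exists_period (hF2 : Fintype.card F = 2) (hV : 4 < Fintype.card V)
    (R : Submodule F V) (hR : ∀ a, (∀ r ∈ R, B a r = 0) → a ∈ R) (d : V) :
    ∃ b ∈ R, b ≠ 0 ∧ B b d = 0 := by
  have hF := zero_or_one hF2
  by_contra hcon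
  push Not at hcon
  by_cases hex : ∃ b ∈ R, b ≠ 0
  · obtain ⟨b₀, hb₀, hb₀'⟩ := hex
    have huniq : ∀ a ∈ R, a = 0 ∨ a = b₀ := by
      intro a ha
      by_cases ha0 : a = 0
      · exact Or.inl ha0
      right
      have h1 := (hF _).resolve_left (hcon a ha ha0)
      have h2 := (hF _).resolve_left (hcon b₀ hb₀ hb₀')
      have h4 : a + b₀ = 0 := by
        by_contra h5
        apply hcon _ (R.add_mem ha hb₀) h5
        rw [map_add, LinearMap.add_apply, h1, h2, CharTwo.add_self_eq_zero]
      have h6 := vabb F a b₀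
      rw [h4, zero_add] at h6
      exact h6.symm
    have hker : ∀ a, B a b₀ = 0 → a = 0 ∨ a = b₀ := by
      intro a ha
      apply huniq
      apply hR
      intro b hb
      rcases huniq b hb with rfl | rfl
      · exact map_zero _
      · exact ha
    obtain ⟨φ, hφ, -⟩ := exists_fun (W := (⊥ : Submodule F V)) (v := b₀)
      (by rwa [Submodule.mem_bot])
    have hinj : Function.Injective (fun x : V => ((B x b₀, φ x) : F × F)) := by
      intro x y hxy
      simp only [Prod.mk.injEq] at hxy
      have h1 : B (x + y) b₀ = 0 := by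
        rw [map_add, LinearMap.add_apply, hxy.1, CharTwo.add_self_eq_zero]
      have h2 : x + y = 0 := by
        rcases hker _ h1 with h2 | h2
        · exact h2
        · exfalso
          have h3 : φ (x + y) = 1 := by rw [h2, hφ]
          rw [map_add, hxy.2, CharTwo.add_self_eq_zero] at h3
          exact zero_ne_one h3
      have h3 := vabb F x y
      rw [h2, zero_add] at h3
      exact h3.symm
    have h1 := Fintype.card_le_of_injective _ hinj
    rw [Fintype.card_prod, hF2] at h1
    omega
  · push Not at hex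
    have h1 : ∀ a : V, a = 0 := by
      intro a
      apply hex
      apply hR
      intro b hb
      rw [hex b hb]
      exact map_zero _
    have h2 : Fintype.card V ≤ 1 := by
      rw [Fintype.card_le_one_iff]
      intro a b
      rw [h1 a, h1 b]
    omega

/-- Every triple `(γ, u, u')` is fixed by a transvection. -/
theorem exists_tau (hB : SympF B) (hF : Fintype.card F = 2) (hG : G ≤ ASpG B) {k : ℕ}
    {C : Set (Finset V)} (hC : IsSITCode G k C) (hk : 3 ≤ k) (hk' : 2 * k ≤ Fintype.card V)
    (hγ : γ ∈ C) {u u' : V} (hu : u ∈ γ) (hu' : u' ∉ γ) :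
    ∃ τ, IsTau B τ ∧ act τ γ = γ ∧ τ u = u ∧ τ u' = u' := by
  have h01 := zero_or_one hF
  have hA := spG_ASpG hB
  have hsim : ∀ g t σ, PG (F := F) G g t σ →
      ∃ c : F, c ≠ 0 ∧ ∀ x y, B (g x) (g y) = c * σ (B x y) := by
    rintro g t σ ⟨h1, a, ha, h2⟩
    exact hA.sim ⟨h1, a, hG ha, h2⟩
  have hsemi : SemiG F G := fun h hh => hA.semiG h (hG hh)
  -- the transvection `x ↦ x + (B(x,b) + B(u,b)) b`
  have htau : ∀ b : V, b ≠ 0 → B u b = B u' b → (∀ x, B x b + B u b = 1 → (x + b ∈ γ ↔ x ∈ γ)) →
      ∃ τ, IsTau B τ ∧ act τ γ = γ ∧ τ u = u ∧ τ u' = u' := by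
    intro b hb huu hγb
    let τ : Equiv.Perm V := Equiv.addRight (B u b • b) * lp (tq hB 1 b)
    have hτ : ∀ x, τ x = x + (B x b + B u b) • b := by
      intro x
      change tq hB 1 b x + B u b • b = _
      rw [tq_apply, one_mul, add_smul, add_assoc]
    refine ⟨τ, ⟨b, B u b, hb, hτ⟩, ?_, ?_, ?_⟩
    · rw [act_eq_iff]
      intro x
      rw [hτ]
      rcases h01 (B x b + B u b) with h1 | h1
      · rw [h1, zero_smul, add_zero]
      · rw [h1, one_smul]
        exact hγb x h1
    · rw [hτ, CharTwo.add_self_eq_zero, zero_smul, add_zero]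
    · rw [hτ, huu, CharTwo.add_self_eq_zero, zero_smul, add_zero]
  have hper : ∀ R : Submodule F V, (∀ a, (∀ r ∈ R, B a r = 0) → a ∈ R) →
      (∀ r ∈ R, ∀ x, x + r ∈ γ ↔ x ∈ γ) → ∃ τ, IsTau B τ ∧ act τ γ = γ ∧ τ u = u ∧ τ u' = u' := by
    intro R hR hR'
    obtain ⟨b, hb, hb0, h1⟩ := exists_period hF (by omega) R hR (u + u')
    refine htau b hb0 ?_ (fun x _ => hR' b hb x)
    rw [map_add] at h1
    rw [hB.symm u, hB.symm u']
    exact fne h1
  rcases nec_sp hB hsemi hsim hC hk hk' hγ with ⟨W, hW, v, hv⟩ | (⟨h4, -⟩ | ⟨h4, -⟩) |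
    ⟨β, hq, hβ⟩
  · apply hper W hW
    intro r hr x
    rw [hv, hv]
    change x + r + v ∈ W ↔ x + v ∈ W
    have e : x + r + v = x + v + r := by abel
    rw [e]
    exact Submodule.add_mem_iff_left W hr
  · omega
  · omega
  · have hpol := hq.polar
    rcases hβ with hco | hmult
    · let R : Submodule F V :=
        { carrier := {r | ∀ y, β r y = 0}
          add_mem' := by
            intro a b ha hb y
            rw [S4.beta_add_left hpol, ha, hb, add_zero]
          zero_mem' := fun y => S4.beta_zero_left hpol y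
          smul_mem' := by
            intro c a ha y
            rw [hq.comp, ha] }
      exact hper R (fun a ha => hco a ha) (fun r hr => (hq.period r).2 hr)
    · -- `β a b = 0` if and only if `B a b = 0`
      have hfu : ind γ u = 1 := ind_eq_one.2 hu
      have hfu' : ind γ u' = 0 := ind_eq_zero_iff.2 hu'
      have hne : u + u' ≠ 0 := by
        intro h
        apply hu'
        have h1 := vabb F u u'
        rw [h, zero_add] at h1
        rw [h1]
        exact hu
      have hβ1 : ∀ a b, B a b = 1 → β a b = 1 := by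
        intro a b hab
        rcases S4.zmod2_cases (β a b) with h4 | h4
        · exfalso
          have h5 : a = 0 := by
            apply rad_zero_of_mult hpol hq.comp hq.ne hB hmult
            intro y
            rcases h01 (B a y) with h6 | h6
            · exact hmult a y h6
            · have h7 : β a (y + b) = 0 := by
                apply hmult
                rw [map_add, h6, hab, CharTwo.add_self_eq_zero]
              rw [S4.beta_add_right hpol, h4, add_zero] at h7
              exact h7
          rw [h5, map_zero, LinearMap.zero_apply] at hab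
          exact zero_ne_one hab
        · exact h4
      refine htau (u + u') hne ?_ ?_
      · rw [map_add, map_add, hB.alt, hB.alt, zero_add, add_zero, hB.symm]
      · intro x hx
        have h1 : B (x + u) (u + u') = 1 := by
          rw [map_add B x u, LinearMap.add_apply]
          exact hx
        have h3 := hpol u (x + u) (u + u')
        rw [hβ1 _ _ h1] at h3
        have e1 : u + (x + u) = x := by rw [add_comm x u, vaab F]
        have e2 : u + (u + u') = u' := vaab F u u'
        rw [e1, e2, hfu, hfu', add_zero] at h3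
        have h4 : ind γ (x + (u + u')) = ind γ x := by
          generalize ind γ (x + (u + u')) = p at h3
          generalize ind γ x = q at h3
          revert p q
          decide
        rw [← ind_eq_one, h4, ind_eq_one]

omit [AddCommGroup V] in
lemma exists_out {k : ℕ} {γ : Finset V} (hcard : γ.card = k) (hk : 1 ≤ k)
    (hk' : k < Fintype.card V) : (∃ u, u ∈ γ) ∧ ∃ u', u' ∉ γ := by
  constructor
  · have h : γ.Nonempty := by
      rw [← Finset.card_pos]
      omega
    exact h
  · by_contra hcon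
    push Not at hcon
    have h1 : γ = univ := Finset.eq_univ_of_forall hcon
    rw [h1, Finset.card_univ] at hcard
    omega

/-- The two groups have the same codes. -/
theorem half_iff (hB : SympF B) (hF : Fintype.card F = 2) (hG : HalfG B G) {k : ℕ}
    {C : Set (Finset V)} (hk : 3 ≤ k) (hk' : 2 * k ≤ Fintype.card V) :
    IsSITCode G k C ↔ IsSITCode (ASpG B) k C := by
  constructor
  · intro hC
    refine ⟨hC.card_eq, fun g hg γ hγ => ?_, fun γ hγ u hu u' hu' δ hδ w hw w' hw' => ?_⟩
    · obtain ⟨⟨u, hu⟩, u', hu'⟩ := exists_out (hC.card_eq γ hγ) (by omega) (by omega)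
      obtain ⟨τ, hτ, h2, -, -⟩ := exists_tau hB hF hG.le hC hk hk' hγ hu hu'
      rcases hG.half g hg τ hτ with h3 | h3
      · exact hC.invariant g h3 γ hγ
      · have h4 := hC.invariant _ h3 γ hγ
        rwa [act_mul, h2] at h4
    · obtain ⟨g, hg, h1, h2, h3⟩ := hC.transitive γ hγ u hu u' hu' δ hδ w hw w' hw'
      exact ⟨g, hG.le hg, h1, h2, h3⟩
  · intro hC
    refine ⟨hC.card_eq, fun g hg γ hγ => hC.invariant g (hG.le hg) γ hγ,
      fun γ hγ u hu u' hu' δ hδ w hw w' hw' => ?_⟩
    obtain ⟨g, hg, h1, h2, h3⟩ := hC.transitive γ hγ u hu u' hu' δ hδ w hw w' hw'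
    obtain ⟨τ, hτ, h4, h5, h6⟩ := exists_tau hB hF le_rfl hC hk hk' hγ hu hu'
    rcases hG.half g hg τ hτ with h7 | h7
    · exact ⟨g, h7, h1, h2, h3⟩
    · refine ⟨_, h7, ?_, ?_, ?_⟩
      · rw [act_mul, h4, h1]
      · change g (τ u) = w
        rw [h5, h2]
      · change g (τ u') = w'
        rw [h6, h3]

omit [Fintype F] [DecidableEq V] in
/-- `G` is 2-transitive. -/
theorem half_two (hB : SympF B) (hG : HalfG B G) : IsTwoTransitive G := by
  intro x y x' y' hxy hxy'
  obtain ⟨g, hg, h1, h2⟩ := (spG_ASpG hB).twoTransitive x y x' y' hxy hxy'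
  have h3 : x + y ≠ 0 := by
    intro h
    apply hxy
    rw [← vabb F x y, h, zero_add]
  let τ : Equiv.Perm V := Equiv.addRight (B x (x + y) • (x + y)) * lp (tq hB 1 (x + y))
  have hτ : ∀ z, τ z = z + (B z (x + y) + B x (x + y)) • (x + y) := by
    intro z
    change tq hB 1 (x + y) z + B x (x + y) • (x + y) = _
    rw [tq_apply, one_mul, add_smul, add_assoc]
  rcases hG.half g hg τ ⟨x + y, _, h3, hτ⟩ with h4 | h4
  · exact ⟨g, h4, h1, h2⟩
  · refine ⟨_, h4, ?_, ?_⟩
    · change g (τ x) = x'
      rw [hτ, CharTwo.add_self_eq_zero, zero_smul, add_zero, h1]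
    · change g (τ y) = y'
      have h5 : B y (x + y) = B x (x + y) := by
        rw [map_add, map_add, hB.alt, hB.alt, zero_add, add_zero, hB.symm]
      rw [hτ, h5, CharTwo.add_self_eq_zero, zero_smul, add_zero, h2]

end Codes

end Pool.Agent.SIT.Gen.Sp2

namespace Pool.Agent.SIT.Gen

open Finset SpQ Sp2

/-- **`|F| = 2`**: all codes for the groups between `T.Sp(V, B)'` and `ASp(V, B)`. -/
theorem sp_class_two {F : Type*} [Field F] [Fintype F] [CharP F 2] (hF : Fintype.card F = 2)
    {V : Type*} [AddCommGroup V] [Module F V] [Fintype V] [DecidableEq V]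
    {B : V →ₗ[F] V →ₗ[F] F} {G : Subgroup (Equiv.Perm V)} (hG : SpG' F B G) :
    IsTwoTransitive G ∧ ∀ (k : ℕ) (C : Set (Finset V)), 3 ≤ k → 2 * k ≤ Fintype.card V →
    ((IsSITCode G k C ∧ C.Nonempty) ↔ ∃ γ : Finset V, γ.card = k ∧ C = Orb G γ ∧
      ((∃ W : Submodule F V, (∀ a, (∀ w ∈ W, B a w = 0) → a ∈ W) ∧ Translate (W : Set V) γ) ∨
        Exc F G γ ∨
        ∃ β, Quad F G γ β ∧ ((∀ a, (∀ r, (∀ y, β r y = 0) → B a r = 0) → ∀ y, β a y = 0) ∨
          ∀ a b, B a b = 0 → β a b = 0))) := by
  have hB : SympF B := sympF hG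
  have hH := half_of hF hG
  refine ⟨half_two hB hH, fun k C hk hk' => ?_⟩
  have hall := (sp_all (spG_ASpG hB)).2
  -- the conditions do not depend on the group
  have hgood : ∀ (G₁ G₂ : Subgroup (Equiv.Perm V)) (γ : Finset V),
      ((∃ W : Submodule F V, (∀ a, (∀ w ∈ W, B a w = 0) → a ∈ W) ∧ Translate (W : Set V) γ) ∨
        Exc F G₁ γ ∨
        ∃ β, Quad F G₁ γ β ∧ ((∀ a, (∀ r, (∀ y, β r y = 0) → B a r = 0) → ∀ y, β a y = 0) ∨
          ∀ a b, B a b = 0 → β a b = 0)) →
      ((∃ W : Submodule F V, (∀ a, (∀ w ∈ W, B a w = 0) → a ∈ W) ∧ Translate (W : Set V) γ) ∨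
        Exc F G₂ γ ∨
        ∃ β, Quad F G₂ γ β ∧ ((∀ a, (∀ r, (∀ y, β r y = 0) → B a r = 0) → ∀ y, β a y = 0) ∨
          ∀ a b, B a b = 0 → β a b = 0)) := by
    rintro G₁ G₂ γ (h | (⟨h, -⟩ | ⟨h, -⟩) | ⟨β, hq, hβ⟩)
    · exact Or.inl h
    · omega
    · omega
    · exact Or.inr (Or.inr ⟨β, ⟨hq.polar, hq.comp, hq.period, hq.ne, Or.inl hF⟩, hβ⟩)
  -- the orbits
  have horb : ∀ {D : Set (Finset V)} {γ : Finset V}, IsSITCode G k D → γ ∈ D → D = Orb G γ := by
    intro D γ hD hγ
    obtain ⟨⟨u, hu⟩, u', hu'⟩ := exists_out (hD.card_eq γ hγ) (by omega) (by omega)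
    exact hD.eq_orb hγ hu hu'
  have hmem : ∀ (G' : Subgroup (Equiv.Perm V)) (γ : Finset V), γ ∈ Orb G' γ :=
    fun G' γ => ⟨1, G'.one_mem, (act_one γ).symm⟩
  constructor
  · rintro ⟨hC, hne⟩
    obtain ⟨γ, h1, h2, h3⟩ := (hall k C hk hk').1 ⟨(half_iff hB hF hH hk hk').1 hC, hne⟩
    refine ⟨γ, h1, ?_, hgood _ _ γ h3⟩
    apply horb hC
    rw [h2]
    exact hmem _ γ
  · rintro ⟨γ, h1, h2, h3⟩
    have h4 := (hall k (Orb (ASpG B) γ) hk hk').2 ⟨γ, h1, rfl, hgood _ _ γ h3⟩
    have h5 := (half_iff hB hF hH hk hk').2 h4.1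
    have h6 : Orb (ASpG B) γ = Orb G γ := horb h5 (hmem _ γ)
    rw [h2, ← h6]
    exact ⟨h5, h4.2⟩

end Pool.Agent.SIT.Gen
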