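import Mathlib

/-!
# Symplectic groups over a field of characteristic two

Transitivity of the group generated by the symplectic transvections on the vectors outside a
coisotropic subspace, lifts of transvections of the quotient, and the level sets of a functional.
-/

namespace Pool.Agent.SIT.SpQ

lemma vaa (F : Type*) [Field F] [CharP F 2] {V : Type*} [AddCommGroup V] [Module F V] (x : V) :
    x + x = 0 := by
  rw [← two_smul F x, CharTwo.two_eq_zero, zero_smul]

lemma vaab (F : Type*) [Field F] [CharP F 2] {V : Type*} [AddCommGroup V] [Module F V] (x y : V) :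
    x + (x + y) = y := by
  rw [← add_assoc, vaa F, zero_add]

lemma vabb (F : Type*) [Field F] [CharP F 2] {V : Type*} [AddCommGroup V] [Module F V] (x y : V) :
    x + y + y = x := by
  rw [add_assoc, vaa F, add_zero]

section

variable {F : Type*} [Field F] {V : Type*} [AddCommGroup V] [Module F V]

/-- `B` is alternating and nondegenerate. -/
structure SympF (B : V →ₗ[F] V →ₗ[F] F) : Prop where
  alt : ∀ x, B x x = 0
  nd : ∀ x, (∀ y, B x y = 0) → x = 0

/-- `W` contains its orthogonal. -/
def CoisoF (B : V →ₗ[F] V →ₗ[F] F) (W : Submodule F V) : Prop :=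
  ∀ a, (∀ w ∈ W, B a w = 0) → a ∈ W

variable [CharP F 2]

lemma fne {a b : F} (h : a + b = 0) : a = b := by
  have := CharTwo.add_self_eq_zero b
  rw [← this] at h
  exact add_right_cancel h

variable {B : V →ₗ[F] V →ₗ[F] F}

lemma SympF.symm (hB : SympF B) (x y : V) : B x y = B y x := by
  have h := hB.alt (x + y)
  simp only [map_add, LinearMap.add_apply, hB.alt, zero_add, add_zero] at h
  exact (fne (by rw [add_comm]; exact h))

/-- The symplectic transvection `x ↦ x + c B(x,z) z`. -/
def tq (hB : SympF B) (c : F) (z : V) : V ≃ₗ[F] V :=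
  LinearEquiv.ofInvolutive (LinearMap.id + (c • B z).smulRight z) (by
    intro x
    change (x + (c • B z x) • z) + (c • B z (x + (c • B z x) • z)) • z = x
    rw [map_add, map_smul, hB.alt, smul_zero, add_zero, vabb F])

lemma tq_apply (hB : SympF B) (c : F) (z x : V) : tq hB c z x = x + (c * B x z) • z := by
  rw [hB.symm x z]
  rfl

lemma tq_pres (hB : SympF B) (c : F) (z x y : V) : B (tq hB c z x) (tq hB c z y) = B x y := by
  simp only [tq_apply, map_add, map_smul, LinearMap.add_apply, LinearMap.smul_apply, hB.alt,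
    smul_eq_mul, mul_zero, add_zero, hB.symm z y]
  have := CharTwo.add_self_eq_zero (c * B x z * B y z)
  linear_combination this

/-- The group generated by the symplectic transvections. -/
def SpT (hB : SympF B) : Subgroup (V ≃ₗ[F] V) :=
  Subgroup.closure (Set.range fun p : F × V => tq hB p.1 p.2)

lemma tq_mem (hB : SympF B) (c : F) (z : V) : tq hB c z ∈ SpT hB :=
  Subgroup.subset_closure ⟨(c, z), rfl⟩

lemma SpT_pres (hB : SympF B) {g : V ≃ₗ[F] V} (hg : g ∈ SpT hB) (x y : V) :
    B (g x) (g y) = B x y := by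
  have key : ∀ g ∈ SpT hB, ∀ x y, B (g x) (g y) = B x y := by
    intro g hg
    refine Subgroup.closure_induction (p := fun g _ => ∀ x y, B (g x) (g y) = B x y)
      ?_ ?_ ?_ ?_ hg
    · rintro _ ⟨p, rfl⟩
      exact tq_pres hB p.1 p.2
    · intro x y
      rfl
    · intro g h _ _ ih1 ih2 x y
      change B (g (h x)) (g (h y)) = _
      rw [ih1, ih2]
    · intro g _ ih x y
      have h := ih (g⁻¹ x) (g⁻¹ y)
      have h1 : ∀ z, g (g⁻¹ z) = z := fun z => g.apply_symm_apply z
      rw [h1, h1] at h
      exact h.symm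
  exact key g hg x y

/-- The product `x ↦ x + B(x,u) z + B(x,z) u` of three transvections, for `B u z = 0`. -/
def eq3 (hB : SympF B) (u z : V) : V ≃ₗ[F] V := tq hB 1 u * (tq hB 1 z * tq hB 1 (u + z))

lemma eq3_mem (hB : SympF B) (u z : V) : eq3 hB u z ∈ SpT hB :=
  (SpT hB).mul_mem (tq_mem hB _ _) ((SpT hB).mul_mem (tq_mem hB _ _) (tq_mem hB _ _))

lemma eq3_apply (hB : SympF B) {u z : V} (h : B u z = 0) (x : V) :
    eq3 hB u z x = x + B x u • z + B x z • u := by
  have h' : B z u = 0 := by rw [hB.symm, h]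
  change tq hB 1 u (tq hB 1 z (tq hB 1 (u + z) x)) = _
  have e1 : tq hB 1 (u + z) x = x + (B x u + B x z) • (u + z) := by
    rw [tq_apply, one_mul, map_add]
  have e2 : B (tq hB 1 (u + z) x) z = B x z := by
    rw [e1, map_add, map_smul, LinearMap.add_apply, LinearMap.smul_apply, map_add,
      LinearMap.add_apply, h, hB.alt, add_zero, smul_zero, add_zero]
  have e3 : B (tq hB 1 (u + z) x) u = B x u := by
    rw [e1, map_add, map_smul, LinearMap.add_apply, LinearMap.smul_apply, map_add,
      LinearMap.add_apply, h', hB.alt, add_zero, smul_zero, add_zero]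
  have e4 : tq hB 1 z (tq hB 1 (u + z) x) = x + (B x u + B x z) • (u + z) + B x z • z := by
    rw [tq_apply, one_mul, e2, e1]
  have e5 : B (tq hB 1 z (tq hB 1 (u + z) x)) u = B x u := by
    rw [tq_apply, one_mul, map_add, map_smul, LinearMap.add_apply, LinearMap.smul_apply, h', e3,
      smul_zero, add_zero]
  rw [tq_apply, one_mul, e5, e4]
  have h1 := vaa F (B x u • u)
  have h2 := vaa F (B x z • z)
  calc _ = x + B x u • z + B x z • u + (B x u • u + B x u • u) + (B x z • z + B x z • z) := by
        rw [add_smul, smul_add, smul_add]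
        abel
    _ = _ := by rw [h1, h2, add_zero, add_zero]

/-- a functional vanishing on `W` with value one at `v` -/
lemma exists_fun {W : Submodule F V} {v : V} (hv : v ∉ W) :
    ∃ φ : V →ₗ[F] F, φ v = 1 ∧ ∀ w ∈ W, φ w = 0 := by
  obtain ⟨f, hf, hfv⟩ := LinearMap.exists_extend_of_notMem (0 : W →ₗ[F] F) hv 1
  exact ⟨f, hfv, fun w hw => by simpa using congrArg (fun h => h ⟨w, hw⟩) hf⟩

lemma iff_of_add {W : Submodule F V} {g : V ≃ₗ[F] V} (hg : ∀ x, g x + x ∈ W) (z : V) :
    g z ∈ W ↔ z ∈ W := by
  constructor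
  · intro h
    have := W.add_mem h (hg z)
    rwa [vaab F] at this
  · intro h
    have := W.add_mem (hg z) h
    rwa [vabb F] at this

variable [FiniteDimensional F V]

/-- functionals are represented by the form -/
lemma exists_repr (hB : SympF B) (φ : V →ₗ[F] F) : ∃ u, ∀ x, B x u = φ x := by
  have hinj : Function.Injective B := by
    rw [injective_iff_map_eq_zero]
    intro x hx
    exact hB.nd x fun y => by rw [hx]; rfl
  have hsurj : Function.Surjective B :=
    (LinearMap.injective_iff_surjective_of_finrank_eq_finrank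
      (by rw [← Subspace.dual_finrank_eq])).1 hinj
  obtain ⟨u, hu⟩ := hsurj φ
  exact ⟨u, fun x => by rw [hB.symm, hu]⟩

/-- inside a coset of a coisotropic subspace -/
theorem sp_coset (hB : SympF B) {W : Submodule F V} (hW : CoisoF B W) {v v' : V}
    (hv : v ∉ W) (hvv : v + v' ∈ W) :
    ∃ g ∈ SpT hB, (∀ x, g x + x ∈ W) ∧ g v = v' := by
  obtain ⟨φ, hφ1, hφ2⟩ := exists_fun hv
  obtain ⟨u, hu⟩ := exists_repr hB φ
  have huv : B v u = 1 := by rw [hu, hφ1]
  have huW : ∀ w ∈ W, B u w = 0 := fun w hw => by rw [hB.symm, hu, hφ2 w hw]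
  have huW' : u ∈ W := hW u huW
  have huz : B u (v + v') = 0 := huW _ hvv
  refine ⟨tq hB (B v (v + v')) u * eq3 hB u (v + v'),
    (SpT hB).mul_mem (tq_mem hB _ _) (eq3_mem hB _ _), fun x => ?_, ?_⟩
  · change tq hB _ u (eq3 hB u (v + v') x) + x ∈ W
    rw [tq_apply, eq3_apply hB huz]
    have h1 : x + B x u • (v + v') + B x (v + v') • u +
        (B v (v + v') * B (x + B x u • (v + v') + B x (v + v') • u) u) • u + x =
        B x u • (v + v') + B x (v + v') • u +
        (B v (v + v') * B (x + B x u • (v + v') + B x (v + v') • u) u) • u := by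
      set a := B x u • (v + v')
      set b := B x (v + v') • u
      set c := (B v (v + v') * B (x + a + b) u) • u
      calc x + a + b + c + x = a + b + c + (x + x) := by abel
        _ = _ := by rw [vaa F, add_zero]
    rw [h1]
    exact W.add_mem (W.add_mem (W.smul_mem _ hvv) (W.smul_mem _ huW')) (W.smul_mem _ huW')
  · change tq hB _ u (eq3 hB u (v + v') v) = v'
    have h2 : eq3 hB u (v + v') v = v' + B v (v + v') • u := by
      rw [eq3_apply hB huz, huv, one_smul, vaab F]
    have h3 : B v' u = 1 := by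
      have h4 : v' = v + (v + v') := (vaab F v v').symm
      rw [h4, map_add, LinearMap.add_apply, huv, hB.symm (v + v') u, huz, add_zero]
    have h5 : B (v' + B v (v + v') • u) u = 1 := by
      generalize B v (v + v') = a
      rw [map_add, LinearMap.add_apply, map_smul, LinearMap.smul_apply, hB.alt, smul_zero,
        add_zero, h3]
    rw [h2, tq_apply, h5, mul_one, vabb F]

/-- transvections of the quotient by a coisotropic subspace lift -/
theorem sp_lift (hB : SympF B) {W : Submodule F V} (hW : CoisoF B W) (φ : V →ₗ[F] F)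
    (hφ : ∀ w ∈ W, φ w = 0) (d : V) (hd : φ d = 0) :
    ∃ g ∈ SpT hB, (∀ x, g x + (x + φ x • d) ∈ W) ∧ ∀ x, g x ∈ W ↔ x ∈ W := by
  obtain ⟨u, hu⟩ := exists_repr hB φ
  have huW : u ∈ W := hW u fun w hw => by rw [hB.symm, hu, hφ w hw]
  have hud : B u d = 0 := by rw [hB.symm, hu, hd]
  have key : ∀ x, eq3 hB u d x + (x + φ x • d) ∈ W := by
    intro x
    rw [eq3_apply hB hud, hu]
    have : x + φ x • d + B x d • u + (x + φ x • d) = B x d • u := by
      set a := x + φ x • d
      set b := B x d • u
      calc a + b + a = b + (a + a) := by abel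
        _ = _ := by rw [vaa F, add_zero]
    rw [this]
    exact W.smul_mem _ huW
  refine ⟨eq3 hB u d, eq3_mem hB _ _, key, fun x => ?_⟩
  have hinv : ∀ x, eq3 hB u d (eq3 hB u d x) = x := by
    intro x
    have hdu : B d u = 0 := by rw [hB.symm, hud]
    rw [eq3_apply hB hud (eq3 hB u d x), eq3_apply hB hud x]
    have e1 : B (x + B x u • d + B x d • u) u = B x u := by
      rw [map_add, map_add, map_smul, map_smul, LinearMap.add_apply, LinearMap.add_apply,
        LinearMap.smul_apply, LinearMap.smul_apply, hdu, hB.alt, smul_zero, smul_zero, add_zero,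
        add_zero]
    have e2 : B (x + B x u • d + B x d • u) d = B x d := by
      rw [map_add, map_add, map_smul, map_smul, LinearMap.add_apply, LinearMap.add_apply,
        LinearMap.smul_apply, LinearMap.smul_apply, hud, hB.alt, smul_zero, smul_zero, add_zero,
        add_zero]
    rw [e1, e2]
    set a := B x u • d
    set b := B x d • u
    calc x + a + b + a + b = x + (a + a) + (b + b) := by abel
      _ = x := by rw [vaa F, vaa F, add_zero, add_zero]
  have hmem : ∀ x ∈ W, eq3 hB u d x ∈ W := by
    intro x hx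
    have h1 := key x
    rw [hφ x hx, zero_smul, add_zero] at h1
    have := W.add_mem h1 hx
    rwa [vabb F] at this
  refine ⟨fun h => ?_, hmem x⟩
  have := hmem _ h
  rwa [hinv] at this

/-- transitivity on nonzero vectors -/
theorem sp_vec (hB : SympF B) {x y : V} (hx : x ≠ 0) (hy : y ≠ 0) : ∃ g ∈ SpT hB, g x = y := by
  have step : ∀ x y, B x y ≠ 0 → ∃ g ∈ SpT hB, g x = y := by
    intro x y h
    refine ⟨tq hB (B x y)⁻¹ (x + y), tq_mem hB _ _, ?_⟩
    rw [tq_apply, map_add, hB.alt, zero_add, inv_mul_cancel₀ h, one_smul, vaab F]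
  have hex : ∀ x, x ≠ 0 → ∃ z, B x z ≠ 0 := by
    intro x hx
    by_contra hcon
    push Not at hcon
    exact hx (hB.nd x hcon)
  by_cases hxy : B x y = 0
  · obtain ⟨z, hz1, hz2⟩ : ∃ z, B x z ≠ 0 ∧ B z y ≠ 0 := by
      obtain ⟨a, ha⟩ := hex x hx
      obtain ⟨b, hb⟩ := hex y hy
      by_cases h1 : B a y = 0
      · by_cases h2 : B x b = 0
        · refine ⟨a + b, ?_, ?_⟩
          · rw [map_add, h2, add_zero]
            exact ha
          · rw [map_add, LinearMap.add_apply, h1, zero_add, hB.symm]
            exact hb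
        · exact ⟨b, h2, by rw [hB.symm]; exact hb⟩
      · exact ⟨a, ha, h1⟩
    obtain ⟨g, hg, hgx⟩ := step x z hz1
    obtain ⟨h, hh, hhz⟩ := step z y hz2
    refine ⟨h * g, (SpT hB).mul_mem hh hg, ?_⟩
    change h (g x) = y
    rw [hgx, hhz]
  · exact step x y hxy

/-- the stabiliser of a coisotropic subspace is transitive on the vectors outside -/
theorem sp_outside (hB : SympF B) {W : Submodule F V} (hW : CoisoF B W) {x y : V}
    (hx : x ∉ W) (hy : y ∉ W) :
    ∃ g ∈ SpT hB, (∀ z, g z ∈ W ↔ z ∈ W) ∧ g x = y := by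
  -- up to a coset
  suffices h : ∃ g ∈ SpT hB, (∀ z, g z ∈ W ↔ z ∈ W) ∧ g x + y ∈ W by
    obtain ⟨g, hg, hgW, hgx⟩ := h
    have h1 : g x ∉ W := fun h => hx ((hgW x).1 h)
    obtain ⟨k, hk, hk1, hk2⟩ := sp_coset hB hW h1 hgx
    refine ⟨k * g, (SpT hB).mul_mem hk hg, fun z => ?_, hk2⟩
    change k (g z) ∈ W ↔ z ∈ W
    rw [iff_of_add hk1, hgW]
  -- the generic step
  have hgen : ∀ x y, x ∉ W ⊔ Submodule.span F {x + y} →
      ∃ g ∈ SpT hB, (∀ z, g z ∈ W ↔ z ∈ W) ∧ g x + y ∈ W := by
    intro x y hxy
    obtain ⟨φ, h1, h2⟩ := exists_fun hxy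
    obtain ⟨g, hg, hg1, hg2⟩ := sp_lift hB hW φ (fun w hw => h2 w (Submodule.mem_sup_left hw))
      (x + y) (h2 _ (Submodule.mem_sup_right (Submodule.mem_span_singleton_self _)))
    refine ⟨g, hg, hg2, ?_⟩
    have := hg1 x
    rwa [h1, one_smul, vaab F] at this
  by_cases hc : ∃ z, z ∉ W ⊔ Submodule.span F {x}
  · obtain ⟨z, hz⟩ := hc
    have hzx : x ∉ W ⊔ Submodule.span F {x + z} := by
      intro h
      rw [Submodule.mem_sup] at h
      obtain ⟨t, ht, s, hs, hts⟩ := h
      rw [Submodule.mem_span_singleton] at hs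
      obtain ⟨c, rfl⟩ := hs
      by_cases hc0 : c = 0
      · rw [hc0, zero_smul, add_zero] at hts
        exact hx (hts ▸ ht)
      · apply hz
        rw [Submodule.mem_sup]
        refine ⟨c⁻¹ • t, W.smul_mem _ ht, (c⁻¹ + 1) • x, Submodule.mem_span_singleton.2 ⟨_, rfl⟩, ?_⟩
        have h1 : c • z = t + x + c • x := by
          have : t + (c • x + c • z) = x := by rw [← smul_add]; exact hts
          calc c • z = t + (t + (c • x + c • z)) + c • x + (t + t) + (c • x + c • x) -
                (t + t) - (t + t) - (c • x + c • x) - (c • x + c • x) := by abel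
            _ = t + x + c • x := by rw [this, vaa F, vaa F]; abel
        calc c⁻¹ • t + (c⁻¹ + 1) • x = c⁻¹ • (t + x + c • x) := by
              rw [add_smul, one_smul, smul_add, smul_add, smul_smul, inv_mul_cancel₀ hc0, one_smul]
              abel
          _ = z := by rw [← h1, smul_smul, inv_mul_cancel₀ hc0, one_smul]
    obtain ⟨g, hg, hgW, hgx⟩ := hgen x z hzx
    by_cases hy2 : x ∉ W ⊔ Submodule.span F {x + y}
    · exact hgen x y hy2
    · -- `y` in `W + F x`, two steps
      push Not at hy2
      have hyx : y ∈ W ⊔ Submodule.span F {x} := by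
        rw [Submodule.mem_sup] at hy2 ⊢
        obtain ⟨t, ht, s, hs, hts⟩ := hy2
        rw [Submodule.mem_span_singleton] at hs
        obtain ⟨c, rfl⟩ := hs
        by_cases hc0 : c = 0
        · rw [hc0, zero_smul, add_zero] at hts
          exact absurd (hts ▸ ht) hx
        · refine ⟨c⁻¹ • t, W.smul_mem _ ht, (c⁻¹ + 1) • x,
            Submodule.mem_span_singleton.2 ⟨_, rfl⟩, ?_⟩
          have h1 : c • y = t + x + c • x := by
            have : t + (c • x + c • y) = x := by rw [← smul_add]; exact hts
            calc c • y = t + (t + (c • x + c • y)) + c • x + (t + t) + (c • x + c • x) -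
                  (t + t) - (t + t) - (c • x + c • x) - (c • x + c • x) := by abel
              _ = t + x + c • x := by rw [this, vaa F, vaa F]; abel
          calc c⁻¹ • t + (c⁻¹ + 1) • x = c⁻¹ • (t + x + c • x) := by
                rw [add_smul, one_smul, smul_add, smul_add, smul_smul, inv_mul_cancel₀ hc0,
                  one_smul]
                abel
            _ = y := by rw [← h1, smul_smul, inv_mul_cancel₀ hc0, one_smul]
      have hzy : z ∉ W ⊔ Submodule.span F {z + y} := by
        intro h
        apply hz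
        rw [Submodule.mem_sup] at h hyx
        obtain ⟨t, ht, s, hs, hts⟩ := h
        rw [Submodule.mem_span_singleton] at hs
        obtain ⟨c, rfl⟩ := hs
        obtain ⟨t', ht', s', hs', hts'⟩ := hyx
        by_cases hc1 : c = 1
        · -- then `y ∈ W`
          exfalso
          apply hy
          rw [hc1, one_smul] at hts
          have : y = t := by
            have h2 : t + (z + y) + z = 0 := by rw [hts, vaa F]
            calc y = y + (t + (z + y) + z) := by rw [h2, add_zero]
              _ = t + (z + z) + (y + y) := by abel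
              _ = t := by rw [vaa F, vaa F, add_zero, add_zero]
          rw [this]
          exact ht
        · have hc1' : (1 + c) ≠ 0 := fun h => hc1 (fne h).symm
          have h3 : (1 + c) • z = t + c • t' + c • s' := by
            have h4 : t + (c • z + c • (t' + s')) = z := by
              rw [hts', ← smul_add]; exact hts
            calc (1 + c) • z = z + c • z := by rw [add_smul, one_smul]
              _ = t + (c • z + c • (t' + s')) + c • z := by rw [h4]
              _ = t + c • t' + c • s' + (c • z + c • z) := by rw [smul_add]; abel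
              _ = _ := by rw [vaa F, add_zero]
          have h5 : z = (1 + c)⁻¹ • (t + c • t') + ((1 + c)⁻¹ * c) • s' := by
            have h6 : z = (1 + c)⁻¹ • ((1 + c) • z) := by
              rw [smul_smul, inv_mul_cancel₀ hc1', one_smul]
            rw [h3] at h6
            rw [h6, smul_add, smul_smul]
          rw [h5]
          exact Submodule.add_mem_sup (W.smul_mem _ (W.add_mem ht (W.smul_mem _ ht')))
            (Submodule.smul_mem _ _ hs')
      obtain ⟨k, hk, hkW, hkz⟩ := hgen z y hzy
      refine ⟨k * g, (SpT hB).mul_mem hk hg, fun w => ?_, ?_⟩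
      · change k (g w) ∈ W ↔ w ∈ W
        rw [hkW, hgW]
      · change k (g x) + y ∈ W
        have h1 : k (g x + z) ∈ W := (hkW _).2 hgx
        rw [map_add] at h1
        have h2 := W.add_mem h1 hkz
        have h3 : k (g x) + k z + (k z + y) = k (g x) + y := by
          calc _ = k (g x) + y + (k z + k z) := by abel
            _ = _ := by rw [vaa F, add_zero]
        rwa [h3] at h2
  · -- codimension one
    push Not at hc
    obtain ⟨φ, hφ1, hφ2⟩ := exists_fun hx
    obtain ⟨u, hu⟩ := exists_repr hB φ
    have hWφ : ∀ z, z ∈ W ↔ φ z = 0 := by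
      intro z
      refine ⟨hφ2 z, fun h => ?_⟩
      have h1 := hc z
      rw [Submodule.mem_sup] at h1
      obtain ⟨t, ht, s, hs, hts⟩ := h1
      rw [Submodule.mem_span_singleton] at hs
      obtain ⟨c, rfl⟩ := hs
      rw [← hts, map_add, map_smul, hφ2 t ht, hφ1, zero_add, smul_eq_mul, mul_one] at h
      rw [← hts, h, zero_smul, add_zero]
      exact ht
    have hu0 : u ≠ 0 := by
      rintro rfl
      have := hu x
      rw [map_zero, hφ1] at this
      exact zero_ne_one this
    have hy0 : φ y ≠ 0 := fun h => hy ((hWφ y).2 h)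
    have hu1 : (φ y)⁻¹ • u ≠ 0 := smul_ne_zero (inv_ne_zero hy0) hu0
    obtain ⟨g, hg, hgu⟩ := sp_vec hB hu0 hu1
    have hgφ : ∀ z, φ (g z) = φ y * φ z := by
      intro z
      have h1 := SpT_pres hB hg z u
      rw [hgu, map_smul, smul_eq_mul, hu, hu] at h1
      rw [← h1, ← mul_assoc, mul_inv_cancel₀ hy0, one_mul]
    refine ⟨g, hg, fun z => ?_, ?_⟩
    · rw [hWφ, hWφ, hgφ, mul_eq_zero]
      exact ⟨fun h => h.resolve_left hy0, Or.inr⟩
    · rw [hWφ, map_add, hgφ, hφ1, mul_one, CharTwo.add_self_eq_zero]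

/-- the hyperplane orthogonal to `u` is coisotropic -/
lemma coiso_ker (hB : SympF B) {u : V} (hu : u ≠ 0) : CoisoF B (LinearMap.ker (B u)) := by
  intro a ha
  rw [LinearMap.mem_ker]
  obtain ⟨t, ht⟩ : ∃ t, B u t ≠ 0 := by
    by_contra hcon
    push Not at hcon
    exact hu (hB.nd u hcon)
  have h1 : ∀ x, B a x = (B a t * (B u t)⁻¹) * B u x := by
    intro x
    have h2 := ha (x + (B u x * (B u t)⁻¹) • t) (by
      rw [LinearMap.mem_ker, map_add, map_smul, smul_eq_mul, mul_assoc, inv_mul_cancel₀ ht,
        mul_one, CharTwo.add_self_eq_zero])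
    rw [map_add, map_smul, smul_eq_mul] at h2
    rw [fne h2]
    ring
  have h3 : a = (B a t * (B u t)⁻¹) • u := by
    have h4 : a + (B a t * (B u t)⁻¹) • u = 0 := by
      apply hB.nd
      intro y
      rw [map_add, map_smul, LinearMap.add_apply, LinearMap.smul_apply, smul_eq_mul, ← h1,
        CharTwo.add_self_eq_zero]
    have := vabb F a ((B a t * (B u t)⁻¹) • u)
    rw [h4, zero_add] at this
    exact this.symm
  rw [h3, map_smul, hB.alt, smul_zero]

/-- the level sets of the functional `B(·,u)`: the stabiliser of `u` is transitive -/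
theorem sp_level (hB : SympF B) {u x y : V} (hxy : B x u = B y u) (hx : B x u ≠ 0) :
    ∃ g ∈ SpT hB, g u = u ∧ (∀ z, B (g z) u = B z u) ∧ g x = y := by
  have hu : u ≠ 0 := by
    rintro rfl
    exact hx (map_zero _)
  have h1 : x ∉ LinearMap.ker (B u) := by
    rw [LinearMap.mem_ker, hB.symm]
    exact hx
  have h2 : x + y ∈ LinearMap.ker (B u) := by
    rw [LinearMap.mem_ker, map_add, hB.symm u x, hB.symm u y, hxy, CharTwo.add_self_eq_zero]
  obtain ⟨g, hg, hg1, hg2⟩ := sp_coset hB (coiso_ker hB hu) h1 h2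
  have h3 : ∀ z, B (g z) u = B z u := by
    intro z
    have := hg1 z
    rw [LinearMap.mem_ker, map_add, hB.symm u, hB.symm u] at this
    exact fne this
  refine ⟨g, hg, ?_, h3, hg2⟩
  have h4 : g u + u = 0 := by
    apply hB.nd
    intro w
    obtain ⟨z, rfl⟩ := g.surjective w
    rw [map_add, LinearMap.add_apply, SpT_pres hB hg, hB.symm u (g z), h3, hB.symm u z,
      CharTwo.add_self_eq_zero]
  have := vabb F (g u) u
  rw [h4, zero_add] at this
  exact this.symm

/-- a semilinear similitude, corrected by the symplectic group, acts on the values of `B(·,u)`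
by `s ↦ k σ(s)` for any prescribed `k ≠ 0` -/
theorem sp_semi (hB : SympF B) (g : V ≃+ V) (σ : F ≃+* F) {c : F} (hc : c ≠ 0)
    (hg : ∀ x y, B (g x) (g y) = c * σ (B x y)) {u : V} (hu : u ≠ 0) {k : F} (hk : k ≠ 0) :
    ∃ h ∈ SpT hB, ∀ x, B (h (g x)) u = k * σ (B x u) := by
  have hgu : g u ≠ 0 := by
    intro h
    exact hu (g.injective (by rw [h, map_zero]))
  have hku : (k⁻¹ * c) • u ≠ 0 := smul_ne_zero (mul_ne_zero (inv_ne_zero hk) hc) hu
  obtain ⟨h, hh, hhu⟩ := sp_vec hB hgu hku
  refine ⟨h, hh, fun x => ?_⟩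
  have h1 := SpT_pres hB hh (g x) (g u)
  rw [hhu, hg, map_smul, smul_eq_mul] at h1
  have h2 : B (h (g x)) u = (k⁻¹ * c)⁻¹ * (c * σ (B x u)) := by
    rw [← h1, ← mul_assoc, inv_mul_cancel₀ (mul_ne_zero (inv_ne_zero hk) hc), one_mul]
  rw [h2]
  field_simp

end

end Pool.Agent.SIT.SpQ
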