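import Pool.Agent.SIT.SpQAll

/-!
# Groups between `ASp(2m,q)` and `AΓSp(2m,q)`: see `SpQAll`
-/
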