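import Pool.Agent.SIT.NecSemi
import Pool.Agent.SIT.SpQ

/-!
# Semilinear groups of similitudes: the period is coisotropic or zero, and in the second case the
polar form is a multiple of the symplectic form
-/

namespace Pool.Agent.SIT

open Finset SpQ

section Comm

variable {F : Type*} [Field F] {V : Type*} [AddCommGroup V] [Module F V] [Fintype V]
  [DecidableEq V] {f : V → ZMod 2} {P : (V ≃+ V) → V → (F ≃+* F) → Prop}

/-- An additive injective map which commutes with the linear parts and is self-adjoint for the
polar form is the identity. -/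
theorem SG.comm_id (h : SG f P) (h2 : ∀ x : V, x + x = 0) {β : V → V → ZMod 2}
    (hβ : ∀ x a b, f (x + a + b) + f (x + a) + f (x + b) + f x = β a b)
    (hnd : ∀ a, (∀ b, β a b = 0) → a = 0)
    (hlt : (univ.filter (fun x => f x = 1)).card < (univ.filter (fun x => f x = 0)).card)
    {p : V} (hp : f p = 1) {S : V → V} (hSadd : ∀ a b, S (a + b) = S a + S b)
    (hSinj : Function.Injective S) (hself : ∀ a b, β (S a) b = β a (S b))
    (hcomm : ∀ g t σ, P g t σ → ∀ x, S (g x) = g (S x)) : ∀ a, S a = a := by
  classical
  have hSbij : Function.Bijective S := Finite.injective_iff_bijective.1 hSinj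
  have hlin : ∀ {g : V ≃+ V} {t : V} {σ : F ≃+* F}, P g t σ → g p + t = p →
      ∀ a, f (p + g a) = f (p + a) := by
    intro g t σ hg hgp a
    rw [← h.pres hg (p + a), map_add]
    congr 1
    calc p + g a = g p + t + g a := by rw [hgp]
      _ = _ := by abel
  -- `f (p + S a)` is constant on `{a | f (p + a) = 0}`
  have hconst : ∀ a b, f (p + a) = 0 → f (p + b) = 0 → f (p + S a) = f (p + S b) := by
    intro a b ha hb
    obtain ⟨g, t, σ, hg, h1, h3⟩ := h.trans p (p + a) p (p + b) rfl (by rw [ha, hb])
      (by rw [hp, ha]; decide)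
    rw [map_add] at h3
    have h4 : p + g a = p + b := by
      calc p + g a = g p + t + g a := by rw [h1]
        _ = g p + g a + t := by abel
        _ = _ := h3
    have h5 : g a = b := add_left_cancel h4
    rw [← h5, hcomm g t σ hg, hlin hg h1]
  have hcount : ∀ d, (univ.filter (fun a => f (p + a) = d)).card =
      (univ.filter (fun x => f x = d)).card := by
    intro d
    apply Finset.card_bij (fun a _ => p + a)
    · intro a ha
      rw [mem_filter] at ha ⊢
      exact ⟨mem_univ _, ha.2⟩
    · intro a _ b _ h
      exact add_left_cancel h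
    · intro x hx
      rw [mem_filter] at hx
      exact ⟨x - p, by rw [mem_filter, add_sub_cancel]; exact ⟨mem_univ _, hx.2⟩,
        add_sub_cancel _ _⟩
  have hcountS : ∀ d, (univ.filter (fun a => f (p + S a) = d)).card =
      (univ.filter (fun a => f (p + a) = d)).card := by
    intro d
    apply Finset.card_bij (fun a _ => S a)
    · intro a ha
      rw [mem_filter] at ha ⊢
      exact ⟨mem_univ _, ha.2⟩
    · intro a _ b _ h
      exact hSinj h
    · intro x hx
      rw [mem_filter] at hx
      obtain ⟨a, rfl⟩ := hSbij.2 x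
      exact ⟨a, by rw [mem_filter]; exact ⟨mem_univ _, hx.2⟩, rfl⟩
  have hzero : ∀ a, f (p + a) = 0 → f (p + S a) = 0 := by
    intro a ha
    rcases zmod2_cases (f (p + S a)) with h1 | h1
    · exact h1
    exfalso
    have hsub : univ.filter (fun b => f (p + b) = 0) ⊆ univ.filter (fun b => f (p + S b) = 1) := by
      intro b hb
      rw [mem_filter] at hb ⊢
      exact ⟨mem_univ _, by rw [← hconst a b ha hb.2, h1]⟩
    have h3 := Finset.card_le_card hsub
    rw [hcountS, hcount, hcount] at h3
    omega
  have hpres : ∀ a, f (p + S a) = f (p + a) := by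
    have hsub : univ.filter (fun b => f (p + b) = 0) ⊆ univ.filter (fun b => f (p + S b) = 0) := by
      intro b hb
      rw [mem_filter] at hb ⊢
      exact ⟨mem_univ _, hzero b hb.2⟩
    have heq := Finset.eq_of_subset_of_card_le hsub (by rw [hcountS])
    intro a
    have h1 : f (p + a) = 0 ↔ f (p + S a) = 0 := by
      have h3 : a ∈ univ.filter (fun b => f (p + b) = 0) ↔
          a ∈ univ.filter (fun b => f (p + S b) = 0) := by rw [heq]
      rw [mem_filter, mem_filter] at h3
      simpa using h3
    rcases zmod2_cases (f (p + a)) with h3 | h3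
    · rw [h3]
      exact h1.1 h3
    · rcases zmod2_cases (f (p + S a)) with h' | h'
      · rw [h1.2 h'] at h3
        exact absurd h3 (by decide)
      · rw [h3, h']
  -- polarise
  have hSS : ∀ a b, β (S a) (S b) = β a b := by
    intro a b
    rw [← hβ p, ← hβ p a b]
    have h3 : p + S a + S b = p + S (a + b) := by rw [hSadd, add_assoc]
    rw [h3, hpres, hpres, hpres, ← add_assoc]
  have hS2 : ∀ a, S (S a) = a := by
    intro a
    have h3 : S (S a) - a = 0 := by
      apply hnd
      intro b
      have h4 : β (S (S a) - a + a) b = β (S (S a) - a) b + β a b := polar_hadd' hβ _ _ _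
      rw [sub_add_cancel, hself, hSS] at h4
      exact left_eq_add.1 (by rw [add_comm]; exact h4)
    exact sub_eq_zero.1 h3
  have hS0 : S 0 = 0 := by
    have := hSadd 0 0
    rw [add_zero] at this
    exact left_eq_add.1 this
  intro a
  by_contra ha
  have ha1 : S a + a ≠ 0 := by
    intro h3
    apply ha
    have h4 : S a + a + a = S a := by rw [add_assoc, h2, add_zero]
    rw [h3, zero_add] at h4
    exact h4.symm
  have ha2 : S (S a + a) = S a + a := by
    rw [hSadd, hS2, add_comm]
  have ha0 : a ≠ 0 := by
    rintro rfl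
    exact ha hS0
  have hper : ∀ {b : V}, b ≠ 0 → ∃ x, f (x + b) ≠ f x := by
    intro b hb
    by_contra hcon
    push Not at hcon
    apply hb
    apply hnd
    intro y
    have h5 : (0 : V) + b + y = 0 + y + b := by abel
    rw [← hβ 0 b y, h5, hcon, hcon]
    linear_combination (f (0 + y) + f 0) * (by rfl : (2 : ZMod 2) = 0)
  obtain ⟨g, t, σ, hg, h3⟩ := h.lin_trans h2 (hper ha1) (hper ha0)
  apply ha
  rw [← h3, hcomm g t σ hg, ha2]

end Comm

section

variable {F : Type*} [Field F] [CharP F 2] {V : Type*} [AddCommGroup V] [Module F V]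
  {f : V → ZMod 2} {P : (V ≃+ V) → V → (F ≃+* F) → Prop} {B : V →ₗ[F] V →ₗ[F] F}

/-- The space of periods is zero or coisotropic. -/
theorem SG.coiso (h : SG f P) (hB : SympF B)
    (sim : ∀ g t σ, P g t σ → ∃ c : F, c ≠ 0 ∧ ∀ x y, B (g x) (g y) = c * σ (B x y))
    (W : Submodule F V) (hW : ∀ r, r ∈ W ↔ ∀ x, f (x + r) = f x) : W = ⊥ ∨ CoisoF B W := by
  have h2 : ∀ x : V, x + x = 0 := add_self_of_char F V
  by_cases hco : CoisoF B W
  · exact Or.inr hco
  left
  unfold CoisoF at hco
  push Not at hco
  obtain ⟨a, ha, haW⟩ := hco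
  -- every vector outside `W` is orthogonal to `W`
  have hper : ∀ {b : V}, b ∉ W → ∃ x, f (x + b) ≠ f x := by
    intro b hb
    rw [hW] at hb
    push Not at hb
    exact hb
  have key : ∀ b, b ∉ W → ∀ w ∈ W, B b w = 0 := by
    intro b hb w hw
    obtain ⟨g, t, σ, hg, h3⟩ := h.lin_trans h2 (hper haW) (hper hb)
    obtain ⟨c, -, hc⟩ := sim g t σ hg
    have h4 : g.symm w ∈ W := by
      rw [hW]
      exact h.period (h.inv hg) ((hW w).1 hw)
    have h5 := hc a (g.symm w)
    rw [h3, g.apply_symm_apply, ha _ h4, map_zero, mul_zero] at h5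
    exact h5
  rw [eq_bot_iff]
  intro w hw
  rw [Submodule.mem_bot]
  apply hB.nd
  intro y
  by_cases hy : y ∈ W
  · have h3 : a + y ∉ W := by
      intro h4
      apply haW
      have h5 := W.sub_mem h4 hy
      rwa [add_sub_cancel_right] at h5
    have h4 := key (a + y) h3 w hw
    rw [map_add, LinearMap.add_apply, key a haW w hw, zero_add] at h4
    rw [hB.symm]
    exact h4
  · rw [hB.symm]
    exact key y hy w hw

/-- A linear map all of whose values are multiples of the argument is a scalar. -/
lemma scalar_of_eigen {T : V →ₗ[F] V} (hT : ∀ x, ∃ c : F, T x = c • x) :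
    ∃ c : F, ∀ x, T x = c • x := by
  by_cases hV : ∃ e : V, e ≠ 0
  · obtain ⟨e, he⟩ := hV
    obtain ⟨l, hl⟩ := hT e
    refine ⟨l, fun y => ?_⟩
    obtain ⟨μ, hμ⟩ := hT y
    by_contra hcon
    have hne : μ - l ≠ 0 := by
      intro h0
      apply hcon
      rw [hμ, sub_eq_zero.1 h0]
    have hy : y ≠ 0 := by
      rintro rfl
      apply hcon
      rw [map_zero, smul_zero]
    obtain ⟨ν, hν⟩ := hT (e + y)
    rw [map_add, hl, hμ, smul_add] at hν
    have h1 : (ν - l) • e = (μ - ν) • y := by
      rw [sub_smul, sub_smul, sub_eq_sub_iff_add_eq_add, ← hν]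
      abel
    by_cases hνl : ν - l = 0
    · rw [hνl, zero_smul] at h1
      rcases smul_eq_zero.1 h1.symm with h3 | h3
      · apply hne
        rw [sub_eq_zero] at h3 hνl
        rw [h3, hνl, sub_self]
      · exact hy h3
    · have h4 : e = ((ν - l)⁻¹ * (μ - ν)) • y := by
        rw [mul_smul, ← h1, smul_smul, inv_mul_cancel₀ hνl, one_smul]
      have h5 : T e = μ • e := by
        rw [h4, map_smul, hμ, smul_comm]
      rw [hl] at h5
      have h6 : (μ - l) • e = 0 := by rw [sub_smul, h5, sub_self]
      rcases smul_eq_zero.1 h6 with h7 | h7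
      · exact hne h7
      · exact he h7
  · push Not at hV
    exact ⟨0, fun x => by rw [hV x, map_zero, smul_zero]⟩

variable [Fintype F] [Fintype V] [DecidableEq V]

/-- If the periods are zero, the form `b` behind the polar form is a multiple of `B`. -/
theorem SG.mult (h : SG f P) (hB : SympF B)
    (sim : ∀ g t σ, P g t σ → ∃ c : F, c ≠ 0 ∧ ∀ x y, B (g x) (g y) = c * σ (B x y))
    {β : V → V → ZMod 2}
    (hβ : ∀ x a b, f (x + a + b) + f (x + a) + f (x + b) + f x = β a b)
    (hnd : ∀ a, (∀ b, β a b = 0) → a = 0)
    (hlt : (univ.filter (fun x => f x = 1)).card < (univ.filter (fun x => f x = 0)).card)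
    {p : V} (hp : f p = 1) (b : V →ₗ[F] V →ₗ[F] F) (halt : ∀ x, b x x = 0)
    (tr : F → ZMod 2) (hb : ∀ x y, β x y = tr (b x y)) (htr0 : tr 0 = 0)
    (hbσ : ∀ g t σ, P g t σ → ∀ x y, b (g x) (g y) = σ (b x y))
    (hF : Fintype.card F = 2 ∨ Fintype.card F = 4) :
    ∃ c : F, c ≠ 0 ∧ ∀ x y, b x y = c * B x y := by
  classical
  have h2 : ∀ x : V, x + x = 0 := add_self_of_char F V
  have hbsym : ∀ x y, b x y = b y x := by
    intro x y
    have h3 := halt (x + y)
    simp only [map_add, LinearMap.add_apply, halt, zero_add, add_zero] at h3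
    exact fne (by rw [add_comm]; exact h3)
  have hbnd : ∀ x, (∀ y, b x y = 0) → x = 0 := by
    intro x hx
    apply hnd
    intro y
    rw [hb, hx, htr0]
  -- `B` as an isomorphism onto the dual space
  have hBinj : Function.Injective B := by
    rw [injective_iff_map_eq_zero]
    intro x hx
    apply hB.nd
    intro y
    rw [hx, LinearMap.zero_apply]
  have hfr : Module.finrank F V = Module.finrank F (Module.Dual F V) :=
    (Subspace.dual_finrank_eq).symm
  let E : V ≃ₗ[F] Module.Dual F V := LinearEquiv.ofInjectiveOfFinrankEq B hBinj hfr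
  let T : V →ₗ[F] V := (E.symm : Module.Dual F V →ₗ[F] V).comp b
  have hT : ∀ x y, B (T x) y = b x y := by
    intro x y
    have h3 : E (E.symm (b x)) = b x := E.apply_symm_apply _
    exact congrArg (fun ψ : Module.Dual F V => ψ y) h3
  have hBext : ∀ x y, (∀ z, B x z = B y z) → x = y := by
    intro x y h3
    apply hBinj
    ext z
    exact h3 z
  have hTB : ∀ x y, B (T x) y = B x (T y) := by
    intro x y
    rw [hT, hbsym, ← hT, hB.symm]
  have hTb : ∀ x y, b (T x) y = b x (T y) := by
    intro x y
    rw [← hT, hTB, ← hT, hTB]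
  have hTinj : Function.Injective T := by
    rw [injective_iff_map_eq_zero]
    intro x hx
    apply hbnd
    intro y
    rw [← hT, hx, map_zero, LinearMap.zero_apply]
  -- commutation up to a scalar
  have hTg : ∀ g t σ, P g t σ → ∃ c : F, c ≠ 0 ∧ ∀ x, c • T (g x) = g (T x) := by
    intro g t σ hg
    obtain ⟨c, hc0, hc⟩ := sim g t σ hg
    refine ⟨c, hc0, fun x => ?_⟩
    apply hBext
    intro z
    obtain ⟨y, rfl⟩ := g.surjective z
    rw [map_smul, LinearMap.smul_apply, smul_eq_mul, hT, hbσ g t σ hg, hc, hT]
  -- some power of `T` commutes with all `g`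
  have hsolve : (∀ x, T x = x) ∨ (Fintype.card F = 4 ∧ ∀ x, T (T (T x)) = x) := by
    rcases hF with hF | hF
    · left
      apply h.comm_id h2 hβ hnd hlt hp (S := T) (fun a b => map_add T a b) hTinj
      · intro x y
        rw [hb, hb, hTb]
      · intro g t σ hg x
        obtain ⟨c, hc0, hc⟩ := hTg g t σ hg
        have hc1 : c = 1 := by
          have h3 := FiniteField.pow_card_sub_one_eq_one c hc0
          rw [hF] at h3
          simpa using h3
        rw [← hc, hc1, one_smul]
    · right
      refine ⟨hF, ?_⟩
      apply h.comm_id h2 hβ hnd hlt hp (S := fun x => T (T (T x)))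
        (fun a b => by rw [map_add, map_add, map_add]) (hTinj.comp (hTinj.comp hTinj))
      · intro x y
        rw [hb, hb, hTb, hTb, hTb]
      · intro g t σ hg x
        obtain ⟨c, hc0, hc⟩ := hTg g t σ hg
        have hc3 : c * (c * c) = 1 := by
          have h3 := FiniteField.pow_card_sub_one_eq_one c hc0
          rw [hF] at h3
          rw [← h3]
          ring
        have h4 : ∀ y, T (g y) = (c * c) • g (T y) := by
          intro y
          rw [← hc, smul_smul]
          have : c * c * c = 1 := by rw [← hc3]; ring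
          rw [this, one_smul]
        change T (T (T (g x))) = g (T (T (T x)))
        rw [h4, map_smul, h4, map_smul, map_smul, h4, smul_smul, smul_smul]
        have h5 : c * c * (c * c * (c * c)) = 1 := by
          calc c * c * (c * c * (c * c)) = (c * (c * c)) * (c * (c * c)) := by ring
            _ = 1 := by rw [hc3, one_mul]
        rw [← mul_assoc] at h5
        first
          | rw [h5, one_smul]
          | (rw [show c * c * (c * c) * (c * c) = 1 from h5, one_smul])
  -- `T` is a scalar
  have hscal : ∃ c : F, ∀ x, T x = c • x := by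
    rcases hsolve with h3 | ⟨hF4, h3⟩
    · exact ⟨1, fun x => by rw [h3, one_smul]⟩
    · apply scalar_of_eigen
      intro y
      by_cases hy : y = 0
      · exact ⟨0, by rw [hy, map_zero, smul_zero]⟩
      -- an eigenvector
      obtain ⟨w, hw⟩ : ∃ w : F, w ^ 2 + w + 1 = 0 := by
        obtain ⟨w, hw0, hw1⟩ : ∃ w : F, w ≠ 0 ∧ w ≠ 1 := by
          by_contra hcon
          push Not at hcon
          have h4 : (univ : Finset F) ⊆ {0, 1} := by
            intro w _
            rw [mem_insert, mem_singleton]
            by_cases h5 : w = 0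
            · exact Or.inl h5
            · exact Or.inr (hcon w h5)
          have h5 := Finset.card_le_card h4
          rw [Finset.card_univ, hF4] at h5
          have h6 : ({0, 1} : Finset F).card ≤ 2 := Finset.card_le_two
          omega
        refine ⟨w, ?_⟩
        have h4 := FiniteField.pow_card_sub_one_eq_one w hw0
        rw [hF4] at h4
        have h5 : (w - 1) * (w ^ 2 + w + 1) = 0 := by
          have : w ^ 3 = 1 := h4
          linear_combination this
        rcases mul_eq_zero.1 h5 with h6 | h6
        · exact absurd (sub_eq_zero.1 h6) hw1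
        · exact h6
      have hex : ∃ (l : F) (e : V), e ≠ 0 ∧ T e = l • e := by
        by_cases h4 : T y - w • y = 0
        · exact ⟨w, y, hy, sub_eq_zero.1 h4⟩
        by_cases h5 : T (T y - w • y) - (w ^ 2) • (T y - w • y) = 0
        · exact ⟨w ^ 2, _, h4, sub_eq_zero.1 h5⟩
        refine ⟨1, _, h5, ?_⟩
        have h6 : T (T (T y - w • y) - (w ^ 2) • (T y - w • y)) -
            (T (T y - w • y) - (w ^ 2) • (T y - w • y)) =
            T (T (T y)) - (w ^ 2 + w + 1) • T (T y) + (w * (w ^ 2 + w + 1)) • T y -
              (w ^ 3) • y := by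
          simp only [map_sub, map_smul, smul_sub]
          module
        rw [h3, hw, zero_smul, mul_zero, zero_smul, sub_zero, add_zero] at h6
        have h7 : w ^ 3 = 1 := by
          have : (w - 1) * (w ^ 2 + w + 1) = w ^ 3 - 1 := by ring
          rw [hw, mul_zero] at this
          exact (sub_eq_zero.1 this.symm)
        rw [h7, one_smul, sub_self] at h6
        rw [one_smul]
        exact sub_eq_zero.1 h6
      obtain ⟨l, e, he, hTe⟩ := hex
      have hper : ∀ {b : V}, b ≠ 0 → ∃ x, f (x + b) ≠ f x := by
        intro b hb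
        by_contra hcon
        push Not at hcon
        apply hb
        apply hnd
        intro y
        have h5 : (0 : V) + b + y = 0 + y + b := by abel
        rw [← hβ 0 b y, h5, hcon, hcon]
        linear_combination (f (0 + y) + f 0) * (by rfl : (2 : ZMod 2) = 0)
      obtain ⟨g, t, σ, hg, h4⟩ := h.lin_trans h2 (hper he) (hper hy)
      obtain ⟨c, hc0, hc⟩ := hTg g t σ hg
      refine ⟨c⁻¹ * σ l, ?_⟩
      have h5 := hc e
      rw [h4, hTe, h.semi hg, h4] at h5
      rw [mul_smul, ← h5, smul_smul, inv_mul_cancel₀ hc0, one_smul]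
  obtain ⟨c, hc⟩ := hscal
  refine ⟨c, ?_, fun x y => ?_⟩
  · rintro rfl
    -- `T = 0` and `T` injective: `V` is trivial, but `f` takes the value 1 at fewer points than 0
    have h3 : ∀ x : V, x = 0 := by
      intro x
      apply hTinj
      rw [hc, hc, zero_smul, zero_smul]
    have h4 : (univ.filter (fun x => f x = 0)).card = 0 := by
      rw [Finset.card_eq_zero, Finset.filter_eq_empty_iff]
      intro x _
      rw [h3 x, ← h3 p, hp]
      decide
    omega
  · rw [← hT, hc, map_smul, LinearMap.smul_apply, smul_eq_mul]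

end

end Pool.Agent.SIT
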