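import Pool.Agent.SIT.Existence
import Pool.Agent.SIT.SpFlat

/-!
# The affine symplectic group `ASp(2r, 2)` and its codes: definitions
-/

namespace Pool.Agent.SIT

open Finset

/-- The symplectic form `x₀y₁ + x₁y₀ + x₂y₃ + x₃y₂ + ⋯` on `F_2^(2r)`. -/
def sf (r : ℕ) (x y : Vec (2 * r)) : ZMod 2 :=
  ∑ i : Fin r, (x ⟨2 * i.1, by omega⟩ * y ⟨2 * i.1 + 1, by omega⟩ +
    x ⟨2 * i.1 + 1, by omega⟩ * y ⟨2 * i.1, by omega⟩)

/-- The affine symplectic group: all affine permutations whose linear part `x ↦ g x + g 0`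
preserves the form `sf`. -/
def ASp (r : ℕ) : Subgroup (AGL (2 * r)) where
  carrier := {g | ∀ x y, sf r (g x + g 0) (g y + g 0) = sf r x y}
  one_mem' := by
    intro x y
    change sf r (x + 0) (y + 0) = sf r x y
    rw [add_zero, add_zero]
  mul_mem' := by
    intro g h hg hh x y
    change sf r (g (h x) + g (h 0)) (g (h y) + g (h 0)) = sf r x y
    have key : ∀ z, g (h z) + g (h 0) = g (h z + h 0) + g 0 := by
      intro z
      have h1 := agl_add_three g (h z) (h 0) 0
      rw [add_zero] at h1
      rw [h1]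
      have := add_self' (g 0)
      calc g (h z) + g (h 0) = g (h z) + g (h 0) + (g 0 + g 0) := by rw [this, add_zero]
        _ = _ := by abel
    rw [key, key, hg, hh]
  inv_mem' := by
    intro g hg x y
    change sf r (g.symm x + g.symm 0) (g.symm y + g.symm 0) = sf r x y
    have key : ∀ z, g (g.symm z + g.symm 0) + g 0 = z := by
      intro z
      have h1 := agl_add_three g (g.symm z) (g.symm 0) 0
      rw [add_zero, g.apply_symm_apply, g.apply_symm_apply, add_zero] at h1
      rw [h1, add_add_self]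
    rw [← hg, key, key]

/-- All `d`-dimensional affine subspaces whose direction contains its orthogonal. -/
def CoisoFlatCode (r d : ℕ) : Set (Finset (Vec (2 * r))) :=
  {γ | ∃ A : AffineSubspace (ZMod 2) (Vec (2 * r)),
    (γ : Set (Vec (2 * r))) = (A : Set (Vec (2 * r))) ∧ Module.finrank (ZMod 2) A.direction = d ∧
      ∀ a, (∀ w ∈ A.direction, sf r a w = 0) → a ∈ A.direction}

/-- The translation by `b` maps `γ` to itself. -/
def IsPeriod {n : ℕ} (γ : Finset (Vec n)) (b : Vec n) : Prop := ∀ x, x + b ∈ γ ↔ x ∈ γ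

/-- All images `γ` of the quadric `x₀ x₁ + ⋯ + x_{2m-2} x_{2m-1} = 1` under `AGL(2r, 2)` for which
the space of the periods of `γ` contains its orthogonal. -/
def CoisoQuadricCode {r m : ℕ} (h : 2 * m ≤ 2 * r) : Set (Finset (Vec (2 * r))) :=
  {γ | γ ∈ QuadricCode h ∧ ∀ a, (∀ b, IsPeriod γ b → sf r a b = 0) → IsPeriod γ a}

/-- All images `γ` of the quadric `x₀ x₁ + ⋯ + x_{2r-2} x_{2r-1} = 1` under `AGL(2r, 2)` with polar
form `sf`: the sum of the indicator function of `γ` over `x, x + a, x + b, x + a + b` is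
`sf r a b`. -/
def SympDesign (r : ℕ) : Set (Finset (Vec (2 * r))) :=
  {γ | γ ∈ QuadricCode (le_refl (2 * r)) ∧
    ∀ a b x, (if x + a + b ∈ γ then 1 else 0) + (if x + a ∈ γ then 1 else 0) +
      (if x + b ∈ γ then 1 else 0) + (if x ∈ γ then 1 else 0) = sf r a b}

/-- `sf` as a bilinear form -/
def sfB (r : ℕ) : LinearMap.BilinForm (ZMod 2) (Vec (2 * r)) :=
  LinearMap.mk₂ (ZMod 2) (sf r)
    (fun x x' y => by
      simp only [sf, Pi.add_apply, add_mul, ← Finset.sum_add_distrib]
      exact Finset.sum_congr rfl fun i _ => by ring)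
    (fun c x y => by
      simp only [sf, Pi.smul_apply, smul_eq_mul, Finset.mul_sum]
      exact Finset.sum_congr rfl fun i _ => by ring)
    (fun x y y' => by
      simp only [sf, Pi.add_apply, mul_add, ← Finset.sum_add_distrib]
      exact Finset.sum_congr rfl fun i _ => by ring)
    (fun c x y => by
      simp only [sf, Pi.smul_apply, smul_eq_mul, Finset.mul_sum]
      exact Finset.sum_congr rfl fun i _ => by ring)

lemma sfB_apply (r : ℕ) (x y : Vec (2 * r)) : sfB r x y = sf r x y := rfl

lemma sf_single_odd (r : ℕ) (x : Vec (2 * r)) (i : Fin r) :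
    sf r x (Pi.single ⟨2 * i.1 + 1, by omega⟩ 1) = x ⟨2 * i.1, by omega⟩ := by
  rw [sf, Finset.sum_eq_single i]
  · rw [Pi.single_eq_same, Pi.single_eq_of_ne, mul_one, mul_zero, add_zero]
    intro h
    have := congrArg Fin.val h
    simp only at this
    omega
  · intro j _ hj
    have h2 : (⟨2 * j.1 + 1, by omega⟩ : Fin (2 * r)) ≠ ⟨2 * i.1 + 1, by omega⟩ := by
      intro h'
      apply hj
      apply Fin.ext
      have := congrArg Fin.val h'
      simp only at this
      omega
    have h3 : (⟨2 * j.1, by omega⟩ : Fin (2 * r)) ≠ ⟨2 * i.1 + 1, by omega⟩ := by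
      intro h'
      have := congrArg Fin.val h'
      simp only at this
      omega
    rw [Pi.single_eq_of_ne h2, Pi.single_eq_of_ne h3, mul_zero, mul_zero, add_zero]
  · intro hi
    exact absurd (mem_univ i) hi

lemma sf_single_even (r : ℕ) (x : Vec (2 * r)) (i : Fin r) :
    sf r x (Pi.single ⟨2 * i.1, by omega⟩ 1) = x ⟨2 * i.1 + 1, by omega⟩ := by
  rw [sf, Finset.sum_eq_single i]
  · rw [Pi.single_eq_same, Pi.single_eq_of_ne, mul_one, mul_zero, zero_add]
    intro h
    have := congrArg Fin.val h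
    simp only at this
    omega
  · intro j _ hj
    have h2 : (⟨2 * j.1, by omega⟩ : Fin (2 * r)) ≠ ⟨2 * i.1, by omega⟩ := by
      intro h'
      apply hj
      apply Fin.ext
      have := congrArg Fin.val h'
      simp only at this
      omega
    have h3 : (⟨2 * j.1 + 1, by omega⟩ : Fin (2 * r)) ≠ ⟨2 * i.1, by omega⟩ := by
      intro h'
      have := congrArg Fin.val h'
      simp only at this
      omega
    rw [Pi.single_eq_of_ne h2, Pi.single_eq_of_ne h3, mul_zero, mul_zero, add_zero]
  · intro hi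
    exact absurd (mem_univ i) hi

lemma symp_sf (r : ℕ) : Symp (sfB r) := by
  constructor
  · intro x
    change sf r x x = 0
    rw [sf]
    refine Finset.sum_eq_zero fun i _ => ?_
    rw [mul_comm (x ⟨2 * i.1 + 1, by omega⟩)]
    exact z2_add_self _
  · intro x hx
    funext j
    rcases Nat.even_or_odd' j.1 with ⟨c, hc | hc⟩
    · have h1 := hx (Pi.single ⟨2 * c + 1, by omega⟩ 1)
      have h2 := sf_single_odd r x ⟨c, by omega⟩
      have h3 : j = ⟨2 * c, by omega⟩ := Fin.ext hc
      rw [h3]
      exact h2.symm.trans h1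
    · have h1 := hx (Pi.single ⟨2 * c, by omega⟩ 1)
      have h2 := sf_single_even r x ⟨c, by omega⟩
      have h3 : j = ⟨2 * c + 1, by omega⟩ := Fin.ext hc
      rw [h3]
      exact h2.symm.trans h1

lemma mem_ASp {r : ℕ} {g : AGL (2 * r)} : g ∈ ASp r ↔ PB (sfB r) g := by
  constructor
  · intro h x y
    rw [agl_linear', agl_linear']
    exact h x y
  · intro h x y
    have := h x y
    rw [agl_linear', agl_linear'] at this
    exact this

/-- `ASp(2r, 2)` is 2-transitive -/
theorem twoTransitive_ASp (r : ℕ) : IsTwoTransitive (ASp r) := by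
  intro x y x' y' hxy hxy'
  have h1 : x + y ∉ (⊥ : Submodule (ZMod 2) (Vec (2 * r))) := by
    rw [Submodule.mem_bot]
    intro h
    apply hxy
    rw [← add_add_self x y, h, zero_add]
  have h2 : x' + y' ∉ (⊥ : Submodule (ZMod 2) (Vec (2 * r))) := by
    rw [Submodule.mem_bot]
    intro h
    apply hxy'
    rw [← add_add_self x' y', h, zero_add]
  obtain ⟨g, hg, -, hgx⟩ := sp_move (symp_sf r) h1 h2 (by
    intro d hd
    rw [(Submodule.mem_bot _).1 hd, map_zero]) (by
    intro d hd
    rw [(Submodule.mem_bot _).1 hd, map_zero])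
  refine ⟨((AffineEquiv.constVAdd (ZMod 2) (Vec (2 * r)) x).trans g.toAffineEquiv).trans
    (AffineEquiv.constVAdd (ZMod 2) (Vec (2 * r)) x'), ?_, ?_, ?_⟩
  · rw [mem_ASp]
    exact ((PB_trans (sfB r) x).trans hg.affine).trans (PB_trans (sfB r) x')
  · change x' + g (x + x) = x'
    rw [add_self', map_zero, add_zero]
  · change x' + g (x + y) = y'
    rw [hgx, self_add_add]

end Pool.Agent.SIT
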