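import Pool.Agent.SIT.SpIdx

/-!
# The group `2^4 : A_6`
-/

namespace Pool.Agent.SIT

open Finset

/-- The six points of the quadric `x₀ x₁ + x₂ x₃ = 1` in `F_2^4`. -/
def sixPt : Fin 6 → Vec (2 * 2) :=
  ![![1, 1, 0, 0], ![1, 1, 1, 0], ![1, 1, 0, 1], ![0, 0, 1, 1], ![1, 0, 1, 1], ![0, 1, 1, 1]]

/-- The group `2^4 : A_6`: all affine permutations of `F_2^4` that map the six points `sixPt`,
by an even permutation, onto a translate of them. -/
def AffA6 : Subgroup (AGL (2 * 2)) where
  carrier := {g | ∃ t : Vec (2 * 2), ∃ σ ∈ alternatingGroup (Fin 6),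
    ∀ i, g (sixPt i) = sixPt (σ i) + t}
  one_mem' := ⟨0, 1, Subgroup.one_mem _, fun i => by
    rw [Equiv.Perm.one_apply, add_zero]
    rfl⟩
  mul_mem' := by
    rintro g h ⟨t, σ, hσ, hg⟩ ⟨s, τ, hτ, hh⟩
    refine ⟨t + g.linear s, σ * τ, Subgroup.mul_mem _ hσ hτ, fun i => ?_⟩
    change g (h (sixPt i)) = _
    rw [hh, Idx.agl_add, hg, Equiv.Perm.mul_apply, add_assoc]
  inv_mem' := by
    rintro g ⟨t, σ, hσ, hg⟩
    refine ⟨g.symm.linear t, σ⁻¹, Subgroup.inv_mem _ hσ, fun i => ?_⟩
    change g.symm (sixPt i) = _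
    have h1 := hg (σ⁻¹ i)
    have h3 : σ (σ⁻¹ i) = i := σ.apply_symm_apply i
    rw [h3] at h1
    have h2 : sixPt i = g (sixPt (σ⁻¹ i)) + t := by rw [h1, add_add_self]
    rw [h2, Idx.agl_add, g.symm_apply_apply]

namespace A6

/-- the form -/
abbrev Q (x : Vec (2 * 2)) : ZMod 2 := quadForm (le_refl (2 * 2)) x

lemma Q_add (x a : Vec (2 * 2)) : Q (x + a) = Q x + Q a + sf 2 a x := by
  have h := quadForm_polar (le_refl (2 * 2)) x a
  have h1 : sf 2 a x = (∑ i : Fin 2, (a ⟨2 * i.1 + 1, by omega⟩ * x ⟨2 * i.1, by omega⟩ +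
        a ⟨2 * i.1, by omega⟩ * x ⟨2 * i.1 + 1, by omega⟩)) := by
    rw [sf]
    exact Finset.sum_congr rfl fun i _ => by ring
  rw [← h1] at h
  have h2 := z2_add_self (quadForm (le_refl (2 * 2)) x)
  linear_combination h - h2

lemma Q_sixPt (i : Fin 6) : Q (sixPt i) = 1 := by
  revert i
  decide +kernel

lemma exists_sixPt (x : Vec (2 * 2)) (hx : Q x = 1) : ∃ i, x = sixPt i := by
  revert x
  decide +kernel

lemma sixPt_inj : Function.Injective sixPt := by
  decide +kernel

lemma card_Q_one : (univ.filter (fun x : Vec (2 * 2) => Q x = 1)).card = 6 := by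
  decide +kernel

lemma card_Q_zero : (univ.filter (fun x : Vec (2 * 2) => Q x = 0)).card = 10 := by
  decide +kernel

lemma swap_transvection : ∀ (b : Vec (2 * 2)), b ≠ 0 → ∀ c : ZMod 2, ∃ i j : Fin 6, i ≠ j ∧
    ∃ e : ZMod 2, ∀ k, sixPt k + (sf 2 b (sixPt k) + c) • b = sixPt (Equiv.swap i j k) + e • b := by
  decide +kernel

/-- an affine permutation mapping the six points into a translate of them -/
lemma Q_of_maps {g : AGL (2 * 2)} {t : Vec (2 * 2)} (h : ∀ i, ∃ j, g (sixPt i) = sixPt j + t)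
    (x : Vec (2 * 2)) : Q (g x + t) = Q x := by
  classical
  have hmaps : ∀ x, Q x = 1 → Q (g x + t) = 1 := by
    intro x hx
    obtain ⟨i, rfl⟩ := exists_sixPt x hx
    obtain ⟨j, hj⟩ := h i
    rw [hj, add_add_self, Q_sixPt]
  have hinj : Function.Injective (fun x => g x + t) := by
    intro x y hxy
    exact g.injective (add_right_cancel hxy)
  have himg : (univ.filter (fun x : Vec (2 * 2) => Q x = 1)).image (fun x => g x + t) =
      univ.filter (fun x : Vec (2 * 2) => Q x = 1) := by
    apply Finset.eq_of_subset_of_card_le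
    · intro y hy
      rw [mem_image] at hy
      obtain ⟨x, hx, rfl⟩ := hy
      rw [mem_filter] at hx ⊢
      exact ⟨mem_univ _, hmaps x hx.2⟩
    · rw [Finset.card_image_of_injective _ hinj]
  rcases zmod2_cases (Q x) with h0 | h1
  · rw [h0]
    rcases zmod2_cases (Q (g x + t)) with h2 | h2
    · exact h2
    · exfalso
      have h3 : g x + t ∈ univ.filter (fun x : Vec (2 * 2) => Q x = 1) := by
        rw [mem_filter]
        exact ⟨mem_univ _, h2⟩
      rw [← himg, mem_image] at h3
      obtain ⟨y, hy, hxy⟩ := h3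
      rw [mem_filter] at hy
      rw [hinj hxy, h0] at hy
      exact absurd hy.2 (by decide)
  · rw [h1]
    exact hmaps x h1

lemma Q_pol (p a b : Vec (2 * 2)) :
    Q (p + a + b) + Q (p + a) + Q (p + b) + Q p = sf 2 a b := by
  have h1 : sf 2 b (p + a) = sf 2 b p + sf 2 b a := map_add (sfB 2 b) p a
  have h8 : sf 2 b a = sf 2 a b := (symp_sf 2).symm b a
  rw [Q_add (p + a) b, Q_add p b, h1, h8]
  have h2 := z2_add_self (Q (p + a))
  have h3 := z2_add_self (Q p)
  have h6 := z2_add_self (Q b)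
  have h7 := z2_add_self (sf 2 b p)
  linear_combination h2 + h3 + h6 + h7

lemma PB_of_Q {g : AGL (2 * 2)} {t : Vec (2 * 2)} (h : ∀ x, Q (g x + t) = Q x) :
    PB (sfB 2) g := by
  intro a b
  change sf 2 (g.linear a) (g.linear b) = sf 2 a b
  have h4 : ∀ x a, Q (g x + t + g.linear a) = Q (x + a) := by
    intro x a
    rw [← h (x + a), Idx.agl_add]
    congr 1
    abel
  rw [← Q_pol (g 0 + t), ← Q_pol 0 a b, h4 0 a, h4 0 b, h, add_assoc (g 0 + t), ← map_add, h4 0,
    ← add_assoc]

lemma Q_of_PB {g : AGL (2 * 2)} (hg : PB (sfB 2) g) : ∃ t, ∀ x, Q (g x + t) = Q x := by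
  have hg' : ∀ x y, sf 2 (g.linear x) (g.linear y) = sf 2 x y := hg
  -- the functional `Q (L x) + Q x`
  let ψ : Module.Dual (ZMod 2) (Vec (2 * 2)) := AddMonoidHom.toZModLinearMap 2
    { toFun := fun x => Q (g.linear x) + Q x
      map_zero' := by
        rw [map_zero]
        exact z2_add_self _
      map_add' := by
        intro x y
        rw [map_add, Q_add, Q_add, hg']
        have h7 := z2_add_self (sf 2 y x)
        linear_combination h7 }
  obtain ⟨z, hz⟩ := exists_repr (symp_sf 2) ψ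
  have hz' : ∀ x, sf 2 z x = Q (g.linear x) + Q x := hz
  have hc : ∀ x, Q (g x + (g.linear z + g 0)) = Q x + Q (g.linear z) := by
    intro x
    have h1 : g x + (g.linear z + g 0) = g.linear x + g.linear z := by
      rw [agl_linear g x]
      calc g.linear x + g 0 + (g.linear z + g 0) = g.linear x + g.linear z + (g 0 + g 0) := by
            abel
        _ = _ := by rw [add_self', add_zero]
    rw [h1, Q_add, hg', hz']
    have h2 := z2_add_self (Q (g.linear x))
    linear_combination h2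
  refine ⟨g.linear z + g 0, fun x => ?_⟩
  rcases zmod2_cases (Q (g.linear z)) with h0 | h0
  · rw [hc, h0, add_zero]
  · exfalso
    have hinj : Function.Injective (fun x => g x + (g.linear z + g 0)) := by
      intro x y hxy
      exact g.injective (add_right_cancel hxy)
    have hle : (univ.filter (fun x : Vec (2 * 2) => Q x = 0)).card ≤
        (univ.filter (fun x : Vec (2 * 2) => Q x = 1)).card := by
      apply Finset.card_le_card_of_injOn (fun x => g x + (g.linear z + g 0))
      · intro x hx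
        simp only [coe_filter, mem_univ, true_and, Set.mem_ofPred_eq] at hx ⊢
        rw [hc, h0, hx, zero_add]
      · exact hinj.injOn
    rw [card_Q_zero, card_Q_one] at hle
    omega

lemma perm_of_Q {g : AGL (2 * 2)} {t : Vec (2 * 2)} (h : ∀ x, Q (g x + t) = Q x) :
    ∃ σ : Equiv.Perm (Fin 6), ∀ i, g (sixPt i) = sixPt (σ i) + t := by
  have h1 : ∀ i, ∃ j, g (sixPt i) + t = sixPt j := by
    intro i
    apply exists_sixPt
    rw [h, Q_sixPt]
  choose f hf using h1
  have hinj : Function.Injective f := by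
    intro i j hij
    have h2 := hf i
    rw [hij, ← hf j] at h2
    exact sixPt_inj (g.injective (add_right_cancel h2))
  refine ⟨Equiv.ofBijective f (Finite.injective_iff_bijective.1 hinj), fun i => ?_⟩
  rw [Equiv.ofBijective_apply, ← hf, add_add_self]

theorem half : Idx.HalfASp 2 AffA6 := by
  constructor
  · rintro g ⟨t, σ, -, hg⟩
    exact PB_of_Q (Q_of_maps fun i => ⟨σ i, hg i⟩)
  · intro g hg b hb c
    obtain ⟨t, ht⟩ := Q_of_PB hg
    obtain ⟨σ, hσ⟩ := perm_of_Q ht
    obtain ⟨i, j, hij, e, he⟩ := swap_transvection b hb c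
    rcases Int.units_eq_one_or (Equiv.Perm.sign σ) with hs | hs
    · left
      exact ⟨t, σ, hs, hσ⟩
    · right
      refine ⟨t + g.linear (e • b), σ * Equiv.swap i j, ?_, fun k => ?_⟩
      · rw [Equiv.Perm.mem_alternatingGroup, Equiv.Perm.sign_mul, hs, Equiv.Perm.sign_swap hij]
        decide
      · change g (tauA (symp_sf 2) b c (sixPt k)) = _
        rw [tauA_apply, sfB_apply, he, Idx.agl_add, hσ, Equiv.Perm.mul_apply, add_assoc]

end A6

/-- `2^4 : A_6` is 2-transitive. -/
theorem twoTransitive_A6 : IsTwoTransitive AffA6 := Idx.half_twoTransitive A6.half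

/-- The strongly incidence-transitive codes of `2^4 : A_6` are those of `ASp(4, 2)`. -/
theorem sit_A6_iff {k : ℕ} {C : Set (Finset (Vec (2 * 2)))} (hk : 3 ≤ k) (hk' : k ≤ 8) :
    IsSITCode AffA6 k C ↔ IsSITCode (ASp 2) k C :=
  Idx.half_iff (le_refl 2) A6.half hk hk'

end Pool.Agent.SIT
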