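import Pool.Agent.SIT.SpHyp

/-!
# The group `2^4 : A₇` and its strongly incidence-transitive codes

Seven alternating bilinear forms on `F_2^4` whose pairwise sums are nondegenerate (a Kerdock set)
are permuted by a subgroup `A₇` of `GL(4,2) = A₈`.  `G7` is the group of affine permutations whose
linear part permutes the seven forms.
-/

namespace Pool.Agent.SIT.A7

open Finset

/-- `Bool` to `F_2`. -/
def bz (b : Bool) : ZMod 2 := if b then 1 else 0

lemma bz_xor (a b : Bool) : bz (a ^^ b) = bz a + bz b := by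
  revert a b; decide

lemma bz_and (a b : Bool) : bz (a && b) = bz a * bz b := by
  revert a b; decide

lemma bz_inj {a b : Bool} (h : bz a = bz b) : a = b := by
  revert a b; decide

lemma exists_bz (x : ZMod 2) : ∃ b, x = bz b := by
  revert x; decide

/-- The alternating form on `F_2^4` whose six coefficients are the binary digits of `c`
(order of the pairs: 01, 02, 03, 12, 13, 23). -/
def frm (c : ℕ) (x y : Vec 4) : ZMod 2 :=
  bz (c.testBit 0) * (x 0 * y 1 + x 1 * y 0) + bz (c.testBit 1) * (x 0 * y 2 + x 2 * y 0) +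
  bz (c.testBit 2) * (x 0 * y 3 + x 3 * y 0) + bz (c.testBit 3) * (x 1 * y 2 + x 2 * y 1) +
  bz (c.testBit 4) * (x 1 * y 3 + x 3 * y 1) + bz (c.testBit 5) * (x 2 * y 3 + x 3 * y 2)

/-- The seven forms. -/
def cf : Fin 7 → ℕ := ![12, 22, 27, 39, 41, 53, 58]

lemma frm_add_left (c : ℕ) (x x' y : Vec 4) : frm c (x + x') y = frm c x y + frm c x' y := by
  simp only [frm, Pi.add_apply]; ring

lemma frm_add_right (c : ℕ) (x y y' : Vec 4) : frm c x (y + y') = frm c x y + frm c x y' := by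
  simp only [frm, Pi.add_apply]; ring

lemma frm_smul_left (c : ℕ) (a : ZMod 2) (x y : Vec 4) : frm c (a • x) y = a * frm c x y := by
  simp only [frm, Pi.smul_apply, smul_eq_mul]; ring

lemma frm_smul_right (c : ℕ) (a : ZMod 2) (x y : Vec 4) : frm c x (a • y) = a * frm c x y := by
  simp only [frm, Pi.smul_apply, smul_eq_mul]; ring

lemma frm_symm (c : ℕ) (x y : Vec 4) : frm c x y = frm c y x := by
  simp only [frm]; ring

lemma two_eq : (2 : ZMod 2) = 0 := by decide

lemma frm_self (c : ℕ) (x : Vec 4) : frm c x x = 0 := by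
  have : frm c x x = 2 * (bz (c.testBit 0) * (x 0 * x 1) + bz (c.testBit 1) * (x 0 * x 2) +
    bz (c.testBit 2) * (x 0 * x 3) + bz (c.testBit 3) * (x 1 * x 2) +
    bz (c.testBit 4) * (x 1 * x 3) + bz (c.testBit 5) * (x 2 * x 3)) := by
    simp only [frm]; ring
  rw [this, two_eq, zero_mul]

lemma frm_zero_left (c : ℕ) (y : Vec 4) : frm c 0 y = 0 := by
  simp [frm]

/-- The vector with the binary digits of `n`. -/
def vc (n : ℕ) : Vec 4 := fun i => bz (n.testBit i)

lemma vc_zero : vc 0 = 0 := by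
  funext i
  simp [vc, bz]

lemma vc_xor (a b : ℕ) : vc (a ^^^ b) = vc a + vc b := by
  funext i
  simp [vc, Nat.testBit_xor, bz_xor]

lemma vc_surj (x : Vec 4) : ∃ n < 16, vc n = x := by
  obtain ⟨b0, h0⟩ := exists_bz (x 0)
  obtain ⟨b1, h1⟩ := exists_bz (x 1)
  obtain ⟨b2, h2⟩ := exists_bz (x 2)
  obtain ⟨b3, h3⟩ := exists_bz (x 3)
  have key : ∀ b0 b1 b2 b3 : Bool, ∃ n < 16, n.testBit 0 = b0 ∧ n.testBit 1 = b1 ∧
      n.testBit 2 = b2 ∧ n.testBit 3 = b3 := by decide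
  obtain ⟨n, hn, k0, k1, k2, k3⟩ := key b0 b1 b2 b3
  refine ⟨n, hn, ?_⟩
  funext i
  fin_cases i
  · simpa [vc, k0] using h0.symm
  · simpa [vc, k1] using h1.symm
  · simpa [vc, k2] using h2.symm
  · simpa [vc, k3] using h3.symm

lemma vc_inj {a b : ℕ} (ha : a < 16) (hb : b < 16) (h : vc a = vc b) : a = b := by
  have h0 := bz_inj (congrFun h 0)
  have h1 := bz_inj (congrFun h 1)
  have h2 := bz_inj (congrFun h 2)
  have h3 := bz_inj (congrFun h 3)
  apply Nat.eq_of_testBit_eq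
  intro i
  rcases Nat.lt_or_ge i 4 with hi | hi
  · interval_cases i <;> assumption
  · rw [Nat.testBit_lt_two_pow (lt_of_lt_of_le ha (by
      calc 16 = 2 ^ 4 := rfl
        _ ≤ 2 ^ i := Nat.pow_le_pow_right (by norm_num) hi)),
      Nat.testBit_lt_two_pow (lt_of_lt_of_le hb (by
      calc 16 = 2 ^ 4 := rfl
        _ ≤ 2 ^ i := Nat.pow_le_pow_right (by norm_num) hi))]

/-- Computable version of `frm`. -/
def tb (c x y : ℕ) : Bool :=
  (c.testBit 0 && ((x.testBit 0 && y.testBit 1) ^^ (x.testBit 1 && y.testBit 0))) ^^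
  (c.testBit 1 && ((x.testBit 0 && y.testBit 2) ^^ (x.testBit 2 && y.testBit 0))) ^^
  (c.testBit 2 && ((x.testBit 0 && y.testBit 3) ^^ (x.testBit 3 && y.testBit 0))) ^^
  (c.testBit 3 && ((x.testBit 1 && y.testBit 2) ^^ (x.testBit 2 && y.testBit 1))) ^^
  (c.testBit 4 && ((x.testBit 1 && y.testBit 3) ^^ (x.testBit 3 && y.testBit 1))) ^^
  (c.testBit 5 && ((x.testBit 2 && y.testBit 3) ^^ (x.testBit 3 && y.testBit 2)))

lemma frm_vc (c x y : ℕ) : frm c (vc x) (vc y) = bz (tb c x y) := by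
  simp only [frm, tb, vc, bz_xor, bz_and]
  simp only [Fin.val_zero, Fin.val_one, Fin.val_two]
  have : ((3 : Fin 4) : ℕ) = 3 := rfl
  rw [this]

/-- The columns of a `4 × 4` matrix, as numbers. -/
abbrev Cols : Type := ℕ × ℕ × ℕ × ℕ

/-- The image of a vector, on the level of numbers. -/
def ap (m : Cols) (n : ℕ) : ℕ :=
  (bif n.testBit 0 then m.1 else 0) ^^^ (bif n.testBit 1 then m.2.1 else 0) ^^^
  (bif n.testBit 2 then m.2.2.1 else 0) ^^^ (bif n.testBit 3 then m.2.2.2 else 0)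

/-- The linear map with the given columns. -/
def lm (m : Cols) : Vec 4 →ₗ[ZMod 2] Vec 4 where
  toFun x := x 0 • vc m.1 + x 1 • vc m.2.1 + x 2 • vc m.2.2.1 + x 3 • vc m.2.2.2
  map_add' x y := by
    simp only [Pi.add_apply, add_smul]; abel
  map_smul' a x := by
    simp only [Pi.smul_apply, smul_eq_mul, mul_smul, RingHom.id_apply, smul_add]

lemma vc_bif (b : Bool) (n : ℕ) : vc (bif b then n else 0) = bz b • vc n := by
  cases b
  · simp [vc_zero, bz]
  · simp [bz]

lemma lm_vc (m : Cols) (n : ℕ) : lm m (vc n) = vc (ap m n) := by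
  rw [ap, vc_xor, vc_xor, vc_xor, vc_bif, vc_bif, vc_bif, vc_bif]
  rfl

/-- A linear map pulls back an alternating form to the form with the values on the basis. -/
lemma frm_lin (c c' : ℕ) (v0 v1 v2 v3 : Vec 4)
    (h01 : frm c v0 v1 = bz (c'.testBit 0)) (h02 : frm c v0 v2 = bz (c'.testBit 1))
    (h03 : frm c v0 v3 = bz (c'.testBit 2)) (h12 : frm c v1 v2 = bz (c'.testBit 3))
    (h13 : frm c v1 v3 = bz (c'.testBit 4)) (h23 : frm c v2 v3 = bz (c'.testBit 5))
    (x y : Vec 4) :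
    frm c (x 0 • v0 + x 1 • v1 + x 2 • v2 + x 3 • v3)
      (y 0 • v0 + y 1 • v1 + y 2 • v2 + y 3 • v3) = frm c' x y := by
  simp only [frm_add_left, frm_add_right, frm_smul_left, frm_smul_right, frm_self]
  rw [frm_symm c v1 v0, frm_symm c v2 v0, frm_symm c v3 v0, frm_symm c v2 v1, frm_symm c v3 v1,
    frm_symm c v3 v2, h01, h02, h03, h12, h13, h23]
  simp only [frm]
  ring

/-- The code of the pulled back form. -/
def pull (c : ℕ) (m : Cols) : ℕ :=
  (bif tb c m.1 m.2.1 then 1 else 0) + (bif tb c m.1 m.2.2.1 then 2 else 0) +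
  (bif tb c m.1 m.2.2.2 then 4 else 0) + (bif tb c m.2.1 m.2.2.1 then 8 else 0) +
  (bif tb c m.2.1 m.2.2.2 then 16 else 0) + (bif tb c m.2.2.1 m.2.2.2 then 32 else 0)

lemma bits6 : ∀ b0 b1 b2 b3 b4 b5 : Bool,
    let n := (bif b0 then 1 else 0) + (bif b1 then 2 else 0) + (bif b2 then 4 else 0) +
      (bif b3 then 8 else 0) + (bif b4 then 16 else 0) + (bif b5 then 32 else 0)
    n < 64 ∧ n.testBit 0 = b0 ∧ n.testBit 1 = b1 ∧ n.testBit 2 = b2 ∧ n.testBit 3 = b3 ∧
      n.testBit 4 = b4 ∧ n.testBit 5 = b5 := by decide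

lemma frm_lm (c : ℕ) (m : Cols) (x y : Vec 4) :
    frm c (lm m x) (lm m y) = frm (pull c m) x y := by
  obtain ⟨-, k0, k1, k2, k3, k4, k5⟩ := bits6 (tb c m.1 m.2.1) (tb c m.1 m.2.2.1)
    (tb c m.1 m.2.2.2) (tb c m.2.1 m.2.2.1) (tb c m.2.1 m.2.2.2) (tb c m.2.2.1 m.2.2.2)
  apply frm_lin
  · rw [frm_vc]; exact congrArg bz k0.symm
  · rw [frm_vc]; exact congrArg bz k1.symm
  · rw [frm_vc]; exact congrArg bz k2.symm
  · rw [frm_vc]; exact congrArg bz k3.symm
  · rw [frm_vc]; exact congrArg bz k4.symm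
  · rw [frm_vc]; exact congrArg bz k5.symm

/-- The code is one of the seven. -/
def isM (c : ℕ) : Bool :=
  c == 12 || c == 22 || c == 27 || c == 39 || c == 41 || c == 53 || c == 58

/-- The map preserves the set of the seven forms. -/
def ok (m : Cols) : Bool :=
  isM (pull 12 m) && isM (pull 22 m) && isM (pull 27 m) && isM (pull 39 m) &&
  isM (pull 41 m) && isM (pull 53 m) && isM (pull 58 m)

lemma isM_cf {c : ℕ} (h : isM c = true) : ∃ j, cf j = c := by
  simp only [isM, Bool.or_eq_true, beq_iff_eq] at h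
  rcases h with (((((rfl | rfl) | rfl) | rfl) | rfl) | rfl) | rfl
  exacts [⟨0, rfl⟩, ⟨1, rfl⟩, ⟨2, rfl⟩, ⟨3, rfl⟩, ⟨4, rfl⟩, ⟨5, rfl⟩, ⟨6, rfl⟩]

lemma ok_pull {m : Cols} (h : ok m = true) (i : Fin 7) : isM (pull (cf i) m) = true := by
  simp only [ok, Bool.and_eq_true] at h
  obtain ⟨⟨⟨⟨⟨⟨h0, h1⟩, h2⟩, h3⟩, h4⟩, h5⟩, h6⟩ := h
  fin_cases i
  exacts [h0, h1, h2, h3, h4, h5, h6]

/-- The linear permutation `h` permutes the seven forms. -/
def PM (h : Vec 4 ≃ₗ[ZMod 2] Vec 4) : Prop :=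
  ∀ i, ∃ j, ∀ x y, frm (cf i) (h x) (h y) = frm (cf j) x y

lemma frm_basis (c : ℕ) : frm c (vc 1) (vc 2) = bz (c.testBit 0) ∧
    frm c (vc 1) (vc 4) = bz (c.testBit 1) ∧ frm c (vc 1) (vc 8) = bz (c.testBit 2) ∧
    frm c (vc 2) (vc 4) = bz (c.testBit 3) ∧ frm c (vc 2) (vc 8) = bz (c.testBit 4) ∧
    frm c (vc 4) (vc 8) = bz (c.testBit 5) := by
  have e1 : Nat.testBit 1 0 = true := rfl
  have e2 : Nat.testBit 1 1 = false := rfl
  have e3 : Nat.testBit 1 2 = false := rfl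
  have e4 : Nat.testBit 1 3 = false := rfl
  have f1 : Nat.testBit 2 0 = false := rfl
  have f2 : Nat.testBit 2 1 = true := rfl
  have f3 : Nat.testBit 2 2 = false := rfl
  have f4 : Nat.testBit 2 3 = false := rfl
  have g1 : Nat.testBit 4 0 = false := rfl
  have g2 : Nat.testBit 4 1 = false := rfl
  have g3 : Nat.testBit 4 2 = true := rfl
  have g4 : Nat.testBit 4 3 = false := rfl
  have k1 : Nat.testBit 8 0 = false := rfl
  have k2 : Nat.testBit 8 1 = false := rfl
  have k3 : Nat.testBit 8 2 = false := rfl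
  have k4 : Nat.testBit 8 3 = true := rfl
  simp only [frm_vc, tb, e1, e2, e3, e4, f1, f2, f3, f4, g1, g2, g3, g4, k1, k2, k3, k4]
  simp

lemma frm_code {c c' : ℕ} (hc : c < 64) (hc' : c' < 64) (h : ∀ x y, frm c x y = frm c' x y) :
    c = c' := by
  obtain ⟨a0, a1, a2, a3, a4, a5⟩ := frm_basis c
  obtain ⟨b0, b1, b2, b3, b4, b5⟩ := frm_basis c'
  have h0 := bz_inj ((a0.symm.trans (h _ _)).trans b0)
  have h1 := bz_inj ((a1.symm.trans (h _ _)).trans b1)
  have h2 := bz_inj ((a2.symm.trans (h _ _)).trans b2)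
  have h3 := bz_inj ((a3.symm.trans (h _ _)).trans b3)
  have h4 := bz_inj ((a4.symm.trans (h _ _)).trans b4)
  have h5 := bz_inj ((a5.symm.trans (h _ _)).trans b5)
  apply Nat.eq_of_testBit_eq
  intro i
  rcases Nat.lt_or_ge i 6 with hi | hi
  · interval_cases i <;> assumption
  · rw [Nat.testBit_lt_two_pow (lt_of_lt_of_le hc (by
      calc 64 = 2 ^ 6 := rfl
        _ ≤ 2 ^ i := Nat.pow_le_pow_right (by norm_num) hi)),
      Nat.testBit_lt_two_pow (lt_of_lt_of_le hc' (by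
      calc 64 = 2 ^ 6 := rfl
        _ ≤ 2 ^ i := Nat.pow_le_pow_right (by norm_num) hi))]

lemma cf_lt (i : Fin 7) : cf i < 64 := by
  revert i; decide

lemma cf_inj : Function.Injective cf := by
  intro i j
  revert i j; decide

lemma PM_refl : PM (LinearEquiv.refl (ZMod 2) (Vec 4)) := fun i => ⟨i, fun _ _ => rfl⟩

lemma PM_trans {g h : Vec 4 ≃ₗ[ZMod 2] Vec 4} (hg : PM g) (hh : PM h) : PM (g.trans h) := by
  intro i
  obtain ⟨j, hj⟩ := hh i
  obtain ⟨l, hl⟩ := hg j
  refine ⟨l, fun x y => ?_⟩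
  rw [← hl, ← hj]
  rfl

lemma PM_symm {h : Vec 4 ≃ₗ[ZMod 2] Vec 4} (hh : PM h) : PM h.symm := by
  choose σ hσ using hh
  have hinj : Function.Injective σ := by
    intro i i' hi
    apply cf_inj
    apply frm_code (cf_lt _) (cf_lt _)
    intro x y
    have h1 := hσ i (h.symm x) (h.symm y)
    have h2 := hσ i' (h.symm x) (h.symm y)
    rw [h.apply_symm_apply, h.apply_symm_apply] at h1 h2
    rw [h1, h2, hi]
  intro j
  obtain ⟨i, rfl⟩ := (Finite.injective_iff_surjective.1 hinj) j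
  refine ⟨i, fun x y => ?_⟩
  rw [← hσ, h.apply_symm_apply, h.apply_symm_apply]

/-- `2^4 : A₇`: the affine permutations of `F_2^4` whose linear part permutes the seven forms
`frm (cf i)`. -/
def G7 : Subgroup (AGL 4) where
  carrier := {g | PM g.linear}
  mul_mem' := fun {g h} hg hh => PM_trans (g := h.linear) (h := g.linear) hh hg
  one_mem' := PM_refl
  inv_mem' := fun {g} hg => PM_symm (h := g.linear) hg

lemma mem_G7 {g : AGL 4} : g ∈ G7 ↔ PM g.linear := Iff.rfl

end Pool.Agent.SIT.A7
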