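import Pool.Agent.SIT.SporA7a

/-!
# The group `2^4 : A₇`: tables of elements
-/

namespace Pool.Agent.SIT.A7

open Finset

lemma nondeg_tb : ∀ i : Fin 7, ∀ n < 16, tb (cf i) n 1 = false → tb (cf i) n 2 = false →
    tb (cf i) n 4 = false → tb (cf i) n 8 = false → n = 0 := by
  intro i n hn
  revert i
  interval_cases n <;> decide

lemma cf_nondeg (i : Fin 7) (x : Vec 4) (h : ∀ y, frm (cf i) x y = 0) : x = 0 := by
  obtain ⟨n, hn, rfl⟩ := vc_surj x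
  have k : ∀ b, tb (cf i) n b = false := by
    intro b
    have h1 := h (vc b)
    rw [frm_vc] at h1
    exact bz_inj (b := false) h1
  rw [nondeg_tb i n hn (k _) (k _) (k _) (k _), vc_zero]

/-- An element of `A₇` from its columns. -/
lemma exists_of_ok {m : Cols} (hm : ok m = true) :
    ∃ h : Vec 4 ≃ₗ[ZMod 2] Vec 4, PM h ∧ ∀ x, h x = lm m x := by
  have hinj : Function.Injective (lm m) := by
    rw [← LinearMap.ker_eq_bot, LinearMap.ker_eq_bot']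
    intro x hx
    obtain ⟨j, hj⟩ := isM_cf (ok_pull hm 0)
    apply cf_nondeg j
    intro y
    rw [hj, ← frm_lm, hx, frm_zero_left]
  refine ⟨LinearEquiv.ofInjectiveEndo (lm m) hinj, ?_, fun x => rfl⟩
  intro i
  obtain ⟨j, hj⟩ := isM_cf (ok_pull hm i)
  refine ⟨j, fun x y => ?_⟩
  rw [hj, ← frm_lm]
  rfl

/-! ### Tables -/

def tA : List Cols := [(1, 2, 4, 8), (2, 1, 4, 12), (3, 1, 4, 9), (4, 1, 2, 11), (5, 1, 2, 8),
  (6, 1, 2, 10), (7, 1, 2, 9), (8, 1, 2, 13), (9, 1, 2, 14), (10, 1, 2, 12), (11, 1, 2, 15),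
  (12, 1, 2, 6), (13, 1, 2, 5), (14, 1, 2, 7), (15, 1, 2, 4)]

def tB : List Cols := [(1, 2, 4, 8), (1, 3, 4, 13), (1, 4, 2, 9), (1, 5, 2, 10), (1, 6, 2, 8),
  (1, 7, 2, 11), (1, 8, 2, 15), (1, 9, 2, 12), (1, 10, 2, 14), (1, 11, 2, 13), (1, 12, 2, 4),
  (1, 13, 2, 7), (1, 14, 2, 5), (1, 15, 2, 6)]

def tC : List Cols := [(1, 2, 4, 8), (1, 2, 5, 11), (1, 2, 6, 9), (1, 2, 7, 10), (1, 2, 8, 14),
  (1, 2, 9, 13), (1, 2, 10, 15), (1, 2, 11, 12), (1, 2, 12, 5), (1, 2, 13, 6), (1, 2, 14, 4),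
  (1, 2, 15, 7)]

def tH : List Cols := [(1, 2, 4, 8), (1, 3, 7, 12), (1, 2, 7, 10), (1, 3, 6, 14), (1, 2, 6, 9),
  (1, 3, 4, 13), (1, 2, 5, 11), (1, 3, 5, 15)]

def tF0 : List Cols := [(1, 2, 4, 8), (1, 2, 12, 5), (1, 6, 8, 12), (1, 6, 10, 3),
  (1, 4, 8, 10), (1, 4, 10, 6), (1, 2, 8, 14)]

def tF1 : List Cols := [(1, 2, 10, 15), (1, 4, 3, 12), (1, 2, 7, 10), (1, 4, 8, 10),
  (1, 2, 6, 9), (1, 2, 13, 6), (1, 4, 11, 3), (1, 8, 7, 4), (1, 2, 5, 11), (1, 2, 4, 8),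
  (1, 2, 8, 14), (1, 2, 14, 4), (1, 2, 15, 7), (1, 8, 5, 2), (1, 4, 13, 14), (1, 2, 9, 13),
  (1, 4, 2, 9), (1, 4, 15, 2), (1, 2, 12, 5), (1, 8, 3, 6), (1, 2, 11, 12)]

def tE0 : List Cols := [(1, 2, 4, 8), (3, 1, 13, 7), (2, 1, 9, 4), (3, 1, 12, 4), (2, 1, 8, 6),
  (1, 2, 6, 9)]

def tE1 : List Cols := [(4, 8, 2, 3), (5, 6, 4, 15), (4, 9, 6, 7), (1, 2, 4, 8), (2, 3, 8, 12),
  (1, 3, 12, 8)]

def tV0 : List Cols := [(1, 2, 4, 8), (1, 3, 4, 13), (1, 4, 6, 8), (1, 5, 6, 15), (1, 6, 2, 8),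
  (1, 7, 2, 11), (11, 9, 7, 13), (8, 10, 6, 15), (8, 12, 2, 11), (8, 14, 4, 13)]

def tV1 : List Cols := [(1, 2, 4, 8), (11, 15, 3, 6), (2, 7, 10, 14), (1, 7, 13, 9),
  (7, 15, 9, 3), (2, 11, 8, 14), (1, 11, 5, 8), (7, 11, 14, 3), (2, 15, 6, 12), (1, 15, 12, 9)]

lemma okA : ∀ m ∈ tA, ok m = true := by decide
lemma okB : ∀ m ∈ tB, ok m = true := by decide
lemma okC : ∀ m ∈ tC, ok m = true := by decide
lemma okH : ∀ m ∈ tH, ok m = true := by decide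
lemma okF0 : ∀ m ∈ tF0, ok m = true := by decide
lemma okF1 : ∀ m ∈ tF1, ok m = true := by decide
lemma okE0 : ∀ m ∈ tE0, ok m = true := by decide
lemma okE1 : ∀ m ∈ tE1, ok m = true := by decide
lemma okV0 : ∀ m ∈ tV0, ok m = true := by decide
lemma okV1 : ∀ m ∈ tV1, ok m = true := by decide

/-! ### Transitivity on linearly independent triples -/

lemma tableA : ∀ n < 16, n ≠ 0 → ∃ m ∈ tA, ap m 1 = n := by
  intro n hn
  interval_cases n <;> decide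

lemma tableB : ∀ n < 16, n ≠ 0 → n ≠ 1 → ∃ m ∈ tB, ap m 1 = 1 ∧ ap m 2 = n := by
  intro n hn
  interval_cases n <;> decide

lemma tableC : ∀ n < 16, n ≠ 0 → n ≠ 1 → n ≠ 2 → n ≠ 3 →
    ∃ m ∈ tC, ap m 1 = 1 ∧ ap m 2 = 2 ∧ ap m 4 = n := by
  intro n hn
  interval_cases n <;> decide

lemma vc_ne_zero {n : ℕ} (h : vc n ≠ 0) : n ≠ 0 := by
  rintro rfl
  exact h vc_zero

lemma transA {a : Vec 4} (ha : a ≠ 0) : ∃ h : Vec 4 ≃ₗ[ZMod 2] Vec 4, PM h ∧ h (vc 1) = a := by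
  obtain ⟨n, hn, rfl⟩ := vc_surj a
  obtain ⟨m, hm, h1⟩ := tableA n hn (vc_ne_zero ha)
  obtain ⟨h, hP, hh⟩ := exists_of_ok (okA m hm)
  exact ⟨h, hP, by rw [hh, lm_vc, h1]⟩

lemma transB {a b : Vec 4} (ha : a ≠ 0) (hb : b ≠ 0) (hab : b ≠ a) :
    ∃ h : Vec 4 ≃ₗ[ZMod 2] Vec 4, PM h ∧ h (vc 1) = a ∧ h (vc 2) = b := by
  obtain ⟨h, hP, h1⟩ := transA ha
  obtain ⟨n, hn, h2⟩ := vc_surj (h.symm b)
  have hb' : h (vc n) = b := by rw [h2, h.apply_symm_apply]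
  have n0 : n ≠ 0 := by
    rintro rfl
    apply hb
    rw [← hb', vc_zero, map_zero]
  have n1 : n ≠ 1 := by
    rintro rfl
    exact hab (hb'.symm.trans h1)
  obtain ⟨m, hm, k1, k2⟩ := tableB n hn n0 n1
  obtain ⟨g, gP, hg⟩ := exists_of_ok (okB m hm)
  refine ⟨g.trans h, PM_trans gP hP, ?_, ?_⟩
  · change h (g (vc 1)) = a
    rw [hg, lm_vc, k1, h1]
  · change h (g (vc 2)) = b
    rw [hg, lm_vc, k2, hb']

lemma transC {a b c : Vec 4} (ha : a ≠ 0) (hb : b ≠ 0) (hab : b ≠ a) (hc : c ≠ 0)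
    (hca : c ≠ a) (hcb : c ≠ b) (hcab : c ≠ a + b) :
    ∃ h : Vec 4 ≃ₗ[ZMod 2] Vec 4, PM h ∧ h (vc 1) = a ∧ h (vc 2) = b ∧ h (vc 4) = c := by
  obtain ⟨h, hP, h1, h2⟩ := transB ha hb hab
  obtain ⟨n, hn, h3⟩ := vc_surj (h.symm c)
  have hc' : h (vc n) = c := by rw [h3, h.apply_symm_apply]
  have n0 : n ≠ 0 := by
    rintro rfl
    apply hc
    rw [← hc', vc_zero, map_zero]
  have n1 : n ≠ 1 := by
    rintro rfl
    exact hca (hc'.symm.trans h1)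
  have n2 : n ≠ 2 := by
    rintro rfl
    exact hcb (hc'.symm.trans h2)
  have n3 : n ≠ 3 := by
    rintro rfl
    apply hcab
    have : vc 3 = vc 1 + vc 2 := by rw [← vc_xor]; rfl
    rw [← hc', this, map_add, h1, h2]
  obtain ⟨m, hm, k1, k2, k3⟩ := tableC n hn n0 n1 n2 n3
  obtain ⟨g, gP, hg⟩ := exists_of_ok (okC m hm)
  refine ⟨g.trans h, PM_trans gP hP, ?_, ?_, ?_⟩
  · change h (g (vc 1)) = a
    rw [hg, lm_vc, k1, h1]
  · change h (g (vc 2)) = b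
    rw [hg, lm_vc, k2, h2]
  · change h (g (vc 4)) = c
    rw [hg, lm_vc, k3, hc']

/-- The affine map `x ↦ h x + u`. -/
def aff (h : Vec 4 ≃ₗ[ZMod 2] Vec 4) (u : Vec 4) : AGL 4 :=
  (AffineEquiv.constVAdd (ZMod 2) (Vec 4) u) * h.toAffineEquiv

lemma aff_apply (h : Vec 4 ≃ₗ[ZMod 2] Vec 4) (u x : Vec 4) : aff h u x = u + h x := rfl

lemma aff_mem {h : Vec 4 ≃ₗ[ZMod 2] Vec 4} (hP : PM h) (u : Vec 4) : aff h u ∈ G7 := by
  rw [mem_G7]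
  exact hP

theorem twoTransitive_G7 : IsTwoTransitive G7 := by
  intro x y x' y' hxy hxy'
  have h0 : ∀ a b : Vec 4, a ≠ b → a + b ≠ 0 := by
    intro a b hab h
    apply hab
    have := add_add_self a b
    rw [h, zero_add] at this
    exact this.symm
  obtain ⟨h, hP, h1⟩ := transA (h0 x y hxy)
  obtain ⟨g, gP, g1⟩ := transA (h0 x' y' hxy')
  refine ⟨aff (h.symm.trans g) (x' + (h.symm.trans g) x), aff_mem (PM_trans (PM_symm hP) gP) _,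
    ?_, ?_⟩
  · rw [aff_apply, add_add_self]
  · rw [aff_apply]
    have e1 : (h.symm.trans g) (x + y) = x' + y' := by
      change g (h.symm (x + y)) = _
      rw [← h1, h.symm_apply_apply, g1]
    rw [map_add] at e1
    have : x' + (h.symm.trans g) x + (h.symm.trans g) y =
        x' + ((h.symm.trans g) x + (h.symm.trans g) y) := by abel
    rw [this, e1, self_add_add]

end Pool.Agent.SIT.A7
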