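import Pool.Agent.SIT.SporA7b

/-!
# The strongly incidence-transitive codes of `2^4 : A₇`
-/

namespace Pool.Agent.SIT.A7

open Finset

/-- Transitivity on the triples from a base triple. -/
lemma sit_of_base {G : Subgroup (AGL 4)} {k : ℕ} {C : Set (Finset (Vec 4))}
    (S₀ : Finset (Vec 4)) (v₀ : Vec 4) (hk : ∀ γ ∈ C, γ.card = k)
    (hinv : ∀ g ∈ G, ∀ γ ∈ C, act g γ ∈ C)
    (h : ∀ γ ∈ C, ∀ u ∈ γ, ∀ u' ∉ γ, ∃ g ∈ G, act g S₀ = γ ∧ g 0 = u ∧ g v₀ = u') :
    IsSITCode G k C := by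
  refine ⟨hk, hinv, ?_⟩
  intro γ hγ u hu u' hu' δ hδ w hw w' hw'
  obtain ⟨g1, hg1, a1, a2, a3⟩ := h γ hγ u hu u' hu'
  obtain ⟨g2, hg2, b1, b2, b3⟩ := h δ hδ w hw w' hw'
  refine ⟨g2 * g1⁻¹, G.mul_mem hg2 (G.inv_mem hg1), ?_, ?_, ?_⟩
  · rw [act_mul, ← a1]
    have : act g1⁻¹ (act g1 S₀) = S₀ := act_symm_act g1 S₀
    rw [this, b1]
  · change g2 (g1.symm u) = w
    rw [← a2, g1.symm_apply_apply, b2]
  · change g2 (g1.symm u') = w'
    rw [← a3, g1.symm_apply_apply, b3]

lemma act_mem_flat (d : ℕ) {g : AGL 4} {γ : Finset (Vec 4)} (hd : 1 ≤ d)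
    (hγ : γ ∈ FlatCode 4 d) : act g γ ∈ FlatCode 4 d :=
  (flatCode_SIT (n := 4) hd).invariant g (Subgroup.mem_top _) γ hγ

/-! ### Planes -/

lemma add_zero_iff {a b : Vec 4} (h : a ≠ b) : a + b ≠ 0 := by
  intro h0
  apply h
  have := add_add_self a b
  rw [h0, zero_add] at this
  exact this.symm

theorem sit_planes : IsSITCode G7 4 (FlatCode 4 2) := by
  classical
  have hcard : ∀ γ ∈ FlatCode 4 2, γ.card = 4 :=
    fun γ hγ => (flatCode_SIT (n := 4) (d := 2) (by norm_num)).card_eq γ hγ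
  apply sit_of_base ({0, vc 1, vc 2, vc 3} : Finset (Vec 4)) (vc 4) hcard
  · intro g _ γ hγ
    exact act_mem_flat 2 (by norm_num) hγ
  intro γ hγ u hu u' hu'
  have h4 := hcard γ hγ
  obtain ⟨A, hA, -⟩ := hγ
  have h3 : (γ.erase u).card = 3 := by rw [card_erase_of_mem hu, h4]
  obtain ⟨p, hp⟩ : (γ.erase u).Nonempty := by rw [← card_pos, h3]; norm_num
  have h2 : ((γ.erase u).erase p).card = 2 := by rw [card_erase_of_mem hp, h3]
  obtain ⟨r, hr⟩ : ((γ.erase u).erase p).Nonempty := by rw [← card_pos, h2]; norm_num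
  rw [mem_erase] at hp
  rw [mem_erase, mem_erase] at hr
  obtain ⟨hpu, hpγ⟩ := hp
  obtain ⟨hrp, hru, hrγ⟩ := hr
  have hfl : u + (p + u + (r + u)) ∈ γ := by
    rw [direction_mem_iff hA hu]
    have e : u + (p + u + (r + u)) + u = (p + u) + (r + u) := by
      have := add_self' u
      calc u + (p + u + (r + u)) + u = (p + u) + (r + u) + (u + u) := by abel
        _ = _ := by rw [this, add_zero]
    rw [e]
    exact A.direction.add_mem ((direction_mem_iff hA hu p).1 hpγ)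
      ((direction_mem_iff hA hu r).1 hrγ)
  have hne : ∀ z : Vec 4, u + z ∈ γ → u' + u ≠ z := by
    rintro z hz rfl
    apply hu'
    have : u + (u' + u) = u' := by
      rw [add_comm u' u, self_add_add]
    rwa [this] at hz
  obtain ⟨h, hP, h1, h2', h4'⟩ := transC (a := p + u) (b := r + u) (c := u' + u)
    (add_zero_iff hpu) (add_zero_iff hru) (fun h => hrp (add_right_cancel h))
    (add_zero_iff (fun h => hu' (h ▸ hu)))
    (hne _ (by rw [add_comm p u, self_add_add]; exact hpγ))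
    (hne _ (by rw [add_comm r u, self_add_add]; exact hrγ)) (hne _ hfl)
  have hg : ∀ z, aff h u z = u + h z := aff_apply h u
  refine ⟨aff h u, aff_mem hP u, ?_, ?_, ?_⟩
  · apply Finset.eq_of_subset_of_card_le
    · intro x hx
      rw [act, mem_image] at hx
      obtain ⟨z, hz, rfl⟩ := hx
      rw [hg]
      simp only [mem_insert, mem_singleton] at hz
      rcases hz with rfl | rfl | rfl | rfl
      · rw [map_zero, add_zero]; exact hu
      · rw [h1, add_comm p u, self_add_add]; exact hpγ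
      · rw [h2', add_comm r u, self_add_add]; exact hrγ
      · have : vc 3 = vc 1 + vc 2 := by rw [← vc_xor]; rfl
        rw [this, map_add, h1, h2']
        exact hfl
    · rw [h4, card_act]
      have : ({0, vc 1, vc 2, vc 3} : Finset (Vec 4)) = ({0, 1, 2, 3} : Finset ℕ).image vc := by
        rw [← vc_zero]
        rfl
      rw [this, card_image_of_injOn]
      · rfl
      · intro a ha b hb hab
        apply vc_inj _ _ hab
        · simp at ha; omega
        · simp at hb; omega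
  · rw [hg, map_zero, add_zero]
  · rw [hg, h4', add_comm u' u, self_add_add]

/-! ### Hyperplanes -/

/-- Scalar product on the level of numbers. -/
def dotb (f n : ℕ) : Bool :=
  (f.testBit 0 && n.testBit 0) ^^ (f.testBit 1 && n.testBit 1) ^^ (f.testBit 2 && n.testBit 2) ^^
    (f.testBit 3 && n.testBit 3)

lemma tableH : ∀ f < 16, f.testBit 0 = true → ∃ m ∈ tH, ap m 1 = 1 ∧ dotb f m.1 = true ∧
    dotb f m.2.1 = false ∧ dotb f m.2.2.1 = false ∧ dotb f m.2.2.2 = false := by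
  intro f hf
  interval_cases f <;> decide

lemma bits4 : ∀ b0 b1 b2 b3 : Bool, ∃ n < 16, n.testBit 0 = b0 ∧ n.testBit 1 = b1 ∧
    n.testBit 2 = b2 ∧ n.testBit 3 = b3 := by decide

lemma vc_eq (x : Vec 4) : x = x 0 • vc 1 + x 1 • vc 2 + x 2 • vc 4 + x 3 • vc 8 := by
  have t1 : ∀ i : Fin 4, vc 1 i = if i = 0 then 1 else 0 := by decide
  have t2 : ∀ i : Fin 4, vc 2 i = if i = 1 then 1 else 0 := by decide
  have t4 : ∀ i : Fin 4, vc 4 i = if i = 2 then 1 else 0 := by decide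
  have t8 : ∀ i : Fin 4, vc 8 i = if i = 3 then 1 else 0 := by decide
  funext i
  simp only [Pi.add_apply, Pi.smul_apply, t1, t2, t4, t8, smul_eq_mul]
  fin_cases i <;> simp

lemma dual_vc (φ : Module.Dual (ZMod 2) (Vec 4)) : ∃ f < 16, (∀ n, φ (vc n) = bz (dotb f n)) := by
  obtain ⟨b0, h0⟩ := exists_bz (φ (vc 1))
  obtain ⟨b1, h1⟩ := exists_bz (φ (vc 2))
  obtain ⟨b2, h2⟩ := exists_bz (φ (vc 4))
  obtain ⟨b3, h3⟩ := exists_bz (φ (vc 8))
  obtain ⟨f, hf, rfl, rfl, rfl, rfl⟩ := bits4 b0 b1 b2 b3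
  refine ⟨f, hf, fun n => ?_⟩
  rw [vc_eq (vc n)]
  simp only [map_add, map_smul, smul_eq_mul, h0, h1, h2, h3, dotb, bz_xor, bz_and]
  simp only [vc]
  simp only [Fin.val_zero, Fin.val_one, Fin.val_two]
  have : ((3 : Fin 4) : ℕ) = 3 := rfl
  rw [this]
  ring

theorem sit_hyperplanes : IsSITCode G7 8 (FlatCode 4 3) := by
  classical
  have hcard : ∀ γ ∈ FlatCode 4 3, γ.card = 8 :=
    fun γ hγ => (flatCode_SIT (n := 4) (d := 3) (by norm_num)).card_eq γ hγ
  apply sit_of_base (univ.filter (fun x : Vec 4 => x 0 = 0)) (vc 1) hcard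
  · intro g _ γ hγ
    exact act_mem_flat 3 (by norm_num) hγ
  intro γ hγ u hu u' hu'
  obtain ⟨⟨φ, c⟩, -, rfl⟩ := hyp_repr (n := 4) (by norm_num) hγ
  simp only [hyp, mem_filter, mem_univ, true_and] at hu hu'
  have z1 : ∀ a c : ZMod 2, ¬ a = c → a + c = 1 := by decide
  have z2 : ∀ a c : ZMod 2, c + a = c ↔ a = 0 := by decide
  have hv : φ (u' + u) = 1 := by
    rw [map_add, hu]
    exact z1 _ _ hu'
  have hv0 : u' + u ≠ 0 := by
    intro h
    rw [h, map_zero] at hv
    exact absurd hv (by decide)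
  obtain ⟨h, hP, h1⟩ := transA hv0
  obtain ⟨f, hf, hφ⟩ := dual_vc (φ.comp h.toLinearMap)
  have hf0 : f.testBit 0 = true := by
    have := hφ 1
    change φ (h (vc 1)) = _ at this
    rw [h1, hv] at this
    have e : dotb f 1 = f.testBit 0 := by
      have e1 : Nat.testBit 1 0 = true := rfl
      have e2 : Nat.testBit 1 1 = false := rfl
      have e3 : Nat.testBit 1 2 = false := rfl
      have e4 : Nat.testBit 1 3 = false := rfl
      simp only [dotb, e1, e2, e3, e4]
      simp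
    rw [e] at this
    exact (bz_inj (a := true) this).symm
  obtain ⟨m, hm, k1, k2, k3, k4, k5⟩ := tableH f hf hf0
  obtain ⟨g, gP, hg⟩ := exists_of_ok (okH m hm)
  have hgx : ∀ x, φ (h (g x)) = x 0 := by
    intro x
    rw [hg]
    change φ (h (x 0 • vc m.1 + x 1 • vc m.2.1 + x 2 • vc m.2.2.1 + x 3 • vc m.2.2.2)) = x 0
    have e1 : φ (h (vc m.1)) = 1 := by
      have := hφ m.1
      rw [k2] at this
      exact this
    have e2 : φ (h (vc m.2.1)) = 0 := by
      have := hφ m.2.1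
      rw [k3] at this
      exact this
    have e3 : φ (h (vc m.2.2.1)) = 0 := by
      have := hφ m.2.2.1
      rw [k4] at this
      exact this
    have e4 : φ (h (vc m.2.2.2)) = 0 := by
      have := hφ m.2.2.2
      rw [k5] at this
      exact this
    simp only [map_add, map_smul, smul_eq_mul, e1, e2, e3, e4]
    ring
  have hG : ∀ x, aff (g.trans h) u x = u + h (g x) := fun x => rfl
  refine ⟨aff (g.trans h) u, aff_mem (PM_trans gP hP) u, ?_, ?_, ?_⟩
  · rw [act_eq_iff]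
    intro x
    rw [hG]
    simp only [hyp, mem_filter, mem_univ, true_and]
    rw [map_add, hu, hgx]
    exact z2 _ _
  · rw [hG, map_zero, map_zero, add_zero]
  · rw [hG, hg, lm_vc, k1, h1, add_comm u' u, self_add_add]

/-! ### Quadratic functions -/

/-- The quadratic form without constant term: linear coefficients `q`, polar form `frm c`. -/
def Qz (q c : ℕ) (x : Vec 4) : ZMod 2 :=
  bz (q.testBit 0) * x 0 + bz (q.testBit 1) * x 1 + bz (q.testBit 2) * x 2 +
  bz (q.testBit 3) * x 3 + bz (c.testBit 0) * (x 0 * x 1) + bz (c.testBit 1) * (x 0 * x 2) +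
  bz (c.testBit 2) * (x 0 * x 3) + bz (c.testBit 3) * (x 1 * x 2) +
  bz (c.testBit 4) * (x 1 * x 3) + bz (c.testBit 5) * (x 2 * x 3)

/-- Computable version. -/
def Qb (q c n : ℕ) : Bool :=
  (q.testBit 0 && n.testBit 0) ^^ (q.testBit 1 && n.testBit 1) ^^ (q.testBit 2 && n.testBit 2) ^^
  (q.testBit 3 && n.testBit 3) ^^ (c.testBit 0 && (n.testBit 0 && n.testBit 1)) ^^
  (c.testBit 1 && (n.testBit 0 && n.testBit 2)) ^^ (c.testBit 2 && (n.testBit 0 && n.testBit 3)) ^^
  (c.testBit 3 && (n.testBit 1 && n.testBit 2)) ^^ (c.testBit 4 && (n.testBit 1 && n.testBit 3)) ^^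
  (c.testBit 5 && (n.testBit 2 && n.testBit 3))

lemma Qz_vc (q c n : ℕ) : Qz q c (vc n) = bz (Qb q c n) := by
  simp only [Qz, Qb, vc, bz_xor, bz_and]
  simp only [Fin.val_zero, Fin.val_one, Fin.val_two]
  have : ((3 : Fin 4) : ℕ) = 3 := rfl
  rw [this]

/-- `f` is a quadratic function with polar form `frm c`. -/
def QP (f : Vec 4 → ZMod 2) (c : ℕ) : Prop :=
  ∀ x y, f (x + y) + f x + f y + f 0 = frm c x y

lemma QP_form {f : Vec 4 → ZMod 2} {c : ℕ} (h : QP f c) (h0 : f 0 = 1) :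
    ∃ q < 16, ∀ x, f x = 1 + Qz q c x := by
  obtain ⟨b0, h1⟩ := exists_bz (f (vc 1) + 1)
  obtain ⟨b1, h2⟩ := exists_bz (f (vc 2) + 1)
  obtain ⟨b2, h3⟩ := exists_bz (f (vc 4) + 1)
  obtain ⟨b3, h4⟩ := exists_bz (f (vc 8) + 1)
  obtain ⟨q, hq, rfl, rfl, rfl, rfl⟩ := bits4 b0 b1 b2 b3
  refine ⟨q, hq, fun x => ?_⟩
  have hadd : ∀ x y, f (x + y) = frm c x y + f x + f y + 1 := by
    intro x y
    rw [← h x y, h0]
    generalize f (x + y) = a
    generalize f x = b
    generalize f y = d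
    revert a b d
    decide
  have hs : ∀ (a : ZMod 2) (v : Vec 4), f (a • v) = 1 + a * (f v + 1) := by
    intro a v
    rcases zmod2_cases a with rfl | rfl
    · rw [zero_smul, h0]; ring
    · rw [one_smul]
      generalize f v = b
      revert b
      decide
  obtain ⟨a0, a1, a2, a3, a4, a5⟩ := frm_basis c
  rw [vc_eq x, hadd, hadd, hadd]
  simp only [frm_add_left, frm_smul_left, frm_smul_right, a0, a1, a2, a3, a4, a5, hs, h1, h2, h3,
    h4]
  rw [← vc_eq x]
  simp only [Qz]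
  linear_combination (3 : ZMod 2) * two_eq

lemma QP_comp {f : Vec 4 → ZMod 2} {c c' : ℕ} (h : QP f c) (g : Vec 4 →ₗ[ZMod 2] Vec 4)
    (hg : ∀ x y, frm c (g x) (g y) = frm c' x y) : QP (fun x => f (g x)) c' := by
  intro x y
  have := h (g x) (g y)
  rw [hg] at this
  simpa using this

lemma QP_shift {f : Vec 4 → ZMod 2} {c : ℕ} (h : QP f c) (u : Vec 4) :
    QP (fun x => f (u + x)) c := by
  intro x y
  have h1 := h (u + x) y
  have h2 := h u y
  rw [frm_add_left] at h1
  change f (u + (x + y)) + f (u + x) + f (u + y) + f (u + 0) = frm c x y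
  rw [← add_assoc, add_zero]
  linear_combination h1 - h2 + (f (u + y) + f u) * two_eq

lemma ind_cases (γ : Finset (Vec 4)) (x : Vec 4) : (x ∈ γ ↔ ind γ x = 1) := ind_eq_one.symm

lemma eq_of_iff_one {a b : ZMod 2} (h : a = 1 ↔ b = 1) : a = b := by
  revert a b; decide

end Pool.Agent.SIT.A7
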