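import Pool.Agent.SIT.SporA7

/-!
# `2^4 : A₇`: the two families of six-point quadrics are nonempty
-/

namespace Pool.Agent.SIT.A7

open Finset

lemma QP_S (q c : ℕ) : QP (ind (S q c)) c := by
  have h : ∀ x, ind (S q c) x = Qz q c x + 1 := by
    intro x
    have h1 : x ∈ S q c ↔ Qz q c x = 0 := by simp [S]
    rw [ind]
    rcases zmod2_cases (Qz q c x) with h0 | h0
    · rw [if_pos (h1.2 h0), h0]
      rfl
    · rw [if_neg (fun h2 => by rw [h1.1 h2] at h0; exact absurd h0 (by decide)), h0]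
      rfl
  intro x y
  rw [h, h, h, h]
  have h1 := QP_Qz q c x y
  linear_combination h1 + 2 * (by rfl : (2 : ZMod 2) = 0)

lemma S_mem_QC {q c : ℕ} (g : AGL 4) (h : ∀ x : Vec 4, Qz q c (g x) = 0 ↔ x 0 * x 1 + x 2 * x 3 = 1) :
    S q c ∈ QC := by
  refine ⟨g, ?_⟩
  symm
  rw [act_eq_iff]
  intro x
  have h1 : g x ∈ S q c ↔ Qz q c (g x) = 0 := by simp [S]
  rw [h1, h, mem_quadric, quadForm, Fin.sum_univ_two]
  rfl

lemma S33_mem : S 12 33 ∈ QC := by
  apply S_mem_QC (AffineEquiv.constVAdd (ZMod 2) (Vec 4) ![0, 0, 1, 1])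
  intro x
  have h : ∀ i, (AffineEquiv.constVAdd (ZMod 2) (Vec 4) ![0, 0, 1, 1]) x i =
      (![0, 0, 1, 1] : Vec 4) i + x i := fun i => rfl
  simp only [Qz, h]
  generalize x 0 = a
  generalize x 1 = b
  generalize x 2 = c
  generalize x 3 = d
  revert a b c d
  decide

/-- the permutation of the coordinates -/
def pe : Fin 4 ≃ Fin 4 where
  toFun := ![0, 2, 3, 1]
  invFun := ![0, 3, 1, 2]
  left_inv := by decide
  right_inv := by decide

lemma S12_mem : S 6 12 ∈ QC := by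
  apply S_mem_QC ((LinearEquiv.funCongrLeft (ZMod 2) (ZMod 2) pe).toAffineEquiv.trans
    (AffineEquiv.constVAdd (ZMod 2) (Vec 4) ![0, 1, 1, 0]))
  intro x
  have h : ∀ i, ((LinearEquiv.funCongrLeft (ZMod 2) (ZMod 2) pe).toAffineEquiv.trans
    (AffineEquiv.constVAdd (ZMod 2) (Vec 4) ![0, 1, 1, 0])) x i =
      (![0, 1, 1, 0] : Vec 4) i + x (pe i) := fun i => rfl
  simp only [Qz, h]
  have e0 : pe 0 = 0 := rfl
  have e1 : pe 1 = 2 := rfl
  have e2 : pe 2 = 3 := rfl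
  have e3 : pe 3 = 1 := rfl
  rw [e0, e1, e2, e3]
  generalize x 0 = a
  generalize x 1 = b
  generalize x 2 = c
  generalize x 3 = d
  revert a b c d
  decide

lemma C112_nonempty : C112.Nonempty :=
  ⟨S 6 12, S12_mem, 0, polarIs_iff.2 (QP_S 6 12)⟩

lemma C336_nonempty : C336.Nonempty := by
  refine ⟨S 12 33, S33_mem, ?_⟩
  intro i hi
  have h0 : ∀ i, cf i < 64 := by decide
  have h2 : ∀ i, 33 ≠ cf i := by decide
  exact h2 i (QP_unique (QP_S 12 33) (polarIs_iff.1 hi) (by norm_num) (h0 i))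

end Pool.Agent.SIT.A7
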