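import Pool.Agent.SIT.GBase
import Pool.Agent.SIT.SporA6
import Pool.Agent.SIT.SporA7n
import Pool.Agent.SIT.HexNeg

/-!
# The four sporadic 2-transitive affine groups over `F_2`, on the general carrier
-/

namespace Pool.Agent.SIT.Gen

open Finset

lemma twoTransitive_permOf {n : ℕ} {G : Subgroup (AGL n)} (h : SIT.IsTwoTransitive G) :
    IsTwoTransitive (permOf G) := by
  intro x y x' y' hxy hxy'
  obtain ⟨g, hg, h1, h2⟩ := h x y x' y' hxy hxy'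
  exact ⟨g.toEquiv, ⟨g, hg, fun _ => rfl⟩, h1, h2⟩

/-- A nonempty code of a 2-transitive group has two members. -/
lemma nontrivial_of_two {n k : ℕ} {G : Subgroup (AGL n)} (hG : SIT.IsTwoTransitive G)
    {C : Set (Finset (Vec n))} (hC : SIT.IsSITCode G k C) (hk : 1 ≤ k) (hk' : k < 2 ^ n)
    (hne : C.Nonempty) : C.Nontrivial := by
  obtain ⟨γ, hγ⟩ := hne
  have hcard := hC.card_eq γ hγ
  obtain ⟨u, hu⟩ : γ.Nonempty := by rw [← Finset.card_pos]; omega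
  obtain ⟨u', hu'⟩ := exists_notMem_of_card hcard hk'
  have hne : u ≠ u' := fun h => hu' (h ▸ hu)
  obtain ⟨g, hg, h1, -⟩ := hG u u' u' u hne hne.symm
  refine ⟨γ, hγ, SIT.act g γ, hC.invariant g hg γ hγ, ?_⟩
  intro h
  apply hu'
  rw [h, ← h1]
  exact (SIT.mem_act g γ u).2 hu

/-- passage from lists for codes with two members to lists for nonempty codes -/
lemma list_of {n k : ℕ} {G : Subgroup (AGL n)} (hG : SIT.IsTwoTransitive G)
    {C : Set (Finset (Vec n))} (hk : 3 ≤ k) (hk' : 2 * k ≤ 2 ^ n) {P : Prop}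
    (h : C.Nontrivial → (SIT.IsSITCode G k C ↔ P)) (hP : P → C.Nontrivial) :
    (IsSITCode (permOf G) k C ∧ C.Nonempty) ↔ P := by
  rw [isSIT_permOf]
  constructor
  · rintro ⟨h1, h2⟩
    exact (h (nontrivial_of_two hG h1 (by omega) (by omega) h2)).1 h1
  · intro hp
    exact ⟨(h (hP hp)).2 hp, (hP hp).nonempty⟩

/-- `2^4 : A_6`. -/
theorem list_A6 (k : ℕ) (C : Set (Finset (Vec (2 * 2)))) (hk : 3 ≤ k) (hk' : 2 * k ≤ 2 ^ (2 * 2)) :
    (IsSITCode (permOf AffA6) k C ∧ C.Nonempty) ↔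
      (k = 4 ∧ C = CoisoFlatCode 2 2) ∨ (k = 8 ∧ C = CoisoFlatCode 2 3) ∨
        (k = 6 ∧ C = SympDesign 2) := by
  have h16 : (2 : ℕ) ^ (2 * 2) = 16 := by norm_num
  have h8 : (2 : ℕ) ^ (2 * 2 - 1) = 8 := by norm_num
  apply list_of twoTransitive_A6 hk hk'
  · intro hnt
    rw [sit_A6_iff hk (by omega), sp_main (le_refl 2) hk (by omega) hnt]
    constructor
    · rintro (⟨d, h1, h2, h3, h4⟩ | ⟨m, h, h1, h2, -⟩ | ⟨h1, h2⟩)
      · have hd : d = 2 ∨ d = 3 := by omega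
        rcases hd with rfl | rfl
        · exact Or.inl ⟨by rw [h3]; norm_num, h4⟩
        · exact Or.inr (Or.inl ⟨by rw [h3]; norm_num, h4⟩)
      · omega
      · exact Or.inr (Or.inr ⟨by rw [h1]; norm_num, h2⟩)
    · rintro (⟨rfl, h⟩ | ⟨rfl, h⟩ | ⟨rfl, h⟩)
      · exact Or.inl ⟨2, le_rfl, by norm_num, by norm_num, h⟩
      · exact Or.inl ⟨3, by norm_num, by norm_num, by norm_num, h⟩
      · exact Or.inr (Or.inr ⟨by norm_num, h⟩)
  · rintro (⟨-, rfl⟩ | ⟨-, rfl⟩ | ⟨-, rfl⟩)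
    · exact coisoFlat_nontrivial (by norm_num) (le_refl 2) (by norm_num)
    · exact coisoFlat_nontrivial (by norm_num) (by norm_num) (by norm_num)
    · exact sympDesign_nontrivial (by norm_num)

lemma C112_nontrivial : A7.C112.Nontrivial :=
  nontrivial_of_two A7.spor_A7.1 A7.sit_C112 (by norm_num) (by norm_num) A7.C112_nonempty

lemma C336_nontrivial : A7.C336.Nontrivial :=
  nontrivial_of_two A7.spor_A7.1 A7.sit_C336 (by norm_num) (by norm_num) A7.C336_nonempty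

/-- `2^4 : A_7`. -/
theorem list_A7 (k : ℕ) (C : Set (Finset (Vec 4))) (hk : 3 ≤ k) (hk' : 2 * k ≤ 2 ^ 4) :
    (IsSITCode (permOf A7.G7) k C ∧ C.Nonempty) ↔
      (k = 4 ∧ C = FlatCode 4 2) ∨ (k = 8 ∧ C = FlatCode 4 3) ∨ (k = 6 ∧ C = A7.C112) ∨
        (k = 6 ∧ C = A7.C336) := by
  have h16 : (2 : ℕ) ^ 4 = 16 := by norm_num
  have h8 : (2 : ℕ) ^ (4 - 1) = 8 := by norm_num
  apply list_of A7.spor_A7.1 hk hk'
  · intro hnt
    exact A7.spor_A7.2 k C hk (by omega) hnt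
  · rintro (⟨-, rfl⟩ | ⟨-, rfl⟩ | ⟨-, rfl⟩ | ⟨-, rfl⟩)
    · exact flatCode_nontrivial (by norm_num) (by norm_num)
    · exact flatCode_nontrivial (by norm_num) (by norm_num)
    · exact C112_nontrivial
    · exact C336_nontrivial

/-- `2^6 : G_2(2)`. -/
theorem list_G2 (k : ℕ) (C : Set (Finset (Vec (2 * 3)))) (hk : 3 ≤ k)
    (hk' : 2 * k ≤ 2 ^ (2 * 3)) :
    (IsSITCode (permOf AG2) k C ∧ C.Nonempty) ↔
      (k = 16 ∧ C = HexCode) ∨ (k = 28 ∧ C = SympDesign 3) ∨ (k = 32 ∧ C = FlatCode (2 * 3) 5) := by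
  have h16 : (2 : ℕ) ^ (2 * 3) = 64 := by norm_num
  have h8 : (2 : ℕ) ^ (2 * 3 - 1) = 32 := by norm_num
  apply list_of G2.spor_G2.1 hk hk'
  · intro hnt
    exact G2.spor_G2.2 k C hk (by omega) hnt
  · rintro (⟨-, rfl⟩ | ⟨-, rfl⟩ | ⟨-, rfl⟩)
    · exact G2.hexCode_nontrivial
    · exact sympDesign_nontrivial (by norm_num)
    · exact flatCode_nontrivial (by norm_num) (by norm_num)

/-- `2^6 : G_2(2)'`, `G_2(2)' ≅ PSU(3,3)`. -/
theorem list_G2' (k : ℕ) (C : Set (Finset (Vec (2 * 3)))) (hk : 3 ≤ k)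
    (hk' : 2 * k ≤ 2 ^ (2 * 3)) :
    (IsSITCode (permOf AG2') k C ∧ C.Nonempty) ↔
      (k = 16 ∧ C = HexCode) ∨ (k = 28 ∧ C = SympDesign 3) := by
  have h16 : (2 : ℕ) ^ (2 * 3) = 64 := by norm_num
  have h8 : (2 : ℕ) ^ (2 * 3 - 1) = 32 := by norm_num
  apply list_of G2.spor_G2'.1 hk hk'
  · intro hnt
    exact G2.spor_G2'.2 k C hk (by omega) hnt
  · rintro (⟨-, rfl⟩ | ⟨-, rfl⟩)
    · exact G2.hexCode_nontrivial
    · exact sympDesign_nontrivial (by norm_num)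

/-- **`2^4 : A_6`.** -/
theorem class_A6 : IsTwoTransitive (permOf AffA6) ∧ ∀ (k : ℕ) (C : Set (Finset (Vec (2 * 2)))),
    3 ≤ k → 2 * k ≤ Fintype.card (Vec (2 * 2)) →
    ((IsSITCode (permOf AffA6) k C ∧ C.Nonempty) ↔
      (k = 4 ∧ C = CoisoFlatCode 2 2) ∨ (k = 8 ∧ C = CoisoFlatCode 2 3) ∨
        (k = 6 ∧ C = SympDesign 2)) :=
  ⟨twoTransitive_permOf twoTransitive_A6, fun k C hk hk' =>
    list_A6 k C hk (by rwa [card_vec] at hk')⟩

/-- **`2^4 : A_7`.** -/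
theorem class_A7 : IsTwoTransitive (permOf A7.G7) ∧ ∀ (k : ℕ) (C : Set (Finset (Vec 4))),
    3 ≤ k → 2 * k ≤ Fintype.card (Vec 4) →
    ((IsSITCode (permOf A7.G7) k C ∧ C.Nonempty) ↔
      (k = 4 ∧ C = FlatCode 4 2) ∨ (k = 8 ∧ C = FlatCode 4 3) ∨ (k = 6 ∧ C = A7.C112) ∨
        (k = 6 ∧ C = A7.C336)) :=
  ⟨twoTransitive_permOf A7.spor_A7.1, fun k C hk hk' =>
    list_A7 k C hk (by rwa [card_vec] at hk')⟩

/-- **`2^6 : G_2(2)`.** -/
theorem class_G2 : IsTwoTransitive (permOf AG2) ∧ ∀ (k : ℕ) (C : Set (Finset (Vec (2 * 3)))),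
    3 ≤ k → 2 * k ≤ Fintype.card (Vec (2 * 3)) →
    ((IsSITCode (permOf AG2) k C ∧ C.Nonempty) ↔
      (k = 16 ∧ C = HexCode) ∨ (k = 28 ∧ C = SympDesign 3) ∨
        (k = 32 ∧ C = FlatCode (2 * 3) 5)) :=
  ⟨twoTransitive_permOf G2.spor_G2.1, fun k C hk hk' =>
    list_G2 k C hk (by rwa [card_vec] at hk')⟩

/-- **`2^6 : G_2(2)'`.** -/
theorem class_G2' : IsTwoTransitive (permOf AG2') ∧ ∀ (k : ℕ) (C : Set (Finset (Vec (2 * 3)))),
    3 ≤ k → 2 * k ≤ Fintype.card (Vec (2 * 3)) →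
    ((IsSITCode (permOf AG2') k C ∧ C.Nonempty) ↔
      (k = 16 ∧ C = HexCode) ∨ (k = 28 ∧ C = SympDesign 3)) :=
  ⟨twoTransitive_permOf G2.spor_G2'.1, fun k C hk hk' =>
    list_G2' k C hk (by rwa [card_vec] at hk')⟩

end Pool.Agent.SIT.Gen
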