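import Pool.Agent.SIT.Converse

/-!
# Transitivity of a group of affine maps on `{f = 1} × {f = 0}`
-/

namespace Pool.Agent.SIT

open Finset

variable {V : Type*} [AddCommGroup V] [Module (ZMod 2) V] [Fintype V] [DecidableEq V]

/-- Transitivity of the stabiliser of `f` on `{f = 1} × {f = 0}`. -/
theorem quad_transitive_of {f : V → ZMod 2} (hQ : QF f) (hT : ∀ a, Rad f a → a = 0)
    (P : (V ≃ᵃ[ZMod 2] V) → Prop) (hmul : ∀ g h, P g → P h → P (g.trans h))
    (hrefl : P (AffineEquiv.refl (ZMod 2) V))
    (hstep : ∀ a, ∃ g : V ≃ᵃ[ZMod 2] V, P g ∧ (∀ x, f (g x) = f x) ∧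
      (∀ x, f (x + a) = f x → g x = x + a) ∧ (∀ x, f (x + a) ≠ f x → g x = x))
    (hcard : (univ.filter (fun x => f x = 1)).card < (univ.filter (fun x => f x = 0)).card)
    {u w u' w' : V} (hu : f u = 1) (hw : f w = 1) (hu' : f u' = 0) (hw' : f w' = 0) :
    ∃ g : V ≃ᵃ[ZMod 2] V, P g ∧ (∀ x, f (g x) = f x) ∧ g u = w ∧ g u' = w' := by
  -- fixing `w`
  have hfix : ∀ y z, f y = 0 → f z = 0 →
      ∃ g : V ≃ᵃ[ZMod 2] V, P g ∧ (∀ x, f (g x) = f x) ∧ g w = w ∧ g y = z := by
    -- easy case
    have heasy : ∀ y z, f y = 0 → f z = 0 → f (w + (y + z)) = 0 →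
        ∃ g : V ≃ᵃ[ZMod 2] V, P g ∧ (∀ x, f (g x) = f x) ∧ g w = w ∧ g y = z := by
      intro y z hy hz hwyz
      obtain ⟨g, hg, h1, h2, h3⟩ := hstep (y + z)
      refine ⟨g, hg, h1, ?_, ?_⟩
      · apply h3
        rw [hwyz, hw]
        decide
      · rw [h2 y (by rw [self_add_add, hz, hy]), self_add_add]
    intro y z hy hz
    by_cases hwyz : f (w + (y + z)) = 0
    · exact heasy y z hy hz hwyz
    have hwyz1 : f (w + (y + z)) = 1 := by
      rcases zmod2_cases (f (w + (y + z))) with h | h
      · exact absurd h hwyz
      · exact h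
    by_cases hrad : Rad f (y + z)
    · have hyz : y = z := by
        have h := hT _ hrad
        have h2 := add_add_self y z
        rw [h, zero_add] at h2
        exact h2.symm
      rw [← hyz]
      exact ⟨AffineEquiv.refl (ZMod 2) V, hrefl, fun x => rfl, rfl, rfl⟩
    · -- intermediate point
      suffices hz' : ∃ t, f t = 0 ∧ f (w + (y + t)) = 0 ∧ f (w + (t + z)) = 0 by
        obtain ⟨t, ht0, ht1, ht2⟩ := hz'
        obtain ⟨g₁, hg1, h1, h2, h3⟩ := heasy y t hy ht0 ht1
        obtain ⟨g₂, hg2, h4, h5, h6⟩ := heasy t z ht0 hz ht2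
        refine ⟨g₁.trans g₂, hmul _ _ hg1 hg2, ?_, ?_, ?_⟩
        · intro x
          rw [AffineEquiv.trans_apply, h4, h1]
        · rw [AffineEquiv.trans_apply, h2, h5]
        · rw [AffineEquiv.trans_apply, h3, h6]
      by_contra hcon
      push Not at hcon
      obtain ⟨φ₁, k₁, hφ₁⟩ := hQ (w + y)
      obtain ⟨φ₂, k₂, hφ₂⟩ := hQ (w + z)
      have hφ₁0 : φ₁ ≠ 0 := by
        rintro rfl
        have h1 : Rad f (w + y) := ⟨k₁, fun x => by rw [hφ₁ x, LinearMap.zero_apply, zero_add]⟩
        have h2 := self_add_add w y
        rw [hT _ h1, add_zero] at h2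
        rw [h2, hy] at hw
        exact absurd hw (by decide)
      have hφ₂0 : φ₂ ≠ 0 := by
        rintro rfl
        have h1 : Rad f (w + z) := ⟨k₂, fun x => by rw [hφ₂ x, LinearMap.zero_apply, zero_add]⟩
        have h2 := self_add_add w z
        rw [hT _ h1, add_zero] at h2
        rw [h2, hz] at hw
        exact absurd hw (by decide)
      have hne : φ₁ ≠ φ₂ := by
        rintro rfl
        apply hrad
        refine ⟨φ₁ (w + z) + k₁ + k₂, ?_⟩
        intro x
        have h1 := hφ₁ (x + (w + z))
        have h2 := hφ₂ x
        have h3 : x + (w + z) + (w + y) = x + (y + z) := by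
          have := add_self' w
          calc x + (w + z) + (w + y) = x + (y + z) + (w + w) := by abel
            _ = _ := by rw [this, add_zero]
        rw [h3, map_add] at h1
        generalize f (x + (y + z)) = p at *
        generalize f (x + (w + z)) = q at *
        generalize f x = r at *
        generalize φ₁ x = s at *
        generalize φ₁ (w + z) = t at *
        clear hφ₁ hφ₂ hcon hrad hφ₁0 hφ₂0
        revert p q r s t k₁ k₂
        decide
      obtain ⟨v, hv1, hv2⟩ := exists_sep hφ₁0 hφ₂0 hne
      have hself : φ₁ (w + y) = 0 := polar_self hφ₁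
      -- all points with both derivatives zero have `f = 1`
      have hF : ∀ x, φ₁ x + k₁ = 0 → φ₂ x + k₂ = 0 → f x = 1 := by
        intro x h1 h2
        rcases zmod2_cases (f x) with h | h
        · exfalso
          have h3 := hφ₁ x
          have h4 := hφ₂ x
          rw [h1, h, add_zero] at h3
          rw [h2, h, add_zero] at h4
          apply hcon x h
          · rw [← h3]
            congr 1
            abel
          · rw [← h4]
            congr 1
            abel
        · exact h
      -- an injection from `{f = 0}` to `{f = 1}`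
      have hle : (univ.filter (fun x => f x = 0)).card ≤ (univ.filter (fun x => f x = 1)).card := by
        apply Finset.card_le_card_of_injOn
          (fun x => if φ₁ x + k₁ = 1 then x + (w + y) else x + v)
        · intro x hx
          rw [Finset.mem_coe, Finset.mem_filter] at hx ⊢
          refine ⟨mem_univ _, ?_⟩
          simp only
          split_ifs with h
          · have h1 := hφ₁ x
            rw [h, hx.2, add_zero] at h1
            exact h1
          · have h1 : φ₁ x + k₁ = 0 := by
              rcases zmod2_cases (φ₁ x + k₁) with h' | h'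
              · exact h'
              · exact absurd h' h
            have h2 : φ₂ x + k₂ = 1 := by
              rcases zmod2_cases (φ₂ x + k₂) with h' | h'
              · have := hF x h1 h'
                rw [hx.2] at this
                exact absurd this (by decide)
              · exact h'
            apply hF
            · rw [map_add, hv1, add_zero, h1]
            · rw [map_add, hv2, add_right_comm, h2]
              rfl
        · intro x hx x' hx' h
          simp only at h
          split_ifs at h with h1 h2 h2
          · exact add_right_cancel h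
          · exfalso
            have h3 : φ₁ (x + (w + y)) = φ₁ (x' + v) := by rw [h]
            rw [map_add φ₁ x, map_add φ₁ x', hself, hv1, add_zero, add_zero] at h3
            rw [h3] at h1
            exact h2 h1
          · exfalso
            have h3 : φ₁ (x + v) = φ₁ (x' + (w + y)) := by rw [h]
            rw [map_add φ₁ x, map_add φ₁ x', hself, hv1, add_zero, add_zero] at h3
            rw [← h3] at h2
            exact h1 h2
          · exact add_right_cancel h
      omega
  obtain ⟨g₁, hg1, h1, h2, -⟩ := hstep (u + w)
  have h3 : g₁ u = w := by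
    rw [h2 u (by rw [self_add_add, hu, hw]), self_add_add]
  obtain ⟨g₂, hg2, h4, h5, h6⟩ := hfix (g₁ u') w' (by rw [h1, hu']) hw'
  refine ⟨g₁.trans g₂, hmul _ _ hg1 hg2, ?_, ?_, ?_⟩
  · intro x
    rw [AffineEquiv.trans_apply, h4, h1]
  · rw [AffineEquiv.trans_apply, h3, h5]
  · rw [AffineEquiv.trans_apply, h6]

end Pool.Agent.SIT
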